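import Pool.Agent.Lib.MP_177a0e_gt.LT.Gk
import Pool.Agent.Lib.MP_177a0e_gt.Sig.Cut1
import Pool.Agent.Lib.MP_177a0e_gt.Sig.Cut2

/-!
# the states of `u ++ v` and of `u`, saddle, `v` as pairs, and the form.
-/

namespace Pool.Agent.Lib.MP_177a0e_gt.LT

open Pool.Agent.Lib.MP_177a0e_gt.Tangle Pool.Agent.Lib.MP_177a0e_gt.Tangle.Gen
open Pool.Agent.Lib.MP_177a0e_gt.Sig

variable {R : Type} [Field R] {P : Slice → Submodule R ((ℕ → R) × (ℕ → R))} {Λ : Submodule R (ℕ → R)}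

private theorem ck1_ct_add (n : ℕ) (x y : ℕ → ℕ → R) : ct n (x + y) = ct n x + ct n y := by
  funext j
  by_cases h : j ≤ n <;> simp [ct, h]

private theorem ck1_ct_smul (n : ℕ) (r : R) (x : ℕ → ℕ → R) : ct n (r • x) = r • ct n x := by
  funext j
  by_cases h : j ≤ n <;> simp [ct, h]

private theorem ck1_mem (u v : Word) (L : ℕ) {x : ℕ → ℕ → R} (hx : x ∈ Closed P Λ (u ++ v)) :
    (ct u.length x, sh u.length x) ∈ Pair P Λ u v (L + 1) := by
  obtain ⟨⟨h1, h2, h3⟩, h4⟩ := hx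
  rw [run_append] at h1
  refine ⟨⟨⟨?_, fun j => ?_, fun j hj => ?_⟩, ?_⟩, ⟨h1.2, fun j => h2 _, fun j hj => ?_⟩, fun i _ => ?_⟩
  · refine (run_congr fun j hj => ?_).1 h1.1
    simp [ct, hj]
  · by_cases h : j ≤ u.length
    · simpa [ct, h] using h2 j
    · simp [ct, h]
  · simp [ct, not_le.2 hj]
  · simpa [ct] using h4
  · refine h3 _ ?_
    rw [List.length_append]
    omega
  · simp [ct, sh]

theorem kcut_app (c : ℚ) (u v : Word) (L : ℕ) : ∃ Φ : St (u ++ v) ≃ₗ[ℚ] LinearMap.ker (be (fitM ℚ) ⊤ u v L), ∀ x x' : St (u ++ v),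
    kq c (u ++ v) x.1 x'.1 = kq c u (Φ x).1.1.1 (Φ x').1.1.1 + kq c v (Φ x).1.1.2 (Φ x').1.1.2 := by
  let f : St (u ++ v) →ₗ[ℚ] LinearMap.ker (be (fitM ℚ) ⊤ u v L) :=
    { toFun := fun x => ⟨⟨(ct u.length x.1, sh u.length x.1), ck1_mem u v L x.2⟩, by
        rw [LinearMap.mem_ker]
        simp [be, ct, sh]⟩
      map_add' := fun x y => by
        apply Subtype.ext
        apply Subtype.ext
        exact Prod.ext (ck1_ct_add _ _ _) rfl
      map_smul' := fun r x => by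
        apply Subtype.ext
        apply Subtype.ext
        exact Prod.ext (ck1_ct_smul _ _ _) rfl }
  have hf : ∀ x, (f x).1.1 = (ct u.length x.1, sh u.length x.1) := fun x => rfl
  have hinj : Function.Injective f := by
    intro x y hxy
    have h0 : (f x).1.1 = (f y).1.1 := by rw [hxy]
    rw [hf, hf] at h0
    have h1 := congrArg Prod.fst h0
    have h2 := congrArg Prod.snd h0
    apply Subtype.ext
    funext j
    by_cases hj : j ≤ u.length
    · have := congrFun h1 j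
      simpa [ct, hj] using this
    · have := congrFun h2 (j - u.length)
      simp only [sh] at this
      rwa [Nat.sub_add_cancel (not_le.1 hj).le] at this
  have hsurj : Function.Surjective f := by
    rintro ⟨⟨⟨y, z⟩, ⟨⟨hy1, hy2, hy3⟩, hy4⟩, ⟨hz1, hz2, hz3⟩, hyz⟩, hk⟩
    have hk' : z 0 (L + 1) = y u.length (L + 1) := by
      have h := LinearMap.mem_ker.1 hk
      exact sub_eq_zero.1 h
    have hglue : z 0 = y u.length := by
      funext i
      by_cases hi : i = L + 1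
      · rw [hi]
        exact hk'
      · exact hyz i hi
    let x : ℕ → ℕ → ℚ := fun j => if j ≤ u.length then y j else z (j - u.length)
    have hxu : ∀ j, j ≤ u.length → x j = y j := fun j hj => by simp [x, hj]
    have hxs : sh u.length x = z := by
      funext j
      simp only [sh, x]
      by_cases hj : j = 0
      · subst hj
        simp [hglue]
      · rw [if_neg (by omega), Nat.add_sub_cancel]
    have hxm : x ∈ St (u ++ v) := by
      refine ⟨⟨?_, fun j => ?_, fun j hj => ?_⟩, ?_⟩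
      · rw [run_append, hxs]
        exact ⟨(run_congr hxu).2 hy1, hz1⟩
      · by_cases hj : j ≤ u.length
        · rw [hxu j hj]
          exact hy2 j
        · simp only [x, if_neg hj]
          exact hz2 _
      · rw [List.length_append] at hj
        have h1 : ¬ j ≤ u.length := by omega
        simp only [x, if_neg h1]
        exact hz3 _ (by omega)
      · show x 0 = 0
        rw [hxu 0 (Nat.zero_le _)]
        exact hy4
    refine ⟨⟨x, hxm⟩, ?_⟩
    apply Subtype.ext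
    apply Subtype.ext
    rw [hf]
    refine Prod.ext ?_ hxs
    funext j
    by_cases hj : j ≤ u.length
    · simp only [ct, if_pos hj]
      exact hxu j hj
    · simp only [ct, if_neg hj]
      exact (hy3 j (not_le.1 hj)).symm
  refine ⟨LinearEquiv.ofBijective f ⟨hinj, hsurj⟩, fun x x' => ?_⟩
  rw [LinearEquiv.ofBijective_apply, LinearEquiv.ofBijective_apply, hf, hf, kq_append]
  congr 1
  exact kq_congr (fun j hj => by simp [ct, hj]) (fun j hj => by simp [ct, hj])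

private theorem ck2_facts (hP : ∀ (p q : List Bool) (x : Bool), P ⟨p, cup x, q⟩ = fitM R ⟨p, cup x, q⟩ ∧ P ⟨p, cap x, q⟩ = fitM R ⟨p, cap x, q⟩)
    (a : Word) (x : Bool) (p q : List Bool) (ha : a = [⟨p, cap x, q⟩, ⟨p, cup x, q⟩]) {t : ℕ → ℕ → R} :
    Run P a t ↔ ((∀ i, i ≤ p.length → t 0 i = t 1 i) ∧ ∀ i, p.length ≤ i → t 0 (i + 2) = t 1 i) ∧
      ((∀ i, i ≤ p.length → t 2 i = t 1 i) ∧ ∀ i, p.length ≤ i → t 2 (i + 2) = t 1 i) := by
  subst ha
  have h1 : Run P [⟨p, cap x, q⟩, ⟨p, cup x, q⟩] t ↔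
      (t 0, t 1) ∈ P ⟨p, cap x, q⟩ ∧ (t 1, t 2) ∈ P ⟨p, cup x, q⟩ ∧ True := Iff.rfl
  rw [h1, (hP p q x).1, (hP p q x).2]
  have h2 : (t 0, t 1) ∈ fitM R ⟨p, cap x, q⟩ ↔
      ((∀ i, i ≤ p.length → t 0 i = t 1 i) ∧ ∀ i, p.length ≤ i → t 0 (i + 2) = t 1 i) := Iff.rfl
  have h3 : (t 1, t 2) ∈ fitM R ⟨p, cup x, q⟩ ↔
      ((∀ i, i ≤ p.length → t 2 i = t 1 i) ∧ ∀ i, p.length ≤ i → t 2 (i + 2) = t 1 i) := Iff.rfl
  rw [h2, h3, and_true]

private theorem ck2_mem (hP : ∀ (p q : List Bool) (x : Bool), P ⟨p, cup x, q⟩ = fitM R ⟨p, cup x, q⟩ ∧ P ⟨p, cap x, q⟩ = fitM R ⟨p, cap x, q⟩)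
    (u v a : Word) (x : Bool) (p q : List Bool) (ha : a = [⟨p, cap x, q⟩, ⟨p, cup x, q⟩])
    (τ : Tri P Λ u a v) : (τ.1.1, τ.1.2.2) ∈ Pair P Λ u v (p.length + 1) := by
  obtain ⟨⟨y, t, z⟩, hy, ht, hz, h1, h2⟩ := τ
  have hr := (ck2_facts (t := t) hP a x p q ha).1 ht.1
  have hl : a.length = 2 := by rw [ha]; rfl
  have h1' : y u.length = t 0 := h1
  have h2' : t a.length = z 0 := h2
  rw [hl] at h2'
  refine ⟨hy, hz, fun i hi => ?_⟩
  change z 0 i = y u.length i
  rw [h1', ← h2']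
  rcases Nat.lt_or_ge p.length i with h | h
  · obtain ⟨j, rfl⟩ : ∃ j, i = j + 2 := ⟨i - 2, by omega⟩
    rw [hr.2.2 j (by omega), hr.1.2 j (by omega)]
  · rw [hr.2.1 i h, hr.1.1 i h]

private theorem ck2_ker (hP : ∀ (p q : List Bool) (x : Bool), P ⟨p, cup x, q⟩ = fitM R ⟨p, cup x, q⟩ ∧ P ⟨p, cap x, q⟩ = fitM R ⟨p, cap x, q⟩)
    (u v a : Word) (x : Bool) (p q : List Bool) (ha : a = [⟨p, cap x, q⟩, ⟨p, cup x, q⟩])
    (τ : Tri P Λ u a v) : (⟨(τ.1.1, τ.1.2.2), ck2_mem hP u v a x p q ha τ⟩ :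
      Pair P Λ u v (p.length + 1)) ∈ LinearMap.ker (al P Λ u v p.length) := by
  rw [LinearMap.mem_ker]
  obtain ⟨⟨y, t, z⟩, hy, ht, hz, h1, h2⟩ := τ
  have hr := (ck2_facts (t := t) hP a x p q ha).1 ht.1
  have h1' : y u.length = t 0 := h1
  change y u.length p.length - y u.length (p.length + 2) = 0
  rw [h1', hr.1.1 _ le_rfl, hr.1.2 _ le_rfl, sub_self]

private def ck2_map (hP : ∀ (p q : List Bool) (x : Bool), P ⟨p, cup x, q⟩ = fitM R ⟨p, cup x, q⟩ ∧ P ⟨p, cap x, q⟩ = fitM R ⟨p, cap x, q⟩)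
    (u v a : Word) (x : Bool) (p q : List Bool) (ha : a = [⟨p, cap x, q⟩, ⟨p, cup x, q⟩]) :
    Tri P Λ u a v →ₗ[R] LinearMap.ker (al P Λ u v p.length) where
  toFun τ := ⟨⟨(τ.1.1, τ.1.2.2), ck2_mem hP u v a x p q ha τ⟩, ck2_ker hP u v a x p q ha τ⟩
  map_add' _ _ := rfl
  map_smul' _ _ := rfl

private theorem ck2_bij (hP : ∀ (p q : List Bool) (x : Bool), P ⟨p, cup x, q⟩ = fitM R ⟨p, cup x, q⟩ ∧ P ⟨p, cap x, q⟩ = fitM R ⟨p, cap x, q⟩)
    (hΛ : ∀ x ∈ Λ, ∀ L : ℕ, (fun i => if i ≤ L then x i else x (i + 2)) ∈ Λ)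
    (u v a : Word) (x : Bool) (p q : List Bool) (ha : a = [⟨p, cap x, q⟩, ⟨p, cup x, q⟩]) :
    Function.Bijective (ck2_map (Λ := Λ) hP u v a x p q ha) := by
  have hl : a.length = 2 := by rw [ha]; rfl
  constructor
  · rw [injective_iff_map_eq_zero]
    intro τ h0
    obtain ⟨⟨y, t, z⟩, hy, ht, hz, h1, h2⟩ := τ
    have hy0 : y = 0 := congrArg (fun s => s.1.1.1) h0
    have hz0 : z = 0 := congrArg (fun s => s.1.1.2) h0
    have hr := (ck2_facts (t := t) hP a x p q ha).1 ht.1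
    have h1' : y u.length = t 0 := h1
    have h2' : t a.length = z 0 := h2
    have ht0 : t = 0 := by
      funext j
      match j with
      | 0 =>
        rw [← h1', hy0]
        rfl
      | 1 =>
        funext i
        rcases Nat.lt_or_ge p.length i with h | h
        · rw [← hr.1.2 i h.le, ← h1', hy0]
          rfl
        · rw [← hr.1.1 i h, ← h1', hy0]
          rfl
      | 2 =>
        rw [← hl, h2', hz0]
        rfl
      | j + 3 => exact ht.2.2 (j + 3) (by omega)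
    subst hy0 hz0 ht0
    rfl
  · rintro ⟨⟨⟨y, z⟩, hy, hz, hyz⟩, hk⟩
    rw [LinearMap.mem_ker] at hk
    have hk' : y u.length p.length = y u.length (p.length + 2) := sub_eq_zero.1 hk
    have hyz' : ∀ i, i ≠ p.length + 1 → z 0 i = y u.length i := hyz
    let t : ℕ → ℕ → R := fun j => match j with
      | 0 => y u.length
      | 1 => fun i => if i ≤ p.length then y u.length i else y u.length (i + 2)
      | 2 => z 0
      | _ => 0
    have ht0 : t 0 = y u.length := rfl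
    have ht1 : t 1 = fun i => if i ≤ p.length then y u.length i else y u.length (i + 2) := rfl
    have ht2 : t 2 = z 0 := rfl
    have hyL : y u.length ∈ Λ := hy.1.2.1 _
    have ht : t ∈ Runs P Λ a := by
      refine ⟨(ck2_facts hP a x p q ha).2 ⟨⟨fun i hi => ?_, fun i hi => ?_⟩,
        ⟨fun i hi => ?_, fun i hi => ?_⟩⟩, fun j => ?_, fun j hj => ?_⟩
      · rw [ht0, ht1]
        simp only [if_pos hi]
      · rw [ht0, ht1]
        rcases Nat.lt_or_ge p.length i with h | h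
        · simp only [if_neg (not_le.2 h)]
        · simp only [if_pos h]
          obtain rfl : i = p.length := le_antisymm h hi
          exact hk'.symm
      · rw [ht2, ht1]
        simp only [if_pos hi]
        exact hyz' i (by omega)
      · rw [ht2, ht1, hyz' (i + 2) (by omega)]
        rcases Nat.lt_or_ge p.length i with h | h
        · simp only [if_neg (not_le.2 h)]
        · simp only [if_pos h]
          obtain rfl : i = p.length := le_antisymm h hi
          exact hk'.symm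
      · match j with
        | 0 => exact hyL
        | 1 => exact hΛ _ hyL p.length
        | 2 => exact hz.2.1 0
        | j + 3 => exact Λ.zero_mem
      · rw [hl] at hj
        match j, hj with
        | j + 3, _ => rfl
    refine ⟨⟨(y, t, z), hy, ht, hz, rfl, ?_⟩, rfl⟩
    change t a.length = z 0
    rw [hl]
    exact ht2

theorem kcut_saddle (c : ℚ) (u v a : Word) (x : Bool) (p q : List Bool)
    (ha : a = [⟨p, cap x, q⟩, ⟨p, cup x, q⟩]) :
    ∃ Φ : St (u ++ a ++ v) ≃ₗ[ℚ] LinearMap.ker (al (fitM ℚ) ⊤ u v p.length), ∀ t t' : St (u ++ a ++ v),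
      kq c (u ++ a ++ v) t.1 t'.1 = kq c u (Φ t).1.1.1 (Φ t').1.1.1 + kq c v (Φ t).1.1.2 (Φ t').1.1.2 := by
  obtain ⟨Φ, hΦ⟩ := kglue3 c u a v
  refine ⟨Φ.trans (LinearEquiv.ofBijective _ (ck2_bij (P := fitM ℚ) (Λ := ⊤) (fun _ _ _ => ⟨rfl, rfl⟩)
    (fun _ _ _ => Submodule.mem_top) u v a x p q ha)), fun t t' => ?_⟩
  rw [hΦ t t']
  have h0 : ∀ y y' : ℕ → ℕ → ℚ, kq c a y y' = 0 := by
    intro y y'
    rw [ha]
    simp [kq, kl, sn]
  rw [h0, add_zero]
  rfl

theorem cupz_fit {R : Type} [Field R] (u v : R) (x : Bool) (p q : List Bool) :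
    colZ u v ⟨p, cup x, q⟩ = fitM R ⟨p, cup x, q⟩ ∧ colZ u v ⟨p, cap x, q⟩ = fitM R ⟨p, cap x, q⟩ :=
  ⟨Submodule.ext fun _ => ⟨fun h => h.1, fun h => ⟨h, trivial⟩⟩,
    Submodule.ext fun _ => ⟨fun h => h.1, fun h => ⟨h, trivial⟩⟩⟩

theorem colZ_le {R : Type} [Field R] (u v : R) (s : Slice) : colZ u v s ≤ fitM R s := fun _ h => h.1

end Pool.Agent.Lib.MP_177a0e_gt.LT
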