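import Pool.Agent.Lib.MP_177a0e_gt.LT.Defs
import Pool.Agent.Lib.MP_177a0e_gt.Sig.La3a
import Pool.Agent.Lib.MP_177a0e_gt.Sig.La3b

/-!
# the linear algebra of a saddle.

MODEL: `Sig/La3.lean`. `D` is a space over `QE c = ℚ (δ)`, `V` one over `ℚ`, `π` any map.
PROOF. For `f, f'` in `D`: `B (π f) (π f') = κ (im β(f) re α(f') + im α(f) re β(f'))` (`h1`, `h2`, `h3`) is symmetric in `f, f'`; so `im β(f) re α(f') - re β(f) im α(f')` … precisely: (1) `im β(f) re α(f') + im α(f) re β(f') = im β(f') re α(f) + im α(f') re β(f)` for all `f, f'`. With `δ f'` for `f'` (`re (δ z) = (c ^ 2 - 1) im z`, `im (δ z) = re z`):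
(2) `(c ^ 2 - 1) (im β(f) im α(f') + im α(f) im β(f')) = re β(f') re α(f) + re α(f') re β(f)`. Cases:
* `α = 0` and `β = 0` (as functionals): the kernels agree; `sg_ker` (in `La3a`) twice: `|sg B - sg (B on ker la)| ≤ 1`, `|sg B - sg (B on ker lb)| ≤ 1`.
* `α ≠ 0` and `β ≠ 0`: the kernels agree: if `α(f) = 0` then by (1), (2) `im α(f') re β(f) = im β(f) re α(f')` and `(c ^ 2 - 1) im β(f) im α(f') = re α(f') re β(f)` for all `f'`; choose `f'` with `α(f') = 1` (`D` is a space over the field `QE c`): `im β(f) = 0` and `re β(f) = 0`. Similarly the other inclusion (choose `β(f') = 1`). Then `sg_ker` twice as before, and the dimensions agree.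
* `α = 0`, `β ≠ 0`: `dim ker α - dim ker β = 1` (`LinearMap.finrank_range_add_finrank_ker`, `β` is surjective), and both signatures are `sg B`: choose `f` with `β(f) = 1`: `B (π f) e = 0` for all `e` and `lb (π f) = 1`: `sg_rad` for `lb`: `sg B = sg (B on ker lb)`. For `f' = δ f`: `β(f') = δ`: `B (π f') e = κ la e`, `la (π f') = re α(f') = 0`:
  if `la ≠ 0` then `sg_iso` (`La3b`) with `r = π f'`, `c = κ`: `sg B = sg (B on ker la)`; if `la = 0` then `ker la = ⊤` (see `La3.lean`).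
* `α ≠ 0`, `β = 0`: the same with `la`, `lb` exchanged.
-/

namespace Pool.Agent.Lib.MP_177a0e_gt.LT

open Pool.Agent.Lib.MP_177a0e_gt.Tangle Pool.Agent.Lib.MP_177a0e_gt.Tangle.Gen
open Pool.Agent.Lib.MP_177a0e_gt.Sig

private theorem la4_bd {K D : Type*} [Field K] [AddCommGroup D] [Module K D] [FiniteDimensional K D] (g : D →ₗ[K] K) :
    (Module.finrank K D : ℤ) - 1 ≤ (Module.finrank K (LinearMap.ker g) : ℤ) ∧
      (Module.finrank K (LinearMap.ker g) : ℤ) ≤ (Module.finrank K D : ℤ) := by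
  have h1 := LinearMap.finrank_range_add_finrank_ker g
  have h2 : Module.finrank K (LinearMap.range g) ≤ 1 := by
    have h3 := Submodule.finrank_le (LinearMap.range g)
    rwa [Module.finrank_self] at h3
  omega

private theorem la4_eq {K D : Type*} [Field K] [AddCommGroup D] [Module K D] [FiniteDimensional K D]
    (s t : ℤ) (g g' : D →ₗ[K] K) (h : s = t) :
    |s - t| + 2 * |(Module.finrank K (LinearMap.ker g) : ℤ) - (Module.finrank K (LinearMap.ker g') : ℤ)| ≤ 2 := by
  have h1 := la4_bd g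
  have h2 := la4_bd g'
  have h3 : |(Module.finrank K (LinearMap.ker g) : ℤ) - (Module.finrank K (LinearMap.ker g') : ℤ)| ≤ 1 := by
    rw [abs_le]
    constructor
    · linarith [h1.1, h2.2]
    · linarith [h1.2, h2.1]
  rw [h, sub_self, abs_zero]
  linarith

/-- a vector with value `1` -/
private theorem la4_one {K D : Type*} [Field K] [AddCommGroup D] [Module K D] (g : D →ₗ[K] K) (hg : g ≠ 0) :
    ∃ f, g f = 1 := by
  obtain ⟨f, hf⟩ : ∃ f, g f ≠ 0 := by
    by_contra hcon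
    push Not at hcon
    exact hg (LinearMap.ext hcon)
  exact ⟨(g f)⁻¹ • f, by rw [map_smul, smul_eq_mul, inv_mul_cancel₀ hf]⟩

/-- the case `α = 0`, `β ≠ 0` -/
private theorem la4_zero (c : ℚ) [Adm c] {V D : Type*} [AddCommGroup V] [Module ℚ V] [FiniteDimensional ℚ V]
    [AddCommGroup D] [Module (QE c) D] [FiniteDimensional (QE c) D]
    (B : LinearMap.BilinForm ℚ V) (hB : ∀ x y, B x y = B y x) (la lb : V →ₗ[ℚ] ℚ) (α β : D →ₗ[QE c] QE c) (π : D → V)
    (κ : ℚ) (hκ : κ ≠ 0) (h1 : ∀ f e, B (π f) e = κ * ((β f).im * la e + (α f).im * lb e))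
    (h2 : ∀ f, la (π f) = (α f).re) (h3 : ∀ f, lb (π f) = (β f).re) (hα : α = 0) (hβ : β ≠ 0) :
    sg (B.restrict (LinearMap.ker la)) = sg (B.restrict (LinearMap.ker lb)) := by
  have hα' : ∀ f, α f = 0 := fun f => by rw [hα]; rfl
  obtain ⟨f, hf⟩ := la4_one β hβ
  have e1 : sg B = sg (B.restrict (LinearMap.ker lb)) := by
    refine sg_rad B hB lb (π f) (fun e => ?_) ?_
    · rw [h1, hf, hα', QuadraticAlgebra.im_one, QuadraticAlgebra.im_zero]
      ring
    · rw [h3, hf, QuadraticAlgebra.re_one]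
      exact one_ne_zero
  have e2 : sg B = sg (B.restrict (LinearMap.ker la)) := by
    by_cases hl : la = 0
    · have hk : LinearMap.ker la = ⊤ := by rw [hl]; exact LinearMap.ker_zero
      exact sg_equiv (B.restrict (LinearMap.ker la)) B (LinearEquiv.ofTop _ hk) (fun x => rfl)
    · refine sg_iso B hB la hl (π ((⟨0, 1⟩ : QE c) • f)) κ hκ (fun e => ?_) ?_
      · have h4 : β ((⟨0, 1⟩ : QE c) • f) = ⟨0, 1⟩ := by rw [map_smul, hf, smul_eq_mul, mul_one]
        rw [h1, h4, hα', QuadraticAlgebra.im_zero]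
        ring
      · rw [h2, hα', QuadraticAlgebra.re_zero]
  rw [← e1, e2]

/-- the kernels agree -/
private theorem la4_ker (c : ℚ) [Adm c] {V D : Type*} [AddCommGroup V] [Module ℚ V]
    [AddCommGroup D] [Module (QE c) D]
    (B : LinearMap.BilinForm ℚ V) (hB : ∀ x y, B x y = B y x) (la lb : V →ₗ[ℚ] ℚ) (α β : D →ₗ[QE c] QE c) (π : D → V)
    (κ : ℚ) (hκ : κ ≠ 0) (h1 : ∀ f e, B (π f) e = κ * ((β f).im * la e + (α f).im * lb e))
    (h2 : ∀ f, la (π f) = (α f).re) (h3 : ∀ f, lb (π f) = (β f).re) (hα : α ≠ 0) (f : D) (hf : α f = 0) : β f = 0 := by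
  obtain ⟨g, hg⟩ := la4_one α hα
  have hsym : ∀ f', (β f).im * (α f').re + (α f).im * (β f').re = (β f').im * (α f).re + (α f').im * (β f).re := by
    intro f'
    have h4 := hB (π f) (π f')
    rw [h1, h1, h2, h2, h3, h3] at h4
    exact mul_left_cancel₀ hκ h4
  have h5 := hsym g
  have h6 := hsym ((⟨0, 1⟩ : QE c) • g)
  rw [hf, hg] at h5
  rw [map_smul, map_smul, hf, hg, smul_eq_mul, smul_eq_mul, mul_one] at h6
  simp only [QuadraticAlgebra.im_one, QuadraticAlgebra.re_one, QuadraticAlgebra.im_zero, QuadraticAlgebra.re_zero] at h5 h6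
  ext
  · rw [QuadraticAlgebra.re_zero]
    linarith
  · rw [QuadraticAlgebra.im_zero]
    linarith

theorem sg_sad2 (c : ℚ) [Adm c] {V D : Type*} [AddCommGroup V] [Module ℚ V] [FiniteDimensional ℚ V]
    [AddCommGroup D] [Module (QE c) D] [FiniteDimensional (QE c) D]
    (B : LinearMap.BilinForm ℚ V) (hB : ∀ x y, B x y = B y x) (la lb : V →ₗ[ℚ] ℚ) (α β : D →ₗ[QE c] QE c) (π : D → V)
    (κ : ℚ) (hκ : κ ≠ 0) (h1 : ∀ f e, B (π f) e = κ * ((β f).im * la e + (α f).im * lb e))
    (h2 : ∀ f, la (π f) = (α f).re) (h3 : ∀ f, lb (π f) = (β f).re) :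
    |sg (B.restrict (LinearMap.ker la)) - sg (B.restrict (LinearMap.ker lb))| +
      2 * |(Module.finrank (QE c) (LinearMap.ker α) : ℤ) - (Module.finrank (QE c) (LinearMap.ker β) : ℤ)| ≤ 2 := by
  have h1' : ∀ f e, B (π f) e = κ * ((α f).im * lb e + (β f).im * la e) := fun f e => by rw [h1, add_comm]
  have hK : LinearMap.ker α = LinearMap.ker β →
      |sg (B.restrict (LinearMap.ker la)) - sg (B.restrict (LinearMap.ker lb))| +
      2 * |(Module.finrank (QE c) (LinearMap.ker α) : ℤ) - (Module.finrank (QE c) (LinearMap.ker β) : ℤ)| ≤ 2 := by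
    intro h
    rw [h, sub_self, abs_zero, mul_zero, add_zero]
    have a1 := abs_le.1 (sg_ker B la)
    have a2 := abs_le.1 (sg_ker B lb)
    rw [abs_le]
    constructor
    · linarith [a1.1, a1.2, a2.1, a2.2]
    · linarith [a1.1, a1.2, a2.1, a2.2]
  by_cases hα : α = 0
  · by_cases hβ : β = 0
    · exact hK (by rw [hα, hβ])
    · exact la4_eq _ _ _ _ (la4_zero c B hB la lb α β π κ hκ h1 h2 h3 hα hβ)
  · by_cases hβ : β = 0
    · exact la4_eq _ _ _ _ (la4_zero c B hB lb la β α π κ hκ h1' h3 h2 hβ hα).symm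
    · refine hK (le_antisymm (fun f hf => ?_) fun f hf => ?_)
      · rw [LinearMap.mem_ker] at hf ⊢
        exact la4_ker c B hB la lb α β π κ hκ h1 h2 h3 hα f hf
      · rw [LinearMap.mem_ker] at hf ⊢
        exact la4_ker c B hB lb la β α π κ hκ h1' h3 h2 hβ f hf

end Pool.Agent.Lib.MP_177a0e_gt.LT
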