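import Pool.Agent.Lib.MP_177a0e_gt.LT.Sk
import Pool.Agent.Lib.MP_177a0e_gt.Sig.Edg

/-!
# the form of a cut colouring and a cut state.

MODEL: `Sig/StC.lean`. `L = |p|`, `d = p ++ [x, !x] ++ q` the level between `u` and `v`; `f = (y, z)` in `Pair (colZ ..) ⊤ u v (L + 1)`, `e = (y', z')` in `Pair (fitM ℚ) ⊤ u v (L + 1)`.
`sk`: `kq c u (re y) y' = om d (y_|u|) (y'_|u|) - om [true] (y 0) (y' 0)`, the second term is `0` (`y 0 = 0`); `kq c v (re z) z' = om [true] (z_|v|) (z'_|v|) - om d (z 0) (z' 0)`, and the first term is `0`: all values of `z_|v|` at the gaps `0` and `1` are `0`: `edg0`: `z_|v| 0 = z 0 0 = y_|u| 0 = y 0 0 = 0` (`0 ≠ L + 1`);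
`edg_last`: `y_|u| i = 0` for `i ≥ d.length` (`y 0 = 0`), `z 0 i = y_|u| i` for `i ≠ L + 1` (`L + 1 < d.length`), so `z_|v| i = 0` for `i ≥ 1` (`edg_last` for `v`, `d` and `[true]`). The same for `y'`, `z'` (not needed, `oms c true 0 0 wl wr = 0`).
The rest: `om d (y_|u|) (y'_|u|) - om d (z 0) (z' 0)`: `om_append`: the parts `p` and `q` agree (`om_congr`), the middle part is `om [x, !x]` with the outer values `l, r` (equal for both) and the inner values `m = y_|u| (L + 1)`, `m' = z 0 (L + 1)`; `wl, wr, wm, wm'` the same for `e`. For `x = true`: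
`om [true, false] (l, m, r) (wl, wm, wr) = -(1 - c ^ 2) [(c im l - re l) wl - (c im r - re r) wr + (im l - im r) wm + im m (wl - wr)]`, so the difference is `(1 - c ^ 2) [im (l - r) (wm' - wm) + im (m' - m) (wl - wr)]`; for `x = false` it is minus this (`ring`).
`al = l - r`, `be = m' - m`.
-/

namespace Pool.Agent.Lib.MP_177a0e_gt.LT

open Pool.Agent.Lib.MP_177a0e_gt.Tangle Pool.Agent.Lib.MP_177a0e_gt.Tangle.Gen
open Pool.Agent.Lib.MP_177a0e_gt.Sig

private theorem StL_fit (c : ℚ) [Adm c] : ∀ s, colZ (uE c) (vE c) s ≤ fitM (QE c) s := fun _ _ hx => hx.1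

private theorem StL_alg (c : ℚ) (x : Bool) (l m m' r : QE c) (wl wm wm' wr : ℚ) :
    (oms c x l m wl wm + oms c (!x) m r wm wr) - (oms c x l m' wl wm' + oms c (!x) m' r wm' wr) =
      (if x then 1 - c ^ 2 else -(1 - c ^ 2)) *
        ((m' - m).im * (wl - wr) + (l - r).im * (wm' - wm)) := by
  cases x
  · simp only [oms, Bool.not_false, if_true, Bool.false_eq_true, if_false,
      QuadraticAlgebra.im_sub]
    ring
  · simp only [oms, Bool.not_true, if_true, Bool.false_eq_true, if_false,
      QuadraticAlgebra.im_sub]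
    ring

theorem st_pair (c : ℚ) [Adm c] {u v : Word} {d : List Bool} {x : Bool} {p q : List Bool} (hd : d = p ++ [x, !x] ++ q)
    (hu : Valid [true] u d) (hv : Valid d v [true]) (f : Pair (colZ (uE c) (vE c)) ⊤ u v (p.length + 1))
    (e : Pair (fitM ℚ) ⊤ u v (p.length + 1)) :
    kq c u (reS f.1.1) e.1.1 + kq c v (reS f.1.2) e.1.2 = (if x then 1 - c ^ 2 else -(1 - c ^ 2)) *
      ((be _ _ u v p.length f).im * al _ _ u v p.length e + (al _ _ u v p.length f).im * be _ _ u v p.length e) := by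
  obtain ⟨⟨⟨hf1, _, _⟩, hf0⟩, ⟨hf2, _, _⟩, hf3⟩ := f.2
  obtain ⟨⟨⟨he1, _, _⟩, he0⟩, ⟨he2, _, _⟩, he3⟩ := e.2
  rw [sk c hu f.1.1 e.1.1 hf1 he1, sk c hv f.1.2 e.1.2 hf2 he2]
  have hlen : d.length = p.length + 2 + q.length := by
    rw [hd]
    simp only [List.length_append, List.length_cons, List.length_nil]
  have h1 : om c [true] (f.1.1 0) (e.1.1 0) = 0 := by
    rw [hf0, he0]
    simp [om, oms]
  have hu0 : ∀ i, d.length ≤ i → f.1.1 u.length i = 0 :=
    edg_last (StL_fit c) hu hf1 (fun i _ => by rw [hf0]; rfl)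
  have hv0 : ∀ i, ([true] : List Bool).length ≤ i → f.1.2 v.length i = 0 :=
    edg_last (StL_fit c) hv hf2 (fun i hi => by
      rw [hf3 i (by omega)]
      exact hu0 i hi)
  have h2 : f.1.2 v.length 0 = 0 := by
    rw [edg0 (StL_fit c) hf2 v.length le_rfl, hf3 0 (by omega),
      edg0 (StL_fit c) hf1 u.length le_rfl, hf0]
    rfl
  have h3 : om c [true] (f.1.2 v.length) (e.1.2 v.length) = 0 := by
    have h4 : f.1.2 v.length 1 = 0 := hv0 1 (by simp)
    simp [om, oms, h2, h4]
  rw [h1, h3]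
  have hom : ∀ (z : ℕ → QE c) (w : ℕ → ℚ), om c d z w = om c p z w +
      (oms c x (z p.length) (z (p.length + 1)) (w p.length) (w (p.length + 1)) +
        oms c (!x) (z (p.length + 1)) (z (p.length + 2)) (w (p.length + 1)) (w (p.length + 2))) +
      om c q (fun i => z (i + (p.length + 2))) (fun i => w (i + (p.length + 2))) := by
    intro z w
    rw [hd, om_append, om_append]
    have e1 : (p ++ [x, !x]).length = p.length + 2 := by
      simp
    rw [e1]
    simp only [om]
    rw [add_zero]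
    have e2 : 0 + p.length = p.length := by omega
    have e3 : 1 + p.length = p.length + 1 := by omega
    have e5 : 1 + 1 + p.length = p.length + 2 := by omega
    simp only [e2, e3, e5]
  rw [hom, hom]
  have hp : om c p (f.1.2 0) (e.1.2 0) = om c p (f.1.1 u.length) (e.1.1 u.length) :=
    om_congr c p _ _ _ _ (fun i hi => hf3 i (by omega)) (fun i hi => he3 i (by omega))
  have hq : om c q (fun i => f.1.2 0 (i + (p.length + 2))) (fun i => e.1.2 0 (i + (p.length + 2))) =
      om c q (fun i => f.1.1 u.length (i + (p.length + 2)))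
        (fun i => e.1.1 u.length (i + (p.length + 2))) :=
    om_congr c q _ _ _ _ (fun i _ => hf3 _ (by omega)) (fun i _ => he3 _ (by omega))
  rw [hp, hq, hf3 p.length (by omega), hf3 (p.length + 2) (by omega), he3 p.length (by omega),
    he3 (p.length + 2) (by omega)]
  have halg := StL_alg c x (f.1.1 u.length p.length) (f.1.1 u.length (p.length + 1))
    (f.1.2 0 (p.length + 1)) (f.1.1 u.length (p.length + 2)) (e.1.1 u.length p.length)
    (e.1.1 u.length (p.length + 1)) (e.1.2 0 (p.length + 1)) (e.1.1 u.length (p.length + 2))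
  show _ = (if x then 1 - c ^ 2 else -(1 - c ^ 2)) *
    ((f.1.2 0 (p.length + 1) - f.1.1 u.length (p.length + 1)).im *
      (e.1.1 u.length p.length - e.1.1 u.length (p.length + 2)) +
      (f.1.1 u.length p.length - f.1.1 u.length (p.length + 2)).im *
      (e.1.2 0 (p.length + 1) - e.1.1 u.length (p.length + 1)))
  rw [← halg]
  ring

end Pool.Agent.Lib.MP_177a0e_gt.LT
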