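import Pool.Agent.Lib.MP_177a0e_gt.LT.Defs

/-!
# the writhe under the elementary moves.
-/

namespace Pool.Agent.Lib.MP_177a0e_gt.LT

open Pool.Agent.Lib.MP_177a0e_gt.Tangle Pool.Agent.Lib.MP_177a0e_gt.Tangle.Gen
open Pool.Agent.Lib.MP_177a0e_gt.Sig

theorem wr_append (u v : Word) : wr (u ++ v) = wr u + wr v := by
  unfold wr
  rw [List.map_append, List.sum_append]

theorem wr_inter (g g' : Gen) (p q r : List Bool) :
    wr [⟨p, g, q ++ g'.src ++ r⟩, ⟨p ++ g.tgt ++ q, g', r⟩] = wr [⟨p ++ g.src ++ q, g', r⟩, ⟨p, g, q ++ g'.tgt ++ r⟩] := by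
  cases g <;> cases g' <;> simp [wr, sn, add_comm]

theorem wr_zig (x y : Bool) (p q p' q' : List Bool) : wr [⟨p, cup x, q⟩, ⟨p', cap y, q'⟩] = 0 := by
  simp [wr, sn]

theorem wr_saddle (x y : Bool) (p q p' q' : List Bool) : wr [⟨p, cap x, q⟩, ⟨p', cup y, q'⟩] = 0 := by
  simp [wr, sn]

theorem wr_r1cup (s x : Bool) (p q : List Bool) : wr [⟨p, cup x, q⟩, ⟨p, cross s x (!x), q⟩] = -sz s := by
  cases x <;> simp [wr, sn]

theorem wr_r1cap (s x : Bool) (p q : List Bool) : wr [⟨p, cross s x (!x), q⟩, ⟨p, cap (!x), q⟩] = -sz s := by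
  cases x <;> simp [wr, sn]

theorem wr_cup (x : Bool) (p q : List Bool) : wr [⟨p, cup x, q⟩] = 0 := by
  simp [wr, sn]

theorem wr_cap (x : Bool) (p q : List Bool) : wr [⟨p, cap x, q⟩] = 0 := by
  simp [wr, sn]

theorem wr_r2 (s x y : Bool) (p q : List Bool) : wr [⟨p, cross s x y, q⟩, ⟨p, cross (!s) y x, q⟩] = 0 := by
  cases s <;> cases x <;> cases y <;> simp [wr, sn, sz]

theorem wr_r3 (s x y z : Bool) (p q : List Bool) :
    wr [⟨p, cross s x y, [z] ++ q⟩, ⟨p ++ [y], cross s x z, q⟩, ⟨p, cross s y z, [x] ++ q⟩] =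
      wr [⟨p ++ [x], cross s y z, q⟩, ⟨p, cross s x z, [y] ++ q⟩, ⟨p ++ [z], cross s x y, q⟩] := by
  cases s <;> cases x <;> cases y <;> cases z <;> simp [wr, sn, sz]

theorem wr_slide_cup (s e x : Bool) (p q : List Bool) :
    wr [⟨p, cup e, [x] ++ q⟩, ⟨p ++ [e], cross s (!e) x, q⟩] = wr [⟨p ++ [x], cup e, q⟩, ⟨p, cross (!s) x e, [!e] ++ q⟩] := by
  cases s <;> cases x <;> cases e <;> simp [wr, sn, sz]

theorem wr_slide_cap (s e x : Bool) (p q : List Bool) :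
    wr [⟨p ++ [e], cross s x (!e), q⟩, ⟨p, cap e, [x] ++ q⟩] = wr [⟨p, cross (!s) e x, [!e] ++ q⟩, ⟨p ++ [x], cap e, q⟩] := by
  cases s <;> cases x <;> cases e <;> simp [wr, sn, sz]

end Pool.Agent.Lib.MP_177a0e_gt.LT
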