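import Pool.Agent.Lib.MP_177a0e_gt.TangleMain
import Pool.Agent.Lib.MP_177a0e_gt.LT.Ck
import Pool.Agent.Lib.MP_177a0e_gt.Sig.FdP
import Pool.Agent.Lib.MP_177a0e_gt.LT.St
import Pool.Agent.Lib.MP_177a0e_gt.LT.La4
import Pool.Agent.Lib.MP_177a0e_gt.LT.Wr

/-!
# saddles.
-/

namespace Pool.Agent.Lib.MP_177a0e_gt.LT

open Pool.Agent.Lib.MP_177a0e_gt.Tangle Pool.Agent.Lib.MP_177a0e_gt.Tangle.Gen
open Pool.Agent.Lib.MP_177a0e_gt.Sig

private theorem Sd_fit (c : ℚ) {s : Slice} {z z' : ℕ → QE c} (h : Fit s z z') :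
    Fit s (fun i => (z i).re) (fun i => (z' i).re) := by
  rcases s with ⟨p, _ | _ | _, q⟩
  · exact ⟨fun i hi => congrArg QuadraticAlgebra.re (h.1 i hi), fun i hi => congrArg QuadraticAlgebra.re (h.2 i hi)⟩
  · exact ⟨fun i hi => congrArg QuadraticAlgebra.re (h.1 i hi), fun i hi => congrArg QuadraticAlgebra.re (h.2 i hi)⟩
  · exact fun i hi => congrArg QuadraticAlgebra.re (h i hi)

private theorem Sd_run (c : ℚ) [Adm c] {w : Word} : ∀ {z : ℕ → ℕ → QE c}, Run (colZ (uE c) (vE c)) w z →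
    Run (fitM ℚ) w (reS z) := by
  induction w with
  | nil => intro z _; trivial
  | cons s w ih =>
    intro z h
    exact ⟨Sd_fit c h.1.1, ih h.2⟩

/-- the real part of a pair -/
private def Sd_re (c : ℚ) [Adm c] (u v : Word) (k : ℕ) (f : Pair (colZ (uE c) (vE c)) ⊤ u v k) :
    Pair (fitM ℚ) ⊤ u v k :=
  ⟨(reS f.1.1, reS f.1.2), ⟨⟨Sd_run c f.2.1.1.1, fun _ => Submodule.mem_top, fun j hj => by
      funext i
      show (f.1.1 j i).re = 0
      rw [f.2.1.1.2.2 j hj]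
      rfl⟩, by
      funext i
      show (f.1.1 0 i).re = 0
      rw [f.2.1.2]
      rfl⟩, ⟨Sd_run c f.2.2.1.1, fun _ => Submodule.mem_top, fun j hj => by
      funext i
      show (f.1.2 j i).re = 0
      rw [f.2.2.1.2.2 j hj]
      rfl⟩, fun i hi => congrArg QuadraticAlgebra.re (f.2.2.2 i hi)⟩

theorem ksaddle_bd (c : ℚ) [hc : Adm c] (u v : Word) (x : Bool) (p q : List Bool) (h1 : Valid [true] (u ++ v) [true])
    (h2 : Valid [true] (u ++ [⟨p, cap x, q⟩, ⟨p, cup x, q⟩] ++ v) [true]) :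
    |ksig c (u ++ [⟨p, cap x, q⟩, ⟨p, cup x, q⟩] ++ v) - ksig c (u ++ v)| +
      2 * |(zn c (u ++ [⟨p, cap x, q⟩, ⟨p, cup x, q⟩] ++ v) : ℤ) - zn c (u ++ v)| ≤ 2 := by
  obtain ⟨a, ha⟩ : ∃ a : Word, a = [⟨p, cap x, q⟩, ⟨p, cup x, q⟩] := ⟨_, rfl⟩
  rw [← ha] at h2 ⊢
  -- the level between `u` and `v`
  obtain ⟨m, hm1, hv⟩ := valid_append.1 h2
  obtain ⟨d, hu, hca⟩ := valid_append.1 hm1
  rw [ha] at hca
  obtain ⟨hc1, hc2, hc3⟩ := hca
  have hdm : d = m := by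
    rw [← hc1, ← hc3]
    rfl
  have hd : d = p ++ [x, !x] ++ q := hc1.symm
  rw [← hdm] at hv
  have hwr : wr (u ++ a ++ v) = wr (u ++ v) := by
    rw [wr_append, wr_append, wr_append, ha, wr_saddle, add_zero]
  -- the spaces
  have i1 : FiniteDimensional ℚ (Pair (fitM ℚ) ⊤ u v (p.length + 1)) := fdp (fun _ => le_refl _) _ u v (p.length + 1)
  have i2 : FiniteDimensional (QE c) (Pair (colZ (uE c) (vE c)) ⊤ u v (p.length + 1)) :=
    fdp (colZ_le _ _) _ u v (p.length + 1)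
  obtain ⟨Φ1, hΦ1⟩ := kcut_app c u v p.length
  obtain ⟨Φ2, hΦ2⟩ := kcut_saddle c u v a x p q ha
  obtain ⟨Ψ1, _⟩ := cut_app (P := colZ (uE c) (vE c)) (Λ := ⊤) u v p.length
  obtain ⟨Ψ2, _⟩ := cut_saddle (P := colZ (uE c) (vE c)) (Λ := ⊤) (fun p q x => cupz_fit _ _ x p q)
    (fun _ _ _ => Submodule.mem_top) u v a x p q ha
  have n1 : zn c (u ++ v) = Module.finrank (QE c) (LinearMap.ker (be (colZ (uE c) (vE c)) ⊤ u v p.length)) :=
    LinearEquiv.finrank_eq Ψ1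
  have n2 : zn c (u ++ a ++ v) = Module.finrank (QE c) (LinearMap.ker (al (colZ (uE c) (vE c)) ⊤ u v p.length)) :=
    LinearEquiv.finrank_eq Ψ2
  have s1 : sg (E := LinearMap.ker (be (fitM ℚ) ⊤ u v p.length)) ((kp c u v (p.length + 1)).restrict
      (LinearMap.ker (be (fitM ℚ) ⊤ u v p.length))) = sg (kw c (u ++ v)) := by
    refine sg_equiv _ _ Φ1 ?_
    intro t
    exact (hΦ1 t t).symm
  have s2 : sg (E := LinearMap.ker (al (fitM ℚ) ⊤ u v p.length)) ((kp c u v (p.length + 1)).restrict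
      (LinearMap.ker (al (fitM ℚ) ⊤ u v p.length))) = sg (kw c (u ++ a ++ v)) := by
    refine sg_equiv _ _ Φ2 ?_
    intro t
    exact (hΦ2 t t).symm
  have hsym : ∀ e f, kp c u v (p.length + 1) e f = kp c u v (p.length + 1) f e := by
    intro e f
    show kq c u e.1.1 f.1.1 + kq c v e.1.2 f.1.2 = kq c u f.1.1 e.1.1 + kq c v f.1.2 e.1.2
    rw [kq_comm c u, kq_comm c v]
  have hpos : (0 : ℚ) < 1 - c ^ 2 := by
    have h1 := hc.nonneg
    have h2 := hc.lt_one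
    nlinarith
  have hκ : (if x then 1 - c ^ 2 else -(1 - c ^ 2)) ≠ 0 := by
    cases x
    · exact (neg_lt_zero.2 hpos).ne
    · exact hpos.ne'
  have key := sg_sad2 c (kp c u v (p.length + 1)) hsym (al (fitM ℚ) ⊤ u v p.length) (be (fitM ℚ) ⊤ u v p.length)
    (al (colZ (uE c) (vE c)) ⊤ u v p.length) (be (colZ (uE c) (vE c)) ⊤ u v p.length) (Sd_re c u v (p.length + 1)) _ hκ
    (fun f e => st_pair c hd hu hv f e) (fun f => by
      show (f.1.1 u.length p.length).re - (f.1.1 u.length (p.length + 2)).re =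
        (f.1.1 u.length p.length - f.1.1 u.length (p.length + 2)).re
      rw [QuadraticAlgebra.re_sub]) (fun f => by
      show (f.1.2 0 (p.length + 1)).re - (f.1.1 u.length (p.length + 1)).re =
        (f.1.2 0 (p.length + 1) - f.1.1 u.length (p.length + 1)).re
      rw [QuadraticAlgebra.re_sub])
  have hsig : ksig c (u ++ a ++ v) - ksig c (u ++ v) = sg (kw c (u ++ a ++ v)) - sg (kw c (u ++ v)) := by
    unfold ksig
    rw [hwr]
    ring
  rw [hsig, n1, n2, ← s1, ← s2]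
  exact key

end Pool.Agent.Lib.MP_177a0e_gt.LT
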