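import Pool.Agent.Lib.MP_177a0e_gt.LT.Defs

/-!
# colourings: interchange.

MODEL: `Sig/DI.lean` (proved, with `colM`, `Col` instead of `colZ`, `CZ`).
PROOF. Put `c = |p| + |g.src| + |q|`, `c' = |p| + |g.tgt| + |q|`. A colouring of the left side is `(t 0, t 1, t 2)` (zero beyond). `Φ` keeps `t 0` and `t 2` and replaces `t 1` by `i ↦ if i ≤ c then t 0 i else t 2 (i + |g.tgt| - |g.src|)`; the inverse replaces the middle level by `i ↦ if i ≤ c' then t 2 i else t 0 (i + |g.src| - |g.tgt|)`.
The conditions `CZ` of `g` and `g'` involve the same four values on both sides, and `sn` is the same.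
-/

namespace Pool.Agent.Lib.MP_177a0e_gt.LT

open Pool.Agent.Lib.MP_177a0e_gt.Tangle Pool.Agent.Lib.MP_177a0e_gt.Tangle.Gen
open Pool.Agent.Lib.MP_177a0e_gt.Sig

variable {R : Type} [Field R]

/-- a piece with `s` strands below and `t` strands above at the position `l`, with the local condition `K` -/
private structure ZILo (s t : ℕ) (K : (ℕ → R) → (ℕ → R) → Prop) (l : ℕ) (x y : ℕ → R) : Prop where
  low : ∀ i, i ≤ l → y i = x i
  up : ∀ i, l ≤ i → y (i + t) = x (i + s)
  loc : K (fun j => x (l + j)) (fun j => y (l + j))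

private theorem ZILo.flip {s t : ℕ} {K : (ℕ → R) → (ℕ → R) → Prop} {l : ℕ} {x y : ℕ → R}
    (h : ZILo s t K l x y) : ZILo t s (fun a b => K b a) l y x :=
  ⟨fun i hi => (h.low i hi).symm, fun i hi => (h.up i hi).symm, h.loc⟩

/-- the condition only involves the gaps `0, …, s` below and `0, …, t` above -/
private def ZILocal (s t : ℕ) (K : (ℕ → R) → (ℕ → R) → Prop) : Prop :=
  ∀ u v u' v' : ℕ → R, (∀ j, j ≤ s → u j = u' j) → (∀ j, j ≤ t → v j = v' j) → K u v → K u' v'

private theorem ZILocal.flip {s t : ℕ} {K : (ℕ → R) → (ℕ → R) → Prop} (h : ZILocal s t K) :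
    ZILocal t s (fun a b => K b a) := fun u v u' v' h1 h2 h3 => h v u v' u' h2 h1 h3

/-- the middle level -/
private def zimid (c d : ℕ) (x y : ℕ → R) : ℕ → R := fun i => if i ≤ c then x i else y (i - c + d)

private theorem zimid_add (c d : ℕ) (x x' y y' : ℕ → R) :
    zimid c d (x + x') (y + y') = zimid c d x y + zimid c d x' y' := by
  funext i
  simp only [zimid, Pi.add_apply]
  split_ifs <;> rfl

private theorem zimid_smul (c d : ℕ) (k : R) (x y : ℕ → R) :
    zimid c d (k • x) (k • y) = k • zimid c d x y := by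
  funext i
  simp only [zimid, Pi.smul_apply]
  split_ifs <;> rfl

private theorem zi_forward {s t s' t' : ℕ} {K K' : (ℕ → R) → (ℕ → R) → Prop} (hK : ZILocal s t K)
    (l m : ℕ) {x y z : ℕ → R} (h1 : ZILo s t K l x y) (h2 : ZILo s' t' K' (l + t + m) y z) :
    ZILo s' t' K' (l + s + m) x (zimid (l + s + m) (l + t + m) x z) ∧
      ZILo s t K l (zimid (l + s + m) (l + t + m) x z) z := by
  have e1 : ∀ j, x (l + s + m + j) = y (l + t + m + j) := fun j => by
    have := h1.up (l + m + j) (by omega)
    rw [show l + s + m + j = l + m + j + s by omega, show l + t + m + j = l + m + j + t by omega, this]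
  have e2 : ∀ j, zimid (l + s + m) (l + t + m) x z (l + s + m + j) = z (l + t + m + j) := fun j => by
    unfold zimid
    split_ifs with h
    · obtain rfl : j = 0 := by omega
      rw [e1, h2.low _ (by omega)]
    · congr 1
      omega
  refine ⟨⟨fun i hi => if_pos hi, fun i hi => ?_, ?_⟩, ⟨fun i hi => ?_, fun i hi => ?_, ?_⟩⟩
  · obtain ⟨k, rfl⟩ := Nat.exists_eq_add_of_le hi
    rw [show l + s + m + k + t' = l + s + m + (k + t') by omega, e2,
      show l + s + m + k + s' = l + s + m + (k + s') by omega, e1]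
    have := h2.up (l + t + m + k) (by omega)
    rw [show l + t + m + (k + t') = l + t + m + k + t' by omega, this]
    congr 1
    omega
  · have := h2.loc
    rw [show (fun j => x (l + s + m + j)) = fun j => y (l + t + m + j) from funext e1,
      show (fun j => zimid (l + s + m) (l + t + m) x z (l + s + m + j)) = fun j => z (l + t + m + j) from funext e2]
    exact this
  · rw [zimid, if_pos (by omega), h2.low i (by omega), h1.low i hi]
  · unfold zimid
    split_ifs with h
    · rw [h2.low _ (by omega), h1.up i hi]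
    · congr 1
      omega
  · refine hK _ _ _ _ (fun j hj => ?_) (fun j hj => ?_) h1.loc
    · exact (if_pos (by omega)).symm
    · exact (h2.low _ (by omega)).symm

private theorem zi_backward {s t s' t' : ℕ} {K K' : (ℕ → R) → (ℕ → R) → Prop} (hK : ZILocal s t K)
    (l m : ℕ) {x y z : ℕ → R} (h1 : ZILo s' t' K' (l + s + m) x y) (h2 : ZILo s t K l y z) :
    ZILo s t K l x (zimid (l + t + m) (l + s + m) z x) ∧
      ZILo s' t' K' (l + t + m) (zimid (l + t + m) (l + s + m) z x) z := by
  have := zi_forward hK.flip l m h2.flip h1.flip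
  exact ⟨this.2.flip, this.1.flip⟩

private theorem zi_inv1 {s t s' t' : ℕ} {K K' : (ℕ → R) → (ℕ → R) → Prop}
    (l m : ℕ) {x y z : ℕ → R} (h1 : ZILo s t K l x y) (h2 : ZILo s' t' K' (l + t + m) y z) :
    zimid (l + t + m) (l + s + m) z x = y := by
  funext i
  unfold zimid
  split_ifs with h
  · exact h2.low i h
  · have := h1.up (i - t) (by omega)
    rw [show i - t + t = i by omega] at this
    rw [this]
    congr 1
    omega

private theorem zi_inv2 {s t s' t' : ℕ} {K K' : (ℕ → R) → (ℕ → R) → Prop}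
    (l m : ℕ) {x y z : ℕ → R} (h1 : ZILo s' t' K' (l + s + m) x y) (h2 : ZILo s t K l y z) :
    zimid (l + s + m) (l + t + m) x z = y :=
  zi_inv1 l m h2.flip h1.flip

/-- the local condition of a piece -/
private def ziK (u v : R) : Gen → (ℕ → R) → (ℕ → R) → Prop
  | cross c a b, x, y => y 1 =
      if (if a = b then sz c else -sz c) = 1 then zt u v a b (x 0) (x 1) (x 2)
      else zt v u a b (x 0) (x 1) (x 2)
  | _, _, _ => True

private theorem ziK_local (u v : R) (g : Gen) :
    ZILocal (R := R) g.src.length g.tgt.length (ziK u v g) := by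
  intro x y x' y' h1 h2 h
  rcases g with _ | _ | ⟨c, a, b⟩
  · trivial
  · trivial
  · simp only [ziK] at h ⊢
    rw [← h1 0 (by simp), ← h1 1 (by simp [Gen.src]), ← h1 2 (by simp [Gen.src]), ← h2 1 (by simp [Gen.tgt])]
    exact h

private theorem zi_mem (u v : R) (p : List Bool) (g : Gen) (q : List Bool) (x y : ℕ → R) :
    (x, y) ∈ colZ u v ⟨p, g, q⟩ ↔ ZILo g.src.length g.tgt.length (ziK u v g) p.length x y := by
  rcases g with a | a | ⟨c, a, b⟩
  · constructor
    · rintro ⟨h, -⟩
      exact ⟨h.1, h.2, trivial⟩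
    · rintro ⟨h1, h2, -⟩
      exact ⟨⟨h1, h2⟩, trivial⟩
  · constructor
    · rintro ⟨h, -⟩
      exact ⟨fun i hi => (h.1 i hi).symm, fun i hi => (h.2 i hi).symm, trivial⟩
    · rintro ⟨h1, h2, -⟩
      exact ⟨⟨fun i hi => (h1 i hi).symm, fun i hi => (h2 i hi).symm⟩, trivial⟩
  · constructor
    · rintro ⟨h, h'⟩
      refine ⟨fun i hi => h i ?_, fun i hi => h (i + 2) ?_, h'⟩
      · simp only [Sig.lp]
        omega
      · simp only [Sig.lp]
        omega
    · rintro ⟨h1, h2, h3⟩
      refine ⟨fun i hi => ?_, h3⟩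
      simp only [Sig.lp] at hi
      rcases Nat.lt_or_ge p.length i with h | h
      · have := h2 (i - 2) (by omega)
        simp only [Gen.src, Gen.tgt, List.length_cons, List.length_nil] at this
        rw [show i - 2 + (0 + 1 + 1) = i by omega] at this
        exact this
      · exact h1 i h

/-- the middle level replaced -/
private def ziupd (x : ℕ → ℕ → R) (m : ℕ → R) : ℕ → ℕ → R := fun j => if j = 1 then m else x j

private theorem zi_runs {u v : R} {s s' : Slice} {x : ℕ → ℕ → R} (hx : x ∈ Zr u v [s, s']) :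
    (x 0, x 1) ∈ colZ u v s ∧ (x 1, x 2) ∈ colZ u v s' :=
  ⟨hx.1.1, hx.1.2.1⟩

private theorem zi_upd_mem {u v : R} {s s' o o' : Slice} {x : ℕ → ℕ → R} (hx : x ∈ Zr u v [s, s']) {m : ℕ → R}
    (h1 : (x 0, m) ∈ colZ u v o) (h2 : (m, x 2) ∈ colZ u v o') : ziupd x m ∈ Zr u v [o, o'] := by
  refine ⟨⟨h1, h2, trivial⟩, fun j => Submodule.mem_top, fun j hj => ?_⟩
  simp only [List.length_cons, List.length_nil] at hj
  rw [ziupd, if_neg (by omega)]
  exact hx.2.2 j (by simpa using hj)

theorem z_inter (u v : R) (g g' : Gen) (p q r : List Bool) :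
    ZIso u v [⟨p, g, q ++ g'.src ++ r⟩, ⟨p ++ g.tgt ++ q, g', r⟩] [⟨p ++ g.src ++ q, g', r⟩, ⟨p, g, q ++ g'.tgt ++ r⟩] := by
  set a : Word := [⟨p, g, q ++ g'.src ++ r⟩, ⟨p ++ g.tgt ++ q, g', r⟩] with ha
  set b : Word := [⟨p ++ g.src ++ q, g', r⟩, ⟨p, g, q ++ g'.tgt ++ r⟩] with hb
  set c : ℕ := p.length + g.src.length + q.length with hc
  set c' : ℕ := p.length + g.tgt.length + q.length with hc'
  have la : ∀ x : Zr u v a, ZILo g.src.length g.tgt.length (ziK u v g) p.length (x.1 0) (x.1 1) ∧
      ZILo g'.src.length g'.tgt.length (ziK u v g') c' (x.1 1) (x.1 2) := fun x => by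
    obtain ⟨h1, h2⟩ := zi_runs x.2
    rw [zi_mem] at h1 h2
    rw [List.length_append, List.length_append] at h2
    exact ⟨h1, h2⟩
  have lb : ∀ x : Zr u v b, ZILo g'.src.length g'.tgt.length (ziK u v g') c (x.1 0) (x.1 1) ∧
      ZILo g.src.length g.tgt.length (ziK u v g) p.length (x.1 1) (x.1 2) := fun x => by
    obtain ⟨h1, h2⟩ := zi_runs x.2
    rw [zi_mem] at h1 h2
    rw [List.length_append, List.length_append] at h1
    exact ⟨h1, h2⟩
  have ma : ∀ x : Zr u v a, ziupd x.1 (zimid c c' (x.1 0) (x.1 2)) ∈ Zr u v b := fun x => by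
    have := zi_forward (ziK_local u v g) p.length q.length (la x).1 (la x).2
    refine zi_upd_mem x.2 ?_ ?_
    · rw [zi_mem, List.length_append, List.length_append]
      exact this.1
    · rw [zi_mem]
      exact this.2
  have mb : ∀ x : Zr u v b, ziupd x.1 (zimid c' c (x.1 2) (x.1 0)) ∈ Zr u v a := fun x => by
    have := zi_backward (ziK_local u v g) p.length q.length (lb x).1 (lb x).2
    refine zi_upd_mem x.2 ?_ ?_
    · rw [zi_mem]
      exact this.1
    · rw [zi_mem, List.length_append, List.length_append]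
      exact this.2
  refine ⟨LinearEquiv.mk ⟨⟨fun x => ⟨ziupd x.1 (zimid c c' (x.1 0) (x.1 2)), ma x⟩, fun x y => ?_⟩, fun k x => ?_⟩
    (fun x => ⟨ziupd x.1 (zimid c' c (x.1 2) (x.1 0)), mb x⟩) (fun x => ?_) (fun x => ?_), fun t => ⟨rfl, rfl⟩⟩
  · apply Subtype.ext
    funext j
    simp only [ziupd, Submodule.coe_add, Pi.add_apply, zimid_add]
    split_ifs <;> rfl
  · apply Subtype.ext
    funext j
    simp only [ziupd, Submodule.coe_smul, Pi.smul_apply, RingHom.id_apply, zimid_smul]
    split_ifs <;> rfl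
  · apply Subtype.ext
    funext j
    have := zi_inv1 p.length q.length (la x).1 (la x).2
    by_cases h : j = 1
    · subst h
      exact this
    · simp [ziupd, h]
  · apply Subtype.ext
    funext j
    have := zi_inv2 p.length q.length (lb x).1 (lb x).2
    by_cases h : j = 1
    · subst h
      exact this
    · simp [ziupd, h]

end Pool.Agent.Lib.MP_177a0e_gt.LT
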