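import Pool.Agent.Lib.MP_177a0e_gt.LT.Defs

/-!
# colourings: the third Reidemeister move.

MODEL: `Sig/DR3.lean` (proved for `colM`, `Col`).
PROOF (`L = |p|`, `u v = 1`). In a colouring of a word of crossings every level is determined by `t 0`: with `a, b, c, d` the values of `t 0` at `L, L + 1, L + 2, L + 3`. Put `Z1 = zt` for the crossing of the directions `x, y`, `Z2` for `x, z`, `Z3` for `y, z` (with `u`, `v` exchanged if `sn ≠ 1`; `sn` depends on `s` and the two directions).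
Left side: `b1 = Z1 a b c`, `c1 = Z2 b1 c d`, `b2 = Z3 a b1 c1`; right side: `c1' = Z3 b c d`, `b1' = Z2 a b c1'`, `c2' = Z1 b1' c1' d`. The last levels agree: `b2 = b1'` and `c1 = c2'` (16 cases for `s, x, y, z`; polynomial identities modulo `u v = 1`: `linear_combination (…) * huv`; all are checked by computer).
`Φ`: keep `t 0` and `t 3`, the new middle levels are `Function.update`s of `t 0`. (`Zr` of a word of crossings is isomorphic to the space of all `t 0`: it is convenient to construct both isomorphisms `Zr .. ≃ (ℕ → R)`, `t ↦ t 0`, and to compose.)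
For example `x = y = z`, positive, `P = u`, `Q = v`: `zt l m r = -(P (l + r + P m))`: `b1 = -P (a + c + P b)`, `c1 = -P (b1 + d + P c) = P ^ 2 a + P ^ 3 b - P d`, `b2 = -P (a + c1 + P b1) = -P a + P ^ 3 c + P ^ 2 d`; `c1' = -P (b + d + P c)`, `b1' = -P (a + c1' + P b) = -P a + P ^ 2 d + P ^ 3 c`. In the mixed cases `u v = 1` is used.
-/

namespace Pool.Agent.Lib.MP_177a0e_gt.LT

open Pool.Agent.Lib.MP_177a0e_gt.Tangle Pool.Agent.Lib.MP_177a0e_gt.Tangle.Gen
open Pool.Agent.Lib.MP_177a0e_gt.Sig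

variable {R : Type} [Field R]

/-- the value above a crossing -/
private def ZR3_z (u v : R) (s a b : Bool) (l m r : R) : R :=
  if sn ⟨[], cross s a b, []⟩ = 1 then zt u v a b l m r else zt v u a b l m r

/-- the values above a crossing as a function of the values below -/
private def ZR3_cr (L : ℕ) (u v : R) (s a b : Bool) : (ℕ → R) →ₗ[R] (ℕ → R) where
  toFun x := fun i => if i = L + 1 then ZR3_z u v s a b (x L) (x (L + 1)) (x (L + 2)) else x i
  map_add' x y := by
    funext i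
    by_cases h : i = L + 1
    · simp only [h, if_true, Pi.add_apply, ZR3_z]
      split_ifs <;> rw [zt_add]
    · simp only [h, if_false, Pi.add_apply]
  map_smul' r x := by
    funext i
    by_cases h : i = L + 1
    · simp only [h, if_true, Pi.smul_apply, smul_eq_mul, RingHom.id_apply, ZR3_z]
      split_ifs <;> rw [zt_smul]
    · simp only [h, if_false, Pi.smul_apply, smul_eq_mul, RingHom.id_apply]

private theorem ZR3_cr_apply (L : ℕ) (u v : R) (s a b : Bool) (x : ℕ → R) (i : ℕ) :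
    ZR3_cr L u v s a b x i =
      if i = L + 1 then ZR3_z u v s a b (x L) (x (L + 1)) (x (L + 2)) else x i := rfl

private theorem ZR3_mem (u v : R) (p q : List Bool) (c a b : Bool) (x y : ℕ → R) :
    (x, y) ∈ colZ u v ⟨p, cross c a b, q⟩ ↔ y = ZR3_cr p.length u v c a b x := by
  have hsn : sn ⟨p, cross c a b, q⟩ = sn ⟨[], cross c a b, []⟩ := rfl
  constructor
  · rintro ⟨h1, h2⟩
    simp only [Fit, Sig.lp] at h1
    simp only [CZ, Sig.lp] at h2
    funext i
    rw [ZR3_cr_apply]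
    by_cases h : i = p.length + 1
    · rw [if_pos h, h, h2, ZR3_z, hsn]
    · rw [if_neg h]
      exact h1 i h
  · intro h
    subst h
    refine ⟨?_, ?_⟩
    · intro i hi
      have hi' : i ≠ p.length + 1 := hi
      simp only [ZR3_cr_apply, if_neg hi']
    · show ZR3_cr p.length u v c a b x (p.length + 1) =
        if sn ⟨p, cross c a b, q⟩ = 1 then zt u v a b (x p.length) (x (p.length + 1)) (x (p.length + 2))
        else zt v u a b (x p.length) (x (p.length + 1)) (x (p.length + 2))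
      rw [ZR3_cr_apply, if_pos rfl, ZR3_z, hsn]

/-- the colouring with the levels `x`, `f x`, `g (f x)`, `h (g (f x))` -/
private def ZR3_st (f g h : (ℕ → R) →ₗ[R] (ℕ → R)) (x : ℕ → R) : ℕ → ℕ → R := fun j =>
  if j = 0 then x else if j = 1 then f x else if j = 2 then g (f x) else if j = 3 then h (g (f x)) else 0

/-- a colouring of three crossings is determined by its bottom level -/
private def ZR3_eq (u v : R) (s1 s2 s3 : Slice) (f g h : (ℕ → R) →ₗ[R] (ℕ → R))
    (hf : ∀ x y, (x, y) ∈ colZ u v s1 ↔ y = f x) (hg : ∀ x y, (x, y) ∈ colZ u v s2 ↔ y = g x)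
    (hh : ∀ x y, (x, y) ∈ colZ u v s3 ↔ y = h x) : Zr u v [s1, s2, s3] ≃ₗ[R] (ℕ → R) where
  toFun t := t.1 0
  map_add' _ _ := rfl
  map_smul' _ _ := rfl
  invFun x := ⟨ZR3_st f g h x, by
    refine ⟨⟨(hf _ _).2 rfl, (hg _ _).2 rfl, (hh _ _).2 rfl, trivial⟩, fun _ => trivial, fun j hj => ?_⟩
    have h1 : 3 < j := hj
    simp only [ZR3_st]
    rw [if_neg (by omega), if_neg (by omega), if_neg (by omega), if_neg (by omega)]⟩
  left_inv t := by
    apply Subtype.ext
    obtain ⟨t, ⟨h1, h2, h3, -⟩, -, h4⟩ := t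
    have e1 : t 1 = f (t 0) := (hf _ _).1 h1
    have e2 : t 2 = g (t 1) := (hg _ _).1 h2
    have e3 : t 3 = h (t 2) := (hh _ _).1 h3
    show ZR3_st f g h (t 0) = t
    funext j
    simp only [ZR3_st]
    by_cases j0 : j = 0
    · rw [if_pos j0, j0]
    rw [if_neg j0]
    by_cases j1 : j = 1
    · rw [if_pos j1, j1, e1]
    rw [if_neg j1]
    by_cases j2 : j = 2
    · rw [if_pos j2, j2, e2, e1]
    rw [if_neg j2]
    by_cases j3 : j = 3
    · rw [if_pos j3, j3, e3, e2, e1]
    rw [if_neg j3]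
    exact (h4 j (show 3 < j by omega)).symm
  right_inv x := rfl

private theorem ZR3_last (u v : R) (s1 s2 s3 : Slice) (f g h : (ℕ → R) →ₗ[R] (ℕ → R))
    (hf : ∀ x y, (x, y) ∈ colZ u v s1 ↔ y = f x) (hg : ∀ x y, (x, y) ∈ colZ u v s2 ↔ y = g x)
    (hh : ∀ x y, (x, y) ∈ colZ u v s3 ↔ y = h x) (t : Zr u v [s1, s2, s3]) :
    t.1 3 = h (g (f (t.1 0))) := by
  obtain ⟨t, ⟨h1, h2, h3, -⟩, -, h4⟩ := t
  have e1 : t 1 = f (t 0) := (hf _ _).1 h1
  have e2 : t 2 = g (t 1) := (hg _ _).1 h2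
  have e3 : t 3 = h (t 2) := (hh _ _).1 h3
  show t 3 = h (g (f (t 0)))
  rw [e3, e2, e1]

/-- the two polynomial identities -/
private theorem ZR3_id (u v : R) (huv : u * v = 1) (s x y z : Bool) (a b c d : R) :
    ZR3_z u v s y z a (ZR3_z u v s x y a b c) (ZR3_z u v s x z (ZR3_z u v s x y a b c) c d) =
      ZR3_z u v s x z a b (ZR3_z u v s y z b c d) ∧
    ZR3_z u v s x z (ZR3_z u v s x y a b c) c d =
      ZR3_z u v s x y (ZR3_z u v s x z a b (ZR3_z u v s y z b c d)) (ZR3_z u v s y z b c d) d := by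
  cases s <;> cases x <;> cases y <;> cases z <;>
    simp only [ZR3_z, sn, sz, zt, if_true, if_false, Bool.false_eq_true, Bool.true_eq_false, neg_neg,
      show ((-1 : ℤ) = 1) = False from by simp] <;>
    constructor <;> grind

private theorem ZR3_braid (L : ℕ) (u v : R) (huv : u * v = 1) (s x y z : Bool) (t : ℕ → R) :
    ZR3_cr L u v s y z (ZR3_cr (L + 1) u v s x z (ZR3_cr L u v s x y t)) =
      ZR3_cr (L + 1) u v s x y (ZR3_cr L u v s x z (ZR3_cr (L + 1) u v s y z t)) := by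
  obtain ⟨k1, k2⟩ := ZR3_id u v huv s x y z (t L) (t (L + 1)) (t (L + 2)) (t (L + 3))
  funext i
  simp only [ZR3_cr_apply]
  by_cases h1 : i = L + 1
  · subst h1
    simp only [if_true, show ¬ (L + 1 = L + 1 + 1) by omega, show ¬ (L = L + 1) by omega, show ¬ (L = L + 1 + 1) by omega,
      show ¬ (L + 1 + 1 = L + 1) by omega, show ¬ (L + 1 + 2 = L + 1) by omega,
      show L + 2 = L + 1 + 1 by omega, if_false]
    exact k1
  · by_cases h2 : i = L + 1 + 1
    · subst h2
      simp only [if_true, show ¬ (L + 1 = L + 1 + 1) by omega, show ¬ (L = L + 1) by omega, show ¬ (L = L + 1 + 1) by omega,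
        show ¬ (L + 1 + 1 = L + 1) by omega, show ¬ (L + 1 + 2 = L + 1) by omega,
        show ¬ (L + 1 + 2 = L + 1 + 1) by omega,
        show L + 2 = L + 1 + 1 by omega, if_false]
      exact k2
    · simp only [h1, h2, if_false]

theorem z_r3 (u v : R) (huv : u * v = 1) (s x y z : Bool) (p q : List Bool) :
    ZIso u v [⟨p, cross s x y, [z] ++ q⟩, ⟨p ++ [y], cross s x z, q⟩, ⟨p, cross s y z, [x] ++ q⟩]
      [⟨p ++ [x], cross s y z, q⟩, ⟨p, cross s x z, [y] ++ q⟩, ⟨p ++ [z], cross s x y, q⟩] := by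
  have hl : ∀ u : Bool, (p ++ [u]).length = p.length + 1 := fun u => by simp
  have hA : ∀ (c a b : Bool) (r : List Bool) (f g : ℕ → R),
      (f, g) ∈ colZ u v ⟨p, cross c a b, r⟩ ↔ g = ZR3_cr p.length u v c a b f :=
    fun c a b r f g => ZR3_mem u v p r c a b f g
  have hB : ∀ (w c a b : Bool) (r : List Bool) (f g : ℕ → R),
      (f, g) ∈ colZ u v ⟨p ++ [w], cross c a b, r⟩ ↔ g = ZR3_cr (p.length + 1) u v c a b f :=
    fun w c a b r f g => by rw [ZR3_mem u v (p ++ [w]) r c a b f g, hl w]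
  refine ⟨(ZR3_eq u v _ _ _ _ _ _ (hA s x y _) (hB y s x z _) (hA s y z _)).trans
    (ZR3_eq u v _ _ _ _ _ _ (hB x s y z _) (hA s x z _) (hB z s x y _)).symm, fun t => ⟨rfl, ?_⟩⟩
  rw [show ([⟨p ++ [x], cross s y z, q⟩, ⟨p, cross s x z, [y] ++ q⟩, ⟨p ++ [z], cross s x y, q⟩] : Word).length = 3 from rfl,
    show ([⟨p, cross s x y, [z] ++ q⟩, ⟨p ++ [y], cross s x z, q⟩, ⟨p, cross s y z, [x] ++ q⟩] : Word).length = 3 from rfl,
    ZR3_last u v _ _ _ _ _ _ (hA s x y _) (hB y s x z _) (hA s y z _) t]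
  exact (ZR3_braid p.length u v huv s x y z (t.1 0)).symm

end Pool.Agent.Lib.MP_177a0e_gt.LT
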