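import Pool.Agent.Lib.MP_177a0e_gt.LT.Defs

/-!
# colourings: a strand passes a minimum or a maximum.

MODEL: `Sig/DS.lean` (proved for `colM`, `Col`).
PROOFS (`L = |p|`, colourings `(t 0, t 1, t 2)`, `u v = 1`). The transport of `t 1` is the same as in `DS.lean`; only the condition at the crossing changes.
* `z_slide_cup`: left side: `t 1 i = t 0 i` (`i ≤ L`), `t 1 (i + 2) = t 0 i` (`i ≥ L`), `t 2 i = t 1 i` (`i ≠ L + 2`); right side: `t 1 i = t 0 i` (`i ≤ L + 1`), `t 1 (i + 2) = t 0 i` (`i ≥ L + 1`), `t 2 i = t 1 i` (`i ≠ L + 1`). With `a = t 0 L`, `b = t 0 (L + 1)`, `τ = t 2 (L + 1)`, `ρ = t 2 (L + 2)`: the left crossing (directions `!e`, `x`)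
  says `ρ = zt P Q (!e) x τ a b` (values left, below, right: `τ, a, b`), the right one (directions `x`, `e`, same sign `sn`, so the same `P, Q`) says `τ = zt P Q x e a b ρ`. These are the same condition, by `P Q = 1`: for example `e = x = true`: `ρ = -(a + Q τ + P b)` and `τ = -(P (a + ρ + P b))`.
  `Φ` replaces `t 1` by `i ↦ if i ≤ L + 1 then t 0 i else if i = L + 2 then t 2 (L + 2) else t 0 (i - 2)`; the inverse replaces it by `i ↦ if i ≤ L then t 0 i else if i = L + 1 then t 2 (L + 1) else t 0 (i - 2)`.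
* `z_slide_cap`: left side: `t 1 i = t 0 i` (`i ≠ L + 2`), the cap at `L`; with `a, b, c, d` the values of `t 0` at `L, .., L + 3`: `t 1 (L + 2) = zt P Q x (!e) b c d` and the cap requires `a = t 1 (L + 2)`; right side: `t 1 (L + 1) = zt P Q e x a b c`, the cap at `L + 1` requires `t 1 (L + 1) = d`: the same condition. `Φ` replaces `t 1` by
  `i ↦ if i ≤ L + 1 then t 2 i else if i = L + 2 then t 0 (L + 2) else t 2 (i - 2)`, inverse `i ↦ if i ≤ L then t 2 i else if i = L + 1 then t 0 (L + 1) else t 2 (i - 2)`.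
-/

namespace Pool.Agent.Lib.MP_177a0e_gt.LT

open Pool.Agent.Lib.MP_177a0e_gt.Tangle Pool.Agent.Lib.MP_177a0e_gt.Tangle.Gen
open Pool.Agent.Lib.MP_177a0e_gt.Sig

variable {R : Type} [Field R]

private theorem ds_iso (μ ν : R) (a1 a2 b1 b2 : Slice)
    (hab : ∀ x y z : ℕ → R, (x, y) ∈ colZ μ ν a1 → (y, z) ∈ colZ μ ν a2 → ∃ y', (x, y') ∈ colZ μ ν b1 ∧ (y', z) ∈ colZ μ ν b2)
    (hba : ∀ x y z : ℕ → R, (x, y) ∈ colZ μ ν b1 → (y, z) ∈ colZ μ ν b2 → ∃ y', (x, y') ∈ colZ μ ν a1 ∧ (y', z) ∈ colZ μ ν a2)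
    (ua : ∀ x y y' z : ℕ → R, (x, y) ∈ colZ μ ν a1 → (y, z) ∈ colZ μ ν a2 → (x, y') ∈ colZ μ ν a1 → (y', z) ∈ colZ μ ν a2 → y = y')
    (ub : ∀ x y y' z : ℕ → R, (x, y) ∈ colZ μ ν b1 → (y, z) ∈ colZ μ ν b2 → (x, y') ∈ colZ μ ν b1 → (y', z) ∈ colZ μ ν b2 → y = y') :
    ZIso μ ν [a1, a2] [b1, b2] := by
  classical
  have ext : ∀ (c1 c2 : Slice)
      (_ : ∀ x y y' z : ℕ → R, (x, y) ∈ colZ μ ν c1 → (y, z) ∈ colZ μ ν c2 → (x, y') ∈ colZ μ ν c1 → (y', z) ∈ colZ μ ν c2 → y = y')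
      (t t' : Zr μ ν [c1, c2]), t.1 0 = t'.1 0 → t.1 2 = t'.1 2 → t = t' := by
    intro c1 c2 hu t t' h0 h2
    obtain ⟨⟨m1, m2, _⟩, _, m3⟩ := t.2
    obtain ⟨⟨n1, n2, _⟩, _, n3⟩ := t'.2
    apply Subtype.ext
    funext j
    rcases Nat.lt_or_ge 2 j with hj | hj
    · rw [m3 j hj, n3 j hj]
    · have hj' : j = 0 ∨ j = 1 ∨ j = 2 := by omega
      rcases hj' with rfl | rfl | rfl
      · exact h0
      · refine hu (t.1 0) _ _ (t.1 2) m1 m2 ?_ ?_
        · rw [h0]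
          exact n1
        · rw [h2]
          exact n2
      · exact h2
  have mk : ∀ (c1 c2 d1 d2 : Slice)
      (_ : ∀ x y z : ℕ → R, (x, y) ∈ colZ μ ν c1 → (y, z) ∈ colZ μ ν c2 → ∃ y', (x, y') ∈ colZ μ ν d1 ∧ (y', z) ∈ colZ μ ν d2)
      (t : Zr μ ν [c1, c2]), ∃ t' : Zr μ ν [d1, d2], t'.1 0 = t.1 0 ∧ t'.1 2 = t.1 2 := by
    intro c1 c2 d1 d2 h t
    obtain ⟨⟨m1, m2, _⟩, _, m3⟩ := t.2
    obtain ⟨y, h1, h2⟩ := h _ _ _ m1 m2
    refine ⟨⟨fun j => if j = 1 then y else t.1 j, ⟨⟨?_, ?_, trivial⟩, fun _ => Submodule.mem_top, ?_⟩⟩, ?_, ?_⟩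
    · simpa using h1
    · simpa [sh] using h2
    · intro j hj
      have h3 : j ≠ 1 := by
        simp at hj
        omega
      simp only [h3, if_false]
      exact m3 j hj
    · simp
    · simp
  choose f hf0 hf2 using mk a1 a2 b1 b2 hab
  choose g hg0 hg2 using mk b1 b2 a1 a2 hba
  refine ⟨{ toFun := f, invFun := g, left_inv := ?_, right_inv := ?_, map_add' := ?_, map_smul' := ?_ }, fun t => ⟨hf0 t, hf2 t⟩⟩
  · intro t t'
    apply ext b1 b2 ub
    · rw [hf0]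
      change t.1 0 + t'.1 0 = (f t).1 0 + (f t').1 0
      rw [hf0, hf0]
    · rw [hf2]
      change t.1 2 + t'.1 2 = (f t).1 2 + (f t').1 2
      rw [hf2, hf2]
  · intro r t
    apply ext b1 b2 ub
    · rw [hf0]
      change r • t.1 0 = r • (f t).1 0
      rw [hf0]
    · rw [hf2]
      change r • t.1 2 = r • (f t).1 2
      rw [hf2]
  · intro t
    apply ext a1 a2 ua
    · rw [hg0, hf0]
    · rw [hg2, hf2]
  · intro t
    apply ext b1 b2 ub
    · rw [hf0, hg0]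
    · rw [hf2, hg2]

private theorem ds_cup (μ ν : R) (p q : List Bool) (e : Bool) (u v : ℕ → R) : (u, v) ∈ colZ μ ν ⟨p, cup e, q⟩ ↔
    (∀ i, i ≤ p.length → v i = u i) ∧ ∀ i, p.length ≤ i → v (i + 2) = u i := by
  change (Fit _ _ _ ∧ CZ _ _ _ _ _) ↔ _
  simp only [Fit, CZ, Sig.lp, and_true]

private theorem ds_cap (μ ν : R) (p q : List Bool) (e : Bool) (u v : ℕ → R) : (u, v) ∈ colZ μ ν ⟨p, cap e, q⟩ ↔
    (∀ i, i ≤ p.length → u i = v i) ∧ ∀ i, p.length ≤ i → u (i + 2) = v i := by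
  change (Fit _ _ _ ∧ CZ _ _ _ _ _) ↔ _
  simp only [Fit, CZ, Sig.lp, and_true]

/-- the function of the crossing of strands with the directions `a`, `b`, of sign `1` iff `g` -/
private def zf (μ ν : R) (g : Prop) [Decidable g] (a b : Bool) (l m r : R) : R :=
  if g then zt μ ν a b l m r else zt ν μ a b l m r

private theorem zf_key (μ ν : R) (h : μ * ν = 1) (g g' : Prop) [Decidable g] [Decidable g'] (hg : g ↔ g') (y x : Bool) (ρ τ a b : R) :
    ρ = zf μ ν g y x τ a b ↔ τ = zf μ ν g' x (!y) a b ρ := by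
  have key : ∀ P Q : R, P * Q = 1 → (ρ = zt P Q y x τ a b ↔ τ = zt P Q x (!y) a b ρ) := by
    intro P Q hPQ
    cases y <;> cases x <;> simp only [zt, Bool.not_true, Bool.not_false] <;> constructor <;> intro h1
    · linear_combination P * h1 - (τ + b + Q * a) * hPQ
    · linear_combination Q * h1 - ρ * hPQ
    · linear_combination P * h1 - τ * hPQ
    · linear_combination Q * h1 - (a + ρ + P * b) * hPQ
    · linear_combination Q * h1 - τ * hPQ
    · linear_combination P * h1 - (a + ρ + Q * b) * hPQ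
    · linear_combination Q * h1 - (τ + b + P * a) * hPQ
    · linear_combination P * h1 - ρ * hPQ
  unfold zf
  by_cases c : g
  · rw [if_pos c, if_pos (hg.1 c)]
    exact key μ ν h
  · rw [if_neg c, if_neg (fun c' => c (hg.2 c'))]
    exact key ν μ (by rw [mul_comm]; exact h)

private theorem ds_cross (μ ν : R) (p q : List Bool) (c x y : Bool) (u v : ℕ → R) : (u, v) ∈ colZ μ ν ⟨p, cross c x y, q⟩ ↔
    (∀ i, i ≠ p.length + 1 → v i = u i) ∧
      v (p.length + 1) = zf μ ν (sn ⟨p, cross c x y, q⟩ = 1) x y (u p.length) (u (p.length + 1)) (u (p.length + 2)) := by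
  change (Fit _ _ _ ∧ CZ _ _ _ _ _) ↔ _
  simp only [Fit, CZ, Sig.lp, zf]

private theorem ds_len (p : List Bool) (x : Bool) : (p ++ [x]).length = p.length + 1 := by simp

/-! the four conditions, in terms of `L` -/

private theorem ds_cup_fwd (L : ℕ) (Fl Fr : R → R → R → R) (hF : ∀ ρ τ a b : R, ρ = Fl τ a b ↔ τ = Fr a b ρ) (u v w : ℕ → R) (a1 : ∀ i, i ≤ L → v i = u i)
    (a2 : ∀ i, L ≤ i → v (i + 2) = u i) (b1 : ∀ i, i ≠ L + 1 + 1 → w i = v i)
    (b2 : w (L + 1 + 1) = Fl (v (L + 1)) (v (L + 1 + 1)) (v (L + 1 + 2))) :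
    ∃ y : ℕ → R, ((∀ i, i ≤ L + 1 → y i = u i) ∧ ∀ i, L + 1 ≤ i → y (i + 2) = u i) ∧
      (∀ i, i ≠ L + 1 → w i = y i) ∧ w (L + 1) = Fr (y L) (y (L + 1)) (y (L + 2)) := by
  refine ⟨fun i => if i ≤ L + 1 then u i else if i = L + 2 then w (L + 2) else u (i - 2), ⟨?_, ?_⟩, ?_, ?_⟩
  · intro i hi
    simp only [hi, if_true]
  · intro i hi
    have e1 : ¬ i + 2 ≤ L + 1 := by omega
    have e2 : ¬ i + 2 = L + 2 := by omega
    simp only [e1, e2, if_false]
    rw [Nat.add_sub_cancel]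
  · intro i hi
    by_cases c1 : i ≤ L
    · have e1 : i ≤ L + 1 := by omega
      simp only [e1, if_true]
      rw [b1 i (by omega), a1 i c1]
    · by_cases c2 : i = L + 2
      · subst c2
        have e1 : ¬ L + 2 ≤ L + 1 := by omega
        simp only [e1, if_true, if_false]
      · have e1 : ¬ i ≤ L + 1 := by omega
        simp only [e1, c2, if_false]
        rw [b1 i (by omega)]
        have h3 := a2 (i - 2) (by omega)
        rwa [show i - 2 + 2 = i by omega] at h3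
  · have h3 := a2 L le_rfl
    have h4 := a2 (L + 1) (by omega)
    have h5 := b1 (L + 1) (by omega)
    have e1 : ¬ L + 2 ≤ L + 1 := by omega
    have e2 : L ≤ L + 1 := by omega
    simp only [le_refl, if_true, e1, e2, if_false]
    rw [show L + 1 + 1 = L + 2 by omega] at b2
    rw [h3, h4, ← h5] at b2
    exact (hF _ _ _ _).1 b2

private theorem ds_cup_bwd (L : ℕ) (Fl Fr : R → R → R → R) (hF : ∀ ρ τ a b : R, ρ = Fl τ a b ↔ τ = Fr a b ρ) (u v w : ℕ → R) (a1 : ∀ i, i ≤ L + 1 → v i = u i)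
    (a2 : ∀ i, L + 1 ≤ i → v (i + 2) = u i) (b1 : ∀ i, i ≠ L + 1 → w i = v i)
    (b2 : w (L + 1) = Fr (v L) (v (L + 1)) (v (L + 2))) :
    ∃ y : ℕ → R, ((∀ i, i ≤ L → y i = u i) ∧ ∀ i, L ≤ i → y (i + 2) = u i) ∧
      (∀ i, i ≠ L + 1 + 1 → w i = y i) ∧ w (L + 1 + 1) = Fl (y (L + 1)) (y (L + 1 + 1)) (y (L + 1 + 2)) := by
  refine ⟨fun i => if i ≤ L then u i else if i = L + 1 then w (L + 1) else u (i - 2), ⟨?_, ?_⟩, ?_, ?_⟩
  · intro i hi
    simp only [hi, if_true]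
  · intro i hi
    have e1 : ¬ i + 2 ≤ L := by omega
    have e2 : ¬ i + 2 = L + 1 := by omega
    simp only [e1, e2, if_false]
    rw [Nat.add_sub_cancel]
  · intro i hi
    by_cases c1 : i ≤ L
    · simp only [c1, if_true]
      rw [b1 i (by omega), a1 i (by omega)]
    · by_cases c2 : i = L + 1
      · subst c2
        simp only [c1, if_true, if_false]
      · simp only [c1, c2, if_false]
        rw [b1 i (by omega)]
        have h3 := a2 (i - 2) (by omega)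
        rwa [show i - 2 + 2 = i by omega] at h3
  · have h3 := a1 L (by omega)
    have h4 := a1 (L + 1) le_rfl
    have h5 := b1 (L + 2) (by omega)
    have e1 : ¬ L + 1 ≤ L := by omega
    have e2 : ¬ L + 1 + 1 ≤ L := by omega
    have e3 : ¬ L + 1 + 1 = L + 1 := by omega
    have e4 : ¬ L + 1 + 2 ≤ L := by omega
    have e5 : ¬ L + 1 + 2 = L + 1 := by omega
    simp only [if_true, e1, e2, e3, e4, e5, if_false]
    rw [show L + 1 + 1 - 2 = L by omega, show L + 1 + 2 - 2 = L + 1 by omega, show L + 1 + 1 = L + 2 by omega]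
    rw [h3, h4, ← h5] at b2
    exact (hF _ _ _ _).2 b2

private theorem ds_cup_unl (L : ℕ) (u v v' w : ℕ → R) (a2 : ∀ i, L ≤ i → v (i + 2) = u i) (b1 : ∀ i, i ≠ L + 1 + 1 → w i = v i)
    (a2' : ∀ i, L ≤ i → v' (i + 2) = u i) (b1' : ∀ i, i ≠ L + 1 + 1 → w i = v' i) : v = v' := by
  funext i
  by_cases c1 : i = L + 1 + 1
  · subst c1
    rw [a2 L le_rfl, a2' L le_rfl]
  · rw [← b1 i c1, ← b1' i c1]

private theorem ds_cup_unr (L : ℕ) (u v v' w : ℕ → R) (a1 : ∀ i, i ≤ L + 1 → v i = u i)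
    (b1 : ∀ i, i ≠ L + 1 → w i = v i) (a1' : ∀ i, i ≤ L + 1 → v' i = u i)
    (b1' : ∀ i, i ≠ L + 1 → w i = v' i) : v = v' := by
  funext i
  by_cases c1 : i = L + 1
  · subst c1
    rw [a1 _ le_rfl, a1' _ le_rfl]
  · rw [← b1 i c1, ← b1' i c1]

private theorem ds_cap_fwd (L : ℕ) (Fl Fr : R → R → R → R) (hF : ∀ ρ τ a b : R, ρ = Fl τ a b ↔ τ = Fr a b ρ) (u v w : ℕ → R) (a1 : ∀ i, i ≠ L + 1 + 1 → v i = u i)
    (a2 : v (L + 1 + 1) = Fr (u (L + 1)) (u (L + 1 + 1)) (u (L + 1 + 2))) (b1 : ∀ i, i ≤ L → v i = w i)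
    (b2 : ∀ i, L ≤ i → v (i + 2) = w i) :
    ∃ y : ℕ → R, ((∀ i, i ≠ L + 1 → y i = u i) ∧ y (L + 1) = Fl (u L) (u (L + 1)) (u (L + 2))) ∧
      (∀ i, i ≤ L + 1 → y i = w i) ∧ ∀ i, L + 1 ≤ i → y (i + 2) = w i := by
  refine ⟨fun i => if i ≤ L + 1 then w i else if i = L + 2 then u (L + 2) else w (i - 2), ⟨?_, ?_⟩, ?_, ?_⟩
  · intro i hi
    by_cases c1 : i ≤ L
    · have e1 : i ≤ L + 1 := by omega
      simp only [e1, if_true]
      rw [← b1 i c1, a1 i (by omega)]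
    · have e1 : ¬ i ≤ L + 1 := by omega
      by_cases c2 : i = L + 2
      · subst c2
        simp only [e1, if_true, if_false]
      · simp only [e1, c2, if_false]
        have h3 := b2 (i - 2) (by omega)
        rw [show i - 2 + 2 = i by omega] at h3
        rw [← h3, a1 i (by omega)]
  · have h3 := b2 L le_rfl
    have h4 := b1 L le_rfl
    have h5 := a1 L (by omega)
    have h6 := b2 (L + 1) (by omega)
    have h7 := a1 (L + 1 + 2) (by omega)
    simp only [le_refl, if_true]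
    rw [show L + 1 + 1 = L + 2 by omega] at a2
    rw [h3, ← h4, h5, ← h7, h6] at a2
    exact (hF _ _ _ _).2 a2
  · intro i hi
    simp only [hi, if_true]
  · intro i hi
    have e1 : ¬ i + 2 ≤ L + 1 := by omega
    have e2 : ¬ i + 2 = L + 2 := by omega
    simp only [e1, e2, if_false]
    rw [Nat.add_sub_cancel]

private theorem ds_cap_bwd (L : ℕ) (Fl Fr : R → R → R → R) (hF : ∀ ρ τ a b : R, ρ = Fl τ a b ↔ τ = Fr a b ρ) (u v w : ℕ → R) (a1 : ∀ i, i ≠ L + 1 → v i = u i)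
    (a2 : v (L + 1) = Fl (u L) (u (L + 1)) (u (L + 2))) (b1 : ∀ i, i ≤ L + 1 → v i = w i)
    (b2 : ∀ i, L + 1 ≤ i → v (i + 2) = w i) :
    ∃ y : ℕ → R, ((∀ i, i ≠ L + 1 + 1 → y i = u i) ∧
        y (L + 1 + 1) = Fr (u (L + 1)) (u (L + 1 + 1)) (u (L + 1 + 2))) ∧
      (∀ i, i ≤ L → y i = w i) ∧ ∀ i, L ≤ i → y (i + 2) = w i := by
  refine ⟨fun i => if i ≤ L then w i else if i = L + 1 then u (L + 1) else w (i - 2), ⟨?_, ?_⟩, ?_, ?_⟩
  · intro i hi
    by_cases c1 : i ≤ L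
    · simp only [c1, if_true]
      rw [← b1 i (by omega), a1 i (by omega)]
    · by_cases c2 : i = L + 1
      · subst c2
        simp only [c1, if_true, if_false]
      · simp only [c1, c2, if_false]
        have h3 := b2 (i - 2) (by omega)
        rw [show i - 2 + 2 = i by omega] at h3
        rw [← h3, a1 i (by omega)]
  · have h3 := b1 L (by omega)
    have h4 := a1 L (by omega)
    have h5 := b1 (L + 1) le_rfl
    have h6 := b2 (L + 1) le_rfl
    have h7 := a1 (L + 1 + 2) (by omega)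
    have e2 : ¬ L + 1 + 1 ≤ L := by omega
    have e3 : ¬ L + 1 + 1 = L + 1 := by omega
    simp only [e2, e3, if_false]
    rw [show L + 1 + 1 - 2 = L by omega, show L + 1 + 1 = L + 2 by omega]
    rw [h5] at a2
    rw [← h3, h4, ← h7, h6]
    exact (hF _ _ _ _).1 a2
  · intro i hi
    simp only [hi, if_true]
  · intro i hi
    have e1 : ¬ i + 2 ≤ L := by omega
    have e2 : ¬ i + 2 = L + 1 := by omega
    simp only [e1, e2, if_false]
    rw [Nat.add_sub_cancel]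

private theorem ds_cap_unl (L : ℕ) (u v v' w : ℕ → R) (a1 : ∀ i, i ≠ L + 1 + 1 → v i = u i)
    (b2 : ∀ i, L ≤ i → v (i + 2) = w i) (a1' : ∀ i, i ≠ L + 1 + 1 → v' i = u i)
    (b2' : ∀ i, L ≤ i → v' (i + 2) = w i) : v = v' := by
  funext i
  by_cases c1 : i = L + 1 + 1
  · subst c1
    rw [b2 L le_rfl, b2' L le_rfl]
  · rw [a1 i c1, a1' i c1]

private theorem ds_cap_unr (L : ℕ) (u v v' w : ℕ → R) (a1 : ∀ i, i ≠ L + 1 → v i = u i)
    (b1 : ∀ i, i ≤ L + 1 → v i = w i) (a1' : ∀ i, i ≠ L + 1 → v' i = u i)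
    (b1' : ∀ i, i ≤ L + 1 → v' i = w i) : v = v' := by
  funext i
  by_cases c1 : i = L + 1
  · subst c1
    rw [b1 _ le_rfl, b1' _ le_rfl]
  · rw [a1 i c1, a1' i c1]

/-- the two crossings have the same sign -/
private theorem zs_sn (p q p' q' : List Bool) (s y x : Bool) :
    (sn ⟨p, cross s y x, q⟩ = 1) ↔ (sn ⟨p', cross (!s) x (!y), q'⟩ = 1) := by
  cases s <;> cases y <;> cases x <;> simp [sn, sz]

theorem z_slide_cup (u v : R) (huv : u * v = 1) (s e x : Bool) (p q : List Bool) :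
    ZIso u v [⟨p, cup e, [x] ++ q⟩, ⟨p ++ [e], cross s (!e) x, q⟩] [⟨p ++ [x], cup e, q⟩, ⟨p, cross (!s) x e, [!e] ++ q⟩] := by
  have hF : ∀ ρ τ a b : R, ρ = zf u v (sn ⟨p ++ [e], cross s (!e) x, q⟩ = 1) (!e) x τ a b ↔
      τ = zf u v (sn ⟨p, cross (!s) x e, [!e] ++ q⟩ = 1) x e a b ρ := by
    intro ρ τ a b
    have h1 := zs_sn (p ++ [e]) q p ([!e] ++ q) s (!e) x
    rw [Bool.not_not] at h1
    have h2 := zf_key u v huv _ _ h1 (!e) x ρ τ a b
    rw [Bool.not_not] at h2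
    exact h2
  apply ds_iso
  · intro t0 t1 t2 h1 h2
    rw [ds_cup] at h1
    rw [ds_cross, ds_len] at h2
    obtain ⟨y, h3, h4⟩ := ds_cup_fwd p.length _ _ hF t0 t1 t2 h1.1 h1.2 h2.1 h2.2
    refine ⟨y, ?_, ?_⟩
    · rw [ds_cup, ds_len]
      exact h3
    · rw [ds_cross]
      exact h4
  · intro t0 t1 t2 h1 h2
    rw [ds_cup, ds_len] at h1
    rw [ds_cross] at h2
    obtain ⟨y, h3, h4⟩ := ds_cup_bwd p.length _ _ hF t0 t1 t2 h1.1 h1.2 h2.1 h2.2
    refine ⟨y, ?_, ?_⟩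
    · rw [ds_cup]
      exact h3
    · rw [ds_cross, ds_len]
      exact h4
  · intro t0 t1 t1' t2 h1 h2 h3 h4
    rw [ds_cup] at h1 h3
    rw [ds_cross, ds_len] at h2 h4
    exact ds_cup_unl p.length t0 t1 t1' t2 h1.2 h2.1 h3.2 h4.1
  · intro t0 t1 t1' t2 h1 h2 h3 h4
    rw [ds_cup, ds_len] at h1 h3
    rw [ds_cross] at h2 h4
    exact ds_cup_unr p.length t0 t1 t1' t2 h1.1 h2.1 h3.1 h4.1

theorem z_slide_cap (u v : R) (huv : u * v = 1) (s e x : Bool) (p q : List Bool) :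
    ZIso u v [⟨p ++ [e], cross s x (!e), q⟩, ⟨p, cap e, [x] ++ q⟩] [⟨p, cross (!s) e x, [!e] ++ q⟩, ⟨p ++ [x], cap e, q⟩] := by
  have hF : ∀ ρ τ a b : R, ρ = zf u v (sn ⟨p, cross (!s) e x, [!e] ++ q⟩ = 1) e x τ a b ↔
      τ = zf u v (sn ⟨p ++ [e], cross s x (!e), q⟩ = 1) x (!e) a b ρ := by
    intro ρ τ a b
    have h1 := zs_sn p ([!e] ++ q) (p ++ [e]) q (!s) e x
    rw [Bool.not_not] at h1
    exact zf_key u v huv _ _ h1 e x ρ τ a b
  apply ds_iso
  · intro t0 t1 t2 h1 h2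
    rw [ds_cross, ds_len] at h1
    rw [ds_cap] at h2
    obtain ⟨y, h3, h4⟩ := ds_cap_fwd p.length _ _ hF t0 t1 t2 h1.1 h1.2 h2.1 h2.2
    refine ⟨y, ?_, ?_⟩
    · rw [ds_cross]
      exact h3
    · rw [ds_cap, ds_len]
      exact h4
  · intro t0 t1 t2 h1 h2
    rw [ds_cross] at h1
    rw [ds_cap, ds_len] at h2
    obtain ⟨y, h3, h4⟩ := ds_cap_bwd p.length _ _ hF t0 t1 t2 h1.1 h1.2 h2.1 h2.2
    refine ⟨y, ?_, ?_⟩
    · rw [ds_cross, ds_len]
      exact h3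
    · rw [ds_cap]
      exact h4
  · intro t0 t1 t1' t2 h1 h2 h3 h4
    rw [ds_cross, ds_len] at h1 h3
    rw [ds_cap] at h2 h4
    exact ds_cap_unl p.length t0 t1 t1' t2 h1.1 h2.2 h3.1 h4.2
  · intro t0 t1 t1' t2 h1 h2 h3 h4
    rw [ds_cross] at h1 h3
    rw [ds_cap, ds_len] at h2 h4
    exact ds_cap_unr p.length t0 t1 t1' t2 h1.1 h2.1 h3.1 h4.1

end Pool.Agent.Lib.MP_177a0e_gt.LT
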