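import Pool.Agent.Lib.MP_177a0e_gt.LT.Defs

/-!
# colourings: zigzags and births, the first and the second Reidemeister move.

MODELS: `Sig/DZ.lean` (`d_zig1`, `d_zig2`, `d_birth`), `Sig/DR1.lean` (`d_r1cup`, `d_r1cap`, `d_r2`), proved for `colM`, `Col`.
PROOFS (`L = |p|`, `u v = 1`). `z_zig1`, `z_zig2`, `z_birth`: there are no crossings: as in `DZ.lean`.
* `z_r1cup`: the directions are different: the value above is `zt P Q x (!x) l m r = -(m + Q r + P l)` or `-(m + Q l + P r)`; `t 1` is `t 0` with the gap `L` doubled (`l = r = t 0 L`) and a new value at `L + 1`; `t 2 (L + 1) = -(t 1 (L + 1) + (P + Q) t 0 L)`: so `t 1 (L + 1) = -(t 2 (L + 1) + (P + Q) t 0 L)` is determined by `t 2`: `Φ t = (t 0, t 2)`.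
* `z_r1cap`: `t 1 i = t 0 i` for `i ≠ L + 1`, `t 1 L = t 1 (L + 2)` by the cap, so `t 0 L = t 0 (L + 2)`, and `t 2` is `t 0` with two gaps deleted: `Φ t = (t 0, t 2)`; conversely `t 1 (L + 1) = -(t 0 (L + 1) + (P + Q) t 0 L)`.
* `z_r2`: `t 1 (L + 1)`, `t 2 (L + 1)` are determined by `t 0`, and `t 2 = t 0`: `zt Q P y x l (zt P Q x y l m r) r = m` (`P Q = 1`): `x = y`: `-(Q (l + r + Q (-(P (l + r + P m))))) = m`; `x ≠ y`: `-( -(m + Q r + P l) + P r + Q l)` with the roles of `P, Q` and of the directions exchanged: `zt Q P false true l m' r = -(m' + P l + Q r)`, `zt P Q true false l m r = -(m + Q r + P l)`.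
  (The second crossing has the opposite sign, so `P`, `Q` are exchanged, and the directions `y`, `x`.) `Φ t = (t 0)`.
-/

namespace Pool.Agent.Lib.MP_177a0e_gt.LT

open Pool.Agent.Lib.MP_177a0e_gt.Tangle Pool.Agent.Lib.MP_177a0e_gt.Tangle.Gen
open Pool.Agent.Lib.MP_177a0e_gt.Sig

variable {R : Type} [Field R]

/-- the middle level of a zigzag with the outer level `f` -/
private def ZZ_zmid (L : ℕ) (f : ℕ → R) : ℕ → R := fun i => if i ≤ L + 1 then f i else f (i - 2)

/-- the levels `f`, `g`, `f` -/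
private def ZZ_lev3 (f g : ℕ → R) : ℕ → ℕ → R := fun j => if j = 0 then f else if j = 1 then g else if j = 2 then f else 0

/-- the level `f` alone -/
private def ZZ_lev1 (f : ℕ → R) : ℕ → ℕ → R := fun j => if j = 0 then f else 0

private theorem ZZ_lev1_mem (u v : R) (f : ℕ → R) : ZZ_lev1 f ∈ Zr u v [] :=
  ⟨trivial, fun _ => Submodule.mem_top, fun j hj => by
    have : j ≠ 0 := by simp only [List.length_nil] at hj; omega
    simp [ZZ_lev1, this]⟩

private theorem ZZ_eq_lev1 {u v : R} {t : ℕ → ℕ → R} (h : t ∈ Zr u v []) : t = ZZ_lev1 (t 0) := by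
  funext j
  by_cases hj : j = 0
  · subst hj; simp [ZZ_lev1]
  · have := h.2.2 j (by simp only [List.length_nil]; omega)
    rw [this]; simp [ZZ_lev1, hj]

/-- the general form of the two zigzags: all the states have the middle level `ZZ_zmid` and equal outer levels -/
private theorem ZZ_zig_aux {u v : R} (L : ℕ) (s₁ s₂ : Slice)
    (h₁ : ∀ t : ℕ → ℕ → R, t ∈ Zr u v [s₁, s₂] → t 1 = ZZ_zmid L (t 0) ∧ t 2 = t 0)
    (h₂ : ∀ f : ℕ → R, ZZ_lev3 f (ZZ_zmid L f) ∈ Zr u v [s₁, s₂]) : ZIso u v [s₁, s₂] [] := by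
  refine ⟨{ toFun := fun t => ⟨ZZ_lev1 (t.1 0), ZZ_lev1_mem u v _⟩
            invFun := fun t => ⟨ZZ_lev3 (t.1 0) (ZZ_zmid L (t.1 0)), h₂ _⟩
            map_add' := ?_
            map_smul' := ?_
            left_inv := ?_
            right_inv := ?_ }, ?_⟩
  · intro a b
    apply Subtype.ext
    funext j i
    by_cases hj : j = 0 <;> simp [ZZ_lev1, hj]
  · intro r a
    apply Subtype.ext
    funext j i
    by_cases hj : j = 0 <;> simp [ZZ_lev1, hj]
  · intro t
    apply Subtype.ext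
    funext j
    obtain ⟨e1, e2⟩ := h₁ t.1 t.2
    show ZZ_lev3 (ZZ_lev1 (t.1 0) 0) (ZZ_zmid L (ZZ_lev1 (t.1 0) 0)) j = t.1 j
    have e0 : ZZ_lev1 (t.1 0) 0 = t.1 0 := by simp [ZZ_lev1]
    rw [e0]
    by_cases h0 : j = 0
    · subst h0; simp [ZZ_lev3]
    · by_cases h1 : j = 1
      · subst h1; simp [ZZ_lev3, e1]
      · by_cases h2 : j = 2
        · subst h2; simp [ZZ_lev3, e2]
        · have := t.2.2.2 j (by simp only [List.length_cons, List.length_nil]; omega)
          rw [this]; simp [ZZ_lev3, h0, h1, h2]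
  · intro t
    apply Subtype.ext
    show ZZ_lev1 (ZZ_lev3 (t.1 0) (ZZ_zmid L (t.1 0)) 0) = t.1
    have e0 : ZZ_lev3 (t.1 0) (ZZ_zmid L (t.1 0)) 0 = t.1 0 := by simp [ZZ_lev3]
    rw [e0]
    exact (ZZ_eq_lev1 t.2).symm
  · intro t
    obtain ⟨e1, e2⟩ := h₁ t.1 t.2
    have e0 : ZZ_lev1 (t.1 0) 0 = t.1 0 := by simp [ZZ_lev1]
    refine ⟨e0, ?_⟩
    show ZZ_lev1 (t.1 0) 0 = t.1 2
    rw [e0, e2]

theorem z_zig1 (u v : R) (x : Bool) (p q : List Bool) : ZIso u v [⟨p ++ [x], cup (!x), q⟩, ⟨p, cap x, [x] ++ q⟩] [] := by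
  refine ZZ_zig_aux p.length _ _ ?_ ?_
  · intro t ht
    obtain ⟨⟨⟨a1, a2⟩, -⟩, ⟨⟨b1, b2⟩, -⟩, -⟩ := ht.1
    simp only [Sig.lp, List.length_append, List.length_cons, List.length_nil, zero_add, sh] at a1 a2 b1 b2
    have e1 : t 1 = ZZ_zmid p.length (t 0) := by
      funext i
      by_cases hi : i ≤ p.length + 1
      · simp only [ZZ_zmid, hi, if_true]; exact a1 i hi
      · simp only [ZZ_zmid, hi, if_false]
        by_cases h2 : i = p.length + 2
        · have c1 := b2 p.length le_rfl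
          have c2 := b1 p.length le_rfl
          have c3 := a1 p.length (by omega)
          subst h2
          rw [show p.length + 2 - 2 = p.length by omega]
          simp only [Nat.reduceAdd] at c1 c2
          rw [c1, ← c2, c3]
        · have c1 := a2 (i - 2) (by omega)
          rwa [show i - 2 + 2 = i by omega] at c1
    refine ⟨e1, ?_⟩
    funext i
    simp only [Nat.reduceAdd] at b1 b2
    by_cases hi : i ≤ p.length
    · rw [← b1 i hi, a1 i (by omega)]
    · rw [← b2 i (by omega), e1]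
      simp only [ZZ_zmid]
      rw [if_neg (by omega)]
      rfl
  · intro f
    refine ⟨⟨⟨⟨?_, ?_⟩, trivial⟩, ⟨⟨?_, ?_⟩, trivial⟩, trivial⟩, fun _ => Submodule.mem_top, ?_⟩
    · intro i hi
      simp only [Sig.lp, List.length_append, List.length_cons, List.length_nil, zero_add] at hi
      simp [ZZ_lev3, ZZ_zmid, hi]
    · intro i hi
      simp only [Sig.lp, List.length_append, List.length_cons, List.length_nil, zero_add] at hi
      have : ¬ i + 2 ≤ p.length + 1 := by omega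
      simp [ZZ_lev3, ZZ_zmid, this]
    · intro i hi
      simp only [Sig.lp] at hi
      have : i ≤ p.length + 1 := by omega
      simp [ZZ_lev3, ZZ_zmid, sh, this]
    · intro i hi
      simp only [Sig.lp] at hi
      have : ¬ i + 2 ≤ p.length + 1 := by omega
      simp [ZZ_lev3, ZZ_zmid, sh, this]
    · intro j hj
      simp only [List.length_cons, List.length_nil] at hj
      have h0 : j ≠ 0 := by omega
      have h1 : j ≠ 1 := by omega
      have h2 : j ≠ 2 := by omega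
      simp [ZZ_lev3, h0, h1, h2]

theorem z_zig2 (u v : R) (x : Bool) (p q : List Bool) : ZIso u v [⟨p, cup x, [x] ++ q⟩, ⟨p ++ [x], cap (!x), q⟩] [] := by
  refine ZZ_zig_aux p.length _ _ ?_ ?_
  · intro t ht
    obtain ⟨⟨⟨a1, a2⟩, -⟩, ⟨⟨b1, b2⟩, -⟩, -⟩ := ht.1
    simp only [Sig.lp, List.length_append, List.length_cons, List.length_nil, zero_add, sh] at a1 a2 b1 b2
    simp only [Nat.reduceAdd] at b1 b2
    have e2 : t 2 = t 0 := by
      funext i
      by_cases hi : i ≤ p.length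
      · rw [← b1 i (by omega), a1 i hi]
      · rw [← b2 i (by omega), a2 i (by omega)]
    refine ⟨?_, e2⟩
    funext i
    by_cases hi : i ≤ p.length + 1
    · simp only [ZZ_zmid, hi, if_true]
      rw [b1 i hi, e2]
    · simp only [ZZ_zmid, hi, if_false]
      have c1 := a2 (i - 2) (by omega)
      rwa [show i - 2 + 2 = i by omega] at c1
  · intro f
    refine ⟨⟨⟨⟨?_, ?_⟩, trivial⟩, ⟨⟨?_, ?_⟩, trivial⟩, trivial⟩, fun _ => Submodule.mem_top, ?_⟩
    · intro i hi
      simp only [Sig.lp] at hi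
      have : i ≤ p.length + 1 := by omega
      simp [ZZ_lev3, ZZ_zmid, this]
    · intro i hi
      simp only [Sig.lp] at hi
      have : ¬ i + 2 ≤ p.length + 1 := by omega
      simp [ZZ_lev3, ZZ_zmid, this]
    · intro i hi
      simp only [Sig.lp, List.length_append, List.length_cons, List.length_nil, zero_add] at hi
      simp [ZZ_lev3, ZZ_zmid, sh, hi]
    · intro i hi
      simp only [Sig.lp, List.length_append, List.length_cons, List.length_nil, zero_add] at hi
      have : ¬ i + 2 ≤ p.length + 1 := by omega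
      simp [ZZ_lev3, ZZ_zmid, sh, this]
    · intro j hj
      simp only [List.length_cons, List.length_nil] at hj
      have h0 : j ≠ 0 := by omega
      have h1 : j ≠ 1 := by omega
      have h2 : j ≠ 2 := by omega
      simp [ZZ_lev3, h0, h1, h2]

/-- `f` with two gaps inserted, the middle one with the value `r` -/
private def ZZ_bmid (L : ℕ) (f : ℕ → R) (r : R) : ℕ → R :=
  fun i => if i ≤ L then f i else if i = L + 1 then r else f (i - 2)

theorem z_birth (u v : R) (x : Bool) (p q : List Bool) : ZAdd u v [⟨p, cup x, q⟩, ⟨p, cap x, q⟩] [] := by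
  have key : ∀ t : ℕ → ℕ → R, t ∈ Zr u v [⟨p, cup x, q⟩, ⟨p, cap x, q⟩] →
      t 1 = ZZ_bmid p.length (t 0) (t 1 (p.length + 1)) ∧ t 2 = t 0 := by
    intro t ht
    obtain ⟨⟨⟨a1, a2⟩, -⟩, ⟨⟨b1, b2⟩, -⟩, -⟩ := ht.1
    simp only [Sig.lp, sh] at a1 a2 b1 b2
    simp only [Nat.reduceAdd] at b1 b2
    refine ⟨?_, ?_⟩
    · funext i
      by_cases hi : i ≤ p.length
      · simp only [ZZ_bmid, hi, if_true]; exact a1 i hi
      · by_cases h1 : i = p.length + 1
        · subst h1; simp [ZZ_bmid]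
        · simp only [ZZ_bmid, hi, h1, if_false]
          have c1 := a2 (i - 2) (by omega)
          rwa [show i - 2 + 2 = i by omega] at c1
    · funext i
      by_cases hi : i ≤ p.length
      · rw [← b1 i hi, a1 i hi]
      · rw [← b2 i (by omega), a2 i (by omega)]
  have mem : ∀ (f : ℕ → R) (r : R), ZZ_lev3 f (ZZ_bmid p.length f r) ∈ Zr u v [⟨p, cup x, q⟩, ⟨p, cap x, q⟩] := by
    intro f r
    refine ⟨⟨⟨⟨?_, ?_⟩, trivial⟩, ⟨⟨?_, ?_⟩, trivial⟩, trivial⟩, fun _ => Submodule.mem_top, ?_⟩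
    · intro i hi
      simp only [Sig.lp] at hi
      simp [ZZ_lev3, ZZ_bmid, hi]
    · intro i hi
      simp only [Sig.lp] at hi
      have h1 : ¬ i + 2 ≤ p.length := by omega
      have h2 : ¬ i + 2 = p.length + 1 := by omega
      simp only [ZZ_lev3, ZZ_bmid, h1, h2, if_false, if_true, one_ne_zero, Nat.add_sub_cancel]
    · intro i hi
      simp only [Sig.lp] at hi
      simp [ZZ_lev3, ZZ_bmid, sh, hi]
    · intro i hi
      simp only [Sig.lp] at hi
      have h1 : ¬ i + 2 ≤ p.length := by omega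
      have h2 : ¬ i + 2 = p.length + 1 := by omega
      simp [ZZ_lev3, ZZ_bmid, sh, h1, h2]
    · intro j hj
      simp only [List.length_cons, List.length_nil] at hj
      have h0 : j ≠ 0 := by omega
      have h1 : j ≠ 1 := by omega
      have h2 : j ≠ 2 := by omega
      simp [ZZ_lev3, h0, h1, h2]
  refine ⟨{ toFun := fun t => (⟨ZZ_lev1 (t.1 0), ZZ_lev1_mem u v _⟩, t.1 1 (p.length + 1))
            invFun := fun t => ⟨ZZ_lev3 (t.1.1 0) (ZZ_bmid p.length (t.1.1 0) t.2), mem _ _⟩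
            map_add' := ?_
            map_smul' := ?_
            left_inv := ?_
            right_inv := ?_ }, ?_⟩
  · intro a b
    refine Prod.ext (Subtype.ext ?_) rfl
    funext j i
    by_cases hj : j = 0 <;> simp [ZZ_lev1, hj]
  · intro r a
    refine Prod.ext (Subtype.ext ?_) rfl
    funext j i
    by_cases hj : j = 0 <;> simp [ZZ_lev1, hj]
  · intro t
    apply Subtype.ext
    funext j
    obtain ⟨e1, e2⟩ := key t.1 t.2
    show ZZ_lev3 (ZZ_lev1 (t.1 0) 0) (ZZ_bmid p.length (ZZ_lev1 (t.1 0) 0) (t.1 1 (p.length + 1))) j = t.1 j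
    have e0 : ZZ_lev1 (t.1 0) 0 = t.1 0 := by simp [ZZ_lev1]
    rw [e0, ← e1]
    by_cases h0 : j = 0
    · subst h0; simp [ZZ_lev3]
    · by_cases h1 : j = 1
      · subst h1; simp [ZZ_lev3]
      · by_cases h2 : j = 2
        · subst h2; simp [ZZ_lev3, e2]
        · have := t.2.2.2 j (by simp only [List.length_cons, List.length_nil]; omega)
          rw [this]; simp [ZZ_lev3, h0, h1, h2]
  · rintro ⟨t, r⟩
    have e0 : ZZ_lev3 (t.1 0) (ZZ_bmid p.length (t.1 0) r) 0 = t.1 0 := by simp [ZZ_lev3]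
    refine Prod.ext (Subtype.ext ?_) ?_
    · show ZZ_lev1 (ZZ_lev3 (t.1 0) (ZZ_bmid p.length (t.1 0) r) 0) = t.1
      rw [e0]
      exact (ZZ_eq_lev1 t.2).symm
    · show ZZ_lev3 (t.1 0) (ZZ_bmid p.length (t.1 0) r) 1 (p.length + 1) = r
      simp [ZZ_lev3, ZZ_bmid]
  · intro t
    obtain ⟨e1, e2⟩ := key t.1 t.2
    have e0 : ZZ_lev1 (t.1 0) 0 = t.1 0 := by simp [ZZ_lev1]
    refine ⟨e0, ?_⟩
    show ZZ_lev1 (t.1 0) 0 = t.1 2
    rw [e0, e2]

/-- an equivalence given by two linear maps on all sequences of levels -/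
private theorem ZZ_mk {u v : R} {a b : Word} (f g : (ℕ → ℕ → R) →ₗ[R] (ℕ → ℕ → R))
    (hf : ∀ t ∈ Zr u v a, f t ∈ Zr u v b) (hg : ∀ t ∈ Zr u v b, g t ∈ Zr u v a)
    (h1 : ∀ t ∈ Zr u v a, g (f t) = t) (h2 : ∀ t ∈ Zr u v b, f (g t) = t)
    (h3 : ∀ t ∈ Zr u v a, f t 0 = t 0 ∧ f t b.length = t a.length) : ZIso u v a b := by
  refine ⟨LinearEquiv.ofLinearMap (f.restrict hf) (g.restrict hg) ?_ ?_, ?_⟩
  · ext1 t
    apply Subtype.ext
    exact h2 t.1 t.2
  · ext1 t
    apply Subtype.ext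
    exact h1 t.1 t.2
  · intro t
    exact h3 t.1 t.2

private theorem ZZ_mem0 (u v : R) (t : ℕ → ℕ → R) : t ∈ Zr u v [] ↔ ∀ j, 0 < j → t j = 0 :=
  ⟨fun h => h.2.2, fun h => ⟨trivial, fun _ => trivial, h⟩⟩

private theorem ZZ_mem1 (u v : R) (s₁ : Slice) (t : ℕ → ℕ → R) : t ∈ Zr u v [s₁] ↔
    (Fit s₁ (t 0) (t 1) ∧ CZ u v s₁ (t 0) (t 1)) ∧ ∀ j, 1 < j → t j = 0 :=
  ⟨fun h => ⟨h.1.1, h.2.2⟩, fun h => ⟨⟨h.1, trivial⟩, fun _ => trivial, h.2⟩⟩

private theorem ZZ_mem2 (u v : R) (s₁ s₂ : Slice) (t : ℕ → ℕ → R) : t ∈ Zr u v [s₁, s₂] ↔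
    (Fit s₁ (t 0) (t 1) ∧ CZ u v s₁ (t 0) (t 1)) ∧ (Fit s₂ (t 1) (t 2) ∧ CZ u v s₂ (t 1) (t 2)) ∧
      ∀ j, 2 < j → t j = 0 :=
  ⟨fun h => ⟨h.1.1, h.1.2.1, h.2.2⟩, fun h => ⟨⟨h.1, h.2.1, trivial⟩, fun _ => trivial, h.2.2⟩⟩

/-- the sequence of levels `(A t, B t, C t, 0, …)` -/
private def ZZ_seq (A B C : (ℕ → ℕ → R) →ₗ[R] (ℕ → R)) : (ℕ → ℕ → R) →ₗ[R] (ℕ → ℕ → R) :=
  LinearMap.pi fun j => match j with
    | 0 => A
    | 1 => B
    | 2 => C
    | _ + 3 => 0

private theorem ZZ_seq_zero (A B C : (ℕ → ℕ → R) →ₗ[R] (ℕ → R)) (t : ℕ → ℕ → R) {j : ℕ}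
    (hj : 2 < j) : ZZ_seq A B C t j = 0 := by
  obtain ⟨k, rfl⟩ : ∃ k, j = k + 3 := ⟨j - 3, by omega⟩
  rfl

/-- the level `j` -/
private def ZZ_pr (j : ℕ) : (ℕ → ℕ → R) →ₗ[R] (ℕ → R) := LinearMap.proj j

/-- the level `j` with the value at the gap `L + 1` changed to minus (this value plus `k` times the
value at the gap `L` of the level `0`) -/
private def ZZ_cr (k : R) (j L : ℕ) : (ℕ → ℕ → R) →ₗ[R] (ℕ → R) where
  toFun t i := if i = L + 1 then -(t j (L + 1) + k * t 0 L) else t j i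
  map_add' t u := by
    funext i
    simp only [Pi.add_apply]
    split_ifs
    · ring
    · rfl
  map_smul' r t := by
    funext i
    simp only [Pi.smul_apply, smul_eq_mul, RingHom.id_apply]
    split_ifs
    · ring
    · rfl

/-- the value above a crossing with the sides equal and different directions -/
private theorem ZZ_zt (P Q : R) (x : Bool) (a m : R) : zt P Q x (!x) a m a = -(m + (P + Q) * a) := by
  cases x <;> simp only [zt, Bool.not_true, Bool.not_false] <;> ring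

private theorem ZZ_CZ (u v : R) (s x : Bool) (p q : List Bool) (f g : ℕ → R)
    (h : f p.length = f (p.length + 2)) : CZ u v ⟨p, cross s x (!x), q⟩ f g ↔
      g (p.length + 1) = -(f (p.length + 1) + (u + v) * f p.length) := by
  simp only [CZ, Sig.lp]
  rw [← h, ZZ_zt, ZZ_zt, add_comm v u, ite_self]

theorem z_r1cup (u v : R) (s x : Bool) (p q : List Bool) :
    ZIso u v [⟨p, cup x, q⟩, ⟨p, cross s x (!x), q⟩] [⟨p, cup (!x), q⟩] := by
  have key : ∀ t ∈ Zr u v [⟨p, cup x, q⟩, ⟨p, cross s x (!x), q⟩],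
      t 2 p.length = t 0 p.length ∧ (∀ i, p.length ≤ i → t 2 (i + 2) = t 0 i) ∧
      (∀ i, i ≤ p.length → t 2 i = t 0 i) ∧ (∀ i, i ≠ p.length + 1 → t 2 i = t 1 i) ∧
      t 2 (p.length + 1) = -(t 1 (p.length + 1) + (u + v) * t 0 p.length) := by
    intro t ht
    obtain ⟨⟨h1, -⟩, ⟨h2, h3⟩, -⟩ := (ZZ_mem2 u v _ _ t).1 ht
    obtain ⟨h4, h5⟩ := h1
    change ∀ i, i ≤ p.length → t 1 i = t 0 i at h4
    change ∀ i, p.length ≤ i → t 1 (i + 2) = t 0 i at h5
    change ∀ i, i ≠ p.length + 1 → t 2 i = t 1 i at h2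
    have h6 : t 1 p.length = t 0 p.length := h4 p.length le_rfl
    have h7 : t 1 (p.length + 2) = t 0 p.length := h5 p.length le_rfl
    rw [ZZ_CZ u v s x p q _ _ (h6.trans h7.symm), h6] at h3
    refine ⟨?_, ?_, ?_, h2, h3⟩
    · rw [h2 _ (by omega), h6]
    · intro i hi
      rw [h2 _ (by omega), h5 i hi]
    · intro i hi
      rw [h2 _ (by omega), h4 i hi]
  refine ZZ_mk (ZZ_seq (ZZ_pr 0) (ZZ_pr 2) 0) (ZZ_seq (ZZ_pr 0) (ZZ_cr (u + v) 1 p.length) (ZZ_pr 1))
    ?_ ?_ ?_ ?_ ?_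
  · intro t ht
    obtain ⟨-, k2, k3, -, -⟩ := key t ht
    refine (ZZ_mem1 u v _ _).2 ⟨⟨⟨k3, k2⟩, trivial⟩, fun j hj => ?_⟩
    rcases Nat.lt_or_ge 2 j with h | h
    · exact ZZ_seq_zero _ _ _ t h
    · obtain rfl : j = 2 := by omega
      rfl
  · intro t ht
    obtain ⟨⟨h1, -⟩, -⟩ := (ZZ_mem1 u v _ t).1 ht
    obtain ⟨h4, h5⟩ := h1
    change ∀ i, i ≤ p.length → t 1 i = t 0 i at h4
    change ∀ i, p.length ≤ i → t 1 (i + 2) = t 0 i at h5
    have e1 : ∀ i, i ≠ p.length + 1 → ZZ_cr (u + v) 1 p.length t i = t 1 i := fun i hi => if_neg hi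
    have e2 : ZZ_cr (u + v) 1 p.length t (p.length + 1) =
      -(t 1 (p.length + 1) + (u + v) * t 0 p.length) := if_pos rfl
    refine (ZZ_mem2 u v _ _ _).2 ⟨⟨⟨?_, ?_⟩, trivial⟩, ⟨?_, ?_⟩, fun j hj => ZZ_seq_zero _ _ _ t hj⟩
    · intro i hi
      change i ≤ p.length at hi
      exact (e1 i (by omega)).trans (h4 i hi)
    · intro i hi
      change p.length ≤ i at hi
      exact (e1 (i + 2) (by omega)).trans (h5 i hi)
    · intro i hi
      exact (e1 i hi).symm
    · have e3 : ZZ_cr (u + v) 1 p.length t p.length = t 0 p.length :=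
        (e1 _ (by omega)).trans (h4 _ le_rfl)
      have e4 : ZZ_cr (u + v) 1 p.length t (p.length + 2) = t 0 p.length :=
        (e1 _ (by omega)).trans (h5 _ le_rfl)
      change CZ u v ⟨p, cross s x (!x), q⟩ (ZZ_cr (u + v) 1 p.length t) (t 1)
      rw [ZZ_CZ u v s x p q _ _ (e3.trans e4.symm), e2, e3]
      ring
  · intro t ht
    obtain ⟨k1, k2, k3, k4, k5⟩ := key t ht
    obtain ⟨-, -, h1⟩ := (ZZ_mem2 u v _ _ t).1 ht
    funext j
    rcases Nat.lt_or_ge 2 j with h | h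
    · rw [ZZ_seq_zero _ _ _ _ h, h1 j h]
    · interval_cases j
      · rfl
      · funext i
        change (if i = p.length + 1 then -(t 2 (p.length + 1) + (u + v) * t 0 p.length) else t 2 i)
          = t 1 i
        by_cases hi : i = p.length + 1
        · rw [if_pos hi, hi, k5]
          ring
        · rw [if_neg hi, k4 i hi]
      · rfl
  · intro t ht
    obtain ⟨-, h1⟩ := (ZZ_mem1 u v _ t).1 ht
    funext j
    rcases Nat.lt_or_ge 2 j with h | h
    · rw [ZZ_seq_zero _ _ _ _ h, h1 j (by omega)]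
    · interval_cases j
      · rfl
      · rfl
      · exact (h1 2 (by norm_num)).symm
  · intro t ht
    exact ⟨rfl, rfl⟩

theorem z_r1cap (u v : R) (s x : Bool) (p q : List Bool) :
    ZIso u v [⟨p, cross s x (!x), q⟩, ⟨p, cap (!x), q⟩] [⟨p, cap x, q⟩] := by
  have key : ∀ t ∈ Zr u v [⟨p, cross s x (!x), q⟩, ⟨p, cap (!x), q⟩],
      (∀ i, i ≤ p.length → t 0 i = t 2 i) ∧ (∀ i, p.length ≤ i → t 0 (i + 2) = t 2 i) ∧
      (∀ i, i ≠ p.length + 1 → t 1 i = t 0 i) ∧
      t 1 (p.length + 1) = -(t 0 (p.length + 1) + (u + v) * t 0 p.length) := by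
    intro t ht
    obtain ⟨⟨h2, h3⟩, ⟨h1, -⟩, -⟩ := (ZZ_mem2 u v _ _ t).1 ht
    obtain ⟨h4, h5⟩ := h1
    change ∀ i, i ≤ p.length → t 1 i = t 2 i at h4
    change ∀ i, p.length ≤ i → t 1 (i + 2) = t 2 i at h5
    change ∀ i, i ≠ p.length + 1 → t 1 i = t 0 i at h2
    have h6 : t 0 p.length = t 0 (p.length + 2) := by
      rw [← h2 _ (by omega), ← h2 _ (by omega), h4 _ le_rfl, h5 _ le_rfl]
    rw [ZZ_CZ u v s x p q _ _ h6] at h3
    refine ⟨?_, ?_, h2, h3⟩
    · intro i hi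
      rw [← h2 _ (by omega), h4 i hi]
    · intro i hi
      rw [← h2 _ (by omega), h5 i hi]
  refine ZZ_mk (ZZ_seq (ZZ_pr 0) (ZZ_pr 2) 0) (ZZ_seq (ZZ_pr 0) (ZZ_cr (u + v) 0 p.length) (ZZ_pr 1))
    ?_ ?_ ?_ ?_ ?_
  · intro t ht
    obtain ⟨k1, k2, -, -⟩ := key t ht
    refine (ZZ_mem1 u v _ _).2 ⟨⟨⟨k1, k2⟩, trivial⟩, fun j hj => ?_⟩
    rcases Nat.lt_or_ge 2 j with h | h
    · exact ZZ_seq_zero _ _ _ t h
    · obtain rfl : j = 2 := by omega
      rfl
  · intro t ht
    obtain ⟨⟨h1, -⟩, -⟩ := (ZZ_mem1 u v _ t).1 ht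
    obtain ⟨h4, h5⟩ := h1
    change ∀ i, i ≤ p.length → t 0 i = t 1 i at h4
    change ∀ i, p.length ≤ i → t 0 (i + 2) = t 1 i at h5
    have e1 : ∀ i, i ≠ p.length + 1 → ZZ_cr (u + v) 0 p.length t i = t 0 i := fun i hi => if_neg hi
    have e2 : ZZ_cr (u + v) 0 p.length t (p.length + 1) =
      -(t 0 (p.length + 1) + (u + v) * t 0 p.length) := if_pos rfl
    have h6 : t 0 p.length = t 0 (p.length + 2) := (h4 _ le_rfl).trans (h5 _ le_rfl).symm
    refine (ZZ_mem2 u v _ _ _).2 ⟨⟨?_, ?_⟩, ⟨⟨?_, ?_⟩, trivial⟩, fun j hj => ZZ_seq_zero _ _ _ t hj⟩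
    · intro i hi
      exact e1 i hi
    · change CZ u v ⟨p, cross s x (!x), q⟩ (t 0) (ZZ_cr (u + v) 0 p.length t)
      rw [ZZ_CZ u v s x p q _ _ h6, e2]
    · intro i hi
      change i ≤ p.length at hi
      exact (e1 i (by omega)).trans (h4 i hi)
    · intro i hi
      change p.length ≤ i at hi
      exact (e1 (i + 2) (by omega)).trans (h5 i hi)
  · intro t ht
    obtain ⟨k1, k2, k4, k5⟩ := key t ht
    obtain ⟨-, -, h1⟩ := (ZZ_mem2 u v _ _ t).1 ht
    funext j
    rcases Nat.lt_or_ge 2 j with h | h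
    · rw [ZZ_seq_zero _ _ _ _ h, h1 j h]
    · interval_cases j
      · rfl
      · funext i
        change (if i = p.length + 1 then -(t 0 (p.length + 1) + (u + v) * t 0 p.length) else t 0 i)
          = t 1 i
        by_cases hi : i = p.length + 1
        · rw [if_pos hi, hi, k5]
        · rw [if_neg hi, k4 i hi]
      · rfl
  · intro t ht
    obtain ⟨-, h1⟩ := (ZZ_mem1 u v _ t).1 ht
    funext j
    rcases Nat.lt_or_ge 2 j with h | h
    · rw [ZZ_seq_zero _ _ _ _ h, h1 j (by omega)]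
    · interval_cases j
      · rfl
      · rfl
      · exact (h1 2 (by norm_num)).symm
  · intro t ht
    exact ⟨rfl, rfl⟩

/-- the value above the crossing `cross s x y` -/
private def ZZ_val (u v : R) (s x y : Bool) (l m r : R) : R :=
  if (if x = y then sz s else -sz s) = 1 then zt u v x y l m r else zt v u x y l m r

private theorem ZZ_val_add (u v : R) (s x y : Bool) (l m r l' m' r' : R) :
    ZZ_val u v s x y (l + l') (m + m') (r + r') = ZZ_val u v s x y l m r + ZZ_val u v s x y l' m' r' := by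
  unfold ZZ_val
  split_ifs <;> rw [zt_add]

private theorem ZZ_val_smul (u v : R) (s x y : Bool) (k l m r : R) :
    ZZ_val u v s x y (k * l) (k * m) (k * r) = k * ZZ_val u v s x y l m r := by
  unfold ZZ_val
  split_ifs <;> rw [zt_smul]

private theorem ZZ_val_val (u v : R) (huv : u * v = 1) (s x y : Bool) (l m r : R) :
    ZZ_val u v (!s) y x l (ZZ_val u v s x y l m r) r = m := by
  have hz : ∀ P Q : R, P * Q = 1 → ∀ x y : Bool, zt Q P y x l (zt P Q x y l m r) r = m := by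
    intro P Q h x y
    cases x <;> cases y <;> simp only [zt]
    · linear_combination (m * (P * Q + 1) + P * (l + r)) * h
    · ring
    · ring
    · linear_combination (m * (P * Q + 1) + Q * (l + r)) * h
  have hvu : v * u = 1 := by rw [mul_comm]; exact huv
  unfold ZZ_val
  cases s <;> cases x <;> cases y <;> simp [sz, hz u v huv, hz v u hvu]

/-- the level above a crossing -/
private def ZZ_up (u v : R) (s x y : Bool) (L : ℕ) : (ℕ → ℕ → R) →ₗ[R] (ℕ → R) where
  toFun t i := if i = L + 1 then ZZ_val u v s x y (t 0 L) (t 0 (L + 1)) (t 0 (L + 2)) else t 0 i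
  map_add' t t' := by
    funext i
    simp only [Pi.add_apply]
    split_ifs
    · rw [ZZ_val_add]
    · rfl
  map_smul' r t := by
    funext i
    simp only [Pi.smul_apply, smul_eq_mul, RingHom.id_apply]
    split_ifs
    · rw [ZZ_val_smul]
    · rfl

theorem z_r2 (u v : R) (huv : u * v = 1) (s x y : Bool) (p q : List Bool) :
    ZIso u v [⟨p, cross s x y, q⟩, ⟨p, cross (!s) y x, q⟩] [] := by
  have key : ∀ t ∈ Zr u v [⟨p, cross s x y, q⟩, ⟨p, cross (!s) y x, q⟩],
      t 2 = t 0 ∧ t 1 = ZZ_up u v s x y p.length t := by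
    intro t ht
    obtain ⟨⟨h1, h2⟩, ⟨h3, h4⟩, -⟩ := (ZZ_mem2 u v _ _ t).1 ht
    change ∀ i, i ≠ p.length + 1 → t 1 i = t 0 i at h1
    change t 1 (p.length + 1) =
      ZZ_val u v s x y (t 0 p.length) (t 0 (p.length + 1)) (t 0 (p.length + 2)) at h2
    change ∀ i, i ≠ p.length + 1 → t 2 i = t 1 i at h3
    change t 2 (p.length + 1) =
      ZZ_val u v (!s) y x (t 1 p.length) (t 1 (p.length + 1)) (t 1 (p.length + 2)) at h4
    have h8 : t 1 p.length = t 0 p.length := h1 p.length (by omega)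
    have h9 : t 1 (p.length + 2) = t 0 (p.length + 2) := h1 (p.length + 2) (by omega)
    rw [h8, h9, h2, ZZ_val_val u v huv] at h4
    constructor
    · funext i
      by_cases hi : i = p.length + 1
      · subst hi
        exact h4
      · rw [h3 i hi, h1 i hi]
    · funext i
      change t 1 i = if i = p.length + 1 then _ else _
      by_cases hi : i = p.length + 1
      · rw [if_pos hi, hi]
        exact h2
      · rw [if_neg hi]
        exact h1 i hi
  refine ZZ_mk (ZZ_seq (ZZ_pr 0) 0 0) (ZZ_seq (ZZ_pr 0) (ZZ_up u v s x y p.length) (ZZ_pr 0))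
    ?_ ?_ ?_ ?_ ?_
  · intro t ht
    refine (ZZ_mem0 u v _).2 fun j hj => ?_
    rcases Nat.lt_or_ge 2 j with h | h
    · exact ZZ_seq_zero _ _ _ t h
    · interval_cases j
      · rfl
      · rfl
  · intro t ht
    refine (ZZ_mem2 u v _ _ _).2 ⟨⟨fun i hi => if_neg hi, ?_⟩, ⟨fun i hi => (if_neg hi).symm, ?_⟩,
      fun j hj => ZZ_seq_zero _ _ _ t hj⟩
    · change (if p.length + 1 = p.length + 1 then
        ZZ_val u v s x y (t 0 p.length) (t 0 (p.length + 1)) (t 0 (p.length + 2)) else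
          t 0 (p.length + 1)) =
        ZZ_val u v s x y (t 0 p.length) (t 0 (p.length + 1)) (t 0 (p.length + 2))
      rw [if_pos rfl]
    · have e1 : ZZ_up u v s x y p.length t p.length = t 0 p.length := if_neg (by omega)
      have e2 : ZZ_up u v s x y p.length t (p.length + 2) = t 0 (p.length + 2) := if_neg (by omega)
      have e3 : ZZ_up u v s x y p.length t (p.length + 1) =
        ZZ_val u v s x y (t 0 p.length) (t 0 (p.length + 1)) (t 0 (p.length + 2)) := if_pos rfl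
      change t 0 (p.length + 1) = ZZ_val u v (!s) y x (ZZ_up u v s x y p.length t p.length)
        (ZZ_up u v s x y p.length t (p.length + 1)) (ZZ_up u v s x y p.length t (p.length + 2))
      rw [e1, e2, e3, ZZ_val_val u v huv]
  · intro t ht
    obtain ⟨h2, h3⟩ := key t ht
    obtain ⟨-, -, h1⟩ := (ZZ_mem2 u v _ _ t).1 ht
    funext j
    rcases Nat.lt_or_ge 2 j with h | h
    · rw [ZZ_seq_zero _ _ _ _ h, h1 j h]
    · interval_cases j
      · rfl
      · exact h3.symm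
      · exact h2.symm
  · intro t ht
    have h1 := (ZZ_mem0 u v t).1 ht
    funext j
    rcases Nat.lt_or_ge 2 j with h | h
    · rw [ZZ_seq_zero _ _ _ _ h, h1 j (by omega)]
    · interval_cases j
      · rfl
      · exact (h1 1 (by norm_num)).symm
      · exact (h1 2 (by norm_num)).symm
  · intro t ht
    exact ⟨rfl, (key t ht).1.symm⟩

end Pool.Agent.Lib.MP_177a0e_gt.LT
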