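import Pool.Agent.Lib.MP_177a0e_gt.LT.Cx
import Pool.Agent.Lib.MP_177a0e_gt.LT.ZI
import Pool.Agent.Lib.MP_177a0e_gt.LT.ZZ
import Pool.Agent.Lib.MP_177a0e_gt.LT.ZR3
import Pool.Agent.Lib.MP_177a0e_gt.LT.ZS

/-!
# the nullity is invariant under isotopies.
-/

namespace Pool.Agent.Lib.MP_177a0e_gt.LT

open Pool.Agent.Lib.MP_177a0e_gt.Tangle Pool.Agent.Lib.MP_177a0e_gt.Tangle.Gen
open Pool.Agent.Lib.MP_177a0e_gt.Sig

theorem zn_rel (c : ℚ) [Adm c] {a b : Word} (h : Rel a b) (u v : Word) : zn c (u ++ a ++ v) = zn c (u ++ b ++ v) := by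
  cases h with
  | interchange g g' p q r => exact fz_iso (z_inter _ _ g g' p q r) u v
  | zigzag₁ x p q => exact fz_iso (z_zig1 _ _ x p q) u v
  | zigzag₂ x p q => exact fz_iso (z_zig2 _ _ x p q) u v
  | r1_cup s x p q => exact fz_iso (z_r1cup _ _ s x p q) u v
  | r1_cap s x p q => exact fz_iso (z_r1cap _ _ s x p q) u v
  | r2 s x y p q => exact fz_iso (z_r2 _ _ (uv c) s x y p q) u v
  | r3 s x y z p q => exact fz_iso (z_r3 _ _ (uv c) s x y z p q) u v
  | slide_cup s e x p q => exact fz_iso (z_slide_cup _ _ (uv c) s e x p q) u v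
  | slide_cap s e x p q => exact fz_iso (z_slide_cap _ _ (uv c) s e x p q) u v

theorem zn_birth (c : ℚ) [Adm c] {a b : Word} (h : BirthRel a b) (u v : Word) :
    zn c (u ++ b ++ v) = zn c (u ++ a ++ v) + 1 := by
  cases h with
  | mk x p q => exact fz_add (z_birth _ _ x p q) u v

theorem zn_nil (c : ℚ) [Adm c] : zn c [] = 0 := by
  have h : Zc (uE c) (vE c) [] = ⊥ := by
    rw [eq_bot_iff]
    rintro x ⟨⟨-, -, h2⟩, h3⟩
    rw [Submodule.mem_bot]
    funext j
    rcases Nat.eq_zero_or_pos j with h0 | h0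
    · rw [h0]
      exact h3
    · exact h2 j h0
  unfold zn
  rw [h]
  exact finrank_bot _ _

end Pool.Agent.Lib.MP_177a0e_gt.LT
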