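import Pool.Agent.Lib.MP_177a0e_gt.LT.ZKnA
import Pool.Agent.Lib.MP_177a0e_gt.Sig.DInv

/-!
# knots have nullity zero.

MODEL: `Sig/Kn.lean`.
PROOF of `zn_of_mod2`. Suppose `x ≠ 0` is in `Zc (uE c) (vE c) w`; all its values with `i ≥ N` (`z_fin`) or `j > |w|` are zero.
A common multiple `m` of the denominators of the real and imaginary parts of the finitely many other values: `m x = zz c X Y` with
integers; dividing by the greatest common divisor of all of them gives `zz c a b` with one of the numbers `a j i`, `b j i` odd.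
By `z_mod2a` all `a j i + b j i` are even; by `z_mod2b` all `a j i` are even, so all `b j i` are even, a contradiction.
-/

namespace Pool.Agent.Lib.MP_177a0e_gt.LT

open Pool.Agent.Lib.MP_177a0e_gt.Tangle Pool.Agent.Lib.MP_177a0e_gt.Tangle.Gen
open Pool.Agent.Lib.MP_177a0e_gt.Sig

private theorem ZKn_clear (c : ℚ) [Adm c] (w : Word) (x : ℕ → ℕ → QE c) (hx : x ∈ Zc (uE c) (vE c) w)
    (hx0 : x ≠ 0) : ∃ a b : ℕ → ℕ → ℤ, zz c a b ∈ Zc (uE c) (vE c) w ∧
      ∃ j i, ¬ ((2 : ℤ) ∣ a j i ∧ (2 : ℤ) ∣ b j i) := by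
  obtain ⟨N, hN⟩ := z_fin c w
  have hN := hN x hx
  have hlen : ∀ j i, w.length < j → x j i = 0 := fun j i hj => by
    rw [hx.1.2.2 j hj]
    rfl
  set S : Finset (ℕ × ℕ) := Finset.range (w.length + 1) ×ˢ Finset.range N with hS
  have hout : ∀ j i, (j, i) ∉ S → x j i = 0 := by
    intro j i h
    rw [hS, Finset.mem_product, Finset.mem_range, Finset.mem_range, not_and_or] at h
    rcases h with h | h
    · exact hlen j i (by simp only at h; omega)
    · exact hN j i (by simp only at h; omega)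
  obtain ⟨m, hm, hint⟩ : ∃ m : ℕ, m ≠ 0 ∧ ∀ j i, ∃ z : ℤ × ℤ, (z.1 : ℚ) = (m : ℚ) * (x j i).re ∧
      (z.2 : ℚ) = (m : ℚ) * (x j i).im := by
    refine ⟨∏ p ∈ S, ((x p.1 p.2).re.den * (x p.1 p.2).im.den),
      Finset.prod_ne_zero_iff.2 fun p _ => mul_ne_zero (Rat.den_ne_zero _) (Rat.den_ne_zero _), ?_⟩
    intro j i
    by_cases h : (j, i) ∈ S
    · obtain ⟨k, hk⟩ := Finset.dvd_prod_of_mem
        (fun p : ℕ × ℕ => (x p.1 p.2).re.den * (x p.1 p.2).im.den) h
      refine ⟨((k : ℤ) * (x j i).im.den * (x j i).re.num, (k : ℤ) * (x j i).re.den * (x j i).im.num), ?_, ?_⟩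
      · rw [hk]
        push_cast
        have h1 : (x j i).re * ((x j i).re.den : ℚ) = ((x j i).re.num : ℚ) := Rat.mul_den_eq_num _
        linear_combination (-(k : ℚ) * ((x j i).im.den : ℚ)) * h1
      · rw [hk]
        push_cast
        have h1 : (x j i).im * ((x j i).im.den : ℚ) = ((x j i).im.num : ℚ) := Rat.mul_den_eq_num _
        linear_combination (-(k : ℚ) * ((x j i).re.den : ℚ)) * h1
    · exact ⟨(0, 0), by rw [hout j i h]; simp, by rw [hout j i h]; simp⟩
  choose X hX using hint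
  have hmQ : (m : ℚ) ≠ 0 := Nat.cast_ne_zero.2 hm
  obtain ⟨j0, i0, hji⟩ : ∃ j i, x j i ≠ 0 := by
    by_contra hall
    push Not at hall
    exact hx0 (funext fun j => funext fun i => hall j i)
  have hmem : (j0, i0) ∈ S := by
    by_contra h
    exact hji (hout j0 i0 h)
  set T : Finset ((ℕ × ℕ) × Bool) := S ×ˢ Finset.univ with hT
  have hTm : ∀ j i d, (j, i) ∈ S → ((j, i), d) ∈ T := fun j i d h => by
    rw [hT, Finset.mem_product]
    exact ⟨h, Finset.mem_univ _⟩
  set F : (ℕ × ℕ) × Bool → ℤ := fun p => if p.2 then (X p.1.1 p.1.2).1 else (X p.1.1 p.1.2).2 with hF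
  obtain ⟨g, hg, hg1⟩ := Finset.extract_gcd F ⟨((j0, i0), true), hTm j0 i0 true hmem⟩
  set G : ℤ := T.gcd F with hG
  have e1 : ∀ j i, (j, i) ∈ S → (X j i).1 = G * g ((j, i), true) := fun j i h => by
    have := hg ((j, i), true) (hTm j i true h)
    rwa [hF] at this
  have e2 : ∀ j i, (j, i) ∈ S → (X j i).2 = G * g ((j, i), false) := fun j i h => by
    have := hg ((j, i), false) (hTm j i false h)
    rwa [hF] at this
  have hG0 : G ≠ 0 := by
    intro h0
    apply hji
    have h1 := (hX j0 i0).1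
    have h2 := (hX j0 i0).2
    rw [e1 j0 i0 hmem, h0, zero_mul, Int.cast_zero] at h1
    rw [e2 j0 i0 hmem, h0, zero_mul, Int.cast_zero] at h2
    ext
    · exact (mul_eq_zero.1 h1.symm).resolve_left hmQ
    · exact (mul_eq_zero.1 h2.symm).resolve_left hmQ
  have hGQ : (G : ℚ) ≠ 0 := Int.cast_ne_zero.2 hG0
  refine ⟨fun j i => if (j, i) ∈ S then g ((j, i), true) else 0,
    fun j i => if (j, i) ∈ S then g ((j, i), false) else 0, ?_, ?_⟩
  · have h1 : zz c (fun j i => if (j, i) ∈ S then g ((j, i), true) else 0)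
        (fun j i => if (j, i) ∈ S then g ((j, i), false) else 0) =
        (⟨(G : ℚ)⁻¹ * (m : ℚ), 0⟩ : QE c) • x := by
      funext j i
      rw [Pi.smul_apply, Pi.smul_apply, smul_eq_mul]
      by_cases h : (j, i) ∈ S
      · have h3 := (hX j i).1
        have h4 := (hX j i).2
        rw [e1 j i h] at h3
        rw [e2 j i h] at h4
        push_cast at h3 h4
        ext
        · simp only [zz, if_pos h, QuadraticAlgebra.re_mul]
          rw [mul_assoc, ← h3, ← mul_assoc, inv_mul_cancel₀ hGQ]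
          ring
        · simp only [zz, if_pos h, QuadraticAlgebra.im_mul]
          rw [mul_assoc, ← h4, ← mul_assoc, inv_mul_cancel₀ hGQ]
          ring
      · rw [hout j i h, mul_zero]
        ext
        · simp [zz, if_neg h]
        · simp [zz, if_neg h]
    rw [h1]
    exact (Zc (uE c) (vE c) w).smul_mem _ hx
  · by_contra hall
    push Not at hall
    have h2 : (2 : ℤ) ∣ T.gcd g := by
      apply Finset.dvd_gcd
      rintro ⟨p, d⟩ hp
      rw [hT, Finset.mem_product] at hp
      have h3 := hall p.1 p.2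
      rw [if_pos hp.1, if_pos hp.1] at h3
      cases d
      · exact h3.2
      · exact h3.1
    rw [hg1] at h2
    norm_num at h2

theorem zn_of_mod2 (c : ℚ) [Adm c] {w : Word} (h : Module.finrank (ZMod 2) (Dehn (ZMod 2) w) = 0) : zn c w = 0 := by
  have hbot : Dehn (ZMod 2) w = ⊥ := Submodule.finrank_eq_zero.1 h
  have hQ : Zc (uE c) (vE c) w = ⊥ := by
    rw [Submodule.eq_bot_iff]
    intro x hx
    by_contra hx0
    obtain ⟨a, b, hab, j, i, hji⟩ := ZKn_clear c w x hx hx0
    have h1 := z_mod2a c w a b hab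
    rw [hbot, Submodule.mem_bot] at h1
    have h1' : ∀ j i, ((a j i + b j i : ℤ) : ZMod 2) = 0 := fun j i => congrFun (congrFun h1 j) i
    have h2 := z_mod2b c w a b hab h1'
    rw [hbot, Submodule.mem_bot] at h2
    have h2' : (a j i : ZMod 2) = 0 := congrFun (congrFun h2 j) i
    have k1 := (ZMod.intCast_zmod_eq_zero_iff_dvd _ 2).1 (h1' j i)
    have k2 := (ZMod.intCast_zmod_eq_zero_iff_dvd _ 2).1 h2'
    push_cast at k1 k2
    exact hji ⟨k2, (dvd_add_right k2).1 k1⟩
  unfold zn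
  rw [hQ, finrank_bot]

theorem zn_knot (c : ℚ) [Adm c] {w : Word} (h : IsKnot w) : zn c w = 0 :=
  zn_of_mod2 c (fr_knot h)

end Pool.Agent.Lib.MP_177a0e_gt.LT
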