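import Pool.Agent.Lib.MP_177a0e_gt.LT.KInv
import Pool.Agent.Lib.MP_177a0e_gt.LT.ZInv
import Pool.Agent.Lib.MP_177a0e_gt.LT.Sd
import Pool.Agent.Lib.MP_177a0e_gt.LT.ZKn
import Pool.Agent.Lib.MP_177a0e_gt.OneMin

/-!
# the signature bounds for movies and for the slice genus.
-/

namespace Pool.Agent.Lib.MP_177a0e_gt.LT

open Pool.Agent.Lib.MP_177a0e_gt.Tangle Pool.Agent.Lib.MP_177a0e_gt.Tangle.Gen
open Pool.Agent.Lib.MP_177a0e_gt.Sig

theorem adm_two (c : ℚ) [h : Adm c] : 2 * c + 1 ≠ 0 := by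
  have h1 := h.nonneg
  positivity

private theorem Bd_rel (c : ℚ) [Adm c] {w w' : Word} (h : Local Rel [true] [true] w w') :
    ksig c w = ksig c w' ∧ (zn c w : ℤ) = zn c w' := by
  refine ⟨ksig_local c (adm_two c) h, ?_⟩
  cases h with
  | mk u a b v h h1 h2 => rw [zn_rel c h u v]

private theorem Bd_birth (c : ℚ) [Adm c] {w w' : Word} (h : Local BirthRel [true] [true] w w') :
    ksig c w = ksig c w' ∧ (zn c w' : ℤ) = zn c w + 1 := by
  cases h with
  | mk u a b v h h1 h2 =>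
    refine ⟨ksig_birth c h u v, ?_⟩
    rw [zn_birth c h u v]
    push_cast
    rfl

private theorem Bd_saddle (c : ℚ) [Adm c] {w w' : Word} (h : Local SaddleRel [true] [true] w w') :
    |ksig c w' - ksig c w| + 2 * |(zn c w' : ℤ) - zn c w| ≤ 2 := by
  cases h with
  | mk u a b v h h1 h2 =>
    cases h with
    | mk x p q =>
      rw [List.append_nil] at h1 ⊢
      exact ksaddle_bd c u v x p q h1 h2

private theorem Bd_ar (a b c n m k t s : ℤ) (h1 : |b - a| + 2 * |m - n - t| ≤ 2 * s)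
    (h2 : |c - b| + 2 * |k - m| ≤ 2) : |c - a| + 2 * |k - n - t| ≤ 2 * (s + 1) := by
  have h3 := abs_sub_le c b a
  have h4 := abs_sub_le k m (n + t)
  rw [← sub_sub, ← sub_sub] at h4
  linarith

theorem kcob_bd (c : ℚ) [Adm c] {b s d : ℕ} {w w' : Word} (h : Cob [true] [true] b s d w w') :
    |ksig c w' - ksig c w| + 2 * |(zn c w' : ℤ) - zn c w - ((b : ℤ) - d)| ≤ 2 * s := by
  induction h with
  | refl h => simp
  | @iso b s d w w₁ w₂ h h' ih =>
    have h1 : ksig c w₂ = ksig c w₁ ∧ (zn c w₂ : ℤ) = zn c w₁ := by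
      rcases h' with h' | h'
      · exact ⟨(Bd_rel c h').1.symm, (Bd_rel c h').2.symm⟩
      · exact Bd_rel c h'
    rw [h1.1, h1.2]
    exact ih
  | @saddle b s d w w₁ w₂ h h' ih =>
    have h1 : |ksig c w₂ - ksig c w₁| + 2 * |(zn c w₂ : ℤ) - zn c w₁| ≤ 2 := by
      rcases h' with h' | h'
      · exact Bd_saddle c h'
      · have := Bd_saddle c h'
        rw [abs_sub_comm (ksig c w₂), abs_sub_comm (zn c w₂ : ℤ)]
        exact this
    push_cast
    exact Bd_ar _ _ _ _ _ _ _ _ ih h1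
  | @birth b s d w w₁ w₂ h h' ih =>
    obtain ⟨h1, h2⟩ := Bd_birth c h'
    rw [← h1, h2]
    push_cast
    have e : (zn c w₁ : ℤ) + 1 - zn c w - ((b : ℤ) + 1 - d) = (zn c w₁ : ℤ) - zn c w - ((b : ℤ) - d) := by
      ring
    rw [e]
    exact ih
  | @death b s d w w₁ w₂ h h' ih =>
    obtain ⟨h1, h2⟩ := Bd_birth c h'
    rw [h1]
    push_cast
    have e : (zn c w₂ : ℤ) - zn c w - ((b : ℤ) - (d + 1)) = (zn c w₁ : ℤ) - zn c w - ((b : ℤ) - d) := by
      rw [h2]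
      ring
    rw [e]
    exact ih

theorem kribbon_bd (c : ℚ) [Adm c] {K : Word} (hK : IsKnot K) {g : ℕ} (h : BoundsRibbon K g) : |ksig c K| ≤ 4 * g := by
  obtain ⟨d, hd⟩ := h
  have h1 := kcob_bd c hd
  rw [ksig_nil, zn_nil, zn_knot c hK, zero_sub, abs_neg] at h1
  have h2 : ((0 : ℕ) : ℤ) - ((0 : ℕ) : ℤ) - (((0 : ℕ) : ℤ) - (d : ℤ)) = d := by
    push_cast
    ring
  rw [h2, abs_of_nonneg (Int.natCast_nonneg d)] at h1
  push_cast at h1
  linarith

theorem kconc (c : ℚ) [Adm c] {K K' : Word} (hK : IsKnot K) (hK' : IsKnot K') {m : ℕ} (h : Cob [true] [true] m m 0 K K') :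
    ksig c K' = ksig c K := by
  have h1 := kcob_bd c h
  rw [zn_knot c hK, zn_knot c hK'] at h1
  have h2 : ((0 : ℕ) : ℤ) - ((0 : ℕ) : ℤ) - ((m : ℤ) - ((0 : ℕ) : ℤ)) = -m := by
    push_cast
    ring
  rw [h2, abs_neg, abs_of_nonneg (Int.natCast_nonneg m)] at h1
  have h3 : |ksig c K' - ksig c K| ≤ 0 := by linarith
  exact sub_eq_zero.mp (abs_nonpos_iff.mp h3)

theorem kslice_bd (c : ℚ) [Adm c] (K : Knot) : |ksig c K.1| ≤ 4 * sliceGenus K.1 := by
  obtain ⟨m, K', hK', h1, h2⟩ := exists_sliceGenus K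
  rw [← kconc c K.2 hK' h1]
  exact kribbon_bd c hK' h2

/-- a movie without births between knots -/
theorem kmovie_bd (c : ℚ) [Adm c] {K L : Word} (hK : IsKnot K) (hL : IsKnot L) {g d : ℕ}
    (h : Cob [true] [true] 0 (d + 2 * g) d K L) : |ksig c K - ksig c L| ≤ 4 * g := by
  have h1 := kcob_bd c h
  rw [zn_knot c hK, zn_knot c hL] at h1
  have h2 : ((0 : ℕ) : ℤ) - ((0 : ℕ) : ℤ) - (((0 : ℕ) : ℤ) - (d : ℤ)) = d := by
    push_cast
    ring
  rw [h2, abs_of_nonneg (Int.natCast_nonneg d), abs_sub_comm] at h1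
  push_cast at h1
  linarith

end Pool.Agent.Lib.MP_177a0e_gt.LT
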