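import Pool.Agent.Lib.MP_177a0e_gt.LT.TorD

/-!
# a sum of cosines.

`x = π r / n`. PROOF. If `n ∣ r` then `r / n` is odd (both are odd) and every term is `cos (π (r / n) (2 k + 1)) = -1` (an odd multiple of `π`; `Real.cos_int_mul_pi`, `Real.cos_nat_mul_pi`). If `n` does not divide `r` then `sin x ≠ 0` (`Real.sin_eq_zero_iff`), and `2 sin x ∑_{k < K} cos ((2 k + 1) x) = sin (2 K x)` (induction on `K`:
`2 sin x cos ((2 k + 1) x) = sin ((2 k + 2) x) - sin (2 k x)`), with `2 K = n - 1`: `sin ((n - 1) x) = sin (π r - x) = - cos (π r) sin x = sin x` (`r` odd).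
-/

namespace Pool.Agent.Lib.MP_177a0e_gt.LT

open Pool.Agent.Lib.MP_177a0e_gt.Tangle Pool.Agent.Lib.MP_177a0e_gt.Tangle.Gen
open Pool.Agent.Lib.MP_177a0e_gt.Sig

private theorem BA_tel (x : ℝ) (K : ℕ) :
    2 * Real.sin x * ∑ k ∈ Finset.range K, Real.cos ((2 * k + 1) * x) = Real.sin (2 * K * x) := by
  induction K with
  | zero => simp
  | succ K ih =>
    rw [Finset.sum_range_succ, mul_add, ih]
    have h1 : 2 * ((K + 1 : ℕ) : ℝ) * x = (2 * K + 1) * x + x := by push_cast; ring
    have h2 : 2 * (K : ℝ) * x = (2 * K + 1) * x - x := by ring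
    rw [h1, h2, Real.sin_add, Real.sin_sub]
    ring

private theorem BA_cos_odd (m : ℕ) (hm : m % 2 = 1) : Real.cos (Real.pi * m) = -1 := by
  rw [mul_comm, Real.cos_nat_mul_pi]
  exact Odd.neg_one_pow (Nat.odd_iff.mpr hm)

theorem sum_cos (n r : ℕ) (hn : n % 2 = 1) (hr : r % 2 = 1) :
    ∑ k ∈ Finset.range ((n - 1) / 2), Real.cos (Real.pi * r * (2 * k + 1) / n) =
      if n ∣ r then -(((n : ℝ) - 1) / 2) else 1 / 2 := by
  have hn0 : (n : ℝ) ≠ 0 := by
    have : n ≠ 0 := by omega
    exact_mod_cast this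
  have hN : (((n - 1) / 2 : ℕ) : ℝ) = ((n : ℝ) - 1) / 2 := by
    obtain ⟨N, hN⟩ : ∃ N, n = 2 * N + 1 := ⟨n / 2, by omega⟩
    have h1 : (n - 1) / 2 = N := by omega
    rw [h1, hN]
    push_cast
    ring
  split_ifs with h
  · obtain ⟨m, rfl⟩ := h
    have hm : m % 2 = 1 := by
      rcases Nat.mod_two_eq_zero_or_one m with h0 | h0
      · rw [Nat.mul_mod, h0, mul_zero, Nat.zero_mod] at hr
        omega
      · exact h0
    have h1 : ∀ k ∈ Finset.range ((n - 1) / 2),
        Real.cos (Real.pi * ((n * m : ℕ) : ℝ) * (2 * k + 1) / n) = -1 := by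
      intro k _
      have h2 : Real.pi * ((n * m : ℕ) : ℝ) * (2 * k + 1) / n = Real.pi * ((m * (2 * k + 1) : ℕ) : ℝ) := by
        push_cast
        field_simp
      rw [h2]
      refine BA_cos_odd _ ?_
      rw [Nat.mul_mod, hm]
      omega
    rw [Finset.sum_congr rfl h1, Finset.sum_const, Finset.card_range, nsmul_eq_mul, hN]
    ring
  · set x : ℝ := Real.pi * r / n with hx
    have h1 : ∀ k ∈ Finset.range ((n - 1) / 2),
        Real.cos (Real.pi * r * (2 * k + 1) / n) = Real.cos ((2 * k + 1) * x) := by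
      intro k _
      congr 1
      rw [hx]
      ring
    have hs : Real.sin x ≠ 0 := by
      intro h0
      rw [Real.sin_eq_zero_iff] at h0
      obtain ⟨z, hz⟩ := h0
      rw [hx] at hz
      have h2 : (z : ℝ) * n = r := by
        have h3 : Real.pi * ((z : ℝ) * n) = Real.pi * r := by
          have h4 : (z : ℝ) * Real.pi * n = Real.pi * r := by
            rw [hz]
            field_simp
          linarith
        exact mul_left_cancel₀ Real.pi_ne_zero h3
      have h3 : z * (n : ℤ) = (r : ℤ) := by exact_mod_cast h2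
      have h4 : (n : ℤ) ∣ (r : ℤ) := ⟨z, by rw [← h3]; ring⟩
      exact h (by exact_mod_cast h4)
    rw [Finset.sum_congr rfl h1]
    have ht := BA_tel x ((n - 1) / 2)
    have h5 : 2 * (((n - 1) / 2 : ℕ) : ℝ) * x = Real.pi * r - x := by
      rw [hN, hx]
      field_simp
    rw [h5, Real.sin_sub, BA_cos_odd r hr] at ht
    have h6 : Real.sin (Real.pi * r) = 0 := by
      rw [mul_comm]
      exact Real.sin_nat_mul_pi r
    rw [h6] at ht
    have h7 : Real.sin x * (2 * ∑ k ∈ Finset.range ((n - 1) / 2), Real.cos ((2 * k + 1) * x)) =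
        Real.sin x * 1 := by linarith
    have h8 := mul_left_cancel₀ hs h7
    linarith

end Pool.Agent.Lib.MP_177a0e_gt.LT
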