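import Pool.Agent.Lib.MP_177a0e_gt.LT.BA

/-!
# the sine coefficients of the function `⌊n θ + 1 / 2⌋`.

* `fl_sum`: for `0 ≤ θ < 1 / 2`: `k` is counted iff `k + 1 ≤ n θ + 1 / 2`; the number of such `k ≥ 0` is `⌊n θ + 1 / 2⌋ < (n + 1) / 2`, so it is at most `(n - 1) / 2`.
* `fl_meas`: `Int.measurable_floor` / `measurable_floor`, `Measurable.floor`.
* `int_fl`: by `fl_sum` (the two sides agree on `[0, 1 / 2)`, that is, almost everywhere on the interval: `intervalIntegral.integral_congr_ae` or `integral_congr` on `Set.uIoo`) the integral is `∑_k ∫_{t_k}^{1/2} sin (2 π r θ)`, `t_k = (2 k + 1) / (2 n)` (split the interval at `t_k`: the integrand is `0` on `[0, t_k)`; `intervalIntegral.integral_add_adjacent_intervals`, or `intervalIntegral.integral_indicator`),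
  `= ∑_k (cos (2 π r t_k) - cos (π r)) / (2 π r) = ∑_k (cos (π r (2 k + 1) / n) + 1) / (2 π r)`, and `sum_cos`: `(n - 1) / 2 + 1 / 2 = n / 2` if `n` does not divide `r`, and `0` otherwise.
-/

namespace Pool.Agent.Lib.MP_177a0e_gt.LT

open Pool.Agent.Lib.MP_177a0e_gt.Tangle Pool.Agent.Lib.MP_177a0e_gt.Tangle.Gen
open Pool.Agent.Lib.MP_177a0e_gt.Sig

private theorem bb_cond (n k : ℕ) (hn : n % 2 = 1) (θ : ℝ) :
    ((2 * k + 1 : ℕ) : ℝ) / (2 * n) ≤ θ ↔ ((k : ℤ) + 1) ≤ fl n θ := by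
  have hn0 : (0 : ℝ) < 2 * n := by
    have : 0 < n := by omega
    positivity
  rw [fl, Int.le_floor, div_le_iff₀ hn0]
  push_cast
  constructor
  · intro h
    linarith
  · intro h
    linarith

theorem fl_sum (n : ℕ) (hn : n % 2 = 1) (θ : ℝ) (h0 : 0 ≤ θ) (h1 : θ < 1 / 2) :
    (fl n θ : ℝ) = ∑ k ∈ Finset.range ((n - 1) / 2), if ((2 * k + 1 : ℕ) : ℝ) / (2 * n) ≤ θ then (1 : ℝ) else 0 := by
  have hn0 : (0 : ℝ) < n := by
    have : 0 < n := by omega
    positivity
  have hN0 : 0 ≤ fl n θ := by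
    rw [fl]
    apply Int.floor_nonneg.2
    positivity
  have hN1 : (fl n θ).toNat ≤ (n - 1) / 2 := by
    have h2 : ((fl n θ : ℤ) : ℝ) ≤ (n : ℝ) * θ + 1 / 2 := by
      rw [fl]
      exact Int.floor_le _
    have h3 : ((fl n θ : ℤ) : ℝ) < (((n - 1) / 2 : ℕ) : ℝ) + 1 := by
      have h4 : (n : ℝ) = 2 * (((n - 1) / 2 : ℕ) : ℝ) + 1 := by
        have : n = 2 * ((n - 1) / 2) + 1 := by omega
        exact_mod_cast this
      have h5 : (n : ℝ) * θ < (n : ℝ) * (1 / 2) := by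
        exact mul_lt_mul_of_pos_left h1 hn0
      linarith
    obtain ⟨M, hM⟩ : ∃ M, (n - 1) / 2 = M := ⟨_, rfl⟩
    rw [hM] at h3 ⊢
    have h6 : fl n θ < (M : ℤ) + 1 := by exact_mod_cast h3
    omega
  rw [Finset.sum_congr rfl fun k _ => if_congr (bb_cond n k hn θ) rfl rfl]
  rw [← Finset.sum_filter, Finset.sum_const, nsmul_eq_mul, mul_one]
  have h7 : (Finset.range ((n - 1) / 2)).filter (fun k : ℕ => ((k : ℤ) + 1) ≤ fl n θ) =
      Finset.range (fl n θ).toNat := by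
    ext k
    rw [Finset.mem_filter, Finset.mem_range, Finset.mem_range]
    omega
  rw [h7, Finset.card_range]
  have h8 : (((fl n θ).toNat : ℕ) : ℤ) = fl n θ := Int.toNat_of_nonneg hN0
  exact_mod_cast h8.symm

theorem fl_meas (n : ℕ) : Measurable fun θ : ℝ => (fl n θ : ℝ) := by
  have h1 : Measurable fun θ : ℝ => fl n θ := by
    unfold fl
    exact Int.measurable_floor.comp ((measurable_id.const_mul _).add_const _)
  exact (measurable_of_countable (fun k : ℤ => (k : ℝ))).comp h1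

private theorem bb_sin (r : ℕ) (hr : r % 2 = 1) (t : ℝ) :
    ∫ θ in t..(1 / 2), Real.sin (2 * Real.pi * r * θ) =
      (Real.cos (2 * Real.pi * r * t) + 1) / (2 * Real.pi * r) := by
  have hr0 : (2 * Real.pi * r : ℝ) ≠ 0 := by
    have : 0 < r := by omega
    positivity
  rw [intervalIntegral.integral_comp_mul_left (fun x => Real.sin x) hr0, integral_sin, smul_eq_mul]
  have h1 : Real.cos (2 * Real.pi * r * (1 / 2)) = -1 := by
    have h2 : (2 * Real.pi * r * (1 / 2) : ℝ) = r * Real.pi := by ring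
    rw [h2, Real.cos_nat_mul_pi]
    exact Odd.neg_one_pow (Nat.odd_iff.2 hr)
  rw [h1]
  field_simp
  ring

private theorem bb_ind (t : ℝ) (ht : 0 < t) (ht1 : t ≤ 1 / 2) (g : ℝ → ℝ) :
    ∫ θ in (0 : ℝ)..(1 / 2), (if t ≤ θ then (1 : ℝ) else 0) * g θ = ∫ θ in t..(1 / 2), g θ := by
  have h1 : (fun θ => (if t ≤ θ then (1 : ℝ) else 0) * g θ) = (Set.Ici t).indicator g := by
    funext θ
    by_cases h : t ≤ θ
    · rw [if_pos h, Set.indicator_of_mem (Set.mem_Ici.2 h), one_mul]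
    · rw [if_neg h, Set.indicator_of_notMem (fun h2 => h (Set.mem_Ici.1 h2)), zero_mul]
  rw [h1, intervalIntegral.integral_of_le (by norm_num), intervalIntegral.integral_of_le ht1,
    MeasureTheory.setIntegral_indicator measurableSet_Ici]
  have h2 : Set.Ioc (0 : ℝ) (1 / 2) ∩ Set.Ici t = Set.Icc t (1 / 2) := by
    ext x
    simp only [Set.mem_inter_iff, Set.mem_Ioc, Set.mem_Ici, Set.mem_Icc]
    constructor
    · rintro ⟨⟨_, h4⟩, h5⟩
      exact ⟨h5, h4⟩
    · rintro ⟨h3, h4⟩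
      exact ⟨⟨lt_of_lt_of_le ht h3, h4⟩, h3⟩
  rw [h2, MeasureTheory.integral_Icc_eq_integral_Ioc]

private theorem bb_int (t : ℝ) (g : ℝ → ℝ) (hg : Continuous g) :
    IntervalIntegrable (fun θ => (if t ≤ θ then (1 : ℝ) else 0) * g θ) MeasureTheory.volume 0 (1 / 2) := by
  have h1 : (fun θ => (if t ≤ θ then (1 : ℝ) else 0) * g θ) = (Set.Ici t).indicator g := by
    funext θ
    by_cases h : t ≤ θ
    · rw [if_pos h, Set.indicator_of_mem (Set.mem_Ici.2 h), one_mul]
    · rw [if_neg h, Set.indicator_of_notMem (fun h2 => h (Set.mem_Ici.1 h2)), zero_mul]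
  rw [h1, intervalIntegrable_iff_integrableOn_Ioc_of_le (by norm_num)]
  have h2 := (hg.intervalIntegrable (μ := MeasureTheory.volume) 0 (1 / 2))
  rw [intervalIntegrable_iff_integrableOn_Ioc_of_le (by norm_num)] at h2
  exact MeasureTheory.Integrable.indicator h2 measurableSet_Ici

theorem int_fl (n r : ℕ) (hn : n % 2 = 1) (hr : r % 2 = 1) :
    ∫ θ in (0 : ℝ)..(1 / 2), (fl n θ : ℝ) * Real.sin (2 * Real.pi * r * θ) =
      if n ∣ r then 0 else (n : ℝ) / (4 * Real.pi * r) := by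
  have hn0 : (0 : ℝ) < n := by
    have : 0 < n := by omega
    positivity
  have hr0 : (0 : ℝ) < r := by
    have : 0 < r := by omega
    positivity
  have hg : Continuous fun θ : ℝ => Real.sin (2 * Real.pi * r * θ) := by fun_prop
  have h1 : ∫ θ in (0 : ℝ)..(1 / 2), (fl n θ : ℝ) * Real.sin (2 * Real.pi * r * θ) =
      ∫ θ in (0 : ℝ)..(1 / 2), ∑ k ∈ Finset.range ((n - 1) / 2),
        (if ((2 * k + 1 : ℕ) : ℝ) / (2 * n) ≤ θ then (1 : ℝ) else 0) *
          Real.sin (2 * Real.pi * r * θ) := by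
    apply intervalIntegral.integral_congr_ae
    have h2 : ∀ᵐ x : ℝ, x ≠ 1 / 2 := by
      rw [MeasureTheory.ae_iff]
      simp
    filter_upwards [h2] with θ hθ hm
    rw [Set.uIoc_of_le (by norm_num), Set.mem_Ioc] at hm
    rw [fl_sum n hn θ hm.1.le (lt_of_le_of_ne hm.2 hθ), Finset.sum_mul]
  rw [h1, intervalIntegral.integral_finset_sum fun k _ => bb_int _ _ hg]
  have h3 : ∀ k ∈ Finset.range ((n - 1) / 2),
      ∫ θ in (0 : ℝ)..(1 / 2), (if ((2 * k + 1 : ℕ) : ℝ) / (2 * n) ≤ θ then (1 : ℝ) else 0) *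
        Real.sin (2 * Real.pi * r * θ) =
      (Real.cos (Real.pi * r * (2 * k + 1) / n) + 1) / (2 * Real.pi * r) := by
    intro k hk
    rw [Finset.mem_range] at hk
    have hk1 : 2 * k + 1 ≤ n := by omega
    rw [bb_ind _ (by positivity) ?_ (fun θ => Real.sin (2 * Real.pi * r * θ)), bb_sin r hr]
    · have h4 : (2 * Real.pi * r * (((2 * k + 1 : ℕ) : ℝ) / (2 * n)) : ℝ) =
          Real.pi * r * (2 * k + 1) / n := by
        push_cast
        field_simp
      rw [h4]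
    · rw [div_le_iff₀ (by positivity)]
      have : ((2 * k + 1 : ℕ) : ℝ) ≤ n := by exact_mod_cast hk1
      linarith
  rw [Finset.sum_congr rfl h3, ← Finset.sum_div, Finset.sum_add_distrib, sum_cos n r hn hr,
    Finset.sum_const, Finset.card_range, nsmul_eq_mul, mul_one]
  have h5 : (n : ℝ) = 2 * (((n - 1) / 2 : ℕ) : ℝ) + 1 := by
    have : n = 2 * ((n - 1) / 2) + 1 := by omega
    exact_mod_cast this
  split_ifs with h6
  · have h7 : (-(((n : ℝ) - 1) / 2) + (((n - 1) / 2 : ℕ) : ℝ) : ℝ) = 0 := by linarith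
    rw [h7, zero_div]
  · have h7 : (1 / 2 + (((n - 1) / 2 : ℕ) : ℝ) : ℝ) = n / 2 := by linarith
    rw [h7]
    field_simp
    ring

end Pool.Agent.Lib.MP_177a0e_gt.LT
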