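import Pool.Agent.Lib.MP_177a0e_gt.LT.TorD

/-!
# the inequality of Bessel.

PROOF. `I_r` = the integral of `F(θ) sin (2 π r θ)` over `[0, 1/2]`. The integral of `sin (2 π r θ) sin (2 π r' θ)` over `[0, 1/2]` is `1 / 4` for `r = r'` and `0` for `r ≠ r'` (`r, r' ≥ 1`): `2 sin a sin b = cos (a - b) - cos (a + b)`, and the integral of `cos (2 π j θ)` over `[0, 1/2]` is `sin (π j) / (2 π j) = 0` for an integer `j ≠ 0`.
`0 ≤ ∫ (F - ∑ 4 I_r sin (2 π r θ)) ^ 2 = ∫ F ^ 2 - 8 ∑ I_r ^ 2 + 4 ∑ I_r ^ 2 = ∫ F ^ 2 - 4 ∑ I_r ^ 2`, and `∫ F ^ 2 ≤ g ^ 2 / 2`: `∑ I_r ^ 2 ≤ g ^ 2 / 8`.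
(`F` is measurable and bounded on the interval, so `F`, `F ^ 2`, `F sin` are interval integrable: `MeasureTheory.Measure.integrableOn_of_bounded`, or `IntervalIntegrable` via `MeasureTheory.IntegrableOn` and a bounded measurable function on a set of finite measure.)
-/

namespace Pool.Agent.Lib.MP_177a0e_gt.LT

open Pool.Agent.Lib.MP_177a0e_gt.Tangle Pool.Agent.Lib.MP_177a0e_gt.Tangle.Gen
open Pool.Agent.Lib.MP_177a0e_gt.Sig

private theorem bcII (H : ℝ → ℝ) (M : ℝ) (hH : Measurable H)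
    (h : ∀ θ, 0 ≤ θ → θ < 1 / 2 → |H θ| ≤ M) :
    IntervalIntegrable H MeasureTheory.volume 0 (1 / 2) := by
  rw [intervalIntegrable_iff_integrableOn_Ioo_of_le (by norm_num)]
  refine MeasureTheory.Measure.integrableOn_of_bounded (M := M) ?_ hH.aestronglyMeasurable ?_
  · simp
  · refine (MeasureTheory.ae_restrict_iff' measurableSet_Ioo).mpr
      (Filter.Eventually.of_forall fun θ hθ => ?_)
    rw [Real.norm_eq_abs]
    exact h θ hθ.1.le hθ.2

private theorem bcCos (j : ℤ) (hj : j ≠ 0) :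
    ∫ θ in (0 : ℝ)..(1 / 2), Real.cos (2 * Real.pi * j * θ) = 0 := by
  have hj' : (2 * Real.pi * (j : ℝ)) ≠ 0 := by
    have h1 : (j : ℝ) ≠ 0 := by exact_mod_cast hj
    have h2 := Real.pi_pos
    positivity
  rw [intervalIntegral.integral_comp_mul_left (fun x => Real.cos x) hj', integral_cos]
  have e : 2 * Real.pi * (j : ℝ) * (1 / 2) = (j : ℝ) * Real.pi := by ring
  rw [e, Real.sin_int_mul_pi]
  simp

private theorem bcSin (r q : ℕ) (hr : 1 ≤ r) (hq : 1 ≤ q) :
    ∫ θ in (0 : ℝ)..(1 / 2), Real.sin (2 * Real.pi * r * θ) * Real.sin (2 * Real.pi * q * θ) =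
      if r = q then 1 / 4 else 0 := by
  have e : ∀ θ : ℝ, Real.sin (2 * Real.pi * r * θ) * Real.sin (2 * Real.pi * q * θ) =
      (1 / 2) * Real.cos (2 * Real.pi * ((r : ℤ) - (q : ℤ) : ℤ) * θ) -
        (1 / 2) * Real.cos (2 * Real.pi * ((r : ℤ) + (q : ℤ) : ℤ) * θ) := by
    intro θ
    have h1 : 2 * Real.pi * (((r : ℤ) - (q : ℤ) : ℤ) : ℝ) * θ =
        2 * Real.pi * r * θ - 2 * Real.pi * q * θ := by
      push_cast
      ring
    have h2 : 2 * Real.pi * (((r : ℤ) + (q : ℤ) : ℤ) : ℝ) * θ =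
        2 * Real.pi * r * θ + 2 * Real.pi * q * θ := by
      push_cast
      ring
    rw [h1, h2, Real.cos_sub, Real.cos_add]
    ring
  have hc : ∀ j : ℤ, IntervalIntegrable (fun θ : ℝ => (1 / 2) * Real.cos (2 * Real.pi * j * θ))
      MeasureTheory.volume 0 (1 / 2) := by
    intro j
    apply Continuous.intervalIntegrable
    fun_prop
  rw [intervalIntegral.integral_congr (g := fun θ =>
    (1 / 2) * Real.cos (2 * Real.pi * ((r : ℤ) - (q : ℤ) : ℤ) * θ) -
        (1 / 2) * Real.cos (2 * Real.pi * ((r : ℤ) + (q : ℤ) : ℤ) * θ)) (fun θ _ => e θ)]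
  rw [intervalIntegral.integral_sub (hc _) (hc _), intervalIntegral.integral_const_mul,
    intervalIntegral.integral_const_mul, bcCos ((r : ℤ) + (q : ℤ)) (by omega)]
  by_cases h : r = q
  · subst h
    simp
    norm_num
  · rw [bcCos ((r : ℤ) - (q : ℤ)) (by omega), if_neg h]
    ring

theorem bessel (F : ℝ → ℝ) (g : ℝ) (hF : Measurable F) (h : ∀ θ, 0 ≤ θ → θ < 1 / 2 → |F θ| ≤ g) (R : Finset ℕ)
    (hR : ∀ r ∈ R, 1 ≤ r) :
    ∑ r ∈ R, (∫ θ in (0 : ℝ)..(1 / 2), F θ * Real.sin (2 * Real.pi * r * θ)) ^ 2 ≤ g ^ 2 / 8 := by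
  set I : ℕ → ℝ := fun r => ∫ θ in (0 : ℝ)..(1 / 2), F θ * Real.sin (2 * Real.pi * r * θ)
    with hI
  have hg : 0 ≤ g := le_trans (abs_nonneg _) (h 0 le_rfl (by norm_num))
  have iF := bcII F g hF h
  have hcs : ∀ r : ℕ, Continuous (fun θ : ℝ => Real.sin (2 * Real.pi * r * θ)) := by
    intro r
    fun_prop
  have iFs : ∀ r : ℕ, IntervalIntegrable (fun θ => F θ * Real.sin (2 * Real.pi * r * θ))
      MeasureTheory.volume 0 (1 / 2) := fun r =>
    iF.mul_continuousOn (hcs r).continuousOn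
  have iF2 : IntervalIntegrable (fun θ => F θ ^ 2) MeasureTheory.volume 0 (1 / 2) := by
    refine bcII (fun θ => F θ ^ 2) (g ^ 2) (hF.pow_const 2) ?_
    intro θ h0 h1
    rw [abs_pow]
    exact pow_le_pow_left₀ (abs_nonneg _) (h θ h0 h1) 2
  have hF2 : ∫ θ in (0 : ℝ)..(1 / 2), F θ ^ 2 ≤ g ^ 2 / 2 := by
    have h1 : ∫ θ in (0 : ℝ)..(1 / 2), F θ ^ 2 ≤ ∫ θ in (0 : ℝ)..(1 / 2), g ^ 2 := by
      refine intervalIntegral.integral_mono_on_of_le_Ioo (by norm_num) iF2
        (Continuous.intervalIntegrable continuous_const _ _) ?_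
      intro θ hθ
      have h2 := h θ hθ.1.le hθ.2
      rw [← sq_abs]
      exact pow_le_pow_left₀ (abs_nonneg _) h2 2
    refine h1.trans (le_of_eq ?_)
    rw [intervalIntegral.integral_const, smul_eq_mul]
    ring
  -- the partial sum
  have iFG : IntervalIntegrable (fun θ => ∑ r ∈ R, (4 * I r) *
      (F θ * Real.sin (2 * Real.pi * r * θ))) MeasureTheory.volume 0 (1 / 2) := by
    have := IntervalIntegrable.sum R (f := fun r θ => (4 * I r) *
      (F θ * Real.sin (2 * Real.pi * r * θ))) (fun r _ => (iFs r).const_mul (4 * I r))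
    have e : (fun θ => ∑ r ∈ R, (4 * I r) * (F θ * Real.sin (2 * Real.pi * r * θ))) =
        ∑ r ∈ R, fun θ => (4 * I r) * (F θ * Real.sin (2 * Real.pi * r * θ)) := by
      funext θ
      rw [Finset.sum_apply]
    rw [e]
    exact this
  have hFG : ∫ θ in (0 : ℝ)..(1 / 2), ∑ r ∈ R, (4 * I r) *
      (F θ * Real.sin (2 * Real.pi * r * θ)) = 4 * ∑ r ∈ R, I r ^ 2 := by
    rw [intervalIntegral.integral_finsetSum (fun r _ => (iFs r).const_mul (4 * I r)),
      Finset.mul_sum]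
    refine Finset.sum_congr rfl fun r _ => ?_
    rw [intervalIntegral.integral_const_mul]
    ring
  have hGG : ∫ θ in (0 : ℝ)..(1 / 2), (∑ r ∈ R, ∑ q ∈ R, (16 * I r * I q) *
      (Real.sin (2 * Real.pi * r * θ) * Real.sin (2 * Real.pi * q * θ))) =
      4 * ∑ r ∈ R, I r ^ 2 := by
    have hcc : ∀ r q : ℕ, IntervalIntegrable (fun θ : ℝ => (16 * I r * I q) *
      (Real.sin (2 * Real.pi * r * θ) * Real.sin (2 * Real.pi * q * θ)))
        MeasureTheory.volume 0 (1 / 2) := by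
      intro r q
      apply Continuous.intervalIntegrable
      fun_prop
    rw [intervalIntegral.integral_finsetSum (fun r _ => by
      apply Continuous.intervalIntegrable
      fun_prop), Finset.mul_sum]
    refine Finset.sum_congr rfl fun r hr => ?_
    rw [intervalIntegral.integral_finsetSum (fun q _ => hcc r q)]
    have h1 : ∀ q ∈ R, ∫ θ in (0 : ℝ)..(1 / 2), (16 * I r * I q) *
        (Real.sin (2 * Real.pi * r * θ) * Real.sin (2 * Real.pi * q * θ)) =
        if r = q then 4 * I r ^ 2 else 0 := by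
      intro q hq
      rw [intervalIntegral.integral_const_mul, bcSin r q (hR r hr) (hR q hq)]
      by_cases e : r = q
      · subst e
        rw [if_pos rfl, if_pos rfl]
        ring
      · rw [if_neg e, if_neg e, mul_zero]
    rw [Finset.sum_congr rfl h1, Finset.sum_ite_eq R r, if_pos hr]
  have iGG : IntervalIntegrable (fun θ : ℝ => ∑ r ∈ R, ∑ q ∈ R, (16 * I r * I q) *
      (Real.sin (2 * Real.pi * r * θ) * Real.sin (2 * Real.pi * q * θ)))
        MeasureTheory.volume 0 (1 / 2) := by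
    apply Continuous.intervalIntegrable
    fun_prop
  have h0 : 0 ≤ ∫ θ in (0 : ℝ)..(1 / 2),
      (F θ - ∑ r ∈ R, (4 * I r) * Real.sin (2 * Real.pi * r * θ)) ^ 2 :=
    intervalIntegral.integral_nonneg (by norm_num) (fun θ _ => sq_nonneg _)
  have hexp : ∀ θ : ℝ, (F θ - ∑ r ∈ R, (4 * I r) * Real.sin (2 * Real.pi * r * θ)) ^ 2 =
      (F θ ^ 2 - 2 * ∑ r ∈ R, (4 * I r) * (F θ * Real.sin (2 * Real.pi * r * θ))) +
        ∑ r ∈ R, ∑ q ∈ R, (16 * I r * I q) *
          (Real.sin (2 * Real.pi * r * θ) * Real.sin (2 * Real.pi * q * θ)) := by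
    intro θ
    have e1 : ∑ r ∈ R, (4 * I r) * (F θ * Real.sin (2 * Real.pi * r * θ)) =
        F θ * ∑ r ∈ R, (4 * I r) * Real.sin (2 * Real.pi * r * θ) := by
      rw [Finset.mul_sum]
      exact Finset.sum_congr rfl fun r _ => by ring
    have e2 : ∑ r ∈ R, ∑ q ∈ R, (16 * I r * I q) *
          (Real.sin (2 * Real.pi * r * θ) * Real.sin (2 * Real.pi * q * θ)) =
        (∑ r ∈ R, (4 * I r) * Real.sin (2 * Real.pi * r * θ)) *
          ∑ r ∈ R, (4 * I r) * Real.sin (2 * Real.pi * r * θ) := by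
      rw [Finset.sum_mul_sum]
      exact Finset.sum_congr rfl fun r _ => Finset.sum_congr rfl fun q _ => by ring
    rw [e1, e2]
    ring
  rw [intervalIntegral.integral_congr (fun θ _ => hexp θ),
    intervalIntegral.integral_add (iF2.sub (iFG.const_mul 2)) iGG,
    intervalIntegral.integral_sub iF2 (iFG.const_mul 2),
    intervalIntegral.integral_const_mul, hFG, hGG] at h0
  have : ∑ r ∈ R, (∫ θ in (0 : ℝ)..(1 / 2), F θ * Real.sin (2 * Real.pi * r * θ)) ^ 2 =
      ∑ r ∈ R, I r ^ 2 := rfl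
  rw [this]
  linarith

end Pool.Agent.Lib.MP_177a0e_gt.LT
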