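import Pool.Agent.Lib.MP_177a0e_gt.LT.TorD

/-!
# Möbius inversion.

`Sm = ∑_{n ∈ A} n m_n`, `Gm d = ∑_{n ∈ A, n ∣ d} n m_n - Sm`. PROOF of `moeb`: let `f 1 = - Sm`, `f n = n m_n` for `n ∈ A`, `f n = 0` otherwise (`1 ∉ A`). Then `∑_{i ∣ d} f i = Gm d` for `d > 0`, so by Möbius inversion (`ArithmeticFunction.sum_eq_iff_sum_mul_moebius_eq` or the `smul` version) `f n = ∑_{k l = n} μ(k) Gm(l)`; divide by `n = k l`:
`m_n = ∑_{k ∣ n} μ(k) (Gm (n / k) / (n / k)) / k`, and `|μ(k)| ≤ 1` (`ArithmeticFunction.abs_moebius_le_one`).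
-/

namespace Pool.Agent.Lib.MP_177a0e_gt.LT

open Pool.Agent.Lib.MP_177a0e_gt.Tangle Pool.Agent.Lib.MP_177a0e_gt.Tangle.Gen
open Pool.Agent.Lib.MP_177a0e_gt.Sig

/-- `∑ n m_n` -/
def Sm (A : Finset ℕ) (m : ℕ → ℤ) : ℤ := ∑ n ∈ A, (n : ℤ) * m n

/-- `∑ n m_n` over the `n` in `A` which divide `d`, minus the sum over all `n` in `A` -/
def Gm (A : Finset ℕ) (m : ℕ → ℤ) (d : ℕ) : ℤ := ∑ n ∈ A.filter (fun n => n ∣ d), (n : ℤ) * m n - Sm A m

lemma bd_inv (A : Finset ℕ) (m : ℕ → ℤ) (hA : ∀ n ∈ A, 2 ≤ n) (n : ℕ) (hn : n ∈ A) :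
    ∑ k ∈ n.divisors, (ArithmeticFunction.moebius k : ℤ) * Gm A m (n / k) = (n : ℤ) * m n := by
  classical
  let f : ℕ → ℤ := fun i => (if i = 1 then -Sm A m else 0) + if i ∈ A then (i : ℤ) * m i else 0
  have h1 : ∀ d > 0, ∑ i ∈ d.divisors, f i = Gm A m d := by
    intro d hd
    have e1 : ∑ i ∈ d.divisors, (if i = 1 then -Sm A m else 0) = -Sm A m := by
      rw [Finset.sum_ite_eq']
      exact if_pos (Nat.one_mem_divisors.2 hd.ne')
    have e2 : ∑ i ∈ d.divisors, (if i ∈ A then (i : ℤ) * m i else 0) =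
        ∑ i ∈ A.filter (fun n => n ∣ d), (i : ℤ) * m i := by
      rw [← Finset.sum_filter]
      refine Finset.sum_congr ?_ fun _ _ => rfl
      ext i
      rw [Finset.mem_filter, Finset.mem_filter, Nat.mem_divisors]
      exact ⟨fun h => ⟨h.2, h.1.1⟩, fun h => ⟨⟨h.2, hd.ne'⟩, h.1⟩⟩
    simp only [f]
    rw [Finset.sum_add_distrib, e1, e2]
    unfold Gm
    ring
  have hn2 : 2 ≤ n := hA n hn
  have h2 := (ArithmeticFunction.sum_eq_iff_sum_mul_moebius_eq.1 h1) n (by omega)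
  simp only [Int.cast_id] at h2
  rw [Nat.sum_divisorsAntidiagonal
    (fun i j => (ArithmeticFunction.moebius i : ℤ) * Gm A m j)] at h2
  have h3 : f n = (n : ℤ) * m n := by
    simp only [f]
    rw [if_neg (by omega), if_pos hn, zero_add]
  rw [h3] at h2
  exact h2

theorem moeb (A : Finset ℕ) (m : ℕ → ℤ) (hA : ∀ n ∈ A, 2 ≤ n) (n : ℕ) (hn : n ∈ A) :
    |(m n : ℝ)| ≤ ∑ k ∈ n.divisors, |(Gm A m (n / k) : ℝ) / ((n / k : ℕ) : ℝ)| / k := by
  have hn2 : 2 ≤ n := hA n hn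
  have hn0 : (0 : ℝ) < n := by
    have : 0 < n := by omega
    exact_mod_cast this
  have h1 : ∑ k ∈ n.divisors, ((ArithmeticFunction.moebius k : ℤ) : ℝ) * (Gm A m (n / k) : ℝ) =
      (n : ℝ) * m n := by
    have := congrArg (fun z : ℤ => (z : ℝ)) (bd_inv A m hA n hn)
    push_cast at this
    exact this
  have h2 : (m n : ℝ) = (∑ k ∈ n.divisors, ((ArithmeticFunction.moebius k : ℤ) : ℝ) *
      (Gm A m (n / k) : ℝ)) / n := by
    rw [h1]
    field_simp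
  rw [h2, Finset.sum_div]
  refine (Finset.abs_sum_le_sum_abs _ _).trans (Finset.sum_le_sum fun k hk => ?_)
  obtain ⟨⟨l, hl⟩, -⟩ := Nat.mem_divisors.1 hk
  have hk0 : 0 < k := Nat.pos_of_mem_divisors hk
  have hl0 : 0 < l := by
    rcases Nat.eq_zero_or_pos l with h | h
    · rw [h, mul_zero] at hl
      omega
    · exact h
  have hnk : n / k = l := by
    rw [hl]
    exact Nat.mul_div_cancel_left l hk0
  have hk' : (0 : ℝ) < k := by exact_mod_cast hk0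
  have hl' : (0 : ℝ) < l := by exact_mod_cast hl0
  have hmu : |((ArithmeticFunction.moebius k : ℤ) : ℝ)| ≤ 1 := by
    have h3 := ArithmeticFunction.abs_moebius_le_one (n := k)
    exact_mod_cast h3
  rw [hnk]
  have e1 : |((ArithmeticFunction.moebius k : ℤ) : ℝ) * (Gm A m l : ℝ) / (n : ℝ)| =
      |((ArithmeticFunction.moebius k : ℤ) : ℝ)| * (|(Gm A m l : ℝ)| / ((l : ℝ) * k)) := by
    rw [abs_div, abs_mul, abs_of_pos hn0, hl]
    push_cast
    rw [mul_comm (l : ℝ) (k : ℝ), mul_div_assoc]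
  have e2 : |(Gm A m l : ℝ) / (l : ℝ)| / (k : ℝ) = 1 * (|(Gm A m l : ℝ)| / ((l : ℝ) * k)) := by
    rw [abs_div, abs_of_pos hl', div_div, one_mul]
  rw [e1, e2]
  exact mul_le_mul_of_nonneg_right hmu (by positivity)

theorem Gm_one (A : Finset ℕ) (m : ℕ → ℤ) (hA : ∀ n ∈ A, 2 ≤ n) : Gm A m 1 = -Sm A m := by
  unfold Gm
  have h : A.filter (fun n => n ∣ 1) = ∅ := by
    rw [Finset.filter_eq_empty_iff]
    intro n hn h1
    have := hA n hn
    have := Nat.dvd_one.1 h1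
    omega
  rw [h, Finset.sum_empty]
  ring

end Pool.Agent.Lib.MP_177a0e_gt.LT
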