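import Pool.Agent.Lib.MP_177a0e_gt.LT.TorD

/-!
# the number of summands.

PROOF. `T = ⌈4 W⌉₊ ≥ 4`. For `n ∈ A`: the part `k > T` of the sum in `h1` is at most `(∑_{k ∣ n} w(n/k) ^ 2) ^ (1/2) (∑_{k > T} 1 / k ^ 2) ^ (1/2) ≤ (W / T) ^ (1/2) ≤ 1 / 2` (Cauchy-Schwarz: `Finset.inner_mul_le_norm_mul_norm` or `Finset.sum_mul_sq_le_sq_mul_sq`; the `n / k` are distinct divisors of `n`, all odd; `∑_{T < k ≤ n} 1 / k ^ 2 ≤ 1 / T` by telescoping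
`1 / k ^ 2 ≤ 1 / (k - 1) - 1 / k`). Since `|m_n| ≥ 1`, `|m_n| ≤ 2 ∑_{k ∣ n, k ≤ T} |w(n/k)| / k`, so by Cauchy-Schwarz `m_n ^ 2 ≤ 4 H ∑_{k ∣ n, k ≤ T} w(n/k) ^ 2 / k`, `H = ∑_{k ≤ T} 1 / k`. Sum over `n ∈ A`: `∑_n ∑_{k ∣ n, k ≤ T} w(n/k) ^ 2 / k = ∑_{k ≤ T} (1 / k) ∑_{n ∈ A, k ∣ n} w(n/k) ^ 2 ≤ H W`
(for fixed `k` the `n / k` are distinct and odd). So `∑ |m_n| ≤ ∑ m_n ^ 2 ≤ 4 W H ^ 2`, `H ≤ 1 + log T ≤ 1 + log (4 W + 1)` (`harmonic_le_one_add_log`).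
-/

namespace Pool.Agent.Lib.MP_177a0e_gt.LT

open Pool.Agent.Lib.MP_177a0e_gt.Tangle Pool.Agent.Lib.MP_177a0e_gt.Tangle.Gen
open Pool.Agent.Lib.MP_177a0e_gt.Sig

/-- the sum of the squares over distinct odd arguments -/
private theorem be_inj {ι : Type} [DecidableEq ι] (s : Finset ι) (f : ι → ℕ) (w : ℕ → ℝ) (W : ℝ)
    (h2 : ∀ D : Finset ℕ, (∀ d ∈ D, d % 2 = 1) → ∑ d ∈ D, w d ^ 2 ≤ W)
    (hf : ∀ x ∈ s, f x % 2 = 1) (hinj : ∀ x ∈ s, ∀ y ∈ s, f x = f y → x = y) :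
    ∑ x ∈ s, w (f x) ^ 2 ≤ W := by
  classical
  have h3 : ∑ d ∈ s.image f, w d ^ 2 = ∑ x ∈ s, w (f x) ^ 2 := Finset.sum_image hinj
  rw [← h3]
  apply h2
  intro d hd
  obtain ⟨x, hx, rfl⟩ := Finset.mem_image.1 hd
  exact hf x hx

private theorem be_odd {n k : ℕ} (hn : n % 2 = 1) (hk : k ∣ n) : (n / k) % 2 = 1 := by
  obtain ⟨l, rfl⟩ := hk
  rcases Nat.eq_zero_or_pos k with h | h
  · subst h
    simp at hn
  · rw [Nat.mul_div_cancel_left _ h]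
    have h1 : Odd (k * l) := Nat.odd_iff.2 hn
    exact Nat.odd_iff.1 (Nat.odd_mul.1 h1).2

/-- the part of the sum over the large divisors -/
private theorem be_tail (n T : ℕ) (w : ℕ → ℝ) (W : ℝ) (hn : n % 2 = 1) (hT : 1 ≤ T) (hTW : 4 * W ≤ T)
    (hW : 0 < W) (h2 : ∀ D : Finset ℕ, (∀ d ∈ D, d % 2 = 1) → ∑ d ∈ D, w d ^ 2 ≤ W) :
    ∑ k ∈ n.divisors.filter (fun k => ¬ k ≤ T), |w (n / k)| / k ≤ 1 / 2 := by
  have hn0 : n ≠ 0 := by rintro rfl; simp at hn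
  have hT0 : (0 : ℝ) < T := by exact_mod_cast hT
  have c1 : (∑ k ∈ n.divisors.filter (fun k => ¬ k ≤ T), |w (n / k)| / k) ^ 2 ≤
      (∑ k ∈ n.divisors.filter (fun k => ¬ k ≤ T), w (n / k) ^ 2) *
        ∑ k ∈ n.divisors.filter (fun k => ¬ k ≤ T), (((k : ℕ) : ℝ) ^ 2)⁻¹ := by
    apply Finset.sum_sq_le_sum_mul_sum_of_sq_le_mul
    · intro k _; positivity
    · intro k _; positivity
    · intro k _
      rw [div_pow, sq_abs, div_eq_mul_inv]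
  have c2 : ∑ k ∈ n.divisors.filter (fun k => ¬ k ≤ T), w (n / k) ^ 2 ≤ W := by
    apply be_inj _ (fun k => n / k) w W h2
    · intro k hk
      exact be_odd hn (Nat.dvd_of_mem_divisors (Finset.mem_filter.1 hk).1)
    · intro k hk l hl hkl
      have hk' := Nat.dvd_of_mem_divisors (Finset.mem_filter.1 hk).1
      have hl' := Nat.dvd_of_mem_divisors (Finset.mem_filter.1 hl).1
      have e1 := Nat.div_div_self hk' hn0
      have e2 := Nat.div_div_self hl' hn0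
      have hkl' : n / k = n / l := hkl
      rw [← e1, ← e2, hkl']
  have c3 : ∑ k ∈ n.divisors.filter (fun k => ¬ k ≤ T), (((k : ℕ) : ℝ) ^ 2)⁻¹ ≤ (T : ℝ)⁻¹ := by
    have c4 : ∑ k ∈ n.divisors.filter (fun k => ¬ k ≤ T), (((k : ℕ) : ℝ) ^ 2)⁻¹ ≤
        ∑ k ∈ Finset.Ioc T (max T n), (((k : ℕ) : ℝ) ^ 2)⁻¹ := by
      apply Finset.sum_le_sum_of_subset_of_nonneg
      · intro k hk
        rw [Finset.mem_filter] at hk
        rw [Finset.mem_Ioc]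
        exact ⟨not_le.1 hk.2, (Nat.divisor_le hk.1).trans (le_max_right _ _)⟩
      · intro k _ _; positivity
    have c5 := sum_Ioc_inv_sq_le_sub (α := ℝ) (k := T) (n := max T n) (by omega) (le_max_left _ _)
    have c6 : (0 : ℝ) ≤ ((max T n : ℕ) : ℝ)⁻¹ := by positivity
    linarith
  have c7 : (∑ k ∈ n.divisors.filter (fun k => ¬ k ≤ T), |w (n / k)| / k) ^ 2 ≤ (1 / 2) ^ 2 := by
    have c8 : (0 : ℝ) ≤ ∑ k ∈ n.divisors.filter (fun k => ¬ k ≤ T), w (n / k) ^ 2 :=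
      Finset.sum_nonneg fun k _ => sq_nonneg _
    have c9 : (0 : ℝ) ≤ (T : ℝ)⁻¹ := by positivity
    calc _ ≤ _ := c1
      _ ≤ W * (T : ℝ)⁻¹ := mul_le_mul c2 c3 (Finset.sum_nonneg fun k _ => by positivity) hW.le
      _ ≤ (1 / 2) ^ 2 := by
          rw [← div_eq_mul_inv, div_le_iff₀ hT0]
          linarith
  exact (sq_le_sq₀ (Finset.sum_nonneg fun k _ => by positivity) (by norm_num)).1 c7

/-- one summand -/
private theorem be_one (n T : ℕ) (a : ℤ) (w : ℕ → ℝ) (W H : ℝ) (hn : n % 2 = 1) (ha : a ≠ 0) (hT : 1 ≤ T)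
    (hTW : 4 * W ≤ T) (hW : 0 < W) (h1 : |(a : ℝ)| ≤ ∑ k ∈ n.divisors, |w (n / k)| / k)
    (h2 : ∀ D : Finset ℕ, (∀ d ∈ D, d % 2 = 1) → ∑ d ∈ D, w d ^ 2 ≤ W)
    (hH : H = ∑ k ∈ Finset.Icc 1 T, ((k : ℕ) : ℝ)⁻¹) :
    |(a : ℝ)| ≤ 4 * H * ∑ k ∈ n.divisors.filter (fun k => k ≤ T), w (n / k) ^ 2 / k := by
  have ha1 : (1 : ℝ) ≤ |(a : ℝ)| := by
    have : 1 ≤ |a| := Int.one_le_abs ha
    exact_mod_cast this
  have h3 := be_tail n T w W hn hT hTW hW h2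
  have h4 := Finset.sum_filter_add_sum_filter_not n.divisors (fun k => k ≤ T) (fun k => |w (n / k)| / (k : ℝ))
  set P := ∑ k ∈ n.divisors.filter (fun k => k ≤ T), |w (n / k)| / (k : ℝ) with hP
  have h5 : |(a : ℝ)| ≤ 2 * P := by linarith
  have h6 : P ^ 2 ≤ (∑ k ∈ n.divisors.filter (fun k => k ≤ T), w (n / k) ^ 2 / k) *
      ∑ k ∈ n.divisors.filter (fun k => k ≤ T), ((k : ℕ) : ℝ)⁻¹ := by
    apply Finset.sum_sq_le_sum_mul_sum_of_sq_le_mul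
    · intro k _; positivity
    · intro k _; positivity
    · intro k _
      apply le_of_eq
      rw [div_pow, sq_abs, sq (k : ℝ), div_eq_mul_inv, div_eq_mul_inv, mul_inv]
      ring
  have h7 : ∑ k ∈ n.divisors.filter (fun k => k ≤ T), ((k : ℕ) : ℝ)⁻¹ ≤ H := by
    rw [hH]
    apply Finset.sum_le_sum_of_subset_of_nonneg
    · intro k hk
      rw [Finset.mem_filter] at hk
      rw [Finset.mem_Icc]
      exact ⟨Nat.pos_of_mem_divisors hk.1, hk.2⟩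
    · intro k _ _; positivity
  have h8 : (0 : ℝ) ≤ ∑ k ∈ n.divisors.filter (fun k => k ≤ T), w (n / k) ^ 2 / k :=
    Finset.sum_nonneg fun k _ => by positivity
  have h9 : |(a : ℝ)| ^ 2 ≤ 4 * H * ∑ k ∈ n.divisors.filter (fun k => k ≤ T), w (n / k) ^ 2 / k := by
    calc |(a : ℝ)| ^ 2 ≤ (2 * P) ^ 2 := by gcongr
      _ = 4 * P ^ 2 := by ring
      _ ≤ 4 * ((∑ k ∈ n.divisors.filter (fun k => k ≤ T), w (n / k) ^ 2 / k) * H) := by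
          have := h6.trans (mul_le_mul_of_nonneg_left h7 h8)
          linarith
      _ = _ := by ring
  nlinarith

theorem num_bd (A : Finset ℕ) (m : ℕ → ℤ) (w : ℕ → ℝ) (W : ℝ) (hW : 1 ≤ W) (hA : ∀ n ∈ A, n % 2 = 1)
    (hm : ∀ n ∈ A, m n ≠ 0) (h1 : ∀ n ∈ A, |(m n : ℝ)| ≤ ∑ k ∈ n.divisors, |w (n / k)| / k)
    (h2 : ∀ D : Finset ℕ, (∀ d ∈ D, d % 2 = 1) → ∑ d ∈ D, w d ^ 2 ≤ W) :
    ∑ n ∈ A, |(m n : ℝ)| ≤ 4 * W * (1 + Real.log (4 * W + 1)) ^ 2 := by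
  classical
  have hW0 : 0 < W := by linarith
  set T : ℕ := ⌈4 * W⌉₊ with hT
  have hT1 : 1 ≤ T := Nat.ceil_pos.2 (by linarith)
  have hTW : 4 * W ≤ T := Nat.le_ceil _
  have hTW' : (T : ℝ) ≤ 4 * W + 1 := (Nat.ceil_lt_add_one (by linarith)).le
  set H : ℝ := ∑ k ∈ Finset.Icc 1 T, ((k : ℕ) : ℝ)⁻¹ with hH
  have hH0 : 0 ≤ H := Finset.sum_nonneg fun k _ => by positivity
  have hH1 : H ≤ 1 + Real.log (4 * W + 1) := by
    have e1 : ((harmonic T : ℚ) : ℝ) = H := by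
      rw [harmonic_eq_sum_Icc]
      push_cast
      rfl
    have e2 := harmonic_le_one_add_log T
    rw [e1] at e2
    have e3 : Real.log T ≤ Real.log (4 * W + 1) :=
      Real.log_le_log (by exact_mod_cast hT1) hTW'
    linarith
  have h3 : ∑ n ∈ A, |(m n : ℝ)| ≤
      ∑ n ∈ A, 4 * H * ∑ k ∈ n.divisors.filter (fun k => k ≤ T), w (n / k) ^ 2 / k :=
    Finset.sum_le_sum fun n hn =>
      be_one n T (m n) w W H (hA n hn) (hm n hn) hT1 hTW hW0 (h1 n hn) h2 hH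
  have h4 : ∑ n ∈ A, ∑ k ∈ n.divisors.filter (fun k => k ≤ T), w (n / k) ^ 2 / k =
      ∑ k ∈ Finset.Icc 1 T, ∑ n ∈ A.filter (fun n => k ∣ n), w (n / k) ^ 2 / k := by
    apply Finset.sum_comm'
    intro n k
    rw [Finset.mem_filter, Finset.mem_filter, Finset.mem_Icc, Nat.mem_divisors]
    constructor
    · rintro ⟨a1, ⟨a2, a3⟩, a4⟩
      exact ⟨⟨a1, a2⟩, Nat.pos_of_dvd_of_pos a2 (Nat.pos_of_ne_zero a3), a4⟩
    · rintro ⟨⟨a1, a2⟩, a3, a4⟩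
      refine ⟨a1, ⟨a2, ?_⟩, a4⟩
      rintro rfl
      have := hA 0 a1
      simp at this
  have h5 : ∀ k ∈ Finset.Icc 1 T, ∑ n ∈ A.filter (fun n => k ∣ n), w (n / k) ^ 2 / k ≤ W * ((k : ℕ) : ℝ)⁻¹ := by
    intro k hk
    have hk1 : 1 ≤ k := (Finset.mem_Icc.1 hk).1
    rw [← Finset.sum_div, div_eq_mul_inv]
    apply mul_le_mul_of_nonneg_right _ (by positivity)
    apply be_inj _ (fun n => n / k) w W h2
    · intro n hn
      rw [Finset.mem_filter] at hn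
      exact be_odd (hA n hn.1) hn.2
    · intro n hn n' hn' hnn
      rw [Finset.mem_filter] at hn hn'
      have hnn' : n / k = n' / k := hnn
      rw [← Nat.div_mul_cancel hn.2, ← Nat.div_mul_cancel hn'.2, hnn']
  calc ∑ n ∈ A, |(m n : ℝ)|
      ≤ ∑ n ∈ A, 4 * H * ∑ k ∈ n.divisors.filter (fun k => k ≤ T), w (n / k) ^ 2 / k := h3
    _ = 4 * H * ∑ k ∈ Finset.Icc 1 T, ∑ n ∈ A.filter (fun n => k ∣ n), w (n / k) ^ 2 / k := by
        rw [← Finset.mul_sum, h4]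
    _ ≤ 4 * H * ∑ k ∈ Finset.Icc 1 T, W * ((k : ℕ) : ℝ)⁻¹ := by
        apply mul_le_mul_of_nonneg_left (Finset.sum_le_sum h5) (by linarith)
    _ = 4 * W * H ^ 2 := by
        rw [← Finset.mul_sum, ← hH]
        ring
    _ ≤ 4 * W * (1 + Real.log (4 * W + 1)) ^ 2 := by
        apply mul_le_mul_of_nonneg_left (pow_le_pow_left₀ hH0 hH1 2) (by linarith)

end Pool.Agent.Lib.MP_177a0e_gt.LT
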