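import Pool.Agent.Lib.MP_177a0e_gt.LT.TorD

/-!
# from lists to sums over a finite set.

`A = (P ++ M).toFinset`, `m n = P.count n - M.count n`. `ls_fsum`: `∑_{x ∈ l} F x = ∑_{n ∈ l.toFinset} l.count n * F n` (`Finset.sum_list_map_count`, `List.sum_map_count_dedup_eq…`, or induction), also for any finite set containing `l.toFinset` (`Finset.sum_subset`). `ls_len`: `P` and `M` have no common element, so `|P.count n - M.count n| = P.count n + M.count n`, and `∑_n l.count n = l.length`.
-/

namespace Pool.Agent.Lib.MP_177a0e_gt.LT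

open Pool.Agent.Lib.MP_177a0e_gt.Tangle Pool.Agent.Lib.MP_177a0e_gt.Tangle.Gen
open Pool.Agent.Lib.MP_177a0e_gt.Sig

/-- the multiplicities -/
def mul (P M : List ℕ) (n : ℕ) : ℤ := (P.count n : ℤ) - M.count n

private theorem bf_sum (l : List ℕ) (S : Finset ℕ) (h : l.toFinset ⊆ S) (F : ℕ → ℤ) :
    (l.map F).sum = ∑ n ∈ S, (l.count n : ℤ) * F n := by
  rw [Finset.sum_list_map_count]
  rw [← Finset.sum_subset h]
  · refine Finset.sum_congr rfl fun n _ => ?_
    rw [nsmul_eq_mul]
  · intro n _ hn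
    have : l.count n = 0 := by
      rw [List.count_eq_zero]
      intro h1
      exact hn (List.mem_toFinset.mpr h1)
    rw [this]
    simp

private theorem bf_subP (P M : List ℕ) : P.toFinset ⊆ (P ++ M).toFinset := by
  intro n hn
  rw [List.mem_toFinset] at hn ⊢
  exact List.mem_append_left _ hn

private theorem bf_subM (P M : List ℕ) : M.toFinset ⊆ (P ++ M).toFinset := by
  intro n hn
  rw [List.mem_toFinset] at hn ⊢
  exact List.mem_append_right _ hn

private theorem bf_main (P M : List ℕ) (F : ℕ → ℤ) :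
    (P.map F).sum - (M.map F).sum = ∑ n ∈ (P ++ M).toFinset, mul P M n * F n := by
  rw [bf_sum P _ (bf_subP P M) F, bf_sum M _ (bf_subM P M) F, ← Finset.sum_sub_distrib]
  refine Finset.sum_congr rfl fun n _ => ?_
  unfold mul
  ring

theorem ls_fsum (P M : List ℕ) (θ : ℝ) :
    ((fsum P θ - fsum M θ : ℤ) : ℝ) = ∑ n ∈ (P ++ M).toFinset, (mul P M n : ℝ) * (fl n θ : ℝ) := by
  unfold fsum
  rw [bf_main P M (fun n => fl n θ)]
  push_cast
  rfl

theorem ls_sum (P M : List ℕ) : (P.sum : ℤ) - M.sum = ∑ n ∈ (P ++ M).toFinset, (n : ℤ) * mul P M n := by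
  have h := bf_main P M (fun n : ℕ => (n : ℤ))
  have e : ∀ l : List ℕ, (l.map (fun n : ℕ => (n : ℤ))).sum = (l.sum : ℤ) := by
    intro l
    induction l with
    | nil => simp
    | cons a l ih =>
      rw [List.map_cons, List.sum_cons, List.sum_cons, ih]
      push_cast
      ring
  rw [e, e] at h
  rw [h]
  exact Finset.sum_congr rfl fun n _ => mul_comm _ _

private theorem bf_abs (P M : List ℕ) (h : ∀ n ∈ P, n ∉ M) (n : ℕ) :
    |mul P M n| = (P.count n : ℤ) + M.count n := by
  unfold mul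
  by_cases hn : n ∈ P
  · have : M.count n = 0 := List.count_eq_zero.mpr (h n hn)
    rw [this]
    simp
  · have : P.count n = 0 := List.count_eq_zero.mpr hn
    rw [this]
    simp

theorem ls_len (P M : List ℕ) (h : ∀ n ∈ P, n ∉ M) :
    (P.length : ℝ) + M.length = ∑ n ∈ (P ++ M).toFinset, |(mul P M n : ℝ)| := by
  have e : ∀ l : List ℕ, (l.map (fun _ => (1 : ℤ))).sum = (l.length : ℤ) := by
    intro l
    simp
  have h1 : ((P.length : ℤ) + M.length : ℤ) = ∑ n ∈ (P ++ M).toFinset, |mul P M n| := by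
    rw [← e P, ← e M, bf_sum P _ (bf_subP P M), bf_sum M _ (bf_subM P M), ← Finset.sum_add_distrib]
    refine Finset.sum_congr rfl fun n _ => ?_
    rw [bf_abs P M h n]
    ring
  have h2 : (((P.length : ℤ) + M.length : ℤ) : ℝ) =
      ((∑ n ∈ (P ++ M).toFinset, |mul P M n| : ℤ) : ℝ) := by rw [h1]
  push_cast at h2
  exact h2

theorem ls_ne (P M : List ℕ) (h : ∀ n ∈ P, n ∉ M) (n : ℕ) (hn : n ∈ (P ++ M).toFinset) : mul P M n ≠ 0 := by
  intro h0
  have h1 := bf_abs P M h n
  rw [h0, abs_zero] at h1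
  rw [List.mem_toFinset, List.mem_append] at hn
  rcases hn with hn | hn
  · have := List.count_pos_iff.mpr hn
    omega
  · have := List.count_pos_iff.mpr hn
    omega

end Pool.Agent.Lib.MP_177a0e_gt.LT
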