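import Pool.Agent.Lib.MP_177a0e_gt.LT.Defs
import Pool.Agent.Lib.MP_177a0e_gt.TangleMain

/-!
# the adjoint of a movie.

`adj` (reflection in a horizontal plane) is in `TangleMain.lean`, with `rel_adj`, `Local.adj`, `IsKnot.adj`, `adj_append`, `adj_adj`.
* `cob_adj2`: induction on `Cob`: isotopies: `Local.adj` with `rel_adj` (see `Homotopic.adj` for how it is used); saddles: the adjoint of `[⟨p, cap x, q⟩, ⟨p, cup x, q⟩]` is itself; births, deaths: the adjoint of `[⟨p, cup x, q⟩, ⟨p, cap x, q⟩]` is itself; `Local.mk u a b v` becomes `Local.mk (adj v) (adj a) (adj b) (adj u)` (`adj_append`, `Valid.adj`).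
* `ribbon_adj`, `slice_adj`: `adj [] = []`; `BoundsRibbon (adj K) g ↔ BoundsRibbon K g` and `BoundsSurface (adj K) g m ↔ BoundsSurface K g m` (one direction for all `K`, the other by `adj_adj`), so the two infima agree.
-/

namespace Pool.Agent.Lib.MP_177a0e_gt.LT

open Pool.Agent.Lib.MP_177a0e_gt.Tangle Pool.Agent.Lib.MP_177a0e_gt.Tangle.Gen
open Pool.Agent.Lib.MP_177a0e_gt.Sig

/-- one step of a movie, read upside down -/
private theorem ub_step {R : Word → Word → Prop} {c e : List Bool} {w w' : Word}
    (hR : ∀ a b, R a b → R (adj a) (adj b)) (h : Local R c e w w') : Local R e c (adj w) (adj w') := by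
  cases h with
  | mk u a b v h h₁ h₂ =>
    have h₁' := h₁.adj
    have h₂' := h₂.adj
    simp only [adj_append, ← List.append_assoc] at h₁' h₂' ⊢
    exact Local.mk _ _ _ _ (hR a b h) h₁' h₂'

private theorem ub_saddle (a b : Word) (h : SaddleRel a b) : SaddleRel (adj a) (adj b) := by
  cases h with
  | mk x p q => exact SaddleRel.mk x p q

private theorem ub_birth (a b : Word) (h : BirthRel a b) : BirthRel (adj a) (adj b) := by
  cases h with
  | mk x p q => exact BirthRel.mk x p q

theorem cob_adj2 {c e : List Bool} {b s d : ℕ} {w w' : Word} (h : Cob c e b s d w w') : Cob e c b s d (adj w) (adj w') := by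
  induction h with
  | refl h => exact Cob.refl h.adj
  | iso _ h' ih =>
    rcases h' with h' | h'
    · exact ih.iso (h'.adj fun _ _ => rel_adj)
    · exact ih.iso (h'.adj fun _ _ => rel_adj).symm
  | saddle _ h' ih => exact ih.saddle (h'.imp (ub_step ub_saddle) (ub_step ub_saddle))
  | birth _ h' ih => exact ih.birth (ub_step ub_birth h')
  | death _ h' ih => exact ih.death (ub_step ub_birth h')

private theorem ub_ribbon {K : Word} {g : ℕ} (h : BoundsRibbon K g) : BoundsRibbon (adj K) g := by
  obtain ⟨d, hd⟩ := h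
  exact ⟨d, cob_adj2 hd⟩

private theorem ub_surface {K : Word} {g m : ℕ} (h : BoundsSurface K g m) : BoundsSurface (adj K) g m := by
  obtain ⟨K', h1, h2, h3⟩ := h
  exact ⟨adj K', h1.adj, cob_adj2 h2, ub_ribbon h3⟩

theorem ribbon_adj (K : Word) : ribbonGenus (adj K) = ribbonGenus K := by
  unfold ribbonGenus
  congr 1
  ext g
  constructor
  · intro h
    have h1 := ub_ribbon h
    rwa [Tangle.adj_adj] at h1
  · exact fun h => ub_ribbon h

theorem slice_adj (K : Word) : sliceGenus (adj K) = sliceGenus K := by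
  unfold sliceGenus
  congr 1
  ext g
  constructor
  · rintro ⟨m, h⟩
    have h1 := ub_surface h
    rw [Tangle.adj_adj] at h1
    exact ⟨m, h1⟩
  · rintro ⟨m, h⟩
    exact ⟨m, ub_surface h⟩

end Pool.Agent.Lib.MP_177a0e_gt.LT
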