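import Pool.Agent.Lib.MP_177a0e_gt.LT.UA
import Pool.Agent.Lib.MP_177a0e_gt.LT.UB

/-!
# movies for sums of torus knots of both signs.

* `group_cob`: `P ≠ []`, `ΣM ≤ ΣP`. `tsum P → tk ΣP` with `|P| - 1` saddles (`tsum_fuse`). `M ≠ []`: `adj (tsum M) → adj (tk ΣM)` with `|M| - 1` saddles (`cob_adj2`), `tk ΣP → tk ΣM` with `ΣP - ΣM` saddles (`tk_down`), and `tk m ++ adj (tk m) → []` with one saddle and one death (`cob_adj'` in `TangleMain.lean`, `caps (tk m) = 1`).
  `M = []`: `adj (tsum []) = []`, `tk ΣP → tk 0` with `ΣP` saddles, `tk 0 = [⟨[true], cup true, []⟩, ⟨[true], cap true, []⟩] → []` with one death. All inside the word: `Cob.ctx`, `Cob.trans`.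
* `groups_cob`: induction on `G`: `G = (P, M) :: G'`: the word is `tsum P ++ (tsum P' ++ adj (tsum M')) ++ adj (tsum M)` with `P', M'` the concatenations for `G'` (`tsum (P ++ P') = tsum P ++ tsum P'`, `adj (tsum (M ++ M')) = adj (tsum M') ++ adj (tsum M)`: `adj_append`): first `G'` in the middle (`Cob.ctx`), then `group_cob`.
* `upper`: `s = ∑ (|P| + |M| + (ΣP - ΣM) - 1)`, `d = |G|`; `s - d = ∑ (|P| + |M| + ΣP - ΣM - 2)` is even since `|P| + ΣP` and `|M| + ΣM` are even for lists of odd numbers, and it is `≥ 0` (each term is: `|P| ≥ 1`; if `|P| = 1` and `|M| = 0` then `ΣP ≥ 1`, …): `s = d + 2 g`, `BoundsRibbon K g`, `Nat.sInf_le`.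
-/

namespace Pool.Agent.Lib.MP_177a0e_gt.LT

open Pool.Agent.Lib.MP_177a0e_gt.Tangle Pool.Agent.Lib.MP_177a0e_gt.Tangle.Gen
open Pool.Agent.Lib.MP_177a0e_gt.Sig

private theorem uc_caps_append (u v : Word) : caps (u ++ v) = caps u + caps v := by
  induction u with
  | nil => simp [caps]
  | cons s u ih =>
    obtain ⟨p, g, q⟩ := s
    cases g <;> (simp only [List.cons_append, caps, ih]; try omega)

private theorem uc_caps_tbl (l : List Bool) : caps (tbl l) = 0 := by
  induction l with
  | nil => rfl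
  | cons b l ih => cases b <;> simp only [tbl, caps, ih]

private theorem uc_caps_tk (n : ℕ) : caps (tk n) = 1 := by
  simp only [tk, twoBridge, caps, uc_caps_append, uc_caps_tbl]

private theorem uc_tsum_append (l m : List ℕ) : tsum (l ++ m) = tsum l ++ tsum m := by
  simp [tsum]

private theorem uc_parity (l : List ℕ) (h : ∀ n ∈ l, n % 2 = 1) : (l.length + l.sum) % 2 = 0 := by
  induction l with
  | nil => rfl
  | cons a l ih =>
    have h1 := h a (by simp)
    have h2 := ih fun n hn => h n (by simp [hn])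
    simp only [List.length_cons, List.sum_cons]
    omega

theorem group_cob (P M : List ℕ) (hP : P ≠ []) (h : M.sum ≤ P.sum) :
    Cob [true] [true] 0 (P.length + M.length + (P.sum - M.sum) - 1) 1 (tsum P ++ adj (tsum M)) [] := by
  have hl : 1 ≤ P.length := List.length_pos_iff.mpr hP
  have hn : Valid [true] [] [true] := show [true] = [true] from rfl
  by_cases hM : M = []
  · subst hM
    have e : tsum P ++ adj (tsum []) = tsum P := by
      rw [show tsum [] = [] from rfl, adj_nil, List.append_nil]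
    rw [e]
    have h1 := tsum_fuse P hP
    have h2 := tk_down 0 P.sum
    rw [Nat.zero_add] at h2
    have h3 : Cob [true] [true] 0 0 1 (tk 0) [] := by
      refine ((Cob.refl (tk_valid 0)).death (w₂ := []) ?_).cast rfl rfl rfl
      exact Local.whole (BirthRel.mk true [true] []) hn (tk_valid 0)
    refine ((h1.trans h2).trans h3).cast rfl ?_ rfl
    simp only [List.length_nil, List.sum_nil]
    omega
  · have hm : 1 ≤ M.length := List.length_pos_iff.mpr hM
    have h1 : Cob [true] [true] 0 (P.length - 1) 0 (tsum P ++ adj (tsum M)) (tk P.sum ++ adj (tsum M)) := by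
      have := (tsum_fuse P hP).ctx hn (tsum_valid M).adj
      simpa only [List.nil_append] using this
    have h2 : Cob [true] [true] 0 (M.length - 1) 0 (tk P.sum ++ adj (tsum M)) (tk P.sum ++ adj (tk M.sum)) := by
      have := (cob_adj2 (tsum_fuse M hM)).ctx (tk_valid P.sum) hn
      simpa only [List.append_nil] using this
    have h3 : Cob [true] [true] 0 (P.sum - M.sum) 0 (tk P.sum ++ adj (tk M.sum)) (tk M.sum ++ adj (tk M.sum)) := by
      have h4 := tk_down M.sum (P.sum - M.sum)
      rw [Nat.add_sub_cancel' h] at h4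
      have := h4.ctx hn (tk_valid M.sum).adj
      simpa only [List.nil_append] using this
    have h5 : Cob [true] [true] 0 1 1 (tk M.sum ++ adj (tk M.sum)) [] := by
      have := cob_adj' (tk_valid M.sum)
      rw [uc_caps_tk] at this
      exact this
    refine (((h1.trans h2).trans h3).trans h5).cast rfl ?_ rfl
    omega

theorem groups_cob (G : List (List ℕ × List ℕ)) (h : ∀ t ∈ G, t.1 ≠ [] ∧ t.2.sum ≤ t.1.sum) :
    Cob [true] [true] 0 (G.map fun t => t.1.length + t.2.length + (t.1.sum - t.2.sum) - 1).sum G.length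
      (tsum (G.map Prod.fst).flatten ++ adj (tsum (G.map Prod.snd).flatten)) [] := by
  induction G with
  | nil => exact Cob.refl (show [true] = [true] from rfl)
  | cons t G ih =>
    have h1 := h t (by simp)
    have h2 := ih fun u hu => h u (by simp [hu])
    have h3 := h2.ctx (tsum_valid t.1) (tsum_valid t.2).adj
    rw [List.append_nil] at h3
    have h4 := h3.trans (group_cob t.1 t.2 h1.1 h1.2)
    have e : tsum ((t :: G).map Prod.fst).flatten ++ adj (tsum ((t :: G).map Prod.snd).flatten) =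
        tsum t.1 ++ (tsum (G.map Prod.fst).flatten ++ adj (tsum (G.map Prod.snd).flatten)) ++
          adj (tsum t.2) := by
      simp only [List.map_cons, List.flatten_cons, uc_tsum_append, adj_append, List.append_assoc]
    rw [e]
    refine h4.cast rfl ?_ ?_
    · simp only [List.map_cons, List.sum_cons]
      omega
    · simp only [List.length_cons]

private theorem uc_count (G : List (List ℕ × List ℕ)) (h : ∀ t ∈ G, t.1 ≠ [] ∧ t.2.sum ≤ t.1.sum)
    (h' : ∀ t ∈ G, (∀ n ∈ t.1, n % 2 = 1) ∧ ∀ n ∈ t.2, n % 2 = 1) :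
    ∃ g : ℕ, (G.map fun t => t.1.length + t.2.length + (t.1.sum - t.2.sum) - 1).sum = G.length + 2 * g ∧
      (2 * (g : ℤ)) = (G.map fun t => (t.1.length : ℤ) + t.2.length + t.1.sum - t.2.sum - 2).sum := by
  induction G with
  | nil => exact ⟨0, rfl, rfl⟩
  | cons t G ih =>
    obtain ⟨g, hg1, hg2⟩ := ih (fun u hu => h u (by simp [hu])) fun u hu => h' u (by simp [hu])
    have h1 := h t (by simp)
    have h2 := h' t (by simp)
    have p1 := uc_parity t.1 h2.1
    have p2 := uc_parity t.2 h2.2
    have hl : 1 ≤ t.1.length := List.length_pos_iff.mpr h1.1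
    have h3 := h1.2
    simp only [List.map_cons, List.sum_cons, List.length_cons]
    rw [hg1, ← hg2]
    refine ⟨(t.1.length + t.2.length + (t.1.sum - t.2.sum)) / 2 - 1 + g, ?_, ?_⟩
    · omega
    · omega

theorem upper (G : List (List ℕ × List ℕ)) (h : ∀ t ∈ G, t.1 ≠ [] ∧ t.2.sum ≤ t.1.sum)
    (h' : ∀ t ∈ G, (∀ n ∈ t.1, n % 2 = 1) ∧ ∀ n ∈ t.2, n % 2 = 1) :
    2 * (ribbonGenus (tsum (G.map Prod.fst).flatten ++ adj (tsum (G.map Prod.snd).flatten)) : ℤ) ≤
      (G.map fun t => (t.1.length : ℤ) + t.2.length + t.1.sum - t.2.sum - 2).sum := by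
  obtain ⟨g, hg1, hg2⟩ := uc_count G h h'
  have h1 := groups_cob G h
  rw [hg1] at h1
  have h2 : ribbonGenus (tsum (G.map Prod.fst).flatten ++ adj (tsum (G.map Prod.snd).flatten)) ≤ g :=
    Nat.sInf_le ⟨G.length, h1⟩
  rw [← hg2]
  have h3 : ((ribbonGenus (tsum (G.map Prod.fst).flatten ++ adj (tsum (G.map Prod.snd).flatten)) : ℕ) : ℤ) ≤ (g : ℤ) := by
    exact_mod_cast h2
  linarith

end Pool.Agent.Lib.MP_177a0e_gt.LT
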