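import Pool.Agent.Lib.MP_177a0e_gt.LT.Lw
import Pool.Agent.Lib.MP_177a0e_gt.LT.UC
import Pool.Agent.Lib.MP_177a0e_gt.LT.BB
import Pool.Agent.Lib.MP_177a0e_gt.LT.BC
import Pool.Agent.Lib.MP_177a0e_gt.LT.BD
import Pool.Agent.Lib.MP_177a0e_gt.LT.BE
import Pool.Agent.Lib.MP_177a0e_gt.LT.BF

/-!
# the ribbon genus of the sums of torus knots `T(2, n)` is bounded by a function of the slice genus.
-/

namespace Pool.Agent.Lib.MP_177a0e_gt.LT

open Pool.Agent.Lib.MP_177a0e_gt.Tangle Pool.Agent.Lib.MP_177a0e_gt.Tangle.Gen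
open Pool.Agent.Lib.MP_177a0e_gt.Sig

/-- one group -/
private theorem BG_upper (P M : List ℕ) (hP : ∀ n ∈ P, n % 2 = 1) (hM : ∀ n ∈ M, n % 2 = 1) (h : M.sum ≤ P.sum) :
    2 * (ribbonGenus (tsum P ++ adj (tsum M)) : ℤ) ≤ P.length + M.length + |(P.sum : ℤ) - M.sum| := by
  rcases eq_or_ne P [] with hP0 | hP0
  · have hM0 : M = [] := by
      rcases M with _ | ⟨n, M⟩
      · rfl
      · exfalso
        have h1 := hM n (List.mem_cons_self ..)
        rw [hP0, List.sum_nil, List.sum_cons] at h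
        omega
    subst hP0 hM0
    have h0 : BoundsRibbon [] 0 := ⟨0, Cob.refl valid_nil⟩
    have h1 : ribbonGenus (tsum [] ++ adj (tsum [])) = 0 := Nat.le_zero.1 (Nat.sInf_le h0)
    rw [h1]
    simp
  · have k := upper [(P, M)] (fun t ht => by
      rw [List.mem_singleton] at ht
      subst ht
      exact ⟨hP0, h⟩) (fun t ht => by
      rw [List.mem_singleton] at ht
      subst ht
      exact ⟨hP, hM⟩)
    simp only [List.map_cons, List.map_nil, List.flatten_cons, List.flatten_nil, List.append_nil, List.sum_cons,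
      List.sum_nil] at k
    have h2 := le_abs_self ((P.sum : ℤ) - M.sum)
    linarith

theorem upper_one (P M : List ℕ) (hP : ∀ n ∈ P, n % 2 = 1) (hM : ∀ n ∈ M, n % 2 = 1) :
    2 * (ribbonGenus (tsum P ++ adj (tsum M)) : ℤ) ≤ P.length + M.length + |(P.sum : ℤ) - M.sum| := by
  rcases Nat.le_total M.sum P.sum with h | h
  · exact BG_upper P M hP hM h
  · have e : tsum P ++ adj (tsum M) = adj (tsum M ++ adj (tsum P)) := by
      rw [adj_append, Tangle.adj_adj]
    have k := BG_upper M P hM hP h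
    rw [e, ribbon_adj, abs_sub_comm]
    linarith

/-- the bound for the sums of squares -/
theorem w_bd (A : Finset ℕ) (m : ℕ → ℤ) (hA : ∀ n ∈ A, n % 2 = 1) (g : ℝ) (hg : 0 ≤ g)
    (h : ∀ θ : ℝ, 0 ≤ θ → θ < 1 / 2 → |∑ n ∈ A, (m n : ℝ) * (fl n θ : ℝ)| ≤ g) (D : Finset ℕ)
    (hD : ∀ d ∈ D, d % 2 = 1) : ∑ d ∈ D, ((Gm A m d : ℝ) / d) ^ 2 ≤ 20 * g ^ 2 := by
  have hF : Measurable fun θ : ℝ => ∑ n ∈ A, (m n : ℝ) * (fl n θ : ℝ) :=
    Finset.measurable_sum _ fun n _ => (fl_meas n).const_mul _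
  have k := bessel (fun θ => ∑ n ∈ A, (m n : ℝ) * (fl n θ : ℝ)) g hF h D (fun d hd => by
    have := hD d hd
    omega)
  have e : ∀ d ∈ D, ∫ θ in (0 : ℝ)..(1 / 2), (∑ n ∈ A, (m n : ℝ) * (fl n θ : ℝ)) * Real.sin (2 * Real.pi * d * θ) =
      -((Gm A m d : ℝ) / d) / (4 * Real.pi) := by
    intro d hd
    have hd1 := hD d hd
    have hd0 : (d : ℝ) ≠ 0 := by
      have : d ≠ 0 := by omega
      exact_mod_cast this
    have e1 : ∀ θ : ℝ, (∑ n ∈ A, (m n : ℝ) * (fl n θ : ℝ)) * Real.sin (2 * Real.pi * d * θ) =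
        ∑ n ∈ A, (m n : ℝ) * ((fl n θ : ℝ) * Real.sin (2 * Real.pi * d * θ)) := by
      intro θ
      rw [Finset.sum_mul]
      exact Finset.sum_congr rfl fun n _ => by ring
    have hint : ∀ n ∈ A, IntervalIntegrable (fun θ : ℝ => (m n : ℝ) * ((fl n θ : ℝ) * Real.sin (2 * Real.pi * d * θ)))
        MeasureTheory.volume 0 (1 / 2) := by
      intro n _
      refine IntervalIntegrable.const_mul ?_ _
      have hc : Continuous fun θ : ℝ => Real.sin (2 * Real.pi * d * θ) := by fun_prop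
      refine IntervalIntegrable.mul_continuousOn ?_ hc.continuousOn
      have hmono : Monotone fun θ : ℝ => (fl n θ : ℝ) := by
        intro x y hxy
        have : fl n x ≤ fl n y := by
          unfold fl
          apply Int.floor_le_floor
          have hn : (0 : ℝ) ≤ n := Nat.cast_nonneg n
          nlinarith [mul_le_mul_of_nonneg_left hxy hn]
        exact Int.cast_le.2 this
      exact hmono.intervalIntegrable
    simp_rw [e1]
    rw [intervalIntegral.integral_finsetSum hint]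
    have e2 : ∀ n ∈ A, ∫ θ in (0 : ℝ)..(1 / 2), (m n : ℝ) * ((fl n θ : ℝ) * Real.sin (2 * Real.pi * d * θ)) =
        ((n : ℝ) * m n - (if n ∣ d then (n : ℝ) * m n else 0)) / (4 * Real.pi * d) := by
      intro n hn
      rw [intervalIntegral.integral_const_mul, int_fl n d (hA n hn) hd1]
      split_ifs
      · ring
      · ring
    rw [Finset.sum_congr rfl e2, ← Finset.sum_div, Finset.sum_sub_distrib, ← Finset.sum_filter]
    unfold Gm Sm
    push_cast
    have hpi := Real.pi_ne_zero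
    field_simp
    ring
  rw [Finset.sum_congr rfl fun d hd => by rw [e d hd]] at k
  have e3 : ∀ d : ℕ, (-((Gm A m d : ℝ) / d) / (4 * Real.pi)) ^ 2 = ((Gm A m d : ℝ) / d) ^ 2 / (16 * Real.pi ^ 2) := by
    intro d
    have hpi := Real.pi_ne_zero
    field_simp
    ring
  simp_rw [e3] at k
  rw [← Finset.sum_div, div_le_iff₀ (by positivity)] at k
  have hpi2 : Real.pi ^ 2 ≤ 10 := by
    have h1 := Real.pi_lt_d2
    have h2 := Real.pi_pos
    nlinarith
  have h3 : g ^ 2 / 8 * (16 * Real.pi ^ 2) ≤ 20 * g ^ 2 := by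
    have : 0 ≤ g ^ 2 := sq_nonneg g
    nlinarith
  linarith

theorem rib_bd (P M : List ℕ) (hP : ∀ n ∈ P, n % 2 = 1 ∧ n ≠ 1) (hM : ∀ n ∈ M, n % 2 = 1 ∧ n ≠ 1)
    (hPM : ∀ n ∈ P, n ∉ M) :
    (ribbonGenus (tsum P ++ adj (tsum M)) : ℝ) ≤
      1200 * (sliceGenus (tsum P ++ adj (tsum M)) : ℝ) ^ 2 *
        (1 + Real.log (sliceGenus (tsum P ++ adj (tsum M)) : ℝ)) ^ 2 := by
  set g := sliceGenus (tsum P ++ adj (tsum M)) with hg
  set A := (P ++ M).toFinset with hA
  have hA1 : ∀ n ∈ A, n % 2 = 1 ∧ n ≠ 1 := by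
    intro n hn
    rw [hA, List.mem_toFinset, List.mem_append] at hn
    rcases hn with hn | hn
    · exact hP n hn
    · exact hM n hn
  have hA2 : ∀ n ∈ A, 2 ≤ n := fun n hn => by
    have := hA1 n hn
    omega
  have h1 : ∀ θ : ℝ, 0 ≤ θ → θ < 1 / 2 → |∑ n ∈ A, (mul P M n : ℝ) * (fl n θ : ℝ)| ≤ (g : ℝ) := by
    intro θ h0 h1
    rw [hA, ← ls_fsum]
    have k := lower P M (fun n hn => (hP n hn).1) (fun n hn => (hM n hn).1) θ h0 h1
    rw [← hg] at k
    exact_mod_cast k
  have h2 := w_bd A (mul P M) (fun n hn => (hA1 n hn).1) g (Nat.cast_nonneg g) h1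
  have h3 := moeb A (mul P M) hA2
  have hup := upper_one P M (fun n hn => (hP n hn).1) (fun n hn => (hM n hn).1)
  rcases Nat.eq_zero_or_pos g with hg0 | hg0
  · -- `g = 0`
    have hw : ∀ d : ℕ, d % 2 = 1 → (Gm A (mul P M) d : ℝ) / d = 0 := by
      intro d hd
      have k := h2 {d} (fun e he => by
        rw [Finset.mem_singleton] at he
        rw [he]
        exact hd)
      rw [Finset.sum_singleton, hg0] at k
      have k2 : ((Gm A (mul P M) d : ℝ) / d) ^ 2 ≤ 0 := by
        push_cast at k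
        linarith
      exact pow_eq_zero_iff (two_ne_zero) |>.1 (le_antisymm k2 (sq_nonneg _))
    have hA0 : A = ∅ := by
      rw [Finset.eq_empty_iff_forall_notMem]
      intro n hn
      have k := h3 n hn
      have k2 : ∑ k ∈ n.divisors, |(Gm A (mul P M) (n / k) : ℝ) / ((n / k : ℕ) : ℝ)| / k = 0 := by
        refine Finset.sum_eq_zero fun k hk => ?_
        have hkn := Nat.dvd_of_mem_divisors hk
        have hodd : (n / k) % 2 = 1 := by
          obtain ⟨l, hl⟩ := hkn
          have hk0 : 0 < k := Nat.pos_of_mem_divisors hk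
          rw [hl, Nat.mul_div_cancel_left _ hk0]
          have hno := (hA1 n hn).1
          rw [hl] at hno
          exact Nat.odd_iff.1 (Nat.Odd.of_mul_left (Nat.odd_iff.2 (by rw [mul_comm]; exact hno)))
        rw [hw _ hodd, abs_zero, zero_div]
      rw [k2] at k
      have k3 := ls_ne P M hPM n hn
      have k4 : |(mul P M n : ℝ)| = 0 := le_antisymm k (abs_nonneg _)
      rw [abs_eq_zero] at k4
      exact k3 (by exact_mod_cast k4)
    have hlen := ls_len P M hPM
    rw [← hA, hA0, Finset.sum_empty] at hlen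
    have hsum := ls_sum P M
    rw [← hA, hA0, Finset.sum_empty] at hsum
    have hlen' : (P.length : ℤ) + M.length = 0 := by exact_mod_cast hlen
    rw [hsum, abs_zero, hlen'] at hup
    have h0 : ribbonGenus (tsum P ++ adj (tsum M)) = 0 := by omega
    rw [h0, hg0]
    simp
  · have hg1 : (1 : ℝ) ≤ g := by exact_mod_cast hg0
    have hW : (1 : ℝ) ≤ 20 * (g : ℝ) ^ 2 := by nlinarith
    have k1 := num_bd A (mul P M) (fun d => (Gm A (mul P M) d : ℝ) / d) (20 * (g : ℝ) ^ 2) hW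
      (fun n hn => (hA1 n hn).1) (fun n hn => ls_ne P M hPM n hn) h3 h2
    rw [hA, ← ls_len P M hPM] at k1
    -- the sum
    have k2 := h2 {1} (fun e he => by
      rw [Finset.mem_singleton] at he
      rw [he])
    rw [Finset.sum_singleton, Gm_one A _ hA2] at k2
    have k3 : (((P.sum : ℤ) - M.sum : ℤ) : ℝ) ^ 2 ≤ 20 * (g : ℝ) ^ 2 := by
      rw [ls_sum P M, ← hA]
      unfold Sm at k2
      push_cast at k2 ⊢
      rw [div_one, neg_sq] at k2
      exact k2
    have k4 : |(((P.sum : ℤ) - M.sum : ℤ) : ℝ)| ≤ 5 * g := by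
      refine abs_le_of_sq_le_sq ?_ (by positivity)
      nlinarith
    -- the logarithm
    have hlg : 0 ≤ Real.log (g : ℝ) := Real.log_nonneg hg1
    have hlog : Real.log (4 * (20 * (g : ℝ) ^ 2) + 1) ≤ 4.4 + 2 * Real.log g := by
      have e1 : 4 * (20 * (g : ℝ) ^ 2) + 1 ≤ 81 * (g : ℝ) ^ 2 := by nlinarith
      have e2 : Real.log (4 * (20 * (g : ℝ) ^ 2) + 1) ≤ Real.log (81 * (g : ℝ) ^ 2) :=
        Real.log_le_log (by positivity) e1
      have e3 : Real.log (81 * (g : ℝ) ^ 2) = Real.log 81 + 2 * Real.log g := by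
        rw [Real.log_mul (by norm_num) (by positivity), Real.log_pow]
        push_cast
        ring
      have e4 : Real.log 81 ≤ 4.4 := by
        have e5 : (81 : ℝ) = 3 ^ 4 := by norm_num
        rw [e5, Real.log_pow]
        have e6 : Real.log 3 ≤ 1.1 := by
          rw [Real.log_le_iff_le_exp (by norm_num)]
          have e7 : (3 : ℝ) ≤ 1 + 1.1 + 1.1 ^ 2 / 2 + 1.1 ^ 3 / 6 + 1.1 ^ 4 / 24 + 1.1 ^ 5 / 120 := by norm_num
          have e8 := Real.sum_le_exp_of_nonneg (show (0 : ℝ) ≤ 1.1 by norm_num) 6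
          refine e7.trans (le_trans (le_of_eq ?_) e8)
          rw [Finset.sum_range_succ, Finset.sum_range_succ, Finset.sum_range_succ, Finset.sum_range_succ,
            Finset.sum_range_succ, Finset.sum_range_succ, Finset.sum_range_zero]
          simp only [Nat.factorial]
          norm_num
        push_cast
        linarith
      linarith
    have hH : (1 + Real.log (4 * (20 * (g : ℝ) ^ 2) + 1)) ^ 2 ≤ (5.4 * (1 + Real.log g)) ^ 2 := by
      have e0 : 0 ≤ Real.log (4 * (20 * (g : ℝ) ^ 2) + 1) := Real.log_nonneg (by nlinarith)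
      apply pow_le_pow_left₀ (by linarith)
      nlinarith
    have k5 : (P.length : ℝ) + M.length ≤ 2333 * ((g : ℝ) ^ 2 * (1 + Real.log g) ^ 2) := by
      refine k1.trans ?_
      have e1 : 4 * (20 * (g : ℝ) ^ 2) * (1 + Real.log (4 * (20 * (g : ℝ) ^ 2) + 1)) ^ 2 ≤
          4 * (20 * (g : ℝ) ^ 2) * (5.4 * (1 + Real.log g)) ^ 2 :=
        mul_le_mul_of_nonneg_left hH (by positivity)
      refine e1.trans ?_
      have e2 : 0 ≤ (g : ℝ) ^ 2 * (1 + Real.log g) ^ 2 := by positivity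
      nlinarith
    have k6 : (g : ℝ) ≤ (g : ℝ) ^ 2 * (1 + Real.log g) ^ 2 := by
      have e1 : (1 : ℝ) ≤ (1 + Real.log g) ^ 2 := by nlinarith
      have e2 : (g : ℝ) ≤ (g : ℝ) ^ 2 := by nlinarith
      nlinarith
    have hup' : 2 * (ribbonGenus (tsum P ++ adj (tsum M)) : ℝ) ≤ (P.length : ℝ) + M.length +
        |(((P.sum : ℤ) - M.sum : ℤ) : ℝ)| := by
      have e := (Int.cast_le (R := ℝ)).2 hup
      rw [Int.cast_add, Int.cast_abs] at e
      push_cast at e ⊢
      exact e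
    rw [mul_assoc]
    linarith

end Pool.Agent.Lib.MP_177a0e_gt.LT
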