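import Pool.Agent.Lib.MP_177a0e_gt.LT.BG

/-!
# a linear bound for a fixed number of types.
-/

namespace Pool.Agent.Lib.MP_177a0e_gt.LT

open Pool.Agent.Lib.MP_177a0e_gt.Tangle Pool.Agent.Lib.MP_177a0e_gt.Tangle.Gen
open Pool.Agent.Lib.MP_177a0e_gt.Sig

private theorem BH_range (N : ℕ) : ∑ j ∈ Finset.range (N + 1), (1 : ℝ) / (2 * (j : ℝ) + 1) ^ 2 ≤
    5 / 4 - 1 / (4 * ((N : ℝ) + 1)) := by
  induction N with
  | zero => norm_num
  | succ N ih =>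
    rw [Finset.sum_range_succ]
    have h : (1 : ℝ) / (2 * ((N + 1 : ℕ) : ℝ) + 1) ^ 2 ≤ 1 / (4 * ((N : ℝ) + 1)) - 1 / (4 * (((N + 1 : ℕ) : ℝ) + 1)) := by
      push_cast
      have h1 : (0 : ℝ) ≤ N := Nat.cast_nonneg N
      rw [div_sub_div _ _ (by positivity) (by positivity), div_le_div_iff₀ (by positivity) (by positivity)]
      nlinarith
    linarith

/-- the sum of `1 / k ^ 2` over odd `k` -/
theorem sum_inv_sq (D : Finset ℕ) (hD : ∀ d ∈ D, d % 2 = 1) : ∑ d ∈ D, (1 : ℝ) / (d : ℝ) ^ 2 ≤ 5 / 4 := by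
  have h1 : D ⊆ (Finset.range (D.sup id + 1)).image (fun j : ℕ => 2 * j + 1) := by
    intro d hd
    have h2 := hD d hd
    have h3 : d ≤ D.sup id := Finset.le_sup (f := id) hd
    refine Finset.mem_image.2 ⟨d / 2, Finset.mem_range.2 (by omega), by omega⟩
  have h2 : ∑ d ∈ D, (1 : ℝ) / (d : ℝ) ^ 2 ≤
      ∑ d ∈ (Finset.range (D.sup id + 1)).image (fun j : ℕ => 2 * j + 1), (1 : ℝ) / (d : ℝ) ^ 2 :=
    Finset.sum_le_sum_of_subset_of_nonneg h1 fun _ _ _ => by positivity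
  rw [Finset.sum_image (fun a _ b _ h => by
    have : 2 * a + 1 = 2 * b + 1 := h
    omega)] at h2
  have h3 := BH_range (D.sup id)
  have h4 : (0 : ℝ) ≤ 1 / (4 * (((D.sup id : ℕ) : ℝ) + 1)) := by positivity
  have h5 : ∑ j ∈ Finset.range (D.sup id + 1), (1 : ℝ) / (((2 * j + 1 : ℕ) : ℝ)) ^ 2 =
      ∑ j ∈ Finset.range (D.sup id + 1), (1 : ℝ) / (2 * (j : ℝ) + 1) ^ 2 :=
    Finset.sum_congr rfl fun j _ => by push_cast; rfl
  linarith

/-- each multiplicity is at most `5 g` -/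
theorem mult_bd (A : Finset ℕ) (m : ℕ → ℤ) (hA : ∀ n ∈ A, n % 2 = 1) (hA2 : ∀ n ∈ A, 2 ≤ n) (g : ℝ) (hg : 0 ≤ g)
    (h : ∀ θ : ℝ, 0 ≤ θ → θ < 1 / 2 → |∑ n ∈ A, (m n : ℝ) * (fl n θ : ℝ)| ≤ g) (n : ℕ) (hn : n ∈ A) :
    |(m n : ℝ)| ≤ 5 * g := by
  have hodd : ∀ k ∈ n.divisors, k % 2 = 1 := by
    intro k hk
    obtain ⟨l, hl⟩ := Nat.dvd_of_mem_divisors hk
    have hno := hA n hn
    rw [hl] at hno
    exact Nat.odd_iff.1 (Nat.Odd.of_mul_left (Nat.odd_iff.2 hno))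
  have h1 := moeb A m hA2 n hn
  have h2 := Finset.sum_mul_sq_le_sq_mul_sq n.divisors (fun k => |(Gm A m (n / k) : ℝ) / ((n / k : ℕ) : ℝ)|)
    (fun k => 1 / (k : ℝ))
  have h3 : ∑ k ∈ n.divisors, |(Gm A m (n / k) : ℝ) / ((n / k : ℕ) : ℝ)| ^ 2 ≤ 20 * g ^ 2 := by
    rw [Nat.sum_div_divisors n fun d => |(Gm A m d : ℝ) / ((d : ℕ) : ℝ)| ^ 2]
    simp_rw [sq_abs]
    exact w_bd A m hA g hg h n.divisors hodd
  have h4 : ∑ k ∈ n.divisors, (1 / (k : ℝ)) ^ 2 ≤ 5 / 4 := by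
    simp_rw [div_pow, one_pow]
    exact sum_inv_sq _ hodd
  have h5 : 0 ≤ ∑ k ∈ n.divisors, (1 / (k : ℝ)) ^ 2 := Finset.sum_nonneg fun _ _ => by positivity
  have h6 : (∑ k ∈ n.divisors, |(Gm A m (n / k) : ℝ) / ((n / k : ℕ) : ℝ)| * (1 / (k : ℝ))) ^ 2 ≤ (5 * g) ^ 2 := by
    refine h2.trans ?_
    have h7 := mul_le_mul h3 h4 h5 (by positivity)
    refine h7.trans (le_of_eq ?_)
    ring
  have h8 := abs_le_of_sq_le_sq h6 (by positivity)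
  refine h1.trans (le_trans (le_of_eq (Finset.sum_congr rfl fun k _ => ?_)) ((le_abs_self _).trans h8))
  ring

theorem lin_bd (P M : List ℕ) (hP : ∀ n ∈ P, n % 2 = 1 ∧ n ≠ 1) (hM : ∀ n ∈ M, n % 2 = 1 ∧ n ≠ 1)
    (hPM : ∀ n ∈ P, n ∉ M) :
    2 * ribbonGenus (tsum P ++ adj (tsum M)) ≤
      5 * ((P ++ M).toFinset.card + 1) * sliceGenus (tsum P ++ adj (tsum M)) := by
  set g := sliceGenus (tsum P ++ adj (tsum M)) with hg
  set A := (P ++ M).toFinset with hA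
  have hA1 : ∀ n ∈ A, n % 2 = 1 ∧ n ≠ 1 := by
    intro n hn
    rw [hA, List.mem_toFinset, List.mem_append] at hn
    rcases hn with hn | hn
    · exact hP n hn
    · exact hM n hn
  have hA2 : ∀ n ∈ A, 2 ≤ n := fun n hn => by
    have := hA1 n hn
    omega
  have h1 : ∀ θ : ℝ, 0 ≤ θ → θ < 1 / 2 → |∑ n ∈ A, (mul P M n : ℝ) * (fl n θ : ℝ)| ≤ (g : ℝ) := by
    intro θ h0 h1
    rw [hA, ← ls_fsum]
    have k := lower P M (fun n hn => (hP n hn).1) (fun n hn => (hM n hn).1) θ h0 h1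
    rw [← hg] at k
    exact_mod_cast k
  have hup := upper_one P M (fun n hn => (hP n hn).1) (fun n hn => (hM n hn).1)
  have k0 := mult_bd A (mul P M) (fun n hn => (hA1 n hn).1) hA2 g (Nat.cast_nonneg g) h1
  have k1 : (P.length : ℝ) + M.length ≤ 5 * A.card * g := by
    rw [ls_len P M hPM, ← hA]
    refine (Finset.sum_le_card_nsmul A _ _ k0).trans (le_of_eq ?_)
    rw [nsmul_eq_mul]
    ring
  have k2 := w_bd A (mul P M) (fun n hn => (hA1 n hn).1) g (Nat.cast_nonneg g) h1 {1} (fun e he => by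
    rw [Finset.mem_singleton] at he
    rw [he])
  rw [Finset.sum_singleton, Gm_one A _ hA2] at k2
  have k3 : (((P.sum : ℤ) - M.sum : ℤ) : ℝ) ^ 2 ≤ 20 * (g : ℝ) ^ 2 := by
    rw [ls_sum P M, ← hA]
    unfold Sm at k2
    push_cast at k2 ⊢
    rw [div_one, neg_sq] at k2
    exact k2
  have k4 : |(((P.sum : ℤ) - M.sum : ℤ) : ℝ)| ≤ 5 * g := by
    refine abs_le_of_sq_le_sq ?_ (by positivity)
    nlinarith [sq_nonneg (g : ℝ)]
  have hup' : 2 * (ribbonGenus (tsum P ++ adj (tsum M)) : ℝ) ≤ (P.length : ℝ) + M.length +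
      |(((P.sum : ℤ) - M.sum : ℤ) : ℝ)| := by
    have e := (Int.cast_le (R := ℝ)).2 hup
    rw [Int.cast_add, Int.cast_abs] at e
    push_cast at e ⊢
    exact e
  have h9 : 2 * (ribbonGenus (tsum P ++ adj (tsum M)) : ℝ) ≤ 5 * ((A.card : ℝ) + 1) * g := by linarith
  exact_mod_cast h9

end Pool.Agent.Lib.MP_177a0e_gt.LT
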