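import Pool.Agent.Lib.MP_177a0e_gt.LT.Lw
import Pool.Agent.Lib.MP_177a0e_gt.LT.UC

/-!
# a criterion for the equality of the two genera.
-/

namespace Pool.Agent.Lib.MP_177a0e_gt.LT

open Pool.Agent.Lib.MP_177a0e_gt.Tangle Pool.Agent.Lib.MP_177a0e_gt.Tangle.Gen
open Pool.Agent.Lib.MP_177a0e_gt.Sig

theorem crit (G : List (List ℕ × List ℕ)) (h : ∀ t ∈ G, t.1 ≠ [] ∧ t.2.sum ≤ t.1.sum)
    (h' : ∀ t ∈ G, (∀ n ∈ t.1, n % 2 = 1) ∧ ∀ n ∈ t.2, n % 2 = 1) (P M : List ℕ) (hP : (G.map Prod.fst).flatten = P)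
    (hM : (G.map Prod.snd).flatten = M) (θ : ℝ) (h0 : 0 ≤ θ) (h1 : θ < 1 / 2)
    (h2 : 2 * |fsum P θ - fsum M θ| = (G.map fun t => (t.1.length : ℤ) + t.2.length + t.1.sum - t.2.sum - 2).sum) :
    ribbonGenus (tsum P ++ adj (tsum M)) = sliceGenus (tsum P ++ adj (tsum M)) ∧
      (sliceGenus (tsum P ++ adj (tsum M)) : ℤ) = |fsum P θ - fsum M θ| := by
  have hP' : ∀ n ∈ P, n % 2 = 1 := by
    intro n hn
    rw [← hP, List.mem_flatten] at hn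
    obtain ⟨l, hl, hn⟩ := hn
    obtain ⟨t, ht, rfl⟩ := List.mem_map.1 hl
    exact (h' t ht).1 n hn
  have hM' : ∀ n ∈ M, n % 2 = 1 := by
    intro n hn
    rw [← hM, List.mem_flatten] at hn
    obtain ⟨l, hl, hn⟩ := hn
    obtain ⟨t, ht, rfl⟩ := List.mem_map.1 hl
    exact (h' t ht).2 n hn
  have k1 := upper G h h'
  rw [hP, hM, ← h2] at k1
  have k2 := lower P M hP' hM' θ h0 h1
  have k3 : sliceGenus (tsum P ++ adj (tsum M)) ≤ ribbonGenus (tsum P ++ adj (tsum M)) :=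
    sliceGenus_le_ribbonGenus ⟨_, (tsum_knot _ hP').append (tsum_knot _ hM').adj⟩
  have k4 : (sliceGenus (tsum P ++ adj (tsum M)) : ℤ) ≤ ribbonGenus (tsum P ++ adj (tsum M)) := by exact_mod_cast k3
  refine ⟨?_, by linarith⟩
  have : (ribbonGenus (tsum P ++ adj (tsum M)) : ℤ) = sliceGenus (tsum P ++ adj (tsum M)) := by linarith
  exact_mod_cast this

end Pool.Agent.Lib.MP_177a0e_gt.LT
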