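import Pool.Agent.Lib.MP_177a0e_gt.Sig.Defs

/-!
The Levine–Tristram signatures of tangle words, by Kashaev's symmetric matrix.

The gaps, the levels and the states `x j i` (level `j`, gap `i`) are those of `Sig/Defs.lean`; now all
gaps carry values. At a crossing let `l`, `r`, `m`, `t` be the values of the gaps on the left, on the
right, below and above. The strands have the same direction: `A = l + r + c (t + m)`, `B = t - m`; they
have different directions: `A = t + m + c (l + r)`, `B = l - r`. The form is the sum over the crossings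
of `± (A ^ 2 - (1 - c ^ 2) B ^ 2)`, `±` the sign of the crossing. For `c = cos (θ / 2)` its signature minus
the writhe is `-2` times the Levine–Tristram signature at `exp (i θ)`.

Colourings (`colZ`): at every crossing (values of the two sides) `+ v (value in front) + u (value behind)
= 0` for a positive crossing, `u`, `v` exchanged for a negative one, `u v = 1`. They are used for
`u = c + δ`, `v = c - δ`, `δ ^ 2 = c ^ 2 - 1`.
-/

namespace Pool.Agent.Lib.MP_177a0e_gt.LT

open Pool.Agent.Lib.MP_177a0e_gt.Tangle Pool.Agent.Lib.MP_177a0e_gt.Tangle.Gen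
open Pool.Agent.Lib.MP_177a0e_gt.Sig

/-- the sign of a crossing -/
def sn (s : Slice) : ℤ :=
  match s.gen with
  | cross c x y => if x = y then sz c else -sz c
  | _ => 0

/-- the writhe -/
def wr (w : Word) : ℤ := (w.map sn).sum

/-! ### The form -/

/-- the first functional at a crossing -/
def kA (c : ℚ) (s : Slice) (x y : ℕ → ℚ) : ℚ :=
  match s.gen with
  | cross _ a b => if a = b then x (lp s) + x (lp s + 2) + c * (y (lp s + 1) + x (lp s + 1))
      else y (lp s + 1) + x (lp s + 1) + c * (x (lp s) + x (lp s + 2))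
  | _ => 0

/-- the second functional at a crossing -/
def kB (s : Slice) (x y : ℕ → ℚ) : ℚ :=
  match s.gen with
  | cross _ a b => if a = b then y (lp s + 1) - x (lp s + 1) else x (lp s) - x (lp s + 2)
  | _ => 0

/-- the form at a slice -/
def kl (c : ℚ) (s : Slice) (x y x' y' : ℕ → ℚ) : ℚ :=
  (sn s : ℚ) * (kA c s x y * kA c s x' y' - (1 - c ^ 2) * (kB s x y * kB s x' y'))

/-- the form: the sum over the slices -/
def kq (c : ℚ) : Word → (ℕ → ℕ → ℚ) → (ℕ → ℕ → ℚ) → ℚ
  | [], _, _ => 0
  | s :: w, x, y => kl c s (x 0) (x 1) (y 0) (y 1) + kq c w (sh 1 x) (sh 1 y)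

theorem kA_add (c : ℚ) (s : Slice) (x y x' y' : ℕ → ℚ) : kA c s (x + x') (y + y') = kA c s x y + kA c s x' y' := by
  rcases s with ⟨p, _ | _ | _, q⟩ <;> simp only [kA, Pi.add_apply]
  · rw [add_zero]
  · rw [add_zero]
  · split_ifs <;> ring

theorem kA_smul (c : ℚ) (s : Slice) (r : ℚ) (x y : ℕ → ℚ) : kA c s (r • x) (r • y) = r * kA c s x y := by
  rcases s with ⟨p, _ | _ | _, q⟩ <;> simp only [kA, Pi.smul_apply, smul_eq_mul]
  · rw [mul_zero]
  · rw [mul_zero]
  · split_ifs <;> ring

theorem kB_add (s : Slice) (x y x' y' : ℕ → ℚ) : kB s (x + x') (y + y') = kB s x y + kB s x' y' := by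
  rcases s with ⟨p, _ | _ | _, q⟩ <;> simp only [kB, Pi.add_apply]
  · rw [add_zero]
  · rw [add_zero]
  · split_ifs <;> ring

theorem kB_smul (s : Slice) (r : ℚ) (x y : ℕ → ℚ) : kB s (r • x) (r • y) = r * kB s x y := by
  rcases s with ⟨p, _ | _ | _, q⟩ <;> simp only [kB, Pi.smul_apply, smul_eq_mul]
  · rw [mul_zero]
  · rw [mul_zero]
  · split_ifs <;> ring

theorem kq_comm (c : ℚ) (w : Word) : ∀ x y : ℕ → ℕ → ℚ, kq c w x y = kq c w y x := by
  induction w with
  | nil => intro x y; rfl
  | cons s w ih =>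
    intro x y
    simp only [kq, kl]
    rw [ih (sh 1 x) (sh 1 y)]
    ring

theorem kq_add (c : ℚ) (w : Word) : ∀ x x' y : ℕ → ℕ → ℚ, kq c w (x + x') y = kq c w x y + kq c w x' y := by
  induction w with
  | nil => intro x x' y; simp [kq]
  | cons s w ih =>
    intro x x' y
    have h : sh 1 (x + x') = sh 1 x + sh 1 x' := rfl
    simp only [kq, kl]
    rw [h, ih, Pi.add_apply, Pi.add_apply, kA_add, kB_add]
    ring

theorem kq_smul (c : ℚ) (w : Word) (r : ℚ) : ∀ x y : ℕ → ℕ → ℚ, kq c w (r • x) y = r * kq c w x y := by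
  induction w with
  | nil => intro x y; simp [kq]
  | cons s w ih =>
    intro x y
    have h : sh 1 (r • x) = r • sh 1 x := rfl
    simp only [kq, kl]
    rw [h, ih, Pi.smul_apply, Pi.smul_apply, kA_smul, kB_smul]
    ring

/-- the form as a bilinear form -/
def kform (c : ℚ) (w : Word) : LinearMap.BilinForm ℚ (ℕ → ℕ → ℚ) :=
  LinearMap.mk₂ ℚ (kq c w) (kq_add c w) (fun r x y => by rw [kq_smul, smul_eq_mul])
    (fun x y y' => by rw [kq_comm, kq_add, kq_comm c w y, kq_comm c w y'])
    (fun r x y => by rw [kq_comm, kq_smul, kq_comm c w y, smul_eq_mul])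

theorem kform_apply (c : ℚ) (w : Word) (x y : ℕ → ℕ → ℚ) : kform c w x y = kq c w x y := rfl

theorem kform_symm (c : ℚ) (w : Word) (x y : ℕ → ℕ → ℚ) : kform c w x y = kform c w y x := kq_comm c w x y

/-- the states of a word -/
abbrev Sr (w : Word) : Submodule ℚ (ℕ → ℕ → ℚ) := Runs (fitM ℚ) ⊤ w

/-- the states of a word with the bottom level zero -/
abbrev St (w : Word) : Submodule ℚ (ℕ → ℕ → ℚ) := Closed (fitM ℚ) ⊤ w

/-- the form on the states with the bottom level zero -/
abbrev kw (c : ℚ) (w : Word) : LinearMap.BilinForm ℚ (St w) := (kform c w).restrict (St w)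

/-- the signature of the form minus the writhe: `-2` times the Levine–Tristram signature at
`exp (i θ)`, `c = cos (θ / 2)` -/
noncomputable def ksig (c : ℚ) (w : Word) : ℤ := sg (kw c w) - wr w

/-- the states of `a` and of `b` with the same bottom and top levels correspond to each other, and so do
the forms -/
def KIso (c : ℚ) (a b : Word) : Prop := ∃ Φ : Sr a ≃ₗ[ℚ] Sr b, ∀ t : Sr a, (Φ t).1 0 = t.1 0 ∧
  (Φ t).1 b.length = t.1 a.length ∧ ∀ t' : Sr a, kq c b (Φ t).1 (Φ t').1 = kq c a t.1 t'.1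

/-- the states of `a` are those of `b` and one more variable, with the form `ε r ^ 2` -/
def KAdd (c : ℚ) (ε : ℤ) (a b : Word) : Prop := ∃ Φ : Sr a ≃ₗ[ℚ] Sr b × ℚ, ∀ t : Sr a,
  (Φ t).1.1 0 = t.1 0 ∧ (Φ t).1.1 b.length = t.1 a.length ∧
    ∀ t' : Sr a, kq c a t.1 t'.1 = kq c b (Φ t).1.1 (Φ t').1.1 + (ε : ℚ) * ((Φ t).2 * (Φ t').2)

/-- the form on pairs of states -/
def kp (c : ℚ) (u v : Word) (k : ℕ) : LinearMap.BilinForm ℚ (Pair (fitM ℚ) ⊤ u v k) :=
  LinearMap.mk₂ ℚ (fun p q => kq c u p.1.1 q.1.1 + kq c v p.1.2 q.1.2)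
    (fun p p' q => by
      simp only [Submodule.coe_add, Prod.fst_add, Prod.snd_add, kq_add]
      ring)
    (fun r p q => by
      simp only [Submodule.coe_smul, Prod.smul_fst, Prod.smul_snd, kq_smul, smul_eq_mul]
      ring)
    (fun p q q' => by
      simp only [Submodule.coe_add, Prod.fst_add, Prod.snd_add]
      rw [kq_comm c u, kq_comm c v, kq_add, kq_add, kq_comm c u q.1.1, kq_comm c v q.1.2, kq_comm c u q'.1.1, kq_comm c v q'.1.2]
      ring)
    (fun r p q => by
      simp only [Submodule.coe_smul, Prod.smul_fst, Prod.smul_snd]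
      rw [kq_comm c u, kq_comm c v, kq_smul, kq_smul, kq_comm c u q.1.1, kq_comm c v q.1.2]
      simp only [smul_eq_mul]
      ring)

/-! ### Colourings -/

section Col

variable {R : Type} [Field R]

/-- the value above a crossing, from the values on the left, below and on the right, for a crossing
of strands with the directions `a`, `b` -/
def zt (P Q : R) : Bool → Bool → R → R → R → R
  | true, true, l, m, r => -(P * (l + r + P * m))
  | false, false, l, m, r => -(Q * (l + r + Q * m))
  | true, false, l, m, r => -(m + Q * r + P * l)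
  | false, true, l, m, r => -(m + Q * l + P * r)

/-- the condition on colourings at a slice -/
def CZ (u v : R) (s : Slice) (x y : ℕ → R) : Prop :=
  match s.gen with
  | cross _ a b => y (lp s + 1) =
      if sn s = 1 then zt u v a b (x (lp s)) (x (lp s + 1)) (x (lp s + 2))
      else zt v u a b (x (lp s)) (x (lp s + 1)) (x (lp s + 2))
  | _ => True

theorem zt_add (P Q : R) (a b : Bool) (l m r l' m' r' : R) :
    zt P Q a b (l + l') (m + m') (r + r') = zt P Q a b l m r + zt P Q a b l' m' r' := by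
  cases a <;> cases b <;> simp only [zt] <;> ring

theorem zt_smul (P Q : R) (a b : Bool) (k l m r : R) :
    zt P Q a b (k * l) (k * m) (k * r) = k * zt P Q a b l m r := by
  cases a <;> cases b <;> simp only [zt] <;> ring

/-- `CZ` as a linear relation -/
def colZ (u v : R) (s : Slice) : Submodule R ((ℕ → R) × (ℕ → R)) where
  carrier := {p | Fit s p.1 p.2 ∧ CZ u v s p.1 p.2}
  add_mem' := by
    rintro ⟨a, b⟩ ⟨c, d⟩ ⟨h1, h1'⟩ ⟨h2, h2'⟩
    refine ⟨(fitM R s).add_mem h1 h2, ?_⟩
    rcases s with ⟨p, _ | _ | ⟨s, x, y⟩, q⟩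
    · trivial
    · trivial
    · simp only [CZ] at h1' h2' ⊢
      simp only [Prod.mk_add_mk, Pi.add_apply]
      rw [h1', h2']
      split_ifs <;> rw [zt_add]
  zero_mem' := by
    refine ⟨(fitM R s).zero_mem, ?_⟩
    rcases s with ⟨p, _ | _ | ⟨s, x, y⟩, q⟩
    · trivial
    · trivial
    · have h : ∀ P Q : R, zt P Q x y 0 0 0 = 0 := by
        intro P Q
        cases x <;> cases y <;> simp [zt]
      simp [CZ, h]
  smul_mem' := by
    rintro r ⟨a, b⟩ ⟨h1, h1'⟩
    refine ⟨(fitM R s).smul_mem r h1, ?_⟩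
    rcases s with ⟨p, _ | _ | ⟨s, x, y⟩, q⟩
    · trivial
    · trivial
    · simp only [CZ] at h1' ⊢
      simp only [Prod.smul_mk, Pi.smul_apply, smul_eq_mul]
      rw [h1']
      split_ifs <;> rw [zt_smul]

/-- the colourings of a word -/
abbrev Zr (u v : R) (w : Word) : Submodule R (ℕ → ℕ → R) := Runs (colZ u v) ⊤ w

/-- the colourings of a word with the bottom level zero -/
abbrev Zc (u v : R) (w : Word) : Submodule R (ℕ → ℕ → R) := Closed (colZ u v) ⊤ w

/-- the colourings of `a` and of `b` with the same bottom and top levels correspond to each other -/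
def ZIso (u v : R) (a b : Word) : Prop := ∃ Φ : Zr u v a ≃ₗ[R] Zr u v b, ∀ t : Zr u v a,
  (Φ t).1 0 = t.1 0 ∧ (Φ t).1 b.length = t.1 a.length

/-- the colourings of `a` are those of `b` and one more variable -/
def ZAdd (u v : R) (a b : Word) : Prop := ∃ Φ : Zr u v a ≃ₗ[R] Zr u v b × R, ∀ t : Zr u v a,
  (Φ t).1.1 0 = t.1 0 ∧ (Φ t).1.1 b.length = t.1 a.length

end Col

/-! ### The imaginary quadratic field -/

/-- `ℚ (δ)`, `δ ^ 2 = c ^ 2 - 1` -/
abbrev QE (c : ℚ) : Type := QuadraticAlgebra ℚ (c ^ 2 - 1) 0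

/-- `u = c + δ` -/
def uE (c : ℚ) : QE c := ⟨c, 1⟩

/-- `v = c - δ` -/
def vE (c : ℚ) : QE c := ⟨c, -1⟩

theorem uv (c : ℚ) : uE c * vE c = 1 := by
  ext
  · simp [uE, vE, QuadraticAlgebra.re_one]
    ring
  · simp [uE, vE, QuadraticAlgebra.im_one]

/-- the real part of a state -/
def reS {c : ℚ} (z : ℕ → ℕ → QE c) : ℕ → ℕ → ℚ := fun j i => (z j i).re

/-- the contribution of a strand with the direction `d` to the boundary term of a level; `zl`, `zr` are the
values of a colouring on its left and right, `wl`, `wr` those of a state -/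
def oms (c : ℚ) (d : Bool) (zl zr : QE c) (wl wr : ℚ) : ℚ :=
  if d then -((1 - c ^ 2) * ((c * zl.im - zl.re) * wl + zl.im * wr + zr.im * wl + (c * zr.im + zr.re) * wr))
  else (1 - c ^ 2) * ((c * zr.im - zr.re) * wr + zr.im * wl + zl.im * wr + (c * zl.im + zl.re) * wl)

/-- the boundary term of a level -/
def om (c : ℚ) : List Bool → (ℕ → QE c) → (ℕ → ℚ) → ℚ
  | [], _, _ => 0
  | d :: e, z, w => oms c d (z 0) (z 1) (w 0) (w 1) + om c e (fun i => z (i + 1)) (fun i => w (i + 1))

/-- the rational numbers `c` in `[0, 1)` with even numerator and odd denominator -/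
class Adm (c : ℚ) : Prop where
  /-- `0 ≤ c` -/
  nonneg : 0 ≤ c
  /-- `c < 1` -/
  lt_one : c < 1
  /-- the numerator is even -/
  num : c.num % 2 = 0
  /-- the denominator is odd -/
  den : c.den % 2 = 1

instance adm_fact (c : ℚ) [h : Adm c] : Fact (∀ r : ℚ, r ^ 2 ≠ (c ^ 2 - 1) + 0 * r) := ⟨fun r hr => by
  have h1 := h.nonneg
  have h2 := h.lt_one
  nlinarith [sq_nonneg r, mul_nonneg h1 (sub_nonneg.2 h2.le)]⟩

/-- the nullity: the dimension of the space of colourings over `ℚ (δ)` -/
noncomputable def zn (c : ℚ) [Adm c] (w : Word) : ℕ := Module.finrank (QE c) (Zc (uE c) (vE c) w)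

end Pool.Agent.Lib.MP_177a0e_gt.LT
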