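import Pool.Agent.Lib.MP_177a0e_gt.LT.TorD

/-!
# admissible rational numbers near a given angle.

* `ex_adm`: between two real numbers `0 ≤ x < y ≤ 1` there is a rational number with even numerator and odd denominator in `(0, 1)`: choose an odd `d` with `d (y - x) > 2`; there is an even integer `2 a` with `d x < 2 a < d y` (`a = ⌊d x / 2⌋ + 1`); `c = 2 a / d`; in lowest terms the numerator is still even and the denominator odd
  (`Rat.divInt`, `Rat.num_div_den`: `c.num * d = 2 a * c.den`; `c.den ∣ d`, so `c.den` is odd, and `c.num` is even).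
* `dense`: for `1 ≤ n ≤ N` let `ε_n = (⌊2 n θ⌋ + 1 - 2 n θ) / (2 n) > 0`, and `ε` the minimum of the `ε_n` and `1 / 2 - θ` (a finite minimum: by induction on `N`, or `Finset.exists_min_image`). For `θ < x < θ + ε`: `2 n x` is strictly between the integers `⌊2 n θ⌋` and `⌊2 n θ⌋ + 1`, so it is not an integer, `sin (2 n π x) ≠ 0` (`Real.sin_eq_zero_iff`), and
  `fl n x = ⌊(2 n x + 1) / 2⌋ = ⌊(2 n θ + 1) / 2⌋` (`⌊y / 2⌋ = ⌊y⌋ / 2` for the integer division: `Int.floor_div_ofNat` or directly: `m ≤ n x + 1 / 2 ↔ 2 m - 1 ≤ 2 n x ↔ 2 m - 1 ≤ ⌊2 n x⌋` for integers `m`). `n = 0`: `fl 0 x = 0`.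
  `cos (π (θ + ε)) < cos (π θ)` (`Real.strictAntiOn_cos`), both in `[0, 1]`: take `c` between them by `ex_adm` and `θ' = arccos c / π`.
-/

namespace Pool.Agent.Lib.MP_177a0e_gt.LT

open Pool.Agent.Lib.MP_177a0e_gt.Tangle Pool.Agent.Lib.MP_177a0e_gt.Tangle.Gen
open Pool.Agent.Lib.MP_177a0e_gt.Sig

theorem ex_adm (x y : ℝ) (h0 : 0 ≤ x) (h1 : x < y) (h2 : y ≤ 1) : ∃ c : ℚ, Adm c ∧ x < c ∧ (c : ℝ) < y := by
  obtain ⟨m, hm⟩ := exists_nat_gt (2 / (y - x))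
  have hyx : 0 < y - x := sub_pos.2 h1
  have hd : (2 : ℝ) < (2 * m + 1) * (y - x) := by
    rw [div_lt_iff₀ hyx] at hm
    have h3 : (0 : ℝ) ≤ m * (y - x) := mul_nonneg (Nat.cast_nonneg _) hyx.le
    nlinarith
  have hd0 : (0 : ℝ) < 2 * m + 1 := by positivity
  have ha1 : (2 * m + 1) * x / 2 < ⌊(2 * m + 1) * x / 2⌋ + 1 := Int.lt_floor_add_one _
  have ha2 : (⌊(2 * m + 1) * x / 2⌋ : ℝ) ≤ (2 * m + 1) * x / 2 := Int.floor_le _
  have ha3 : 0 ≤ ⌊(2 * m + 1) * x / 2⌋ := Int.floor_nonneg.2 (by positivity)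
  obtain ⟨a, ha⟩ : ∃ a : ℤ, a = ⌊(2 * m + 1) * x / 2⌋ + 1 := ⟨_, rfl⟩
  have ha4 : (2 * m + 1) * x < 2 * (a : ℝ) := by
    rw [ha]
    push_cast
    linarith
  have ha5 : 2 * (a : ℝ) < (2 * m + 1) * y := by
    rw [ha]
    push_cast
    nlinarith
  have ha6 : 0 < a := by omega
  obtain ⟨c, hc⟩ : ∃ c : ℚ, c = ((2 * a : ℤ) : ℚ) / ((2 * m + 1 : ℤ) : ℚ) := ⟨_, rfl⟩
  have hcR : (c : ℝ) = 2 * a / (2 * m + 1) := by
    rw [hc]
    push_cast
    rfl
  have hc1 : x < c := by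
    rw [hcR, lt_div_iff₀ hd0]
    linarith
  have hc2 : (c : ℝ) < y := by
    rw [hcR, div_lt_iff₀ hd0]
    linarith
  have hden : (c.den : ℤ) ∣ 2 * m + 1 := by
    rw [hc, ← Rat.divInt_eq_div]
    exact Rat.den_dvd _ _
  have hodd : Odd (c.den : ℤ) := by
    obtain ⟨k, hk⟩ := hden
    have h3 : Odd ((c.den : ℤ) * k) := by
      rw [← hk]
      exact ⟨m, rfl⟩
    exact (Int.odd_mul.1 h3).1
  have hnum : Even c.num := by
    have h3 : (c.num : ℚ) * ((2 * m + 1 : ℤ) : ℚ) = ((2 * a : ℤ) : ℚ) * (c.den : ℚ) := by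
      have h4 : ((2 * m + 1 : ℤ) : ℚ) ≠ 0 := by
        have h5 : (2 * m + 1 : ℤ) ≠ 0 := by omega
        exact_mod_cast h5
      have h5 : (c.den : ℚ) ≠ 0 := by exact_mod_cast c.den_ne_zero
      have h6 : (c.num : ℚ) / c.den = ((2 * a : ℤ) : ℚ) / ((2 * m + 1 : ℤ) : ℚ) := by
        rw [Rat.num_div_den]
        exact hc
      rwa [div_eq_div_iff h5 h4] at h6
    have h4 : c.num * (2 * m + 1) = 2 * a * c.den := by exact_mod_cast h3
    have h5 : Even (c.num * (2 * m + 1)) := by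
      rw [h4, mul_assoc]
      exact even_two_mul _
    rcases Int.even_mul.1 h5 with h6 | h6
    · exact h6
    · exact absurd h6 (by rw [Int.not_even_iff_odd]; exact ⟨m, rfl⟩)
  refine ⟨c, ⟨?_, ?_, ?_, ?_⟩, hc1, hc2⟩
  · have h3 : (0 : ℝ) ≤ c := h0.trans hc1.le
    exact_mod_cast h3
  · have h3 : (c : ℝ) < 1 := hc2.trans_le h2
    exact_mod_cast h3
  · exact Int.even_iff.1 hnum
  · have h3 := Int.odd_iff.1 hodd
    omega

theorem dense (θ : ℝ) (h0 : 0 ≤ θ) (h1 : θ < 1 / 2) (N : ℕ) : ∃ (c : ℚ) (θ' : ℝ), Adm c ∧ 0 < θ' ∧ θ' < 1 / 2 ∧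
    (c : ℝ) = Real.cos (Real.pi * θ') ∧ (∀ k : ℕ, 1 ≤ k → k ≤ N → Real.sin (2 * k * (Real.pi * θ')) ≠ 0) ∧
    ∀ n ≤ N, fl n θ' = fl n θ := by
  have hpi := Real.pi_pos
  -- the neighbourhood
  have hE : ∀ᶠ x in nhds θ, x < 1 / 2 ∧ ∀ n ∈ Finset.range (N + 1),
      ((n : ℝ) * x + 1 / 2 < ⌊(n : ℝ) * θ + 1 / 2⌋ + 1 ∧
        2 * (n : ℝ) * x < ⌊2 * (n : ℝ) * θ⌋ + 1) := by
    refine (eventually_lt_nhds h1).and ?_
    rw [Filter.eventually_all_finset]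
    intro n _
    refine Filter.Eventually.and ?_ ?_
    · refine Filter.Tendsto.eventually_lt_const (Int.lt_floor_add_one _) ?_
      exact ((continuous_const.mul continuous_id).add continuous_const).tendsto θ
    · refine Filter.Tendsto.eventually_lt_const (Int.lt_floor_add_one _) ?_
      exact (continuous_const.mul continuous_id).tendsto θ
  obtain ⟨l, u, ⟨hl, hu⟩, hlu⟩ := mem_nhds_iff_exists_Ioo_subset.1 hE
  obtain ⟨x₁, hx₁, hx₁'⟩ := exists_between hu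
  have hin : ∀ x, θ < x → x ≤ x₁ → x < 1 / 2 ∧ ∀ n ∈ Finset.range (N + 1),
      ((n : ℝ) * x + 1 / 2 < ⌊(n : ℝ) * θ + 1 / 2⌋ + 1 ∧
        2 * (n : ℝ) * x < ⌊2 * (n : ℝ) * θ⌋ + 1) :=
    fun x ha hb => hlu ⟨hl.trans ha, hb.trans_lt hx₁'⟩
  have hx₁h : x₁ < 1 / 2 := (hin x₁ hx₁ le_rfl).1
  have hanti := Real.strictAntiOn_cos
  have m1 : Real.pi * θ ∈ Set.Icc 0 Real.pi := ⟨by positivity, by nlinarith⟩
  have m2 : Real.pi * x₁ ∈ Set.Icc 0 Real.pi := by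
    have h3 : 0 ≤ x₁ := h0.trans hx₁.le
    exact ⟨by positivity, by nlinarith⟩
  have hcos : Real.cos (Real.pi * x₁) < Real.cos (Real.pi * θ) :=
    hanti m1 m2 (by nlinarith)
  have hc0 : 0 ≤ Real.cos (Real.pi * x₁) :=
    Real.cos_nonneg_of_mem_Icc ⟨by nlinarith [m2.1], by nlinarith⟩
  obtain ⟨c, hadm, hc1, hc2⟩ := ex_adm _ _ hc0 hcos (Real.cos_le_one _)
  have hcc : (c : ℝ) = Real.cos (Real.pi * (Real.arccos c / Real.pi)) := by
    rw [mul_div_cancel₀ _ hpi.ne', Real.cos_arccos (by linarith) (by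
      linarith [Real.cos_le_one (Real.pi * θ)])]
  have m3 : Real.pi * (Real.arccos c / Real.pi) ∈ Set.Icc 0 Real.pi := by
    rw [mul_div_cancel₀ _ hpi.ne']
    exact ⟨Real.arccos_nonneg _, Real.arccos_le_pi _⟩
  have hθ1 : θ < Real.arccos c / Real.pi := by
    rw [hcc] at hc2
    have h3 := (hanti.lt_iff_gt m3 m1).1 hc2
    exact lt_of_mul_lt_mul_left h3 hpi.le
  have hθ2 : Real.arccos c / Real.pi < x₁ := by
    rw [hcc] at hc1
    have h3 := (hanti.lt_iff_gt m2 m3).1 hc1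
    exact lt_of_mul_lt_mul_left h3 hpi.le
  obtain ⟨h3, h4⟩ := hin _ hθ1 hθ2.le
  refine ⟨c, Real.arccos c / Real.pi, hadm, h0.trans_lt hθ1, h3, hcc, ?_, ?_⟩
  · intro k hk hkN hs
    obtain ⟨q, hq⟩ := Real.sin_eq_zero_iff.1 hs
    have h5 : (q : ℝ) = 2 * (k : ℝ) * (Real.arccos c / Real.pi) := by
      have h6 : (q : ℝ) * Real.pi = (2 * (k : ℝ) * (Real.arccos c / Real.pi)) * Real.pi := by
        rw [hq]
        ring
      exact mul_right_cancel₀ hpi.ne' h6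
    have h6 := (h4 k (Finset.mem_range.2 (by omega))).2
    rw [← h5] at h6
    have h7 : q < ⌊2 * (k : ℝ) * θ⌋ + 1 := by exact_mod_cast h6
    have h8 : (⌊2 * (k : ℝ) * θ⌋ : ℝ) < q := by
      have h9 : (1 : ℝ) ≤ k := by exact_mod_cast hk
      rw [h5]
      refine (Int.floor_le _).trans_lt ?_
      nlinarith
    have h9 : ⌊2 * (k : ℝ) * θ⌋ < q := by exact_mod_cast h8
    omega
  · intro n hn
    unfold fl
    rw [Int.floor_eq_iff]
    refine ⟨?_, (h4 n (Finset.mem_range.2 (by omega))).1⟩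
    refine (Int.floor_le _).trans ?_
    have h9 : (0 : ℝ) ≤ n := Nat.cast_nonneg n
    nlinarith

end Pool.Agent.Lib.MP_177a0e_gt.LT
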