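import Pool.Agent.Lib.MP_177a0e_gt.LT.Ad
import Pool.Agent.Lib.MP_177a0e_gt.Des.Thm
import Pool.Agent.Lib.MP_177a0e_gt.OneMin

/-!
# movies without births along which a signature drops as much as possible

The invariants are `± 2 signature` and `± ksig c` (`c` as in `Adm`).
-/

namespace Pool.Agent.Lib.MP_177a0e_gt.LT

open Pool.Agent.Lib.MP_177a0e_gt.Tangle Pool.Agent.Lib.MP_177a0e_gt.Tangle.Gen
open Pool.Agent.Lib.MP_177a0e_gt.Sig

/-- `F` is twice the signature or `-2` times a Levine–Tristram signature, up to sign -/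
def Sgn (F : Word → ℤ) : Prop :=
  ∃ ε : ℤ, (ε = 1 ∨ ε = -1) ∧ ((∀ w, F w = ε * (2 * signature w)) ∨ ∃ c : ℚ, Adm c ∧ ∀ w, F w = ε * ksig c w)

/-- There is a movie from `K` to `L` without births, of genus `g` (`d` deaths and `d + 2 g` saddles), and the
invariant `F` drops by `4 g`. -/
def Drop (F : Word → ℤ) (g : ℕ) (K L : Knot) : Prop :=
  (∃ d : ℕ, Cob [true] [true] 0 (d + 2 * g) d K.1 L.1) ∧ F K.1 = F L.1 + 4 * g

theorem sgn_append {F : Word → ℤ} (hF : Sgn F) (K L : Knot) : F (K.1 ++ L.1) = F K.1 + F L.1 := by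
  obtain ⟨ε, _, h | ⟨c, _, h⟩⟩ := hF
  · rw [h, h, h, sig_append K.2.valid L.2.valid]
    ring
  · rw [h, h, h, ksig_append c K.2.valid L.2.valid]
    ring

theorem sgn_slice {F : Word → ℤ} (hF : Sgn F) (K : Knot) : |F K.1| ≤ 4 * sliceGenus K.1 := by
  obtain ⟨ε, hε, h | ⟨c, hc, h⟩⟩ := hF
  · rw [h, abs_mul]
    have e1 : |ε| = 1 := by
      rcases hε with rfl | rfl <;> rfl
    rw [e1, one_mul, abs_mul]
    have e2 := slice_bd K
    have e3 : |(2 : ℤ)| = 2 := rfl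
    rw [e3]
    linarith
  · rw [h, abs_mul]
    have e1 : |ε| = 1 := by
      rcases hε with rfl | rfl <;> rfl
    rw [e1, one_mul]
    exact kslice_bd c K

theorem sgn_adj {F : Word → ℤ} (hF : Sgn F) (K : Knot) : F (adj K.1) = -F K.1 := by
  have h1 := sgn_slice hF ⟨K.1 ++ adj K.1, K.2.append K.2.adj⟩
  have h2 : BoundsRibbon (K.1 ++ adj K.1) 0 := ⟨caps K.1, cob_adj' K.2.valid⟩
  have h3 : sliceGenus (K.1 ++ adj K.1) = 0 :=
    Nat.le_zero.1 ((sliceGenus_le_ribbonGenus ⟨_, K.2.append K.2.adj⟩).trans (Nat.sInf_le h2))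
  have h4 := sgn_append hF K ⟨adj K.1, K.2.adj⟩
  change |F (K.1 ++ adj K.1)| ≤ 4 * (sliceGenus (K.1 ++ adj K.1) : ℤ) at h1
  change F (K.1 ++ adj K.1) = F K.1 + F (adj K.1) at h4
  rw [h3, h4] at h1
  have h5 : |F K.1 + F (adj K.1)| ≤ 0 := by
    push_cast at h1
    linarith
  have h6 := abs_nonpos_iff.1 h5
  linarith

/-- a movie without births of genus `g` from `K` to `L` -/
theorem cob_diff {K L : Knot} {g d : ℕ} (h : Cob [true] [true] 0 (d + 2 * g) d K.1 L.1) :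
    BoundsRibbon (K.1 ++ adj L.1) g :=
  ⟨d + caps L.1, ((h.ctx (u := []) valid_nil L.2.adj.valid).trans (cob_adj' L.2.valid)).cast rfl (by
    show d + 2 * g + caps L.1 = d + caps L.1 + 2 * g
    ring) rfl⟩

theorem sgn_movie {F : Word → ℤ} (hF : Sgn F) {K L : Knot} {g d : ℕ}
    (h : Cob [true] [true] 0 (d + 2 * g) d K.1 L.1) : |F K.1 - F L.1| ≤ 4 * g := by
  have h1 : ribbonGenus (K.1 ++ adj L.1) ≤ g := Nat.sInf_le (cob_diff h)
  have h2 := (sliceGenus_le_ribbonGenus ⟨K.1 ++ adj L.1, K.2.append L.2.adj⟩).trans h1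
  have h3 := sgn_slice hF ⟨K.1 ++ adj L.1, K.2.append L.2.adj⟩
  have h4 := sgn_append hF K ⟨adj L.1, L.2.adj⟩
  change |F (K.1 ++ adj L.1)| ≤ 4 * (sliceGenus (K.1 ++ adj L.1) : ℤ) at h3
  change F (K.1 ++ adj L.1) = F K.1 + F (adj L.1) at h4
  change sliceGenus (K.1 ++ adj L.1) ≤ g at h2
  rw [h4, sgn_adj hF L] at h3
  have h5 : (sliceGenus (K.1 ++ adj L.1) : ℤ) ≤ g := by exact_mod_cast h2
  have h6 : F K.1 - F L.1 = F K.1 + -F L.1 := by ring
  rw [h6]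
  linarith

theorem Drop.trans {F : Word → ℤ} {g h : ℕ} {K L M : Knot} (h1 : Drop F g K L) (h2 : Drop F h L M) :
    Drop F (g + h) K M := by
  obtain ⟨⟨d, hd⟩, e1⟩ := h1
  obtain ⟨⟨d', hd'⟩, e2⟩ := h2
  refine ⟨⟨d + d', (hd.trans hd').cast rfl (by ring) rfl⟩, ?_⟩
  rw [e1, e2]
  push_cast
  ring

theorem Drop.right {F : Word → ℤ} (hF : Sgn F) {g : ℕ} {K L : Knot} (J : Knot) (h : Drop F g K L) :
    Drop F g (K.csum J) (L.csum J) := by
  obtain ⟨⟨d, hd⟩, e1⟩ := h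
  refine ⟨⟨d, hd.ctx (u := []) valid_nil J.2.valid⟩, ?_⟩
  show F (K.1 ++ J.1) = F (L.1 ++ J.1) + 4 * g
  rw [sgn_append hF, sgn_append hF, e1]
  ring

theorem Drop.left {F : Word → ℤ} (hF : Sgn F) {g : ℕ} {K L : Knot} (J : Knot) (h : Drop F g K L) :
    Drop F g (J.csum K) (J.csum L) := by
  obtain ⟨⟨d, hd⟩, e1⟩ := h
  have h2 := hd.ctx J.2.valid valid_nil
  rw [List.append_nil, List.append_nil] at h2
  refine ⟨⟨d, h2⟩, ?_⟩
  show F (J.1 ++ K.1) = F (J.1 ++ L.1) + 4 * g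
  rw [sgn_append hF, sgn_append hF, e1]
  ring

theorem drop_ribbon {F : Word → ℤ} (hF : Sgn F) {g : ℕ} {K L : Knot} (h : Drop F g K L) (hL : ribbonGenus L.1 = 0) :
    ribbonGenus K.1 = g ∧ sliceGenus K.1 = g := by
  obtain ⟨⟨d, h1⟩, h5⟩ := h
  obtain ⟨d', h2⟩ := boundsRibbon_ribbonGenus L
  rw [hL] at h2
  have h3 : BoundsRibbon K.1 g := ⟨d + d', (h1.trans h2).cast rfl (by ring) rfl⟩
  have h4 : ribbonGenus K.1 ≤ g := Nat.sInf_le h3
  have h6 := sgn_slice hF K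
  have h7 := sgn_slice hF L
  have h8 := sliceGenus_le_ribbonGenus L
  have h9 := sliceGenus_le_ribbonGenus K
  rw [abs_le] at h6 h7
  omega

theorem drop_slice {F : Word → ℤ} (hF : Sgn F) {g : ℕ} {K L : Knot} (h : Drop F g K L) (hL : sliceGenus L.1 = 0) :
    sliceGenus K.1 = g := by
  obtain ⟨⟨d, h1⟩, h7⟩ := h
  obtain ⟨m, h2⟩ := exists_sliceGenus L
  rw [hL] at h2
  obtain ⟨R, hR, h3, d', h4⟩ := exists_stabiliser L.2 h2
  have h5 : BoundsRibbon (K.1 ++ R) g :=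
    ⟨d + d', ((h1.ctx (u := []) valid_nil hR.valid).trans h4).cast rfl (by ring) rfl⟩
  have h6 : sliceGenus K.1 ≤ g := Nat.sInf_le ⟨_, of_stabiliser K.2 hR h3 h5⟩
  have h8 := sgn_slice hF K
  have h9 := sgn_slice hF L
  rw [abs_le] at h8 h9
  omega

theorem drop_diff {F : Word → ℤ} (hF : Sgn F) {g : ℕ} {K L : Knot} (h : Drop F g K L) :
    ribbonGenus (csum K.1 (adj L.1)) = g ∧ sliceGenus (csum K.1 (adj L.1)) = g := by
  have h1 : Drop F g (K.csum ⟨adj L.1, L.2.adj⟩) (L.csum ⟨adj L.1, L.2.adj⟩) := h.right hF _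
  have h2 : BoundsRibbon (L.1 ++ adj L.1) 0 := ⟨caps L.1, cob_adj' L.2.valid⟩
  exact drop_ribbon hF h1 (Nat.le_zero.1 (Nat.sInf_le h2))

/-- every knot in the middle of a movie with maximal drop -/
theorem drop_middle {F : Word → ℤ} (hF : Sgn F) {T K L : Knot} {g h d e : ℕ}
    (h1 : Cob [true] [true] 0 (d + 2 * g) d T.1 K.1) (h2 : Cob [true] [true] 0 (e + 2 * h) e K.1 L.1)
    (h3 : F T.1 = F L.1 + 4 * (g + h : ℕ)) : Drop F g T K ∧ Drop F h K L := by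
  have k1 := sgn_movie hF h1
  have k2 := sgn_movie hF h2
  rw [abs_le] at k1 k2
  push_cast at h3
  exact ⟨⟨⟨d, h1⟩, by linarith⟩, ⟨⟨e, h2⟩, by linarith⟩⟩

/-- descents in the sense of `Des` -/
theorem desc_drop {g : ℕ} {K L : Knot} (h : Des.Desc g K L) : Drop (fun w => 2 * signature w) g K L := by
  refine ⟨Des.desc_cob h, ?_⟩
  show 2 * signature K.1 = 2 * signature L.1 + 4 * g
  rw [Des.desc_sig h]
  ring

end Pool.Agent.Lib.MP_177a0e_gt.LT
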