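import Pool.Agent.Lib.MP_177a0e_gt.LT.TorD
import Pool.Agent.Lib.MP_177a0e_gt.Sig.TbK

/-!
# fusion of torus knots, smoothing crossings.

MODELS: `Sig/TbB.lean` (`TbB_app`, `TbB_smooth`, how `Cob.ctx` and `Local` are used), `Sig/TbK.lean`.
* `tk_valid`: `tb_valid`. `tk_knot`: `tb_knot` (`List.count_replicate_self`). `tsum_valid`, `tsum_knot`: induction on the list (`List.map_cons`, `List.flatten_cons`; `Valid.append`, `IsKnot.append`; `[]`: `Relation.EqvGen.refl`).
* `tk_fuse`: `tk n ++ tk m = [cup] ++ tbl (true ^ n) ++ [⟨[true], cap true, []⟩, ⟨[true], cup true, []⟩] ++ tbl (true ^ m) ++ [cap]`; one saddle removes the two slices in the middle (`SaddleRel.mk true [true] []`, backwards: `Cob.saddle (Cob.refl _) (Or.inr (Local.mk ..))`), and `tbl (true ^ n) ++ tbl (true ^ m) = tbl (true ^ (n + m))` (`List.replicate_add`).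
* `tsum_fuse`: induction on the list: `tsum (n :: m :: l) = tk n ++ tsum (m :: l)`, `Cob.ctx` and `Cob.trans`.
* `tk_down`: `k` times `smooth_par` at the first crossing (`TbB_smooth`, private there: copy it): `tk (n + 1) → tk n` with one saddle; induction on `k`.
-/

namespace Pool.Agent.Lib.MP_177a0e_gt.LT

open Pool.Agent.Lib.MP_177a0e_gt.Tangle Pool.Agent.Lib.MP_177a0e_gt.Tangle.Gen
open Pool.Agent.Lib.MP_177a0e_gt.Sig

private theorem UA_app (l l' : List Bool) : tbl (l ++ l') = tbl l ++ tbl l' := by
  induction l with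
  | nil => rfl
  | cons b l ih =>
    cases b
    · show _ :: _ :: tbl (l ++ l') = _
      rw [ih]
      rfl
    · show _ :: tbl (l ++ l') = _
      rw [ih]
      rfl

private theorem UA_tail (l : List Bool) : Valid [true, true, false] (tbl l ++ [⟨[true], cap true, []⟩]) [true] :=
  (tbl_valid l).append (⟨rfl, rfl⟩ : Valid [true, true, false] [⟨[true], cap true, []⟩] [true])

private theorem UA_smooth (l : List Bool) : Cob [true] [true] 0 1 0 (twoBridge (true :: l)) (twoBridge l) := by
  have h1 := smooth_par true true [] [false]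
  have hu : Valid [true] [⟨[true], cup true, []⟩] ([] ++ [true, true] ++ [false]) := ⟨rfl, rfl⟩
  exact h1.ctx hu (UA_tail l)

private theorem UA_cons (n : ℕ) (l : List ℕ) : tsum (n :: l) = tk n ++ tsum l := rfl

theorem tk_valid (n : ℕ) : Valid [true] (tk n) [true] := tb_valid _

theorem tsum_valid (l : List ℕ) : Valid [true] (tsum l) [true] := by
  induction l with
  | nil => exact rfl
  | cons n l ih =>
    rw [UA_cons]
    exact (tk_valid n).append ih

theorem tk_knot (n : ℕ) (h : n % 2 = 1) : IsKnot (tk n) := by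
  apply tb_knot
  rw [List.count_replicate_self]
  exact h

theorem tsum_knot (l : List ℕ) (h : ∀ n ∈ l, n % 2 = 1) : IsKnot (tsum l) := by
  induction l with
  | nil => exact Relation.EqvGen.refl _
  | cons n l ih =>
    rw [UA_cons]
    exact IsKnot.append (tk_knot n (h n List.mem_cons_self))
      (ih fun m hm => h m (List.mem_cons_of_mem _ hm))

theorem tk_fuse (n m : ℕ) : Cob [true] [true] 0 1 0 (tk n ++ tk m) (tk (n + m)) := by
  obtain ⟨u, hu⟩ : ∃ u : Word, u = ⟨[true], cup true, []⟩ :: tbl (List.replicate n true) := ⟨_, rfl⟩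
  obtain ⟨v, hv⟩ : ∃ v : Word, v = tbl (List.replicate m true) ++ [⟨[true], cap true, []⟩] := ⟨_, rfl⟩
  have e1 : tk n ++ tk m = u ++ [⟨[true], cap true, []⟩, ⟨[true], cup true, []⟩] ++ v := by
    rw [hu, hv]
    unfold tk twoBridge
    simp
  have e2 : tk (n + m) = u ++ [] ++ v := by
    rw [hu, hv]
    unfold tk twoBridge
    rw [List.replicate_add, UA_app]
    simp
  have v1 : Valid [true] (u ++ [⟨[true], cap true, []⟩, ⟨[true], cup true, []⟩] ++ v) [true] := by
    rw [← e1]
    exact (tk_valid n).append (tk_valid m)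
  have v2 : Valid [true] (u ++ [] ++ v) [true] := by
    rw [← e2]
    exact tk_valid (n + m)
  rw [e1, e2]
  exact Cob.saddle (Cob.refl v1) (Or.inr (Local.mk u [] _ v (SaddleRel.mk true [true] []) v2 v1))

theorem tsum_fuse (l : List ℕ) (h : l ≠ []) : Cob [true] [true] 0 (l.length - 1) 0 (tsum l) (tk l.sum) := by
  induction l with
  | nil => exact absurd rfl h
  | cons n l ih =>
    rcases l with _ | ⟨m, l⟩
    · have e1 : tsum [n] = tk n := by
        rw [UA_cons]
        exact List.append_nil _
      have e2 : [n].sum = n := by simp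
      rw [e1, e2]
      exact Cob.refl (tk_valid n)
    · have h1 := ih (by simp)
      have h2 := h1.ctx (u := tk n) (v := []) (tk_valid n) (rfl : Valid [true] [] [true])
      rw [List.append_nil, List.append_nil] at h2
      have h3 := h2.trans (tk_fuse n (m :: l).sum)
      rw [UA_cons, List.sum_cons]
      exact h3.cast (by omega) (by simp) (by omega)

theorem tk_down (n k : ℕ) : Cob [true] [true] 0 k 0 (tk (n + k)) (tk n) := by
  induction k with
  | zero => exact Cob.refl (tk_valid n)
  | succ k ih =>
    have h1 : Cob [true] [true] 0 1 0 (tk (n + (k + 1))) (tk (n + k)) :=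
      UA_smooth (List.replicate (n + k) true)
    exact (h1.trans ih).cast (by omega) (by omega) (by omega)

end Pool.Agent.Lib.MP_177a0e_gt.LT
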