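import Pool.Agent.Lib.MP_177a0e_gt.LT.XC
import Pool.Agent.Lib.MP_177a0e_gt.LT.UA

/-!
# alternating diagrams with three strands.

`altw s l x y z`: crossings of three strands with directions `x, y, z` (at the bottom): the letter `true` is a
crossing of the two strands on the left, of the kind `s`, the letter `false` a crossing of the two strands on the
right, of the kind `!s`. `rat s e f l`: the alternating diagram of a two-bridge knot.
-/

namespace Pool.Agent.Lib.MP_177a0e_gt.LT

open Pool.Agent.Lib.MP_177a0e_gt.Tangle Pool.Agent.Lib.MP_177a0e_gt.Tangle.Gen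
open Pool.Agent.Lib.MP_177a0e_gt.Sig

/-- the crossings of an alternating diagram with three strands -/
def altw (s : Bool) : List Bool → Bool → Bool → Bool → Word
  | [], _, _, _ => []
  | true :: l, x, y, z => ⟨[], cross s x y, [z]⟩ :: altw s l y x z
  | false :: l, x, y, z => ⟨[x], cross (!s) y z, []⟩ :: altw s l x z y

/-- the directions of the three strands at the top -/
def end3 : List Bool → Bool → Bool → Bool → List Bool
  | [], x, y, z => [x, y, z]
  | true :: l, x, y, z => end3 l y x z
  | false :: l, x, y, z => end3 l x z y

/-- the alternating diagram of a two-bridge knot -/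
def rat (s e f : Bool) (l : List Bool) : Word := ⟨[true], cup e, []⟩ :: (altw s l true e (!e) ++ [⟨[true], cap f, []⟩])

/-- the crossing is positive -/
def gpos : Gen → Bool
  | cross s x y => s == (x == y)
  | _ => false

/-- the crossing is negative -/
def gneg : Gen → Bool
  | cross s x y => s != (x == y)
  | _ => false

/-- the number of positive crossings of a diagram -/
def npos (w : Word) : ℕ := w.countP fun t => gpos t.gen

/-- the number of negative crossings of a diagram -/
def nneg (w : Word) : ℕ := w.countP fun t => gneg t.gen

theorem npos_append (u v : Word) : npos (u ++ v) = npos u + npos v := List.countP_append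

theorem nneg_append (u v : Word) : nneg (u ++ v) = nneg u + nneg v := List.countP_append

theorem npos_cons (t : Slice) (w : Word) : npos (t :: w) = npos w + (if gpos t.gen then 1 else 0) := by
  simp [npos, List.countP_cons]

theorem nneg_cons (t : Slice) (w : Word) : nneg (t :: w) = nneg w + (if gneg t.gen then 1 else 0) := by
  simp [nneg, List.countP_cons]

theorem npos_adj (w : Word) : npos (Tangle.adj w) = nneg w := by
  unfold npos nneg Tangle.adj
  rw [List.countP_reverse, List.countP_map]
  congr 1
  funext t
  obtain ⟨p, g, q⟩ := t
  rcases g with x | x | ⟨s, x, y⟩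
  · rfl
  · rfl
  · cases s <;> cases x <;> cases y <;> rfl

theorem altw_valid (s : Bool) (l : List Bool) : ∀ x y z : Bool, Valid [x, y, z] (altw s l x y z) (end3 l x y z) := by
  induction l with
  | nil => exact fun x y z => rfl
  | cons b l ih =>
    intro x y z
    cases b
    · exact ⟨rfl, ih x z y⟩
    · exact ⟨rfl, ih y x z⟩

theorem valid_target {c e e' : List Bool} {w : Word} (h : Valid c w e) (h' : Valid c w e') : e = e' := by
  induction w generalizing c with
  | nil => exact (show c = e from h).symm.trans (show c = e' from h')
  | cons s w ih => exact ih h.2 h'.2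

theorem end3_of_valid {s e f : Bool} {l : List Bool} (h : Valid [true] (rat s e f l) [true]) :
    end3 l true e (!e) = [true, f, !f] := by
  obtain ⟨_, h⟩ := h
  obtain ⟨m, h1, h2⟩ := valid_append.1 h
  have h3 : Valid [true, e, !e] (altw s l true e (!e)) (end3 l true e (!e)) := altw_valid s l true e (!e)
  have h4 : m = end3 l true e (!e) := valid_target (c := [true, e, !e]) h1 h3
  have h5 := h2.1
  rw [← h4, ← h5]
  rfl

theorem rat_valid {s e f : Bool} {l : List Bool} (h : end3 l true e (!e) = [true, f, !f]) :
    Valid [true] (rat s e f l) [true] := by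
  refine ⟨rfl, ?_⟩
  have h3 : Valid [true, e, !e] (altw s l true e (!e)) (end3 l true e (!e)) := altw_valid s l true e (!e)
  rw [h] at h3
  exact h3.append ⟨rfl, rfl⟩

end Pool.Agent.Lib.MP_177a0e_gt.LT
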