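import Pool.Agent.Lib.MP_177a0e_gt.LT.XD

/-!
# the rotation of one piece around a minimum.

PROOF. `g = cup x` (`src = []`, `tgt = [x, !x]`, `stl [] = []`): left side `[⟨[], cup x, []⟩]`; right side `[⟨[], cup x, []⟩, ⟨[x], cup (!x), [!x]⟩, ⟨[x, !x], cap x, []⟩]`: the last two slices are straightened by `Rel.zigzag₂ (!x) [x] []`
(`[⟨[x], cup (!x), [!x] ++ []⟩, ⟨[x] ++ [!x], cap (!(!x)), []⟩]`).
`g = cap x` (`stl [x, !x] = [x, !x]`): left side `[⟨[], cup x, []⟩, ⟨[x], cup (!x), [!x]⟩, ⟨[], cap x, [x, !x]⟩]`: the last two are straightened by `Rel.zigzag₁ x [] [!x]`; right side `[⟨[], cup x, []⟩]`.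
`g = cross s x y` (`stl [x, y] = [!y, !x]`): left side `[⟨[], cup x, []⟩, ⟨[x], cup y, [!x]⟩, ⟨[], cross s x y, [!y, !x]⟩]`. `Rel.slide_cup (!s) y x [] [!x]` backwards: the last two become `⟨[], cup y, [x, !x]⟩, ⟨[y], cross (!s) (!y) x, [!x]⟩`. Exchange the two minima
(`Rel.interchange (cup y) (cup x) [] [] []`, in the form `[⟨[], cup x, []⟩, ⟨[], cup y, [x, !x]⟩] ~ [⟨[], cup y, []⟩, ⟨[y, !y], cup x, []⟩]`). Now the last two slices are `⟨[y, !y], cup x, []⟩, ⟨[y], cross (!s) (!y) x, [!x]⟩`: `Rel.slide_cup s x (!y) [y] []` backwards gives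
`⟨[y], cup x, [!y]⟩, ⟨[y, x], cross s (!x) (!y), []⟩`. The result is `nest [y, x]` and `⟨[y, x], cross s (!x) (!y), []⟩`. Tools as in `XB.lean`.
-/

namespace Pool.Agent.Lib.MP_177a0e_gt.LT

open Pool.Agent.Lib.MP_177a0e_gt.Tangle Pool.Agent.Lib.MP_177a0e_gt.Tangle.Gen
open Pool.Agent.Lib.MP_177a0e_gt.Sig

theorem xe_step {c e : List Bool} (u : Word) {a b : Word} (v : Word) (h : Rel a b)
    (h₁ : Valid c (u ++ a ++ v) e) (h₂ : Valid c (u ++ b ++ v) e) :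
    Cob c e 0 0 0 (u ++ a ++ v) (u ++ b ++ v) :=
  (Cob.refl h₁).iso (Or.inl (Local.mk u a b v h h₁ h₂))

theorem xe_back {c e : List Bool} (u : Word) {a b : Word} (v : Word) (h : Rel a b)
    (h₁ : Valid c (u ++ b ++ v) e) (h₂ : Valid c (u ++ a ++ v) e) :
    Cob c e 0 0 0 (u ++ b ++ v) (u ++ a ++ v) :=
  (Cob.refl h₁).iso (Or.inr (Local.mk u a b v h h₂ h₁))

theorem xe_rcup (x : Bool) : Cob [] [x, !x] 0 0 0 [⟨[], cup x, []⟩]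
    [⟨[], cup x, []⟩, ⟨[x], cup (!x), [!x]⟩, ⟨[x, !x], cap x, []⟩] := by
  cases x
  · exact xe_back [⟨[], cup false, []⟩] [] (Rel.zigzag₂ true [false] []) ⟨rfl, rfl⟩ ⟨rfl, rfl, rfl, rfl⟩
  · exact xe_back [⟨[], cup true, []⟩] [] (Rel.zigzag₂ false [true] []) ⟨rfl, rfl⟩ ⟨rfl, rfl, rfl, rfl⟩

theorem xe_rcap (x : Bool) : Cob [] [x, !x] 0 0 0
    [⟨[], cup x, []⟩, ⟨[x], cup (!x), [!x]⟩, ⟨[], cap x, [x, !x]⟩] [⟨[], cup x, []⟩] := by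
  cases x
  · exact xe_step [⟨[], cup false, []⟩] [] (Rel.zigzag₁ false [] [true]) ⟨rfl, rfl, rfl, rfl⟩ ⟨rfl, rfl⟩
  · exact xe_step [⟨[], cup true, []⟩] [] (Rel.zigzag₁ true [] [false]) ⟨rfl, rfl, rfl, rfl⟩ ⟨rfl, rfl⟩

theorem xe_rcross (s x y : Bool) : Cob [] [y, x, !y, !x] 0 0 0
    [⟨[], cup x, []⟩, ⟨[x], cup y, [!x]⟩, ⟨[], cross s x y, [!y, !x]⟩]
    [⟨[], cup y, []⟩, ⟨[y], cup x, [!y]⟩, ⟨[y, x], cross s (!x) (!y), []⟩] := by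
  have h1 : Cob [] [y, x, !y, !x] 0 0 0
      [⟨[], cup x, []⟩, ⟨[x], cup y, [!x]⟩, ⟨[], cross s x y, [!y, !x]⟩]
      [⟨[], cup x, []⟩, ⟨[], cup y, [x, !x]⟩, ⟨[y], cross (!s) (!y) x, [!x]⟩] := by
    have h := Rel.slide_cup (!s) y x [] [!x]
    rw [Bool.not_not] at h
    exact xe_back [⟨[], cup x, []⟩] [] h ⟨rfl, rfl, rfl, rfl⟩ ⟨rfl, rfl, rfl, rfl⟩
  have h2 : Cob [] [y, x, !y, !x] 0 0 0
      [⟨[], cup x, []⟩, ⟨[], cup y, [x, !x]⟩, ⟨[y], cross (!s) (!y) x, [!x]⟩]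
      [⟨[], cup y, []⟩, ⟨[y, !y], cup x, []⟩, ⟨[y], cross (!s) (!y) x, [!x]⟩] :=
    xe_back [] [⟨[y], cross (!s) (!y) x, [!x]⟩] (Rel.interchange (cup y) (cup x) [] [] [])
      ⟨rfl, rfl, rfl, rfl⟩ ⟨rfl, rfl, rfl, rfl⟩
  have h3 : Cob [] [y, x, !y, !x] 0 0 0
      [⟨[], cup y, []⟩, ⟨[y, !y], cup x, []⟩, ⟨[y], cross (!s) (!y) x, [!x]⟩]
      [⟨[], cup y, []⟩, ⟨[y], cup x, [!y]⟩, ⟨[y, x], cross s (!x) (!y), []⟩] :=
    xe_back [⟨[], cup y, []⟩] [] (Rel.slide_cup s x (!y) [y] []) ⟨rfl, rfl, rfl, rfl⟩ ⟨rfl, rfl, rfl, rfl⟩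
  exact (h1.trans h2).trans h3

theorem rot_gen (g : Gen) :
    Cob [] (g.tgt ++ stl g.src) 0 0 0 (nest g.src ++ [⟨[], g, stl g.src⟩]) (nest g.tgt ++ [⟨g.tgt, gro g, []⟩]) := by
  rcases g with x | x | ⟨s, x, y⟩
  · exact xe_rcup x
  · cases x
    · exact xe_rcap false
    · exact xe_rcap true
  · exact xe_rcross s x y

end Pool.Agent.Lib.MP_177a0e_gt.LT
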