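import Pool.Agent.Lib.MP_177a0e_gt.LT.RA
import Pool.Agent.Lib.MP_177a0e_gt.LT.XE

/-!
# from alternating diagrams with three strands to the torus links `T(2, n)`, first kind.

`nfa x y n`: the normal form with the directions `x, y, z` at the top and `n` positive crossings.
-/

namespace Pool.Agent.Lib.MP_177a0e_gt.LT

open Pool.Agent.Lib.MP_177a0e_gt.Tangle Pool.Agent.Lib.MP_177a0e_gt.Tangle.Gen
open Pool.Agent.Lib.MP_177a0e_gt.Sig

/-- the crossing of the two strands on the left -/
def xc : Slice := ⟨[], cross true true true, [false]⟩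

theorem tk_eq (n : ℕ) : tk n = ⟨[true], cup true, []⟩ :: (List.replicate n xc ++ [⟨[true], cap true, []⟩]) := by
  have h : ∀ n : ℕ, tbl (List.replicate n true) = List.replicate n xc := by
    intro n
    induction n with
    | zero => rfl
    | succ n ih =>
      show _ :: tbl (List.replicate n true) = _
      rw [ih]
      rfl
  show _ :: (tbl (List.replicate n true) ++ _) = _
  rw [h]

/-- the trivial word or a torus link -/
def su : ℕ → Word
  | 0 => []
  | n + 1 => tk (n + 1)

theorem su_valid (n : ℕ) : Valid [true] (su n) [true] := by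
  cases n with
  | zero => rfl
  | succ n => exact tk_valid _

/-- the normal form -/
def nfa : Bool → Bool → ℕ → Word
  | true, true, n => ⟨[true], cup true, []⟩ :: List.replicate n xc
  | true, false, n => su n ++ [⟨[], cup true, [true]⟩]
  | false, _, n => su n ++ [⟨[], cup false, [true]⟩]

/-- the defect of the normal form -/
def dfa : Bool → Bool → ℕ → ℕ
  | _, _, _ + 1 => 0
  | true, true, 0 => 0
  | true, false, 0 => 1
  | false, _, 0 => 1

/-- exactly one strand is directed downwards -/
def oneF : Bool → Bool → Bool → Prop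
  | true, true, z => z = false
  | true, false, z => z = true
  | false, y, z => y = true ∧ z = true

theorem rb_top {c₀ c e : List Bool} {b s d : ℕ} {w w' u : Word} (h : Cob c e b s d w w') (hu : Valid c₀ u c) :
    Cob c₀ e b s d (u ++ w) (u ++ w') := by
  have := h.ctx (v := []) hu rfl
  simpa using this

theorem rb_bot {c e e₀ : List Bool} {b s d : ℕ} {w w' v : Word} (h : Cob c e b s d w w') (hv : Valid e v e₀) :
    Cob c e₀ b s d (w ++ v) (w' ++ v) := by
  have := h.ctx (u := []) (c₀ := c) rfl hv
  simpa using this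

theorem rep_valid (n : ℕ) : Valid [true, true, false] (List.replicate n xc) [true, true, false] := by
  induction n with
  | zero => rfl
  | succ n ih => exact ⟨rfl, ih⟩

theorem nfa_tt_valid (n : ℕ) : Valid [true] (nfa true true n) [true, true, false] := ⟨rfl, rep_valid n⟩

/-- a saddle inserted at the top -/
theorem rb_saddle (x : Bool) (p q : List Bool) :
    Cob (p ++ [x, !x] ++ q) (p ++ [x, !x] ++ q) 0 1 0 [] [⟨p, cap x, q⟩, ⟨p, cup x, q⟩] := by
  have v1 : Valid (p ++ [x, !x] ++ q) [⟨p, cap x, q⟩, ⟨p, cup x, q⟩] (p ++ [x, !x] ++ q) := by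
    simp [Valid, Slice.src, Slice.tgt, Gen.src, Gen.tgt]
  exact (Cob.refl (show Valid (p ++ [x, !x] ++ q) [] (p ++ [x, !x] ++ q) from rfl)).saddle
    (Or.inl (Local.whole (SaddleRel.mk x p q) rfl v1))

theorem stA1 (n : ℕ) : nfa true true n ++ [xc] = nfa true true (n + 1) := by
  show _ :: (List.replicate n xc ++ [xc]) = _ :: List.replicate (n + 1) xc
  rw [List.replicate_succ']

theorem stA2 (n : ℕ) : Cob [true] [true, false, true] 0 1 0
    (nfa true true n ++ [⟨[true], cross false true false, []⟩]) (nfa true false (n + 1)) := by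
  have h1 : Cob [true, true, false] [true, false, true] 0 1 0 [⟨[true], cross false true false, []⟩]
      [xc, ⟨[true], cap true, []⟩, ⟨[], cup true, [true]⟩] := by
    have k1 := rb_top (rb_saddle true [] [true]) (c₀ := [true, true, false])
      (u := [⟨[true], cross false true false, []⟩]) ⟨rfl, rfl⟩
    have k2 : Cob [true, true, false] [true, false, true] 0 0 0
        ([⟨[true], cross false true false, []⟩, ⟨[], cap true, [true]⟩] ++ [⟨[], cup true, [true]⟩])
        ([xc, ⟨[true], cap true, []⟩] ++ [⟨[], cup true, [true]⟩]) :=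
      rb_bot (rel_cob (Rel.slide_cap false true true [] []) ⟨rfl, rfl, rfl⟩ ⟨rfl, rfl, rfl⟩) (e := [true]) ⟨rfl, rfl⟩
    exact k1.trans k2
  have h2 := rb_top h1 (nfa_tt_valid n)
  have e : nfa true true n ++ [xc, ⟨[true], cap true, []⟩, ⟨[], cup true, [true]⟩] = nfa true false (n + 1) := by
    show _ = tk (n + 1) ++ _
    rw [tk_eq, List.replicate_succ']
    simp [nfa]
  rw [e] at h2
  exact h2

theorem stA3 (n : ℕ) : Cob [true] [false, true, true] 0 0 0
    (nfa true false n ++ [⟨[], cross true true false, [true]⟩]) (nfa false true n) := by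
  have h1 : Cob [true] [false, true, true] 0 0 0 [⟨[], cup true, [true]⟩, ⟨[], cross true true false, [true]⟩]
      [⟨[], cup false, [true]⟩] := rel_cob (Rel.r1_cup true true [] [true]) ⟨rfl, rfl, rfl⟩ ⟨rfl, rfl⟩
  have h2 := rb_top h1 (su_valid n)
  simpa [nfa] using h2

theorem stA4 (n : ℕ) : ∃ s, Cob [true] [true, true, false] 0 s 0
    (nfa true false n ++ [⟨[true], cross false false true, []⟩]) (nfa true true (n + 1)) ∧
    s + dfa true false n = 1 := by
  have h1 : Cob [true] [true, true, false] 0 0 0 [⟨[], cup true, [true]⟩, ⟨[true], cross false false true, []⟩]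
      [⟨[true], cup true, []⟩, xc] := rel_cob (Rel.slide_cup false true true [] []) ⟨rfl, rfl, rfl⟩ ⟨rfl, rfl, rfl⟩
  have h2 := rb_top h1 (su_valid n)
  cases n with
  | zero => exact ⟨0, h2, rfl⟩
  | succ n =>
    refine ⟨1, ?_, rfl⟩
    have h3 := (rb_saddle true [true] []).symm
    have h4 := h3.ctx (nfa_tt_valid (n + 1)) (v := [xc]) (e₀ := [true, true, false]) ⟨rfl, rfl⟩
    have e1 : su (n + 1) ++ [⟨[true], cup true, []⟩, xc] = nfa true true (n + 1) ++
        [⟨[true], cap true, []⟩, ⟨[true], cup true, []⟩] ++ [xc] := by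
      show tk (n + 1) ++ _ = _
      rw [tk_eq]
      simp [nfa]
    have e2 : nfa true true (n + 1) ++ [] ++ [xc] = nfa true true (n + 1 + 1) := by
      rw [List.append_nil, stA1]
    rw [e2] at h4
    rw [e1] at h2
    have h5 := h2.trans h4
    simpa [nfa] using h5

theorem stA5 (n : ℕ) : Cob [true] [true, false, true] 0 0 0
    (nfa false true n ++ [⟨[], cross true false true, [true]⟩]) (nfa true false n) := by
  have h1 : Cob [true] [true, false, true] 0 0 0 [⟨[], cup false, [true]⟩, ⟨[], cross true false true, [true]⟩]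
      [⟨[], cup true, [true]⟩] := rel_cob (Rel.r1_cup true false [] [true]) ⟨rfl, rfl, rfl⟩ ⟨rfl, rfl⟩
  have h2 := rb_top h1 (su_valid n)
  simpa [nfa] using h2

theorem stA6 (n : ℕ) : Cob [true] [false, true, true] 0 1 0
    (nfa false true n ++ [⟨[false], cross false true true, []⟩]) (nfa false true n) := by
  have h1 := smooth_par false true [false] []
  have h2 := rb_top h1 (c₀ := [true]) (u := nfa false true n) ((su_valid n).append ⟨rfl, rfl⟩)
  simpa using h2

/-- all crossings -/
theorem chainA (l : List Bool) : ∀ (x y z : Bool) (n : ℕ), oneF x y z → ∃ x' y' z' : Bool,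
    end3 l x y z = [x', y', z'] ∧ oneF x' y' z' ∧ ∃ s : ℕ,
      Cob [true] [x', y', z'] 0 s 0 (nfa x y n ++ altw true l x y z) (nfa x' y' (n + npos (altw true l x y z))) ∧
      s + dfa x y n = l.count false + dfa x' y' (n + npos (altw true l x y z)) := by
  induction l with
  | nil =>
    intro x y z n h
    refine ⟨x, y, z, rfl, h, 0, ?_, ?_⟩
    · have hv : Valid [true] (nfa x y n) [x, y, z] := by
        cases x <;> cases y <;> cases z <;> simp [oneF] at h
        · exact (su_valid n).append ⟨rfl, rfl⟩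
        · exact (su_valid n).append ⟨rfl, rfl⟩
        · exact nfa_tt_valid n
      simpa [altw, npos] using Cob.refl hv
    · simp [altw, npos]
  | cons b l ih =>
    intro x y z n h
    have key : ∃ x₁ y₁ z₁ : Bool, ∃ t : Slice, oneF x₁ y₁ z₁ ∧ altw true (b :: l) x y z = t :: altw true l x₁ y₁ z₁ ∧
        end3 (b :: l) x y z = end3 l x₁ y₁ z₁ ∧ Valid [x₁, y₁, z₁] (altw true l x₁ y₁ z₁) (end3 l x₁ y₁ z₁) ∧ ∃ s : ℕ,
        Cob [true] [x₁, y₁, z₁] 0 s 0 (nfa x y n ++ [t]) (nfa x₁ y₁ (n + (if gpos t.gen then 1 else 0))) ∧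
        s + dfa x y n = [b].count false + dfa x₁ y₁ (n + (if gpos t.gen then 1 else 0)) := by
      cases b <;> cases x <;> cases y <;> cases z <;> simp [oneF] at h
      · exact ⟨false, true, true, _, ⟨rfl, rfl⟩, rfl, rfl, altw_valid _ _ _ _ _, 1, stA6 n, rfl⟩
      · obtain ⟨s, h1, h2⟩ := stA4 n
        exact ⟨true, true, false, _, rfl, rfl, rfl, altw_valid _ _ _ _ _, s, h1, h2⟩
      · exact ⟨true, false, true, _, rfl, rfl, rfl, altw_valid _ _ _ _ _, 1, stA2 n, by cases n <;> rfl⟩
      · exact ⟨true, false, true, _, rfl, rfl, rfl, altw_valid _ _ _ _ _, 0, stA5 n, by cases n <;> rfl⟩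
      · exact ⟨false, true, true, _, ⟨rfl, rfl⟩, rfl, rfl, altw_valid _ _ _ _ _, 0, stA3 n, by cases n <;> rfl⟩
      · refine ⟨true, true, false, _, rfl, rfl, rfl, altw_valid _ _ _ _ _, 0, ?_, by cases n <;> rfl⟩
        show Cob _ _ _ _ _ (nfa true true n ++ [xc]) (nfa true true (n + 1))
        rw [stA1]
        exact Cob.refl (nfa_tt_valid _)
    obtain ⟨x₁, y₁, z₁, t, o1, e1, e2, v1, s, h1, h2⟩ := key
    obtain ⟨x', y', z', e3, o3, s', h3, h4⟩ := ih x₁ y₁ z₁ (n + (if gpos t.gen then 1 else 0)) o1
    have e4 : n + (if gpos t.gen then 1 else 0) + npos (altw true l x₁ y₁ z₁) = n + npos (altw true (b :: l) x y z) := by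
      rw [e1, npos_cons]
      ring
    rw [e4] at h3 h4
    refine ⟨x', y', z', e2.trans e3, o3, s + s', ?_, ?_⟩
    · rw [e3] at v1
      have h5 := (rb_bot h1 v1).trans h3
      rw [e1] at h5 ⊢
      simpa using h5
    · have h6 : (b :: l).count false = l.count false + [b].count false := by
        rw [List.count_cons, List.count_cons]
        simp
      rw [h6]
      omega

end Pool.Agent.Lib.MP_177a0e_gt.LT
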