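import Pool.Agent.Lib.MP_177a0e_gt.LT.XA
import Pool.Agent.Lib.MP_177a0e_gt.LT.XE

/-!
# rotation of a word around a minimum and a maximum.

PROOF of `rot_cup`: induction on `w`. One slice `s = ⟨p, g, q⟩`, `a = p ++ g.src ++ q`, `b = p ++ g.tgt ++ q`, `stl a = stl q ++ stl g.src ++ stl p` (`stl_append`). By `nest_append`, `nest a = nest p ++ cx p (nest g.src) (stl p) ++ cx (p ++ g.src) (nest q) (stl g.src ++ stl p)`.
Exchange `⟨p, g, q ++ stl a⟩` with the `nest q` part (`cx_comm`: `u = [⟨[], g, []⟩]`, `v = nest q : [] → q ++ stl q`). Apply `rot_gen g` in the context `p`, `stl p` (`cx_cob`). Exchange `gro g` (now on the right, from `stl g.tgt` to `stl g.src`) with the `nest q` part (`cx_comm` with `u = nest q`,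
`v = [⟨[], gro g, []⟩]`). The result is `nest b ++ cx b [sro s] []`. For `s :: w`: the slice, then exchange `rot [s]` (on the right) and `w` (on the left) by `cx_comm`, the induction hypothesis for `w`, `rot_cons`.
`cup_J`: `rot_cup` with `a = b = [true]`, `nest [true] = [⟨[], cup true, []⟩]`, `stl [true] = [false]`. `cap_J`: `cup_J` for `adj J`, then `Tangle.Cob.adj` (`TangleRev.lean`) or `cob_adj2` (`UB.lean`), `cx_adj`, `rot_adj`, `Tangle.adj_adj`, `Tangle.adj_append`.
-/

namespace Pool.Agent.Lib.MP_177a0e_gt.LT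

open Pool.Agent.Lib.MP_177a0e_gt.Tangle Pool.Agent.Lib.MP_177a0e_gt.Tangle.Gen
open Pool.Agent.Lib.MP_177a0e_gt.Sig

private theorem XF_tr {c e : List Bool} {w w' w'' : Word} (h : Cob c e 0 0 0 w w') (h' : Cob c e 0 0 0 w' w'') :
    Cob c e 0 0 0 w w'' := h.trans h'

private theorem XF_nil (c : List Bool) : Valid c [] c := rfl

private theorem XF_slice (p : List Bool) (g : Gen) (q : List Bool) :
    Cob [] (p ++ g.tgt ++ q ++ stl (p ++ g.src ++ q)) 0 0 0
      (nest (p ++ g.src ++ q) ++ [⟨p, g, q ++ stl (p ++ g.src ++ q)⟩])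
      (nest (p ++ g.tgt ++ q) ++ [⟨p ++ g.tgt ++ q ++ stl q, gro g, stl p⟩]) := by
  have hg : Valid g.src [(⟨[], g, []⟩ : Slice)] g.tgt := by
    rw [valid_single]
    simp [Slice.src, Slice.tgt]
  have hgr : Valid (stl g.tgt) [(⟨[], gro g, []⟩ : Slice)] (stl g.src) := by
    rw [valid_single]
    simp [Slice.src, Slice.tgt, gro_src, gro_tgt]
  have e1 : nest (p ++ g.src ++ q) = nest p ++ cx p (nest g.src) (stl p) ++
      cx (p ++ g.src) (nest q) (stl g.src ++ stl p) := by
    rw [nest_append, nest_append, stl_append]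
  have e2 : nest (p ++ g.tgt ++ q) = nest p ++ cx p (nest g.tgt) (stl p) ++
      cx (p ++ g.tgt) (nest q) (stl g.tgt ++ stl p) := by
    rw [nest_append, nest_append, stl_append]
  have e3 : stl (p ++ g.src ++ q) = stl q ++ (stl g.src ++ stl p) := by
    rw [stl_append, stl_append]
  rw [e1, e2, e3]
  -- exchange of the piece and the nested minima of `q`
  have s1 : Cob (p ++ g.src ++ (stl g.src ++ stl p)) (p ++ g.tgt ++ (q ++ stl q) ++ (stl g.src ++ stl p)) 0 0 0
      (cx (p ++ g.src) (nest q) (stl g.src ++ stl p) ++ [⟨p, g, q ++ (stl q ++ (stl g.src ++ stl p))⟩])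
      ([⟨p, g, stl g.src ++ stl p⟩] ++ cx (p ++ g.tgt) (nest q) (stl g.src ++ stl p)) := by
    have := (cx_comm hg (nest_valid q) p [] (stl g.src ++ stl p)).symm
    simpa [List.append_assoc] using this
  have s2 : Cob (p ++ stl p) (p ++ g.tgt ++ (stl g.src ++ stl p)) 0 0 0
      (cx p (nest g.src) (stl p) ++ [⟨p, g, stl g.src ++ stl p⟩])
      (cx p (nest g.tgt) (stl p) ++ [⟨p ++ g.tgt, gro g, stl p⟩]) := by
    have := cx_cob (rot_gen g) p (stl p)
    simpa [List.append_assoc, cx_append] using this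
  have s3 : Cob (p ++ g.tgt ++ (stl g.tgt ++ stl p)) (p ++ g.tgt ++ (q ++ stl q) ++ (stl g.src ++ stl p)) 0 0 0
      ([⟨p ++ g.tgt, gro g, stl p⟩] ++ cx (p ++ g.tgt) (nest q) (stl g.src ++ stl p))
      (cx (p ++ g.tgt) (nest q) (stl g.tgt ++ stl p) ++ [⟨p ++ g.tgt ++ (q ++ stl q), gro g, stl p⟩]) := by
    have := (cx_comm (nest_valid q) hgr (p ++ g.tgt) [] (stl p)).symm
    simpa [List.append_assoc] using this
  have v1 : Valid [] (nest p) (p ++ stl p) := nest_valid p
  have v2 : Valid (p ++ stl p) (cx p (nest g.src) (stl p)) (p ++ g.src ++ (stl g.src ++ stl p)) := by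
    have := cx_valid (nest_valid g.src) p (stl p)
    simpa [List.append_assoc] using this
  have v3 : Valid (p ++ g.tgt ++ (stl g.src ++ stl p)) (cx (p ++ g.tgt) (nest q) (stl g.src ++ stl p))
      (p ++ g.tgt ++ (q ++ stl q) ++ (stl g.src ++ stl p)) := by
    have := cx_valid (nest_valid q) (p ++ g.tgt) (stl g.src ++ stl p)
    simpa [List.append_assoc] using this
  have v4 : Valid (p ++ stl p) (cx p (nest g.tgt) (stl p)) (p ++ g.tgt ++ (stl g.tgt ++ stl p)) := by
    have := cx_valid (nest_valid g.tgt) p (stl p)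
    simpa [List.append_assoc] using this
  have t1 := s1.ctx (v1.append v2) (XF_nil _)
  have t2 := s2.ctx v1 v3
  have t3 := s3.ctx (v1.append v4) (XF_nil _)
  have u1 : Cob [] (p ++ g.tgt ++ q ++ (stl q ++ (stl g.src ++ stl p))) 0 0 0
      (nest p ++ cx p (nest g.src) (stl p) ++ cx (p ++ g.src) (nest q) (stl g.src ++ stl p) ++
        [⟨p, g, q ++ (stl q ++ (stl g.src ++ stl p))⟩])
      (nest p ++ cx p (nest g.src) (stl p) ++ ([⟨p, g, stl g.src ++ stl p⟩] ++
        cx (p ++ g.tgt) (nest q) (stl g.src ++ stl p))) := by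
    simpa [List.append_assoc] using t1
  have u2 : Cob [] (p ++ g.tgt ++ q ++ (stl q ++ (stl g.src ++ stl p))) 0 0 0
      (nest p ++ cx p (nest g.src) (stl p) ++ ([⟨p, g, stl g.src ++ stl p⟩] ++
        cx (p ++ g.tgt) (nest q) (stl g.src ++ stl p)))
      (nest p ++ cx p (nest g.tgt) (stl p) ++ ([⟨p ++ g.tgt, gro g, stl p⟩] ++
        cx (p ++ g.tgt) (nest q) (stl g.src ++ stl p))) := by
    simpa [List.append_assoc] using t2
  have u3 : Cob [] (p ++ g.tgt ++ q ++ (stl q ++ (stl g.src ++ stl p))) 0 0 0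
      (nest p ++ cx p (nest g.tgt) (stl p) ++ ([⟨p ++ g.tgt, gro g, stl p⟩] ++
        cx (p ++ g.tgt) (nest q) (stl g.src ++ stl p)))
      (nest p ++ cx p (nest g.tgt) (stl p) ++ cx (p ++ g.tgt) (nest q) (stl g.tgt ++ stl p) ++
        [⟨p ++ g.tgt ++ q ++ stl q, gro g, stl p⟩]) := by
    simpa [List.append_assoc] using t3
  exact XF_tr (XF_tr u1 u2) u3

theorem rot_cup {a b : List Bool} {w : Word} (h : Valid a w b) :
    Cob [] (b ++ stl a) 0 0 0 (nest a ++ cx [] w (stl a)) (nest b ++ cx b (rot w) []) := by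
  induction w generalizing a with
  | nil =>
    have : a = b := h
    subst this
    simpa [rot] using Cob.refl (nest_valid a)
  | cons s w ih =>
    obtain ⟨h1, h2⟩ := h
    obtain ⟨p, g, q⟩ := s
    have ha : a = p ++ g.src ++ q := by rw [← h1]; rfl
    subst ha
    have h3 : Valid (p ++ g.tgt ++ q) w b := h2
    have hsl := XF_slice p g q
    have hs : Valid (stl (p ++ g.tgt ++ q)) [sro ⟨p, g, q⟩] (stl (p ++ g.src ++ q)) := by
      rw [valid_single]
      simp [Slice.src, Slice.tgt, sro, gro_src, gro_tgt, stl_append]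
    have hc : Cob (p ++ g.tgt ++ q ++ stl (p ++ g.tgt ++ q)) (b ++ stl (p ++ g.src ++ q)) 0 0 0
        (cx (p ++ g.tgt ++ q) [sro ⟨p, g, q⟩] [] ++ cx [] w (stl (p ++ g.src ++ q)))
        (cx [] w (stl (p ++ g.tgt ++ q)) ++ cx b [sro ⟨p, g, q⟩] []) := by
      have := (cx_comm h3 hs [] [] []).symm
      simpa only [List.append_nil, List.nil_append] using this
    have v1 : Valid (p ++ g.tgt ++ q ++ stl (p ++ g.src ++ q)) (cx [] w (stl (p ++ g.src ++ q)))
        (b ++ stl (p ++ g.src ++ q)) := by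
      have := cx_valid h3 [] (stl (p ++ g.src ++ q))
      simpa [List.append_assoc] using this
    have t1 := hsl.ctx (XF_nil []) v1
    have t2 := hc.ctx (nest_valid (p ++ g.tgt ++ q)) (XF_nil _)
    have v2 : Valid (b ++ stl (p ++ g.tgt ++ q)) (cx b [sro ⟨p, g, q⟩] []) (b ++ stl (p ++ g.src ++ q)) := by
      have := cx_valid hs b []
      simpa only [List.append_nil] using this
    have t3 := (ih h3).ctx (XF_nil []) v2
    have u1 : Cob [] (b ++ stl (p ++ g.src ++ q)) 0 0 0
        (nest (p ++ g.src ++ q) ++ cx [] (⟨p, g, q⟩ :: w) (stl (p ++ g.src ++ q)))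
        (nest (p ++ g.tgt ++ q) ++ (cx (p ++ g.tgt ++ q) [sro ⟨p, g, q⟩] [] ++ cx [] w (stl (p ++ g.src ++ q)))) := by
      simpa [List.append_assoc, sro] using t1
    have u2 : Cob [] (b ++ stl (p ++ g.src ++ q)) 0 0 0
        (nest (p ++ g.tgt ++ q) ++ (cx (p ++ g.tgt ++ q) [sro ⟨p, g, q⟩] [] ++ cx [] w (stl (p ++ g.src ++ q))))
        (nest (p ++ g.tgt ++ q) ++ cx [] w (stl (p ++ g.tgt ++ q)) ++ cx b [sro ⟨p, g, q⟩] []) := by
      simpa [List.append_assoc, sro] using t2
    have u3 : Cob [] (b ++ stl (p ++ g.src ++ q)) 0 0 0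
        (nest (p ++ g.tgt ++ q) ++ cx [] w (stl (p ++ g.tgt ++ q)) ++ cx b [sro ⟨p, g, q⟩] [])
        (nest b ++ cx b (rot (⟨p, g, q⟩ :: w)) []) := by
      rw [rot_cons, cx_append]
      simpa [List.append_assoc, sro] using t3
    exact XF_tr (XF_tr u1 u2) u3

theorem cup_J {J : Word} (hJ : Valid [true] J [true]) :
    Cob [] [true, false] 0 0 0 ([⟨[], cup true, []⟩] ++ cx [] J [false])
      ([⟨[], cup true, []⟩] ++ cx [true] (rot J) []) := by
  have := rot_cup hJ
  simpa [stl, nest] using this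

theorem cap_J {J : Word} (hJ : Valid [true] J [true]) :
    Cob [true, false] [] 0 0 0 (cx [] J [false] ++ [⟨[], cap true, []⟩])
      (cx [true] (rot J) [] ++ [⟨[], cap true, []⟩]) := by
  have h1 := (cup_J hJ.adj)
  have h2 := cob_adj2 h1
  rw [Tangle.adj_append, Tangle.adj_append, cx_adj, cx_adj, rot_adj, Tangle.adj_adj] at h2
  exact h2

end Pool.Agent.Lib.MP_177a0e_gt.LT
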