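import Pool.Agent.Lib.MP_177a0e_gt.LT.SA
import Pool.Agent.Lib.MP_177a0e_gt.LT.XF
import Pool.Agent.Lib.MP_177a0e_gt.LT.RB
import Pool.Agent.Lib.MP_177a0e_gt.LT.RA

/-!
# maxima with an even number of strands on their left: definitions.

`dat k w`: the classes of the letters of the word `w`, which has `k` further strands on its left.
`mate A B F`: for a tangle `F` from the level `A ++ B` to the empty level, the tangle from `A` to `stl B` obtained by bending
the strands `B` upwards on the right.
`Mt A z γ D F`: for `F` from `A ++ z :: γ` to the empty level: `F` is a tangle `Y` from `γ ++ A` to `!z` (where the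
strands `γ` are led around on the left), closed with the strand `z`, which has no slices on its right; `dat 0 Y = D`.
-/

namespace Pool.Agent.Lib.MP_177a0e_gt.LT

open Pool.Agent.Lib.MP_177a0e_gt.Tangle Pool.Agent.Lib.MP_177a0e_gt.Tangle.Gen
open Pool.Agent.Lib.MP_177a0e_gt.Sig

/-- classes of letters: a maximum with an even number of strands on its left; a minimum or a crossing with an odd
number of strands on its left; a crossing (`r`: of the right type, `p`: positive) -/
inductive Cl : Type
  | ev : Cl
  | od : Cl
  | cr (r p : Bool) : Cl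
  deriving DecidableEq

/-- the classes of a slice with `k` further strands on its left -/
def ld (k : ℕ) (t : Slice) : Multiset Cl :=
  match t.gen with
  | cup _ => if (k + t.left.length) % 2 = 0 then 0 else {Cl.od}
  | cap _ => if (k + t.left.length) % 2 = 0 then {Cl.ev} else 0
  | cross s x y => (if (k + t.left.length) % 2 = 0 then 0 else {Cl.od}) +
      {Cl.cr (s == ((k + t.left.length) % 2 == 0)) (gpos (cross s x y))}

/-- the classes of the letters of a word -/
def dat (k : ℕ) (w : Word) : Multiset Cl := (w.map (ld k)).sum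

@[simp] theorem dat_nil (k : ℕ) : dat k [] = 0 := rfl

theorem dat_cons (k : ℕ) (t : Slice) (w : Word) : dat k (t :: w) = ld k t + dat k w := by
  simp [dat]

theorem dat_append (k : ℕ) (u v : Word) : dat k (u ++ v) = dat k u + dat k v := by
  simp [dat]

theorem dat_single (k : ℕ) (t : Slice) : dat k [t] = ld k t := by
  simp [dat]

theorem ld_mod {k j : ℕ} (h : k % 2 = j % 2) (t : Slice) : ld k t = ld j t := by
  have e : (k + t.left.length) % 2 = (j + t.left.length) % 2 := by omega
  unfold ld
  rw [e]

theorem dat_mod {k j : ℕ} (h : k % 2 = j % 2) (w : Word) : dat k w = dat j w := by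
  unfold dat
  rw [List.map_congr_left fun t _ => ld_mod h t]

theorem ld_shift (k : ℕ) (p q : List Bool) (t : Slice) :
    ld k ⟨p ++ t.left, t.gen, t.right ++ q⟩ = ld (k + p.length) t := by
  have e : k + (p ++ t.left).length = k + p.length + t.left.length := by
    rw [List.length_append]
    omega
  unfold ld
  simp only [e]

theorem dat_cx (k : ℕ) (p : List Bool) (w : Word) (q : List Bool) : dat k (cx p w q) = dat (k + p.length) w := by
  induction w with
  | nil => rfl
  | cons t w ih =>
    rw [cx_cons, dat_cons, dat_cons, ih, ld_shift]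

/-- strands on the left, an even number of them -/
theorem dat_cx_even {p : List Bool} (h : p.length % 2 = 0) (w : Word) (q : List Bool) : dat 0 (cx p w q) = dat 0 w := by
  rw [dat_cx]
  exact dat_mod (by omega) w

/-- strands on the left, an odd number of them -/
theorem dat_cx_odd {p : List Bool} (h : p.length % 2 = 1) (w : Word) (q : List Bool) : dat 0 (cx p w q) = dat 1 w := by
  rw [dat_cx]
  exact dat_mod (by omega) w

theorem stl_cons (z : Bool) (γ : List Bool) : stl (z :: γ) = stl γ ++ [!z] := by
  simp [stl]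

theorem stl_length (γ : List Bool) : (stl γ).length = γ.length := by
  simp [stl]

/-- the strands `B` bent upwards on the right -/
def mate (A B : List Bool) (F : Word) : Word := cx A (nest B) [] ++ cx [] F (stl B)

theorem mate_valid {A B : List Bool} {F : Word} (h : Valid (A ++ B) F []) : Valid A (mate A B F) (stl B) := by
  have h1 := cx_valid (nest_valid B) A []
  have h2 := cx_valid h [] (stl B)
  rw [List.append_nil, List.append_nil] at h1
  rw [List.append_nil, ← List.append_assoc] at h1
  exact h1.append (by simpa using h2)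

theorem mate_iso {A B : List Bool} {F F' : Word} (h : Iso (A ++ B) [] F F') :
    Iso A (stl B) (mate A B F) (mate A B F') := by
  have h1 := cx_valid (nest_valid B) A []
  rw [List.append_nil, List.append_nil, List.append_nil, ← List.append_assoc] at h1
  have h2 := cx_cob h [] (stl B)
  exact rb_top (by simpa using h2) h1

/-- see above -/
def Mt (A : List Bool) (z : Bool) (γ : List Bool) (D : Multiset Cl) (F : Word) : Prop :=
  ∃ Y : Word, Valid (γ ++ A) Y [!z] ∧ dat 0 Y = D ∧
    Iso A (stl γ ++ [!z]) (mate A (z :: γ) F) (cx [] (nest (stl γ)) A ++ cx (stl γ) Y [])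

theorem mt_iso {A : List Bool} {z : Bool} {γ : List Bool} {D : Multiset Cl} {F F' : Word}
    (h : Iso (A ++ z :: γ) [] F F') (h' : Mt A z γ D F) : Mt A z γ D F' := by
  obtain ⟨Y, h1, h2, h3⟩ := h'
  refine ⟨Y, h1, h2, ?_⟩
  have h4 := mate_iso h
  rw [stl_cons] at h4
  exact h4.symm.trans h3

/-- closed tangles at the level `m`: a word without maxima at even positions, and a last maximum -/
def Fn (m : List Bool) (D : Multiset Cl) (F : Word) : Prop :=
  ∃ (Z : Word) (x : Bool), Valid m Z [x, !x] ∧ Cl.ev ∉ dat 0 Z ∧ D = dat 0 Z ∧ F = Z ++ [⟨[], cap x, []⟩]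

theorem Fn.valid {m : List Bool} {D : Multiset Cl} {F : Word} (h : Fn m D F) : Valid m F [] := by
  obtain ⟨Z, x, h1, -, -, rfl⟩ := h
  exact h1.append ⟨rfl, rfl⟩

theorem Fn.ne {m : List Bool} {D : Multiset Cl} {F : Word} (h : Fn m D F) : F ≠ [] := by
  obtain ⟨Z, x, -, -, -, rfl⟩ := h
  simp

theorem fn_cons {t : Slice} {D : Multiset Cl} {F : Word} (h : Fn t.tgt D F) (ht : Cl.ev ∉ ld 0 t) :
    Fn t.src (ld 0 t + D) (t :: F) := by
  obtain ⟨Z, x, h1, h2, rfl, rfl⟩ := h
  refine ⟨t :: Z, x, ⟨rfl, h1⟩, ?_, (dat_cons 0 t Z).symm, rfl⟩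
  rw [dat_cons, Multiset.mem_add]
  tauto

/-- the word contains a closed tangle split from the rest -/
def HC (e : List Bool) (w : Word) : Prop :=
  ∃ (u v F : Word) (p q : List Bool), F ≠ [] ∧ Valid [] F [] ∧ Valid [] u (p ++ q) ∧ Valid (p ++ q) v e ∧
    Iso [] e w (u ++ cx p F q ++ v)

theorem HC.iso {e : List Bool} {w w' : Word} (h : HC e w) (h' : Iso [] e w' w) : HC e w' := by
  obtain ⟨u, v, F, p, q, h1, h2, h3, h4, h5⟩ := h
  exact ⟨u, v, F, p, q, h1, h2, h3, h4, h'.trans h5⟩

theorem HC.app {e e' : List Bool} {w v' : Word} (h : HC e w) (hv : Valid e v' e') : HC e' (w ++ v') := by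
  obtain ⟨u, v, F, p, q, h1, h2, h3, h4, h5⟩ := h
  refine ⟨u, v ++ v', F, p, q, h1, h2, h3, h4.append hv, ?_⟩
  have h6 := rb_bot h5 hv
  simpa [List.append_assoc] using h6

/-- tracing down from a maximum at an even position: `F` is a closed tangle between the strands `p` and `q` -/
def Tr (p q : List Bool) (u F : Word) (D : Multiset Cl) : Prop :=
  HC (p ++ q) (u ++ cx p F q) ∨
    ∃ w' : Word, Valid [] w' (p ++ q) ∧ dat 0 w' + {Cl.od} = dat 0 u + D ∧ Iso [] (p ++ q) (u ++ cx p F q) w'

end Pool.Agent.Lib.MP_177a0e_gt.LT
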