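import Pool.Agent.Lib.MP_177a0e_gt.LT.EA

/-!
# slices on the left of the cut.
-/

namespace Pool.Agent.Lib.MP_177a0e_gt.LT

open Pool.Agent.Lib.MP_177a0e_gt.Tangle Pool.Agent.Lib.MP_177a0e_gt.Tangle.Gen
open Pool.Agent.Lib.MP_177a0e_gt.Sig

theorem mt_left {A A' : List Bool} {V F : Word} {z : Bool} {γ : List Bool} {D : Multiset Cl}
    (hg : γ.length % 2 = 0) (hV : Valid A V A') (hF : Valid (A' ++ z :: γ) F []) (h : Mt A' z γ D F) :
    Mt A z γ (dat 0 V + D) (cx [] V (z :: γ) ++ F) := by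
  obtain ⟨Y₁, hY, hD, hI⟩ := h
  refine ⟨cx γ V [] ++ Y₁, ?_, ?_, ?_⟩
  · have h1 := cx_valid hV γ []
    rw [List.append_nil, List.append_nil] at h1
    exact h1.append hY
  · rw [dat_append, dat_cx_even hg, hD]
  · have hN := nest_valid (z :: γ)
    have s1 : Iso A (A' ++ ((z :: γ) ++ stl (z :: γ))) (cx A (nest (z :: γ)) [] ++ cx [] V ((z :: γ) ++ stl (z :: γ)))
        (V ++ cx A' (nest (z :: γ)) []) := by
      have k := (cx_comm hV hN [] [] []).symm
      simpa only [List.nil_append, List.append_nil, cx_id] using k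
    have vF : Valid (A' ++ ((z :: γ) ++ stl (z :: γ))) (cx [] F (stl (z :: γ))) (stl (z :: γ)) := by
      have k := cx_valid hF [] (stl (z :: γ))
      simpa only [List.nil_append, List.append_assoc] using k
    have s2 := rb_bot s1 vF
    have e2 : mate A (z :: γ) (cx [] V (z :: γ) ++ F) =
        cx A (nest (z :: γ)) [] ++ cx [] V ((z :: γ) ++ stl (z :: γ)) ++ cx [] F (stl (z :: γ)) := by
      unfold mate
      rw [cx_append, cx_cx, List.append_assoc]
      rfl
    have e3 : V ++ cx A' (nest (z :: γ)) [] ++ cx [] F (stl (z :: γ)) = V ++ mate A' (z :: γ) F := by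
      rw [List.append_assoc]
      rfl
    rw [← e2, e3, stl_cons] at s2
    have s3 := rb_top hI hV
    have s4 : Iso A ((stl γ ++ γ) ++ A') (V ++ cx [] (nest (stl γ)) A') (cx [] (nest (stl γ)) A ++ cx (stl γ ++ γ) V []) := by
      have k := (cx_comm (nest_valid (stl γ)) hV [] [] []).symm
      simpa only [List.nil_append, List.append_nil, cx_id, stl_stl] using k
    have vY : Valid ((stl γ ++ γ) ++ A') (cx (stl γ) Y₁ []) (stl γ ++ [!z]) := by
      have k := cx_valid hY (stl γ) []
      simpa only [List.append_nil, List.append_assoc] using k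
    have s5 := rb_bot s4 vY
    have e5 : V ++ cx [] (nest (stl γ)) A' ++ cx (stl γ) Y₁ [] = V ++ (cx [] (nest (stl γ)) A' ++ cx (stl γ) Y₁ []) :=
      List.append_assoc _ _ _
    have e6 : cx [] (nest (stl γ)) A ++ cx (stl γ ++ γ) V [] ++ cx (stl γ) Y₁ [] =
        cx [] (nest (stl γ)) A ++ cx (stl γ) (cx γ V [] ++ Y₁) [] := by
      rw [cx_append, cx_cx, List.append_nil, List.append_assoc]
    rw [e5, e6] at s5
    exact (s2.trans s3).trans s5

end Pool.Agent.Lib.MP_177a0e_gt.LT
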