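import Pool.Agent.Lib.MP_177a0e_gt.LT.EA

/-!
# slices on the right of the cut.
-/

namespace Pool.Agent.Lib.MP_177a0e_gt.LT

open Pool.Agent.Lib.MP_177a0e_gt.Tangle Pool.Agent.Lib.MP_177a0e_gt.Tangle.Gen
open Pool.Agent.Lib.MP_177a0e_gt.Sig

theorem sro_sro (s : Slice) : sro (sro s) = s := by
  obtain ⟨p, g, q⟩ := s
  rcases g with x | x | ⟨s, x, y⟩ <;> simp [sro, gro, stl_stl]

theorem rot_rot (w : Word) : rot (rot w) = w := by
  induction w with
  | nil => rfl
  | cons s w ih =>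
    rw [rot_cons, rot_append, ih]
    simp [rot, sro_sro]

theorem mt_right {A : List Bool} {V F : Word} {z : Bool} {γ γ' : List Bool} {D : Multiset Cl}
    (hV : Valid γ V γ') (hF : Valid (A ++ z :: γ') F []) (h : Mt A z γ' D F) :
    Mt A z γ (dat 0 V + D) (cx (A ++ [z]) V [] ++ F) := by
  obtain ⟨Y₁, hY, hD, I⟩ := h
  have hR : Valid (stl γ') (rot V) (stl γ) := rot_valid hV
  have hVA : Valid (γ ++ A) (cx [] V A) (γ' ++ A) := by
    simpa using cx_valid hV [] A
  refine ⟨cx [] V A ++ Y₁, hVA.append hY, ?_, ?_⟩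
  · rw [dat_append, dat_cx_even (p := []) rfl, hD]
  -- the first step
  have hFs : Valid (A ++ z :: γ' ++ (stl γ ++ [!z])) (cx [] F (stl γ ++ [!z])) (stl γ ++ [!z]) := by
    simpa using cx_valid hF [] (stl γ ++ [!z])
  have s1 : Iso A (stl γ ++ [!z]) (mate A (z :: γ) (cx (A ++ [z]) V [] ++ F))
      (cx A (nest (z :: γ')) [] ++ (cx (A ++ z :: γ') (rot V) [!z] ++ cx [] F (stl γ ++ [!z]))) := by
    have k1 := cx_cob (rot_cup hV) (A ++ [z]) [!z]
    have hu : Valid A [⟨A, cup z, []⟩] (A ++ [z] ++ [] ++ [!z]) := by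
      rw [valid_single]
      simp [Slice.src, Slice.tgt, Gen.src, Gen.tgt]
    have k2 := rb_top k1 hu
    have hv : Valid (A ++ [z] ++ (γ' ++ stl γ) ++ [!z]) (cx [] F (stl γ ++ [!z])) (stl γ ++ [!z]) := by
      simpa [List.append_assoc] using hFs
    have k3 := rb_bot k2 hv
    simpa [mate, nest, List.append_assoc, stl_cons, cx_cx, cx_append] using k3
  -- the second step
  have hN : Valid A (cx A (nest (z :: γ')) []) (A ++ z :: γ' ++ (stl γ' ++ [!z])) := by
    have := cx_valid (nest_valid (z :: γ')) A []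
    simpa [stl_cons, List.append_assoc] using this
  have s2 : Iso A (stl γ ++ [!z])
      (cx A (nest (z :: γ')) [] ++ (cx (A ++ z :: γ') (rot V) [!z] ++ cx [] F (stl γ ++ [!z])))
      (mate A (z :: γ') F ++ cx [] (rot V) [!z]) := by
    have k1 := (cx_comm hF hR [] [] [!z]).symm
    have k2 : Iso (A ++ z :: γ' ++ (stl γ' ++ [!z])) (stl γ ++ [!z])
        (cx (A ++ z :: γ') (rot V) [!z] ++ cx [] F (stl γ ++ [!z]))
        (cx [] F (stl γ' ++ [!z]) ++ cx [] (rot V) [!z]) := by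
      simpa [List.append_assoc] using k1
    have k3 := rb_top k2 hN
    simpa [mate, List.append_assoc, stl_cons] using k3
  -- the third step
  have hRz : Valid (stl γ' ++ [!z]) (cx [] (rot V) [!z]) (stl γ ++ [!z]) := by
    simpa using cx_valid hR [] [!z]
  have s3 : Iso A (stl γ ++ [!z]) (mate A (z :: γ') F ++ cx [] (rot V) [!z])
      (cx [] (nest (stl γ')) A ++ (cx (stl γ') Y₁ [] ++ cx [] (rot V) [!z])) := by
    have k1 := rb_bot I hRz
    simpa [List.append_assoc] using k1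
  -- the fourth step
  have hN' : Valid A (cx [] (nest (stl γ')) A) (stl γ' ++ (γ' ++ A)) := by
    have := cx_valid (nest_valid (stl γ')) [] A
    simpa [stl_stl, List.append_assoc] using this
  have s4 : Iso A (stl γ ++ [!z]) (cx [] (nest (stl γ')) A ++ (cx (stl γ') Y₁ [] ++ cx [] (rot V) [!z]))
      (cx [] (nest (stl γ')) A ++ (cx [] (rot V) (γ' ++ A) ++ cx (stl γ) Y₁ [])) := by
    have k1 := (cx_comm hR hY [] [] []).symm
    have k2 : Iso (stl γ' ++ (γ' ++ A)) (stl γ ++ [!z]) (cx (stl γ') Y₁ [] ++ cx [] (rot V) [!z])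
        (cx [] (rot V) (γ' ++ A) ++ cx (stl γ) Y₁ []) := by
      simpa [List.append_assoc] using k1
    exact rb_top k2 hN'
  -- the fifth step
  have hYs : Valid (stl γ ++ (γ' ++ A)) (cx (stl γ) Y₁ []) (stl γ ++ [!z]) := by
    simpa using cx_valid hY (stl γ) []
  have s5 : Iso A (stl γ ++ [!z]) (cx [] (nest (stl γ')) A ++ (cx [] (rot V) (γ' ++ A) ++ cx (stl γ) Y₁ []))
      (cx [] (nest (stl γ)) A ++ cx (stl γ) (cx [] V A ++ Y₁) []) := by
    have k1 := cx_cob (rot_cup hR) [] A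
    rw [rot_rot, stl_stl] at k1
    have hv : Valid ([] ++ (stl γ ++ γ') ++ A) (cx (stl γ) Y₁ []) (stl γ ++ [!z]) := by
      simpa [List.append_assoc] using hYs
    have k2 := rb_bot k1 hv
    simpa [List.append_assoc, cx_cx, cx_append] using k2
  exact (((s1.trans s2).trans s3).trans s4).trans s5

end Pool.Agent.Lib.MP_177a0e_gt.LT
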