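import Pool.Agent.Lib.MP_177a0e_gt.LT.EA

/-!
# a crossing at the cut.
-/

namespace Pool.Agent.Lib.MP_177a0e_gt.LT

open Pool.Agent.Lib.MP_177a0e_gt.Tangle Pool.Agent.Lib.MP_177a0e_gt.Tangle.Gen
open Pool.Agent.Lib.MP_177a0e_gt.Sig

private theorem ED_par {c e : List Bool} {w : Word} (h : Valid c w e) : c.length % 2 = e.length % 2 := by
  induction w generalizing c with
  | nil =>
    have : c = e := h
    rw [this]
  | cons s w ih =>
    obtain ⟨h1, h2⟩ := h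
    rw [← ih h2, ← h1]
    obtain ⟨p, g, q⟩ := s
    rcases g with x | x | ⟨s, x, y⟩ <;> simp [Slice.src, Slice.tgt, Gen.src, Gen.tgt] <;> omega

private theorem ED_nil (c : List Bool) : Valid c [] c := rfl

theorem cross_core (s a z : Bool) : Iso [a] [z, a, !z]
    [⟨[a], cup z, []⟩, ⟨[], cross s a z, [!z]⟩]
    [⟨[], cup z, [a]⟩, ⟨[z], cup a, [!z, a]⟩, ⟨[z, a], cross s (!a) (!z), [a]⟩, ⟨[z, a, !z], cap (!a), []⟩] := by
  have h1 : Iso [a] [z, a, !z] [⟨[], cup z, [a]⟩, ⟨[z], cross (!s) (!z) a, []⟩]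
      [⟨[a], cup z, []⟩, ⟨[], cross s a z, [!z]⟩] := by
    have h := Rel.slide_cup (!s) z a [] []
    rw [Bool.not_not] at h
    exact rel_cob h ⟨rfl, rfl, rfl⟩ ⟨rfl, rfl, rfl⟩
  have h2 := rb_top (c₀ := [a]) (u := [⟨[], cup z, [a]⟩]) (turn (!s) (!z) a [z] []) ⟨rfl, rfl⟩
  have h3 : Iso [a] [z, a, !z] [⟨[], cup z, [a]⟩, ⟨[z], cross (!s) (!z) a, []⟩]
      [⟨[], cup z, [a]⟩, ⟨[z], cup a, [!z, a]⟩, ⟨[z, a], cross s (!a) (!z), [a]⟩, ⟨[z, a, !z], cap (!a), []⟩] := by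
    simpa [turned] using h2
  exact h1.symm.trans h3

theorem cross_cut (s a z : Bool) (γ : List Bool) : Iso [a] (z :: a :: (γ ++ stl γ ++ [!z]))
    (cx [a] (nest (z :: γ)) [] ++ [⟨[], cross s a z, γ ++ stl γ ++ [!z]⟩])
    ([⟨[], cup z, [a]⟩] ++ cx [z] (nest (a :: γ)) [!z, a] ++
      [⟨z :: a :: (γ ++ stl γ), cross s (!a) (!z), [a]⟩, ⟨z :: a :: (γ ++ stl γ ++ [!z]), cap (!a), []⟩]) := by
  have e1 : nest (z :: γ) = ⟨[], cup z, []⟩ :: cx [z] (nest γ) [!z] := rfl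
  have e2 : nest (a :: γ) = ⟨[], cup a, []⟩ :: cx [a] (nest γ) [!a] := rfl
  have hx : Valid [a, z] [(⟨[], cross s a z, []⟩ : Slice)] [z, a] := ⟨rfl, rfl⟩
  have hv : Valid [!a, !z, a] [(⟨[], cross s (!a) (!z), [a]⟩ : Slice), ⟨[!z], cap (!a), []⟩] [!z] := by
    simp [Valid, Slice.src, Slice.tgt, Gen.src, Gen.tgt]
  have hn := nest_valid γ
  have k1 : Iso [a, z, !z] (z :: a :: (γ ++ stl γ ++ [!z]))
      (cx [a, z] (nest γ) [!z] ++ [⟨[], cross s a z, γ ++ stl γ ++ [!z]⟩])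
      ([⟨[], cross s a z, [!z]⟩] ++ cx [z, a] (nest γ) [!z]) := by
    have := (cx_comm hx hn [] [] [!z]).symm
    simpa [List.append_assoc] using this
  have k2 : Iso [z, a, !a, !z, a] (z :: a :: (γ ++ stl γ ++ [!z]))
      (cx [z, a] (nest γ) [!a, !z, a] ++
        [⟨z :: a :: (γ ++ stl γ), cross s (!a) (!z), [a]⟩, ⟨z :: a :: (γ ++ stl γ ++ [!z]), cap (!a), []⟩])
      ([⟨[z, a], cross s (!a) (!z), [a]⟩, ⟨[z, a, !z], cap (!a), []⟩] ++ cx [z, a] (nest γ) [!z]) := by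
    have := cx_comm hn hv [z, a] [] []
    simpa [List.append_assoc] using this
  have v1 : Valid [z, a, !z] (cx [z, a] (nest γ) [!z]) (z :: a :: (γ ++ stl γ ++ [!z])) := by
    have := cx_valid hn [z, a] [!z]
    simpa [List.append_assoc] using this
  have t1 := rb_top (c₀ := [a]) (u := [⟨[a], cup z, []⟩]) k1 ⟨rfl, rfl⟩
  have t2 := rb_bot (cross_core s a z) v1
  have t3 := rb_top (c₀ := [a]) (u := [⟨[], cup z, [a]⟩, ⟨[z], cup a, [!z, a]⟩]) k2 ⟨rfl, rfl, rfl⟩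
  have u1 : Iso [a] (z :: a :: (γ ++ stl γ ++ [!z]))
      (cx [a] (nest (z :: γ)) [] ++ [⟨[], cross s a z, γ ++ stl γ ++ [!z]⟩])
      ([⟨[a], cup z, []⟩, ⟨[], cross s a z, [!z]⟩] ++ cx [z, a] (nest γ) [!z]) := by
    rw [e1]
    simpa [List.append_assoc, cx_cx] using t1
  have u3 : Iso [a] (z :: a :: (γ ++ stl γ ++ [!z]))
      ([⟨[], cup z, [a]⟩] ++ cx [z] (nest (a :: γ)) [!z, a] ++
      [⟨z :: a :: (γ ++ stl γ), cross s (!a) (!z), [a]⟩, ⟨z :: a :: (γ ++ stl γ ++ [!z]), cap (!a), []⟩])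
      ([⟨[], cup z, [a]⟩, ⟨[z], cup a, [!z, a]⟩, ⟨[z, a], cross s (!a) (!z), [a]⟩, ⟨[z, a, !z], cap (!a), []⟩] ++
        cx [z, a] (nest γ) [!z]) := by
    rw [e2]
    simpa [List.append_assoc, cx_cx] using t3
  exact (u1.trans t2).trans u3.symm

theorem mt_cross {m γ : List Bool} {s a z : Bool} {F : Word} {D : Multiset Cl} (hm : m.length % 2 = 0)
    (hF : Valid (m ++ z :: a :: γ) F []) (h : Mt (m ++ [z]) a γ D F) :
    Mt (m ++ [a]) z γ (ld 0 ⟨m, cross s a z, γ⟩ + D) (⟨m, cross s a z, γ⟩ :: F) := by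
  obtain ⟨Y₁, hY, hD, I⟩ := h
  have hγ : γ.length % 2 = 0 := by
    have := ED_par hF
    simp at this
    omega
  refine ⟨⟨γ ++ m, cup z, [a]⟩ :: (cx [] Y₁ [!z, a] ++ [⟨[], cross s (!a) (!z), [a]⟩, ⟨[!z], cap (!a), []⟩]),
    ?_, ?_, ?_⟩
  · refine ⟨by simp [Slice.src, Gen.src], ?_⟩
    have v1 := cx_valid hY [] [!z, a]
    have v2 : Valid [!a, !z, a] [(⟨[], cross s (!a) (!z), [a]⟩ : Slice), ⟨[!z], cap (!a), []⟩] [!z] := by
      simp [Valid, Slice.src, Slice.tgt, Gen.src, Gen.tgt]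
    have v3 := v1.append v2
    simpa [Slice.tgt, Gen.tgt, List.append_assoc] using v3
  · rw [dat_cons, dat_append, dat_cx, dat_cons, dat_single]
    have h0 : dat (0 + ([] : List Bool).length) Y₁ = D := hD
    rw [h0]
    have h1 : ld 0 ⟨γ ++ m, cup z, [a]⟩ = 0 := by
      simp [ld, List.length_append]
      omega
    have h2 : ld 0 ⟨[!z], cap (!a), []⟩ = 0 := by
      simp [ld]
    have h3 : ld 0 ⟨[], cross s (!a) (!z), [a]⟩ = ld 0 ⟨m, cross s a z, γ⟩ := by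
      have hg : gpos (cross s (!a) (!z)) = gpos (cross s a z) := by
        cases s <;> cases a <;> cases z <;> rfl
      simp [ld, hm, hg]
    rw [h1, h2, h3]
    simp [add_comm]
  · have eP : stl (a :: γ) = stl γ ++ [!a] := stl_cons a γ
    have eQ : stl (z :: γ) = stl γ ++ [!z] := stl_cons z γ
    have hn : Valid [] (nest (stl γ)) (stl γ ++ γ) := by
      have := nest_valid (stl γ)
      rwa [stl_stl] at this
    have hv : Valid (stl γ ++ [!a, !z, a]) [(⟨stl γ, cross s (!a) (!z), [a]⟩ : Slice), ⟨stl γ ++ [!z], cap (!a), []⟩]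
        (stl γ ++ [!z]) := by
      simp [Valid, Slice.src, Slice.tgt, Gen.src, Gen.tgt]
    have hc : Valid m [(⟨m, cup z, []⟩ : Slice)] (m ++ [z, !z]) := by
      simp [Valid, Slice.src, Slice.tgt, Gen.src, Gen.tgt]
    have r1 : Iso (m ++ [a]) (stl γ ++ γ ++ m ++ [z, !z, a])
        (cx [] (nest (stl γ)) (m ++ [a]) ++ [⟨stl γ ++ γ ++ m, cup z, [a]⟩])
        ([⟨m, cup z, [a]⟩] ++ cx [] (nest (stl γ)) (m ++ [z, !z, a])) := by
      have := cx_comm hn hc [] [] [a]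
      simpa [List.append_assoc] using this
    have r2 : Iso (m ++ [z, !z, a]) (stl γ ++ [!a, !z, a])
        (cx [] (nest (stl γ)) (m ++ [z, !z, a]) ++ cx (stl γ) Y₁ [!z, a])
        (cx (m ++ [z]) (nest (a :: γ)) [!z, a] ++ cx [] F (stl γ ++ [!a, !z, a])) := by
      have := (cx_cob I [] [!z, a]).symm
      simpa [mate, eP, cx_append, cx_cx, List.append_assoc] using this
    have r3 : Iso (m ++ z :: a :: γ ++ (stl γ ++ [!a, !z, a])) (stl γ ++ [!z])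
        (cx [] F (stl γ ++ [!a, !z, a]) ++ [⟨stl γ, cross s (!a) (!z), [a]⟩, ⟨stl γ ++ [!z], cap (!a), []⟩])
        ([⟨m ++ z :: a :: γ ++ stl γ, cross s (!a) (!z), [a]⟩, ⟨m ++ z :: a :: γ ++ (stl γ ++ [!z]), cap (!a), []⟩] ++
          cx [] F (stl γ ++ [!z])) := by
      have := cx_comm hF hv [] [] []
      simpa [List.append_assoc] using this
    have r4 : Iso (m ++ [a]) (m ++ z :: a :: (γ ++ stl γ ++ [!z]))
        (cx (m ++ [a]) (nest (z :: γ)) [] ++ [⟨m, cross s a z, γ ++ stl γ ++ [!z]⟩])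
        ([⟨m, cup z, [a]⟩] ++ cx (m ++ [z]) (nest (a :: γ)) [!z, a] ++
          [⟨m ++ z :: a :: (γ ++ stl γ), cross s (!a) (!z), [a]⟩,
            ⟨m ++ z :: a :: (γ ++ stl γ ++ [!z]), cap (!a), []⟩]) := by
      have := cx_cob (cross_cut s a z γ) m []
      simpa [cx_append, cx_cx, List.append_assoc] using this
    have vF : Valid (m ++ z :: a :: (γ ++ stl γ ++ [!z])) (cx [] F (stl γ ++ [!z])) (stl γ ++ [!z]) := by
      have := cx_valid hF [] (stl γ ++ [!z])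
      simpa [List.append_assoc] using this
    have vc : Valid (m ++ [a]) [(⟨m, cup z, [a]⟩ : Slice)] (m ++ [z, !z, a]) := by
      simp [Valid, Slice.src, Slice.tgt, Gen.src, Gen.tgt]
    have vN : Valid (m ++ [z, !z, a]) (cx (m ++ [z]) (nest (a :: γ)) [!z, a])
        (m ++ z :: a :: γ ++ (stl γ ++ [!a, !z, a])) := by
      have := cx_valid (nest_valid (a :: γ)) (m ++ [z]) [!z, a]
      rw [eP] at this
      simpa [List.append_assoc] using this
    have vY : Valid (stl γ ++ γ ++ m ++ [z, !z, a]) (cx (stl γ) Y₁ [!z, a]) (stl γ ++ [!a, !z, a]) := by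
      have := cx_valid hY (stl γ) [!z, a]
      simpa [List.append_assoc] using this
    have t1 := rb_bot r1 (vY.append hv)
    have t2 := r2.ctx vc hv
    have t3 := rb_top r3 (vc.append vN)
    have t4 := rb_bot r4 vF
    have u1 : Iso (m ++ [a]) (stl γ ++ [!z])
        (cx [] (nest (stl γ)) (m ++ [a]) ++ cx (stl γ) (⟨γ ++ m, cup z, [a]⟩ :: (cx [] Y₁ [!z, a] ++
          [⟨[], cross s (!a) (!z), [a]⟩, ⟨[!z], cap (!a), []⟩])) [])
        ([⟨m, cup z, [a]⟩] ++ (cx [] (nest (stl γ)) (m ++ [z, !z, a]) ++ cx (stl γ) Y₁ [!z, a]) ++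
          [⟨stl γ, cross s (!a) (!z), [a]⟩, ⟨stl γ ++ [!z], cap (!a), []⟩]) := by
      simpa [List.append_assoc, cx_append, cx_cx] using t1
    have u2 : Iso (m ++ [a]) (stl γ ++ [!z])
        ([⟨m, cup z, [a]⟩] ++ (cx (m ++ [z]) (nest (a :: γ)) [!z, a] ++ cx [] F (stl γ ++ [!a, !z, a])) ++
          [⟨stl γ, cross s (!a) (!z), [a]⟩, ⟨stl γ ++ [!z], cap (!a), []⟩])
        ([⟨m, cup z, [a]⟩] ++ cx (m ++ [z]) (nest (a :: γ)) [!z, a] ++
          [⟨m ++ z :: a :: (γ ++ stl γ), cross s (!a) (!z), [a]⟩,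
            ⟨m ++ z :: a :: (γ ++ stl γ ++ [!z]), cap (!a), []⟩] ++ cx [] F (stl γ ++ [!z])) := by
      simpa [List.append_assoc] using t3
    have u3 : Iso (m ++ [a]) (stl γ ++ [!z])
        (mate (m ++ [a]) (z :: γ) (⟨m, cross s a z, γ⟩ :: F))
        ([⟨m, cup z, [a]⟩] ++ cx (m ++ [z]) (nest (a :: γ)) [!z, a] ++
          [⟨m ++ z :: a :: (γ ++ stl γ), cross s (!a) (!z), [a]⟩,
            ⟨m ++ z :: a :: (γ ++ stl γ ++ [!z]), cap (!a), []⟩] ++ cx [] F (stl γ ++ [!z])) := by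
      simpa [mate, eQ, List.append_assoc] using t4
    exact (u3.trans u2.symm).trans (t2.symm.trans u1.symm)

end Pool.Agent.Lib.MP_177a0e_gt.LT
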