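import Pool.Agent.Lib.MP_177a0e_gt.LT.EA

/-!
# a maximum on the right of the cut; the last maximum.
-/

namespace Pool.Agent.Lib.MP_177a0e_gt.LT

open Pool.Agent.Lib.MP_177a0e_gt.Tangle Pool.Agent.Lib.MP_177a0e_gt.Tangle.Gen
open Pool.Agent.Lib.MP_177a0e_gt.Sig

theorem mt_base (x : Bool) : Mt [x] (!x) [] 0 [⟨[], cap x, []⟩] := by
  refine ⟨[], ?_, dat_nil 0, ?_⟩
  · cases x <;> rfl
  · cases x
    · exact rel_cob (Rel.zigzag₁ false [] []) ⟨rfl, rfl, rfl⟩ rfl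
    · exact rel_cob (Rel.zigzag₁ true [] []) ⟨rfl, rfl, rfl⟩ rfl

private theorem EE_tr {c e : List Bool} {w w' w'' : Word} (h : Iso c e w w') (h' : Iso c e w' w'') :
    Iso c e w w'' := h.trans h'

/-- the three slices of the right side -/
theorem cap_core (f z : Bool) : Iso [!f] [!f, z, !z]
    [⟨[], cup (!f), [!f]⟩, ⟨[!f], cup z, [f, !f]⟩, ⟨[!f, z, !z], cap f, []⟩] [⟨[!f], cup z, []⟩] := by
  have h1 : Iso [!f] [!f, z, !z]
      [⟨[], cup (!f), [!f]⟩, ⟨[!f], cup z, [f, !f]⟩, ⟨[!f, z, !z], cap f, []⟩]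
      [⟨[], cup (!f), [!f]⟩, ⟨[!f], cap f, []⟩, ⟨[!f], cup z, []⟩] := by
    cases f <;> cases z
    · exact xe_step [⟨[], cup true, [true]⟩] [] (Rel.interchange (cup false) (cap false) [true] [] [])
        ⟨rfl, rfl, rfl, rfl⟩ ⟨rfl, rfl, rfl, rfl⟩
    · exact xe_step [⟨[], cup true, [true]⟩] [] (Rel.interchange (cup true) (cap false) [true] [] [])
        ⟨rfl, rfl, rfl, rfl⟩ ⟨rfl, rfl, rfl, rfl⟩
    · exact xe_step [⟨[], cup false, [false]⟩] [] (Rel.interchange (cup false) (cap true) [false] [] [])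
        ⟨rfl, rfl, rfl, rfl⟩ ⟨rfl, rfl, rfl, rfl⟩
    · exact xe_step [⟨[], cup false, [false]⟩] [] (Rel.interchange (cup true) (cap true) [false] [] [])
        ⟨rfl, rfl, rfl, rfl⟩ ⟨rfl, rfl, rfl, rfl⟩
  have h2 : Iso [!f] [!f, z, !z]
      [⟨[], cup (!f), [!f]⟩, ⟨[!f], cap f, []⟩, ⟨[!f], cup z, []⟩] [⟨[!f], cup z, []⟩] := by
    cases f
    · exact xe_step [] [⟨[true], cup z, []⟩] (Rel.zigzag₂ true [] []) ⟨rfl, rfl, rfl, rfl⟩ ⟨rfl, rfl⟩
    · exact xe_step [] [⟨[false], cup z, []⟩] (Rel.zigzag₂ false [] []) ⟨rfl, rfl, rfl, rfl⟩ ⟨rfl, rfl⟩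
  exact EE_tr h1 h2

/-- two more strands, nested -/
private theorem EE_nest (z : Bool) (B : List Bool) : nest (z :: (!z) :: B) =
    ⟨[], cup z, []⟩ :: ⟨[z], cup (!z), [!z]⟩ :: cx [z, !z] (nest B) [z, !z] := by
  simp [nest, cx_cx]

private theorem EE_stl (z : Bool) (B : List Bool) : stl (z :: (!z) :: B) = stl B ++ [z, !z] := by
  simp [stl_cons]

/-- the left side -/
private theorem EE_left {A B : List Bool} {z : Bool} {F : Word} (hF : Valid (A ++ B) F []) :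
    Iso A (stl B ++ [z, !z]) (mate A (z :: (!z) :: B) (⟨A, cap z, B⟩ :: F))
      (mate A B F ++ [⟨stl B, cup z, []⟩]) := by
  have hcup : Valid [] [(⟨[], cup z, []⟩ : Slice)] [z, !z] := ⟨rfl, rfl⟩
  have hcap : Valid [z, !z] [(⟨[], cap z, []⟩ : Slice)] [] := ⟨rfl, rfl⟩
  have e0 : mate A (z :: (!z) :: B) (⟨A, cap z, B⟩ :: F) =
      [⟨A, cup z, []⟩, ⟨A ++ [z], cup (!z), [!z]⟩] ++ (cx (A ++ [z, !z]) (nest B) [z, !z] ++
        [⟨A, cap z, B ++ stl B ++ [z, !z]⟩]) ++ cx [] F (stl B ++ [z, !z]) := by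
    unfold mate
    rw [EE_nest, EE_stl]
    simp [cx_cx]
  -- validity of the pieces
  have v1 : Valid A [(⟨A, cup z, []⟩ : Slice)] (A ++ [z, !z]) := by
    simp [Valid, Slice.src, Slice.tgt, Gen.src, Gen.tgt]
  have v2 : Valid (A ++ [z, !z]) [(⟨A ++ [z], cup (!z), [!z]⟩ : Slice)] (A ++ [z, !z, z, !z]) := by
    simp [Valid, Slice.src, Slice.tgt, Gen.src, Gen.tgt]
  have v3 : Valid (A ++ [z, !z]) (cx A (nest B) [z, !z]) (A ++ B ++ stl B ++ [z, !z]) := by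
    have := cx_valid (nest_valid B) A [z, !z]
    simpa [List.append_assoc] using this
  have v4 : Valid (A ++ B ++ stl B ++ [z, !z]) (cx [] F (stl B ++ [z, !z])) (stl B ++ [z, !z]) := by
    have := cx_valid hF [] (stl B ++ [z, !z])
    simpa [List.append_assoc] using this
  have v12 : Valid A [(⟨A, cup z, []⟩ : Slice), ⟨A ++ [z], cup (!z), [!z]⟩] (A ++ [z, !z, z, !z]) := v1.append v2
  -- the maximum and the nested minima
  have l1 : Iso (A ++ [z, !z, z, !z]) (A ++ B ++ stl B ++ [z, !z])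
      (cx (A ++ [z, !z]) (nest B) [z, !z] ++ [⟨A, cap z, B ++ stl B ++ [z, !z]⟩])
      ([⟨A, cap z, [z, !z]⟩] ++ cx A (nest B) [z, !z]) := by
    have := (cx_comm hcap (nest_valid B) A [] [z, !z]).symm
    simpa [List.append_assoc] using this
  have l1' : Iso A (stl B ++ [z, !z])
      ([⟨A, cup z, []⟩, ⟨A ++ [z], cup (!z), [!z]⟩] ++ (cx (A ++ [z, !z]) (nest B) [z, !z] ++
        [⟨A, cap z, B ++ stl B ++ [z, !z]⟩]) ++ cx [] F (stl B ++ [z, !z]))
      ([⟨A, cup z, []⟩, ⟨A ++ [z], cup (!z), [!z]⟩] ++ ([⟨A, cap z, [z, !z]⟩] ++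
        cx A (nest B) [z, !z]) ++ cx [] F (stl B ++ [z, !z])) := l1.ctx v12 v4
  -- the zigzag
  have l2 : Iso (A ++ [z, !z]) (A ++ [z, !z]) [⟨A ++ [z], cup (!z), [!z]⟩, ⟨A, cap z, [z, !z]⟩] [] := by
    refine rel_cob (Rel.zigzag₁ z A [!z]) ?_ rfl
    simp [Valid, Slice.src, Slice.tgt, Gen.src, Gen.tgt]
  have l2' : Iso A (stl B ++ [z, !z])
      ([⟨A, cup z, []⟩] ++ [⟨A ++ [z], cup (!z), [!z]⟩, ⟨A, cap z, [z, !z]⟩] ++
        (cx A (nest B) [z, !z] ++ cx [] F (stl B ++ [z, !z])))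
      ([⟨A, cup z, []⟩] ++ [] ++ (cx A (nest B) [z, !z] ++ cx [] F (stl B ++ [z, !z]))) := l2.ctx v1 (v3.append v4)
  -- the new minimum moves to the top
  have l3 : Iso A (stl B ++ [z, !z]) ([⟨A, cup z, []⟩] ++ cx [] (mate A B F) [z, !z])
      (mate A B F ++ [⟨stl B, cup z, []⟩]) := by
    have := (cx_comm (mate_valid hF) hcup [] [] []).symm
    simpa [List.append_assoc, cx_id] using this
  have e3 : cx [] (mate A B F) [z, !z] = cx A (nest B) [z, !z] ++ cx [] F (stl B ++ [z, !z]) := by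
    unfold mate
    rw [cx_append, cx_cx, cx_cx]
    simp
  rw [e3] at l3
  rw [e0]
  have l12 : Iso A (stl B ++ [z, !z])
      ([⟨A, cup z, []⟩, ⟨A ++ [z], cup (!z), [!z]⟩] ++ (cx (A ++ [z, !z]) (nest B) [z, !z] ++
        [⟨A, cap z, B ++ stl B ++ [z, !z]⟩]) ++ cx [] F (stl B ++ [z, !z]))
      ([⟨A, cup z, []⟩] ++ (cx A (nest B) [z, !z] ++ cx [] F (stl B ++ [z, !z]))) := by
    refine EE_tr l1' ?_
    simpa [List.append_assoc] using l2'
  exact EE_tr l12 l3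

/-- the right side -/
private theorem EE_right {A γ : List Bool} {z f : Bool} {Y : Word} (hY : Valid (γ ++ A) Y [!f]) :
    Iso A (stl γ ++ [!f, z, !z])
      (cx [] (nest (stl ((!z) :: f :: γ))) A ++
        cx (stl ((!z) :: f :: γ)) (cx [!z, f] Y [] ++ [⟨[!z], cap f, []⟩]) [])
      (cx [] (nest (stl γ)) A ++ cx (stl γ) Y [] ++ [⟨stl γ ++ [!f], cup z, []⟩]) := by
  have es : stl ((!z) :: f :: γ) = stl γ ++ [!f, z] := by
    simp [stl_cons]
  have en : nest [!f, z] = [⟨[], cup (!f), []⟩, ⟨[!f], cup z, [f]⟩] := by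
    simp [nest]
  have hn : Valid [] (nest [!f, z]) [!f, z, !z, f] := by
    have := nest_valid [!f, z]
    simpa [stl] using this
  have e0 : cx [] (nest (stl ((!z) :: f :: γ))) A ++
        cx (stl ((!z) :: f :: γ)) (cx [!z, f] Y [] ++ [⟨[!z], cap f, []⟩]) [] =
      cx [] (nest (stl γ)) A ++ (cx (stl γ) (nest [!f, z]) (γ ++ A) ++ cx (stl γ ++ [!f, z, !z, f]) Y []) ++
        [⟨stl γ ++ [!f, z, !z], cap f, []⟩] := by
    rw [es, nest_append, stl_stl, cx_append, cx_append, cx_cx, cx_cx]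
    simp [List.append_assoc]
  have v1 : Valid A (cx [] (nest (stl γ)) A) (stl γ ++ γ ++ A) := by
    have := cx_valid (nest_valid (stl γ)) [] A
    simpa [List.append_assoc, stl_stl] using this
  have v2 : Valid (stl γ ++ γ ++ A) (cx (stl γ) Y []) (stl γ ++ [!f]) := by
    have := cx_valid hY (stl γ) []
    simpa [List.append_assoc] using this
  have v3 : Valid (stl γ ++ [!f, z, !z, f, !f]) [(⟨stl γ ++ [!f, z, !z], cap f, []⟩ : Slice)]
      (stl γ ++ [!f, z, !z]) := by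
    simp [Valid, Slice.src, Slice.tgt, Gen.src, Gen.tgt]
  have r1 : Iso (stl γ ++ γ ++ A) (stl γ ++ [!f, z, !z, f, !f])
      (cx (stl γ) (nest [!f, z]) (γ ++ A) ++ cx (stl γ ++ [!f, z, !z, f]) Y [])
      (cx (stl γ) Y [] ++ cx (stl γ) (nest [!f, z]) [!f]) := by
    have := cx_comm hn hY (stl γ) [] []
    simpa [List.append_assoc] using this
  have r1' : Iso A (stl γ ++ [!f, z, !z])
      (cx [] (nest (stl γ)) A ++ (cx (stl γ) (nest [!f, z]) (γ ++ A) ++ cx (stl γ ++ [!f, z, !z, f]) Y []) ++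
        [⟨stl γ ++ [!f, z, !z], cap f, []⟩])
      (cx [] (nest (stl γ)) A ++ (cx (stl γ) Y [] ++ cx (stl γ) (nest [!f, z]) [!f]) ++
        [⟨stl γ ++ [!f, z, !z], cap f, []⟩]) := r1.ctx v1 v3
  have r2 : Iso (stl γ ++ [!f]) (stl γ ++ [!f, z, !z])
      (cx (stl γ) (nest [!f, z]) [!f] ++ [⟨stl γ ++ [!f, z, !z], cap f, []⟩])
      [⟨stl γ ++ [!f], cup z, []⟩] := by
    have := cx_cob (cap_core f z) (stl γ) []
    rw [en]
    simpa [List.append_assoc] using this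
  have r2' : Iso A (stl γ ++ [!f, z, !z])
      (cx [] (nest (stl γ)) A ++ cx (stl γ) Y [] ++
        (cx (stl γ) (nest [!f, z]) [!f] ++ [⟨stl γ ++ [!f, z, !z], cap f, []⟩]))
      (cx [] (nest (stl γ)) A ++ cx (stl γ) Y [] ++ [⟨stl γ ++ [!f], cup z, []⟩]) := rb_top r2 (v1.append v2)
  rw [e0]
  refine EE_tr r1' ?_
  rw [List.append_assoc, List.append_assoc, ← List.append_assoc (cx [] (nest (stl γ)) A)]
  exact r2'

theorem mt_cap {A γ : List Bool} {z f : Bool} {F : Word} {D : Multiset Cl}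
    (hF : Valid (A ++ f :: γ) F []) (h : Mt A f γ D F) :
    Mt A z ((!z) :: f :: γ) D (⟨A, cap z, f :: γ⟩ :: F) := by
  obtain ⟨Y, hY, hD, hI⟩ := h
  refine ⟨cx [!z, f] Y [] ++ [⟨[!z], cap f, []⟩], ?_, ?_, ?_⟩
  · have v1 := cx_valid hY [!z, f] []
    have v2 : Valid [!z, f, !f] [(⟨[!z], cap f, []⟩ : Slice)] [!z] := ⟨rfl, rfl⟩
    have v1' : Valid ((!z) :: f :: γ ++ A) (cx [!z, f] Y []) [!z, f, !f] := by
      simpa [List.append_assoc] using v1
    exact v1'.append v2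
  · rw [dat_append, dat_cx_even (by simp), hD, dat_single]
    simp [ld]
  · have l := EE_left (z := z) hF
    rw [stl_cons f γ] at l
    have vz : Valid (stl γ ++ [!f]) [(⟨stl γ ++ [!f], cup z, []⟩ : Slice)] (stl γ ++ [!f, z, !z]) := by
      simp [Valid, Slice.src, Slice.tgt, Gen.src, Gen.tgt]
    have m := rb_bot hI vz
    have r := (EE_right (z := z) hY).symm
    have l' : Iso A (stl γ ++ [!f, z, !z]) (mate A (z :: (!z) :: f :: γ) (⟨A, cap z, f :: γ⟩ :: F))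
        (mate A (f :: γ) F ++ [⟨stl γ ++ [!f], cup z, []⟩]) := by
      simpa [List.append_assoc] using l
    have key := EE_tr (EE_tr l' m) r
    have e : stl ((!z) :: f :: γ) ++ [!z] = stl γ ++ [!f, z, !z] := by
      simp [stl_cons]
    rw [e]
    exact key

end Pool.Agent.Lib.MP_177a0e_gt.LT
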