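import Pool.Agent.Lib.MP_177a0e_gt.LT.EB
import Pool.Agent.Lib.MP_177a0e_gt.LT.ED
import Pool.Agent.Lib.MP_177a0e_gt.LT.EE

/-!
# a crossing on the right of the cut.
-/

namespace Pool.Agent.Lib.MP_177a0e_gt.LT

open Pool.Agent.Lib.MP_177a0e_gt.Tangle Pool.Agent.Lib.MP_177a0e_gt.Tangle.Gen
open Pool.Agent.Lib.MP_177a0e_gt.Sig

theorem mt_odd {A γ : List Bool} {s z e f : Bool} {F : Word} {D : Multiset Cl} (hA : A.length % 2 = 1)
    (hg : γ.length % 2 = 0) (hF : Valid (A ++ e :: z :: f :: γ) F []) (h : Mt (A ++ [e, z]) f γ D F) :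
    Mt A z (e :: f :: γ) (ld 0 ⟨A, cross s z e, f :: γ⟩ + D) (⟨A, cross s z e, f :: γ⟩ :: F) := by
  have h1 : Mt (A ++ [e, z]) (!e) (e :: f :: γ) D (⟨A ++ [e, z], cap (!e), f :: γ⟩ :: F) := by
    have k := mt_cap (z := !e) (by simpa using hF) h
    rwa [Bool.not_not] at k
  have v1 : Valid (A ++ [e] ++ z :: (!e) :: e :: f :: γ) (⟨A ++ [e, z], cap (!e), f :: γ⟩ :: F) [] := by
    refine ⟨?_, ?_⟩
    · simp [Slice.src, Gen.src]
    · simpa [Slice.tgt, Gen.tgt] using hF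
  have h2 : Mt (A ++ [e] ++ [!e]) z (e :: f :: γ) (ld 0 ⟨A ++ [e], cross (!s) (!e) z, e :: f :: γ⟩ + D)
      (⟨A ++ [e], cross (!s) (!e) z, e :: f :: γ⟩ :: ⟨A ++ [e, z], cap (!e), f :: γ⟩ :: F) := by
    refine mt_cross ?_ v1 ?_
    · rw [List.length_append, List.length_singleton]
      omega
    · rw [show A ++ [e] ++ [z] = A ++ [e, z] by simp]
      exact h1
  have v2 : Valid (A ++ [e, !e] ++ z :: e :: f :: γ)
      (⟨A ++ [e], cross (!s) (!e) z, e :: f :: γ⟩ :: ⟨A ++ [e, z], cap (!e), f :: γ⟩ :: F) [] := by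
    refine ⟨?_, ?_⟩
    · simp [Slice.src, Gen.src]
    · simpa [Slice.tgt, Gen.tgt] using v1
  have hV : Valid A [⟨A, cup e, []⟩] (A ++ [e, !e]) := by
    refine ⟨?_, ?_⟩
    · simp [Slice.src, Gen.src]
    · show _ = _
      simp [Slice.tgt, Gen.tgt]
  have h3 := mt_left (γ := e :: f :: γ) (z := z) (by simp only [List.length_cons]; omega) hV v2 (by
    rw [show A ++ [e, !e] = A ++ [e] ++ [!e] by simp]
    exact h2)
  have hI : Iso (A ++ z :: e :: f :: γ) []
      (cx [] [⟨A, cup e, []⟩] (z :: e :: f :: γ) ++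
        ⟨A ++ [e], cross (!s) (!e) z, e :: f :: γ⟩ :: ⟨A ++ [e, z], cap (!e), f :: γ⟩ :: F)
      (⟨A, cross s z e, f :: γ⟩ :: F) := by
    have k := (turn s z e A (f :: γ)).symm
    have vF : Valid (A ++ [e, z] ++ f :: γ) F [] := by simpa using hF
    have k2 := rb_bot k vF
    simpa [turned] using k2
  have h4 := mt_iso hI h3
  have hD : dat 0 [⟨A, cup e, []⟩] + (ld 0 ⟨A ++ [e], cross (!s) (!e) z, e :: f :: γ⟩ + D) =
      ld 0 ⟨A, cross s z e, f :: γ⟩ + D := by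
    rw [← add_assoc]
    congr 1
    have e1 : (0 + A.length) % 2 = 1 := by omega
    have e2 : (0 + (A ++ [e]).length) % 2 = 0 := by
      rw [List.length_append, List.length_singleton]
      omega
    have e3 : gpos (cross (!s) (!e) z) = gpos (cross s z e) := by
      cases s <;> cases e <;> cases z <;> rfl
    rw [dat_single]
    unfold ld
    simp only [e1, e2, e3]
    cases s <;> simp
  rw [hD] at h4
  exact h4

end Pool.Agent.Lib.MP_177a0e_gt.LT
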