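import Pool.Agent.Lib.MP_177a0e_gt.LT.EC

/-!
# straightening several strands, rotation around maxima.
-/

namespace Pool.Agent.Lib.MP_177a0e_gt.LT

open Pool.Agent.Lib.MP_177a0e_gt.Tangle Pool.Agent.Lib.MP_177a0e_gt.Tangle.Gen
open Pool.Agent.Lib.MP_177a0e_gt.Sig

theorem rot_cup' {a b : List Bool} {w : Word} (h : Valid a w b) :
    Iso [] (stl a ++ b) (nest (stl a) ++ cx (stl a) w []) (nest (stl b) ++ cx [] (rot w) b) := by
  have h1 := rot_cup (rot_valid h)
  rw [stl_stl, rot_rot] at h1
  exact h1.symm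

theorem rot_cap {a b : List Bool} {w : Word} (h : Valid a w b) :
    Iso (stl b ++ a) [] (cx (stl b) w [] ++ Tangle.adj (nest (stl b))) (cx [] (rot w) a ++ Tangle.adj (nest (stl a))) := by
  have h1 := cob_adj2 (rot_cup (rot_valid h.adj))
  rw [stl_stl, rot_rot, Tangle.adj_append, Tangle.adj_append, cx_adj, cx_adj, rot_adj, Tangle.adj_adj] at h1
  exact h1.symm

theorem nest_zig (B : List Bool) : Iso B B (cx [] (nest B) B ++ cx B (Tangle.adj (nest (stl B))) []) [] := by
  induction B with
  | nil => exact Cob.refl rfl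
  | cons x B ih =>
    -- the two halves of the word
    have e1 : nest (stl (x :: B)) = nest (stl B) ++ [⟨stl B, cup (!x), B⟩] := by
      rw [stl_cons, nest_append, stl_stl]
      simp [nest]
    have e2 : Tangle.adj (nest (stl (x :: B))) = ⟨stl B, cap (!x), B⟩ :: Tangle.adj (nest (stl B)) := by
      rw [e1, Tangle.adj_append]
      rfl
    have e3 : cx [] (nest (x :: B)) (x :: B) = ⟨[], cup x, x :: B⟩ :: cx [x] (nest B) ((!x) :: x :: B) := by
      show _ :: cx [] (cx [x] (nest B) [!x]) (x :: B) = _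
      rw [cx_cx]
      rfl
    have e4 : cx (x :: B) (Tangle.adj (nest (stl (x :: B)))) [] =
        ⟨x :: (B ++ stl B), cap (!x), B⟩ :: cx (x :: B) (Tangle.adj (nest (stl B))) [] := by
      rw [e2, cx_cons]
      simp
    rw [e3, e4]
    -- the words below and above
    have v1 : Valid (x :: B) (cx [x] (nest B) B) (x :: (B ++ (stl B ++ B))) := by
      have := cx_valid (nest_valid B) [x] B
      simpa using this
    have v2 : Valid (x :: (B ++ (stl B ++ B))) (cx (x :: B) (Tangle.adj (nest (stl B))) []) (x :: B) := by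
      have := cx_valid (nest_valid (stl B)).adj (x :: B) []
      simpa [stl_stl] using this
    have v3 : Valid (x :: B) [⟨[], cup x, x :: B⟩] (x :: (!x) :: x :: B) := by
      simp [Valid, Slice.src, Slice.tgt, Gen.src, Gen.tgt]
    -- exchange the maximum with `nest B`
    have hc : Valid [!x, x] [⟨[], cap (!x), []⟩] [] := by
      simp [Valid, Slice.src, Slice.tgt, Gen.src, Gen.tgt]
    have k1 : Iso (x :: (!x) :: x :: B) (x :: (B ++ (stl B ++ B)))
        (cx [x] (nest B) ((!x) :: x :: B) ++ [⟨x :: (B ++ stl B), cap (!x), B⟩])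
        (⟨[x], cap (!x), B⟩ :: cx [x] (nest B) B) := by
      have := cx_comm (nest_valid B) hc [x] [] B
      simpa [cx_cons, List.append_assoc] using this
    have k2 := Cob.ctx k1 v3 v2
    -- straighten one strand
    have v4 : Valid (x :: B) [⟨[], cup x, x :: B⟩, ⟨[x], cap (!x), B⟩] (x :: B) := by
      simp [Valid, Slice.src, Slice.tgt, Gen.src, Gen.tgt]
    have k3 : Iso (x :: B) (x :: B) [⟨[], cup x, x :: B⟩, ⟨[x], cap (!x), B⟩] [] :=
      rel_cob (Rel.zigzag₂ x [] B) v4 rfl
    have k4 := rb_bot k3 (v1.append v2)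
    -- the other strands
    have k5 := cx_cob ih [x] []
    have k5' : Iso (x :: B) (x :: B) (cx [x] (nest B) B ++ cx (x :: B) (Tangle.adj (nest (stl B))) []) [] := by
      simpa [cx_append, cx_cx] using k5
    have k6 : Iso (x :: B) (x :: B)
        ([⟨[], cup x, x :: B⟩] ++ (cx [x] (nest B) ((!x) :: x :: B) ++ [⟨x :: (B ++ stl B), cap (!x), B⟩]) ++
          cx (x :: B) (Tangle.adj (nest (stl B))) [])
        ([] ++ (cx [x] (nest B) B ++ cx (x :: B) (Tangle.adj (nest (stl B))) [])) := by
      have k4' : Iso (x :: B) (x :: B)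
          ([⟨[], cup x, x :: B⟩] ++ (⟨[x], cap (!x), B⟩ :: cx [x] (nest B) B) ++
            cx (x :: B) (Tangle.adj (nest (stl B))) [])
          ([] ++ (cx [x] (nest B) B ++ cx (x :: B) (Tangle.adj (nest (stl B))) [])) := by
        simpa using k4
      exact k2.trans k4'
    have k7 := k6.trans k5'
    simpa using k7

end Pool.Agent.Lib.MP_177a0e_gt.LT
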