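import Pool.Agent.Lib.MP_177a0e_gt.LT.EG

/-!
# the strand on the left of a closed tangle.
-/

namespace Pool.Agent.Lib.MP_177a0e_gt.LT

open Pool.Agent.Lib.MP_177a0e_gt.Tangle Pool.Agent.Lib.MP_177a0e_gt.Tangle.Gen
open Pool.Agent.Lib.MP_177a0e_gt.Sig

private theorem EH_tr {c e : List Bool} {w w' w'' : Word} (h : Cob c e 0 0 0 w w') (h' : Cob c e 0 0 0 w' w'') :
    Cob c e 0 0 0 w w'' := h.trans h'

private theorem EH_nest (B : List Bool) : Valid (stl B ++ B) (Tangle.adj (nest (stl B))) [] := by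
  have h := (nest_valid (stl B)).adj
  rwa [stl_stl] at h

private theorem EH_adj (x : Bool) (γ : List Bool) :
    Tangle.adj (nest (stl (x :: γ))) = ⟨stl γ, cap (!x), γ⟩ :: Tangle.adj (nest (stl γ)) := by
  rw [stl_cons, nest_append, Tangle.adj_append, cx_adj, stl_stl]
  simp [nest, Tangle.adj, Slice.adj, Gen.adj, cx]

/-- first step -/
private theorem EH_one {a : Bool} {B : List Bool} {F : Word} (hF : Valid (a :: B) F []) :
    Iso (a :: B) [] F (cx [] (mate [a] B F) B ++ Tangle.adj (nest (stl B))) := by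
  have hM := EH_nest B
  have h1 : Iso (a :: B) (a :: B) [] (cx [a] (nest B) B ++ cx (a :: B) (Tangle.adj (nest (stl B))) []) := by
    have := (cx_cob (nest_zig B) [a] []).symm
    simpa [cx_append, cx_cx] using this
  have h2 := rb_bot h1 hF
  have h3 : Iso (a :: B ++ (stl B ++ B)) [] (cx (a :: B) (Tangle.adj (nest (stl B))) [] ++ F)
      (cx [] F (stl B ++ B) ++ Tangle.adj (nest (stl B))) := by
    have := (cx_comm hF hM [] [] []).symm
    simpa [cx_id, List.append_assoc] using this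
  have v1 : Valid (a :: B) (cx [a] (nest B) B) (a :: B ++ (stl B ++ B)) := by
    have := cx_valid (nest_valid B) [a] B
    simpa [List.append_assoc] using this
  have h4 := rb_top h3 v1
  have e1 : cx [] (mate [a] B F) B = cx [a] (nest B) B ++ cx [] F (stl B ++ B) := by
    simp [mate, cx_append, cx_cx]
  rw [e1]
  have h2' : Iso (a :: B) [] F (cx [a] (nest B) B ++ (cx (a :: B) (Tangle.adj (nest (stl B))) [] ++ F)) := by
    simpa [List.append_assoc] using h2
  have h4' : Iso (a :: B) [] (cx [a] (nest B) B ++ (cx (a :: B) (Tangle.adj (nest (stl B))) [] ++ F))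
      (cx [a] (nest B) B ++ cx [] F (stl B ++ B) ++ Tangle.adj (nest (stl B))) := by
    simpa [List.append_assoc] using h4
  exact EH_tr h2' h4'

theorem left_one {z z' : Bool} {γ : List Bool} {F Y : Word} (hF : Valid ((!z) :: z' :: γ) F [])
    (hY : Valid (γ ++ [!z]) Y [!z'])
    (hI : Iso [!z] (stl γ ++ [!z']) (mate [!z] (z' :: γ) F) (cx [] (nest (stl γ)) [!z] ++ cx (stl γ) Y [])) :
    Iso (z' :: γ) [z] (⟨[], cup z, z' :: γ⟩ :: cx [z] F [])
      (cx [] (rot Y) γ ++ cx [z] (Tangle.adj (nest (stl γ))) []) := by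
  have hM := EH_nest (z' :: γ)
  have hN := EH_nest γ
  obtain ⟨N, eN⟩ : ∃ N, N = Tangle.adj (nest (stl γ)) := ⟨_, rfl⟩
  have eM := EH_adj z' γ
  rw [← eN] at hN eM
  rw [← eN]
  rw [eM] at hM
  -- first step
  have t1 := EH_one hF
  rw [eM] at t1
  have t2 : Iso ((!z) :: z' :: γ) [] (cx [] (mate [!z] (z' :: γ) F) (z' :: γ) ++ (⟨stl γ, cap (!z'), γ⟩ :: N))
      (cx [] (cx [] (nest (stl γ)) [!z] ++ cx (stl γ) Y []) (z' :: γ) ++ (⟨stl γ, cap (!z'), γ⟩ :: N)) := by
    have h1 : Iso ((!z) :: z' :: γ) (stl (z' :: γ) ++ (z' :: γ)) (cx [] (mate [!z] (z' :: γ) F) (z' :: γ))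
        (cx [] (cx [] (nest (stl γ)) [!z] ++ cx (stl γ) Y []) (z' :: γ)) := by
      have := cx_cob hI [] (z' :: γ)
      rw [stl_cons]
      simpa only [List.nil_append, List.cons_append] using this
    exact rb_bot h1 hM
  have t3 := cx_cob (EH_tr t1 t2) [z] []
  have v0 : Valid (z' :: γ) [⟨[], cup z, z' :: γ⟩] ([z] ++ ((!z) :: z' :: γ) ++ []) := by
    rw [valid_single]
    simp [Slice.src, Slice.tgt, Gen.src, Gen.tgt]
  have t4 := rb_top t3 v0
  -- second and third step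
  have hR := rot_cup' hY
  have es : stl (γ ++ [!z]) = z :: stl γ := by
    rw [stl_append]
    simp [stl]
  have es' : stl [!z'] = [z'] := by simp [stl]
  rw [es, es'] at hR
  have t5 := cx_cob hR [] (z' :: γ)
  have v1 : Valid ([] ++ (z :: stl γ ++ [!z']) ++ (z' :: γ)) (⟨z :: stl γ, cap (!z'), γ⟩ :: cx [z] N []) [z] := by
    have := cx_valid hM [z] []
    rw [stl_cons] at this
    simpa [List.append_assoc] using this
  have t6 := rb_bot t5 v1
  -- fourth step
  have hrot : Valid [z'] (rot Y) (z :: stl γ) := by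
    have := rot_valid hY
    rwa [es, es'] at this
  have hcap : Valid [!z', z'] [⟨[], cap (!z'), []⟩] [] := by
    rw [valid_single]
    simp [Slice.src, Slice.tgt, Gen.src, Gen.tgt]
  have t7 : Iso (z' :: (!z') :: z' :: γ) (z :: stl γ ++ γ)
      (cx [] (rot Y) ((!z') :: z' :: γ) ++ [⟨z :: stl γ, cap (!z'), γ⟩]) (⟨[z'], cap (!z'), γ⟩ :: cx [] (rot Y) γ) := by
    have := cx_comm hrot hcap [] [] γ
    simpa [List.append_assoc] using this
  have v2 : Valid (z :: stl γ ++ γ) (cx [z] N []) [z] := by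
    have := cx_valid hN [z] []
    simpa using this
  have v3 : Valid (z' :: γ) [⟨[], cup z', z' :: γ⟩] (z' :: (!z') :: z' :: γ) := by
    rw [valid_single]
    simp [Slice.src, Slice.tgt, Gen.src, Gen.tgt]
  have t8 := rb_bot (rb_top t7 v3) v2
  have t9 : Iso (z' :: γ) (z' :: γ) [⟨[], cup z', z' :: γ⟩, ⟨[z'], cap (!z'), γ⟩] [] := by
    refine rel_cob (Rel.zigzag₂ z' [] γ) ?_ rfl
    simp [Valid, Slice.src, Slice.tgt, Gen.src, Gen.tgt]
  have v4 : Valid (z' :: γ) (cx [] (rot Y) γ) (z :: stl γ ++ γ) := by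
    have := cx_valid hrot [] γ
    simpa using this
  have t10 := rb_bot t9 (v4.append v2)
  -- the chain
  have u1 : Iso (z' :: γ) [z] (⟨[], cup z, z' :: γ⟩ :: cx [z] F [])
      (⟨[], cup z, z' :: γ⟩ :: (cx [z] (nest (stl γ)) ((!z) :: z' :: γ) ++ (cx (z :: stl γ) Y (z' :: γ) ++
        (⟨z :: stl γ, cap (!z'), γ⟩ :: cx [z] N [])))) := by
    simpa [cx_append, cx_cx, List.append_assoc] using t4
  have u2 : Iso (z' :: γ) [z]
      (⟨[], cup z, z' :: γ⟩ :: (cx [z] (nest (stl γ)) ((!z) :: z' :: γ) ++ (cx (z :: stl γ) Y (z' :: γ) ++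
        (⟨z :: stl γ, cap (!z'), γ⟩ :: cx [z] N []))))
      (⟨[], cup z', z' :: γ⟩ :: (cx [] (rot Y) ((!z') :: z' :: γ) ++ (⟨z :: stl γ, cap (!z'), γ⟩ :: cx [z] N []))) := by
    simpa [nest, cx_append, cx_cx, List.append_assoc] using t6
  have u3 : Iso (z' :: γ) [z]
      (⟨[], cup z', z' :: γ⟩ :: (cx [] (rot Y) ((!z') :: z' :: γ) ++ (⟨z :: stl γ, cap (!z'), γ⟩ :: cx [z] N [])))
      (⟨[], cup z', z' :: γ⟩ :: ⟨[z'], cap (!z'), γ⟩ :: (cx [] (rot Y) γ ++ cx [z] N [])) := by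
    simpa [List.append_assoc] using t8
  have u4 : Iso (z' :: γ) [z] (⟨[], cup z', z' :: γ⟩ :: ⟨[z'], cap (!z'), γ⟩ :: (cx [] (rot Y) γ ++ cx [z] N []))
      (cx [] (rot Y) γ ++ cx [z] N []) := by
    simpa [List.append_assoc] using t10
  exact EH_tr (EH_tr (EH_tr u1 u2) u3) u4

end Pool.Agent.Lib.MP_177a0e_gt.LT
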