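import Pool.Agent.Lib.MP_177a0e_gt.LT.EH

/-!
# the strand on the left of a closed tangle, second part: see the header of EH.lean for `left_two`.
-/

namespace Pool.Agent.Lib.MP_177a0e_gt.LT

open Pool.Agent.Lib.MP_177a0e_gt.Tangle Pool.Agent.Lib.MP_177a0e_gt.Tangle.Gen
open Pool.Agent.Lib.MP_177a0e_gt.Sig

private theorem EI_tr {c e : List Bool} {w w' w'' : Word} (h : Iso c e w w') (h' : Iso c e w' w'') :
    Iso c e w w'' := h.trans h'

private theorem EI_adj1 (z' : Bool) : Tangle.adj (nest (stl [!z'])) = [⟨[], cap z', []⟩] := by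
  simp [stl, nest, Tangle.adj, Slice.adj, Gen.adj]

private theorem EI_adj2 (z : Bool) (δ : List Bool) :
    Tangle.adj (nest (z :: δ)) = cx [z] (Tangle.adj (nest δ)) [!z] ++ [⟨[], cap z, []⟩] := by
  rw [← cx_adj]
  simp [nest, Tangle.adj, Slice.adj, Gen.adj]

private theorem EI_stl (γ : List Bool) (z : Bool) : stl (γ ++ [!z]) = z :: stl γ := by
  rw [stl_append]
  simp [stl]

private theorem EI_one (z' : Bool) : stl [!z'] = [z'] := by
  simp [stl]

theorem left_two {z z' : Bool} {γ : List Bool} {Y : Word} (hY : Valid (γ ++ [!z]) Y [!z']) :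
    Iso (z' :: γ) [z] (⟨z' :: γ, cup (!z), []⟩ :: (cx [z'] Y [z] ++ [⟨[], cap z', [z]⟩]))
      (cx [] (rot Y) γ ++ cx [z] (Tangle.adj (nest (stl γ))) []) := by
  have hN : Valid (stl γ ++ γ) (Tangle.adj (nest (stl γ))) [] := by
    have := (nest_valid (stl γ)).adj
    rwa [stl_stl] at this
  have hR : Valid [z'] (rot Y) (z :: stl γ) := by
    have := rot_valid hY
    rwa [EI_one, EI_stl] at this
  have hW : Valid (z' :: γ) (cx [] (rot Y) γ ++ cx [z] (Tangle.adj (nest (stl γ))) []) [z] := by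
    have h1 := cx_valid hR [] γ
    have h2 := cx_valid hN [z] []
    have h1' : Valid (z' :: γ) (cx [] (rot Y) γ) (z :: (stl γ ++ γ)) := by simpa using h1
    have h2' : Valid (z :: (stl γ ++ γ)) (cx [z] (Tangle.adj (nest (stl γ))) []) [z] := by simpa using h2
    exact h1'.append h2'
  have k1 : Iso (z' :: (γ ++ [!z])) [] (cx [z'] Y [] ++ [⟨[], cap z', []⟩])
      (cx [] (rot Y) (γ ++ [!z]) ++ (cx [z] (Tangle.adj (nest (stl γ))) [!z] ++ [⟨[], cap z, []⟩])) := by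
    have := rot_cap hY
    rw [EI_adj1, EI_one, EI_stl, EI_adj2] at this
    simpa using this
  have k2 : Iso (z' :: (γ ++ [!z, z])) [z] (cx [z'] Y [z] ++ [⟨[], cap z', [z]⟩])
      (cx [] (rot Y) (γ ++ [!z, z]) ++
        (cx [z] (Tangle.adj (nest (stl γ))) [!z, z] ++ [⟨[], cap z, [z]⟩])) := by
    have := cx_cob k1 [] [z]
    simpa [List.append_assoc, cx_append, cx_cx] using this
  have vm : Valid (z' :: γ) [⟨z' :: γ, cup (!z), []⟩] (z' :: (γ ++ [!z, z])) := by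
    rw [valid_single]
    simp [Slice.src, Slice.tgt, Gen.src, Gen.tgt]
  have k3 : Iso (z' :: γ) [z] (⟨z' :: γ, cup (!z), []⟩ :: (cx [z'] Y [z] ++ [⟨[], cap z', [z]⟩]))
      ([⟨z' :: γ, cup (!z), []⟩] ++ cx [] (cx [] (rot Y) γ ++ cx [z] (Tangle.adj (nest (stl γ))) []) [!z, z] ++
        [⟨[], cap z, [z]⟩]) := by
    have := rb_top k2 vm
    simpa [List.append_assoc, cx_append, cx_cx] using this
  have vu : Valid [] [(⟨[], cup (!z), []⟩ : Slice)] [!z, z] := by
    rw [valid_single]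
    simp [Slice.src, Slice.tgt, Gen.src, Gen.tgt]
  have k4 : Iso (z' :: γ) [z, !z, z]
      ([⟨z' :: γ, cup (!z), []⟩] ++ cx [] (cx [] (rot Y) γ ++ cx [z] (Tangle.adj (nest (stl γ))) []) [!z, z])
      ((cx [] (rot Y) γ ++ cx [z] (Tangle.adj (nest (stl γ))) []) ++ [⟨[z], cup (!z), []⟩]) := by
    have := (cx_comm hW vu [] [] []).symm
    simpa [List.append_assoc, cx_append, cx_cx, cx_id] using this
  have vc : Valid [z, !z, z] [(⟨[], cap z, [z]⟩ : Slice)] [z] := by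
    rw [valid_single]
    simp [Slice.src, Slice.tgt, Gen.src, Gen.tgt]
  have k5 : Iso (z' :: γ) [z]
      ([⟨z' :: γ, cup (!z), []⟩] ++ cx [] (cx [] (rot Y) γ ++ cx [z] (Tangle.adj (nest (stl γ))) []) [!z, z] ++
        [⟨[], cap z, [z]⟩])
      ((cx [] (rot Y) γ ++ cx [z] (Tangle.adj (nest (stl γ))) []) ++ [⟨[z], cup (!z), []⟩, ⟨[], cap z, [z]⟩]) := by
    have := rb_bot k4 vc
    simpa [List.append_assoc] using this
  have vz : Valid [z] [(⟨[z], cup (!z), []⟩ : Slice), ⟨[], cap z, [z]⟩] [z] := by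
    refine ⟨?_, ?_, ?_⟩
    · simp [Slice.src, Gen.src]
    · simp [Slice.src, Slice.tgt, Gen.src, Gen.tgt]
    · simp [Slice.tgt, Gen.tgt, Valid]
  have kz : Iso [z] [z] [(⟨[z], cup (!z), []⟩ : Slice), ⟨[], cap z, [z]⟩] [] :=
    rel_cob (Rel.zigzag₁ z [] []) vz rfl
  have k6 : Iso (z' :: γ) [z]
      ((cx [] (rot Y) γ ++ cx [z] (Tangle.adj (nest (stl γ))) []) ++ [⟨[z], cup (!z), []⟩, ⟨[], cap z, [z]⟩])
      (cx [] (rot Y) γ ++ cx [z] (Tangle.adj (nest (stl γ))) []) := by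
    have := rb_top kz hW
    simpa only [List.append_nil] using this
  exact EI_tr (EI_tr k3 k5) k6

theorem rotL {z z' : Bool} {γ : List Bool} {D : Multiset Cl} {F : Word} (hF : Valid ((!z) :: z' :: γ) F [])
    (hg : γ.length % 2 = 0) (h : Mt [!z] z' γ D F) :
    ∃ Y' : Word, Valid (z' :: γ) Y' [z] ∧ dat 1 Y' = D ∧
      Iso (z' :: γ) [z] (⟨[], cup z, z' :: γ⟩ :: cx [z] F []) Y' := by
  obtain ⟨Y, hY, hD, hI⟩ := h
  refine ⟨⟨z' :: γ, cup (!z), []⟩ :: (cx [z'] Y [z] ++ [⟨[], cap z', [z]⟩]), ?_, ?_, ?_⟩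
  · have h1 := cx_valid hY [z'] [z]
    have h2 : Valid (z' :: (γ ++ [!z, z])) (cx [z'] Y [z]) [z', !z', z] := by
      simpa [List.append_assoc] using h1
    have vc : Valid [z', !z', z] [(⟨[], cap z', [z]⟩ : Slice)] [z] := by
      rw [valid_single]
      simp [Slice.src, Slice.tgt, Gen.src, Gen.tgt]
    have vm : Valid (z' :: γ) [⟨z' :: γ, cup (!z), []⟩] (z' :: (γ ++ [!z, z])) := by
      rw [valid_single]
      simp [Slice.src, Slice.tgt, Gen.src, Gen.tgt]
    exact vm.append (h2.append vc)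
  · rw [dat_cons, dat_append, dat_single, dat_cx, dat_mod (j := 0) (by simp) Y, hD]
    have e1 : ld 1 ⟨z' :: γ, cup (!z), []⟩ = 0 := by
      have : (1 + (z' :: γ).length) % 2 = 0 := by
        rw [List.length_cons]
        omega
      show (if (1 + (z' :: γ).length) % 2 = 0 then (0 : Multiset Cl) else {Cl.od}) = 0
      rw [if_pos this]
    have e2 : ld 1 ⟨[], cap z', [z]⟩ = 0 := by
      simp [ld]
    rw [e1, e2]
    simp
  · exact EI_tr (left_one hF hY hI) (left_two hY).symm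

theorem rotR {A : List Bool} {z : Bool} {D : Multiset Cl} {F : Word} (h : Mt A z [] D F) :
    ∃ Y : Word, Valid A Y [!z] ∧ dat 0 Y = D ∧ Iso A [!z] (⟨A, cup z, []⟩ :: cx [] F [!z]) Y := by
  obtain ⟨Y, hY, hD, hI⟩ := h
  refine ⟨Y, hY, hD, ?_⟩
  simpa [mate, nest, stl, cx_id] using hI

end Pool.Agent.Lib.MP_177a0e_gt.LT
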