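import Pool.Agent.Lib.MP_177a0e_gt.LT.EA

/-!
# a crossing turned around on the other side.
-/

namespace Pool.Agent.Lib.MP_177a0e_gt.LT

open Pool.Agent.Lib.MP_177a0e_gt.Tangle Pool.Agent.Lib.MP_177a0e_gt.Tangle.Gen
open Pool.Agent.Lib.MP_177a0e_gt.Sig

theorem turn_r (s x y : Bool) (p q : List Bool) : Iso (p ++ [x, y] ++ q) (p ++ [y, x] ++ q) [⟨p, cross s x y, q⟩]
    [⟨p ++ [x, y], cup (!x), q⟩, ⟨p ++ [x], cross (!s) y (!x), x :: q⟩, ⟨p, cap x, y :: x :: q⟩] := by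
  have v0 : Valid (p ++ [x, y] ++ q) [⟨p, cross s x y, q⟩] (p ++ [y, x] ++ q) := by
    simp [Valid, Slice.src, Slice.tgt, Gen.src, Gen.tgt]
  have v1 : Valid (p ++ [x, y] ++ q) [⟨p, cross s x y, q⟩, ⟨p ++ [y, x], cup (!x), q⟩,
      ⟨p ++ [y], cap x, x :: q⟩] (p ++ [y, x] ++ q) := by
    simp [Valid, Slice.src, Slice.tgt, Gen.src, Gen.tgt]
  have v2 : Valid (p ++ [x, y] ++ q) [⟨p ++ [x, y], cup (!x), q⟩, ⟨p, cross s x y, (!x) :: x :: q⟩,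
      ⟨p ++ [y], cap x, x :: q⟩] (p ++ [y, x] ++ q) := by
    simp [Valid, Slice.src, Slice.tgt, Gen.src, Gen.tgt]
  have v3 : Valid (p ++ [x, y] ++ q) [⟨p ++ [x, y], cup (!x), q⟩, ⟨p ++ [x], cross (!s) y (!x), x :: q⟩,
      ⟨p, cap x, y :: x :: q⟩] (p ++ [y, x] ++ q) := by
    simp [Valid, Slice.src, Slice.tgt, Gen.src, Gen.tgt]
  refine (((Cob.refl v0).iso (w₂ := [⟨p, cross s x y, q⟩, ⟨p ++ [y, x], cup (!x), q⟩,
      ⟨p ++ [y], cap x, x :: q⟩]) (Or.inr ?_)).iso (w₂ := [⟨p ++ [x, y], cup (!x), q⟩,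
      ⟨p, cross s x y, (!x) :: x :: q⟩, ⟨p ++ [y], cap x, x :: q⟩]) (Or.inl ?_)).iso (Or.inr ?_)
  · have h : Rel [⟨p ++ [y, x], cup (!x), q⟩, ⟨p ++ [y], cap x, x :: q⟩] [] := by
      have := Rel.zigzag₁ x (p ++ [y]) q
      simpa using this
    exact Local.mk [⟨p, cross s x y, q⟩] _ _ [] h v1 v0
  · have h : Rel [⟨p, cross s x y, q⟩, ⟨p ++ [y, x], cup (!x), q⟩]
        [⟨p ++ [x, y], cup (!x), q⟩, ⟨p, cross s x y, (!x) :: x :: q⟩] := by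
      have := Rel.interchange (cross s x y) (cup (!x)) p [] q
      simpa [Gen.src, Gen.tgt] using this
    exact Local.mk [] _ _ [⟨p ++ [y], cap x, x :: q⟩] h v1 v2
  · have h : Rel [⟨p ++ [x], cross (!s) y (!x), x :: q⟩, ⟨p, cap x, y :: x :: q⟩]
        [⟨p, cross s x y, (!x) :: x :: q⟩, ⟨p ++ [y], cap x, x :: q⟩] := by
      have := Rel.slide_cap (!s) x y p (x :: q)
      simpa using this
    exact Local.mk [⟨p ++ [x, y], cup (!x), q⟩] _ _ [] h v3 v2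

end Pool.Agent.Lib.MP_177a0e_gt.LT
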