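import Pool.Agent.Lib.MP_177a0e_gt.LT.EO
import Pool.Agent.Lib.MP_177a0e_gt.LT.EI

/-!
# minima at the boundary of the closed tangle.
-/

namespace Pool.Agent.Lib.MP_177a0e_gt.LT

open Pool.Agent.Lib.MP_177a0e_gt.Tangle Pool.Agent.Lib.MP_177a0e_gt.Tangle.Gen
open Pool.Agent.Lib.MP_177a0e_gt.Sig

theorem tr_cupL {p m q : List Bool} {z : Bool} {u F : Word} {D : Multiset Cl} (hp : p.length % 2 = 1)
    (hm : m.length % 2 = 1) (hu : Valid [] u (p ++ m ++ q)) (hF : Fn ((!z) :: m) D F) :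
    Tr (p ++ [z]) q (u ++ [⟨p, cup z, m ++ q⟩]) F D := by
  obtain _ | ⟨z', γ⟩ := m
  · simp at hm
  have hg : γ.length % 2 = 0 := by
    rw [List.length_cons] at hm
    omega
  obtain ⟨Y', h1, h2, h3⟩ := rotL hF.valid hg (fn_mate (A := [!z]) hF rfl hg)
  right
  have v1 := cx_valid h1 p q
  have i1 := rb_top (cx_cob h3 p q) hu
  refine ⟨u ++ cx p Y' q, hu.append v1, ?_, ?_⟩
  · have e1 : ld 0 ⟨p, cup z, (z' :: γ) ++ q⟩ = {Cl.od} := by
      simp [ld, hp]
    rw [dat_append, dat_cx_odd hp, h2, dat_append, dat_single, e1, add_right_comm]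
  · simpa [List.append_assoc, cx_cx, cx_cons] using i1

theorem tr_cupR {p m q : List Bool} {z : Bool} {u F : Word} {D : Multiset Cl} (hp : p.length % 2 = 0)
    (hm : m.length % 2 = 1) (hu : Valid [] u (p ++ m ++ q)) (hF : Fn (m ++ [z]) D F) :
    Tr p ((!z) :: q) (u ++ [⟨p ++ m, cup z, q⟩]) F D := by
  obtain ⟨Y, h1, h2, h3⟩ := rotR (fn_mate (A := m) (γ := []) hF hm rfl)
  right
  have v1 := cx_valid h1 p q
  have i1 := rb_top (cx_cob h3 p q) hu
  refine ⟨u ++ cx p Y q, ?_, ?_, ?_⟩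
  · have v2 := hu.append v1
    simpa [List.append_assoc] using v2
  · have e1 : ld 0 ⟨p ++ m, cup z, q⟩ = {Cl.od} := by
      have e2 : (p.length + m.length) % 2 = 1 := by omega
      simp [ld, e2]
    rw [dat_append, dat_cx_even hp, h2, dat_append, dat_single, e1, add_right_comm]
  · simpa [List.append_assoc, cx_cx, cx_cons] using i1

end Pool.Agent.Lib.MP_177a0e_gt.LT
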