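import Pool.Agent.Lib.MP_177a0e_gt.LT.EA

/-!
# slices beside and inside the closed tangle.
-/

namespace Pool.Agent.Lib.MP_177a0e_gt.LT

open Pool.Agent.Lib.MP_177a0e_gt.Tangle Pool.Agent.Lib.MP_177a0e_gt.Tangle.Gen
open Pool.Agent.Lib.MP_177a0e_gt.Sig

private theorem ex_gen (g : Gen) : Valid g.src [⟨[], g, []⟩] g.tgt := by
  simp [Valid, Slice.src, Slice.tgt]

private theorem ex_slice (p q : List Bool) (g : Gen) : Valid (p ++ g.src ++ q) [⟨p, g, q⟩] (p ++ g.tgt ++ q) := ⟨rfl, rfl⟩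

private theorem ex_cx (p q : List Bool) (g : Gen) : cx p [⟨[], g, []⟩] q = [⟨p, g, q⟩] := by
  simp [cx]

private theorem ex_comb {p q p' q' : List Bool} {u F F' : Word} {t t' : Slice} {D : Multiset Cl}
    (ht : Valid (p ++ q) [t'] (p' ++ q')) (hl : ld 0 t = ld 0 t')
    (hJ : Iso [] (p' ++ q') (u ++ [t] ++ F') (u ++ F ++ [t']))
    (h : HC (p ++ q) (u ++ F) ∨
      ∃ w' : Word, Valid [] w' (p ++ q) ∧ dat 0 w' + {Cl.od} = dat 0 u + D ∧ Iso [] (p ++ q) (u ++ F) w') :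
    HC (p' ++ q') (u ++ [t] ++ F') ∨
      ∃ w' : Word, Valid [] w' (p' ++ q') ∧ dat 0 w' + {Cl.od} = dat 0 (u ++ [t]) + D ∧
        Iso [] (p' ++ q') (u ++ [t] ++ F') w' := by
  rcases h with h | ⟨w', h1, h2, h3⟩
  · exact Or.inl ((h.app ht).iso hJ)
  · refine Or.inr ⟨w' ++ [t'], h1.append ht, ?_, hJ.trans (rb_bot h3 ht)⟩
    rw [dat_append, dat_single, dat_append, dat_single, hl]
    calc dat 0 w' + ld 0 t' + {Cl.od} = (dat 0 w' + {Cl.od}) + ld 0 t' := by abel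
      _ = dat 0 u + ld 0 t' + D := by
        rw [h2]
        abel

theorem tr_left {l r m q : List Bool} {g : Gen} {u F : Word} {D : Multiset Cl}
    (hu : Valid [] u (l ++ g.src ++ r ++ m ++ q)) (hF : Valid m F []) (h : Tr (l ++ g.src ++ r) q u F D) :
    Tr (l ++ g.tgt ++ r) q (u ++ [⟨l, g, r ++ m ++ q⟩]) F D := by
  have k1 := cx_comm (ex_gen g) hF l r q
  rw [ex_cx, ex_cx, List.append_nil, List.append_nil] at k1
  have k2 := rb_top k1 hu
  have hJ : Iso [] (l ++ g.tgt ++ r ++ q) (u ++ [⟨l, g, r ++ m ++ q⟩] ++ cx (l ++ g.tgt ++ r) F q)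
      (u ++ cx (l ++ g.src ++ r) F q ++ [⟨l, g, r ++ q⟩]) := by
    simpa [List.append_assoc] using k2
  have ht : Valid (l ++ g.src ++ r ++ q) [⟨l, g, r ++ q⟩] (l ++ g.tgt ++ r ++ q) := by
    have h1 := ex_slice l (r ++ q) g
    simpa [List.append_assoc] using h1
  exact ex_comb ht rfl hJ h

theorem tr_right {p m l r : List Bool} {g : Gen} {u F : Word} {D : Multiset Cl} (hm : m.length % 2 = 0)
    (hu : Valid [] u (p ++ m ++ (l ++ g.src ++ r))) (hF : Valid m F []) (h : Tr p (l ++ g.src ++ r) u F D) :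
    Tr p (l ++ g.tgt ++ r) (u ++ [⟨p ++ m ++ l, g, r⟩]) F D := by
  have k1 := (cx_comm hF (ex_gen g) p l r).symm
  rw [ex_cx, ex_cx, List.append_nil] at k1
  have hJ : Iso [] (p ++ (l ++ g.tgt ++ r)) (u ++ [⟨p ++ m ++ l, g, r⟩] ++ cx p F (l ++ g.tgt ++ r))
      (u ++ cx p F (l ++ g.src ++ r) ++ [⟨p ++ l, g, r⟩]) := by
    have hu' : Valid [] u (p ++ m ++ l ++ g.src ++ r) := by simpa [List.append_assoc] using hu
    have k2 := rb_top k1 hu'
    simpa [List.append_assoc] using k2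
  have ht : Valid (p ++ (l ++ g.src ++ r)) [⟨p ++ l, g, r⟩] (p ++ (l ++ g.tgt ++ r)) := by
    have h1 := ex_slice (p ++ l) r g
    simpa [List.append_assoc] using h1
  refine ex_comb ht ?_ hJ h
  have e : (0 + (p ++ m ++ l).length) % 2 = (0 + (p ++ l).length) % 2 := by
    simp only [List.length_append]
    omega
  unfold ld
  simp only [e]

theorem tr_in {p l r q : List Bool} {g : Gen} {u F : Word} {D : Multiset Cl} (hp : p.length % 2 = 0)
    (h : Tr p q u (⟨l, g, r⟩ :: F) (ld 0 ⟨l, g, r⟩ + D)) : Tr p q (u ++ [⟨p ++ l, g, r ++ q⟩]) F D := by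
  have e1 : u ++ [⟨p ++ l, g, r ++ q⟩] ++ cx p F q = u ++ cx p (⟨l, g, r⟩ :: F) q := by
    rw [cx_cons, List.append_assoc]
    rfl
  have e2 : dat 0 (u ++ [⟨p ++ l, g, r ++ q⟩]) + D = dat 0 u + (ld 0 ⟨l, g, r⟩ + D) := by
    rw [dat_append, dat_single, ld_shift 0 p q ⟨l, g, r⟩, ld_mod (j := 0) (by omega), add_assoc]
  unfold Tr at h ⊢
  rw [e1, e2]
  exact h

end Pool.Agent.Lib.MP_177a0e_gt.LT
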