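import Pool.Agent.Lib.MP_177a0e_gt.LT.ER
import Pool.Agent.Lib.MP_177a0e_gt.LT.EX

/-!
# tracing down from a maximum at an even position.
-/

namespace Pool.Agent.Lib.MP_177a0e_gt.LT

open Pool.Agent.Lib.MP_177a0e_gt.Tangle Pool.Agent.Lib.MP_177a0e_gt.Tangle.Gen
open Pool.Agent.Lib.MP_177a0e_gt.Sig

private theorem EL_split (l x r p m q : List Bool) (h : l ++ x ++ r = p ++ m ++ q)
    (hx : x.length = 0 ∨ x.length = 2) (hm : m ≠ []) (hm2 : m.length % 2 = 0) :
    (∃ r₀, p = l ++ x ++ r₀ ∧ r = r₀ ++ m ++ q) ∨
    (∃ l₀, l = p ++ m ++ l₀ ∧ q = l₀ ++ x ++ r) ∨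
    (∃ l₀ r₀, l = p ++ l₀ ∧ m = l₀ ++ x ++ r₀ ∧ r = r₀ ++ q) ∨
    (∃ a b m₀, x = [a, b] ∧ p = l ++ [a] ∧ m = b :: m₀ ∧ r = m₀ ++ q) ∨
    (∃ a b m₀, x = [a, b] ∧ l = p ++ m₀ ∧ m = m₀ ++ [a] ∧ q = b :: r) := by
  have hmpos : 0 < m.length := List.length_pos_iff.mpr hm
  rw [List.append_assoc, List.append_assoc] at h
  rcases List.append_eq_append_iff.1 h with ⟨as, h1, h2⟩ | ⟨bs, h1, h2⟩
  · rcases List.append_eq_append_iff.1 h2 with ⟨cs, h3, h4⟩ | ⟨cs, h3, h4⟩
    · refine Or.inl ⟨cs, ?_, ?_⟩
      · rw [h1, h3, List.append_assoc]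
      · rw [h4, List.append_assoc]
    · have hl : x.length = as.length + cs.length := by rw [h3, List.length_append]
      rcases Nat.lt_or_ge 0 cs.length with hc | hc
      · rcases Nat.lt_or_ge 0 as.length with ha | ha
        · obtain ⟨a, rfl⟩ : ∃ a, as = [a] := List.length_eq_one_iff.mp (by omega)
          obtain ⟨b, rfl⟩ : ∃ b, cs = [b] := List.length_eq_one_iff.mp (by omega)
          obtain ⟨c, m₀, rfl⟩ := List.exists_cons_of_ne_nil hm
          rw [List.cons_append, List.singleton_append, List.cons.injEq] at h4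
          obtain ⟨rfl, h5⟩ := h4
          exact Or.inr (Or.inr (Or.inr (Or.inl ⟨a, c, m₀, h3, h1, rfl, h5.symm⟩)))
        · obtain rfl : as = [] := List.length_eq_zero_iff.mp (by omega)
          rw [List.nil_append] at h3
          subst h3
          rcases List.append_eq_append_iff.1 h4 with ⟨ds, h5, h6⟩ | ⟨ds, h5, h6⟩
          · have hd : ds.length = 0 := by
              have := congrArg List.length h5
              rw [List.length_append] at this
              omega
            obtain rfl : ds = [] := List.length_eq_zero_iff.mp hd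
            rw [List.append_nil] at h1 h5
            rw [List.nil_append] at h6
            refine Or.inr (Or.inr (Or.inl ⟨[], [], ?_, ?_, ?_⟩))
            · rw [h1, List.append_nil]
            · rw [h5, List.nil_append, List.append_nil]
            · rw [h6, List.nil_append]
          · refine Or.inr (Or.inr (Or.inl ⟨[], ds, ?_, ?_, h6⟩))
            · rw [h1, List.append_nil, List.append_nil]
            · rw [h5, List.nil_append]
      · obtain rfl : cs = [] := List.length_eq_zero_iff.mp (by omega)
        rw [List.append_nil] at h3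
        rw [List.nil_append] at h4
        refine Or.inl ⟨[], ?_, ?_⟩
        · rw [h1, h3, List.append_nil]
        · rw [List.nil_append, h4]
  · rcases List.append_eq_append_iff.1 h2 with ⟨cs, h3, h4⟩ | ⟨cs, h3, h4⟩
    · refine Or.inr (Or.inl ⟨cs, ?_, ?_⟩)
      · rw [h1, h3, List.append_assoc]
      · rw [h4, List.append_assoc]
    · rcases List.append_eq_append_iff.1 h4 with ⟨ds, h5, h6⟩ | ⟨ds, h5, h6⟩
      · refine Or.inr (Or.inr (Or.inl ⟨bs, ds, h1, ?_, h6⟩))
        rw [h3, h5, List.append_assoc]
      · have hl : x.length = cs.length + ds.length := by rw [h5, List.length_append]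
        rcases Nat.lt_or_ge 0 cs.length with hc | hc
        · rcases Nat.lt_or_ge 0 ds.length with hd | hd
          · obtain ⟨a, rfl⟩ : ∃ a, cs = [a] := List.length_eq_one_iff.mp (by omega)
            obtain ⟨b, rfl⟩ : ∃ b, ds = [b] := List.length_eq_one_iff.mp (by omega)
            exact Or.inr (Or.inr (Or.inr (Or.inr ⟨a, b, bs, h5, h1, h3, h6⟩)))
          · obtain rfl : ds = [] := List.length_eq_zero_iff.mp (by omega)
            rw [List.append_nil] at h5
            rw [List.nil_append] at h6
            refine Or.inr (Or.inr (Or.inl ⟨bs, [], h1, ?_, ?_⟩))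
            · rw [h3, h5, List.append_nil]
            · rw [h6, List.nil_append]
        · obtain rfl : cs = [] := List.length_eq_zero_iff.mp (by omega)
          rw [List.nil_append] at h5
          rw [List.append_nil] at h3
          refine Or.inr (Or.inl ⟨[], ?_, ?_⟩)
          · rw [h1, h3, List.append_nil]
          · rw [h6, h5, List.nil_append]

private theorem EL_nil {u : Word} {p q : List Bool} {D : Multiset Cl} {F : Word}
    (hu : Valid [] u (p ++ [] ++ q)) (hF : Fn [] D F) : Tr p q u F D := by
  left
  have h1 := cx_valid hF.valid p q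
  have h2 : Valid [] (u ++ cx p F q) (p ++ q) := by
    have := hu.append h1
    rwa [List.append_nil] at this
  rw [List.append_nil] at hu
  refine ⟨u, [], F, p, q, hF.ne, hF.valid, hu, rfl, ?_⟩
  rw [List.append_nil]
  exact Cob.refl h2

private theorem EL_par (g : Gen) : g.src.length % 2 = g.tgt.length % 2 := by
  cases g <;> simp [Gen.src, Gen.tgt]

private theorem EL_two (g : Gen) : g.tgt.length = 0 ∨ g.tgt.length = 2 := by
  cases g
  · exact Or.inr rfl
  · exact Or.inl rfl
  · exact Or.inr rfl

theorem trace (u : Word) : ∀ (p m q : List Bool) (D : Multiset Cl) (F : Word), Valid [] u (p ++ m ++ q) →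
    Cl.ev ∉ dat 0 u → p.length % 2 = 0 → m.length % 2 = 0 → Fn m D F → Tr p q u F D := by
  induction u using List.reverseRecOn with
  | nil =>
    intro p m q D F hu _ _ _ hF
    have h0 : [] = p ++ m ++ q := hu
    have hm : m = [] := by
      have := congrArg List.length h0
      simp only [List.length_nil, List.length_append] at this
      exact List.length_eq_zero_iff.mp (by omega)
    subst hm
    exact EL_nil hu hF
  | append_singleton u t ih =>
    intro p m q D F hu hev hp hm hF
    rcases eq_or_ne m [] with rfl | hm0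
    · exact EL_nil hu hF
    obtain ⟨c, hu', ht⟩ := valid_append.mp hu
    obtain ⟨ht1, ht2⟩ := valid_single.mp ht
    obtain ⟨l, g, r⟩ := t
    have hsrc : l ++ g.src ++ r = c := ht1
    have htgt : l ++ g.tgt ++ r = p ++ m ++ q := ht2
    subst hsrc
    rw [dat_append, dat_single, Multiset.mem_add, not_or] at hev
    have hpar := EL_par g
    rcases EL_split l g.tgt r p m q htgt (EL_two g) hm0 hm with ⟨r₀, h1, h2⟩ | ⟨l₀, h1, h2⟩ |
      ⟨l₀, r₀, h1, h2, h3⟩ | ⟨a, b, m₀, hx, h1, h2, h3⟩ | ⟨a, b, m₀, hx, h1, h2, h3⟩
    · subst h1 h2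
      refine tr_left ?_ hF.valid (ih (l ++ g.src ++ r₀) m q D F ?_ hev.1 ?_ hm hF)
      · simpa only [List.append_assoc] using hu'
      · simpa only [List.append_assoc] using hu'
      · simp only [List.length_append] at hp ⊢
        omega
    · subst h1 h2
      refine tr_right hm ?_ hF.valid (ih p m (l₀ ++ g.src ++ r) D F ?_ hev.1 hp hm hF)
      · simpa only [List.append_assoc] using hu'
      · simpa only [List.append_assoc] using hu'
    · subst h1 h2 h3
      have hld : ld 0 ⟨p ++ l₀, g, r₀ ++ q⟩ = ld 0 ⟨l₀, g, r₀⟩ := by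
        have := ld_shift 0 p q ⟨l₀, g, r₀⟩
        rw [this]
        exact ld_mod (by omega) _
      rw [hld] at hev
      refine tr_in hp (ih p (l₀ ++ g.src ++ r₀) q _ _ ?_ hev.1 hp ?_ (fn_cons (t := ⟨l₀, g, r₀⟩) hF hev.2))
      · simpa only [List.append_assoc] using hu'
      · simp only [List.length_append] at hm ⊢
        omega
    · subst h1 h2 h3
      rw [List.length_append, List.length_singleton] at hp
      rw [List.length_cons] at hm
      cases g with
      | cup z =>
        obtain ⟨rfl, rfl⟩ : z = a ∧ (!z) = b := by simpa [Gen.tgt] using hx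
        refine tr_cupL (by omega) (by omega) ?_ hF
        simpa [Gen.src, List.append_assoc] using hu'
      | cap z => simp [Gen.tgt] at hx
      | cross s x y =>
        obtain ⟨rfl, rfl⟩ : y = a ∧ x = b := by simpa [Gen.tgt] using hx
        refine tr_crossL (by omega) (by omega) ?_ hF
        simpa [Gen.src, List.append_assoc] using hu'
    · subst h1 h2 h3
      rw [List.length_append, List.length_singleton] at hm
      cases g with
      | cup z =>
        obtain ⟨rfl, rfl⟩ : z = a ∧ (!z) = b := by simpa [Gen.tgt] using hx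
        refine tr_cupR (by omega) (by omega) ?_ hF
        simpa [Gen.src, List.append_assoc] using hu'
      | cap z => simp [Gen.tgt] at hx
      | cross s x y =>
        obtain ⟨rfl, rfl⟩ : y = a ∧ x = b := by simpa [Gen.tgt] using hx
        refine tr_crossR (by omega) (by omega) ?_ hF
        simpa [Gen.src, List.append_assoc] using hu'

end Pool.Agent.Lib.MP_177a0e_gt.LT
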