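import Pool.Agent.Lib.MP_177a0e_gt.LT.EA

/-!
# colourings of the components: the transfer of a word.

`wT w φ c`: the sum over all colourings of the strands of `w` which are `c` at the bottom level and constant along the components of the value of `φ` at the top level
(a crossing exchanges the two colours, a minimum has one free colour, a maximum needs equal colours).
-/

namespace Pool.Agent.Lib.MP_177a0e_gt.LT

open Pool.Agent.Lib.MP_177a0e_gt.Tangle Pool.Agent.Lib.MP_177a0e_gt.Tangle.Gen
open Pool.Agent.Lib.MP_177a0e_gt.Sig

/-- the transfer of a piece -/
def gT (g : Gen) (φ : List Bool → ℕ) (c : List Bool) : ℕ :=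
  match g with
  | cup _ => φ [true, true] + φ [false, false]
  | cap _ => if c = [true, true] ∨ c = [false, false] then φ [] else 0
  | cross _ _ _ => φ c.reverse

/-- the transfer of a slice -/
def sT (t : Slice) (φ : List Bool → ℕ) (c : List Bool) : ℕ :=
  gT t.gen (fun y => φ (c.take t.left.length ++ y ++ c.drop (t.left.length + t.gen.src.length)))
    ((c.drop t.left.length).take t.gen.src.length)

/-- the transfer of a word -/
def wT : Word → (List Bool → ℕ) → List Bool → ℕ
  | [], φ => φ
  | t :: w, φ => sT t (wT w φ)

theorem sT_app (t : Slice) (φ : List Bool → ℕ) (a x b : List Bool) (ha : a.length = t.left.length)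
    (hx : x.length = t.gen.src.length) : sT t φ (a ++ x ++ b) = gT t.gen (fun y => φ (a ++ y ++ b)) x := by
  have e1 : (a ++ x ++ b).take t.left.length = a := by
    rw [List.append_assoc]
    exact List.take_left' ha
  have e2 : (a ++ x ++ b).drop t.left.length = x ++ b := by
    rw [List.append_assoc]
    exact List.drop_left' ha
  have e3 : (a ++ x ++ b).drop (t.left.length + t.gen.src.length) = b := by
    apply List.drop_left'
    rw [List.length_append, ha, hx]
  have e4 : (x ++ b).take t.gen.src.length = x := List.take_left' hx
  unfold sT
  rw [e1, e2, e3, e4]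

theorem wT_append (u v : Word) (φ : List Bool → ℕ) : wT (u ++ v) φ = wT u (wT v φ) := by
  induction u with
  | nil => rfl
  | cons t u ih =>
    change sT t (wT (u ++ v) φ) = sT t (wT u (wT v φ))
    rw [ih]

private theorem EM_gT_congr (g : Gen) {f f' : List Bool → ℕ} {x : List Bool} (hx : x.length = g.src.length)
    (h : ∀ y : List Bool, y.length = g.tgt.length → f y = f' y) : gT g f x = gT g f' x := by
  cases g with
  | cup z =>
    change f [true, true] + f [false, false] = f' [true, true] + f' [false, false]
    rw [h [true, true] rfl, h [false, false] rfl]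
  | cap z =>
    change (if x = [true, true] ∨ x = [false, false] then f [] else 0) =
      (if x = [true, true] ∨ x = [false, false] then f' [] else 0)
    rw [h [] rfl]
  | cross s y z =>
    change f x.reverse = f' x.reverse
    refine h _ ?_
    rw [List.length_reverse, hx]
    rfl

private theorem EM_split3 (l : List Bool) (i j k : ℕ) (h : l.length = i + j + k) :
    ∃ a x b : List Bool, l = a ++ x ++ b ∧ a.length = i ∧ x.length = j ∧ b.length = k := by
  refine ⟨l.take i, (l.drop i).take j, (l.drop i).drop j, ?_, ?_, ?_, ?_⟩
  · rw [List.append_assoc, List.take_append_drop, List.take_append_drop]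
  · rw [List.length_take]
    omega
  · rw [List.length_take, List.length_drop]
    omega
  · rw [List.length_drop, List.length_drop]
    omega

theorem wT_congr {c e : List Bool} {w : Word} (h : Valid c w e) {φ ψ : List Bool → ℕ}
    (hφ : ∀ l : List Bool, l.length = e.length → φ l = ψ l) :
    ∀ l : List Bool, l.length = c.length → wT w φ l = wT w ψ l := by
  induction w generalizing c with
  | nil =>
    intro l hl
    have hc : c = e := h
    subst hc
    exact hφ l hl
  | cons t w ih =>
    intro l hl
    obtain ⟨h1, h2⟩ := h
    subst h1
    obtain ⟨a, x, b, rfl, ha, hx, hb⟩ := EM_split3 l t.left.length t.gen.src.length t.right.length (by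
      rw [hl, Slice.src, List.length_append, List.length_append])
    change sT t (wT w φ) (a ++ x ++ b) = sT t (wT w ψ) (a ++ x ++ b)
    rw [sT_app t _ a x b ha hx, sT_app t _ a x b ha hx]
    refine EM_gT_congr t.gen hx fun y hy => ih h2 _ ?_
    rw [Slice.tgt, List.length_append, List.length_append, List.length_append, List.length_append, ha, hy, hb]

end Pool.Agent.Lib.MP_177a0e_gt.LT
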