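import Pool.Agent.Lib.MP_177a0e_gt.LT.EU

/-!
# colourings of isotopic tangles and of knots.
-/

namespace Pool.Agent.Lib.MP_177a0e_gt.LT

open Pool.Agent.Lib.MP_177a0e_gt.Tangle Pool.Agent.Lib.MP_177a0e_gt.Tangle.Gen
open Pool.Agent.Lib.MP_177a0e_gt.Sig

private theorem EN_local {c e : List Bool} {w w' : Word} (h : Local Rel c e w w') (φ : List Bool → ℕ) :
    ∀ l : List Bool, l.length = c.length → wT w φ l = wT w' φ l := by
  obtain ⟨u, a, b, v, hR, h1, h2⟩ := h
  obtain ⟨m2, h12, -⟩ := valid_append.1 h1
  obtain ⟨m1, hu, ha⟩ := valid_append.1 h12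
  intro l hl
  rw [wT_append, wT_append, wT_append, wT_append]
  exact wT_congr hu (fun l' hl' => wT_rel hR ha (wT v φ) l' hl') l hl

private theorem EN_change {c e : List Bool} {w w' : Word} (h : Local ChangeRel c e w w') (φ : List Bool → ℕ) :
    wT w φ = wT w' φ := by
  obtain ⟨u, a, b, v, hR, h1, h2⟩ := h
  rw [wT_append, wT_append, wT_append, wT_append]
  obtain ⟨s, x, y, p, q⟩ := hR
  rfl

private theorem EN_cob {c e : List Bool} {b s d : ℕ} {w w' : Word} (h : Cob c e b s d w w') (φ : List Bool → ℕ) :
    b = 0 → s = 0 → d = 0 → ∀ l : List Bool, l.length = c.length → wT w φ l = wT w' φ l := by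
  induction h with
  | refl h => intro _ _ _ l _; rfl
  | iso h h' ih =>
    intro hb hs hd l hl
    rw [ih hb hs hd l hl]
    rcases h' with h' | h'
    · exact EN_local h' φ l hl
    · exact (EN_local h' φ l hl).symm
  | saddle h h' ih => intro _ hs; omega
  | birth h h' ih => intro hb; omega
  | death h h' ih => intro _ _ hd; omega

theorem wT_iso {c e : List Bool} {w w' : Word} (h : Iso c e w w') (φ : List Bool → ℕ) :
    ∀ l : List Bool, l.length = c.length → wT w φ l = wT w' φ l := by
  exact EN_cob h φ rfl rfl rfl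

theorem wT_knot {w : Word} (h : IsKnot w) (φ : List Bool → ℕ) (x : Bool) : wT w φ [x] = φ [x] := by
  have key : ∀ {a b : Word}, Relation.EqvGen (fun a b => Local Rel [true] [true] a b ∨ Local ChangeRel [true] [true] a b) a b →
      wT a φ [x] = wT b φ [x] := by
    intro a b hab
    induction hab with
    | rel a b h =>
      rcases h with h | h
      · exact EN_local h φ [x] rfl
      · rw [EN_change h φ]
    | refl a => rfl
    | symm a b _ ih => exact ih.symm
    | trans a b c _ _ ih1 ih2 => exact ih1.trans ih2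
  exact key h

end Pool.Agent.Lib.MP_177a0e_gt.LT
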