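import Pool.Agent.Lib.MP_177a0e_gt.LT.EF
import Pool.Agent.Lib.MP_177a0e_gt.LT.EC

/-!
# the closed tangle turned around, for all words.
-/

namespace Pool.Agent.Lib.MP_177a0e_gt.LT

open Pool.Agent.Lib.MP_177a0e_gt.Tangle Pool.Agent.Lib.MP_177a0e_gt.Tangle.Gen
open Pool.Agent.Lib.MP_177a0e_gt.Sig

private theorem gl (g : Gen) : g.src.length % 2 = 0 ∧ g.tgt.length % 2 = 0 := by
  cases g <;> simp [Gen.src, Gen.tgt]

private theorem ld_right (k : ℕ) (l r r' : List Bool) (g : Gen) : ld k ⟨l, g, r⟩ = ld k ⟨l, g, r'⟩ := rfl

theorem mt_all (Z : Word) : ∀ (A γ : List Bool) (z x : Bool), Valid (A ++ z :: γ) Z [x, !x] → A.length % 2 = 1 →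
    γ.length % 2 = 0 → Cl.ev ∉ dat 0 Z → Mt A z γ (dat 0 Z) (Z ++ [⟨[], cap x, []⟩]) := by
  induction Z with
  | nil =>
    intro A γ z x h hA hg _
    have h1 : A ++ z :: γ = [x, !x] := h
    have h2 := congrArg List.length h1
    simp only [List.length_append, List.length_cons, List.length_nil] at h2
    match A, γ, hA, hg, h1, h2 with
    | [], _, hA, _, _, _ => exact absurd hA (by decide)
    | [a], [], _, _, h1, _ =>
      simp only [List.cons_append, List.nil_append, List.cons.injEq, and_true] at h1
      obtain ⟨rfl, rfl⟩ := h1
      exact mt_base a
    | [a], b :: c, _, _, _, h2 =>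
      simp only [List.length_cons] at h2
      omega
    | a :: b :: c, _, hA, _, _, h2 =>
      simp only [List.length_cons] at h2 hA
      omega
  | cons t Z ih =>
    intro A γ z x h hA hg hev
    obtain ⟨l, g, r⟩ := t
    obtain ⟨hs, hZ⟩ := h
    have hs' : (l ++ g.src) ++ r = A ++ z :: γ := hs
    have hZ' : Valid (l ++ g.tgt ++ r) Z [x, !x] := hZ
    rw [dat_cons, Multiset.mem_add] at hev
    have hev1 : Cl.ev ∉ ld 0 ⟨l, g, r⟩ := fun h => hev (Or.inl h)
    have hev2 : Cl.ev ∉ dat 0 Z := fun h => hev (Or.inr h)
    have hF : Valid (l ++ g.tgt ++ r) (Z ++ [⟨[], cap x, []⟩]) [] := hZ'.append ⟨rfl, rfl⟩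
    rw [dat_cons, List.cons_append]
    obtain ⟨hg1, hg2⟩ := gl g
    -- the slice is on the left
    have left : ∀ r₀ : List Bool, A = l ++ g.src ++ r₀ → r = r₀ ++ z :: γ →
        Mt A z γ (ld 0 ⟨l, g, r⟩ + dat 0 Z) (⟨l, g, r⟩ :: (Z ++ [⟨[], cap x, []⟩])) := by
      intro r₀ h1 h2
      subst h1 h2
      have hA' : (l ++ g.tgt ++ r₀).length % 2 = 1 := by
        simp only [List.length_append] at hA ⊢
        omega
      have e1 : (l ++ g.tgt ++ r₀) ++ z :: γ = l ++ g.tgt ++ (r₀ ++ z :: γ) := List.append_assoc _ _ _
      have h3 := ih (l ++ g.tgt ++ r₀) γ z x (by rw [e1]; exact hZ') hA' hg hev2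
      have h4 := mt_left (A := l ++ g.src ++ r₀) (V := [⟨l, g, r₀⟩]) hg ⟨rfl, rfl⟩ (by
        show Valid ((l ++ g.tgt ++ r₀) ++ z :: γ) _ []
        rw [e1]
        exact hF) h3
      rw [dat_single] at h4
      exact h4
    rcases List.append_eq_append_iff.1 hs' with ⟨r₀, h1, h2⟩ | ⟨c, h1, h2⟩
    · exact left r₀ h1 h2
    · rcases c with _ | ⟨c0, c⟩
      · rw [List.append_nil] at h1
        rw [List.nil_append] at h2
        exact left [] (by rw [List.append_nil, h1]) (by rw [List.nil_append, h2])
      · rw [List.cons_append, List.cons.injEq] at h2
        obtain ⟨rfl, rfl⟩ := h2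
        -- the slice is on the right
        -- the slice begins or ends at the cut
        have cut : ∀ a' : List Bool, A = l ++ a' → g.src = a' ++ z :: c →
            Mt A z (c ++ r) (ld 0 ⟨l, g, r⟩ + dat 0 Z) (⟨l, g, r⟩ :: (Z ++ [⟨[], cap x, []⟩])) := by
          intro a' h3 h4
          rcases a' with _ | ⟨a, a'⟩
          · rw [List.append_nil] at h3
            rw [List.nil_append] at h4
            subst h3
            have h5 := congrArg List.length h4
            rw [List.length_cons] at h5
            rw [List.length_append] at hg
            rcases g with y | y | ⟨s, y, y'⟩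
            · exact absurd h4 (by simp [Gen.src])
            · -- an odd maximum
              have h6 : [y, !y] = z :: c := h4
              rw [List.cons.injEq] at h6
              obtain ⟨rfl, rfl⟩ := h6
              rcases r with _ | ⟨f, γ₂⟩
              · simp at hg
              · simp only [List.length_cons, List.length_nil] at hg
                have h7 := ih A γ₂ f x (by
                  have e1 : A ++ f :: γ₂ = A ++ [] ++ f :: γ₂ := by rw [List.append_nil]
                  rw [e1]
                  exact hZ') hA (by omega) hev2
                have h8 := mt_cap (z := y) (by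
                  have e1 : A ++ f :: γ₂ = A ++ [] ++ f :: γ₂ := by rw [List.append_nil]
                  rw [e1]
                  exact hF) h7
                have h9 : ld 0 ⟨A, cap y, f :: γ₂⟩ = 0 := by
                  unfold ld
                  simp only [Nat.zero_add]
                  rw [if_neg (by omega)]
                rw [h9, zero_add]
                exact h8
            · have h6 : [y, y'] = z :: c := h4
              rw [List.cons.injEq] at h6
              obtain ⟨rfl, rfl⟩ := h6
              rcases r with _ | ⟨f, γ₂⟩
              · simp at hg
              · simp only [List.length_cons, List.length_nil] at hg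
                have e1 : A ++ y' :: y :: f :: γ₂ = A ++ (cross s y y').tgt ++ f :: γ₂ := by
                  simp [Gen.tgt]
                have e2 : (A ++ [y', y]) ++ f :: γ₂ = A ++ (cross s y y').tgt ++ f :: γ₂ := rfl
                have h7 := ih (A ++ [y', y]) γ₂ f x (by
                  rw [e2]
                  exact hZ') (by
                  simp only [List.length_append, List.length_cons, List.length_nil]
                  omega) (by omega) hev2
                exact mt_odd hA (by omega) (by
                  rw [e1]
                  exact hF) h7
          · have h5 := congrArg List.length h4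
            simp only [List.length_append, List.length_cons] at h5
            rcases g with y | y | ⟨s, y, y'⟩
            · exact absurd h4 (by simp [Gen.src])
            · -- an even maximum
              exfalso
              apply hev1
              simp only [Gen.src, List.length_cons, List.length_nil] at h5
              have h6 : a'.length = 0 := by omega
              subst h3
              simp only [List.length_append, List.length_cons, h6] at hA
              unfold ld
              simp only [Nat.zero_add]
              rw [if_pos (by omega)]
              exact Multiset.mem_singleton_self _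
            · simp only [Gen.src, List.length_cons, List.length_nil] at h5
              have h6 : a' = [] := List.length_eq_zero_iff.1 (by omega)
              have h7 : c = [] := List.length_eq_zero_iff.1 (by omega)
              subst h6 h7 h3
              have h8 : [y, y'] = [a, z] := h4
              simp only [List.cons.injEq, and_true] at h8
              obtain ⟨rfl, rfl⟩ := h8
              rw [List.nil_append]
              rw [List.nil_append] at hg
              simp only [List.length_append, List.length_cons, List.length_nil] at hA
              have e1 : l ++ y' :: y :: r = l ++ (cross s y y').tgt ++ r := by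
                simp [Gen.tgt]
              have e2 : (l ++ [y']) ++ y :: r = l ++ (cross s y y').tgt ++ r := by
                simp [Gen.tgt]
              have h9 := ih (l ++ [y']) r y x (by
                rw [e2]
                exact hZ') (by
                simp only [List.length_append, List.length_cons, List.length_nil]
                omega) hg hev2
              exact mt_cross (by omega) (by
                rw [e1]
                exact hF) h9
        rcases List.append_eq_append_iff.1 h1 with ⟨a', h3, h4⟩ | ⟨l₁, h3, h4⟩
        · exact cut a' h3 h4
        · rcases l₁ with _ | ⟨l1, l₀⟩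
          · rw [List.append_nil] at h3
            rw [List.nil_append] at h4
            exact cut [] (by rw [List.append_nil, h3]) (by rw [List.nil_append, h4])
          · rw [List.cons_append, List.cons.injEq] at h4
            obtain ⟨rfl, rfl⟩ := h4
            subst h3
            simp only [List.length_append] at hg
            have e1 : A ++ z :: (l₀ ++ g.tgt ++ r) = A ++ z :: l₀ ++ g.tgt ++ r := by
              simp [List.append_assoc]
            have h5 := ih A (l₀ ++ g.tgt ++ r) z x (by
              rw [e1]
              exact hZ') hA (by
              simp only [List.length_append]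
              omega) hev2
            have h6 := mt_right (γ := l₀ ++ g.src ++ r) (V := [⟨l₀, g, r⟩]) ⟨rfl, rfl⟩ (by
              show Valid (A ++ z :: (l₀ ++ g.tgt ++ r)) _ []
              rw [e1]
              exact hF) h5
            have h7 : ld 0 ⟨A ++ z :: l₀, g, r⟩ = dat 0 [⟨l₀, g, r⟩] := by
              rw [dat_single]
              have e2 := ld_shift 0 (A ++ [z]) [] ⟨l₀, g, r⟩
              have e3 : (A ++ [z]) ++ l₀ = A ++ z :: l₀ := by simp
              simp only [e3] at e2
              rw [ld_right 0 (A ++ z :: l₀) r (r ++ []) g, e2]
              apply ld_mod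
              simp only [List.length_append, List.length_cons, List.length_nil]
              omega
            rw [h7]
            have e4 : cx (A ++ [z]) [⟨l₀, g, r⟩] [] = [⟨A ++ z :: l₀, g, r⟩] := by
              rw [cx_cons]
              simp
            rw [e4] at h6
            exact h6

theorem fn_mate {A γ : List Bool} {z : Bool} {D : Multiset Cl} {F : Word} (h : Fn (A ++ z :: γ) D F)
    (hA : A.length % 2 = 1) (hg : γ.length % 2 = 0) : Mt A z γ D F := by
  obtain ⟨Z, x, h1, h2, rfl, rfl⟩ := h
  exact mt_all Z A γ z x h1 hA hg h2

end Pool.Agent.Lib.MP_177a0e_gt.LT
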