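import Pool.Agent.Lib.MP_177a0e_gt.LT.SP

/-!
# the descent from `T(2, m)` to a knot and from a knot to `-T(2, n)`.
-/

namespace Pool.Agent.Lib.MP_177a0e_gt.LT

open Pool.Agent.Lib.MP_177a0e_gt.Tangle Pool.Agent.Lib.MP_177a0e_gt.Tangle.Gen
open Pool.Agent.Lib.MP_177a0e_gt.Sig

/-- the knot `K` has the diagram `w`, in which every maximum has an odd number of strands on its left -/
def Dia (K w : Knot) : Prop := OddMax w.1 ∧ Iso [true] [true] K.1 w.1

/-- the movie of saddles from `T(2, m)` -/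
theorem any_movie {T K w : Knot} {m : ℕ} (h : Dia K w) (hn : posr w.1 ≤ m) (hm : m % 2 = 1) (hT : T.1 = tk m) :
    ∃ g : ℕ, 2 * g + posr w.1 + 1 = nblk w.1 + negw w.1 + m ∧ Cob [true] [true] 0 (2 * g) 0 T.1 K.1 := by
  obtain ⟨h2, hK⟩ := h
  obtain ⟨s, e1, c1⟩ := any_up w.2.valid h2 (m := m) (by omega) hn
  have c2 := hK.trans c1
  rw [← hT] at c2
  have c3 : Cob [true] [true] 0 s 0 T.1 K.1 := c2.symm.cast rfl (by omega) rfl
  have p := cob_parity T.2 K.2 c3
  obtain ⟨g, hg⟩ : ∃ g, s = 2 * g := ⟨s / 2, by omega⟩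
  subst hg
  exact ⟨g, e1, c3⟩

/-- the lower bound of the signature -/
theorem any_sig {K w : Knot} (h : Dia K w) : (posr w.1 : ℤ) ≤ signature K.1 + nblk w.1 + negw w.1 := by
  have hm : (2 * posr w.1 + 1) % 2 = 1 := by omega
  obtain ⟨g, e1, c1⟩ := any_movie (T := ⟨tk (2 * posr w.1 + 1), tk_knot _ hm⟩) h (by omega) hm rfl
  have k1 := sgn_movie sgn_signature (L := K) (g := g) (d := 0) (c1.cast rfl (by omega) rfl)
  have k4 := signature_tk hm
  rw [abs_le] at k1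
  have k5 := k1.2
  change 2 * signature (tk (2 * posr w.1 + 1)) - 2 * signature K.1 ≤ 4 * g at k5
  push_cast at k4
  omega

/-- the upper bound of the signature of an alternating knot -/
theorem alt_sig {K w : Knot} (h : Dia K w) (h1 : Des.Alternating true w.1) :
    signature K.1 + nblk w.1 + negw w.1 = posr w.1 := by
  have k0 := any_sig h
  have k2 := sgn_movie sgn_signature (K := K) (L := w) (g := 0) (d := 0) h.2
  have k3 := sig_le w.2 h1 h.1
  rw [abs_le] at k2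
  rw [alt_posr h1, alt_negw h1] at k0 ⊢
  push_cast at k2 k0 ⊢
  omega

/-- the descent from `T(2, m)` -/
theorem any_above {T K w : Knot} {m : ℕ} (h : Dia K w) (hn : posr w.1 ≤ m) (hm : m % 2 = 1) (hT : T.1 = tk m) :
    ∃ g : ℕ, 2 * g + posr w.1 + 1 = nblk w.1 + negw w.1 + m ∧ Cob [true] [true] 0 (2 * g) 0 T.1 K.1 ∧
      (signature K.1 + nblk w.1 + negw w.1 = posr w.1 → Drop (fun w => 2 * signature w) g T K) := by
  obtain ⟨g, e1, c1⟩ := any_movie h hn hm hT
  have k4 := signature_tk hm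
  rw [← hT] at k4
  refine ⟨g, e1, c1, fun e => ⟨⟨0, c1.cast rfl (by omega) rfl⟩, ?_⟩⟩
  show 2 * signature T.1 = 2 * signature K.1 + 4 * g
  have e2 : (2 * g + posr w.1 + 1 : ℤ) = nblk w.1 + negw w.1 + m := by exact_mod_cast e1
  linarith

/-- the descent to `-T(2, n)` -/
theorem any_below {K L w : Knot} {n : ℕ} (h : Dia K.mirror w) (h' : posr w.1 ≤ n) (hn : n % 2 = 1)
    (hL : L.1 = Tangle.adj (tk n)) :
    ∃ g : ℕ, 2 * g + posr w.1 + 1 = nblk w.1 + negw w.1 + n ∧ Cob [true] [true] 0 (2 * g) 0 K.1 L.1 ∧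
      (signature K.1 + posr w.1 = nblk w.1 + negw w.1 → Drop (fun w => 2 * signature w) g K L) := by
  obtain ⟨g, e1, c1⟩ := any_movie (T := ⟨tk n, tk_knot n hn⟩) h h' hn rfl
  have c2 : Cob [true] [true] 0 (2 * g) 0 (Tangle.adj (Tangle.adj K.1)) (Tangle.adj (tk n)) := c1.symm.adj
  rw [Tangle.adj_adj, ← hL] at c2
  have k4 := signature_adj_tk hn
  rw [← hL] at k4
  refine ⟨g, e1, c2, fun e => ⟨⟨0, c2.cast rfl (by omega) rfl⟩, ?_⟩⟩
  show 2 * signature K.1 = 2 * signature L.1 + 4 * g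
  have e2 : (2 * g + posr w.1 + 1 : ℤ) = nblk w.1 + negw w.1 + n := by exact_mod_cast e1
  linarith

end Pool.Agent.Lib.MP_177a0e_gt.LT
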