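import Pool.Agent.Lib.MP_177a0e_gt.LT.EA
import Pool.Agent.Lib.MP_177a0e_gt.LT.SQ

/-!
# the classes of the letters and the numbers of SN.lean.
-/

namespace Pool.Agent.Lib.MP_177a0e_gt.LT

open Pool.Agent.Lib.MP_177a0e_gt.Tangle Pool.Agent.Lib.MP_177a0e_gt.Tangle.Gen
open Pool.Agent.Lib.MP_177a0e_gt.Sig

/-- the number of maxima with an even number of strands on their left -/
def emax (w : Word) : ℕ :=
  w.countP fun t => match t.gen with
    | cap _ => t.left.length % 2 == 0
    | _ => false

private theorem EP_posr (t : Slice) : (ld 0 t).count (Cl.cr true true) = if rty t && gpos t.gen then 1 else 0 := by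
  obtain ⟨l, g, r⟩ := t
  rcases Nat.mod_two_eq_zero_or_one l.length with hl | hl <;>
    rcases g with x | x | ⟨s, x, y⟩ <;> cases x <;>
      first
        | (cases s <;> cases y <;> simp [ld, rty, gpos, hl])
        | simp [ld, rty, gpos, hl]

private theorem EP_negw (t : Slice) : (ld 0 t).count (Cl.cr false false) = if !rty t && gneg t.gen then 1 else 0 := by
  obtain ⟨l, g, r⟩ := t
  rcases Nat.mod_two_eq_zero_or_one l.length with hl | hl <;>
    rcases g with x | x | ⟨s, x, y⟩ <;> cases x <;>
      first
        | (cases s <;> cases y <;> simp [ld, rty, gpos, gneg, hl])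
        | simp [ld, rty, gneg, hl]

private theorem EP_nblk (t : Slice) : (ld 0 t).count Cl.od = if blk t then 1 else 0 := by
  obtain ⟨l, g, r⟩ := t
  rcases Nat.mod_two_eq_zero_or_one l.length with hl | hl <;>
    rcases g with x | x | ⟨s, x, y⟩ <;> simp [ld, blk, hl]

private theorem EP_emax (t : Slice) : (ld 0 t).count Cl.ev = if (match t.gen with
    | cap _ => t.left.length % 2 == 0
    | _ => false) then 1 else 0 := by
  obtain ⟨l, g, r⟩ := t
  rcases Nat.mod_two_eq_zero_or_one l.length with hl | hl <;>
    rcases g with x | x | ⟨s, x, y⟩ <;> simp [ld, hl]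

theorem count_posr (w : Word) : (dat 0 w).count (Cl.cr true true) = posr w := by
  induction w with
  | nil => rfl
  | cons t w ih => rw [dat_cons, Multiset.count_add, ih, posr_cons, EP_posr, add_comm]

theorem count_negw (w : Word) : (dat 0 w).count (Cl.cr false false) = negw w := by
  induction w with
  | nil => rfl
  | cons t w ih => rw [dat_cons, Multiset.count_add, ih, negw_cons, EP_negw, add_comm]

theorem count_nblk (w : Word) : (dat 0 w).count Cl.od = nblk w := by
  induction w with
  | nil => rfl
  | cons t w ih => rw [dat_cons, Multiset.count_add, ih, nblk_cons, EP_nblk, add_comm]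

theorem count_emax (w : Word) : (dat 0 w).count Cl.ev = emax w := by
  induction w with
  | nil => rfl
  | cons t w ih =>
    have h : emax (t :: w) = emax w + (if (match t.gen with
        | cap _ => t.left.length % 2 == 0
        | _ => false) then 1 else 0) := List.countP_cons
    rw [dat_cons, Multiset.count_add, ih, h, EP_emax, add_comm]

private theorem EP_ev (t : Slice) : Cl.ev ∉ ld 0 t ↔ ∀ x : Bool, t.gen = cap x → t.left.length % 2 = 1 := by
  obtain ⟨l, g, r⟩ := t
  rcases Nat.mod_two_eq_zero_or_one l.length with hl | hl <;>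
    rcases g with x | x | ⟨s, x, y⟩ <;> simp [ld, hl]

private theorem EP_cr (t : Slice) : (∀ p : Bool, Cl.cr false p ∉ ld 0 t) ↔
    ∀ c x y, t.gen = cross c x y → (c = true ↔ t.left.length % 2 = 0) := by
  obtain ⟨l, g, r⟩ := t
  rcases Nat.mod_two_eq_zero_or_one l.length with hl | hl <;>
    rcases g with x | x | ⟨s, x, y⟩ <;>
      first
        | (cases s <;> simp [ld, hl])
        | simp [ld, hl]

theorem oddMax_iff (w : Word) : OddMax w ↔ Cl.ev ∉ dat 0 w := by
  induction w with
  | nil => simp [OddMax]
  | cons t w ih =>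
    rw [dat_cons, Multiset.mem_add, not_or, ← ih, EP_ev]
    unfold OddMax
    rw [List.forall_mem_cons]

theorem alt_iff (w : Word) : Des.Alternating true w ↔ ∀ p : Bool, Cl.cr false p ∉ dat 0 w := by
  induction w with
  | nil => simp [Des.Alternating]
  | cons t w ih =>
    have h : (∀ p : Bool, Cl.cr false p ∉ dat 0 (t :: w)) ↔
        (∀ p : Bool, Cl.cr false p ∉ ld 0 t) ∧ ∀ p : Bool, Cl.cr false p ∉ dat 0 w := by
      rw [← forall_and]
      refine forall_congr' fun p => ?_
      rw [dat_cons, Multiset.mem_add, not_or]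
    rw [h, ← ih, EP_cr]
    unfold Des.Alternating
    rw [List.forall_mem_cons]

end Pool.Agent.Lib.MP_177a0e_gt.LT
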