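import Pool.Agent.Lib.MP_177a0e_gt.LT.EK
import Pool.Agent.Lib.MP_177a0e_gt.LT.EJ

/-!
# crossings at the boundary of the closed tangle.
-/

namespace Pool.Agent.Lib.MP_177a0e_gt.LT

open Pool.Agent.Lib.MP_177a0e_gt.Tangle Pool.Agent.Lib.MP_177a0e_gt.Tangle.Gen
open Pool.Agent.Lib.MP_177a0e_gt.Sig

private theorem ER_tr {p q : List Bool} {u u' F F' : Word} {D D' : Multiset Cl}
    (h : Iso [] (p ++ q) (u' ++ cx p F' q) (u ++ cx p F q)) (hd : dat 0 u + D = dat 0 u' + D')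
    (ht : Tr p q u F D) : Tr p q u' F' D' := by
  rcases ht with ht | ⟨w', h1, h2, h3⟩
  · exact Or.inl (ht.iso h)
  · exact Or.inr ⟨w', h1, by rw [h2, hd], h.trans h3⟩

private theorem ER_gL (s x y : Bool) : gpos (cross (!s) (!y) x) = gpos (cross s x y) := by
  cases s <;> cases x <;> cases y <;> rfl

private theorem ER_gR (s x y : Bool) : gpos (cross (!s) y (!x)) = gpos (cross s x y) := by
  cases s <;> cases x <;> cases y <;> rfl

private theorem ER_s (s : Bool) : ((!s) == true) = (s == false) := by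
  cases s <;> rfl

theorem tr_crossL {p m q : List Bool} {s x y : Bool} {u F : Word} {D : Multiset Cl} (hp : p.length % 2 = 1)
    (hm : m.length % 2 = 1) (hu : Valid [] u (p ++ [x, y] ++ m ++ q)) (hF : Fn (x :: m) D F) :
    Tr (p ++ [y]) q (u ++ [⟨p, cross s x y, m ++ q⟩]) F D := by
  have e1 : ld 0 ⟨[x], cap (!y), m⟩ = 0 := by simp [ld]
  have e2 : ld 0 ⟨[], cross (!s) (!y) x, y :: m⟩ = {Cl.cr (s == false) (gpos (cross s x y))} := by
    rw [← ER_gL s x y, ← ER_s s]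
    simp [ld]
  have e3 : ld 0 ⟨p, cross s x y, m ++ q⟩ = {Cl.od} + {Cl.cr (s == false) (gpos (cross s x y))} := by
    simp [ld, hp]
  have e4 : ld 0 ⟨p, cup y, (x :: y :: m) ++ q⟩ = {Cl.od} := by
    simp [ld, hp]
  have f1 : Fn (Slice.src ⟨[x], cap (!y), m⟩) (ld 0 ⟨[x], cap (!y), m⟩ + D) (⟨[x], cap (!y), m⟩ :: F) :=
    fn_cons hF (by rw [e1]; simp)
  have f2 : Fn (Slice.src ⟨[], cross (!s) (!y) x, y :: m⟩)
      (ld 0 ⟨[], cross (!s) (!y) x, y :: m⟩ + (ld 0 ⟨[x], cap (!y), m⟩ + D))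
      (⟨[], cross (!s) (!y) x, y :: m⟩ :: ⟨[x], cap (!y), m⟩ :: F) :=
    fn_cons (by simpa [Slice.src, Slice.tgt, Gen.src, Gen.tgt] using f1) (by rw [e2]; simp)
  have h1 := tr_cupL (p := p) (m := x :: y :: m) (q := q) (z := y) (u := u) hp
    (by simp only [List.length_cons]; omega) (by simpa using hu)
    (by simpa [Slice.src, Slice.tgt, Gen.src, Gen.tgt] using f2)
  refine ER_tr ?_ ?_ h1
  · have v1 := cx_valid hF.valid (p ++ [y]) q
    have h2 := turn s x y p (m ++ q)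
    have h3 := rb_top h2 (c₀ := []) (u := u) (by simpa using hu)
    have h4 := rb_bot h3 (v := cx (p ++ [y]) F q) (e₀ := p ++ [y] ++ q) (by simpa using v1)
    simpa [turned] using h4
  · rw [dat_append, dat_append, dat_single, dat_single, e1, e2, e3, e4, zero_add]
    abel

theorem tr_crossR {p m q : List Bool} {s x y : Bool} {u F : Word} {D : Multiset Cl} (hp : p.length % 2 = 0)
    (hm : m.length % 2 = 1) (hu : Valid [] u (p ++ m ++ [x, y] ++ q)) (hF : Fn (m ++ [y]) D F) :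
    Tr p (x :: q) (u ++ [⟨p ++ m, cross s x y, q⟩]) F D := by
  have hpm : (p.length + m.length) % 2 = 1 := by omega
  have hm1 : (m.length + 1) % 2 = 0 := by omega
  have hpm2 : (p.length + (m.length + 2)) % 2 = 1 := by omega
  have e1 : ld 0 ⟨m, cap x, [y]⟩ = 0 := by simp [ld, hm]
  have e2 : ld 0 ⟨m ++ [x], cross (!s) y (!x), []⟩ = {Cl.cr (s == false) (gpos (cross s x y))} := by
    rw [← ER_gR s x y, ← ER_s s]
    simp [ld, hm1]
  have e3 : ld 0 ⟨p ++ m, cross s x y, q⟩ = {Cl.od} + {Cl.cr (s == false) (gpos (cross s x y))} := by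
    simp [ld, hpm]
  have e4 : ld 0 ⟨p ++ (m ++ [x, y]), cup (!x), q⟩ = {Cl.od} := by
    simp [ld, hpm2]
  have f1 : Fn (Slice.src ⟨m, cap x, [y]⟩) (ld 0 ⟨m, cap x, [y]⟩ + D) (⟨m, cap x, [y]⟩ :: F) :=
    fn_cons (by simpa [Slice.src, Slice.tgt, Gen.src, Gen.tgt] using hF) (by rw [e1]; simp)
  have f2 : Fn (Slice.src ⟨m ++ [x], cross (!s) y (!x), []⟩)
      (ld 0 ⟨m ++ [x], cross (!s) y (!x), []⟩ + (ld 0 ⟨m, cap x, [y]⟩ + D))
      (⟨m ++ [x], cross (!s) y (!x), []⟩ :: ⟨m, cap x, [y]⟩ :: F) :=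
    fn_cons (by simpa [Slice.src, Slice.tgt, Gen.src, Gen.tgt] using f1) (by rw [e2]; simp)
  have h1 := tr_cupR (p := p) (m := m ++ [x, y]) (q := q) (z := !x) (u := u) hp
    (by simp only [List.length_append, List.length_cons, List.length_nil]; omega) (by simpa using hu)
    (by simpa [Slice.src, Slice.tgt, Gen.src, Gen.tgt] using f2)
  rw [Bool.not_not] at h1
  refine ER_tr ?_ ?_ h1
  · have v1 := cx_valid hF.valid p (x :: q)
    have h2 := turn_r s x y (p ++ m) q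
    have h3 := rb_top h2 (c₀ := []) (u := u) (by simpa using hu)
    have h4 := rb_bot h3 (v := cx p F (x :: q)) (e₀ := p ++ x :: q) (by simpa using v1)
    simpa using h4
  · rw [dat_append, dat_append, dat_single, dat_single, e1, e2, e3, e4, zero_add]
    abel

end Pool.Agent.Lib.MP_177a0e_gt.LT
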