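import Pool.Agent.Lib.MP_177a0e_gt.LT.EL

/-!
# all maxima at even positions.
-/

namespace Pool.Agent.Lib.MP_177a0e_gt.LT

open Pool.Agent.Lib.MP_177a0e_gt.Tangle Pool.Agent.Lib.MP_177a0e_gt.Tangle.Gen
open Pool.Agent.Lib.MP_177a0e_gt.Sig

/-- a slice which contributes an even maximum is an even maximum -/
private theorem ET_cap {t : Slice} (h : Cl.ev ∈ ld 0 t) :
    ∃ (l r : List Bool) (x : Bool), t = ⟨l, cap x, r⟩ ∧ l.length % 2 = 0 := by
  obtain ⟨l, g, r⟩ := t
  unfold ld at h
  cases g with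
  | cup x =>
    simp only at h
    split_ifs at h <;> simp at h
  | cap x =>
    simp only at h
    split_ifs at h with h1
    · exact ⟨l, r, x, rfl, by omega⟩
    · simp at h
  | cross s x y =>
    simp only at h
    split_ifs at h <;> simp at h

private theorem ET_ld {l r : List Bool} {x : Bool} (h : l.length % 2 = 0) : ld 0 ⟨l, cap x, r⟩ = {Cl.ev} := by
  have h1 : (0 + l.length) % 2 = 0 := by omega
  unfold ld
  simp only [if_pos h1]

theorem clean (w : Word) : ∀ e : List Bool, Valid [] w e → HC e w ∨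
    ∃ (w' : Word) (n : ℕ), Valid [] w' e ∧ Cl.ev ∉ dat 0 w' ∧ Iso [] e w w' ∧
      dat 0 w' + n • {Cl.od} + n • {Cl.ev} = dat 0 w := by
  induction w using List.reverseRecOn with
  | nil =>
    intro e he
    refine Or.inr ⟨[], 0, he, by simp, Cob.refl he, by simp⟩
  | append_singleton w t ih =>
    intro e he
    obtain ⟨e₀, hw, ht⟩ := valid_append.1 he
    have ht' := valid_single.1 ht
    rcases ih e₀ hw with h1 | ⟨w₁, n, hw₁, hev, hiso, hd⟩
    · exact Or.inl (h1.app ht)
    have hb : Iso [] e (w ++ [t]) (w₁ ++ [t]) := rb_bot hiso ht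
    by_cases hc : Cl.ev ∈ ld 0 t
    · obtain ⟨l, r, x, rfl, hl⟩ := ET_cap hc
      have hs : l ++ [x, !x] ++ r = e₀ := ht'.1
      have hr : l ++ r = e := by
        have h2 : l ++ [] ++ r = e := ht'.2
        rwa [List.append_nil] at h2
      subst hs
      subst hr
      have hF : Fn [x, !x] 0 [⟨[], cap x, []⟩] := ⟨[], x, rfl, by simp, rfl, rfl⟩
      have hcx : cx l [⟨[], cap x, []⟩] r = [⟨l, cap x, r⟩] := by
        simp [cx]
      rcases trace w₁ l [x, !x] r 0 [⟨[], cap x, []⟩] hw₁ hev hl (by simp) hF with h3 | ⟨w', v1, v2, v3⟩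
      · rw [hcx] at h3
        exact Or.inl (h3.iso hb)
      · rw [hcx] at v3
        rw [add_zero] at v2
        refine Or.inr ⟨w', n + 1, v1, ?_, (hb.trans v3).cast rfl rfl rfl, ?_⟩
        · intro h4
          apply hev
          rw [← v2, Multiset.mem_add]
          exact Or.inl h4
        · rw [dat_append, dat_single, ET_ld hl, ← hd, ← v2, succ_nsmul, succ_nsmul]
          abel
    · refine Or.inr ⟨w₁ ++ [t], n, hw₁.append ht, ?_, hb, ?_⟩
      · rw [dat_append, dat_single, Multiset.mem_add]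
        tauto
      · rw [dat_append, dat_append, dat_single, ← hd]
        abel

end Pool.Agent.Lib.MP_177a0e_gt.LT
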