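import Pool.Agent.Lib.MP_177a0e_gt.LT.EM

/-!
# colourings and elementary isotopies.
-/

namespace Pool.Agent.Lib.MP_177a0e_gt.LT

open Pool.Agent.Lib.MP_177a0e_gt.Tangle Pool.Agent.Lib.MP_177a0e_gt.Tangle.Gen
open Pool.Agent.Lib.MP_177a0e_gt.Sig

private theorem EU_cup (p q a b : List Bool) (x : Bool) (φ : List Bool → ℕ) (h : a.length = p.length) :
    sT ⟨p, cup x, q⟩ φ (a ++ b) = φ (a ++ true :: true :: b) + φ (a ++ false :: false :: b) := by
  have h1 := sT_app ⟨p, cup x, q⟩ φ a [] b h rfl
  simpa [gT] using h1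

private theorem EU_cap (p q a b : List Bool) (x c d : Bool) (φ : List Bool → ℕ) (h : a.length = p.length) :
    sT ⟨p, cap x, q⟩ φ (a ++ c :: d :: b) = if c = d then φ (a ++ b) else 0 := by
  have h1 := sT_app ⟨p, cap x, q⟩ φ a [c, d] b h rfl
  have e : a ++ [c, d] ++ b = a ++ c :: d :: b := by simp
  rw [e] at h1
  rw [h1]
  cases c <;> cases d <;> simp [gT]

private theorem EU_cross (p q a b : List Bool) (s x y c d : Bool) (φ : List Bool → ℕ) (h : a.length = p.length) :
    sT ⟨p, cross s x y, q⟩ φ (a ++ c :: d :: b) = φ (a ++ d :: c :: b) := by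
  have h1 := sT_app ⟨p, cross s x y, q⟩ φ a [c, d] b h rfl
  have e : a ++ [c, d] ++ b = a ++ c :: d :: b := by simp
  rw [e] at h1
  rw [h1]
  simp [gT]

private theorem EU_cup' (p q a b : List Bool) (z u x : Bool) (φ : List Bool → ℕ) (h : a.length = p.length) :
    sT ⟨p ++ [z], cup x, q⟩ φ (a ++ u :: b) =
      φ (a ++ u :: true :: true :: b) + φ (a ++ u :: false :: false :: b) := by
  have h1 := EU_cup (p ++ [z]) q (a ++ [u]) b x φ (by simp [h])
  simpa using h1

private theorem EU_cap' (p q a b : List Bool) (z u x c d : Bool) (φ : List Bool → ℕ) (h : a.length = p.length) :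
    sT ⟨p ++ [z], cap x, q⟩ φ (a ++ u :: c :: d :: b) = if c = d then φ (a ++ u :: b) else 0 := by
  have h1 := EU_cap (p ++ [z]) q (a ++ [u]) b x c d φ (by simp [h])
  simpa using h1

private theorem EU_cross' (p q a b : List Bool) (z u s x y c d : Bool) (φ : List Bool → ℕ) (h : a.length = p.length) :
    sT ⟨p ++ [z], cross s x y, q⟩ φ (a ++ u :: c :: d :: b) = φ (a ++ u :: d :: c :: b) := by
  have h1 := EU_cross (p ++ [z]) q (a ++ [u]) b s x y c d φ (by simp [h])
  simpa using h1

private theorem EU_split (p q l : List Bool) (n : ℕ) (h : l.length = p.length + n + q.length) :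
    ∃ a x b : List Bool, a.length = p.length ∧ x.length = n ∧ b.length = q.length ∧ l = a ++ x ++ b := by
  refine ⟨l.take p.length, (l.drop p.length).take n, (l.drop p.length).drop n, ?_, ?_, ?_, ?_⟩
  · rw [List.length_take]
    omega
  · rw [List.length_take, List.length_drop]
    omega
  · rw [List.length_drop, List.length_drop]
    omega
  · rw [List.append_assoc, List.take_append_drop, List.take_append_drop]

private theorem EU_one (x : List Bool) (h : x.length = 1) : ∃ u, x = [u] := List.length_eq_one_iff.1 h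

private theorem EU_two (x : List Bool) (h : x.length = 2) : ∃ u v, x = [u, v] := List.length_eq_two.1 h

private theorem EU_three (x : List Bool) (h : x.length = 3) : ∃ u v w, x = [u, v, w] := List.length_eq_three.1 h

private theorem EU_gT (g : Gen) (φ ψ : List Bool → ℕ) (x : List Bool) (hx : x.length = g.src.length)
    (h : ∀ y : List Bool, y.length = g.tgt.length → φ y = ψ y) : gT g φ x = gT g ψ x := by
  cases g with
  | cup z =>
    unfold gT
    rw [h [true, true] rfl, h [false, false] rfl]
  | cap z =>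
    unfold gT
    simp only
    rw [h [] rfl]
  | cross s z w =>
    unfold gT
    simp only
    refine h _ ?_
    rw [List.length_reverse]
    exact hx

private theorem EU_comm (g g' : Gen) (F : List Bool → List Bool → ℕ) (x x' : List Bool) :
    gT g (fun y => gT g' (fun y' => F y y') x') x = gT g' (fun y' => gT g (fun y => F y y') x) x' := by
  cases g <;> cases g' <;> unfold gT <;> simp only <;> (try split_ifs) <;> (try rfl) <;> ring

theorem wT_rel {a b : Word} (h : Rel a b) {c e : List Bool} (ha : Valid c a e) (φ : List Bool → ℕ) :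
    ∀ l : List Bool, l.length = c.length → wT a φ l = wT b φ l := by
  cases h with
  | interchange g g' p q r =>
    intro l hl
    have hc := ha.1
    subst hc
    simp only [Slice.src, List.length_append] at hl
    obtain ⟨a, x, b, h1, h2, h3, rfl⟩ := EU_split p (q ++ g'.src ++ r) l g.src.length
      (by simp only [List.length_append]; omega)
    obtain ⟨b1, x', b2, h4, h5, h6, rfl⟩ := EU_split q r b g'.src.length
      (by rw [h3]; simp only [List.length_append])
    simp only [wT]
    rw [sT_app _ _ _ _ _ h1 h2]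
    have e1 : a ++ x ++ (b1 ++ x' ++ b2) = (a ++ x ++ b1) ++ x' ++ b2 := by simp
    rw [e1, sT_app _ _ (a ++ x ++ b1) x' b2 (by simp [h1, h2, h4]) h5]
    have e2 : gT g (fun y => sT ⟨p ++ g.tgt ++ q, g', r⟩ φ (a ++ y ++ (b1 ++ x' ++ b2))) x =
        gT g (fun y => gT g' (fun y' => φ (a ++ y ++ b1 ++ y' ++ b2)) x') x := by
      refine EU_gT g _ _ x h2 fun y hy => ?_
      have e3 : a ++ y ++ (b1 ++ x' ++ b2) = (a ++ y ++ b1) ++ x' ++ b2 := by simp
      rw [e3, sT_app _ _ (a ++ y ++ b1) x' b2 (by simp [h1, hy, h4]) h5]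
    have e4 : gT g' (fun y => sT ⟨p, g, q ++ g'.tgt ++ r⟩ φ (a ++ x ++ b1 ++ y ++ b2)) x' =
        gT g' (fun y' => gT g (fun y => φ (a ++ y ++ b1 ++ y' ++ b2)) x) x' := by
      refine EU_gT g' _ _ x' h5 fun y hy => ?_
      have e5 : a ++ x ++ b1 ++ y ++ b2 = a ++ x ++ (b1 ++ y ++ b2) := by simp
      rw [e5, sT_app _ _ a x (b1 ++ y ++ b2) h1 h2]
      refine congrArg (fun f => gT g f x) ?_
      funext z
      simp
    rw [e2, e4, EU_comm]
  | zigzag₁ x p q =>
    intro l hl
    have hc := ha.1
    subst hc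
    simp only [Slice.src, Gen.src, List.length_append, List.length_cons, List.length_nil] at hl
    obtain ⟨a, y, b, h1, h2, h3, rfl⟩ := EU_split p q l 1 (by omega)
    obtain ⟨u, rfl⟩ := EU_one y h2
    simp only [wT, List.append_assoc, List.cons_append, List.nil_append]
    rw [EU_cup' p q a b x u (!x) _ h1, EU_cap p _ a _ x u true _ h1, EU_cap p _ a _ x u false _ h1]
    cases u <;> simp
  | zigzag₂ x p q =>
    intro l hl
    have hc := ha.1
    subst hc
    simp only [Slice.src, Gen.src, List.length_append, List.length_cons, List.length_nil] at hl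
    obtain ⟨a, y, b, h1, h2, h3, rfl⟩ := EU_split p q l 1 (by omega)
    obtain ⟨u, rfl⟩ := EU_one y h2
    simp only [wT, List.append_assoc, List.cons_append, List.nil_append]
    rw [EU_cup p _ a _ x _ h1, EU_cap' p _ a _ x true _ true u _ h1, EU_cap' p _ a _ x false _ false u _ h1]
    cases u <;> simp
  | r1_cup s x p q =>
    intro l hl
    have hc := ha.1
    subst hc
    simp only [Slice.src, Gen.src, List.length_append, List.length_nil] at hl
    obtain ⟨a, y, b, h1, h2, h3, rfl⟩ := EU_split p q l 0 (by omega)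
    rw [List.length_eq_zero_iff] at h2
    subst h2
    simp only [wT, List.append_nil]
    rw [EU_cup p _ a _ x _ h1, EU_cup p _ a _ (!x) _ h1, EU_cross p _ a _ _ _ _ _ _ _ h1, EU_cross p _ a _ _ _ _ _ _ _ h1]
  | r1_cap s x p q =>
    intro l hl
    have hc := ha.1
    subst hc
    simp only [Slice.src, Gen.src, List.length_append, List.length_cons, List.length_nil] at hl
    obtain ⟨a, y, b, h1, h2, h3, rfl⟩ := EU_split p q l 2 (by omega)
    obtain ⟨u, v, rfl⟩ := EU_two y h2
    simp only [wT, List.append_assoc, List.cons_append, List.nil_append]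
    rw [EU_cross p _ a _ _ _ _ _ _ _ h1, EU_cap p _ a _ _ _ _ _ h1, EU_cap p _ a _ _ _ _ _ h1]
    cases u <;> cases v <;> simp
  | r2 s x y p q =>
    intro l hl
    have hc := ha.1
    subst hc
    simp only [Slice.src, Gen.src, List.length_append, List.length_cons, List.length_nil] at hl
    obtain ⟨a, y', b, h1, h2, h3, rfl⟩ := EU_split p q l 2 (by omega)
    obtain ⟨u, v, rfl⟩ := EU_two y' h2
    simp only [wT, List.append_assoc, List.cons_append, List.nil_append]
    rw [EU_cross p _ a _ _ _ _ _ _ _ h1, EU_cross p _ a _ _ _ _ _ _ _ h1]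
  | r3 s x y z p q =>
    intro l hl
    have hc := ha.1
    subst hc
    simp only [Slice.src, Gen.src, List.length_append, List.length_cons, List.length_nil] at hl
    obtain ⟨a, y', b, h1, h2, h3, rfl⟩ := EU_split p q l 3 (by omega)
    obtain ⟨u, v, w, rfl⟩ := EU_three y' h2
    simp only [wT, List.append_assoc, List.cons_append, List.nil_append]
    rw [EU_cross p _ a _ _ _ _ _ _ _ h1, EU_cross' p _ a _ _ _ _ _ _ _ _ _ h1, EU_cross p _ a _ _ _ _ _ _ _ h1,
      EU_cross' p _ a _ _ _ _ _ _ _ _ _ h1, EU_cross p _ a _ _ _ _ _ _ _ h1, EU_cross' p _ a _ _ _ _ _ _ _ _ _ h1]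
  | slide_cup s e' x p q =>
    intro l hl
    have hc := ha.1
    subst hc
    simp only [Slice.src, Gen.src, List.length_append, List.length_cons, List.length_nil] at hl
    obtain ⟨a, y', b, h1, h2, h3, rfl⟩ := EU_split p q l 1 (by omega)
    obtain ⟨u, rfl⟩ := EU_one y' h2
    simp only [wT, List.append_assoc, List.cons_append, List.nil_append]
    rw [EU_cup p _ a _ _ _ h1, EU_cross' p _ a _ _ _ _ _ _ _ _ _ h1, EU_cross' p _ a _ _ _ _ _ _ _ _ _ h1,
      EU_cup' p _ a _ _ _ _ _ h1, EU_cross p _ a _ _ _ _ _ _ _ h1, EU_cross p _ a _ _ _ _ _ _ _ h1]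
  | slide_cap s e' x p q =>
    intro l hl
    have hc := ha.1
    subst hc
    simp only [Slice.src, Gen.src, List.length_append, List.length_cons, List.length_nil] at hl
    obtain ⟨a, y', b, h1, h2, h3, rfl⟩ := EU_split p q l 3 (by omega)
    obtain ⟨u, v, w, rfl⟩ := EU_three y' h2
    simp only [wT, List.append_assoc, List.cons_append, List.nil_append]
    rw [EU_cross' p _ a _ _ _ _ _ _ _ _ _ h1, EU_cap p _ a _ _ _ _ _ h1, EU_cross p _ a _ _ _ _ _ _ _ h1,
      EU_cap' p _ a _ _ _ _ _ _ _ h1]

end Pool.Agent.Lib.MP_177a0e_gt.LT
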