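import Pool.Agent.Lib.MP_177a0e_gt.LT.EM

/-!
# colourings of closed tangles.
-/

namespace Pool.Agent.Lib.MP_177a0e_gt.LT

open Pool.Agent.Lib.MP_177a0e_gt.Tangle Pool.Agent.Lib.MP_177a0e_gt.Tangle.Gen
open Pool.Agent.Lib.MP_177a0e_gt.Sig

private theorem ev_gT_smul (g : Gen) (k : ℕ) (χ : List Bool → ℕ) (c : List Bool) :
    gT g (fun y => k * χ y) c = k * gT g χ c := by
  cases g with
  | cup x => simp only [gT]; ring
  | cap x =>
    simp only [gT]
    split_ifs
    · rfl
    · rw [mul_zero]
  | cross s x y => rfl

theorem wT_smul (w : Word) (k : ℕ) (φ : List Bool → ℕ) (l : List Bool) : wT w (fun y => k * φ y) l = k * wT w φ l := by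
  induction w generalizing l with
  | nil => rfl
  | cons t w ih =>
    have e : wT w (fun y => k * φ y) = fun y => k * wT w φ y := funext ih
    show sT t (wT w fun y => k * φ y) l = k * sT t (wT w φ) l
    rw [e]
    unfold sT
    exact ev_gT_smul _ _ _ _

private theorem ev_map (c : List Bool) (x : List Bool) : c.map not = x.map not ↔ c = x := by
  constructor
  · intro h
    exact (List.map_injective_iff.2 (fun a b hab => by cases a <;> cases b <;> simp_all)) h
  · rintro rfl
    rfl

private theorem ev_gT_flip (g : Gen) (χ : List Bool → ℕ) (c : List Bool) :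
    gT g χ (c.map not) = gT g (fun y => χ (y.map not)) c := by
  cases g with
  | cup x => exact Nat.add_comm _ _
  | cap x =>
    have h1 := ev_map c [true, true]
    have h2 := ev_map c [false, false]
    simp only [List.map_cons, List.map_nil, Bool.not_true, Bool.not_false] at h1 h2
    simp only [gT, h1, h2, List.map_nil]
    congr 1
    exact propext or_comm
  | cross s x y =>
    simp only [gT, List.map_reverse]

theorem wT_flip (w : Word) (φ : List Bool → ℕ) (l : List Bool) :
    wT w φ (l.map not) = wT w (fun y => φ (y.map not)) l := by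
  induction w generalizing l with
  | nil => rfl
  | cons t w ih =>
    show sT t (wT w φ) (l.map not) = sT t (wT w fun y => φ (y.map not)) l
    have e : (wT w fun y => φ (y.map not)) = fun y => wT w φ (y.map not) := funext fun y => (ih y).symm
    rw [e]
    unfold sT
    rw [← List.map_take, ← List.map_drop, ← List.map_drop, ← List.map_take, ev_gT_flip]
    simp only [List.map_append]

private theorem ev_gT_congr {g : Gen} {χ ψ : List Bool → ℕ} {c : List Bool} (hc : c.length = g.src.length)
    (h : ∀ z : List Bool, z.length = g.tgt.length → χ z = ψ z) : gT g χ c = gT g ψ c := by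
  cases g with
  | cup x =>
    simp only [gT]
    rw [h [true, true] rfl, h [false, false] rfl]
  | cap x =>
    simp only [gT]
    rw [h [] rfl]
  | cross s x y =>
    simp only [gT]
    refine h _ ?_
    rw [List.length_reverse, hc]
    rfl

private theorem ev_split (x : List Bool) (i j k : ℕ) (h : x.length = i + j + k) :
    ∃ x1 y x2 : List Bool, x = x1 ++ y ++ x2 ∧ x1.length = i ∧ y.length = j ∧ x2.length = k := by
  refine ⟨x.take i, (x.drop i).take j, x.drop (i + j), ?_, ?_, ?_, ?_⟩
  · have h1 : x.drop (i + j) = (x.drop i).drop j := by rw [List.drop_drop]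
    rw [h1, List.append_assoc, List.take_append_drop, List.take_append_drop]
  · rw [List.length_take]; omega
  · rw [List.length_take, List.length_drop]; omega
  · rw [List.length_drop]; omega

theorem wT_cx {c e : List Bool} {w : Word} (h : Valid c w e) (p q a x b : List Bool) (φ : List Bool → ℕ)
    (ha : a.length = p.length) (hx : x.length = c.length) :
    wT (cx p w q) φ (a ++ x ++ b) = wT w (fun y => φ (a ++ y ++ b)) x := by
  induction w generalizing c x with
  | nil => rfl
  | cons t w ih =>
    obtain ⟨hs, hv⟩ := h
    subst hs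
    obtain ⟨x1, y, x2, rfl, h1, h2, h3⟩ := ev_split x t.left.length t.gen.src.length t.right.length (by
      rw [hx]
      unfold Slice.src
      rw [List.length_append, List.length_append])
    rw [cx_cons]
    show sT ⟨p ++ t.left, t.gen, t.right ++ q⟩ (wT (cx p w q) φ) (a ++ (x1 ++ y ++ x2) ++ b) =
      sT t (wT w fun y => φ (a ++ y ++ b)) (x1 ++ y ++ x2)
    rw [sT_app t _ x1 y x2 h1 h2]
    have e : a ++ (x1 ++ y ++ x2) ++ b = (a ++ x1) ++ y ++ (x2 ++ b) := by simp only [List.append_assoc]
    rw [e, sT_app ⟨p ++ t.left, t.gen, t.right ++ q⟩ _ (a ++ x1) y (x2 ++ b)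
      (by rw [List.length_append, List.length_append, ha, h1]) h2]
    refine ev_gT_congr h2 fun z hz => ?_
    have e2 : (a ++ x1) ++ z ++ (x2 ++ b) = a ++ (x1 ++ z ++ x2) ++ b := by simp only [List.append_assoc]
    rw [e2]
    refine ih hv _ ?_
    unfold Slice.tgt
    rw [List.length_append, List.length_append, List.length_append, List.length_append, h1, h3]
    exact congrArg (fun i => t.left.length + i + t.right.length) hz

theorem wT_even {e : List Bool} {w : Word} (h : Valid [] w e) (hw : w ≠ []) : ∃ k : ℕ, wT w (fun _ => 1) [] = 2 * k := by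
  cases w with
  | nil => exact absurd rfl hw
  | cons t w =>
    obtain ⟨hs, hv⟩ := h
    obtain ⟨l, g, r⟩ := t
    unfold Slice.src at hs
    simp only [List.append_eq_nil_iff] at hs
    obtain ⟨⟨hl, hg⟩, hr⟩ := hs
    cases g with
    | cup x =>
      subst hl hr
      refine ⟨wT w (fun _ => 1) [false, false], ?_⟩
      show wT w (fun _ => 1) [true, true] + wT w (fun _ => 1) [false, false] = _
      have e1 : wT w (fun _ => 1) [true, true] = wT w (fun _ => 1) [false, false] :=
        wT_flip w (fun _ => 1) [false, false]
      rw [e1, two_mul]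
    | cap x => exact absurd hg (List.cons_ne_nil _ _)
    | cross s x y => exact absurd hg (List.cons_ne_nil _ _)

theorem wT_closed {F : Word} (h : Valid [] F []) (hF : F ≠ []) : ∃ k : ℕ, ∀ φ : List Bool → ℕ, wT F φ [] = 2 * k * φ [] := by
  obtain ⟨k, hk⟩ := wT_even h hF
  refine ⟨k, fun φ => ?_⟩
  have e1 : wT F φ [] = wT F (fun _ => φ [] * 1) [] :=
    wT_congr h (fun l hl => by
      rw [List.length_eq_zero_iff.1 hl, mul_one]) [] rfl
  have e2 := wT_smul F (φ []) (fun _ => 1) []
  rw [e1]
  refine e2.trans ?_
  rw [hk, mul_comm]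

end Pool.Agent.Lib.MP_177a0e_gt.LT
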