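import Pool.Agent.Lib.MP_177a0e_gt.LT.EN
import Pool.Agent.Lib.MP_177a0e_gt.LT.EV

/-!
# a knot contains no closed tangle split from the rest.
-/

namespace Pool.Agent.Lib.MP_177a0e_gt.LT

open Pool.Agent.Lib.MP_177a0e_gt.Tangle Pool.Agent.Lib.MP_177a0e_gt.Tangle.Gen
open Pool.Agent.Lib.MP_177a0e_gt.Sig

theorem no_HC {K : Word} (hK : IsKnot K) : ¬ HC [true, false] (⟨[], cup true, []⟩ :: cx [] K [false]) := by
  rintro ⟨u, v, F, p, q, hF, hFv, hu, hv, hiso⟩
  have hKv : Valid [true] K [true] := hK.valid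
  have h1 : wT (⟨[], cup true, []⟩ :: cx [] K [false]) (fun _ => 1) [] = 2 := by
    have hc : ∀ c : Bool, wT (cx [] K [false]) (fun _ => 1) [c, c] = 1 := by
      intro c
      have h := wT_cx hKv [] [false] [] [c] [c] (fun _ => 1) rfl rfl
      rw [wT_knot hK] at h
      exact h
    show wT (cx [] K [false]) (fun _ => 1) [true, true] + wT (cx [] K [false]) (fun _ => 1) [false, false] = 2
    rw [hc, hc]
  obtain ⟨k, hk⟩ := wT_closed hFv hF
  have h2 : wT (⟨[], cup true, []⟩ :: cx [] K [false]) (fun _ => 1) [] = wT (u ++ cx p F q ++ v) (fun _ => 1) [] :=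
    wT_iso hiso (fun _ => 1) [] rfl
  have h3 : ∀ l : List Bool, l.length = (p ++ q).length →
      wT (cx p F q) (wT v (fun _ => 1)) l = 2 * k * wT v (fun _ => 1) l := by
    intro l hl
    rw [List.length_append] at hl
    have hs : l = l.take p.length ++ [] ++ l.drop p.length := by
      rw [List.append_nil, List.take_append_drop]
    have ha : (l.take p.length).length = p.length := by
      rw [List.length_take]
      omega
    have h := wT_cx hFv p q (l.take p.length) [] (l.drop p.length) (wT v (fun _ => 1)) ha rfl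
    rw [hk, ← hs] at h
    exact h
  have h4 : wT (u ++ cx p F q ++ v) (fun _ => 1) [] = 2 * k * wT (u ++ v) (fun _ => 1) [] := by
    rw [wT_append, wT_append, wT_append, wT_congr hu h3 [] rfl, wT_smul]
  have h5 : u ++ v ≠ [] := by
    intro h
    have h6 : Valid [] (u ++ v) [true, false] := hu.append hv
    rw [h] at h6
    exact absurd h6 (by intro h7; cases h7)
  obtain ⟨j, hj⟩ := wT_even (hu.append hv) h5
  rw [h1, h4, hj] at h2
  have h7 : 2 = 4 * (k * j) := by
    rw [h2]
    ring
  omega

end Pool.Agent.Lib.MP_177a0e_gt.LT
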