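import Pool.Agent.Lib.MP_177a0e_gt.LT.EP
import Pool.Agent.Lib.MP_177a0e_gt.LT.ET
import Pool.Agent.Lib.MP_177a0e_gt.LT.EW

/-!
# every diagram is isotopic to one in which all maxima are at odd positions, with the same classes of crossings.
-/

namespace Pool.Agent.Lib.MP_177a0e_gt.LT

open Pool.Agent.Lib.MP_177a0e_gt.Tangle Pool.Agent.Lib.MP_177a0e_gt.Tangle.Gen
open Pool.Agent.Lib.MP_177a0e_gt.Sig

theorem clean_knot {K : Word} (hK : IsKnot K) : ∃ K' : Word, Iso [true] [true] K K' ∧ OddMax K' ∧
    posr K' = posr K ∧ negw K' = negw K ∧ nblk K' + emax K = nblk K ∧ (Des.Alternating true K → Des.Alternating true K') := by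
  have hv : Valid [true] K [true] := hK.valid
  have hwv : Valid [] (⟨[], cup true, []⟩ :: cx [] K [false]) [true, false] := ⟨rfl, cx_valid hv [] [false]⟩
  have dw : dat 0 (⟨[], cup true, []⟩ :: cx [] K [false]) = dat 0 K := by
    rw [dat_cons, dat_cx_even (p := []) rfl]
    simp [ld]
  rcases clean _ [true, false] hwv with h | ⟨w', n, h1, h2, h3, h4⟩
  · exact absurd h (no_HC hK)
  rw [dw] at h4
  have dK : dat 0 (bend w') = dat 0 w' := by
    unfold bend
    rw [dat_append, dat_cx_even (p := []) rfl, dat_single]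
    simp [ld]
  have c1 : Iso [true] [true] K (bend w') := by
    have k1 := bend_cob h3
    have k2 := bend_word hv
    exact k2.symm.trans k1
  have q : ∀ c : Cl, (dat 0 w').count c + n * ({Cl.od} : Multiset Cl).count c +
      n * ({Cl.ev} : Multiset Cl).count c = (dat 0 K).count c := by
    intro c
    rw [← h4]
    simp [Multiset.count_nsmul]
  have q0 : (dat 0 w').count Cl.ev = 0 := Multiset.count_eq_zero_of_notMem h2
  refine ⟨bend w', c1, ?_, ?_, ?_, ?_, ?_⟩
  · rw [oddMax_iff, dK]
    exact h2
  · rw [← count_posr, ← count_posr, dK, ← q]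
    simp
  · rw [← count_negw, ← count_negw, dK, ← q]
    simp
  · rw [← count_nblk, ← count_nblk, ← count_emax, dK, ← q, ← q, q0]
    simp
  · intro h
    rw [alt_iff] at h ⊢
    intro p hp
    refine h p ?_
    rw [dK, ← Multiset.count_pos] at hp
    rw [← Multiset.count_pos, ← q]
    omega

end Pool.Agent.Lib.MP_177a0e_gt.LT
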