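import Pool.Agent.Lib.MP_177a0e_gt.LT.FA
import Pool.Agent.Lib.MP_177a0e_gt.LT.RA
import Pool.Agent.Lib.MP_177a0e_gt.Des.Defs

/-!
# the rotated word: crossings.
-/

namespace Pool.Agent.Lib.MP_177a0e_gt.LT

open Pool.Agent.Lib.MP_177a0e_gt.Tangle Pool.Agent.Lib.MP_177a0e_gt.Tangle.Gen
open Pool.Agent.Lib.MP_177a0e_gt.Sig

theorem level_odd {c e : List Bool} {w : Word} (h : Valid c w e) (hc : c.length % 2 = 1) :
    ∀ t ∈ w, (t.left.length + t.gen.src.length + t.right.length) % 2 = 1 := by
  induction w generalizing c with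
  | nil =>
    intro t ht
    exact absurd ht List.not_mem_nil
  | cons s w ih =>
    obtain ⟨h1, h2⟩ := h
    have hs : (s.left.length + s.gen.src.length + s.right.length) % 2 = 1 := by
      rw [← h1] at hc
      simp only [Slice.src, List.length_append] at hc
      exact hc
    have ht : s.tgt.length % 2 = 1 := by
      have hg : s.gen.tgt.length % 2 = s.gen.src.length % 2 := by
        rcases s.gen with x | x | ⟨c, x, y⟩ <;> simp [Gen.src, Gen.tgt]
      have : s.tgt.length = s.left.length + s.gen.tgt.length + s.right.length := by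
        simp only [Slice.tgt, List.length_append]
      omega
    intro t h
    rcases List.mem_cons.1 h with h | h
    · rw [h]
      exact hs
    · exact ih h2 ht t h

theorem alt_flp {w : Word} (h : Valid [true] w [true]) (e : Bool) (h' : Des.Alternating e w) :
    Des.Alternating (!e) (flp w) := by
  intro s' hs' c x y hg
  obtain ⟨s, hs, rfl⟩ := List.mem_map.1 hs'
  have h1 := level_odd h rfl s hs
  have hgen : s.gen = cross c y x := by
    obtain ⟨p, g, q⟩ := s
    rcases g with z | z | ⟨d, z, z'⟩
    · exact absurd hg (by simp [sfl, gfl])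
    · exact absurd hg (by simp [sfl, gfl])
    · simp only [sfl, gfl, Gen.cross.injEq] at hg
      obtain ⟨rfl, rfl, rfl⟩ := hg
      rfl
  have h2 := h' s hs c y x hgen
  have h3 : s.gen.src.length = 2 := by rw [hgen]; rfl
  have h4 : (sfl s).left.length = s.right.length := by simp [sfl]
  rw [h4]
  have h5 : c = (!e) ↔ ¬ c = e := by cases c <;> cases e <;> simp
  rw [h5, h2]
  omega

theorem npos_flp (w : Word) : npos (flp w) = npos w := by
  unfold npos flp
  rw [List.countP_map]
  congr 1
  funext t
  obtain ⟨p, g, q⟩ := t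
  rcases g with x | x | ⟨s, x, y⟩
  · rfl
  · rfl
  · cases s <;> cases x <;> cases y <;> rfl

theorem nneg_flp (w : Word) : nneg (flp w) = nneg w := by
  unfold nneg flp
  rw [List.countP_map]
  congr 1
  funext t
  obtain ⟨p, g, q⟩ := t
  rcases g with x | x | ⟨s, x, y⟩
  · rfl
  · rfl
  · cases s <;> cases x <;> cases y <;> rfl

theorem alt_append {e : Bool} {u v : Word} (hu : Des.Alternating e u) (hv : Des.Alternating e v) :
    Des.Alternating e (u ++ v) := by
  intro s hs
  rcases List.mem_append.1 hs with h | h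
  · exact hu s h
  · exact hv s h

theorem alt_adj {e : Bool} {w : Word} (h : Des.Alternating e w) : Des.Alternating (!e) (Tangle.adj w) := by
  intro s' hs' c x y hg
  unfold Tangle.adj at hs'
  obtain ⟨s, hs, rfl⟩ := List.mem_map.1 (List.mem_reverse.1 hs')
  have hgen : s.gen = cross (!c) y x := by
    obtain ⟨p, g, q⟩ := s
    rcases g with z | z | ⟨d, z, z'⟩
    · exact absurd hg (by simp [Slice.adj, Gen.adj])
    · exact absurd hg (by simp [Slice.adj, Gen.adj])
    · simp only [Slice.adj, Gen.adj, Gen.cross.injEq] at hg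
      obtain ⟨rfl, rfl, rfl⟩ := hg
      simp
  have h2 := h s hs (!c) y x hgen
  have h4 : (s.adj).left = s.left := rfl
  rw [h4, ← h2]
  cases c <;> cases e <;> simp

end Pool.Agent.Lib.MP_177a0e_gt.LT
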