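import Pool.Agent.Lib.MP_177a0e_gt.LT.FD

/-!
# a long tangle is isotopic to the rotated one.
-/

namespace Pool.Agent.Lib.MP_177a0e_gt.LT

open Pool.Agent.Lib.MP_177a0e_gt.Tangle Pool.Agent.Lib.MP_177a0e_gt.Tangle.Gen
open Pool.Agent.Lib.MP_177a0e_gt.Sig

theorem tws_slice (t : Bool) (p : List Bool) (g : Gen) (q : List Bool) :
    Iso (p ++ g.src ++ q) (p ++ g.tgt ++ q).reverse ([⟨p, g, q⟩] ++ tws t (p ++ g.tgt ++ q))
      (tws t (p ++ g.src ++ q) ++ [⟨q.reverse, gfl g, p.reverse⟩]) := by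
  induction p with
  | nil => exact tws_right t g q
  | cons x p ih =>
    have hv : Valid (p ++ g.src ++ q) [⟨p, g, q⟩] (p ++ g.tgt ++ q) := by
      rw [valid_single]
      simp [Slice.src, Slice.tgt]
    have e1 : tws t (x :: p ++ g.tgt ++ q) = xw t x (p ++ g.tgt ++ q) ++ cx [] (tws t (p ++ g.tgt ++ q)) [x] := rfl
    have e2 : tws t (x :: p ++ g.src ++ q) = xw t x (p ++ g.src ++ q) ++ cx [] (tws t (p ++ g.src ++ q)) [x] := rfl
    have v1 : Valid (p ++ g.tgt ++ q ++ [x]) (cx [] (tws t (p ++ g.tgt ++ q)) [x])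
        ((p ++ g.tgt ++ q).reverse ++ [x]) := by
      have := cx_valid (tws_valid t (p ++ g.tgt ++ q)) [] [x]
      simpa [List.append_assoc] using this
    have c1 := rb_bot (pass hv t x) v1
    have k2 : Iso (p ++ g.src ++ q ++ [x]) ((p ++ g.tgt ++ q).reverse ++ [x])
        ([⟨p, g, q ++ [x]⟩] ++ cx [] (tws t (p ++ g.tgt ++ q)) [x])
        (cx [] (tws t (p ++ g.src ++ q)) [x] ++ [⟨q.reverse, gfl g, p.reverse ++ [x]⟩]) := by
      have := cx_cob ih [] [x]
      simpa [cx_append, List.append_assoc] using this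
    have c2 := rb_top k2 (xw_valid t x (p ++ g.src ++ q))
    have c1' : Iso (x :: p ++ g.src ++ q) ((p ++ g.tgt ++ q).reverse ++ [x])
        ([⟨x :: p, g, q⟩] ++ (xw t x (p ++ g.tgt ++ q) ++ cx [] (tws t (p ++ g.tgt ++ q)) [x]))
        (xw t x (p ++ g.src ++ q) ++ ([⟨p, g, q ++ [x]⟩] ++ cx [] (tws t (p ++ g.tgt ++ q)) [x])) := by
      simpa [List.append_assoc] using c1
    have e3 : (x :: p ++ g.tgt ++ q).reverse = (p ++ g.tgt ++ q).reverse ++ [x] := by simp
    rw [e1, e2, e3, List.reverse_cons]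
    have c2' : Iso (x :: p ++ g.src ++ q) ((p ++ g.tgt ++ q).reverse ++ [x])
        (xw t x (p ++ g.src ++ q) ++ ([⟨p, g, q ++ [x]⟩] ++ cx [] (tws t (p ++ g.tgt ++ q)) [x]))
        (xw t x (p ++ g.src ++ q) ++ cx [] (tws t (p ++ g.src ++ q)) [x] ++
          [⟨q.reverse, gfl g, p.reverse ++ [x]⟩]) := by
      simpa [List.append_assoc] using c2
    exact c1'.trans c2'

theorem tws_nat {c e : List Bool} {w : Word} (h : Valid c w e) (t : Bool) :
    Iso c e.reverse (w ++ tws t e) (tws t c ++ flp w) := by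
  induction w generalizing c with
  | nil =>
    have : c = e := h
    subst this
    simpa using Cob.refl (tws_valid t c)
  | cons s w ih =>
    obtain ⟨h1, h2⟩ := h
    have h3 := ih h2
    obtain ⟨p, g, q⟩ := s
    subst h1
    have u1 : Valid (p ++ g.src ++ q) [⟨p, g, q⟩] (p ++ g.tgt ++ q) := by
      rw [valid_single]
      simp [Slice.src, Slice.tgt]
    have h3' : Iso (p ++ g.tgt ++ q) e.reverse (w ++ tws t e) (tws t (p ++ g.tgt ++ q) ++ flp w) := h3
    have c1 := rb_top h3' u1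
    have v2 : Valid (p ++ g.tgt ++ q).reverse (flp w) e.reverse := flp_valid h2
    have c2 := rb_bot (tws_slice t p g q) v2
    have c2' : Iso (p ++ g.src ++ q) e.reverse ([⟨p, g, q⟩] ++ (tws t (p ++ g.tgt ++ q) ++ flp w))
        (tws t (p ++ g.src ++ q) ++ flp (⟨p, g, q⟩ :: w)) := by
      simpa [List.append_assoc, flp_cons, sfl] using c2
    exact c1.trans c2'

/-- a long tangle is isotopic to the rotated one -/
theorem flp_iso {w : Word} (h : Valid [true] w [true]) : Iso [true] [true] w (flp w) := by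
  have h1 := tws_nat h true
  simpa [tws, xw] using h1

end Pool.Agent.Lib.MP_177a0e_gt.LT
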