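import Pool.Agent.Lib.MP_177a0e_gt.LT.EY
import Pool.Agent.Lib.MP_177a0e_gt.LT.FE
import Pool.Agent.Lib.MP_177a0e_gt.LT.FF

/-!
# the descent from `T(2, m)` to a knot and from a knot to `-T(2, n)`, for all diagrams.
-/

namespace Pool.Agent.Lib.MP_177a0e_gt.LT

open Pool.Agent.Lib.MP_177a0e_gt.Tangle Pool.Agent.Lib.MP_177a0e_gt.Tangle.Gen
open Pool.Agent.Lib.MP_177a0e_gt.Sig

theorem iso_homotopic {b s d : ℕ} {w w' : Word} (h : Cob [true] [true] b s d w w') (hb : b = 0) (hs : s = 0)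
    (hd : d = 0) : Relation.EqvGen (fun a b => Local Rel [true] [true] a b ∨ Local ChangeRel [true] [true] a b) w w' := by
  induction h with
  | refl _ => exact Relation.EqvGen.refl _
  | iso _ h' ih =>
    refine Relation.EqvGen.trans _ _ _ (ih hb hs hd) ?_
    rcases h' with h' | h'
    · exact Relation.EqvGen.rel _ _ (Or.inl h')
    · exact Relation.EqvGen.symm _ _ (Relation.EqvGen.rel _ _ (Or.inl h'))
  | saddle _ _ _ => omega
  | birth _ _ _ => omega
  | death _ _ _ => omega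

theorem knot_iso {K K' : Word} (hK : IsKnot K) (h : Iso [true] [true] K K') : IsKnot K' :=
  Relation.EqvGen.trans _ _ _ (Relation.EqvGen.symm _ _ (iso_homotopic h rfl rfl rfl)) hK

/-- the diagram without maxima at even positions -/
theorem has_dia {K w : Knot} (h : Cob [true] [true] 0 0 0 K.1 w.1) : ∃ v : Knot, Dia K v ∧ posr v.1 = posr w.1 ∧
    negw v.1 = negw w.1 ∧ nblk v.1 + emax w.1 = nblk w.1 ∧ (Des.Alternating true w.1 → Des.Alternating true v.1) := by
  obtain ⟨v, h1, h2, h3, h4, h5, h6⟩ := clean_knot w.2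
  exact ⟨⟨v, knot_iso w.2 h1⟩, ⟨h2, h.trans h1⟩, h3, h4, h5, h6⟩

/-- the lower bound of the signature -/
theorem gen_sig {K w : Knot} (h : Cob [true] [true] 0 0 0 K.1 w.1) :
    (posr w.1 + emax w.1 : ℤ) ≤ signature K.1 + nblk w.1 + negw w.1 := by
  obtain ⟨v, h1, h2, h3, h4, -⟩ := has_dia h
  have h5 := any_sig h1
  rw [h2, h3] at h5
  omega

/-- the signature of an alternating knot -/
theorem gen_alt {K w : Knot} (h : Cob [true] [true] 0 0 0 K.1 w.1) (h' : Des.Alternating true w.1) :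
    signature K.1 + nblk w.1 + negw w.1 = posr w.1 + emax w.1 := by
  obtain ⟨v, h1, h2, h3, h4, h5⟩ := has_dia h
  have h6 := alt_sig h1 (h5 h')
  rw [h2, h3] at h6
  omega

/-- the descent from `T(2, m)` -/
theorem gen_above {T K w : Knot} {m : ℕ} (h : Cob [true] [true] 0 0 0 K.1 w.1) (hn : posr w.1 ≤ m) (hm : m % 2 = 1)
    (hT : T.1 = tk m) :
    ∃ g : ℕ, 2 * g + posr w.1 + emax w.1 + 1 = nblk w.1 + negw w.1 + m ∧ Cob [true] [true] 0 (2 * g) 0 T.1 K.1 ∧
      (signature K.1 + nblk w.1 + negw w.1 = posr w.1 + emax w.1 → Drop (fun w => 2 * signature w) g T K) := by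
  obtain ⟨v, h1, h2, h3, h4, -⟩ := has_dia h
  obtain ⟨g, e1, c1, d1⟩ := any_above h1 (by omega) hm hT
  rw [h2, h3] at e1 d1
  exact ⟨g, by omega, c1, fun e => d1 (by omega)⟩

/-- the descent to `-T(2, n)` -/
theorem gen_below {K L w : Knot} {n : ℕ} (h : Cob [true] [true] 0 0 0 K.mirror.1 w.1) (h' : posr w.1 ≤ n)
    (hn : n % 2 = 1) (hL : L.1 = Tangle.adj (tk n)) :
    ∃ g : ℕ, 2 * g + posr w.1 + emax w.1 + 1 = nblk w.1 + negw w.1 + n ∧ Cob [true] [true] 0 (2 * g) 0 K.1 L.1 ∧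
      (signature K.1 + posr w.1 + emax w.1 = nblk w.1 + negw w.1 → Drop (fun w => 2 * signature w) g K L) := by
  obtain ⟨v, h1, h2, h3, h4, -⟩ := has_dia h
  obtain ⟨g, e1, c1, d1⟩ := any_below h1 (by omega) hn hL
  rw [h2, h3] at e1 d1
  exact ⟨g, by omega, c1, fun e => d1 (by omega)⟩

/-- every alternating diagram is isotopic to one with the crossings of the right type -/
theorem right_type {e : Bool} {w : Word} (hw : IsKnot w) (h : Des.Alternating e w) : ∃ v : Word, IsKnot v ∧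
    Iso [true] [true] w v ∧ Des.Alternating true v ∧ npos v = npos w ∧ nneg v = nneg w := by
  cases e with
  | true => exact ⟨w, hw, Cob.refl hw.valid, h, rfl, rfl⟩
  | false =>
    have h1 := flp_iso hw.valid
    exact ⟨flp w, knot_iso hw h1, h1, alt_flp hw.valid false h, npos_flp w, nneg_flp w⟩

/-- sums of alternating knots -/
theorem sum_alt (D : List Word) (hD : ∀ w ∈ D, IsKnot w ∧ ∃ e : Bool, Des.Alternating e w) : ∃ v : Word, IsKnot v ∧
    Iso [true] [true] D.flatten v ∧ Des.Alternating true v ∧ npos v = npos D.flatten ∧ nneg v = nneg D.flatten := by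
  induction D with
  | nil => exact ⟨[], Relation.EqvGen.refl _, Cob.refl rfl, fun t ht => absurd ht (by simp), rfl, rfl⟩
  | cons w D ih =>
    obtain ⟨v, i1, i2, i3, i4, i5⟩ := ih fun u hu => hD u (List.mem_cons_of_mem _ hu)
    obtain ⟨h1, e, h2⟩ := hD w List.mem_cons_self
    obtain ⟨u, j1, j2, j3, j4, j5⟩ := right_type h1 h2
    refine ⟨u ++ v, j1.append i1, ?_, alt_append j3 i3, ?_, ?_⟩
    · rw [List.flatten_cons]
      exact (rb_bot j2 (i2.valid.1)).trans (rb_top i2 j1.valid)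
    · rw [npos_append, List.flatten_cons, npos_append, i4, j4]
    · rw [nneg_append, List.flatten_cons, nneg_append, i5, j5]

theorem alt_above {T K : Knot} {v : Word} {m : ℕ} (hv : IsKnot v) (h : Iso [true] [true] K.1 v)
    (h' : Des.Alternating true v) (hm : m % 2 = 1) (hn : npos v ≤ m) (hT : T.1 = tk m) :
    ∃ g : ℕ, 2 * g + signature K.1 + 1 = m ∧ Drop (fun w => 2 * signature w) g T K := by
  have h1 := gen_alt (w := ⟨v, hv⟩) h h'
  obtain ⟨g, e1, -, d1⟩ := gen_above (w := ⟨v, hv⟩) h (by rw [alt_posr h']; exact hn) hm hT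
  refine ⟨g, ?_, d1 h1⟩
  have e2 : (2 * g + posr v + emax v + 1 : ℤ) = nblk v + negw v + m := by exact_mod_cast e1
  change signature K.1 + nblk v + negw v = posr v + emax v at h1
  linarith

/-- every connected sum of alternating knots lies between `T(2, m)` and `-T(2, n)` -/
theorem alternating_sums (D : List Word) (T K L : Knot) (m n : ℕ)
    (hD : ∀ w ∈ D, IsKnot w ∧ ∃ e : Bool, Des.Alternating e w) (hK : K.1 = D.flatten) (hm : m % 2 = 1)
    (hn : n % 2 = 1) (h1 : npos K.1 ≤ m) (h2 : nneg K.1 ≤ n) (hT : T.1 = tk m) (hL : L.1 = Tangle.adj (tk n)) :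
    ∃ g h : ℕ, 2 * g + signature K.1 + 1 = m ∧ 2 * h + 1 = n + signature K.1 ∧
      Drop (fun w => 2 * signature w) g T K ∧ Drop (fun w => 2 * signature w) h K L := by
  obtain ⟨v, i1, i2, i3, i4, i5⟩ := sum_alt D hD
  rw [← hK] at i2 i4 i5
  obtain ⟨g, e1, d1⟩ := alt_above i1 i2 i3 hm (by omega) hT
  -- the mirror image
  obtain ⟨u, j1, j2, j3, j4, -⟩ := right_type i1.adj (alt_adj i3)
  have j5 : Iso [true] [true] K.mirror.1 u := i2.adj.trans j2
  rw [npos_adj, i5] at j4
  have a1 := gen_alt (K := K.mirror) (w := ⟨u, j1⟩) j5 j3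
  obtain ⟨h, e2, -, d2⟩ := gen_below (w := ⟨u, j1⟩) j5 (by rw [alt_posr j3]; omega) hn hL
  have s1 := sgn_adj sgn_signature K
  have s2 : (2 : ℤ) * signature K.mirror.1 = -(2 * signature K.1) := s1
  have e3 : (2 * h + posr u + emax u + 1 : ℤ) = nblk u + negw u + n := by exact_mod_cast e2
  change signature K.mirror.1 + nblk u + negw u = posr u + emax u at a1
  refine ⟨g, h, e1, by linarith, d1, d2 ?_⟩
  show signature K.1 + posr u + emax u = nblk u + negw u
  linarith

end Pool.Agent.Lib.MP_177a0e_gt.LT
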