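import Pool.Agent.Lib.MP_177a0e_gt.LT.RF

/-!
# normal forms of alternating tangles: definitions.

A forest `S : Fo` describes a tangle from the empty level to the level `lev S`, given by the word `W S`:
* `flat a o r`: a minimum with directions `a, !a`, with a local torus link `T(2, n)` on it if `o = some n`, then `r`;
* `arc a n i r`: two nested minima of two parallel strands with `n` half twists of the two strands on the left,
  around the forest `i`, then `r`.

`fill C X`: the forest `X` in the hole of the context `C`; the hole lies between the levels `pre C` and `post C`.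
-/

namespace Pool.Agent.Lib.MP_177a0e_gt.LT

open Pool.Agent.Lib.MP_177a0e_gt.Tangle Pool.Agent.Lib.MP_177a0e_gt.Tangle.Gen
open Pool.Agent.Lib.MP_177a0e_gt.Sig

/-- the torus link `T(2, n)` on a strand with direction `a`, on its right side -/
def tka (a : Bool) (n : ℕ) : Word :=
  ⟨[a], cup a, []⟩ :: (List.replicate n ⟨[], cross true a a, [!a]⟩ ++ [⟨[a], cap a, []⟩])

/-- the torus link `T(2, n)` on a strand with direction `a`, on its left side -/
def tkb (a : Bool) (n : ℕ) : Word :=
  ⟨[], cup (!a), [a]⟩ :: (List.replicate n ⟨[!a], cross true a a, []⟩ ++ [⟨[], cap (!a), [a]⟩])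

/-- two nested minima -/
def dcup (a : Bool) : Word := [⟨[], cup a, []⟩, ⟨[a], cup a, [!a]⟩]

/-- two nested minima of two parallel strands, with `n` half twists on the left -/
def arcw (a : Bool) (n : ℕ) : Word := dcup a ++ List.replicate n ⟨[], cross true a a, [!a, !a]⟩

/-- a minimum, with a torus link on its left strand -/
def flatw (a : Bool) : Option ℕ → Word
  | none => [⟨[], cup a, []⟩]
  | some n => ⟨[], cup a, []⟩ :: cx [] (tka a n) [!a]

/-- the number of torus links -/
def on : Option ℕ → ℕ
  | none => 0
  | some _ => 1

/-- the number of crossings of the torus link -/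
def ot : Option ℕ → ℕ
  | none => 0
  | some n => n

/-- a torus link or nothing, on the right side of the strand -/
def loca (a : Bool) : Option ℕ → Word
  | none => []
  | some n => tka a n

/-- a torus link or nothing, on the left side of the strand -/
def locb (a : Bool) : Option ℕ → Word
  | none => []
  | some n => tkb a n

/-- the ribbon cap: two nested maxima of the parallel strands `x, x` and `!x, !x` -/
def rc (x : Bool) : Word := [⟨[x], cap x, [!x]⟩, ⟨[], cap x, []⟩]

/-- forests -/
inductive Fo : Type
  | nil : Fo
  | flat (a : Bool) (o : Option ℕ) (r : Fo) : Fo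
  | arc (a : Bool) (n : ℕ) (i r : Fo) : Fo

/-- the level at the top of a forest -/
def lev : Fo → List Bool
  | .nil => []
  | .flat a _ r => a :: (!a) :: lev r
  | .arc a _ i r => a :: a :: (lev i ++ (!a) :: (!a) :: lev r)

/-- the tangle of a forest -/
def W : Fo → Word
  | .nil => []
  | .flat a o r => flatw a o ++ cx [a, !a] (W r) []
  | .arc a n i r => arcw a n ++ (cx [a, a] (W i) [!a, !a] ++ cx ([a, a] ++ lev i ++ [!a, !a]) (W r) [])

/-- the number of arcs and torus links -/
def rr : Fo → ℕ
  | .nil => 0
  | .flat _ o r => on o + rr r
  | .arc _ _ i r => 1 + rr i + rr r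

/-- the number of crossings -/
def tw : Fo → ℕ
  | .nil => 0
  | .flat _ o r => ot o + tw r
  | .arc _ n i r => n + tw i + tw r

/-- two forests side by side -/
def app : Fo → Fo → Fo
  | .nil, s => s
  | .flat a o r, s => .flat a o (app r s)
  | .arc a n i r, s => .arc a n i (app r s)

/-- contexts -/
inductive Ctx : Type
  | here (r : Fo) : Ctx
  | flat (a : Bool) (o : Option ℕ) (C : Ctx) : Ctx
  | inn (a : Bool) (n : ℕ) (C : Ctx) (r : Fo) : Ctx
  | out (a : Bool) (n : ℕ) (i : Fo) (C : Ctx) : Ctx

/-- the forest `X` in the hole of the context -/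
def fill : Ctx → Fo → Fo
  | .here r, X => app X r
  | .flat a o C, X => .flat a o (fill C X)
  | .inn a n C r, X => .arc a n (fill C X) r
  | .out a n i C, X => .arc a n i (fill C X)

/-- the level on the left of the hole -/
def pre : Ctx → List Bool
  | .here _ => []
  | .flat a _ C => a :: (!a) :: pre C
  | .inn a _ C _ => a :: a :: pre C
  | .out a _ i C => a :: a :: (lev i ++ (!a) :: (!a) :: pre C)

/-- the level on the right of the hole -/
def post : Ctx → List Bool
  | .here r => lev r
  | .flat _ _ C => post C
  | .inn a _ C r => post C ++ (!a) :: (!a) :: lev r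
  | .out _ _ _ C => post C

/-- isotopic tangles from the level `c` to the level `e` -/
abbrev Iso (c e : List Bool) (w w' : Word) : Prop := Cob c e 0 0 0 w w'

end Pool.Agent.Lib.MP_177a0e_gt.LT
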