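import Pool.Agent.Lib.MP_177a0e_gt.LT.XD

/-!
# a strand passes in front of or behind one piece.

PROOF. `g = cup x`: the words are `[⟨[z], cup x, []⟩, ⟨[], cross t z x, [!x]⟩, ⟨[x], cross t z (!x), []⟩]` and `[⟨[], cup x, [z]⟩]`. By `Rel.slide_cup (!t) x z [] []` (backwards) the first two slices
become `⟨[], cup x, [z]⟩, ⟨[x], cross (!t) (!x) z, []⟩`; the last two slices now cancel by `Rel.r2 (!t) (!x) z [x] []`.
`g = cap x`: `[⟨[z], cap x, []⟩]` and `[⟨[], cross t z x, [!x]⟩, ⟨[x], cross t z (!x), []⟩, ⟨[], cap x, [z]⟩]`: by `Rel.slide_cap t x z [] []` the last two become `⟨[], cross (!t) x z, [!x]⟩, ⟨[z], cap x, []⟩`, and the first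
two cancel by `Rel.r2 t z x [] [!x]`.
`g = cross s x y`: `A = [⟨[z], cross s x y, []⟩, ⟨[], cross t z y, [x]⟩, ⟨[y], cross t z x, []⟩]` and `B = [⟨[], cross t z x, [y]⟩, ⟨[x], cross t z y, []⟩, ⟨[], cross s x y, [z]⟩]`. If `s = t` this is `Rel.r3 t z x y [] []` (backwards).
If `s = !t`: insert by `Rel.r2` at the end of `A` the slices `⟨[], cross t y x, [z]⟩, ⟨[], cross (!t) x y, [z]⟩`; by `Rel.r3 t z y x [] []` the slices 2, 3, 4 become `⟨[z], cross t y x, []⟩, ⟨[], cross t z x, [y]⟩, ⟨[x], cross t z y, []⟩`, and the slices 1 and 2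
(`⟨[z], cross (!t) x y, []⟩, ⟨[z], cross t y x, []⟩`) cancel by `Rel.r2`. What remains is `B`. Tools: `rel_cob`, `Cob.ctx`, `Cob.trans`, `Cob.symm` (it exchanges the two words; `0 0 0` stays), validity by `decide`-like `simp [Valid, Slice.src, Slice.tgt, Gen.src, Gen.tgt]` after `cases`.
-/

namespace Pool.Agent.Lib.MP_177a0e_gt.LT

open Pool.Agent.Lib.MP_177a0e_gt.Tangle Pool.Agent.Lib.MP_177a0e_gt.Tangle.Gen
open Pool.Agent.Lib.MP_177a0e_gt.Sig

/-- one elementary isotopy inside a word -/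
private theorem xb_step {c e : List Bool} {w u a b v : Word} (h : Cob c e 0 0 0 w (u ++ a ++ v))
    (h1 : Rel a b ∨ Rel b a) (h2 : Valid c (u ++ b ++ v) e) : Cob c e 0 0 0 w (u ++ b ++ v) :=
  h.iso (h1.imp (fun h3 => Local.mk u a b v h3 h.valid.2 h2) fun h3 => Local.mk u b a v h3 h2 h.valid.2)

private theorem xb_cup (t z x : Bool) :
    Cob [z] [x, !x, z] 0 0 0 [⟨[z], cup x, []⟩, ⟨[], cross t z x, [!x]⟩, ⟨[x], cross t z (!x), []⟩]
      [⟨[], cup x, [z]⟩] := by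
  have h0 : Cob [z] [x, !x, z] 0 0 0
      [⟨[z], cup x, []⟩, ⟨[], cross t z x, [!x]⟩, ⟨[x], cross t z (!x), []⟩]
      ([] ++ [⟨[z], cup x, []⟩, ⟨[], cross t z x, [!x]⟩] ++ [⟨[x], cross t z (!x), []⟩]) :=
    Cob.refl (by simp [Valid, Slice.src, Slice.tgt, Gen.src, Gen.tgt])
  have h1 := xb_step (b := [⟨[], cup x, [z]⟩, ⟨[x], cross (!t) (!x) z, []⟩]) h0
    (Or.inr (by simpa using Rel.slide_cup (!t) x z [] []))
    (by simp [Valid, Slice.src, Slice.tgt, Gen.src, Gen.tgt])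
  have h2 := xb_step (u := [⟨[], cup x, [z]⟩])
    (a := [⟨[x], cross (!t) (!x) z, []⟩, ⟨[x], cross t z (!x), []⟩]) (b := []) (v := []) h1
    (Or.inl (by simpa using Rel.r2 (!t) (!x) z [x] []))
    (by simp [Valid, Slice.src, Slice.tgt, Gen.src, Gen.tgt])
  exact h2

private theorem xb_cap (t z x : Bool) :
    Cob [z, x, !x] [z] 0 0 0 [⟨[z], cap x, []⟩]
      [⟨[], cross t z x, [!x]⟩, ⟨[x], cross t z (!x), []⟩, ⟨[], cap x, [z]⟩] := by
  have h0 : Cob [z, x, !x] [z] 0 0 0 [⟨[], cross t z x, [!x]⟩, ⟨[x], cross t z (!x), []⟩, ⟨[], cap x, [z]⟩]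
      ([⟨[], cross t z x, [!x]⟩] ++ [⟨[x], cross t z (!x), []⟩, ⟨[], cap x, [z]⟩] ++ []) :=
    Cob.refl (by simp [Valid, Slice.src, Slice.tgt, Gen.src, Gen.tgt])
  have h1 := xb_step (b := [⟨[], cross (!t) x z, [!x]⟩, ⟨[z], cap x, []⟩]) h0
    (Or.inl (by simpa using Rel.slide_cap t x z [] []))
    (by simp [Valid, Slice.src, Slice.tgt, Gen.src, Gen.tgt])
  have h2 := xb_step (u := [])
    (a := [⟨[], cross t z x, [!x]⟩, ⟨[], cross (!t) x z, [!x]⟩]) (b := []) (v := [⟨[z], cap x, []⟩]) h1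
    (Or.inl (by simpa using Rel.r2 t z x [] [!x]))
    (by simp [Valid, Slice.src, Slice.tgt, Gen.src, Gen.tgt])
  exact h2.symm

private theorem xb_cross1 (t z x y : Bool) :
    Cob [z, x, y] [y, x, z] 0 0 0
      [⟨[z], cross t x y, []⟩, ⟨[], cross t z y, [x]⟩, ⟨[y], cross t z x, []⟩]
      [⟨[], cross t z x, [y]⟩, ⟨[x], cross t z y, []⟩, ⟨[], cross t x y, [z]⟩] := by
  have := rel_cob (c := [z, x, y]) (e := [y, x, z]) (Rel.r3 t z x y [] [])
    (by simp [Valid, Slice.src, Slice.tgt, Gen.src, Gen.tgt])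
    (by simp [Valid, Slice.src, Slice.tgt, Gen.src, Gen.tgt])
  simpa using this.symm

private theorem xb_cross2 (t z x y : Bool) :
    Cob [z, x, y] [y, x, z] 0 0 0
      [⟨[z], cross (!t) x y, []⟩, ⟨[], cross t z y, [x]⟩, ⟨[y], cross t z x, []⟩]
      [⟨[], cross t z x, [y]⟩, ⟨[x], cross t z y, []⟩, ⟨[], cross (!t) x y, [z]⟩] := by
  have h0 : Cob [z, x, y] [y, x, z] 0 0 0
      [⟨[z], cross (!t) x y, []⟩, ⟨[], cross t z y, [x]⟩, ⟨[y], cross t z x, []⟩]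
      ([⟨[z], cross (!t) x y, []⟩, ⟨[], cross t z y, [x]⟩, ⟨[y], cross t z x, []⟩] ++ [] ++ []) :=
    Cob.refl (by simp [Valid, Slice.src, Slice.tgt, Gen.src, Gen.tgt])
  have h1 := xb_step (b := [⟨[], cross t y x, [z]⟩, ⟨[], cross (!t) x y, [z]⟩]) h0
    (Or.inr (by simpa using Rel.r2 t y x [] [z]))
    (by simp [Valid, Slice.src, Slice.tgt, Gen.src, Gen.tgt])
  have h2 := xb_step (u := [⟨[z], cross (!t) x y, []⟩])
    (a := [⟨[], cross t z y, [x]⟩, ⟨[y], cross t z x, []⟩, ⟨[], cross t y x, [z]⟩])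
    (b := [⟨[z], cross t y x, []⟩, ⟨[], cross t z x, [y]⟩, ⟨[x], cross t z y, []⟩])
    (v := [⟨[], cross (!t) x y, [z]⟩]) h1
    (Or.inl (by simpa using Rel.r3 t z y x [] []))
    (by simp [Valid, Slice.src, Slice.tgt, Gen.src, Gen.tgt])
  have h3 := xb_step (u := [])
    (a := [⟨[z], cross (!t) x y, []⟩, ⟨[z], cross t y x, []⟩]) (b := [])
    (v := [⟨[], cross t z x, [y]⟩, ⟨[x], cross t z y, []⟩, ⟨[], cross (!t) x y, [z]⟩]) h2
    (Or.inl (by simpa using Rel.r2 (!t) x y [z] []))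
    (by simp [Valid, Slice.src, Slice.tgt, Gen.src, Gen.tgt])
  exact h3

theorem xw_gen (t z : Bool) (g : Gen) :
    Cob (z :: g.src) (g.tgt ++ [z]) 0 0 0 (⟨[z], g, []⟩ :: xw t z g.tgt) (xw t z g.src ++ [⟨[], g, [z]⟩]) := by
  rcases g with x | x | ⟨s, x, y⟩
  · exact xb_cup t z x
  · exact xb_cap t z x
  · by_cases h : s = t
    · subst h
      exact xb_cross1 s z x y
    · have h' : s = !t := by
        cases s <;> cases t <;> simp_all
      subst h'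
      exact xb_cross2 t z x y

end Pool.Agent.Lib.MP_177a0e_gt.LT
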