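import Pool.Agent.Lib.MP_177a0e_gt.LT.XA
import Pool.Agent.Lib.MP_177a0e_gt.LT.XB

/-!
# a strand passes in front of or behind a word.

PROOF. Induction on `w`. One slice `⟨p, g, q⟩` (`a = p ++ g.src ++ q`, `b = p ++ g.tgt ++ q`): by `xw_append`, `xw t z b = cx [] (xw t z p) (g.tgt ++ q) ++ cx p (xw t z g.tgt) q ++ cx (p ++ g.tgt) (xw t z q) []`. Exchange `g` with `xw t z p` (`cx_comm`, `u = xw t z p : z :: p → p ++ [z]`,
`v = [⟨[], g, []⟩]`), apply `xw_gen` in the context `p`, `q` (`cx_cob`), exchange `g` with `xw t z q` (`cx_comm`, `u = [⟨[], g, []⟩]`, `v = xw t z q`). A word `s :: w`: the slice, then the induction hypothesis (`Cob.ctx`).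
`xw_adj`: `xw t z a` followed by `adj (xw t z a)` cancels: induction on `a`, `Rel.r2`. `pass_r`: `pass` with `t = z = true`, `a = b = [true]` (`xw true true [true] = [⟨[], cross true true true, []⟩]`). `pass_l`: let `Y = adj (xw false true [true]) = [⟨[], cross true true true, []⟩]`,
`X = xw false true [true]`; from `pass` (`t = false`): `cx [true] J [] ++ X ~ X ++ cx [] J [true]`; put `Y` below and above: `Y ++ cx [true] J [] ++ X ++ Y ~ Y ++ X ++ cx [] J [true] ++ Y`, and `X ++ Y ~ []`, `Y ++ X ~ []` by `Rel.r2`. This gives `pass_l`.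
-/

namespace Pool.Agent.Lib.MP_177a0e_gt.LT

open Pool.Agent.Lib.MP_177a0e_gt.Tangle Pool.Agent.Lib.MP_177a0e_gt.Tangle.Gen
open Pool.Agent.Lib.MP_177a0e_gt.Sig

private theorem pass_slice (t z : Bool) (p q : List Bool) (g : Gen) :
    Cob (z :: (p ++ g.src ++ q)) (p ++ g.tgt ++ q ++ [z]) 0 0 0
      (⟨z :: p, g, q⟩ :: xw t z (p ++ g.tgt ++ q)) (xw t z (p ++ g.src ++ q) ++ [⟨p, g, q ++ [z]⟩]) := by
  have hv : Valid g.src [⟨[], g, []⟩] g.tgt := by
    rw [valid_single]
    simp [Slice.src, Slice.tgt]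
  have e : ∀ l : List Bool, xw t z (p ++ l ++ q)
      = cx [] (xw t z p) (l ++ q) ++ cx p (xw t z l) q ++ cx (p ++ l) (xw t z q) [] := by
    intro l
    rw [xw_append, xw_append, cx_append, cx_cx, cx_cx]
    simp
  have h1 : Cob (z :: (p ++ g.src ++ q)) (p ++ z :: (g.tgt ++ q)) 0 0 0
      (⟨z :: p, g, q⟩ :: cx [] (xw t z p) (g.tgt ++ q)) (cx [] (xw t z p) (g.src ++ q) ++ [⟨p ++ [z], g, q⟩]) := by
    have := (cx_comm (xw_valid t z p) hv [] [] q).symm
    simpa [List.append_assoc] using this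
  have h2 : Cob (p ++ z :: (g.src ++ q)) (p ++ g.tgt ++ z :: q) 0 0 0
      (⟨p ++ [z], g, q⟩ :: cx p (xw t z g.tgt) q) (cx p (xw t z g.src) q ++ [⟨p, g, z :: q⟩]) := by
    have := cx_cob (xw_gen t z g) p q
    simpa [cx_append, List.append_assoc] using this
  have h3 : Cob (p ++ g.src ++ z :: q) (p ++ g.tgt ++ q ++ [z]) 0 0 0
      (⟨p, g, z :: q⟩ :: cx (p ++ g.tgt) (xw t z q) []) (cx (p ++ g.src) (xw t z q) [] ++ [⟨p, g, q ++ [z]⟩]) := by
    have := cx_comm hv (xw_valid t z q) p [] []
    simpa [List.append_assoc] using this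
  have v1 : ∀ l : List Bool, Valid (z :: (p ++ l ++ q)) (cx [] (xw t z p) (l ++ q)) (p ++ z :: (l ++ q)) := by
    intro l
    have := cx_valid (xw_valid t z p) [] (l ++ q)
    simpa [List.append_assoc] using this
  have v2 : ∀ l : List Bool, Valid (p ++ z :: (l ++ q)) (cx p (xw t z l) q) (p ++ l ++ z :: q) := by
    intro l
    have := cx_valid (xw_valid t z l) p q
    simpa [List.append_assoc] using this
  have v3 : ∀ l : List Bool, Valid (p ++ l ++ z :: q) (cx (p ++ l) (xw t z q) []) (p ++ l ++ q ++ [z]) := by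
    intro l
    have := cx_valid (xw_valid t z q) (p ++ l) []
    simpa [List.append_assoc] using this
  have c1 := h1.ctx (c₀ := z :: (p ++ g.src ++ q)) (u := []) rfl ((v2 g.tgt).append (v3 g.tgt))
  have c2 := h2.ctx (v1 g.src) (v3 g.tgt)
  have c3 := h3.ctx ((v1 g.src).append (v2 g.src)) (v := []) rfl
  rw [e, e]
  have f1 : ∀ (A B C : Word) (x : Slice), [] ++ (x :: A) ++ (B ++ C) = x :: (A ++ B ++ C) := by
    intro A B C x
    simp
  have c1' : Cob (z :: (p ++ g.src ++ q)) (p ++ g.tgt ++ q ++ [z]) 0 0 0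
      (⟨z :: p, g, q⟩ :: (cx [] (xw t z p) (g.tgt ++ q) ++ cx p (xw t z g.tgt) q ++ cx (p ++ g.tgt) (xw t z q) []))
      (cx [] (xw t z p) (g.src ++ q) ++ (⟨p ++ [z], g, q⟩ :: cx p (xw t z g.tgt) q)
        ++ cx (p ++ g.tgt) (xw t z q) []) := by
    simpa [List.append_assoc] using c1
  have c3' : Cob (z :: (p ++ g.src ++ q)) (p ++ g.tgt ++ q ++ [z]) 0 0 0
      (cx [] (xw t z p) (g.src ++ q) ++ (cx p (xw t z g.src) q ++ [⟨p, g, z :: q⟩])
        ++ cx (p ++ g.tgt) (xw t z q) [])
      (cx [] (xw t z p) (g.src ++ q) ++ cx p (xw t z g.src) q ++ cx (p ++ g.src) (xw t z q) []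
        ++ [⟨p, g, q ++ [z]⟩]) := by
    simpa [List.append_assoc] using c3
  exact ((c1'.trans c2).trans c3').cast rfl rfl rfl

theorem pass {a b : List Bool} {w : Word} (h : Valid a w b) (t z : Bool) :
    Cob (z :: a) (b ++ [z]) 0 0 0 (cx [z] w [] ++ xw t z b) (xw t z a ++ cx [] w [z]) := by
  induction w generalizing a with
  | nil =>
    have : a = b := h
    subst this
    simpa using Cob.refl (xw_valid t z a)
  | cons s w ih =>
    obtain ⟨h1, h2⟩ := h
    have h3 := ih h2
    obtain ⟨p, g, q⟩ := s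
    have h4 := pass_slice t z p q g
    subst h1
    have u1 : Valid (z :: (p ++ g.src ++ q)) [⟨z :: p, g, q⟩] (z :: (p ++ g.tgt ++ q)) := by
      rw [valid_single]
      simp [Slice.src, Slice.tgt]
    have u2 : Valid (p ++ g.tgt ++ q ++ [z]) (cx [] w [z]) (b ++ [z]) := by
      have := cx_valid h2 [] [z]
      simpa [Slice.tgt] using this
    have c1 := h3.ctx u1 (v := []) rfl
    have c2 := h4.ctx (c₀ := z :: (p ++ g.src ++ q)) (u := []) rfl u2
    have c1' : Cob (z :: (p ++ g.src ++ q)) (b ++ [z]) 0 0 0 (cx [z] (⟨p, g, q⟩ :: w) [] ++ xw t z b)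
        (⟨z :: p, g, q⟩ :: (xw t z (p ++ g.tgt ++ q) ++ cx [] w [z])) := by
      simpa [Slice.tgt, List.append_assoc] using c1
    have c2' : Cob (z :: (p ++ g.src ++ q)) (b ++ [z]) 0 0 0
        (⟨z :: p, g, q⟩ :: (xw t z (p ++ g.tgt ++ q) ++ cx [] w [z]))
        (xw t z (p ++ g.src ++ q) ++ cx [] (⟨p, g, q⟩ :: w) [z]) := by
      simpa [List.append_assoc] using c2
    exact (c1'.trans c2').cast rfl rfl rfl

theorem pass_r {J : Word} (hJ : Valid [true] J [true]) :
    Cob [true, true] [true, true] 0 0 0 (cx [true] J [] ++ [⟨[], cross true true true, []⟩])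
      ([⟨[], cross true true true, []⟩] ++ cx [] J [true]) :=
  pass hJ true true

theorem pass_l {J : Word} (hJ : Valid [true] J [true]) :
    Cob [true, true] [true, true] 0 0 0 (cx [] J [true] ++ [⟨[], cross true true true, []⟩])
      ([⟨[], cross true true true, []⟩] ++ cx [true] J []) := by
  have v0 : Valid [true, true] ([] : Word) [true, true] := rfl
  have vx : ∀ t : Bool, Valid [true, true] [⟨[], cross t true true, []⟩] [true, true] := by
    intro t
    rw [valid_single]
    exact ⟨rfl, rfl⟩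
  have hr : ∀ t : Bool, Cob [true, true] [true, true] 0 0 0
      ([⟨[], cross t true true, []⟩] ++ [⟨[], cross (!t) true true, []⟩]) [] := by
    intro t
    exact rel_cob (Rel.r2 t true true [] []) ((vx t).append (vx (!t))) v0
  have vJ1 : Valid [true, true] (cx [true] J []) [true, true] := by
    simpa using cx_valid hJ [true] []
  have vJ2 : Valid [true, true] (cx [] J [true]) [true, true] := by
    simpa using cx_valid hJ [] [true]
  have hp : Cob [true, true] [true, true] 0 0 0 (cx [true] J [] ++ [⟨[], cross false true true, []⟩])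
      ([⟨[], cross false true true, []⟩] ++ cx [] J [true]) := pass hJ false true
  have c1 := (hr true).ctx (c₀ := [true, true]) (u := []) rfl (vJ2.append (vx true))
  have c2 := hp.ctx (vx true) (vx true)
  have c3 := (hr false).ctx ((vx true).append vJ1) (v := []) rfl
  have c1' : Cob [true, true] [true, true] 0 0 0 (cx [] J [true] ++ [⟨[], cross true true true, []⟩])
      ([⟨[], cross true true true, []⟩] ++ ([⟨[], cross false true true, []⟩] ++ cx [] J [true])
        ++ [⟨[], cross true true true, []⟩]) := by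
    simpa [List.append_assoc] using c1.symm
  have c3' : Cob [true, true] [true, true] 0 0 0
      ([⟨[], cross true true true, []⟩] ++ (cx [true] J [] ++ [⟨[], cross false true true, []⟩])
        ++ [⟨[], cross true true true, []⟩])
      ([⟨[], cross true true true, []⟩] ++ cx [true] J []) := by
    simpa [List.append_assoc] using c3
  exact ((c1'.trans c2.symm).trans c3').cast rfl rfl rfl

end Pool.Agent.Lib.MP_177a0e_gt.LT
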