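import Pool.Agent.Lib.MP_177a0e_gt.LT.RB
import Pool.Agent.Lib.MP_177a0e_gt.LT.SA
import Pool.Agent.Lib.MP_177a0e_gt.LT.XC

/-!
# rotation around a vertical axis: definitions.

`flp w`: the word `w` rotated by `π` around a vertical axis. `tws t a`: the positive or negative half twist of the strands `a`.
-/

namespace Pool.Agent.Lib.MP_177a0e_gt.LT

open Pool.Agent.Lib.MP_177a0e_gt.Tangle Pool.Agent.Lib.MP_177a0e_gt.Tangle.Gen
open Pool.Agent.Lib.MP_177a0e_gt.Sig

/-- a piece rotated by `π` around a vertical axis -/
def gfl : Gen → Gen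
  | cup x => cup (!x)
  | cap x => cap (!x)
  | cross s x y => cross s y x

theorem gfl_src (g : Gen) : (gfl g).src = g.src.reverse := by
  rcases g with x | x | ⟨s, x, y⟩ <;> simp [gfl, Gen.src]

theorem gfl_tgt (g : Gen) : (gfl g).tgt = g.tgt.reverse := by
  rcases g with x | x | ⟨s, x, y⟩ <;> simp [gfl, Gen.tgt]

/-- a slice rotated by `π` around a vertical axis -/
def sfl (t : Slice) : Slice := ⟨t.right.reverse, gfl t.gen, t.left.reverse⟩

/-- a word rotated by `π` around a vertical axis -/
def flp (w : Word) : Word := w.map sfl

@[simp] theorem flp_nil : flp [] = [] := rfl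

theorem flp_cons (t : Slice) (w : Word) : flp (t :: w) = sfl t :: flp w := rfl

theorem flp_append (u v : Word) : flp (u ++ v) = flp u ++ flp v := by
  simp [flp]

theorem flp_cx (p q : List Bool) (w : Word) : flp (cx p w q) = cx q.reverse (flp w) p.reverse := by
  simp [flp, cx, sfl, Function.comp_def]

theorem flp_valid {c e : List Bool} {w : Word} (h : Valid c w e) : Valid c.reverse (flp w) e.reverse := by
  induction w generalizing c with
  | nil =>
    have : c = e := h
    subst this
    rfl
  | cons s w ih =>
    obtain ⟨h1, h2⟩ := h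
    subst h1
    rw [flp_cons]
    refine ⟨?_, ?_⟩
    · simp [Slice.src, sfl, gfl_src, List.append_assoc]
    · have e1 : (sfl s).tgt = s.tgt.reverse := by
        simp [Slice.tgt, sfl, gfl_tgt, List.append_assoc]
      rw [e1]
      exact ih h2

/-- the half twist -/
def tws (t : Bool) : List Bool → Word
  | [] => []
  | x :: a => xw t x a ++ cx [] (tws t a) [x]

theorem tws_valid (t : Bool) (a : List Bool) : Valid a (tws t a) a.reverse := by
  induction a with
  | nil => rfl
  | cons x a ih =>
    have h2 := cx_valid ih [] [x]
    have h3 := (xw_valid t x a).append (v := cx [] (tws t a) [x]) (e := a.reverse ++ [x]) (by simpa using h2)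
    simpa [tws] using h3

/-- the strand `z` crosses the level `a` from the right to the left, behind it if `t` -/
def yw (t z : Bool) : List Bool → Word
  | [] => []
  | x :: a => cx [x] (yw t z a) [] ++ [⟨[], cross t x z, a⟩]

theorem yw_valid (t z : Bool) (a : List Bool) : Valid (a ++ [z]) (yw t z a) (z :: a) := by
  induction a with
  | nil => rfl
  | cons x a ih =>
    have h2 := cx_valid ih [x] []
    have h3 : Valid (x :: z :: a) [⟨[], cross t x z, a⟩] (z :: x :: a) := by
      rw [valid_single]
      simp [Slice.src, Slice.tgt, Gen.src, Gen.tgt]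
    have h4 : Valid (x :: (a ++ [z])) (cx [x] (yw t z a) []) (x :: z :: a) := by simpa using h2
    exact h4.append h3

end Pool.Agent.Lib.MP_177a0e_gt.LT
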