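import Pool.Agent.Lib.MP_177a0e_gt.LT.FA

/-!
# a strand crosses a word from the right to the left.
-/

namespace Pool.Agent.Lib.MP_177a0e_gt.LT

open Pool.Agent.Lib.MP_177a0e_gt.Tangle Pool.Agent.Lib.MP_177a0e_gt.Tangle.Gen
open Pool.Agent.Lib.MP_177a0e_gt.Sig

private theorem FB_cr (t x y : Bool) (a : List Bool) : Valid (x :: y :: a) [⟨[], cross t x y, a⟩] (y :: x :: a) := ⟨rfl, rfl⟩

theorem xw_yw (t z : Bool) (a : List Bool) : Iso (z :: a) (z :: a) (xw (!t) z a ++ yw t z a) [] := by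
  induction a with
  | nil => exact Cob.refl rfl
  | cons x a ih =>
    have h1 : Iso (x :: z :: a) (x :: z :: a) (cx [x] (xw (!t) z a ++ yw t z a) []) [] := by
      have := cx_cob ih [x] []
      simpa using this
    have h2 := h1.ctx (FB_cr (!t) z x a) (FB_cr t x z a)
    have h3 : Iso (z :: x :: a) (z :: x :: a) ([⟨[], cross (!t) z x, a⟩] ++ [] ++ [⟨[], cross t x z, a⟩]) [] := by
      have h4 := Rel.r2 (!t) z x [] a
      rw [Bool.not_not] at h4
      exact rel_cob h4 ((FB_cr (!t) z x a).append (FB_cr t x z a)) rfl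
    have e : xw (!t) z (x :: a) ++ yw t z (x :: a) =
        [⟨[], cross (!t) z x, a⟩] ++ cx [x] (xw (!t) z a ++ yw t z a) [] ++ [⟨[], cross t x z, a⟩] := by
      rw [cx_append]
      simp [xw, yw]
    rw [e]
    exact h2.trans h3

theorem yw_xw (t z : Bool) (a : List Bool) : Iso (a ++ [z]) (a ++ [z]) (yw t z a ++ xw (!t) z a) [] := by
  induction a with
  | nil => exact Cob.refl rfl
  | cons x a ih =>
    have v1 : Valid (x :: (a ++ [z])) (cx [x] (yw t z a) []) (x :: z :: a) := by
      simpa using cx_valid (yw_valid t z a) [x] []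
    have v2 : Valid (x :: z :: a) (cx [x] (xw (!t) z a) []) (x :: (a ++ [z])) := by
      simpa using cx_valid (xw_valid (!t) z a) [x] []
    have h3 : Iso (x :: z :: a) (x :: z :: a) [⟨[], cross t x z, a⟩, ⟨[], cross (!t) z x, a⟩] [] :=
      rel_cob (Rel.r2 t x z [] a) ((FB_cr t x z a).append (FB_cr (!t) z x a)) rfl
    have h4 := h3.ctx v1 v2
    have h1 : Iso (x :: (a ++ [z])) (x :: (a ++ [z])) (cx [x] (yw t z a) [] ++ [] ++ cx [x] (xw (!t) z a) []) [] := by
      have := cx_cob ih [x] []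
      simpa [cx_append] using this
    have e : yw t z (x :: a) ++ xw (!t) z (x :: a) =
        cx [x] (yw t z a) [] ++ [⟨[], cross t x z, a⟩, ⟨[], cross (!t) z x, a⟩] ++ cx [x] (xw (!t) z a) [] := by
      simp [xw, yw]
    rw [e]
    exact h4.trans h1

theorem pass_yw {c e : List Bool} {w : Word} (h : Valid c w e) (t z : Bool) :
    Iso (c ++ [z]) (z :: e) (cx [] w [z] ++ yw t z e) (yw t z c ++ cx [z] w []) := by
  have v1 : Valid (z :: c) (cx [z] w []) (z :: e) := by simpa using cx_valid h [z] []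
  have v2 : Valid (c ++ [z]) (cx [] w [z]) (e ++ [z]) := by simpa using cx_valid h [] [z]
  have h1 := (pass h (!t) z).ctx (yw_valid t z c) (yw_valid t z e)
  have h2 := rb_top (xw_yw t z e) ((yw_valid t z c).append v1)
  have h3 := rb_bot (yw_xw t z c) (v2.append (yw_valid t z e))
  have e1 : yw t z c ++ cx [z] w [] ++ (xw (!t) z e ++ yw t z e) =
      yw t z c ++ (cx [z] w [] ++ xw (!t) z e) ++ yw t z e := by simp only [List.append_assoc]
  have e2 : yw t z c ++ xw (!t) z c ++ (cx [] w [z] ++ yw t z e) =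
      yw t z c ++ (xw (!t) z c ++ cx [] w [z]) ++ yw t z e := by simp only [List.append_assoc]
  rw [e1, List.append_nil] at h2
  rw [e2, List.nil_append] at h3
  exact (h3.symm.trans h1.symm).trans h2

theorem yw_snoc (t z x : Bool) (b : List Bool) :
    yw t z (b ++ [x]) = ⟨b, cross t x z, []⟩ :: cx [] (yw t z b) [x] := by
  induction b with
  | nil => rfl
  | cons y b ih =>
    have e1 : yw t z (y :: b ++ [x]) = cx [y] (yw t z (b ++ [x])) [] ++ [⟨[], cross t y z, b ++ [x]⟩] := rfl
    have e2 : yw t z (y :: b) = cx [y] (yw t z b) [] ++ [⟨[], cross t y z, b⟩] := rfl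
    rw [e1, e2, ih, cx_cons, cx_append, cx_cx, cx_cx]
    simp

end Pool.Agent.Lib.MP_177a0e_gt.LT
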