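import Pool.Agent.Lib.MP_177a0e_gt.LT.FB

/-!
# the half twist with a further strand on the right.
-/

namespace Pool.Agent.Lib.MP_177a0e_gt.LT

open Pool.Agent.Lib.MP_177a0e_gt.Tangle Pool.Agent.Lib.MP_177a0e_gt.Tangle.Gen
open Pool.Agent.Lib.MP_177a0e_gt.Sig

theorem tws_snoc (t z : Bool) (a : List Bool) :
    Iso (a ++ [z]) (z :: a.reverse) (tws t (a ++ [z])) (cx [] (tws t a) [z] ++ yw t z a.reverse) := by
  induction a with
  | nil => exact Cob.refl (c := [z]) rfl
  | cons x a ih =>
    have hv : Valid [x, z] [⟨[], cross t x z, []⟩] [z, x] := ⟨rfl, rfl⟩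
    -- the left side
    have e1 : tws t (x :: a ++ [z]) = cx [] (xw t x a) [z] ++ [⟨a, cross t x z, []⟩] ++
        cx [] (tws t (a ++ [z])) [x] := by
      have : tws t (x :: a ++ [z]) = xw t x (a ++ [z]) ++ cx [] (tws t (a ++ [z])) [x] := rfl
      rw [this, xw_append]
      simp [xw]
    -- the right side
    have e2 : cx [] (tws t (x :: a)) [z] ++ yw t z (x :: a).reverse =
        cx [] (xw t x a) [z] ++ (cx [] (tws t a) [x, z] ++ [⟨a.reverse, cross t x z, []⟩]) ++
          cx [] (yw t z a.reverse) [x] := by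
      have : tws t (x :: a) = xw t x a ++ cx [] (tws t a) [x] := rfl
      rw [this, List.reverse_cons, yw_snoc, cx_append, cx_cx]
      simp
    have v1 : Valid (x :: a ++ [z]) (cx [] (xw t x a) [z]) (a ++ [x, z]) := by
      simpa [List.append_assoc] using cx_valid (xw_valid t x a) [] [z]
    have v2 : Valid (a ++ [x, z]) [⟨a, cross t x z, []⟩] (a ++ [z, x]) := by
      simpa [List.append_assoc] using cx_valid hv a []
    have v3 : Valid (a.reverse ++ [z, x]) (cx [] (yw t z a.reverse) [x]) (z :: (a.reverse ++ [x])) := by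
      simpa [List.append_assoc] using cx_valid (yw_valid t z a.reverse) [] [x]
    have k1 : Cob (a ++ [z, x]) (z :: (a.reverse ++ [x])) 0 0 0 (cx [] (tws t (a ++ [z])) [x])
        (cx [] (tws t a) [z, x] ++ cx [] (yw t z a.reverse) [x]) := by
      have := cx_cob ih [] [x]
      simpa [cx_append, cx_cx, List.append_assoc] using this
    have k2 : Cob (a ++ [x, z]) (a.reverse ++ [z, x]) 0 0 0
        ([⟨a, cross t x z, []⟩] ++ cx [] (tws t a) [z, x])
        (cx [] (tws t a) [x, z] ++ [⟨a.reverse, cross t x z, []⟩]) := by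
      have := (cx_comm (tws_valid t a) hv [] [] []).symm
      simpa [List.append_assoc] using this
    have c1 := rb_top k1 (v1.append v2)
    have c2 := k2.ctx v1 v3
    rw [e1, e2, List.reverse_cons]
    have c1' : Cob (x :: a ++ [z]) (z :: (a.reverse ++ [x])) 0 0 0
        (cx [] (xw t x a) [z] ++ [⟨a, cross t x z, []⟩] ++ cx [] (tws t (a ++ [z])) [x])
        (cx [] (xw t x a) [z] ++ ([⟨a, cross t x z, []⟩] ++ cx [] (tws t a) [z, x]) ++
          cx [] (yw t z a.reverse) [x]) := by
      simpa [List.append_assoc] using c1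
    exact c1'.trans c2

end Pool.Agent.Lib.MP_177a0e_gt.LT
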