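import Pool.Agent.Lib.MP_177a0e_gt.LT.FC

/-!
# the half twist carries a word to the rotated word.
-/

namespace Pool.Agent.Lib.MP_177a0e_gt.LT

open Pool.Agent.Lib.MP_177a0e_gt.Tangle Pool.Agent.Lib.MP_177a0e_gt.Tangle.Gen
open Pool.Agent.Lib.MP_177a0e_gt.Sig

theorem tws_gen (t : Bool) (g : Gen) :
    Iso g.src g.tgt.reverse ([⟨[], g, []⟩] ++ tws t g.tgt) (tws t g.src ++ [⟨[], gfl g, []⟩]) := by
  rcases g with x | x | ⟨s, x, y⟩
  · have h : Iso [] [!x, x] [⟨[], cup x, []⟩, ⟨[], cross t x (!x), []⟩] [⟨[], cup (!x), []⟩] :=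
      rel_cob (Rel.r1_cup t x [] []) (by simp [Valid, Slice.src, Slice.tgt, Gen.src, Gen.tgt])
        (by simp [Valid, Slice.src, Slice.tgt, Gen.src, Gen.tgt])
    simpa [Gen.src, Gen.tgt, tws, xw, gfl] using h
  · have h : Iso [x, !x] [] [⟨[], cap x, []⟩] [⟨[], cross t x (!x), []⟩, ⟨[], cap (!x), []⟩] :=
      (rel_cob (Rel.r1_cap t x [] []) (by simp [Valid, Slice.src, Slice.tgt, Gen.src, Gen.tgt])
        (by simp [Valid, Slice.src, Slice.tgt, Gen.src, Gen.tgt])).symm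
    simpa [Gen.src, Gen.tgt, tws, xw, gfl] using h
  · by_cases h : s = t
    · subst h
      have h : Iso [x, y] [x, y] [⟨[], cross s x y, []⟩, ⟨[], cross s y x, []⟩] [⟨[], cross s x y, []⟩, ⟨[], cross s y x, []⟩] :=
        Cob.refl (by simp [Valid, Slice.src, Slice.tgt, Gen.src, Gen.tgt])
      simpa [Gen.src, Gen.tgt, tws, xw, gfl] using h
    · have h' : t = !s := by
        cases s <;> cases t <;> simp_all
      subst h'
      have h1 : Iso [x, y] [x, y] [⟨[], cross s x y, []⟩, ⟨[], cross (!s) y x, []⟩] [] :=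
        rel_cob (Rel.r2 s x y [] []) (by simp [Valid, Slice.src, Slice.tgt, Gen.src, Gen.tgt]) rfl
      have h2 : Iso [x, y] [x, y] [⟨[], cross (!s) x y, []⟩, ⟨[], cross (!(!s)) y x, []⟩] [] :=
        rel_cob (Rel.r2 (!s) x y [] []) (by simp [Valid, Slice.src, Slice.tgt, Gen.src, Gen.tgt]) rfl
      have h3 := h1.trans h2.symm
      simpa [Gen.src, Gen.tgt, tws, xw, gfl] using h3

theorem tws_right (t : Bool) (g : Gen) (q : List Bool) : Iso (g.src ++ q) (g.tgt ++ q).reverse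
    ([⟨[], g, q⟩] ++ tws t (g.tgt ++ q)) (tws t (g.src ++ q) ++ [⟨q.reverse, gfl g, []⟩]) := by
  induction q using List.reverseRecOn with
  | nil => simpa using tws_gen t g
  | append_singleton q z ih =>
    have vg : Valid (g.src ++ (q ++ [z])) [⟨[], g, q ++ [z]⟩] (g.tgt ++ q ++ [z]) := by
      rw [valid_single]
      simp [Slice.src, Slice.tgt]
    have h1 := rb_top (tws_snoc t z (g.tgt ++ q)) vg
    have h2 := cx_cob ih [] [z]
    have h3 := rb_bot h2 (v := yw t z (g.tgt ++ q).reverse) (e₀ := z :: (g.tgt ++ q).reverse)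
      (by simpa using yw_valid t z (g.tgt ++ q).reverse)
    have vw : Valid (g.src ++ q).reverse [⟨q.reverse, gfl g, []⟩] (g.tgt ++ q).reverse := by
      rw [valid_single]
      simp [Slice.src, Slice.tgt, gfl_src, gfl_tgt]
    have h4 := pass_yw vw t z
    have h5 := rb_top h4 (u := cx [] (tws t (g.src ++ q)) [z]) (c₀ := g.src ++ q ++ [z])
      (by simpa using cx_valid (tws_valid t (g.src ++ q)) [] [z])
    have h6 := rb_bot (tws_snoc t z (g.src ++ q)) (v := [⟨z :: q.reverse, gfl g, []⟩]) (e₀ := (g.tgt ++ (q ++ [z])).reverse)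
      (by rw [valid_single]; simp [Slice.src, Slice.tgt, gfl_src, gfl_tgt])
    have k1 : Iso (g.src ++ (q ++ [z])) (g.tgt ++ (q ++ [z])).reverse
        ([⟨[], g, q ++ [z]⟩] ++ tws t (g.tgt ++ (q ++ [z])))
        ([⟨[], g, q ++ [z]⟩] ++ cx [] (tws t (g.tgt ++ q)) [z] ++ yw t z (g.tgt ++ q).reverse) := by
      simpa [List.append_assoc] using h1
    have k2 : Iso (g.src ++ (q ++ [z])) (g.tgt ++ (q ++ [z])).reverse
        ([⟨[], g, q ++ [z]⟩] ++ cx [] (tws t (g.tgt ++ q)) [z] ++ yw t z (g.tgt ++ q).reverse)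
        (cx [] (tws t (g.src ++ q)) [z] ++ cx [] [⟨q.reverse, gfl g, []⟩] [z] ++ yw t z (g.tgt ++ q).reverse) := by
      simpa [List.append_assoc, cx_append] using h3
    have k3 : Iso (g.src ++ (q ++ [z])) (g.tgt ++ (q ++ [z])).reverse
        (cx [] (tws t (g.src ++ q)) [z] ++ cx [] [⟨q.reverse, gfl g, []⟩] [z] ++ yw t z (g.tgt ++ q).reverse)
        (cx [] (tws t (g.src ++ q)) [z] ++ yw t z (g.src ++ q).reverse ++ [⟨z :: q.reverse, gfl g, []⟩]) := by
      simpa [List.append_assoc] using h5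
    have k4 : Iso (g.src ++ (q ++ [z])) (g.tgt ++ (q ++ [z])).reverse
        (cx [] (tws t (g.src ++ q)) [z] ++ yw t z (g.src ++ q).reverse ++ [⟨z :: q.reverse, gfl g, []⟩])
        (tws t (g.src ++ (q ++ [z])) ++ [⟨z :: q.reverse, gfl g, []⟩]) := by
      simpa [List.append_assoc] using h6.symm
    have k5 := ((k1.trans k2).trans k3).trans k4
    simpa using k5

end Pool.Agent.Lib.MP_177a0e_gt.LT
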