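import Pool.Agent.Lib.MP_177a0e_gt.Des.Dfn
import Pool.Agent.Lib.MP_177a0e_gt.Des.Upp
import Pool.Agent.Lib.MP_177a0e_gt.Des.Cnt

/-!
# the Goeritz form of the regions which meet the even gaps.

`bw w`: the form on the states of the even regions (zero at the odd gaps and at the bottom level), the sum over the
crossings of `eps` times the square of the difference of the values of the two even regions at the crossing.
`ngi w`: its negative index.
-/

namespace Pool.Agent.Lib.MP_177a0e_gt.LT

open Pool.Agent.Lib.MP_177a0e_gt.Tangle Pool.Agent.Lib.MP_177a0e_gt.Tangle.Gen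
open Pool.Agent.Lib.MP_177a0e_gt.Sig
open Pool.Agent.Lib.MP_177a0e_gt.Des (Black)

/-- the difference of the values of the two regions at a crossing which meet the even gaps -/
def jmb (s : Slice) (x y : ℕ → ℚ) : ℚ :=
  match s.gen with
  | cross _ _ _ => if lp s % 2 = 0 then x (lp s) - x (lp s + 2) else y (lp s + 1) - x (lp s + 1)
  | _ => 0

/-- the form: the sum over the crossings -/
def qb : Word → (ℕ → ℕ → ℚ) → (ℕ → ℕ → ℚ) → ℚ
  | [], _, _ => 0
  | s :: w, x, y => (eps s : ℚ) * (jmb s (x 0) (x 1) * jmb s (y 0) (y 1)) + qb w (sh 1 x) (sh 1 y)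

theorem jmb_add (s : Slice) (x y x' y' : ℕ → ℚ) : jmb s (x + x') (y + y') = jmb s x y + jmb s x' y' := by
  rcases s with ⟨p, _ | _ | _, q⟩ <;> simp only [jmb, Pi.add_apply]
  · rw [add_zero]
  · rw [add_zero]
  · split_ifs <;> ring

theorem jmb_smul (s : Slice) (r : ℚ) (x y : ℕ → ℚ) : jmb s (r • x) (r • y) = r * jmb s x y := by
  rcases s with ⟨p, _ | _ | _, q⟩ <;> simp only [jmb, Pi.smul_apply, smul_eq_mul]
  · rw [mul_zero]
  · rw [mul_zero]
  · split_ifs <;> ring

theorem qb_comm (w : Word) : ∀ x y : ℕ → ℕ → ℚ, qb w x y = qb w y x := by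
  induction w with
  | nil => intro x y; rfl
  | cons s w ih =>
    intro x y
    simp only [qb]
    rw [ih (sh 1 x) (sh 1 y)]
    ring

theorem qb_add (w : Word) : ∀ x x' y : ℕ → ℕ → ℚ, qb w (x + x') y = qb w x y + qb w x' y := by
  induction w with
  | nil => intro x x' y; simp [qb]
  | cons s w ih =>
    intro x x' y
    have h : sh 1 (x + x') = sh 1 x + sh 1 x' := rfl
    simp only [qb]
    rw [h, ih, Pi.add_apply, Pi.add_apply, jmb_add]
    ring

theorem qb_smul (w : Word) (r : ℚ) : ∀ x y : ℕ → ℕ → ℚ, qb w (r • x) y = r * qb w x y := by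
  induction w with
  | nil => intro x y; simp [qb]
  | cons s w ih =>
    intro x y
    have h : sh 1 (r • x) = r • sh 1 x := rfl
    simp only [qb]
    rw [h, ih, Pi.smul_apply, Pi.smul_apply, jmb_smul]
    ring

/-- the form as a bilinear form -/
def bform (w : Word) : LinearMap.BilinForm ℚ (ℕ → ℕ → ℚ) :=
  LinearMap.mk₂ ℚ (qb w) (qb_add w) (fun r x y => by rw [qb_smul, smul_eq_mul])
    (fun x y y' => by rw [qb_comm, qb_add, qb_comm w y, qb_comm w y'])
    (fun r x y => by rw [qb_comm, qb_smul, qb_comm w y, smul_eq_mul])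

/-- the form on the states of the even regions -/
abbrev bw (w : Word) : LinearMap.BilinForm ℚ (Black w) := (bform w).restrict (Black w)

/-- the negative index of the form of the even regions: the largest dimension of a subspace on which it is negative
definite -/
noncomputable def ngi (w : Word) : ℕ := ix (-(bw w))

/-- the number of crossings with `eps = 1` -/
def gd (w : Word) : ℕ := w.countP fun s => eps s == 1

/-- the number of crossings with `eps = -1` -/
def bd (w : Word) : ℕ := w.countP fun s => eps s == -1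

/-- the pairing of the differences of odd and of even regions -/
def ob : Word → (ℕ → ℕ → ℚ) → (ℕ → ℕ → ℚ) → ℚ
  | [], _, _ => 0
  | s :: w, x, y => (-1) ^ lp s * (jmp s (x 0) (x 1) * jmb s (y 0) (y 1)) + ob w (sh 1 x) (sh 1 y)

/-- the indices of the crossings -/
abbrev Xi (w : Word) : Type := {j : Fin w.length // eps (w.get j) ≠ 0}

end Pool.Agent.Lib.MP_177a0e_gt.LT
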