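import Pool.Agent.Lib.MP_177a0e_gt.LT.SM
import Pool.Agent.Lib.MP_177a0e_gt.Des.Defs

/-!
# words with all maxima at odd positions: one slice, all slices.
-/

namespace Pool.Agent.Lib.MP_177a0e_gt.LT

open Pool.Agent.Lib.MP_177a0e_gt.Tangle Pool.Agent.Lib.MP_177a0e_gt.Tangle.Gen
open Pool.Agent.Lib.MP_177a0e_gt.Sig

/-- every maximum has an odd number of strands on its left -/
def OddMax (w : Word) : Prop := ∀ t ∈ w, ∀ x : Bool, t.gen = cap x → t.left.length % 2 = 1

/-- a minimum or a crossing with an odd number of strands on its left: there a region begins which has an even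
number of strands on its left -/
def blk (t : Slice) : Bool :=
  match t.gen with
  | cap _ => false
  | _ => t.left.length % 2 == 1

/-- the number of such minima and crossings -/
def nblk (w : Word) : ℕ := w.countP blk

/-- a crossing of the right type: type `true` if the number of strands on its left is even, type `false` if this
number is odd -/
def rty (t : Slice) : Bool :=
  match t.gen with
  | cross s _ _ => s == (t.left.length % 2 == 0)
  | _ => false

/-- the number of positive crossings of the right type -/
def posr (w : Word) : ℕ := w.countP fun t => rty t && gpos t.gen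

/-- the number of negative crossings of the wrong type -/
def negw (w : Word) : ℕ := w.countP fun t => !rty t && gneg t.gen

theorem posr_cons (t : Slice) (w : Word) : posr (t :: w) = posr w + (if rty t && gpos t.gen then 1 else 0) := by
  simp [posr, List.countP_cons]

theorem negw_cons (t : Slice) (w : Word) : negw (t :: w) = negw w + (if !rty t && gneg t.gen then 1 else 0) := by
  simp [negw, List.countP_cons]

theorem nblk_cons (t : Slice) (w : Word) : nblk (t :: w) = nblk w + (if blk t then 1 else 0) := by
  simp [nblk, List.countP_cons]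

theorem odd_split {l : List Bool} (h : l.length % 2 = 1) : ∃ (p : List Bool) (u : Bool), l = p ++ [u] ∧ p.length % 2 = 0 := by
  rcases List.eq_nil_or_concat l with rfl | ⟨p, u, rfl⟩
  · simp at h
  · refine ⟨p, u, by simp, ?_⟩
    rw [List.concat_eq_append, List.length_append] at h
    simp only [List.length_cons, List.length_nil] at h
    omega

theorem end_split (r : List Bool) : ∃ (v : Bool) (q : List Bool), r ++ [false] = v :: q := by
  cases r with
  | nil => exact ⟨false, [], rfl⟩
  | cons v r => exact ⟨v, r ++ [false], rfl⟩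

/-- a minimum at an even position -/
theorem step_min (S : Fo) (p : List Bool) (x : Bool) (q : List Bool) (hp : p.length % 2 = 0)
    (h : p ++ q = lev S) : Stw S [⟨p, cup x, q⟩] (p ++ x :: (!x) :: q) 0 0 := by
  obtain ⟨S', e1, c1, r1, t1⟩ := ins_step S (.flat x none .nil) p q hp h
  have e2 : lev (.flat x none .nil) = [x, !x] := by simp [lev]
  rw [W_flat, e2] at c1
  rw [e2] at e1
  refine ⟨S', 0, by rw [e1]; simp, ?_, by rw [r1]; simp [rr, on], by rw [t1]; simp [tw, ot]⟩
  simpa [flatw, cx] using c1

/-- a crossing at an odd position -/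
theorem step_odd (s : Bool) (S : Fo) (p : List Bool) (u x y v : Bool) (q : List Bool) (hp : p.length % 2 = 0)
    (h : p ++ u :: x :: y :: v :: q = lev S) :
    Stw S [⟨p ++ [u], cross s x y, v :: q⟩] (p ++ u :: y :: x :: v :: q)
      (1 + (if s && gneg (cross s x y) then 1 else 0)) (if !s && gpos (cross s x y) then 1 else 0) := by
  have h1 := step_cup S p u x y (y :: v :: q) hp h
  have h2 : ∀ S', lev S' = p ++ u :: y :: (!y) :: x :: y :: v :: q →
      Stw S' [⟨p ++ [u, y], cross (!s) (!y) x, y :: v :: q⟩] (p ++ u :: y :: x :: (!y) :: y :: v :: q)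
        (if s && gneg (cross s x y) then 1 else 0) (if !s && gpos (cross s x y) then 1 else 0) := by
    intro S' h'
    have h3 := step_crs (!s) S' (p ++ [u, y]) (!y) x (y :: v :: q) (by simp; omega) (by rw [h']; simp)
    have e1 : gpos (cross (!s) (!y) x) = gpos (cross s x y) := by cases s <;> cases x <;> cases y <;> rfl
    have e2 : gneg (cross (!s) (!y) x) = gneg (cross s x y) := by cases s <;> cases x <;> cases y <;> rfl
    rw [e1, e2, Bool.not_not] at h3
    simpa using h3
  have h3 : ∀ S', lev S' = p ++ u :: y :: x :: (!y) :: y :: v :: q →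
      Stw S' [⟨p ++ [u, y, x], cap (!y), v :: q⟩] (p ++ u :: y :: x :: v :: q) 0 0 := by
    intro S' h'
    have h3 := step_cap S' (p ++ [u, y]) x (!y) v q (by simp; omega) (by rw [h']; simp)
    simpa using h3
  have v2 : Valid (p ++ u :: y :: (!y) :: x :: y :: v :: q) [⟨p ++ [u, y], cross (!s) (!y) x, y :: v :: q⟩]
      (p ++ u :: y :: x :: (!y) :: y :: v :: q) := by
    rw [valid_single]
    simp [Slice.src, Slice.tgt, Gen.src, Gen.tgt]
  have v3 : Valid (p ++ u :: y :: x :: (!y) :: y :: v :: q) [⟨p ++ [u, y, x], cap (!y), v :: q⟩]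
      (p ++ u :: y :: x :: v :: q) := by
    rw [valid_single]
    simp [Slice.src, Slice.tgt, Gen.src, Gen.tgt]
  have h4 := (h1.trans v2 h2).trans v3 h3
  have h5 := turn s x y (p ++ [u]) (v :: q)
  have h6 : Cob (lev S) (p ++ u :: y :: x :: v :: q) 0 0 0 [⟨p ++ [u], cross s x y, v :: q⟩]
      ([⟨p ++ [u], cup y, x :: y :: v :: q⟩] ++ [⟨p ++ [u, y], cross (!s) (!y) x, y :: v :: q⟩] ++
        [⟨p ++ [u, y, x], cap (!y), v :: q⟩]) := by
    rw [← h]
    simpa [turned, List.append_assoc] using h5
  have h7 := h4.movie h6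
  simpa using h7

/-- one slice -/
theorem step_slice (t : Slice) (h2 : OddMax [t]) (S : Fo) (h : lev S = t.src ++ [false]) :
    Stw S (cx [] [t] [false]) (t.tgt ++ [false])
      ((if blk t then 1 else 0) + (if !rty t && gneg t.gen then 1 else 0)) (if rty t && gpos t.gen then 1 else 0) := by
  obtain ⟨l, g, r⟩ := t
  obtain ⟨v, q, hv⟩ := end_split r
  rcases g with x | x | ⟨s, x, y⟩
  · rcases Nat.mod_two_eq_zero_or_one l.length with hl | hl
    · have h3 := step_min S l x (r ++ [false]) hl (by rw [h]; simp [Slice.src, Gen.src])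
      have e1 : blk ⟨l, cup x, r⟩ = false := by simp [blk, hl]
      rw [e1]
      have e2 : (⟨l, cup x, r⟩ : Slice).tgt ++ [false] = l ++ x :: (!x) :: (r ++ [false]) := by
        simp [Slice.tgt, Gen.tgt]
      rw [e2]
      simpa [cx, gpos, gneg] using h3
    obtain ⟨p, u, rfl, hp⟩ := odd_split hl
    have h3 := step_cup S p u v x q hp (by rw [h]; simp [Slice.src, Gen.src, hv])
    have e1 : blk ⟨p ++ [u], cup x, r⟩ = true := by simp [blk]; omega
    rw [e1]
    have e2 : (⟨p ++ [u], cup x, r⟩ : Slice).tgt ++ [false] = p ++ u :: x :: (!x) :: v :: q := by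
      simp [Slice.tgt, Gen.tgt, hv]
    rw [e2]
    simpa [cx, hv, gpos, gneg] using h3
  · have hl : l.length % 2 = 1 := h2 _ (List.mem_singleton_self _) x rfl
    obtain ⟨p, u, rfl, hp⟩ := odd_split hl
    have h3 := step_cap S p u x v q hp (by rw [h]; simp [Slice.src, Gen.src, hv])
    have e1 : blk ⟨p ++ [u], cap x, r⟩ = false := rfl
    rw [e1]
    have e2 : (⟨p ++ [u], cap x, r⟩ : Slice).tgt ++ [false] = p ++ u :: v :: q := by
      simp [Slice.tgt, Gen.tgt, hv]
    rw [e2]
    simpa [cx, hv, gpos, gneg] using h3
  · rcases Nat.mod_two_eq_zero_or_one l.length with hl | hl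
    · have h3 := step_crs s S l x y (r ++ [false]) hl (by rw [h]; simp [Slice.src, Gen.src])
      have e1 : blk ⟨l, cross s x y, r⟩ = false := by simp [blk, hl]
      have e0 : rty ⟨l, cross s x y, r⟩ = s := by
        show (s == (l.length % 2 == 0)) = s
        rw [hl]
        cases s <;> rfl
      rw [e1, e0]
      have e2 : (⟨l, cross s x y, r⟩ : Slice).tgt ++ [false] = l ++ y :: x :: (r ++ [false]) := by
        simp [Slice.tgt, Gen.tgt]
      rw [e2]
      simpa [cx] using h3
    · obtain ⟨p, u, rfl, hp⟩ := odd_split hl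
      have h3 := step_odd s S p u x y v q hp (by rw [h]; simp [Slice.src, Gen.src, hv])
      have e1 : blk ⟨p ++ [u], cross s x y, r⟩ = true := by simp [blk]; omega
      have e0 : rty ⟨p ++ [u], cross s x y, r⟩ = !s := by
        show (s == ((p ++ [u]).length % 2 == 0)) = !s
        rw [hl]
        cases s <;> rfl
      rw [e1, e0, Bool.not_not]
      have e2 : (⟨p ++ [u], cross s x y, r⟩ : Slice).tgt ++ [false] = p ++ u :: y :: x :: v :: q := by
        simp [Slice.tgt, Gen.tgt, hv]
      rw [e2]
      simpa [cx, hv] using h3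

/-- all slices -/
theorem scan (w : Word) : ∀ (c e : List Bool), Valid c w e → OddMax w → ∀ S : Fo,
    lev S = c ++ [false] → Stw S (cx [] w [false]) (e ++ [false]) (nblk w + negw w) (posr w) := by
  induction w with
  | nil =>
    intro c e h _ S hS
    have : c = e := h
    subst this
    rw [← hS]
    exact Stw.refl S
  | cons t w ih =>
    intro c e h h2 S hS
    obtain ⟨h3, h4⟩ := h
    have a2 : OddMax [t] := fun s hs => h2 s (by rw [List.mem_singleton.1 hs]; exact List.mem_cons_self)
    have b2 : OddMax w := fun s hs => h2 s (List.mem_cons_of_mem _ hs)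
    have h5 := step_slice t a2 S (by rw [h3]; exact hS)
    have h6 := h5.trans (v := cx [] w [false]) (f := e ++ [false]) (cx_valid h4 [] [false])
      (ih t.tgt e h4 b2)
    have e0 : (if blk t then 1 else 0) + (if !rty t && gneg t.gen then 1 else 0) + (nblk w + negw w) =
        nblk (t :: w) + negw (t :: w) := by
      rw [nblk_cons, negw_cons]
      ring
    rw [e0, Nat.add_comm _ (posr w), ← posr_cons] at h6
    have e1 : cx [] (t :: w) [false] = cx [] [t] [false] ++ cx [] w [false] := rfl
    rw [e1]
    exact h6

end Pool.Agent.Lib.MP_177a0e_gt.LT
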