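import Pool.Agent.Lib.MP_177a0e_gt.LT.GA
import Pool.Agent.Lib.MP_177a0e_gt.LT.SN

/-!
# the numbers of crossings.
-/

namespace Pool.Agent.Lib.MP_177a0e_gt.LT

open Pool.Agent.Lib.MP_177a0e_gt.Tangle Pool.Agent.Lib.MP_177a0e_gt.Tangle.Gen
open Pool.Agent.Lib.MP_177a0e_gt.Sig
open Pool.Agent.Lib.MP_177a0e_gt.Des (Black cn)

private theorem GB_gd_cons (s : Slice) (w : Word) : gd (s :: w) = gd w + (if eps s == 1 then 1 else 0) := by
  simp only [gd, List.countP_cons]

private theorem GB_bd_cons (s : Slice) (w : Word) : bd (s :: w) = bd w + (if eps s == -1 then 1 else 0) := by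
  simp only [bd, List.countP_cons]

theorem gd_bd (w : Word) : gd w + bd w = cn w := by
  induction w with
  | nil => rfl
  | cons s w ih =>
    rw [GB_gd_cons, GB_bd_cons]
    rcases s with ⟨p, x | x | ⟨c, x, y⟩, q⟩
    · simp [eps, cn, ih]
    · simp [eps, cn, ih]
    · have h1 : cn (⟨p, cross c x y, q⟩ :: w) = cn w + 1 := rfl
      rw [h1, ← ih]
      rcases Nat.mod_two_eq_zero_or_one p.length with hp | hp
      · have h6 : ((-1 : ℤ)) ^ p.length = 1 := Even.neg_one_pow (Nat.even_iff.mpr hp)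
        cases c <;> simp [eps, Sig.lp, h6, sz] <;> omega
      · have h6 : ((-1 : ℤ)) ^ p.length = -1 := Odd.neg_one_pow (Nat.odd_iff.mpr hp)
        cases c <;> simp [eps, Sig.lp, h6, sz] <;> omega

private theorem GB_slice (s : Slice) : cor s + (if rty s && gpos s.gen then 1 else 0) =
    (if eps s == 1 then (1 : ℤ) else 0) - (if eps s == -1 then 1 else 0) +
      (if !rty s && gneg s.gen then 1 else 0) := by
  rcases s with ⟨p, x | x | ⟨c, x, y⟩, q⟩
  · simp [cor, eps, rty, gneg]
  · simp [cor, eps, rty, gneg]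
  · rcases Nat.mod_two_eq_zero_or_one p.length with hp | hp
    · have h6 : ((-1 : ℤ)) ^ p.length = 1 := Even.neg_one_pow (Nat.even_iff.mpr hp)
      cases c <;> cases x <;> cases y <;> simp [cor, eps, Sig.lp, hp, h6, gneg, gpos, sz, rty]
    · have h6 : ((-1 : ℤ)) ^ p.length = -1 := Odd.neg_one_pow (Nat.odd_iff.mpr hp)
      cases c <;> cases x <;> cases y <;> simp [cor, eps, Sig.lp, hp, h6, gneg, gpos, sz, rty]

theorem corr_eq (w : Word) : corr w + posr w = (gd w : ℤ) - bd w + negw w := by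
  induction w with
  | nil => rfl
  | cons s w ih =>
    have h2 : corr (s :: w) = cor s + corr w := by simp [corr]
    have h3 := GB_slice s
    rw [h2, posr_cons, negw_cons, GB_gd_cons, GB_bd_cons]
    push_cast
    linarith

end Pool.Agent.Lib.MP_177a0e_gt.LT
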