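import Pool.Agent.Lib.MP_177a0e_gt.LT.GA
import Pool.Agent.Lib.MP_177a0e_gt.LT.SN
import Pool.Agent.Lib.MP_177a0e_gt.Sig.Kn

/-!
# the number of bounded even regions.
-/

namespace Pool.Agent.Lib.MP_177a0e_gt.LT

open Pool.Agent.Lib.MP_177a0e_gt.Tangle Pool.Agent.Lib.MP_177a0e_gt.Tangle.Gen
open Pool.Agent.Lib.MP_177a0e_gt.Sig
open Pool.Agent.Lib.MP_177a0e_gt.Des (Black cn nb nw)

/-- the number of maxima with an even number of strands on their left -/
def emx (w : Word) : ℕ :=
  w.countP fun t => match t.gen with
    | cap _ => t.left.length % 2 == 0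
    | _ => false

private def GC_we (t : Slice) : Bool :=
  match t.gen with
  | cap _ => false
  | _ => t.left.length % 2 == 0

private def GC_om (t : Slice) : Bool :=
  match t.gen with
  | cap _ => t.left.length % 2 == 1
  | _ => false

private def GC_em (t : Slice) : Bool :=
  match t.gen with
  | cap _ => t.left.length % 2 == 0
  | _ => false

private theorem GC_emx (w : Word) : emx w = w.countP GC_em := rfl

private theorem GC_app (f : Slice → Bool) (w : Word) (s : Slice) :
    (w ++ [s]).countP f = w.countP f + (if f s then 1 else 0) := by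
  rw [List.countP_append]
  simp [List.countP_cons]

/-- an even region begins at the minima and crossings at odd positions -/
private theorem GC_A (w : Word) : nblk w ≤ Des.dk 0 w + emx w := by
  rw [GC_emx]
  unfold nblk
  induction w using List.reverseRecOn with
  | nil => simp
  | append_singleton w s ih =>
    rw [GC_app, GC_app]
    rcases s with ⟨p, g, q⟩
    rcases g with x | x | ⟨c, x, y⟩
    · have h6 : GC_em ⟨p, cup x, q⟩ = false := rfl
      rw [h6]
      rcases Nat.mod_two_eq_zero_or_one p.length with hp | hp
      · have h4 := Des.dk_mono 0 w ⟨p, cup x, q⟩ (Or.inl ⟨x, rfl⟩)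
        have h5 : blk ⟨p, cup x, q⟩ = false := by simp [blk, hp]
        rw [h5]
        simp only [Bool.false_eq_true, if_false]
        omega
      · have h4 := Des.dk_free 0 w ⟨p, cup x, q⟩ (Or.inl ⟨x, rfl⟩) (by show (p.length + 1) % 2 = 0; omega)
        have h5 : (if blk ⟨p, cup x, q⟩ then 1 else 0) ≤ 1 := by split_ifs <;> omega
        simp only [Bool.false_eq_true, if_false]
        omega
    · have h5 : blk ⟨p, cap x, q⟩ = false := rfl
      rw [h5]
      simp only [Bool.false_eq_true, if_false]
      rcases Nat.mod_two_eq_zero_or_one p.length with hp | hp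
      · have h4 := Des.dk_cap 0 w ⟨p, cap x, q⟩ ⟨x, rfl⟩
        have h6 : GC_em ⟨p, cap x, q⟩ = true := by simp [GC_em, hp]
        rw [h6]
        simp only [if_true]
        omega
      · have h4 := Des.dk_cap' 0 w ⟨p, cap x, q⟩ ⟨x, rfl⟩ (by show p.length % 2 ≠ 0; omega)
        omega
    · have h6 : GC_em ⟨p, cross c x y, q⟩ = false := rfl
      rw [h6]
      rcases Nat.mod_two_eq_zero_or_one p.length with hp | hp
      · have h4 := Des.dk_mono 0 w ⟨p, cross c x y, q⟩ (Or.inr ⟨c, x, y, rfl⟩)
        have h5 : blk ⟨p, cross c x y, q⟩ = false := by simp [blk, hp]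
        rw [h5]
        simp only [Bool.false_eq_true, if_false]
        omega
      · have h4 := Des.dk_free 0 w ⟨p, cross c x y, q⟩ (Or.inr ⟨c, x, y, rfl⟩) (by show (p.length + 1) % 2 = 0; omega)
        have h5 : (if blk ⟨p, cross c x y, q⟩ then 1 else 0) ≤ 1 := by split_ifs <;> omega
        simp only [Bool.false_eq_true, if_false]
        omega

/-- an odd region begins at the minima and crossings at even positions -/
private theorem GC_B (w : Word) : w.countP GC_we ≤ Des.dk 1 w + w.countP GC_om := by
  induction w using List.reverseRecOn with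
  | nil => simp
  | append_singleton w s ih =>
    rw [GC_app, GC_app]
    rcases s with ⟨p, g, q⟩
    rcases g with x | x | ⟨c, x, y⟩
    · have h6 : GC_om ⟨p, cup x, q⟩ = false := rfl
      rw [h6]
      rcases Nat.mod_two_eq_zero_or_one p.length with hp | hp
      · have h4 := Des.dk_free 1 w ⟨p, cup x, q⟩ (Or.inl ⟨x, rfl⟩) (by show (p.length + 1) % 2 = 1; omega)
        have h5 : (if GC_we ⟨p, cup x, q⟩ then 1 else 0) ≤ 1 := by split_ifs <;> omega
        simp only [Bool.false_eq_true, if_false]
        omega
      · have h4 := Des.dk_mono 1 w ⟨p, cup x, q⟩ (Or.inl ⟨x, rfl⟩)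
        have h5 : GC_we ⟨p, cup x, q⟩ = false := by simp [GC_we, hp]
        rw [h5]
        simp only [Bool.false_eq_true, if_false]
        omega
    · have h5 : GC_we ⟨p, cap x, q⟩ = false := rfl
      rw [h5]
      simp only [Bool.false_eq_true, if_false]
      rcases Nat.mod_two_eq_zero_or_one p.length with hp | hp
      · have h4 := Des.dk_cap' 1 w ⟨p, cap x, q⟩ ⟨x, rfl⟩ (by show p.length % 2 ≠ 1; omega)
        omega
      · have h4 := Des.dk_cap 1 w ⟨p, cap x, q⟩ ⟨x, rfl⟩
        have h6 : GC_om ⟨p, cap x, q⟩ = true := by simp [GC_om, hp]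
        rw [h6]
        simp only [if_true]
        omega
    · have h6 : GC_om ⟨p, cross c x y, q⟩ = false := rfl
      rw [h6]
      rcases Nat.mod_two_eq_zero_or_one p.length with hp | hp
      · have h4 := Des.dk_free 1 w ⟨p, cross c x y, q⟩ (Or.inr ⟨c, x, y, rfl⟩) (by show (p.length + 1) % 2 = 1; omega)
        have h5 : (if GC_we ⟨p, cross c x y, q⟩ then 1 else 0) ≤ 1 := by split_ifs <;> omega
        simp only [Bool.false_eq_true, if_false]
        omega
      · have h4 := Des.dk_mono 1 w ⟨p, cross c x y, q⟩ (Or.inr ⟨c, x, y, rfl⟩)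
        have h5 : GC_we ⟨p, cross c x y, q⟩ = false := by simp [GC_we, hp]
        rw [h5]
        simp only [Bool.false_eq_true, if_false]
        omega

private theorem GC_C (w : Word) : nblk w + w.countP GC_we = cups w + cn w := by
  unfold nblk
  induction w with
  | nil => rfl
  | cons s w ih =>
    rw [List.countP_cons, List.countP_cons]
    rcases s with ⟨p, g, q⟩
    rcases Nat.mod_two_eq_zero_or_one p.length with hp | hp <;> rcases g with x | x | ⟨c, x, y⟩
    all_goals simp only [blk, GC_we, hp, cups, cn]
    all_goals simp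
    all_goals omega

private theorem GC_D (w : Word) : emx w + w.countP GC_om = caps w := by
  rw [GC_emx]
  induction w with
  | nil => rfl
  | cons s w ih =>
    rw [List.countP_cons, List.countP_cons]
    rcases s with ⟨p, g, q⟩
    rcases Nat.mod_two_eq_zero_or_one p.length with hp | hp <;> rcases g with x | x | ⟨c, x, y⟩
    all_goals simp only [GC_em, GC_om, hp, caps]
    all_goals simp
    all_goals omega

theorem nb_eq {w : Word} (hw : IsKnot w) : nb w + emx w = nblk w := by
  have hA := GC_A w
  have hB := GC_B w
  have hC := GC_C w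
  have hD := GC_D w
  have h2 := count hw.valid
  have h3 := Des.le_cn (nul_knot hw)
  rw [Des.dk_zero] at hA
  rw [Des.dk_one] at hB
  simp only [List.length_singleton] at h2
  omega

end Pool.Agent.Lib.MP_177a0e_gt.LT
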