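import Pool.Agent.Lib.MP_177a0e_gt.LT.GA

/-!
# the differences of odd and of even regions are orthogonal.
-/

namespace Pool.Agent.Lib.MP_177a0e_gt.LT

open Pool.Agent.Lib.MP_177a0e_gt.Tangle Pool.Agent.Lib.MP_177a0e_gt.Tangle.Gen
open Pool.Agent.Lib.MP_177a0e_gt.Sig
open Pool.Agent.Lib.MP_177a0e_gt.Des (Black)

/-- the alternating sum of a level -/
def lv (N : ℕ) (z : ℕ → ℚ) : ℚ := ∑ i ∈ Finset.range N, (-1) ^ i * (z i * z (i + 1))

/-- the change of the alternating sum at a slice -/
def os (s : Slice) (z z' : ℕ → ℚ) : ℚ :=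
  match s.gen with
  | cross _ _ _ => (-1) ^ lp s * ((z' (lp s + 1) - z (lp s + 1)) * (z (lp s) - z (lp s + 2)))
  | _ => 0

/-- the change of the alternating sum at a word -/
def ow : Word → (ℕ → ℕ → ℚ) → ℚ
  | [], _ => 0
  | s :: w, z => os s (z 0) (z 1) + ow w (sh 1 z)

private theorem GD_succ (N : ℕ) (z : ℕ → ℚ) : lv (N + 1) z = lv N z + (-1) ^ N * (z N * z (N + 1)) :=
  Finset.sum_range_succ _ _

private theorem GD_congr (L : ℕ) (z z' : ℕ → ℚ) (h : ∀ i, i ≤ L → z' i = z i) : lv L z' = lv L z := by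
  refine Finset.sum_congr rfl fun i hi => ?_
  have hi' := Finset.mem_range.1 hi
  rw [h i (by omega), h (i + 1) (by omega)]

private theorem GD_cup (L N : ℕ) (z z' : ℕ → ℚ) (h1 : ∀ i, i ≤ L → z' i = z i) (h2 : ∀ i, L ≤ i → z' (i + 2) = z i) :
    lv (L + 2 + N) z' = lv (L + N) z := by
  induction N with
  | zero =>
    have e1 := GD_succ (L + 1) z'
    have e2 := GD_succ L z'
    have e3 := GD_congr L z z' h1
    have e4 := h1 L le_rfl
    have e5 := h2 L le_rfl
    show lv (L + 1 + 1) z' = lv L z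
    rw [e1, e2, e3, show L + 1 + 1 = L + 2 from rfl, e4, e5]
    ring
  | succ N ih =>
    have e1 := GD_succ (L + 2 + N) z'
    have e2 := GD_succ (L + N) z
    have e3 := h2 (L + N) (by omega)
    have e4 := h2 (L + N + 1) (by omega)
    have e5 : L + 2 + N = L + N + 2 := by omega
    show lv (L + 2 + N + 1) z' = lv (L + N + 1) z
    rw [e1, e2, ih, e5, e3, show L + N + 2 + 1 = L + N + 1 + 2 from rfl, e4]
    ring

private theorem GD_cross (L N : ℕ) (z z' : ℕ → ℚ) (h : ∀ i, i ≠ L + 1 → z' i = z i) :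
    lv (L + 2 + N) z' = lv (L + 2 + N) z + (-1) ^ L * ((z' (L + 1) - z (L + 1)) * (z L - z (L + 2))) := by
  induction N with
  | zero =>
    have e1 := GD_succ (L + 1) z'
    have e2 := GD_succ L z'
    have f1 := GD_succ (L + 1) z
    have f2 := GD_succ L z
    have e3 := GD_congr L z z' fun i hi => h i (by omega)
    have e4 := h L (by omega)
    have e5 := h (L + 2) (by omega)
    show lv (L + 1 + 1) z' = lv (L + 1 + 1) z + (-1) ^ L * ((z' (L + 1) - z (L + 1)) * (z L - z (L + 2)))
    rw [e1, e2, f1, f2, e3, show L + 1 + 1 = L + 2 from rfl, e4, e5]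
    ring
  | succ N ih =>
    have e1 := GD_succ (L + 2 + N) z'
    have e2 := GD_succ (L + 2 + N) z
    have e3 := h (L + 2 + N) (by omega)
    have e4 := h (L + 2 + N + 1) (by omega)
    show lv (L + 2 + N + 1) z' = lv (L + 2 + N + 1) z + (-1) ^ L * ((z' (L + 1) - z (L + 1)) * (z L - z (L + 2)))
    rw [e1, e2, ih, e3, e4]
    ring

theorem lv_slice (s : Slice) (z z' : ℕ → ℚ) (h : Fit s z z') :
    lv s.tgt.length z' = lv s.src.length z + os s z z' := by
  obtain ⟨p, g, q⟩ := s
  rcases g with x | x | ⟨c, x, y⟩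
  · have e1 : (Slice.mk p (cup x) q).tgt.length = p.length + 2 + q.length := by
      simp [Slice.tgt, Gen.tgt]
      omega
    have e2 : (Slice.mk p (cup x) q).src.length = p.length + q.length := by
      simp [Slice.src, Gen.src]
    rw [e1, e2, GD_cup p.length q.length z z' h.1 h.2]
    exact (add_zero _).symm
  · have e1 : (Slice.mk p (cap x) q).tgt.length = p.length + q.length := by
      simp [Slice.tgt, Gen.tgt]
    have e2 : (Slice.mk p (cap x) q).src.length = p.length + 2 + q.length := by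
      simp [Slice.src, Gen.src]
      omega
    rw [e1, e2, GD_cup p.length q.length z' z h.1 h.2]
    exact (add_zero _).symm
  · have e1 : (Slice.mk p (cross c x y) q).tgt.length = p.length + 2 + q.length := by
      simp [Slice.tgt, Gen.tgt]
      omega
    have e2 : (Slice.mk p (cross c x y) q).src.length = p.length + 2 + q.length := by
      simp [Slice.src, Gen.src]
      omega
    rw [e1, e2, GD_cross p.length q.length z z' h]
    rfl

theorem lv_word {c e : List Bool} {w : Word} (h : Valid c w e) (z : ℕ → ℕ → ℚ) (hz : Run (fitM ℚ) w z) :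
    lv e.length (z w.length) = lv c.length (z 0) + ow w z := by
  induction w generalizing c z with
  | nil =>
    have h1 : c = e := h
    subst h1
    exact (add_zero _).symm
  | cons s w ih =>
    obtain ⟨h1, h2⟩ := h
    obtain ⟨h3, h4⟩ := hz
    have h5 := ih h2 (sh 1 z) h4
    have h6 : Fit s (z 0) (z 1) := h3
    have h7 := lv_slice s (z 0) (z 1) h6
    have h8 : sh 1 z w.length = z (s :: w).length := rfl
    have h9 : sh 1 z 0 = z 1 := rfl
    rw [h8, h9, h7, h1] at h5
    rw [h5, add_assoc]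
    rfl

private theorem GD_ob (w : Word) : ∀ x y : ℕ → ℕ → ℚ, (∀ j i, i % 2 = 0 → x j i = 0) → (∀ j i, i % 2 = 1 → y j i = 0) →
    ow w (x + y) = ob w x y := by
  induction w with
  | nil => intro x y _ _; rfl
  | cons s w ih =>
    intro x y hx hy
    have h1 : sh 1 (x + y) = sh 1 x + sh 1 y := rfl
    have h2 := ih (sh 1 x) (sh 1 y) (fun j i hi => hx (j + 1) i hi) (fun j i hi => hy (j + 1) i hi)
    show os s ((x + y) 0) ((x + y) 1) + ow w (sh 1 (x + y)) =
      (-1) ^ lp s * (jmp s (x 0) (x 1) * jmb s (y 0) (y 1)) + ob w (sh 1 x) (sh 1 y)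
    rw [h1, h2]
    congr 1
    obtain ⟨p, g, q⟩ := s
    rcases g with a | a | ⟨c, a, b⟩
    · simp only [os, jmp, mul_zero, zero_mul]
    · simp only [os, jmp, mul_zero, zero_mul]
    · obtain ⟨L, hL⟩ : ∃ L, L = lp (Slice.mk p (cross c a b) q) := ⟨_, rfl⟩
      simp only [os, jmp, jmb, ← hL, Pi.add_apply]
      rcases Nat.mod_two_eq_zero_or_one L with h | h
      · rw [if_pos h, if_pos h, hx 0 L h, hx 0 (L + 2) (by omega), hy 0 (L + 1) (by omega), hy 1 (L + 1) (by omega)]
        ring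
      · have h' : ¬ L % 2 = 0 := by omega
        rw [if_neg h', if_neg h', hy 0 L h, hy 0 (L + 2) (by omega), hx 0 (L + 1) (by omega), hx 1 (L + 1) (by omega)]
        ring

private theorem GD_gap (w : Word) : ∀ z : ℕ → ℕ → ℚ, Run (fitM ℚ) w z → z w.length 0 = z 0 0 := by
  induction w with
  | nil => intro z _; rfl
  | cons s w ih =>
    intro z hz
    obtain ⟨h3, h4⟩ := hz
    have h5 := ih (sh 1 z) h4
    have h6 : Fit s (z 0) (z 1) := h3
    have h7 : z 1 0 = z 0 0 := by
      obtain ⟨p, g, q⟩ := s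
      rcases g with a | a | ⟨c, a, b⟩
      · exact h6.1 0 (Nat.zero_le _)
      · exact (h6.1 0 (Nat.zero_le _)).symm
      · exact h6 0 (by omega)
    exact h5.trans h7

theorem orth {w : Word} (hw : Valid [true] w [true]) (x y : ℕ → ℕ → ℚ) (hx : x ∈ White w) (hy : y ∈ Black w) :
    ob w x y = 0 := by
  obtain ⟨⟨hx1, hx2, -⟩, hx0⟩ := hx
  obtain ⟨⟨hy1, hy2, -⟩, hy0⟩ := hy
  have hz : Run (fitM ℚ) w (x + y) := hx1.add hy1
  have h1 := lv_word hw (x + y) hz
  have h2 := GD_gap w (x + y) hz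
  have h3 : (x + y) 0 = 0 := by
    show x 0 + y 0 = 0
    rw [hx0, hy0, add_zero]
  rw [h3] at h1 h2
  have h4 : lv [true].length ((x + y) w.length) = 0 := by
    show ∑ i ∈ Finset.range 1, _ = (0 : ℚ)
    rw [Finset.sum_range_one, h2]
    simp
  have h5 : lv [true].length (0 : ℕ → ℚ) = 0 := by
    show ∑ i ∈ Finset.range 1, _ = (0 : ℚ)
    rw [Finset.sum_range_one]
    simp
  rw [h4, h5, zero_add] at h1
  rw [← GD_ob w x y (fun j i hi => hx2 j i hi) (fun j i hi => hy2 j i hi), ← h1]

end Pool.Agent.Lib.MP_177a0e_gt.LT
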