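import Pool.Agent.Lib.MP_177a0e_gt.LT.GA

/-!
# sums over the crossings.
-/

namespace Pool.Agent.Lib.MP_177a0e_gt.LT

open Pool.Agent.Lib.MP_177a0e_gt.Tangle Pool.Agent.Lib.MP_177a0e_gt.Tangle.Gen
open Pool.Agent.Lib.MP_177a0e_gt.Sig
open Pool.Agent.Lib.MP_177a0e_gt.Des (Black)

private theorem GE_sub {M : Type} [AddCommMonoid M] (w : Word) (F : Fin w.length → M)
    (h : ∀ j, eps (w.get j) = 0 → F j = 0) : ∑ j : Fin w.length, F j = ∑ j : Xi w, F j.1 := by
  rw [← Finset.sum_subtype (Finset.univ.filter fun j : Fin w.length => eps (w.get j) ≠ 0)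
    (fun j => by simp) F]
  refine (Finset.sum_filter_of_ne (p := fun j : Fin w.length => eps (w.get j) ≠ 0) ?_).symm
  intro j _ hj h0
  exact hj (h j h0)

private theorem GE_sz (c : Bool) : sz c = 1 ∨ sz c = -1 := by
  cases c
  · exact Or.inr rfl
  · exact Or.inl rfl

private theorem GE_eps (s : Slice) : eps s = 0 ∨ eps s = 1 ∨ eps s = -1 := by
  rcases s with ⟨p, _ | _ | ⟨c, a, b⟩, q⟩
  · exact Or.inl rfl
  · exact Or.inl rfl
  · right
    show sz c * (-1) ^ p.length = 1 ∨ sz c * (-1) ^ p.length = -1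
    rcases GE_sz c with h1 | h1 <;> rcases neg_one_pow_eq_or ℤ p.length with h2 | h2 <;>
      rw [h1, h2] <;> decide

private theorem GE_jmp (s : Slice) (h : eps s = 0) (x y : ℕ → ℚ) : jmp s x y = 0 := by
  rcases s with ⟨p, _ | _ | ⟨c, a, b⟩, q⟩
  · rfl
  · rfl
  · exfalso
    have h3 : sz c * (-1) ^ p.length = 0 := h
    rcases GE_sz c with h1 | h1 <;> rcases neg_one_pow_eq_or ℤ p.length with h2 | h2 <;>
      rw [h1, h2] at h3 <;> exact absurd h3 (by decide)

private theorem GE_jmb (s : Slice) (h : eps s = 0) (x y : ℕ → ℚ) : jmb s x y = 0 := by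
  rcases s with ⟨p, _ | _ | ⟨c, a, b⟩, q⟩
  · rfl
  · rfl
  · exfalso
    have h3 : sz c * (-1) ^ p.length = 0 := h
    rcases GE_sz c with h1 | h1 <;> rcases neg_one_pow_eq_or ℤ p.length with h2 | h2 <;>
      rw [h1, h2] at h3 <;> exact absurd h3 (by decide)

private theorem GE_gq (w : Word) : ∀ x y : ℕ → ℕ → ℚ, gq w x y = ∑ j : Fin w.length, (eps (w.get j) : ℚ) *
    (jmp (w.get j) (x j) (x (j + 1)) * jmp (w.get j) (y j) (y (j + 1))) := by
  induction w with
  | nil => intro x y; rfl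
  | cons s w ih =>
    intro x y
    exact (congrArg (fun t => (eps s : ℚ) * (jmp s (x 0) (x 1) * jmp s (y 0) (y 1)) + t)
      (ih (sh 1 x) (sh 1 y))).trans (Fin.sum_univ_succ (n := w.length)
        (fun j : Fin (w.length + 1) => (eps ((s :: w).get j) : ℚ) *
          (jmp ((s :: w).get j) (x j) (x (j + 1)) * jmp ((s :: w).get j) (y j) (y (j + 1))))).symm

private theorem GE_qb (w : Word) : ∀ x y : ℕ → ℕ → ℚ, qb w x y = ∑ j : Fin w.length, (eps (w.get j) : ℚ) *
    (jmb (w.get j) (x j) (x (j + 1)) * jmb (w.get j) (y j) (y (j + 1))) := by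
  induction w with
  | nil => intro x y; rfl
  | cons s w ih =>
    intro x y
    exact (congrArg (fun t => (eps s : ℚ) * (jmb s (x 0) (x 1) * jmb s (y 0) (y 1)) + t)
      (ih (sh 1 x) (sh 1 y))).trans (Fin.sum_univ_succ (n := w.length)
        (fun j : Fin (w.length + 1) => (eps ((s :: w).get j) : ℚ) *
          (jmb ((s :: w).get j) (x j) (x (j + 1)) * jmb ((s :: w).get j) (y j) (y (j + 1))))).symm

private theorem GE_ob (w : Word) : ∀ x y : ℕ → ℕ → ℚ, ob w x y = ∑ j : Fin w.length, (-1) ^ lp (w.get j) *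
    (jmp (w.get j) (x j) (x (j + 1)) * jmb (w.get j) (y j) (y (j + 1))) := by
  induction w with
  | nil => intro x y; rfl
  | cons s w ih =>
    intro x y
    exact (congrArg (fun t => (-1) ^ lp s * (jmp s (x 0) (x 1) * jmb s (y 0) (y 1)) + t)
      (ih (sh 1 x) (sh 1 y))).trans (Fin.sum_univ_succ (n := w.length)
        (fun j : Fin (w.length + 1) => (-1 : ℚ) ^ lp ((s :: w).get j) *
          (jmp ((s :: w).get j) (x j) (x (j + 1)) * jmb ((s :: w).get j) (y j) (y (j + 1))))).symm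

private theorem GE_cnt (z : ℤ) (w : Word) :
    ∑ j : Fin w.length, (if eps (w.get j) = z then 1 else 0) = w.countP fun s => eps s == z := by
  induction w with
  | nil => rfl
  | cons s w ih =>
    refine (Fin.sum_univ_succ (n := w.length)
      (fun j : Fin (w.length + 1) => if eps ((s :: w).get j) = z then 1 else 0)).trans ?_
    rw [List.countP_cons, ← ih, add_comm]
    congr 1
    by_cases h : eps s = z
    · simp [h]
    · simp [h]

private theorem GE_card (z : ℤ) (hz : z ≠ 0) (w : Word) :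
    (Finset.univ.filter fun j : Xi w => eps (w.get j.1) = z).card = w.countP fun s => eps s == z := by
  rw [← GE_cnt, Finset.card_filter]
  refine (GE_sub w (fun j => if eps (w.get j) = z then 1 else 0) fun j hj => ?_).symm
  rw [if_neg]
  rw [hj]
  exact fun h => hz h.symm

theorem gq_sum (w : Word) (x y : ℕ → ℕ → ℚ) : gq w x y = ∑ j : Xi w, (eps (w.get j.1) : ℚ) *
    (jmp (w.get j.1) (x j.1) (x (j.1 + 1)) * jmp (w.get j.1) (y j.1) (y (j.1 + 1))) := by
  rw [GE_gq]
  exact GE_sub w _ fun j hj => by rw [hj, Int.cast_zero, zero_mul]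

theorem qb_sum (w : Word) (x y : ℕ → ℕ → ℚ) : qb w x y = ∑ j : Xi w, (eps (w.get j.1) : ℚ) *
    (jmb (w.get j.1) (x j.1) (x (j.1 + 1)) * jmb (w.get j.1) (y j.1) (y (j.1 + 1))) := by
  rw [GE_qb]
  exact GE_sub w _ fun j hj => by rw [hj, Int.cast_zero, zero_mul]

theorem ob_sum (w : Word) (x y : ℕ → ℕ → ℚ) : ob w x y = ∑ j : Xi w, (-1) ^ lp (w.get j.1) *
    (jmp (w.get j.1) (x j.1) (x (j.1 + 1)) * jmb (w.get j.1) (y j.1) (y (j.1 + 1))) := by
  rw [GE_ob]
  exact GE_sub w _ fun j hj => by rw [GE_jmp _ hj, zero_mul, mul_zero]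

theorem eps_one (w : Word) (j : Xi w) : eps (w.get j.1) = 1 ∨ eps (w.get j.1) = -1 :=
  (GE_eps _).resolve_left j.2

theorem card_gd (w : Word) : (Finset.univ.filter fun j : Xi w => eps (w.get j.1) = 1).card = gd w :=
  GE_card 1 (by decide) w

theorem card_bd (w : Word) : (Finset.univ.filter fun j : Xi w => eps (w.get j.1) = -1).card = bd w :=
  GE_card (-1) (by decide) w

end Pool.Agent.Lib.MP_177a0e_gt.LT
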