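import Pool.Agent.Lib.MP_177a0e_gt.LT.GA
import Pool.Agent.Lib.MP_177a0e_gt.Sig.Kn

/-!
# the differences of odd regions and the differences of even regions are independent.
-/

namespace Pool.Agent.Lib.MP_177a0e_gt.LT

open Pool.Agent.Lib.MP_177a0e_gt.Tangle Pool.Agent.Lib.MP_177a0e_gt.Tangle.Gen
open Pool.Agent.Lib.MP_177a0e_gt.Sig
open Pool.Agent.Lib.MP_177a0e_gt.Des (Black blackM)

theorem GH_run (w : Word) : ∀ x y : ℕ → ℕ → ℚ, Run (fitM ℚ) w x → Run (fitM ℚ) w y →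
    (∀ j, x j ∈ whiteM ℚ) → (∀ j, y j ∈ blackM) →
    (∀ (j : ℕ) (hj : j < w.length), eps w[j] ≠ 0 → jmp w[j] (x j) (x (j + 1)) +
      eps w[j] * (-1) ^ lp w[j] * jmb w[j] (y j) (y (j + 1)) = 0) → Run (colM ℚ) w (x - y) := by
  induction w with
  | nil => intro x y _ _ _ _ _; trivial
  | cons s w ih =>
    intro x y hx hy hx' hy' h
    have e1 : sh 1 (x - y) = sh 1 x - sh 1 y := rfl
    refine ⟨⟨(fitM ℚ s).sub_mem hx.1 hy.1, ?_⟩, ?_⟩
    · have h0 := h 0 (by simp)
      simp only [List.getElem_cons_zero] at h0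
      rcases s with ⟨p, _ | _ | ⟨c, a, b⟩, q⟩
      · trivial
      · trivial
      · have a0 : ∀ i, i % 2 = 0 → x 0 i = 0 := hx' 0
        have a1 : ∀ i, i % 2 = 0 → x 1 i = 0 := hx' 1
        have b0 : ∀ i, i % 2 = 1 → y 0 i = 0 := hy' 0
        have b1 : ∀ i, i % 2 = 1 → y 1 i = 0 := hy' 1
        show (x - y) 1 (p.length + 1) - (x - y) 0 (p.length + 1) =
          (sz c : ℚ) * ((x - y) 0 p.length - (x - y) 0 (p.length + 2))
        simp only [Pi.sub_apply]
        rcases Nat.mod_two_eq_zero_or_one p.length with hp | hp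
        · have h6 : ((-1 : ℤ)) ^ p.length = 1 := Even.neg_one_pow (Nat.even_iff.mpr hp)
          have h6' : ((-1 : ℚ)) ^ p.length = 1 := Even.neg_one_pow (Nat.even_iff.mpr hp)
          rw [a0 p.length hp, a0 (p.length + 2) (by omega), b0 (p.length + 1) (by omega), b1 (p.length + 1) (by omega)]
          have h7 := h0 (by cases c <;> simp [eps, Sig.lp, h6, sz])
          simp only [jmp, jmb, eps, Sig.lp, h6, h6', hp, if_true] at h7
          cases c <;> simp [sz] at h7 ⊢ <;> linarith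
        · have h6 : ((-1 : ℤ)) ^ p.length = -1 := Odd.neg_one_pow (Nat.odd_iff.mpr hp)
          have h6' : ((-1 : ℚ)) ^ p.length = -1 := Odd.neg_one_pow (Nat.odd_iff.mpr hp)
          rw [a0 (p.length + 1) (by omega), a1 (p.length + 1) (by omega), b0 p.length hp, b0 (p.length + 2) (by omega)]
          have h7 := h0 (by cases c <;> simp [eps, Sig.lp, h6, sz])
          simp only [jmp, jmb, eps, Sig.lp, h6, h6', hp, one_ne_zero, if_false] at h7
          cases c <;> simp [sz] at h7 ⊢ <;> linarith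
    · rw [e1]
      refine ih (sh 1 x) (sh 1 y) hx.2 hy.2 (fun j => hx' (j + 1)) (fun j => hy' (j + 1)) fun j hj hj' => ?_
      have h1 := h (j + 1) (by simp; omega)
      simp only [List.getElem_cons_succ] at h1
      exact h1 hj'

theorem GH_inj {w : Word} (hw : IsKnot w) (x : White w) (y : Black w)
    (h : ∀ j : Xi w, jmp (w.get j.1) (x.1 j.1) (x.1 (j.1 + 1)) +
      eps (w.get j.1) * (-1) ^ lp (w.get j.1) * jmb (w.get j.1) (y.1 j.1) (y.1 (j.1 + 1)) = 0) : x = 0 ∧ y = 0 := by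
  have hD : Dehn ℚ w = ⊥ := Submodule.finrank_eq_zero.1 (nul_knot hw)
  have hx := x.2
  have hy := y.2
  have h1 : Run (colM ℚ) w (x.1 - y.1) := GH_run w x.1 y.1 hx.1.1 hy.1.1 hx.1.2.1 hy.1.2.1
    fun j hj hj' => h ⟨⟨j, hj⟩, hj'⟩
  have hmem : x.1 - y.1 ∈ Dehn ℚ w := by
    refine ⟨⟨h1, fun _ => Submodule.mem_top, fun j hj => ?_⟩, ?_⟩
    · rw [Pi.sub_apply, hx.1.2.2 j hj, hy.1.2.2 j hj, sub_zero]
    · rw [Pi.sub_apply, hx.2, hy.2, sub_zero]
  rw [hD, Submodule.mem_bot] at hmem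
  have hpt : ∀ j i, x.1 j i = 0 ∧ y.1 j i = 0 := by
    intro j i
    have h1 : x.1 j i - y.1 j i = 0 := congrFun (congrFun hmem j) i
    rcases Nat.mod_two_eq_zero_or_one i with hi | hi
    · have h2 : x.1 j i = 0 := hx.1.2.1 j i hi
      exact ⟨h2, by linarith⟩
    · have h2 : y.1 j i = 0 := hy.1.2.1 j i hi
      exact ⟨by linarith, h2⟩
  refine ⟨Subtype.ext ?_, Subtype.ext ?_⟩
  · funext j i
    exact (hpt j i).1
  · funext j i
    exact (hpt j i).2

end Pool.Agent.Lib.MP_177a0e_gt.LT
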