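import Pool.Agent.Lib.MP_177a0e_gt.LT.GB
import Pool.Agent.Lib.MP_177a0e_gt.LT.GD
import Pool.Agent.Lib.MP_177a0e_gt.LT.GE
import Pool.Agent.Lib.MP_177a0e_gt.LT.GH

/-!
# the sum of the signatures of the forms of the odd and of the even regions.
-/

namespace Pool.Agent.Lib.MP_177a0e_gt.LT

open Pool.Agent.Lib.MP_177a0e_gt.Tangle Pool.Agent.Lib.MP_177a0e_gt.Tangle.Gen
open Pool.Agent.Lib.MP_177a0e_gt.Sig
open Pool.Agent.Lib.MP_177a0e_gt.Des (Black cn nb nw)

/-- the form on the functions on the crossings -/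
noncomputable def GI_Q (w : Word) : LinearMap.BilinForm ℚ (Xi w → ℚ) :=
  LinearMap.mk₂ ℚ (fun u v => ∑ j : Xi w, (eps (w.get j.1) : ℚ) * (u j * v j))
    (fun u u' v => by
      rw [← Finset.sum_add_distrib]
      exact Finset.sum_congr rfl fun j _ => by rw [Pi.add_apply]; ring)
    (fun r u v => by
      rw [smul_eq_mul, Finset.mul_sum]
      exact Finset.sum_congr rfl fun j _ => by rw [Pi.smul_apply, smul_eq_mul]; ring)
    (fun u v v' => by
      rw [← Finset.sum_add_distrib]
      exact Finset.sum_congr rfl fun j _ => by rw [Pi.add_apply]; ring)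
    (fun r u v => by
      rw [smul_eq_mul, Finset.mul_sum]
      exact Finset.sum_congr rfl fun j _ => by rw [Pi.smul_apply, smul_eq_mul]; ring)

theorem GI_Q_apply (w : Word) (u v : Xi w → ℚ) :
    GI_Q w u v = ∑ j : Xi w, (eps (w.get j.1) : ℚ) * (u j * v j) := rfl

/-- the differences of the odd regions -/
def GI_J (w : Word) : White w →ₗ[ℚ] (Xi w → ℚ) where
  toFun x j := jmp (w.get j.1) (x.1 j.1) (x.1 (j.1 + 1))
  map_add' x y := by
    funext j
    exact jmp_add _ _ _ _ _
  map_smul' r x := by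
    funext j
    exact jmp_smul _ _ _ _

/-- the differences of the even regions -/
def GI_B (w : Word) : Black w →ₗ[ℚ] (Xi w → ℚ) where
  toFun y j := eps (w.get j.1) * (-1) ^ lp (w.get j.1) * jmb (w.get j.1) (y.1 j.1) (y.1 (j.1 + 1))
  map_add' x y := by
    funext j
    show _ * jmb _ (x.1 j.1 + y.1 j.1) (x.1 (j.1 + 1) + y.1 (j.1 + 1)) = _ + _
    rw [jmb_add, mul_add]
  map_smul' r x := by
    funext j
    show _ * jmb _ (r • x.1 j.1) (r • x.1 (j.1 + 1)) = r * _
    rw [jmb_smul]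
    ring

theorem GI_sq {w : Word} (j : Xi w) : (eps (w.get j.1) : ℚ) * eps (w.get j.1) = 1 := by
  rcases eps_one w j with h | h <;> rw [h] <;> norm_num

theorem GI_lp (l : ℕ) : ((-1 : ℚ)) ^ l * (-1) ^ l = 1 := by
  rw [← mul_pow]
  norm_num

theorem GI_JJ (w : Word) (x x' : White w) : GI_Q w (GI_J w x) (GI_J w x') = gw w x x' := by
  rw [GI_Q_apply]
  exact (gq_sum w x.1 x'.1).symm

theorem GI_BB (w : Word) (y y' : Black w) : GI_Q w (GI_B w y) (GI_B w y') = qb w y.1 y'.1 := by
  rw [GI_Q_apply, qb_sum]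
  refine Finset.sum_congr rfl fun j _ => ?_
  show (eps (w.get j.1) : ℚ) * ((eps (w.get j.1) * (-1) ^ lp (w.get j.1) * jmb (w.get j.1) (y.1 j.1) (y.1 (j.1 + 1))) *
    (eps (w.get j.1) * (-1) ^ lp (w.get j.1) * jmb (w.get j.1) (y'.1 j.1) (y'.1 (j.1 + 1)))) = _
  linear_combination (eps (w.get j.1) : ℚ) * (jmb (w.get j.1) (y.1 j.1) (y.1 (j.1 + 1))) *
    (jmb (w.get j.1) (y'.1 j.1) (y'.1 (j.1 + 1))) * ((-1) ^ lp (w.get j.1) * (-1) ^ lp (w.get j.1)) * GI_sq j +
    (eps (w.get j.1) : ℚ) * (jmb (w.get j.1) (y.1 j.1) (y.1 (j.1 + 1))) *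
    (jmb (w.get j.1) (y'.1 j.1) (y'.1 (j.1 + 1))) * GI_lp (lp (w.get j.1))

theorem GI_JB {w : Word} (hw : Valid [true] w [true]) (x : White w) (y : Black w) : GI_Q w (GI_J w x) (GI_B w y) = 0 := by
  rw [GI_Q_apply, ← orth hw x.1 y.1 x.2 y.2, ob_sum]
  refine Finset.sum_congr rfl fun j _ => ?_
  show (eps (w.get j.1) : ℚ) * (jmp (w.get j.1) (x.1 j.1) (x.1 (j.1 + 1)) *
    (eps (w.get j.1) * (-1) ^ lp (w.get j.1) * jmb (w.get j.1) (y.1 j.1) (y.1 (j.1 + 1)))) = _
  linear_combination (-1) ^ lp (w.get j.1) * (jmp (w.get j.1) (x.1 j.1) (x.1 (j.1 + 1)) *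
    jmb (w.get j.1) (y.1 j.1) (y.1 (j.1 + 1))) * GI_sq j

theorem GI_comm (w : Word) (u v : Xi w → ℚ) : GI_Q w u v = GI_Q w v u := by
  rw [GI_Q_apply, GI_Q_apply]
  exact Finset.sum_congr rfl fun j _ => by ring

theorem GI_sgQ (w : Word) : sg (GI_Q w) = (gd w : ℤ) - bd w := by
  classical
  have h : ∀ i j : Xi w, GI_Q w (Pi.basisFun ℚ (Xi w) i) (Pi.basisFun ℚ (Xi w) j) = if i = j then (eps (w.get i.1) : ℚ) else 0 := by
    intro i j
    rw [GI_Q_apply, Pi.basisFun_apply, Pi.basisFun_apply, Finset.sum_eq_single i]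
    · rw [Pi.single_eq_same]
      by_cases h : i = j
      · rw [if_pos h, h, Pi.single_eq_same]
        ring
      · rw [if_neg h, Pi.single_eq_of_ne h]
        ring
    · intro k _ hk
      rw [Pi.single_eq_of_ne hk]
      ring
    · intro h
      exact absurd (Finset.mem_univ i) h
  rw [sg_orth (Pi.basisFun ℚ (Xi w)) (fun i j hij => by rw [h, if_neg hij])]
  have h1 : (Finset.univ.filter fun i : Xi w => 0 < GI_Q w (Pi.basisFun ℚ (Xi w) i) (Pi.basisFun ℚ (Xi w) i)) =
      Finset.univ.filter fun j : Xi w => eps (w.get j.1) = 1 := by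
    refine Finset.filter_congr fun i _ => ?_
    rw [h, if_pos rfl]
    rcases eps_one w i with h2 | h2 <;> rw [h2] <;> norm_num
  have h2 : (Finset.univ.filter fun i : Xi w => GI_Q w (Pi.basisFun ℚ (Xi w) i) (Pi.basisFun ℚ (Xi w) i) < 0) =
      Finset.univ.filter fun j : Xi w => eps (w.get j.1) = -1 := by
    refine Finset.filter_congr fun i _ => ?_
    rw [h, if_pos rfl]
    rcases eps_one w i with h2 | h2 <;> rw [h2] <;> norm_num
  rw [h1, h2, card_gd, card_bd]

theorem GI_card (w : Word) : Fintype.card (Xi w) = cn w := by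
  classical
  rw [← gd_bd, ← card_gd, ← card_bd, ← Finset.card_univ,
    ← Finset.card_filter_add_card_filter_not (s := Finset.univ) (fun j : Xi w => eps (w.get j.1) = 1)]
  congr 2
  refine Finset.filter_congr fun i _ => ?_
  rcases eps_one w i with h2 | h2 <;> rw [h2] <;> norm_num

/-- the sum of the two signatures -/
theorem sg_sum {w : Word} (hw : IsKnot w) : sg (gw w) + sg (bw w) = (gd w : ℤ) - bd w := by
  have hinj : Function.Injective (LinearMap.coprod (GI_J w) (GI_B w)) := by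
    rw [← LinearMap.ker_eq_bot, LinearMap.ker_eq_bot']
    rintro ⟨x, y⟩ h
    have h1 := GH_inj hw x y fun j => congrFun h j
    rw [h1.1, h1.2]
    rfl
  have hdim : Module.finrank ℚ (White w × Black w) = Module.finrank ℚ (Xi w → ℚ) := by
    rw [Module.finrank_prod, Module.finrank_fintype_fun_eq_card, GI_card]
    exact le_antisymm (Des.le_cn (nul_knot hw)) (Des.cn_le hw.valid)
  let e : (White w × Black w) ≃ₗ[ℚ] (Xi w → ℚ) := LinearMap.linearEquivOfInjective _ hinj hdim
  rw [← GI_sgQ w]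
  refine (sg_prod (gw w) (fun x y => gform_symm w x.1 y.1) (bw w) (fun x y => qb_comm w x.1 y.1) (GI_Q w) e.symm fun z z' => ?_).symm
  obtain ⟨⟨x, y⟩, rfl⟩ := e.surjective z
  obtain ⟨⟨x', y'⟩, rfl⟩ := e.surjective z'
  rw [LinearEquiv.symm_apply_apply, LinearEquiv.symm_apply_apply]
  have h1 : e (x, y) = GI_J w x + GI_B w y := rfl
  have h2 : e (x', y') = GI_J w x' + GI_B w y' := rfl
  rw [h1, h2, map_add, map_add, LinearMap.add_apply, LinearMap.add_apply, GI_JJ, GI_JB hw.valid, GI_comm w (GI_B w y) (GI_J w x'),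
    GI_JB hw.valid, GI_BB]
  show _ = gw w x x' + qb w y.1 y'.1
  ring

/-- the form of the even regions is not degenerate -/
theorem bw_nondeg {w : Word} (hw : IsKnot w) (y : Black w) (h : ∀ y' : Black w, bw w y y' = 0) : y = 0 := by
  classical
  have hinj : Function.Injective (LinearMap.coprod (GI_J w) (GI_B w)) := by
    rw [← LinearMap.ker_eq_bot, LinearMap.ker_eq_bot']
    rintro ⟨x, y⟩ h
    have h1 := GH_inj hw x y fun j => congrFun h j
    rw [h1.1, h1.2]
    rfl
  have hdim : Module.finrank ℚ (White w × Black w) = Module.finrank ℚ (Xi w → ℚ) := by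
    rw [Module.finrank_prod, Module.finrank_fintype_fun_eq_card, GI_card]
    exact le_antisymm (Des.le_cn (nul_knot hw)) (Des.cn_le hw.valid)
  let e : (White w × Black w) ≃ₗ[ℚ] (Xi w → ℚ) := LinearMap.linearEquivOfInjective _ hinj hdim
  have h0 : ∀ u : Xi w → ℚ, GI_Q w (GI_B w y) u = 0 := by
    intro u
    obtain ⟨⟨x, y'⟩, rfl⟩ := e.surjective u
    have h2 : e (x, y') = GI_J w x + GI_B w y' := rfl
    rw [h2, map_add, GI_comm w (GI_B w y) (GI_J w x), GI_JB hw.valid, GI_BB, zero_add]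
    exact h y'
  have h1 : GI_B w y = 0 := by
    funext j
    have h2 := h0 (Pi.single j 1)
    rw [GI_Q_apply, Finset.sum_eq_single j] at h2
    · rw [Pi.single_eq_same, mul_one] at h2
      have h3 := GI_sq j
      show GI_B w y j = 0
      linear_combination (eps (w.get j.1) : ℚ) * h2 - (GI_B w y j) * h3
    · intro k _ hk
      rw [Pi.single_eq_of_ne hk]
      ring
    · intro h
      exact absurd (Finset.mem_univ j) h
  have h2 : LinearMap.coprod (GI_J w) (GI_B w) (0, y) = LinearMap.coprod (GI_J w) (GI_B w) (0, 0) := by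
    rw [LinearMap.coprod_apply, LinearMap.coprod_apply, h1, map_zero, map_zero]
  exact congrArg Prod.snd (hinj h2)

/-- the positive and the negative index of a form which is not degenerate -/
theorem ix_add {E : Type*} [AddCommGroup E] [Module ℚ E] [FiniteDimensional ℚ E] (B : LinearMap.BilinForm ℚ E)
    (hB : ∀ x y, B x y = B y x) (h : ∀ x, (∀ y, B x y = 0) → x = 0) : ix B + ix (-B) = Module.finrank ℚ E := by
  classical
  obtain ⟨v, hv⟩ := ex_orth hB
  have h1 : ∀ i j, i ≠ j → (-B) (v i) (v j) = 0 := by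
    intro i j hij
    rw [LinearMap.neg_apply, LinearMap.neg_apply, hv i j hij, neg_zero]
  have h2 : ∀ i, B (v i) (v i) ≠ 0 := by
    intro i h0
    refine v.ne_zero i (h _ fun y => ?_)
    rw [← v.sum_repr y, map_sum]
    refine Finset.sum_eq_zero fun j _ => ?_
    rw [map_smul]
    by_cases hij : i = j
    · rw [← hij, h0, smul_zero]
    · rw [hv i j hij, smul_zero]
  rw [ix_orth v hv, ix_orth v h1]
  have h3 : (Finset.univ.filter fun i => 0 < (-B) (v i) (v i)) =
      (Finset.univ.filter fun i => ¬ 0 < B (v i) (v i)) := by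
    refine Finset.filter_congr fun i _ => ?_
    rw [LinearMap.neg_apply, LinearMap.neg_apply, neg_pos, not_lt]
    exact ⟨le_of_lt, fun h4 => lt_of_le_of_ne h4 (h2 i)⟩
  rw [h3, Finset.card_filter_add_card_filter_not, Finset.card_univ, Fintype.card_fin]

/-- the signature of the form of the odd regions -/
theorem sg_ngi {w : Word} (hw : IsKnot w) : sg (gw w) + nb w = (gd w : ℤ) - bd w + 2 * ngi w := by
  have h1 := sg_sum hw
  have h2 := ix_add (bw w) (fun x y => qb_comm w x.1 y.1) (bw_nondeg hw)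
  have h3 : sg (bw w) = (ix (bw w) : ℤ) - ngi w := rfl
  have h4 : (ix (bw w) : ℤ) + ngi w = nb w := by exact_mod_cast h2
  linarith

end Pool.Agent.Lib.MP_177a0e_gt.LT
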