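import Pool.Agent.Lib.MP_177a0e_gt.LT.XD

/-!
# `T(2, 1)` is trivial.

PROOF. `tk_one`: `tk 1 = [⟨[true], cup true, []⟩, ⟨[], cross true true true, [false]⟩, ⟨[true], cap true, []⟩]`. `Rel.slide_cup false true true [] []` backwards: the first two become `⟨[], cup true, [true]⟩, ⟨[true], cross false false true, []⟩`; `Rel.r1_cap false false [true] []`: the last two become
`⟨[true], cap false, []⟩`; `Rel.zigzag₂ true [] []`. `tsum_ones`: induction on `k`.
-/

namespace Pool.Agent.Lib.MP_177a0e_gt.LT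

open Pool.Agent.Lib.MP_177a0e_gt.Tangle Pool.Agent.Lib.MP_177a0e_gt.Tangle.Gen
open Pool.Agent.Lib.MP_177a0e_gt.Sig

theorem tk_one : Cob [true] [true] 0 0 0 (tk 1) [] := by
  have e0 : tk 1 = [] ++ [⟨[true], cup true, []⟩, ⟨[], cross true true true, [false]⟩] ++
      [⟨[true], cap true, []⟩] := rfl
  have v0 : Valid [true] ([] ++ [⟨[true], cup true, []⟩, ⟨[], cross true true true, [false]⟩] ++
      [⟨[true], cap true, []⟩]) [true] := ⟨rfl, rfl, rfl, rfl⟩
  have v1 : Valid [true] ([] ++ [⟨[], cup true, [true]⟩, ⟨[true], cross false false true, []⟩] ++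
      [⟨[true], cap true, []⟩]) [true] := ⟨rfl, rfl, rfl, rfl⟩
  have l1 : Local Rel [true] [true]
      ([] ++ [⟨[], cup true, [true]⟩, ⟨[true], cross false false true, []⟩] ++
        [⟨[true], cap true, []⟩])
      ([] ++ [⟨[true], cup true, []⟩, ⟨[], cross true true true, [false]⟩] ++
        [⟨[true], cap true, []⟩]) :=
    Local.mk [] _ _ _ (Rel.slide_cup false true true [] []) v1 v0
  have v1' : Valid [true] ([⟨[], cup true, [true]⟩] ++
      [⟨[true], cross false false true, []⟩, ⟨[true], cap true, []⟩] ++ []) [true] :=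
    ⟨rfl, rfl, rfl, rfl⟩
  have v2 : Valid [true] ([⟨[], cup true, [true]⟩] ++ [⟨[true], cap false, []⟩] ++ []) [true] :=
    ⟨rfl, rfl, rfl⟩
  have l2 : Local Rel [true] [true] ([⟨[], cup true, [true]⟩] ++
      [⟨[true], cross false false true, []⟩, ⟨[true], cap true, []⟩] ++ [])
      ([⟨[], cup true, [true]⟩] ++ [⟨[true], cap false, []⟩] ++ []) :=
    Local.mk [⟨[], cup true, [true]⟩] _ _ [] (Rel.r1_cap false false [true] []) v1' v2
  have v2' : Valid [true] ([] ++ [⟨[], cup true, [true]⟩, ⟨[true], cap false, []⟩] ++ [])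
      [true] := ⟨rfl, rfl, rfl⟩
  have v3 : Valid [true] ([] ++ [] ++ []) [true] := rfl
  have l3 : Local Rel [true] [true]
      ([] ++ [⟨[], cup true, [true]⟩, ⟨[true], cap false, []⟩] ++ []) ([] ++ [] ++ []) :=
    Local.mk [] _ _ [] (Rel.zigzag₂ true [] []) v2' v3
  rw [e0]
  exact ((Cob.refl v0).iso (Or.inr l1)).iso (Or.inl l2) |>.iso (Or.inl l3)

theorem tsum_ones (k : ℕ) : Cob [true] [true] 0 0 0 (tsum (List.replicate k 1)) [] := by
  induction k with
  | zero => exact Cob.refl rfl
  | succ k ih =>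
    have e : tsum (List.replicate (k + 1) 1) = tk 1 ++ tsum (List.replicate k 1) := by
      simp [tsum, List.replicate_succ]
    rw [e]
    have hv : Valid [true] (tsum (List.replicate k 1)) [true] := ih.valid.1
    have h2 := tk_one.ctx (u := []) (v := tsum (List.replicate k 1)) (rfl : Valid [true] [] [true]) hv
    simp only [List.nil_append] at h2
    exact (h2.trans ih).cast (by omega) (by omega) (by omega)

end Pool.Agent.Lib.MP_177a0e_gt.LT
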