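import Pool.Agent.Lib.MP_177a0e_gt.LT.GC
import Pool.Agent.Lib.MP_177a0e_gt.LT.GI
import Pool.Agent.Lib.MP_177a0e_gt.LT.EZ
import Pool.Agent.Lib.MP_177a0e_gt.LT.XO

/-!
# the signature by a diagram, and the difference of the ribbon genus and the slice genus.
-/

namespace Pool.Agent.Lib.MP_177a0e_gt.LT

open Pool.Agent.Lib.MP_177a0e_gt.Tangle Pool.Agent.Lib.MP_177a0e_gt.Tangle.Gen
open Pool.Agent.Lib.MP_177a0e_gt.Sig
open Pool.Agent.Lib.MP_177a0e_gt.Des (Black cn nb nw)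

/-- the signature of a knot with the diagram `w` -/
theorem ind_sig {K w : Knot} (h : Cob [true] [true] 0 0 0 K.1 w.1) :
    signature K.1 + nblk w.1 + negw w.1 = posr w.1 + emax w.1 + 2 * ngi w.1 := by
  have h1 := sg_ngi w.2
  have h2 := corr_eq w.1
  have h3 : nb w.1 + emax w.1 = nblk w.1 := nb_eq w.2
  have k2 := sgn_movie sgn_signature (K := K) (L := w) (g := 0) (d := 0) h
  rw [abs_le] at k2
  have h4 : signature w.1 = sg (gw w.1) - corr w.1 := rfl
  have h5 : (nb w.1 : ℤ) + emax w.1 = nblk w.1 := by exact_mod_cast h3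
  have h6 : signature K.1 = signature w.1 := by
    have h7 := k2.1
    have h8 := k2.2
    push_cast at h7 h8
    change -(4 * 0) ≤ 2 * signature K.1 - 2 * signature w.1 at h7
    change 2 * signature K.1 - 2 * signature w.1 ≤ 4 * 0 at h8
    linarith
  rw [h6, h4]
  linarith

/-- `K # -K` is ribbon -/
theorem ribbon_diff (K : Knot) : ribbonGenus (csum K.1 (adj K.1)) = 0 :=
  Nat.le_zero.1 (Nat.sInf_le ⟨caps K.1, cob_adj' K.2.valid⟩)

/-- sums with a knot `J` such that `L # J` is ribbon -/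
theorem drop_sum {F : Word → ℤ} (hF : Sgn F) {g : ℕ} {K L : Knot} (J : Knot) (h : Drop F g K L) :
    (ribbonGenus (csum L.1 J.1) = 0 → ribbonGenus (csum K.1 J.1) = g ∧ sliceGenus (csum K.1 J.1) = g) ∧
      (sliceGenus (csum L.1 J.1) = 0 → sliceGenus (csum K.1 J.1) = g) :=
  ⟨fun h' => drop_ribbon hF (h.right hF J) h', fun h' => drop_slice hF (h.right hF J) h'⟩

/-- a movie without births along which the signature drops by `4 (g - N)` -/
theorem cob_gap {F : Word → ℤ} (hF : Sgn F) {K L : Knot} {g N : ℕ} (h : Cob [true] [true] 0 (2 * g) 0 K.1 L.1)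
    (e : F K.1 + 4 * N = F L.1 + 4 * g) (J : Knot) (hJ : ribbonGenus (csum L.1 J.1) = 0) :
    ribbonGenus (csum K.1 J.1) ≤ g ∧ g ≤ sliceGenus (csum K.1 J.1) + N := by
  obtain ⟨d, h1⟩ := boundsRibbon_ribbonGenus (L.csum J)
  change Cob [true] [true] 0 (d + 2 * ribbonGenus (csum L.1 J.1)) d (L.1 ++ J.1) [] at h1
  rw [hJ] at h1
  have h2 : BoundsRibbon (K.1 ++ J.1) g :=
    ⟨d, ((h.ctx (u := []) valid_nil J.2.valid).trans h1).cast rfl (by ring) (by ring)⟩
  have h3 : ribbonGenus (K.1 ++ J.1) ≤ g := Nat.sInf_le h2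
  have h4 := sgn_slice hF (K.csum J)
  have h5 := sgn_slice hF (L.csum J)
  have h6 := sliceGenus_le_ribbonGenus (L.csum J)
  have h7 := sgn_append hF K J
  have h8 := sgn_append hF L J
  change |F (K.1 ++ J.1)| ≤ 4 * (sliceGenus (K.1 ++ J.1) : ℤ) at h4
  change |F (L.1 ++ J.1)| ≤ 4 * (sliceGenus (L.1 ++ J.1) : ℤ) at h5
  change sliceGenus (L.1 ++ J.1) ≤ ribbonGenus (csum L.1 J.1) at h6
  change F (K.1 ++ J.1) = F K.1 + F J.1 at h7
  change F (L.1 ++ J.1) = F L.1 + F J.1 at h8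
  rw [hJ] at h6
  have h9 : sliceGenus (L.1 ++ J.1) = 0 := Nat.le_zero.1 h6
  rw [h9] at h5
  have h10 : F (L.1 ++ J.1) = 0 := abs_nonpos_iff.1 (by simpa using h5)
  refine ⟨h3, ?_⟩
  rw [abs_le] at h4
  have h11 : (g : ℤ) ≤ sliceGenus (K.1 ++ J.1) + N := by linarith [h4.2]
  exact_mod_cast h11

/-- the movie from `T(2, m)` to a knot with the diagram `w` -/
theorem ind_above {T K w : Knot} {m : ℕ} (h : Cob [true] [true] 0 0 0 K.1 w.1) (hn : posr w.1 ≤ m) (hm : m % 2 = 1)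
    (hT : T.1 = tk m) :
    ∃ g : ℕ, 2 * g + signature K.1 + 1 = m + 2 * ngi w.1 ∧ Cob [true] [true] 0 (2 * g) 0 T.1 K.1 ∧
      (∀ J : Knot, ribbonGenus (csum K.1 J.1) = 0 →
        ribbonGenus (csum T.1 J.1) ≤ g ∧ g ≤ sliceGenus (csum T.1 J.1) + ngi w.1) ∧
      (ngi w.1 = 0 → Drop (fun w => 2 * signature w) g T K) := by
  obtain ⟨g, e1, c1, d1⟩ := gen_above h hn hm hT
  have h1 := ind_sig h
  have e2 : (2 * g + posr w.1 + emax w.1 + 1 : ℤ) = nblk w.1 + negw w.1 + m := by exact_mod_cast e1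
  have e3 : 2 * g + signature K.1 + 1 = m + 2 * ngi w.1 := by linarith
  have k4 := signature_tk hm
  rw [← hT] at k4
  exact ⟨g, e3, c1, cob_gap sgn_signature (N := ngi w.1) c1 (by
    show 2 * signature T.1 + 4 * (ngi w.1 : ℤ) = 2 * signature K.1 + 4 * g
    linarith), fun h3 => d1 (by rw [h1, h3]; push_cast; ring)⟩

/-- the movie from a knot whose mirror image has the diagram `w` to `-T(2, n)` -/
theorem ind_below {K L w : Knot} {n : ℕ} (h : Cob [true] [true] 0 0 0 (adj K.1) w.1) (h' : posr w.1 ≤ n)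
    (hn : n % 2 = 1) (hL : L.1 = adj (tk n)) :
    ∃ g : ℕ, 2 * g + 1 = n + signature K.1 + 2 * ngi w.1 ∧ Cob [true] [true] 0 (2 * g) 0 K.1 L.1 ∧
      (∀ J : Knot, ribbonGenus (csum L.1 J.1) = 0 →
        ribbonGenus (csum K.1 J.1) ≤ g ∧ g ≤ sliceGenus (csum K.1 J.1) + ngi w.1) ∧
      (ngi w.1 = 0 → Drop (fun w => 2 * signature w) g K L) := by
  obtain ⟨g, e1, c1, d1⟩ := gen_below (K := K) h h' hn hL
  have h1 := ind_sig (K := K.mirror) h
  have s1 := sgn_adj sgn_signature K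
  have s2 : (2 : ℤ) * signature K.mirror.1 = -(2 * signature K.1) := s1
  have e2 : (2 * g + posr w.1 + emax w.1 + 1 : ℤ) = nblk w.1 + negw w.1 + n := by exact_mod_cast e1
  have e3 : 2 * g + 1 = n + signature K.1 + 2 * ngi w.1 := by linarith
  have k4 := signature_adj_tk hn
  rw [← hL] at k4
  refine ⟨g, e3, c1, cob_gap sgn_signature (N := ngi w.1) c1 (by
    show 2 * signature K.1 + 4 * (ngi w.1 : ℤ) = 2 * signature L.1 + 4 * g
    linarith), fun h3 => d1 ?_⟩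
  rw [h3] at h1
  push_cast at h1
  linarith

/-- the trivial knot -/
private def GG_triv : Knot := ⟨[], Relation.EqvGen.refl _⟩

private theorem GG_zero : signature ([] : Word) = 0 := by
  have h4 := sgn_adj sgn_signature GG_triv
  have h5 : (2 : ℤ) * signature ([] : Word) = -(2 * signature ([] : Word)) := h4
  linarith

/-- an alternating diagram with the crossings of the right type -/
theorem ngi_alt {K v : Knot} (h : Cob [true] [true] 0 0 0 K.1 v.1) (h' : Des.Alternating true v.1) : ngi v.1 = 0 := by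
  have h1 := gen_alt h h'
  have h2 := ind_sig h
  omega

/-- every knot `J`, and every diagram `w` of a knot `K` such that `K # J` is ribbon -/
theorem ind_triv {J K w : Knot} (h : Cob [true] [true] 0 0 0 K.1 w.1) (hJ : ribbonGenus (csum K.1 J.1) = 0) :
    ∃ g : ℕ, 2 * g + signature K.1 = 2 * ngi w.1 + 4 * (posr w.1 / 2 : ℕ) ∧ ribbonGenus J.1 ≤ g ∧
      g ≤ sliceGenus J.1 + ngi w.1 + 2 * (posr w.1 / 2) := by
  obtain ⟨q, hq⟩ : ∃ q, posr w.1 / 2 = q := ⟨_, rfl⟩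
  have hm : (2 * q + 1) % 2 = 1 := by omega
  obtain ⟨g, e1, c1, -⟩ := ind_above (T := ⟨tk (2 * q + 1), tk_knot _ hm⟩) h (by omega) hm rfl
  obtain ⟨g', e2, c2, -⟩ := ind_above (T := ⟨tk (2 * q + 1), tk_knot _ hm⟩) (K := GG_triv) (w := GG_triv)
    (Cob.refl rfl) (Nat.zero_le _) hm rfl
  have h0 : ngi GG_triv.1 = 0 := ngi_alt (K := GG_triv) (Cob.refl rfl) fun t ht => absurd ht (List.not_mem_nil)
  rw [h0] at e2
  change 2 * g' + signature ([] : Word) + 1 = ((2 * q + 1 : ℕ) : ℤ) + 2 * ((0 : ℕ) : ℤ) at e2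
  rw [GG_zero] at e2
  push_cast at e1 e2
  have c3 : Cob [true] [true] 0 (2 * (g' + g)) 0 GG_triv.1 K.1 := (c2.symm.trans c1).cast rfl (by ring) rfl
  rw [hq]
  have e3 : 2 * ((g' + g : ℕ) : ℤ) + signature K.1 = 2 * ngi w.1 + 4 * (q : ℕ) := by
    push_cast
    linarith
  have h5 := cob_gap sgn_signature (N := ngi w.1 + 2 * q) c3 (by
    show 2 * signature ([] : Word) + 4 * ((ngi w.1 + 2 * q : ℕ) : ℤ) = 2 * signature K.1 + 4 * ((g' + g : ℕ) : ℤ)
    rw [GG_zero]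
    push_cast at e3 ⊢
    linarith) J hJ
  change ribbonGenus J.1 ≤ g' + g ∧ g' + g ≤ sliceGenus J.1 + (ngi w.1 + 2 * q) at h5
  exact ⟨g' + g, e3, h5.1, by omega⟩

/-- sums of alternating knots with at most one positive crossing -/
theorem alt_triv (D : List Word) (J K : Knot) (hD : ∀ w ∈ D, IsKnot w ∧ ∃ e : Bool, Des.Alternating e w)
    (hK : K.1 = D.flatten) (h1 : npos K.1 ≤ 1) (hJ : ribbonGenus (csum K.1 J.1) = 0) :
    ∃ g : ℕ, 2 * g + signature K.1 = 0 ∧ ribbonGenus J.1 = g ∧ sliceGenus J.1 = g := by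
  obtain ⟨v, i1, i2, i3, i4, i5⟩ := sum_alt D hD
  rw [← hK] at i2 i4
  obtain ⟨g, e1, e2, e3⟩ := ind_triv (w := ⟨v, i1⟩) i2 hJ
  have h2 := ngi_alt (v := ⟨v, i1⟩) i2 i3
  have h4 : posr v / 2 = 0 := by rw [alt_posr i3]; omega
  change ngi v = 0 at h2
  change 2 * g + signature K.1 = 2 * (ngi v : ℤ) + 4 * (posr v / 2 : ℕ) at e1
  change g ≤ sliceGenus J.1 + ngi v + 2 * (posr v / 2) at e3
  have h3 := sliceGenus_le_ribbonGenus J
  rw [h2, h4] at e1 e3
  exact ⟨g, by simpa using e1, by omega, by omega⟩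

end Pool.Agent.Lib.MP_177a0e_gt.LT
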