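import Pool.Agent.Lib.MP_177a0e_gt.LT.Defs

/-!
# the form: interchange.

MODEL: `Sig/VI.lean` (white states, proved); here all levels are in `⊤`.
PROOF. Put `c = |p| + |g.src| + |q|`, `c' = |p| + |g.tgt| + |q|`. A state of the left side is `(t 0, t 1, t 2)` (zero beyond). `Φ` keeps `t 0` and `t 2` and replaces `t 1` by `i ↦ if i ≤ c then t 0 i else t 2 (i + |g.tgt| - |g.src|)`; the inverse replaces the middle level by
`i ↦ if i ≤ c' then t 2 i else t 0 (i + |g.src| - |g.tgt|)`. The form: a crossing has the same sign `sn` on both sides (it depends only on the letters), and the same values: `kA`, `kB` use the values at the gaps `L`, `L + 1`, `L + 2` below and `L + 1` above, `L` the position.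
-/

namespace Pool.Agent.Lib.MP_177a0e_gt.LT

open Pool.Agent.Lib.MP_177a0e_gt.Tangle Pool.Agent.Lib.MP_177a0e_gt.Tangle.Gen
open Pool.Agent.Lib.MP_177a0e_gt.Sig

/-- the relation of the levels of a state -/
private def KI_S (P Q a b a' b' : ℕ) (x0 x1 x2 : ℕ → ℚ) : Prop :=
  (∀ i, i ≤ P → x1 i = x0 i) ∧ (∀ i, P ≤ i → x1 (i + b) = x0 (i + a)) ∧
    (∀ i, i ≤ P + b + Q → x2 i = x1 i) ∧ ∀ i, P + b + Q ≤ i → x2 (i + b') = x1 (i + a')

/-- the new middle level -/
private def KI_mid (c a b : ℕ) (x y : ℕ → ℚ) : ℕ → ℚ := fun i => if i ≤ c then x i else y (i + b - a)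

private theorem KI_swap {P Q a b a' b' : ℕ} {x0 x1 x2 : ℕ → ℚ} (h : KI_S P Q a b a' b' x0 x1 x2) :
    KI_S P Q b a b' a' x2 (KI_mid (P + a + Q) a b x0 x2) x0 := by
  obtain ⟨h1, h2, h3, h4⟩ := h
  refine ⟨fun i hi => ?_, fun i hi => ?_, fun i hi => ?_, fun i hi => ?_⟩
  · unfold KI_mid
    rw [if_pos (by omega), h3 i (by omega), h1 i hi]
  · unfold KI_mid
    by_cases hc : i + a ≤ P + a + Q
    · rw [if_pos hc, ← h2 i hi, h3 (i + b) (by omega)]
    · rw [if_neg hc]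
      congr 1
      omega
  · unfold KI_mid
    rw [if_pos hi]
  · unfold KI_mid
    by_cases hc : i + b' ≤ P + a + Q
    · rw [if_pos hc]
      obtain ⟨hb, hi2⟩ : b' = 0 ∧ i = P + a + Q := by omega
      subst hb
      subst hi2
      have e1 := h2 (P + Q + a') (by omega)
      have e2 := h4 (P + b + Q) le_rfl
      have e3 := h3 (P + b + Q) le_rfl
      have e4 := h2 (P + Q) (by omega)
      have k1 : P + Q + a' + b = P + b + Q + a' := by omega
      have k2 : P + Q + a' + a = P + a + Q + a' := by omega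
      have k3 : P + Q + b = P + b + Q := by omega
      have k4 : P + Q + a = P + a + Q := by omega
      rw [k1, k2] at e1
      rw [k3, k4] at e4
      rw [← e1, ← e2, add_zero, e3, e4, add_zero]
    · rw [if_neg hc]
      obtain ⟨k, rfl⟩ := Nat.exists_eq_add_of_le hi
      have e1 := h2 (P + Q + k + a') (by omega)
      have e2 := h4 (P + b + Q + k) (by omega)
      have k1 : P + Q + k + a' + b = P + b + Q + k + a' := by omega
      have k2 : P + Q + k + a' + a = P + a + Q + k + a' := by omega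
      have k3 : P + a + Q + k + b' + b - a = P + b + Q + k + b' := by omega
      rw [k1, k2] at e1
      rw [k3, ← e1, ← e2]

private theorem KI_det {P Q a b a' b' : ℕ} {x0 x1 x2 : ℕ → ℚ} (h : KI_S P Q a b a' b' x0 x1 x2) :
    KI_mid (P + b + Q) b a x2 x0 = x1 := by
  obtain ⟨h1, h2, h3, h4⟩ := h
  funext i
  unfold KI_mid
  by_cases hc : i ≤ P + b + Q
  · rw [if_pos hc, h3 i hc]
  · rw [if_neg hc]
    have e := h2 (i - b) (by omega)
    have k1 : i - b + b = i := by omega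
    have k2 : i - b + a = i + a - b := by omega
    rw [k1, k2] at e
    exact e.symm

private theorem KI_fit (s : Slice) (x y : ℕ → ℚ) : Fit s x y ↔ (∀ i, i ≤ lp s → y i = x i) ∧
    ∀ i, lp s ≤ i → y (i + s.gen.tgt.length) = x (i + s.gen.src.length) := by
  rcases s with ⟨p, _ | _ | ⟨c, u, v⟩, q⟩
  · exact Iff.rfl
  · constructor
    · exact fun h => ⟨fun i hi => (h.1 i hi).symm, fun i hi => (h.2 i hi).symm⟩
    · exact fun h => ⟨fun i hi => (h.1 i hi).symm, fun i hi => (h.2 i hi).symm⟩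
  · constructor
    · exact fun h => ⟨fun i hi => h i (by omega), fun i hi => h (i + 2) (by omega)⟩
    · intro h i hi
      by_cases hc : i ≤ lp ⟨p, cross c u v, q⟩
      · exact h.1 i hc
      · have e : y (i - 2 + 2) = x (i - 2 + 2) := h.2 (i - 2) (by omega)
        have k : i - 2 + 2 = i := by omega
        rw [k] at e
        exact e

private theorem KI_memA (g g' : Gen) (p q r : List Bool) (t : ℕ → ℕ → ℚ) :
    t ∈ Sr [⟨p, g, q ++ g'.src ++ r⟩, ⟨p ++ g.tgt ++ q, g', r⟩] ↔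
      KI_S p.length q.length g.src.length g.tgt.length g'.src.length g'.tgt.length (t 0) (t 1) (t 2) ∧
        ∀ j, 2 < j → t j = 0 := by
  have h1 : t ∈ Sr [⟨p, g, q ++ g'.src ++ r⟩, ⟨p ++ g.tgt ++ q, g', r⟩] ↔
      (Fit ⟨p, g, q ++ g'.src ++ r⟩ (t 0) (t 1) ∧ Fit ⟨p ++ g.tgt ++ q, g', r⟩ (t 1) (t 2) ∧ True) ∧
        (∀ j, t j ∈ (⊤ : Submodule ℚ (ℕ → ℚ))) ∧ ∀ j, 2 < j → t j = 0 := Iff.rfl
  have hT : ∀ j, t j ∈ (⊤ : Submodule ℚ (ℕ → ℚ)) := fun j => Submodule.mem_top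
  rw [h1, KI_fit, KI_fit]
  have e1 : lp ⟨p, g, q ++ g'.src ++ r⟩ = p.length := rfl
  have e2 : lp ⟨p ++ g.tgt ++ q, g', r⟩ = p.length + g.tgt.length + q.length := by
    show (p ++ g.tgt ++ q).length = _
    rw [List.length_append, List.length_append]
  rw [e1, e2]
  unfold KI_S
  tauto

private theorem KI_memB (g g' : Gen) (p q r : List Bool) (t : ℕ → ℕ → ℚ) :
    t ∈ Sr [⟨p ++ g.src ++ q, g', r⟩, ⟨p, g, q ++ g'.tgt ++ r⟩] ↔
      KI_S p.length q.length g.tgt.length g.src.length g'.tgt.length g'.src.length (t 2) (t 1) (t 0) ∧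
        ∀ j, 2 < j → t j = 0 := by
  have h1 : t ∈ Sr [⟨p ++ g.src ++ q, g', r⟩, ⟨p, g, q ++ g'.tgt ++ r⟩] ↔
      (Fit ⟨p ++ g.src ++ q, g', r⟩ (t 0) (t 1) ∧ Fit ⟨p, g, q ++ g'.tgt ++ r⟩ (t 1) (t 2) ∧ True) ∧
        (∀ j, t j ∈ (⊤ : Submodule ℚ (ℕ → ℚ))) ∧ ∀ j, 2 < j → t j = 0 := Iff.rfl
  have hT : ∀ j, t j ∈ (⊤ : Submodule ℚ (ℕ → ℚ)) := fun j => Submodule.mem_top
  rw [h1, KI_fit, KI_fit]
  have e1 : lp ⟨p, g, q ++ g'.tgt ++ r⟩ = p.length := rfl
  have e2 : lp ⟨p ++ g.src ++ q, g', r⟩ = p.length + g.src.length + q.length := by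
    show (p ++ g.src ++ q).length = _
    rw [List.length_append, List.length_append]
  rw [e1, e2]
  have e3 : ∀ (A B : ℕ → ℚ) (S : ℕ → Prop), (∀ i, S i → A i = B i) ↔ ∀ i, S i → B i = A i :=
    fun A B S => ⟨fun h i hi => (h i hi).symm, fun h i hi => (h i hi).symm⟩
  unfold KI_S
  rw [e3 (t 1) (t 0) (fun i => i ≤ p.length + g.src.length + q.length),
    e3 (fun i => t 1 (i + g'.tgt.length)) (fun i => t 0 (i + g'.src.length))
      (fun i => p.length + g.src.length + q.length ≤ i),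
    e3 (t 2) (t 1) (fun i => i ≤ p.length),
    e3 (fun i => t 2 (i + g.tgt.length)) (fun i => t 1 (i + g.src.length)) (fun i => p.length ≤ i)]
  tauto

/-- the new state -/
private def KI_F (u v c a b : ℕ) (t : ℕ → ℕ → ℚ) : ℕ → ℕ → ℚ :=
  fun j => if j = 1 then KI_mid c a b (t u) (t v) else t j

private theorem KI_F_add (u v c a b : ℕ) (t t' : ℕ → ℕ → ℚ) :
    KI_F u v c a b (t + t') = KI_F u v c a b t + KI_F u v c a b t' := by
  funext j i
  show (if j = 1 then KI_mid c a b ((t + t') u) ((t + t') v) else (t + t') j) i =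
    (if j = 1 then KI_mid c a b (t u) (t v) else t j) i + (if j = 1 then KI_mid c a b (t' u) (t' v) else t' j) i
  split_ifs with hj
  · unfold KI_mid
    split_ifs
    · rfl
    · rfl
  · rfl

private theorem KI_F_smul (u v c a b : ℕ) (k : ℚ) (t : ℕ → ℕ → ℚ) :
    KI_F u v c a b (k • t) = k • KI_F u v c a b t := by
  funext j i
  show (if j = 1 then KI_mid c a b ((k • t) u) ((k • t) v) else (k • t) j) i =
    k * (if j = 1 then KI_mid c a b (t u) (t v) else t j) i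
  split_ifs with hj
  · unfold KI_mid
    split_ifs
    · rfl
    · rfl
  · rfl

private theorem KI_F_top {u v c a b : ℕ} {t : ℕ → ℕ → ℚ} (ht : ∀ j, 2 < j → t j = 0) (j : ℕ) (hj : 2 < j) :
    KI_F u v c a b t j = 0 := by
  show (if j = 1 then KI_mid c a b (t u) (t v) else t j) = 0
  rw [if_neg (by omega), ht j hj]

private theorem KI_F_0 (u v c a b : ℕ) (t : ℕ → ℕ → ℚ) : KI_F u v c a b t 0 = t 0 := rfl

private theorem KI_F_1 (u v c a b : ℕ) (t : ℕ → ℕ → ℚ) :
    KI_F u v c a b t 1 = KI_mid c a b (t u) (t v) := rfl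

private theorem KI_F_2 (u v c a b : ℕ) (t : ℕ → ℕ → ℚ) : KI_F u v c a b t 2 = t 2 := rfl

private theorem KI_F_F {c a b c' a' b' : ℕ} {t : ℕ → ℕ → ℚ} (u v u' v' : ℕ) (hu : u ≠ 1) (hv : v ≠ 1)
    (h : KI_mid c a b (t u) (t v) = t 1) :
    KI_F u v c a b (KI_F u' v' c' a' b' t) = t := by
  funext j
  by_cases hj : j = 1
  · subst hj
    rw [KI_F_1]
    have e1 : KI_F u' v' c' a' b' t u = t u := if_neg hu
    have e2 : KI_F u' v' c' a' b' t v = t v := if_neg hv
    rw [e1, e2, h]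
  · have e1 : ∀ t' : ℕ → ℕ → ℚ, KI_F u v c a b t' j = t' j := fun t' => if_neg hj
    have e2 : KI_F u' v' c' a' b' t j = t j := if_neg hj
    rw [e1, e2]

/-- the two functionals at a crossing depend only on four values -/
private theorem KI_loc (c : ℚ) (g : Gen) (p q p' q' : List Bool) {x y x' y' : ℕ → ℚ}
    (h : g.src.length = 2 → g.tgt.length = 2 →
      x p.length = x' p'.length ∧ x (p.length + 1) = x' (p'.length + 1) ∧
      x (p.length + 2) = x' (p'.length + 2) ∧ y (p.length + 1) = y' (p'.length + 1)) :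
    kA c ⟨p, g, q⟩ x y = kA c ⟨p', g, q'⟩ x' y' ∧ kB ⟨p, g, q⟩ x y = kB ⟨p', g, q'⟩ x' y' := by
  rcases g with _ | _ | ⟨s, a, b⟩
  · exact ⟨rfl, rfl⟩
  · exact ⟨rfl, rfl⟩
  · obtain ⟨e1, e2, e3, e4⟩ := h rfl rfl
    constructor
    · show (if a = b then x p.length + x (p.length + 2) + c * (y (p.length + 1) + x (p.length + 1))
        else y (p.length + 1) + x (p.length + 1) + c * (x p.length + x (p.length + 2))) =
        (if a = b then x' p'.length + x' (p'.length + 2) + c * (y' (p'.length + 1) + x' (p'.length + 1))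
        else y' (p'.length + 1) + x' (p'.length + 1) + c * (x' p'.length + x' (p'.length + 2)))
      rw [e1, e2, e3, e4]
    · show (if a = b then y (p.length + 1) - x (p.length + 1) else x p.length - x (p.length + 2)) =
        (if a = b then y' (p'.length + 1) - x' (p'.length + 1) else x' p'.length - x' (p'.length + 2))
      rw [e1, e2, e3, e4]

private theorem KI_sn (g : Gen) (p q p' q' : List Bool) : sn ⟨p, g, q⟩ = sn ⟨p', g, q'⟩ := rfl

private theorem KI_1 (c : ℚ) (g : Gen) (p q q' : List Bool) (Q a' b' : ℕ) {x0 x1 x2 : ℕ → ℚ}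
    (h : KI_S p.length Q g.src.length g.tgt.length a' b' x0 x1 x2) :
    kA c ⟨p, g, q⟩ (KI_mid (p.length + g.src.length + Q) g.src.length g.tgt.length x0 x2) x2 =
      kA c ⟨p, g, q'⟩ x0 x1 ∧
    kB ⟨p, g, q⟩ (KI_mid (p.length + g.src.length + Q) g.src.length g.tgt.length x0 x2) x2 =
      kB ⟨p, g, q'⟩ x0 x1 := by
  obtain ⟨h1, h2, h3, h4⟩ := h
  apply KI_loc
  intro hs ht
  refine ⟨?_, ?_, ?_, ?_⟩
  · unfold KI_mid
    rw [if_pos (by omega)]
  · unfold KI_mid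
    rw [if_pos (by omega)]
  · unfold KI_mid
    rw [if_pos (by omega)]
  · exact h3 _ (by omega)

private theorem KI_2 (c : ℚ) (g' : Gen) (P Q a b : ℕ) (p q p' q' : List Bool)
    (hp : p.length = P + b + Q) (hp' : p'.length = P + a + Q) {x0 x1 x2 : ℕ → ℚ}
    (h : KI_S P Q a b g'.src.length g'.tgt.length x0 x1 x2) :
    kA c ⟨p', g', q'⟩ x0 (KI_mid (P + a + Q) a b x0 x2) = kA c ⟨p, g', q⟩ x1 x2 ∧
    kB ⟨p', g', q'⟩ x0 (KI_mid (P + a + Q) a b x0 x2) = kB ⟨p, g', q⟩ x1 x2 := by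
  obtain ⟨h1, h2, h3, h4⟩ := h
  apply KI_loc
  intro _ _
  have e1 := h2 (P + Q) (by omega)
  have e2 := h2 (P + Q + 1) (by omega)
  have e3 := h2 (P + Q + 2) (by omega)
  have k1 : P + Q + b = P + b + Q := by omega
  have k2 : P + Q + a = P + a + Q := by omega
  have k3 : P + Q + 1 + b = P + b + Q + 1 := by omega
  have k4 : P + Q + 1 + a = P + a + Q + 1 := by omega
  have k5 : P + Q + 2 + b = P + b + Q + 2 := by omega
  have k6 : P + Q + 2 + a = P + a + Q + 2 := by omega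
  rw [k1, k2] at e1
  rw [k3, k4] at e2
  rw [k5, k6] at e3
  rw [hp, hp']
  refine ⟨e1.symm, e2.symm, e3.symm, ?_⟩
  unfold KI_mid
  rw [if_neg (by omega)]
  congr 1
  omega

theorem k_inter (c : ℚ) (g g' : Gen) (p q r : List Bool) :
    KIso c [⟨p, g, q ++ g'.src ++ r⟩, ⟨p ++ g.tgt ++ q, g', r⟩] [⟨p ++ g.src ++ q, g', r⟩, ⟨p, g, q ++ g'.tgt ++ r⟩] := by
  have hAB : ∀ t : ℕ → ℕ → ℚ, t ∈ Sr [⟨p, g, q ++ g'.src ++ r⟩, ⟨p ++ g.tgt ++ q, g', r⟩] →
      KI_F 0 2 (p.length + g.src.length + q.length) g.src.length g.tgt.length t ∈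
        Sr [⟨p ++ g.src ++ q, g', r⟩, ⟨p, g, q ++ g'.tgt ++ r⟩] := by
    intro t ht
    rw [KI_memA] at ht
    rw [KI_memB]
    refine ⟨?_, KI_F_top ht.2⟩
    rw [KI_F_0, KI_F_1, KI_F_2]
    exact KI_swap ht.1
  have hBA : ∀ t : ℕ → ℕ → ℚ, t ∈ Sr [⟨p ++ g.src ++ q, g', r⟩, ⟨p, g, q ++ g'.tgt ++ r⟩] →
      KI_F 2 0 (p.length + g.tgt.length + q.length) g.tgt.length g.src.length t ∈
        Sr [⟨p, g, q ++ g'.src ++ r⟩, ⟨p ++ g.tgt ++ q, g', r⟩] := by
    intro t ht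
    rw [KI_memB] at ht
    rw [KI_memA]
    refine ⟨?_, KI_F_top ht.2⟩
    rw [KI_F_0, KI_F_1, KI_F_2]
    exact KI_swap ht.1
  refine ⟨{
    toFun := fun t => ⟨KI_F 0 2 (p.length + g.src.length + q.length) g.src.length g.tgt.length t.1, hAB t.1 t.2⟩
    map_add' := fun t t' => Subtype.ext (KI_F_add _ _ _ _ _ t.1 t'.1)
    map_smul' := fun k t => Subtype.ext (KI_F_smul _ _ _ _ _ k t.1)
    invFun := fun t => ⟨KI_F 2 0 (p.length + g.tgt.length + q.length) g.tgt.length g.src.length t.1, hBA t.1 t.2⟩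
    left_inv := fun t => Subtype.ext (KI_F_F 2 0 0 2 (by omega) (by omega) (KI_det ((KI_memA g g' p q r t.1).1 t.2).1))
    right_inv := fun t => Subtype.ext
      (KI_F_F 0 2 2 0 (by omega) (by omega) (KI_det ((KI_memB g g' p q r t.1).1 t.2).1)) }, fun t => ⟨rfl, rfl, fun t' => ?_⟩⟩
  have hS := ((KI_memA g g' p q r t.1).1 t.2).1
  have hS' := ((KI_memA g g' p q r t'.1).1 t'.2).1
  have hlen : (p ++ g.tgt ++ q).length = p.length + g.tgt.length + q.length := by
    rw [List.length_append, List.length_append]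
  have hlen' : (p ++ g.src ++ q).length = p.length + g.src.length + q.length := by
    rw [List.length_append, List.length_append]
  obtain ⟨a1, b1⟩ := KI_1 c g p (q ++ g'.tgt ++ r) (q ++ g'.src ++ r) _ _ _ hS
  obtain ⟨a1', b1'⟩ := KI_1 c g p (q ++ g'.tgt ++ r) (q ++ g'.src ++ r) _ _ _ hS'
  obtain ⟨a2, b2⟩ := KI_2 c g' _ _ _ _ (p ++ g.tgt ++ q) r (p ++ g.src ++ q) r hlen hlen' hS
  obtain ⟨a2', b2'⟩ := KI_2 c g' _ _ _ _ (p ++ g.tgt ++ q) r (p ++ g.src ++ q) r hlen hlen' hS'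
  show kl c ⟨p ++ g.src ++ q, g', r⟩ (t.1 0) (KI_mid (p.length + g.src.length + q.length) g.src.length g.tgt.length (t.1 0) (t.1 2))
      (t'.1 0) (KI_mid (p.length + g.src.length + q.length) g.src.length g.tgt.length (t'.1 0) (t'.1 2)) +
    (kl c ⟨p, g, q ++ g'.tgt ++ r⟩ (KI_mid (p.length + g.src.length + q.length) g.src.length g.tgt.length (t.1 0) (t.1 2)) (t.1 2)
      (KI_mid (p.length + g.src.length + q.length) g.src.length g.tgt.length (t'.1 0) (t'.1 2)) (t'.1 2) + 0) =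
    kl c ⟨p, g, q ++ g'.src ++ r⟩ (t.1 0) (t.1 1) (t'.1 0) (t'.1 1) +
    (kl c ⟨p ++ g.tgt ++ q, g', r⟩ (t.1 1) (t.1 2) (t'.1 1) (t'.1 2) + 0)
  unfold kl
  rw [a1, b1, a1', b1', a2, b2, a2', b2', KI_sn g p (q ++ g'.tgt ++ r) p (q ++ g'.src ++ r),
    KI_sn g' (p ++ g.src ++ q) r (p ++ g.tgt ++ q) r]
  ring

end Pool.Agent.Lib.MP_177a0e_gt.LT
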