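import Pool.Agent.Lib.MP_177a0e_gt.LT.Defs

/-!
# the form: the first Reidemeister move.

MODEL: `Sig/VR1.lean` (`v_r1cup_even`) and `Sig/VR1b.lean` (`v_r1cap_even`), proved for white states.
PROOFS (`L = |p|`). The directions `x`, `!x` are different, so the sign `sn` is `- sz s`, `A = t + m + c (l + r)`, `B = l - r`; at both moves `l = r` (the two gaps next to the minimum or maximum), so `B = 0`, `A = t + m + 2 c l`.
* `k_r1cup`: a state of the left side is `(t 0, t 1, t 2)`; `t 1`: `t 0` with the gap `L` doubled and a new value at `L + 1`; `t 2 i = t 1 i` for `i ≠ L + 1`. `Φ t = ((t 0, t 2), t 2 (L + 1) + t 1 (L + 1) + 2 c t 0 L)`; the form of the left side is `- sz s` times the square of the last entry, that of the right side is `0`.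
  Inverse: `((t 0, t 2), r) ↦ (t 0, t 2 with the value r - t 2 (L + 1) - 2 c t 0 L at the gap L + 1, t 2)` (`Function.update`).
* `k_r1cap`: `t 1 i = t 0 i` for `i ≠ L + 1`, `t 2` is `t 1` with the gaps `L + 1`, `L + 2` deleted (`t 1 i = t 2 i`, `i ≤ L`; `t 1 (i + 2) = t 2 i`, `i ≥ L`). `Φ t = ((t 0, t 2), t 1 (L + 1) + t 0 (L + 1) + 2 c t 0 L)` (`t 0 L = t 0 (L + 2) = t 2 L`).
-/

namespace Pool.Agent.Lib.MP_177a0e_gt.LT

open Pool.Agent.Lib.MP_177a0e_gt.Tangle Pool.Agent.Lib.MP_177a0e_gt.Tangle.Gen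
open Pool.Agent.Lib.MP_177a0e_gt.Sig

private def lv2 (a b : ℕ → ℚ) : ℕ → ℕ → ℚ
  | 0 => a
  | 1 => b
  | _ + 2 => 0

private def lv3 (a b c : ℕ → ℚ) : ℕ → ℕ → ℚ
  | 0 => a
  | 1 => b
  | 2 => c
  | _ + 3 => 0

private theorem lv2_add (a a' b b' : ℕ → ℚ) : lv2 (a + a') (b + b') = lv2 a b + lv2 a' b' := by
  funext j
  rcases j with _ | _ | j
  · rfl
  · rfl
  · exact (add_zero (0 : ℕ → ℚ)).symm

private theorem lv2_smul (r : ℚ) (a b : ℕ → ℚ) : lv2 (r • a) (r • b) = r • lv2 a b := by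
  funext j
  rcases j with _ | _ | j
  · rfl
  · rfl
  · exact (smul_zero r).symm

private theorem lv2_mem {s : Slice} {a b : ℕ → ℚ} (h : Fit s a b) : lv2 a b ∈ Sr [s] := by
  refine ⟨⟨h, trivial⟩, fun j => Submodule.mem_top, fun j hj => ?_⟩
  have hj' : 1 < j := hj
  rcases j with _ | _ | j
  · omega
  · omega
  · rfl

private theorem lv3_mem {s s' : Slice} {a b c : ℕ → ℚ} (h : Fit s a b) (h' : Fit s' b c) :
    lv3 a b c ∈ Sr [s, s'] := by
  refine ⟨⟨h, h', trivial⟩, fun j => Submodule.mem_top, fun j hj => ?_⟩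
  have hj' : 2 < j := hj
  rcases j with _ | _ | _ | j
  · omega
  · omega
  · omega
  · rfl

private theorem lv2_eq {s : Slice} (u : Sr [s]) : lv2 (u.1 0) (u.1 1) = u.1 := by
  funext j
  rcases j with _ | _ | j
  · rfl
  · rfl
  · exact (u.2.2.2 (j + 2) (show 1 < j + 2 by omega)).symm

private theorem lv3_eq {s s' : Slice} (u : Sr [s, s']) : lv3 (u.1 0) (u.1 1) (u.1 2) = u.1 := by
  funext j
  rcases j with _ | _ | _ | j
  · rfl
  · rfl
  · rfl
  · exact (u.2.2.2 (j + 3) (show 2 < j + 3 by omega)).symm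

private theorem kr_sn (s x : Bool) (p q : List Bool) :
    (sn ⟨p, cross s x (!x), q⟩ : ℤ) = -sz s := by
  show (if x = !x then sz s else -sz s) = -sz s
  rw [if_neg (by cases x <;> decide)]

private theorem kr_kA (c : ℚ) (s x : Bool) (p q : List Bool) (a b : ℕ → ℚ) :
    kA c ⟨p, cross s x (!x), q⟩ a b =
      b (p.length + 1) + a (p.length + 1) + c * (a p.length + a (p.length + 2)) := by
  show (if x = !x then a (p.length) + a (p.length + 2) + c * (b (p.length + 1) + a (p.length + 1))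
      else b (p.length + 1) + a (p.length + 1) + c * (a (p.length) + a (p.length + 2))) = _
  rw [if_neg (by cases x <;> decide)]

private theorem kr_kB (s x : Bool) (p q : List Bool) (a b : ℕ → ℚ) :
    kB ⟨p, cross s x (!x), q⟩ a b = a p.length - a (p.length + 2) := by
  show (if x = !x then b (p.length + 1) - a (p.length + 1) else a (p.length) - a (p.length + 2)) = _
  rw [if_neg (by cases x <;> decide)]

private theorem kr_cup (c : ℚ) (x : Bool) (p q : List Bool) (a b a' b' : ℕ → ℚ) :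
    kl c ⟨p, cup x, q⟩ a b a' b' = 0 := by
  show ((0 : ℤ) : ℚ) * _ = 0
  rw [Int.cast_zero, zero_mul]

private theorem kr_cap (c : ℚ) (x : Bool) (p q : List Bool) (a b a' b' : ℕ → ℚ) :
    kl c ⟨p, cap x, q⟩ a b a' b' = 0 := by
  show ((0 : ℤ) : ℚ) * _ = 0
  rw [Int.cast_zero, zero_mul]

theorem k_r1cup (c : ℚ) (s x : Bool) (p q : List Bool) :
    KAdd c (-sz s) [⟨p, cup x, q⟩, ⟨p, cross s x (!x), q⟩] [⟨p, cup (!x), q⟩] := by
  have f1 : ∀ (t : Sr [⟨p, cup x, q⟩, ⟨p, cross s x (!x), q⟩]),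
      (∀ i, i ≤ p.length → t.1 1 i = t.1 0 i) ∧ ∀ i, p.length ≤ i → t.1 1 (i + 2) = t.1 0 i :=
    fun t => t.2.1.1
  have f2 : ∀ (t : Sr [⟨p, cup x, q⟩, ⟨p, cross s x (!x), q⟩]) (i : ℕ), i ≠ p.length + 1 →
      t.1 2 i = t.1 1 i := fun t => t.2.1.2.1
  have fb : ∀ (u : Sr [⟨p, cup (!x), q⟩]),
      (∀ i, i ≤ p.length → u.1 1 i = u.1 0 i) ∧ ∀ i, p.length ≤ i → u.1 1 (i + 2) = u.1 0 i :=
    fun u => u.2.1.1
  have m1 : ∀ (t : Sr [⟨p, cup x, q⟩, ⟨p, cross s x (!x), q⟩]),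
      lv2 (t.1 0) (t.1 2) ∈ Sr [⟨p, cup (!x), q⟩] := by
    intro t
    refine lv2_mem ⟨fun i hi => ?_, fun i hi => ?_⟩
    · have hi' : i ≤ p.length := hi
      rw [f2 t i (by omega)]
      exact (f1 t).1 i hi'
    · have hi' : p.length ≤ i := hi
      rw [f2 t (i + 2) (by omega)]
      exact (f1 t).2 i hi'
  have m2 : ∀ (u : Sr [⟨p, cup (!x), q⟩]) (r : ℚ),
      lv3 (u.1 0) (Function.update (u.1 1) (p.length + 1)
        (r - u.1 1 (p.length + 1) - 2 * c * u.1 0 p.length)) (u.1 1) ∈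
        Sr [⟨p, cup x, q⟩, ⟨p, cross s x (!x), q⟩] := by
    intro u r
    refine lv3_mem ⟨fun i hi => ?_, fun i hi => ?_⟩ (fun i hi => ?_)
    · have hi' : i ≤ p.length := hi
      rw [Function.update_of_ne (by omega)]
      exact (fb u).1 i hi'
    · have hi' : p.length ≤ i := hi
      rw [Function.update_of_ne (by omega)]
      exact (fb u).2 i hi'
    · have hi' : i ≠ p.length + 1 := hi
      exact (Function.update_of_ne hi' _ _).symm
  refine ⟨{ toFun := fun t => (⟨lv2 (t.1 0) (t.1 2), m1 t⟩,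
              t.1 2 (p.length + 1) + t.1 1 (p.length + 1) + 2 * c * t.1 0 p.length)
            map_add' := fun t t' => ?_
            map_smul' := fun r t => ?_
            invFun := fun u => ⟨_, m2 u.1 u.2⟩
            left_inv := fun t => ?_
            right_inv := fun u => ?_ }, fun t => ⟨rfl, rfl, fun t' => ?_⟩⟩
  · refine Prod.ext (Subtype.ext (lv2_add _ _ _ _)) ?_
    show (t.1 2 (p.length + 1) + t'.1 2 (p.length + 1)) +
      (t.1 1 (p.length + 1) + t'.1 1 (p.length + 1)) +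
      2 * c * (t.1 0 p.length + t'.1 0 p.length) =
      (t.1 2 (p.length + 1) + t.1 1 (p.length + 1) + 2 * c * t.1 0 p.length) +
      (t'.1 2 (p.length + 1) + t'.1 1 (p.length + 1) + 2 * c * t'.1 0 p.length)
    ring
  · refine Prod.ext (Subtype.ext (lv2_smul _ _ _)) ?_
    show r * t.1 2 (p.length + 1) + r * t.1 1 (p.length + 1) + 2 * c * (r * t.1 0 p.length) =
      r * (t.1 2 (p.length + 1) + t.1 1 (p.length + 1) + 2 * c * t.1 0 p.length)
    ring
  · refine Subtype.ext ?_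
    have e : Function.update (t.1 2) (p.length + 1)
        ((t.1 2 (p.length + 1) + t.1 1 (p.length + 1) + 2 * c * t.1 0 p.length) -
          t.1 2 (p.length + 1) - 2 * c * t.1 0 p.length) = t.1 1 := by
      funext i
      by_cases hi : i = p.length + 1
      · subst hi
        rw [Function.update_self]
        ring
      · rw [Function.update_of_ne hi, f2 t i hi]
    show lv3 (t.1 0) (Function.update (t.1 2) (p.length + 1)
        ((t.1 2 (p.length + 1) + t.1 1 (p.length + 1) + 2 * c * t.1 0 p.length) -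
          t.1 2 (p.length + 1) - 2 * c * t.1 0 p.length)) (t.1 2) = t.1
    rw [e]
    exact lv3_eq t
  · refine Prod.ext (Subtype.ext (lv2_eq u.1)) ?_
    show u.1.1 1 (p.length + 1) +
      Function.update (u.1.1 1) (p.length + 1)
        (u.2 - u.1.1 1 (p.length + 1) - 2 * c * u.1.1 0 p.length) (p.length + 1) +
      2 * c * u.1.1 0 p.length = u.2
    rw [Function.update_self]
    ring
  · have hA : ∀ t : Sr [⟨p, cup x, q⟩, ⟨p, cross s x (!x), q⟩],
        kA c ⟨p, cross s x (!x), q⟩ (t.1 1) (t.1 2) =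
          t.1 2 (p.length + 1) + t.1 1 (p.length + 1) + 2 * c * t.1 0 p.length := by
      intro t
      rw [kr_kA, (f1 t).1 _ le_rfl, (f1 t).2 _ le_rfl]
      ring
    have hB : ∀ t : Sr [⟨p, cup x, q⟩, ⟨p, cross s x (!x), q⟩],
        kB ⟨p, cross s x (!x), q⟩ (t.1 1) (t.1 2) = 0 := by
      intro t
      rw [kr_kB, (f1 t).1 _ le_rfl, (f1 t).2 _ le_rfl, sub_self]
    show kl c ⟨p, cup x, q⟩ (t.1 0) (t.1 1) (t'.1 0) (t'.1 1) +
        ((sn ⟨p, cross s x (!x), q⟩ : ℚ) *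
          (kA c ⟨p, cross s x (!x), q⟩ (t.1 1) (t.1 2) * kA c ⟨p, cross s x (!x), q⟩ (t'.1 1) (t'.1 2) -
            (1 - c ^ 2) * (kB ⟨p, cross s x (!x), q⟩ (t.1 1) (t.1 2) *
              kB ⟨p, cross s x (!x), q⟩ (t'.1 1) (t'.1 2))) + 0) =
      (kl c ⟨p, cup (!x), q⟩ (t.1 0) (t.1 2) (t'.1 0) (t'.1 2) + 0) + ((-sz s : ℤ) : ℚ) *
        ((t.1 2 (p.length + 1) + t.1 1 (p.length + 1) + 2 * c * t.1 0 p.length) *
          (t'.1 2 (p.length + 1) + t'.1 1 (p.length + 1) + 2 * c * t'.1 0 p.length))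
    rw [kr_cup, kr_cup, kr_sn, hA, hA, hB, hB]
    ring

theorem k_r1cap (c : ℚ) (s x : Bool) (p q : List Bool) :
    KAdd c (-sz s) [⟨p, cross s x (!x), q⟩, ⟨p, cap (!x), q⟩] [⟨p, cap x, q⟩] := by
  have f1 : ∀ (t : Sr [⟨p, cross s x (!x), q⟩, ⟨p, cap (!x), q⟩]) (i : ℕ), i ≠ p.length + 1 →
      t.1 1 i = t.1 0 i := fun t => t.2.1.1
  have f2 : ∀ (t : Sr [⟨p, cross s x (!x), q⟩, ⟨p, cap (!x), q⟩]),
      (∀ i, i ≤ p.length → t.1 1 i = t.1 2 i) ∧ ∀ i, p.length ≤ i → t.1 1 (i + 2) = t.1 2 i :=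
    fun t => t.2.1.2.1
  have fb : ∀ (u : Sr [⟨p, cap x, q⟩]),
      (∀ i, i ≤ p.length → u.1 0 i = u.1 1 i) ∧ ∀ i, p.length ≤ i → u.1 0 (i + 2) = u.1 1 i :=
    fun u => u.2.1.1
  have m1 : ∀ (t : Sr [⟨p, cross s x (!x), q⟩, ⟨p, cap (!x), q⟩]),
      lv2 (t.1 0) (t.1 2) ∈ Sr [⟨p, cap x, q⟩] := by
    intro t
    refine lv2_mem ⟨fun i hi => ?_, fun i hi => ?_⟩
    · have hi' : i ≤ p.length := hi
      rw [← f1 t i (by omega)]
      exact (f2 t).1 i hi'
    · have hi' : p.length ≤ i := hi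
      rw [← f1 t (i + 2) (by omega)]
      exact (f2 t).2 i hi'
  have m2 : ∀ (u : Sr [⟨p, cap x, q⟩]) (r : ℚ),
      lv3 (u.1 0) (Function.update (u.1 0) (p.length + 1)
        (r - u.1 0 (p.length + 1) - 2 * c * u.1 0 p.length)) (u.1 1) ∈
        Sr [⟨p, cross s x (!x), q⟩, ⟨p, cap (!x), q⟩] := by
    intro u r
    refine lv3_mem (fun i hi => ?_) ⟨fun i hi => ?_, fun i hi => ?_⟩
    · have hi' : i ≠ p.length + 1 := hi
      exact Function.update_of_ne hi' _ _
    · have hi' : i ≤ p.length := hi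
      rw [Function.update_of_ne (by omega)]
      exact (fb u).1 i hi'
    · have hi' : p.length ≤ i := hi
      rw [Function.update_of_ne (by omega)]
      exact (fb u).2 i hi'
  refine ⟨{ toFun := fun t => (⟨lv2 (t.1 0) (t.1 2), m1 t⟩,
              t.1 1 (p.length + 1) + t.1 0 (p.length + 1) + 2 * c * t.1 0 p.length)
            map_add' := fun t t' => ?_
            map_smul' := fun r t => ?_
            invFun := fun u => ⟨_, m2 u.1 u.2⟩
            left_inv := fun t => ?_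
            right_inv := fun u => ?_ }, fun t => ⟨rfl, rfl, fun t' => ?_⟩⟩
  · refine Prod.ext (Subtype.ext (lv2_add _ _ _ _)) ?_
    show (t.1 1 (p.length + 1) + t'.1 1 (p.length + 1)) +
      (t.1 0 (p.length + 1) + t'.1 0 (p.length + 1)) +
      2 * c * (t.1 0 p.length + t'.1 0 p.length) =
      (t.1 1 (p.length + 1) + t.1 0 (p.length + 1) + 2 * c * t.1 0 p.length) +
      (t'.1 1 (p.length + 1) + t'.1 0 (p.length + 1) + 2 * c * t'.1 0 p.length)
    ring
  · refine Prod.ext (Subtype.ext (lv2_smul _ _ _)) ?_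
    show r * t.1 1 (p.length + 1) + r * t.1 0 (p.length + 1) + 2 * c * (r * t.1 0 p.length) =
      r * (t.1 1 (p.length + 1) + t.1 0 (p.length + 1) + 2 * c * t.1 0 p.length)
    ring
  · refine Subtype.ext ?_
    have e : Function.update (t.1 0) (p.length + 1)
        ((t.1 1 (p.length + 1) + t.1 0 (p.length + 1) + 2 * c * t.1 0 p.length) -
          t.1 0 (p.length + 1) - 2 * c * t.1 0 p.length) = t.1 1 := by
      funext i
      by_cases hi : i = p.length + 1
      · subst hi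
        rw [Function.update_self]
        ring
      · rw [Function.update_of_ne hi, f1 t i hi]
    show lv3 (t.1 0) (Function.update (t.1 0) (p.length + 1)
        ((t.1 1 (p.length + 1) + t.1 0 (p.length + 1) + 2 * c * t.1 0 p.length) -
          t.1 0 (p.length + 1) - 2 * c * t.1 0 p.length)) (t.1 2) = t.1
    rw [e]
    exact lv3_eq t
  · refine Prod.ext (Subtype.ext (lv2_eq u.1)) ?_
    show Function.update (u.1.1 0) (p.length + 1)
        (u.2 - u.1.1 0 (p.length + 1) - 2 * c * u.1.1 0 p.length) (p.length + 1) +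
      u.1.1 0 (p.length + 1) + 2 * c * u.1.1 0 p.length = u.2
    rw [Function.update_self]
    ring
  · have hL : ∀ t : Sr [⟨p, cross s x (!x), q⟩, ⟨p, cap (!x), q⟩],
        t.1 0 (p.length + 2) = t.1 0 p.length := by
      intro t
      rw [← f1 t _ (by omega), ← f1 t p.length (by omega), (f2 t).2 _ le_rfl, (f2 t).1 _ le_rfl]
    have hA : ∀ t : Sr [⟨p, cross s x (!x), q⟩, ⟨p, cap (!x), q⟩],
        kA c ⟨p, cross s x (!x), q⟩ (t.1 0) (t.1 1) =
          t.1 1 (p.length + 1) + t.1 0 (p.length + 1) + 2 * c * t.1 0 p.length := by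
      intro t
      rw [kr_kA, hL t]
      ring
    have hB : ∀ t : Sr [⟨p, cross s x (!x), q⟩, ⟨p, cap (!x), q⟩],
        kB ⟨p, cross s x (!x), q⟩ (t.1 0) (t.1 1) = 0 := by
      intro t
      rw [kr_kB, hL t, sub_self]
    show ((sn ⟨p, cross s x (!x), q⟩ : ℚ) *
          (kA c ⟨p, cross s x (!x), q⟩ (t.1 0) (t.1 1) * kA c ⟨p, cross s x (!x), q⟩ (t'.1 0) (t'.1 1) -
            (1 - c ^ 2) * (kB ⟨p, cross s x (!x), q⟩ (t.1 0) (t.1 1) *
              kB ⟨p, cross s x (!x), q⟩ (t'.1 0) (t'.1 1)))) +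
        (kl c ⟨p, cap (!x), q⟩ (t.1 1) (t.1 2) (t'.1 1) (t'.1 2) + 0) =
      (kl c ⟨p, cap x, q⟩ (t.1 0) (t.1 2) (t'.1 0) (t'.1 2) + 0) + ((-sz s : ℤ) : ℚ) *
        ((t.1 1 (p.length + 1) + t.1 0 (p.length + 1) + 2 * c * t.1 0 p.length) *
          (t'.1 1 (p.length + 1) + t'.1 0 (p.length + 1) + 2 * c * t'.1 0 p.length))
    rw [kr_cap, kr_cap, kr_sn, hA, hA, hB, hB]
    ring

end Pool.Agent.Lib.MP_177a0e_gt.LT
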