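import Pool.Agent.Lib.MP_177a0e_gt.LT.Gk
import Pool.Agent.Lib.MP_177a0e_gt.LT.Ck
import Pool.Agent.Lib.MP_177a0e_gt.Sig.FdP
import Pool.Agent.Lib.MP_177a0e_gt.Sig.La2

/-!
# the form and the second Reidemeister move.

MODELS: `Sig/R2b.lean` and `Sig/Cx3.lean` (proved, for white states at an even position). `Gk` and `Ck` have the same lemmas as `Sig/Gl`, `Sig/Cut1` for `kq` (they are proved).
`L = |p|`. A state of the middle part is `(t 0, t 1, t 2)`; all three agree except at the gap `L + 1`, with the values `b, τ, b'`; `l`, `r` are the values at `L`, `L + 2`.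
* `kr2_big`: `kglue3`: `(y, t, z)` with `t 0 = y_|u|`, `t 2 = z 0`: the pairs `(y, z)` in `Pair (fitM ℚ) ⊤ u v (L + 1)` and the number `τ` (inverse: `t 1 = Function.update (y_|u|) (L + 1) τ`). `σ = sn ⟨p, cross s x y, q⟩`; the second crossing has the sign `- σ` (and `x = y ↔ y = x`). The form of the middle part:
  `x = y`: `σ [(l + r + c (τ + b)) ^ 2 - (1 - c ^ 2) (τ - b) ^ 2 - (l + r + c (b' + τ)) ^ 2 + (1 - c ^ 2) (b' - τ) ^ 2] = σ (b - b') [2 c (l + r) + 2 τ + (2 c ^ 2 - 1) (b + b')]`;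
  `x ≠ y`: `σ [(τ + b + c (l + r)) ^ 2 - (b' + τ + c (l + r)) ^ 2] = σ (b - b') [2 c (l + r) + 2 τ + (b + b')]` (the terms with `B = l - r` cancel). So with `κ = if x = y then 2 * c ^ 2 - 1 else 1` it is `σ (b - b') (2 c (l + r) + κ (b + b') + 2 τ)`.
* `ksg_r2`: `sg_hyp` (`Sig/La2`) with `l = - σ be` (`be = b' - b`), `m (y, z) = 2 c (l + r) + κ (b + b')`, `c = -1`, `E = Pair (fitM ℚ) ⊤ u v (L + 1)` with `kp c u v (L + 1)` (symmetric: `kq_comm`; finite-dimensional: `fdp`), `K = St (u ++ v) ≃ ker be = ker l` (`kcut_app`; `σ = ± 1`).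
-/

namespace Pool.Agent.Lib.MP_177a0e_gt.LT

open Pool.Agent.Lib.MP_177a0e_gt.Tangle Pool.Agent.Lib.MP_177a0e_gt.Tangle.Gen
open Pool.Agent.Lib.MP_177a0e_gt.Sig

private theorem kr2_run {s₁ s₂ : Slice} {t : ℕ → ℕ → ℚ} :
    Run (fitM ℚ) [s₁, s₂] t ↔ Fit s₁ (t 0) (t 1) ∧ Fit s₂ (t 1) (t 2) := by
  constructor
  · rintro ⟨h1, h2, _⟩
    exact ⟨h1, h2⟩
  · rintro ⟨h1, h2⟩
    exact ⟨h1, h2, trivial⟩

private theorem kr2_mem {s x y : Bool} {p q : List Bool} {u v : Word}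
    (t : Tri (fitM ℚ) (⊤) u [⟨p, cross s x y, q⟩, ⟨p, cross (!s) y x, q⟩] v) :
    ((t.1.1, t.1.2.2) : (ℕ → ℕ → ℚ) × (ℕ → ℕ → ℚ)) ∈ Pair (fitM ℚ) (⊤) u v (p.length + 1) := by
  obtain ⟨⟨y', t', z'⟩, h1, h2, h3, h4, h5⟩ := t
  obtain ⟨h6, h7⟩ := kr2_run.1 h2.1
  refine ⟨h1, h3, fun i hi => ?_⟩
  have h8 : t' 1 i = t' 0 i := h6 i hi
  have h9 : t' 2 i = t' 1 i := h7 i hi
  have h4' : y' u.length = t' 0 := h4
  have h5' : t' 2 = z' 0 := h5
  show z' 0 i = y' u.length i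
  rw [← h5', h4', h9, h8]

private def kr2_f (s x y : Bool) (p q : List Bool) (u v : Word) :
    Tri (fitM ℚ) (⊤) u [⟨p, cross s x y, q⟩, ⟨p, cross (!s) y x, q⟩] v →ₗ[ℚ]
      Pair (fitM ℚ) (⊤) u v (p.length + 1) × ℚ where
  toFun t := (⟨(t.1.1, t.1.2.2), kr2_mem t⟩, t.1.2.1 1 (p.length + 1))
  map_add' _ _ := rfl
  map_smul' _ _ := rfl

private theorem kr2_inj (s x y : Bool) (p q : List Bool) (u v : Word) :
    Function.Injective (kr2_f s x y p q u v) := by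
  rw [injective_iff_map_eq_zero]
  rintro ⟨⟨y', t', z'⟩, h1, h2, h3, h4, h5⟩ h
  obtain ⟨h6, h7⟩ := kr2_run.1 h2.1
  have h8 := congrArg Prod.fst h
  have h9 : t' 1 (p.length + 1) = 0 := congrArg Prod.snd h
  have h10 : (y', z') = ((0, 0) : (ℕ → ℕ → ℚ) × (ℕ → ℕ → ℚ)) := congrArg Subtype.val h8
  have hy : y' = 0 := congrArg Prod.fst h10
  have hz : z' = 0 := congrArg Prod.snd h10
  have ht : t' = 0 := by
    funext j i
    have h4' : y' u.length = t' 0 := h4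
    have h5' : t' 2 = z' 0 := h5
    have e0 : t' 0 = 0 := by rw [← h4', hy]; rfl
    rcases j with _ | _ | _ | j
    · rw [e0]; rfl
    · show t' 1 i = 0
      by_cases hi : i = p.length + 1
      · rw [hi, h9]
      · have h11 : t' 1 i = t' 0 i := h6 i hi
        rw [h11, e0]; rfl
    · show t' 2 i = 0
      rw [h5', hz]; rfl
    · have h12 : t' (j + 3) = 0 := h2.2.2 (j + 3) (by simp)
      show t' (j + 3) i = 0
      rw [h12]; rfl
  subst hy hz ht
  rfl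

private theorem kr2_surj (s x y : Bool) (p q : List Bool) (u v : Word) :
    Function.Surjective (kr2_f s x y p q u v) := by
  rintro ⟨⟨⟨y', z'⟩, h1, h2, h3⟩, τ⟩
  refine ⟨⟨(y', (fun j => if j = 0 then y' u.length else if j = 1 then
    Function.update (y' u.length) (p.length + 1) τ else if j = 2 then z' 0 else 0), z'), h1, ⟨?_, ?_, ?_⟩, h2, ?_, ?_⟩, ?_⟩
  · refine kr2_run.2 ⟨fun i hi => ?_, fun i hi => ?_⟩
    · have hi' : i ≠ p.length + 1 := hi
      simp [Function.update_of_ne hi']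
    · have hi' : i ≠ p.length + 1 := hi
      have h4 : z' 0 i = y' u.length i := h3 i hi'
      simp [Function.update_of_ne hi', h4]
  · intro j
    exact Submodule.mem_top
  · intro j hj
    have hj' : 2 < j := hj
    have e0 : j ≠ 0 := by omega
    have e1 : j ≠ 1 := by omega
    have e2 : j ≠ 2 := by omega
    simp [e0, e1, e2]
  · rfl
  · rfl
  · refine Prod.ext rfl ?_
    show (if (1 : ℕ) = 0 then y' u.length else if (1 : ℕ) = 1 then
      Function.update (y' u.length) (p.length + 1) τ else if (1 : ℕ) = 2 then z' 0 else 0) (p.length + 1) = τ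
    simp

private theorem kr2_sn1 (s x y : Bool) (p q : List Bool) :
    sn ⟨p, cross (!s) y x, q⟩ = - sn ⟨p, cross s x y, q⟩ := by
  cases s <;> cases x <;> cases y <;> simp [sn, sz]

private theorem kr2_mid (c : ℚ) (s x y : Bool) (p q : List Bool) (t : ℕ → ℕ → ℚ)
    (h0 : ∀ i, i ≠ p.length + 1 → t 1 i = t 0 i) :
    kq c [⟨p, cross s x y, q⟩, ⟨p, cross (!s) y x, q⟩] t t =
      (sn ⟨p, cross s x y, q⟩ : ℚ) * ((t 0 (p.length + 1) - t 2 (p.length + 1)) *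
        (2 * c * (t 0 p.length + t 0 (p.length + 2)) +
          (if x = y then 2 * c ^ 2 - 1 else 1) * (t 0 (p.length + 1) + t 2 (p.length + 1)) +
            2 * t 1 (p.length + 1))) := by
  have e2 : kq c [⟨p, cross s x y, q⟩, ⟨p, cross (!s) y x, q⟩] t t =
      kl c ⟨p, cross s x y, q⟩ (t 0) (t 1) (t 0) (t 1) +
      (kl c ⟨p, cross (!s) y x, q⟩ (t 1) (t 2) (t 1) (t 2) + 0) := rfl
  have hl : t 1 p.length = t 0 p.length := h0 _ (by omega)
  have hr : t 1 (p.length + 2) = t 0 (p.length + 2) := h0 _ (by omega)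
  rw [e2]
  unfold kl
  rw [kr2_sn1]
  push_cast
  by_cases hxy : x = y
  · subst hxy
    simp only [kA, kB, Sig.lp, if_true, hl, hr]
    ring
  · have hyx : ¬ y = x := fun h => hxy h.symm
    simp only [kA, kB, Sig.lp, if_neg hxy, if_neg hyx, hl, hr]
    ring

theorem kr2_big (c : ℚ) (s x y : Bool) (p q : List Bool) (u v : Word) :
    ∃ Φ : St (u ++ [⟨p, cross s x y, q⟩, ⟨p, cross (!s) y x, q⟩] ++ v) ≃ₗ[ℚ] Pair (fitM ℚ) ⊤ u v (p.length + 1) × ℚ,
      ∀ t, kq c (u ++ [⟨p, cross s x y, q⟩, ⟨p, cross (!s) y x, q⟩] ++ v) t.1 t.1 = kp c u v (p.length + 1) (Φ t).1 (Φ t).1 +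
        (sn ⟨p, cross s x y, q⟩ : ℚ) * (((Φ t).1.1.1 u.length (p.length + 1) - (Φ t).1.1.2 0 (p.length + 1)) *
          (2 * c * ((Φ t).1.1.1 u.length p.length + (Φ t).1.1.1 u.length (p.length + 2)) +
            (if x = y then 2 * c ^ 2 - 1 else 1) * ((Φ t).1.1.1 u.length (p.length + 1) + (Φ t).1.1.2 0 (p.length + 1)) + 2 * (Φ t).2)) := by
  obtain ⟨Φ₀, hΦ₀⟩ := kglue3 c u [⟨p, cross s x y, q⟩, ⟨p, cross (!s) y x, q⟩] v
  refine ⟨Φ₀.trans (LinearEquiv.ofBijective (kr2_f s x y p q u v)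
    ⟨kr2_inj s x y p q u v, kr2_surj s x y p q u v⟩), fun t => ?_⟩
  rw [hΦ₀ t t]
  obtain ⟨T, hT⟩ : ∃ T, T = Φ₀ t := ⟨_, rfl⟩
  have e1 : (Φ₀.trans (LinearEquiv.ofBijective (kr2_f s x y p q u v)
    ⟨kr2_inj s x y p q u v, kr2_surj s x y p q u v⟩)) t = kr2_f s x y p q u v T := by
    rw [hT]
    rfl
  rw [e1, ← hT]
  obtain ⟨⟨y', t', z'⟩, h1, h2, h3, h4, h5⟩ := T
  have h4' : y' u.length = t' 0 := h4
  have h5' : t' 2 = z' 0 := h5
  show kq c u y' y' + kq c [⟨p, cross s x y, q⟩, ⟨p, cross (!s) y x, q⟩] t' t' + kq c v z' z' =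
    kq c u y' y' + kq c v z' z' + (sn ⟨p, cross s x y, q⟩ : ℚ) *
      ((y' u.length (p.length + 1) - z' 0 (p.length + 1)) *
        (2 * c * (y' u.length p.length + y' u.length (p.length + 2)) +
          (if x = y then 2 * c ^ 2 - 1 else 1) * (y' u.length (p.length + 1) + z' 0 (p.length + 1)) +
            2 * t' 1 (p.length + 1)))
  rw [kr2_mid c s x y p q t' (kr2_run.1 h2.1).1, h4', ← h5']
  ring

private def kr2_m (c κ : ℚ) (u v : Word) (L : ℕ) : Pair (fitM ℚ) ⊤ u v (L + 1) →ₗ[ℚ] ℚ where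
  toFun p := 2 * c * (p.1.1 u.length L + p.1.1 u.length (L + 2)) +
    κ * (p.1.1 u.length (L + 1) + p.1.2 0 (L + 1))
  map_add' p q := by
    simp only [Submodule.coe_add, Prod.fst_add, Prod.snd_add, Pi.add_apply]
    ring
  map_smul' r p := by
    simp only [Submodule.coe_smul, Prod.smul_fst, Prod.smul_snd, Pi.smul_apply, smul_eq_mul, RingHom.id_apply]
    ring

theorem ksg_r2 (c : ℚ) (s x y : Bool) (p q : List Bool) (u v : Word) :
    sg (kw c (u ++ [⟨p, cross s x y, q⟩, ⟨p, cross (!s) y x, q⟩] ++ v)) = sg (kw c (u ++ v)) := by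
  obtain ⟨Φ, hΦ⟩ := kr2_big c s x y p q u v
  obtain ⟨k, hk⟩ := kcut_app c u v p.length
  have := fdp (P := fitM ℚ) (fun s => le_rfl) ⊤ u v (p.length + 1)
  have hσ : (sn ⟨p, cross s x y, q⟩ : ℚ) ≠ 0 := by
    cases s <;> cases x <;> cases y <;> norm_num [sn, sz]
  have hker : LinearMap.ker (be (fitM ℚ) ⊤ u v p.length) =
      LinearMap.ker ((-(sn ⟨p, cross s x y, q⟩ : ℚ)) • be (fitM ℚ) ⊤ u v p.length) := by
    ext t
    rw [LinearMap.mem_ker, LinearMap.mem_ker, LinearMap.smul_apply, smul_eq_mul, mul_eq_zero, neg_eq_zero]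
    constructor
    · exact fun h => Or.inr h
    · rintro (h | h)
      · exact absurd h hσ
      · exact h
  refine sg_hyp (kp c u v (p.length + 1)) ?_
    ((-(sn ⟨p, cross s x y, q⟩ : ℚ)) • be (fitM ℚ) ⊤ u v p.length)
    (kr2_m c (if x = y then 2 * c ^ 2 - 1 else 1) u v p.length) (-1) (by norm_num) (kw c _)
    (fun a b => kform_symm c _ a.1 b.1) Φ ?_ (kw c (u ++ v)) (k.trans (LinearEquiv.ofEq _ _ hker)) ?_
  · intro a b
    show kq c u a.1.1 b.1.1 + kq c v a.1.2 b.1.2 = kq c u b.1.1 a.1.1 + kq c v b.1.2 a.1.2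
    rw [kq_comm c u, kq_comm c v]
  · intro t
    have h1 := hΦ t
    show kq c _ t.1 t.1 = _
    rw [h1, LinearMap.smul_apply, smul_eq_mul]
    show _ = _ + -(sn ⟨p, cross s x y, q⟩ : ℚ) *
        ((Φ t).1.1.2 0 (p.length + 1) - (Φ t).1.1.1 u.length (p.length + 1)) *
      ((2 * c * ((Φ t).1.1.1 u.length p.length + (Φ t).1.1.1 u.length (p.length + 2)) +
        (if x = y then 2 * c ^ 2 - 1 else 1) *
          ((Φ t).1.1.1 u.length (p.length + 1) + (Φ t).1.1.2 0 (p.length + 1))) -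
        2 * (-1) * (Φ t).2)
    ring
  · intro t
    show kq c (u ++ v) t.1 t.1 = _
    rw [hk t t]
    rfl

end Pool.Agent.Lib.MP_177a0e_gt.LT
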