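import Pool.Agent.Lib.MP_177a0e_gt.LT.Defs

/-!
# the form: the third Reidemeister move.

MODEL: `Sig/VR3.lean` (proved, for white states).
Let `L = |p|`. A state of the left side is `(t 0, t 1, t 2, t 3)` with the values at the gaps `L, L + 1, L + 2, L + 3`: `t 0`: `l, b1, b2, r`; `t 1`: `l, v, b2, r`; `t 2`: `l, v, t2, r`; `t 3`: `l, t1, t2, r` (equal at all other gaps). A state of the right side: `t 0`: `l, b1, b2, r`; `t 1`: `l, b1, w, r`; `t 2`: `l, t1, w, r`;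
`t 3`: `l, t1, t2, r`. So in both cases the states are the pairs `t 0`, `t 3` which agree except at the gaps `L + 1`, `L + 2`, and one number `v`, resp. `w`. `Φ` keeps `t 0`, `t 3` and puts `w = v - λ`, where
* `x = y = z`: `λ = (b1 - b2 + t1 - t2 + r - l) / (2 c + 1)`;
* `x = y ≠ z`: `λ = l - r + (1 + 2 c) (b1 - t2) + b2 - t1`;
* `x = z ≠ y`: `λ = - (1 + 2 c) (l - r) - b1 + b2 - t1 + t2`;
* `y = z ≠ x`: `λ = l - r - b1 - (1 + 2 c) b2 + (1 + 2 c) t1 + t2`
(verified by computer: then the forms agree, for both values of `s`). As bilinear forms: `ring` / `field_simp` after unfolding `kq`, `kl`, `kA`, `kB`, `sn`, `sz`; it may help to compare both sides with explicit polynomials in `l, b1, b2, r, t1, t2, v` and `l', …, v'` in each of the four cases (`s` only gives a common sign).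
-/

namespace Pool.Agent.Lib.MP_177a0e_gt.LT

open Pool.Agent.Lib.MP_177a0e_gt.Tangle Pool.Agent.Lib.MP_177a0e_gt.Tangle.Gen
open Pool.Agent.Lib.MP_177a0e_gt.Sig

/-- the term of a crossing -/
private def cr (c : ℚ) : Bool → ℚ → ℚ → ℚ → ℚ → ℚ → ℚ → ℚ → ℚ → ℚ
  | true, l, m, r, y, l', m', r', y' => (l + r + c * (y + m)) * (l' + r' + c * (y' + m')) - (1 - c ^ 2) * ((y - m) * (y' - m'))
  | false, l, m, r, y, l', m', r', y' => -((y + m + c * (l + r)) * (y' + m' + c * (l' + r')) - (1 - c ^ 2) * ((l - r) * (l' - r')))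

private def lam (c : ℚ) : Bool → Bool → ℚ → ℚ → ℚ → ℚ → ℚ → ℚ → ℚ
  | true, true, l, b1, b2, r, t1, t2 => (b1 - b2 + t1 - t2 + r - l) / (2 * c + 1)
  | true, false, l, b1, b2, r, t1, t2 => l - r + (1 + 2 * c) * (b1 - t2) + b2 - t1
  | false, true, l, b1, b2, r, t1, t2 => - (1 + 2 * c) * (l - r) - b1 + b2 - t1 + t2
  | false, false, l, b1, b2, r, t1, t2 => l - r - b1 - (1 + 2 * c) * b2 + (1 + 2 * c) * t1 + t2

private theorem main_id (c : ℚ) (hc : 2 * c + 1 ≠ 0) (x y z : Bool) (l b1 b2 r t1 t2 v l' b1' b2' r' t1' t2' v' : ℚ) :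
    cr c (y == z) b1 b2 r (v - lam c (x == y) (x == z) l b1 b2 r t1 t2) b1' b2' r' (v' - lam c (x == y) (x == z) l' b1' b2' r' t1' t2') +
    (cr c (x == z) l b1 (v - lam c (x == y) (x == z) l b1 b2 r t1 t2) t1 l' b1' (v' - lam c (x == y) (x == z) l' b1' b2' r' t1' t2') t1' +
    cr c (x == y) t1 (v - lam c (x == y) (x == z) l b1 b2 r t1 t2) r t2 t1' (v' - lam c (x == y) (x == z) l' b1' b2' r' t1' t2') r' t2') =
    cr c (x == y) l b1 b2 v l' b1' b2' v' + (cr c (x == z) v b2 r t2 v' b2' r' t2' +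
    cr c (y == z) l v t2 t1 l' v' t2' t1') := by
  have h1 : ∀ b1 b2 b3 : Bool, ((x == y) = b1 → (x == z) = b2 → (y == z) = b3 →
    (b3 = (b1 == b2)) ) := by cases x <;> cases y <;> cases z <;> decide
  have h2 := h1 _ _ _ rfl rfl rfl
  rw [h2]
  rcases hxy : (x == y) with _ | _ <;> rcases hxz : (x == z) with _ | _
  · show cr c true _ _ _ _ _ _ _ _ + (cr c false _ _ _ _ _ _ _ _ + cr c false _ _ _ _ _ _ _ _) = cr c false _ _ _ _ _ _ _ _ + (cr c false _ _ _ _ _ _ _ _ + cr c true _ _ _ _ _ _ _ _)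
    simp only [cr, lam]
    ring
  · show cr c false _ _ _ _ _ _ _ _ + (cr c true _ _ _ _ _ _ _ _ + cr c false _ _ _ _ _ _ _ _) = cr c false _ _ _ _ _ _ _ _ + (cr c true _ _ _ _ _ _ _ _ + cr c false _ _ _ _ _ _ _ _)
    simp only [cr, lam]
    ring
  · show cr c false _ _ _ _ _ _ _ _ + (cr c false _ _ _ _ _ _ _ _ + cr c true _ _ _ _ _ _ _ _) = cr c true _ _ _ _ _ _ _ _ + (cr c false _ _ _ _ _ _ _ _ + cr c false _ _ _ _ _ _ _ _)
    simp only [cr, lam]
    ring
  · show cr c true _ _ _ _ _ _ _ _ + (cr c true _ _ _ _ _ _ _ _ + cr c true _ _ _ _ _ _ _ _) = cr c true _ _ _ _ _ _ _ _ + (cr c true _ _ _ _ _ _ _ _ + cr c true _ _ _ _ _ _ _ _)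
    simp only [cr, lam]
    obtain ⟨e, he⟩ : ∃ e, e = (b1 - b2 + t1 - t2 + r - l) / (2 * c + 1) := ⟨_, rfl⟩
    obtain ⟨e', he'⟩ : ∃ e', e' = (b1' - b2' + t1' - t2' + r' - l') / (2 * c + 1) := ⟨_, rfl⟩
    rw [← he, ← he']
    have hl : l = b1 - b2 + t1 - t2 + r - e * (2 * c + 1) := by
      rw [he, div_mul_cancel₀ _ hc]
      ring
    have hl' : l' = b1' - b2' + t1' - t2' + r' - e' * (2 * c + 1) := by
      rw [he', div_mul_cancel₀ _ hc]
      ring
    rw [hl, hl']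
    ring

/-- `lam` of the levels -/
private def lf (c : ℚ) (d1 d2 : Bool) (L : ℕ) (x y : ℕ → ℚ) : ℚ :=
  lam c d1 d2 (x L) (x (L + 1)) (x (L + 2)) (x (L + 3)) (y (L + 1)) (y (L + 2))

private theorem lf_add (c : ℚ) (d1 d2 : Bool) (L : ℕ) (x y x' y' : ℕ → ℚ) :
    lf c d1 d2 L (x + x') (y + y') = lf c d1 d2 L x y + lf c d1 d2 L x' y' := by
  cases d1 <;> cases d2 <;> simp only [lf, lam, Pi.add_apply] <;> ring

private theorem lf_smul (c : ℚ) (d1 d2 : Bool) (L : ℕ) (k : ℚ) (x y : ℕ → ℚ) :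
    lf c d1 d2 L (k • x) (k • y) = k * lf c d1 d2 L x y := by
  cases d1 <;> cases d2 <;> simp only [lf, lam, Pi.smul_apply, smul_eq_mul] <;> ring

private def fF (L : ℕ) (f : (ℕ → ℚ) → (ℕ → ℚ) → ℚ) (t : ℕ → ℕ → ℚ) : ℕ → ℕ → ℚ
  | 0 => t 0
  | 1 => Function.update (t 0) (L + 2) (t 1 (L + 1) - f (t 0) (t 3))
  | 2 => Function.update (t 3) (L + 2) (t 1 (L + 1) - f (t 0) (t 3))
  | 3 => t 3
  | _ + 4 => 0

private def fG (L : ℕ) (f : (ℕ → ℚ) → (ℕ → ℚ) → ℚ) (s : ℕ → ℕ → ℚ) : ℕ → ℕ → ℚ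
  | 0 => s 0
  | 1 => Function.update (s 0) (L + 1) (s 1 (L + 2) + f (s 0) (s 3))
  | 2 => Function.update (s 3) (L + 1) (s 1 (L + 2) + f (s 0) (s 3))
  | 3 => s 3
  | _ + 4 => 0

private theorem upd_add (x x' : ℕ → ℚ) (g : ℕ) (w w' : ℚ) :
    Function.update (x + x') g (w + w') = Function.update x g w + Function.update x' g w' := by
  funext i
  by_cases h : i = g
  · subst h
    rw [Pi.add_apply, Function.update_self, Function.update_self, Function.update_self]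
  · rw [Pi.add_apply, Function.update_of_ne h, Function.update_of_ne h, Function.update_of_ne h,
      Pi.add_apply]

private theorem upd_smul (k : ℚ) (x : ℕ → ℚ) (g : ℕ) (w : ℚ) :
    Function.update (k • x) g (k * w) = k • Function.update x g w := by
  funext i
  by_cases h : i = g
  · subst h
    rw [Pi.smul_apply, Function.update_self, Function.update_self, smul_eq_mul]
  · rw [Pi.smul_apply, Function.update_of_ne h, Function.update_of_ne h, Pi.smul_apply]

private theorem core (c : ℚ) (a b : Word) (ha : a.length = 3) (hb : b.length = 3) (L : ℕ)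
    (f : (ℕ → ℚ) → (ℕ → ℚ) → ℚ) (fadd : ∀ x y x' y', f (x + x') (y + y') = f x y + f x' y')
    (fsmul : ∀ (k : ℚ) x y, f (k • x) (k • y) = k * f x y)
    (hA : ∀ t : ℕ → ℕ → ℚ, t ∈ Sr a ↔ (∀ i, i ≠ L + 1 → t 1 i = t 0 i) ∧
      (∀ i, i ≠ L + 2 → t 2 i = t 1 i) ∧ (∀ i, i ≠ L + 1 → t 3 i = t 2 i) ∧ ∀ j, 3 < j → t j = 0)
    (hB : ∀ t : ℕ → ℕ → ℚ, t ∈ Sr b ↔ (∀ i, i ≠ L + 2 → t 1 i = t 0 i) ∧
      (∀ i, i ≠ L + 1 → t 2 i = t 1 i) ∧ (∀ i, i ≠ L + 2 → t 3 i = t 2 i) ∧ ∀ j, 3 < j → t j = 0)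
    (hq : ∀ t t' : ℕ → ℕ → ℚ, t ∈ Sr a → t' ∈ Sr a →
      kq c b (fF L f t) (fF L f t') = kq c a t t') : KIso c a b := by
  have hFm : ∀ t ∈ Sr a, fF L f t ∈ Sr b := by
    intro t ht
    obtain ⟨h1, h2, h3, h4⟩ := (hA t).mp ht
    refine (hB _).mpr ⟨?_, ?_, ?_, ?_⟩
    · intro i hi
      exact Function.update_of_ne hi _ _
    · intro i hi
      show Function.update (t 3) (L + 2) _ i = Function.update (t 0) (L + 2) _ i
      by_cases h : i = L + 2
      · subst h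
        rw [Function.update_self, Function.update_self]
      · rw [Function.update_of_ne h, Function.update_of_ne h, h3 i hi, h2 i h, h1 i hi]
    · intro i hi
      exact (Function.update_of_ne hi _ _).symm
    · intro j hj
      match j with
      | 0 => omega
      | 1 => omega
      | 2 => omega
      | 3 => omega
      | _ + 4 => rfl
  have hGm : ∀ s ∈ Sr b, fG L f s ∈ Sr a := by
    intro s hs
    obtain ⟨h1, h2, h3, h4⟩ := (hB s).mp hs
    refine (hA _).mpr ⟨?_, ?_, ?_, ?_⟩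
    · intro i hi
      exact Function.update_of_ne hi _ _
    · intro i hi
      show Function.update (s 3) (L + 1) _ i = Function.update (s 0) (L + 1) _ i
      by_cases h : i = L + 1
      · subst h
        rw [Function.update_self, Function.update_self]
      · rw [Function.update_of_ne h, Function.update_of_ne h, h3 i hi, h2 i h, h1 i hi]
    · intro i hi
      exact (Function.update_of_ne hi _ _).symm
    · intro j hj
      match j with
      | 0 => omega
      | 1 => omega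
      | 2 => omega
      | 3 => omega
      | _ + 4 => rfl
  refine ⟨{ toFun := fun t => ⟨fF L f t.1, hFm t.1 t.2⟩
            invFun := fun s => ⟨fG L f s.1, hGm s.1 s.2⟩
            map_add' := ?_
            map_smul' := ?_
            left_inv := ?_
            right_inv := ?_ }, ?_⟩
  · intro t t'
    have e : (t.1 1 (L + 1) + t'.1 1 (L + 1)) - f (t.1 0 + t'.1 0) (t.1 3 + t'.1 3) =
        (t.1 1 (L + 1) - f (t.1 0) (t.1 3)) + (t'.1 1 (L + 1) - f (t'.1 0) (t'.1 3)) := by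
      rw [fadd]
      ring
    refine Subtype.ext (funext fun j => ?_)
    match j with
    | 0 => rfl
    | 1 =>
      show Function.update (t.1 0 + t'.1 0) (L + 2)
        ((t.1 1 (L + 1) + t'.1 1 (L + 1)) - f (t.1 0 + t'.1 0) (t.1 3 + t'.1 3)) = _
      rw [e, upd_add]
      rfl
    | 2 =>
      show Function.update (t.1 3 + t'.1 3) (L + 2)
        ((t.1 1 (L + 1) + t'.1 1 (L + 1)) - f (t.1 0 + t'.1 0) (t.1 3 + t'.1 3)) = _
      rw [e, upd_add]
      rfl
    | 3 => rfl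
    | n + 4 => exact (add_zero _).symm
  · intro r t
    have e : r * t.1 1 (L + 1) - f (r • t.1 0) (r • t.1 3) =
        r * (t.1 1 (L + 1) - f (t.1 0) (t.1 3)) := by
      rw [fsmul]
      ring
    refine Subtype.ext (funext fun j => ?_)
    match j with
    | 0 => rfl
    | 1 =>
      show Function.update (r • t.1 0) (L + 2) (r * t.1 1 (L + 1) - f (r • t.1 0) (r • t.1 3)) = _
      rw [e, upd_smul]
      rfl
    | 2 =>
      show Function.update (r • t.1 3) (L + 2) (r * t.1 1 (L + 1) - f (r • t.1 0) (r • t.1 3)) = _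
      rw [e, upd_smul]
      rfl
    | 3 => rfl
    | n + 4 => exact (smul_zero (A := ℕ → ℚ) r).symm
  · intro t
    obtain ⟨h1, h2, h3, h4⟩ := (hA t.1).mp t.2
    have e : (Function.update (t.1 0) (L + 2) (t.1 1 (L + 1) - f (t.1 0) (t.1 3))) (L + 2) +
        f (t.1 0) (t.1 3) = t.1 1 (L + 1) := by
      rw [Function.update_self]
      ring
    refine Subtype.ext (funext fun j => ?_)
    match j with
    | 0 => rfl
    | 1 =>
      show Function.update (t.1 0) (L + 1) ((Function.update (t.1 0) (L + 2)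
        (t.1 1 (L + 1) - f (t.1 0) (t.1 3))) (L + 2) + f (t.1 0) (t.1 3)) = t.1 1
      rw [e]
      funext i
      by_cases hi : i = L + 1
      · subst hi
        rw [Function.update_self]
      · rw [Function.update_of_ne hi, h1 i hi]
    | 2 =>
      show Function.update (t.1 3) (L + 1) ((Function.update (t.1 0) (L + 2)
        (t.1 1 (L + 1) - f (t.1 0) (t.1 3))) (L + 2) + f (t.1 0) (t.1 3)) = t.1 2
      rw [e]
      funext i
      by_cases hi : i = L + 1
      · subst hi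
        rw [Function.update_self, h2 (L + 1) (by omega)]
      · rw [Function.update_of_ne hi, h3 i hi]
    | 3 => rfl
    | n + 4 => exact (h4 (n + 4) (by omega)).symm
  · intro s
    obtain ⟨h1, h2, h3, h4⟩ := (hB s.1).mp s.2
    have e : (Function.update (s.1 0) (L + 1) (s.1 1 (L + 2) + f (s.1 0) (s.1 3))) (L + 1) -
        f (s.1 0) (s.1 3) = s.1 1 (L + 2) := by
      rw [Function.update_self]
      ring
    refine Subtype.ext (funext fun j => ?_)
    match j with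
    | 0 => rfl
    | 1 =>
      show Function.update (s.1 0) (L + 2) ((Function.update (s.1 0) (L + 1)
        (s.1 1 (L + 2) + f (s.1 0) (s.1 3))) (L + 1) - f (s.1 0) (s.1 3)) = s.1 1
      rw [e]
      funext i
      by_cases hi : i = L + 2
      · subst hi
        rw [Function.update_self]
      · rw [Function.update_of_ne hi, h1 i hi]
    | 2 =>
      show Function.update (s.1 3) (L + 2) ((Function.update (s.1 0) (L + 1)
        (s.1 1 (L + 2) + f (s.1 0) (s.1 3))) (L + 1) - f (s.1 0) (s.1 3)) = s.1 2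
      rw [e]
      funext i
      by_cases hi : i = L + 2
      · subst hi
        rw [Function.update_self, h2 (L + 2) (by omega)]
      · rw [Function.update_of_ne hi, h3 i hi]
    | 3 => rfl
    | n + 4 => exact (h4 (n + 4) (by omega)).symm
  · intro t
    refine ⟨rfl, ?_, fun t' => hq t.1 t'.1 t.2 t'.2⟩
    rw [ha, hb]
    rfl

/-- membership for a word of three crossings -/
private theorem mem3 (P1 P2 P3 Q1 Q2 Q3 : List Bool) (c1 x1 y1 c2 x2 y2 c3 x3 y3 : Bool)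
    (t : ℕ → ℕ → ℚ) :
    t ∈ Sr [⟨P1, cross c1 x1 y1, Q1⟩, ⟨P2, cross c2 x2 y2, Q2⟩, ⟨P3, cross c3 x3 y3, Q3⟩] ↔
      (∀ i, i ≠ P1.length + 1 → t 1 i = t 0 i) ∧ (∀ i, i ≠ P2.length + 1 → t 2 i = t 1 i) ∧
      (∀ i, i ≠ P3.length + 1 → t 3 i = t 2 i) ∧ ∀ j, 3 < j → t j = 0 := by
  constructor
  · rintro ⟨⟨h1, h2, h3, -⟩, -, h5⟩
    exact ⟨h1, h2, h3, h5⟩
  · rintro ⟨h1, h2, h3, h5⟩
    exact ⟨⟨h1, h2, h3, trivial⟩, fun _ => trivial, h5⟩

/-- the form of a word of three crossings -/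
private theorem kq3 (c : ℚ) (s1 s2 s3 : Slice) (t t' : ℕ → ℕ → ℚ) :
    kq c [s1, s2, s3] t t' = kl c s1 (t 0) (t 1) (t' 0) (t' 1) +
      (kl c s2 (t 1) (t 2) (t' 1) (t' 2) + kl c s3 (t 2) (t 3) (t' 2) (t' 3)) := by
  show kl c s1 (t 0) (t 1) (t' 0) (t' 1) + (kl c s2 (t 1) (t 2) (t' 1) (t' 2) +
    (kl c s3 (t 2) (t 3) (t' 2) (t' 3) + 0)) = _
  rw [add_zero]

private theorem kl_cr (c : ℚ) (P Q : List Bool) (s x y : Bool) (u v u' v' : ℕ → ℚ) :
    kl c ⟨P, cross s x y, Q⟩ u v u' v' = (sz s : ℚ) * cr c (x == y) (u P.length) (u (P.length + 1))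
      (u (P.length + 2)) (v (P.length + 1)) (u' P.length) (u' (P.length + 1)) (u' (P.length + 2))
      (v' (P.length + 1)) := by
  cases x <;> cases y
  · show (sz s : ℚ) * _ = (sz s : ℚ) * _
    rfl
  · show ((-sz s : ℤ) : ℚ) * _ = (sz s : ℚ) * (-_)
    rw [Int.cast_neg, neg_mul, mul_neg]
    rfl
  · show ((-sz s : ℤ) : ℚ) * _ = (sz s : ℚ) * (-_)
    rw [Int.cast_neg, neg_mul, mul_neg]
    rfl
  · show (sz s : ℚ) * _ = (sz s : ℚ) * _
    rfl

private theorem vals (L : ℕ) (t : ℕ → ℕ → ℚ) (h1 : ∀ i, i ≠ L + 1 → t 1 i = t 0 i)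
    (h2 : ∀ i, i ≠ L + 1 + 1 → t 2 i = t 1 i) (h3 : ∀ i, i ≠ L + 1 → t 3 i = t 2 i) :
    t 1 (L + 1 + 1) = t 0 (L + 2) ∧ t 1 (L + 1 + 2) = t 0 (L + 3) ∧
      t 2 (L + 1 + 1) = t 3 (L + 2) ∧ t 2 L = t 0 L ∧ t 2 (L + 1) = t 1 (L + 1) ∧
      t 3 (L + 3) = t 0 (L + 3) := by
  refine ⟨h1 _ (by omega), h1 _ (by omega), (h3 _ (by omega)).symm, ?_, h2 _ (by omega), ?_⟩
  · rw [h2 _ (by omega), h1 _ (by omega)]
  · rw [h3 _ (by omega), h2 _ (by omega), h1 _ (by omega)]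

private theorem fvals (L : ℕ) (f : (ℕ → ℚ) → (ℕ → ℚ) → ℚ) (t : ℕ → ℕ → ℚ)
    (h : t 3 (L + 3) = t 0 (L + 3)) :
    fF L f t 0 (L + 1) = t 0 (L + 1) ∧ fF L f t 0 (L + 1 + 1) = t 0 (L + 2) ∧
    fF L f t 0 (L + 1 + 2) = t 0 (L + 3) ∧
    fF L f t 1 (L + 1 + 1) = t 1 (L + 1) - f (t 0) (t 3) ∧ fF L f t 1 L = t 0 L ∧
    fF L f t 1 (L + 1) = t 0 (L + 1) ∧ fF L f t 2 (L + 1) = t 3 (L + 1) ∧
    fF L f t 2 (L + 1 + 1) = t 1 (L + 1) - f (t 0) (t 3) ∧
    fF L f t 2 (L + 1 + 2) = t 0 (L + 3) ∧ fF L f t 3 (L + 1 + 1) = t 3 (L + 2) := by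
  refine ⟨rfl, rfl, rfl, Function.update_self _ _ _, Function.update_of_ne (by omega) _ _,
    Function.update_of_ne (by omega) _ _, Function.update_of_ne (by omega) _ _,
    Function.update_self _ _ _, ?_, rfl⟩
  exact (Function.update_of_ne (by omega) _ _).trans h

theorem k_r3 (c : ℚ) (hc : 2 * c + 1 ≠ 0) (s x y z : Bool) (p q : List Bool) :
    KIso c [⟨p, cross s x y, [z] ++ q⟩, ⟨p ++ [y], cross s x z, q⟩, ⟨p, cross s y z, [x] ++ q⟩]
      [⟨p ++ [x], cross s y z, q⟩, ⟨p, cross s x z, [y] ++ q⟩, ⟨p ++ [z], cross s x y, q⟩] := by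
  have hl : ∀ w : Bool, (p ++ [w]).length = p.length + 1 := fun w => by simp
  refine core c _ _ rfl rfl p.length (lf c (x == y) (x == z) p.length)
    (fun a b a' b' => lf_add c _ _ _ a b a' b') (fun k a b => lf_smul c _ _ _ k a b) ?_ ?_ ?_
  · intro t
    rw [mem3, hl]
  · intro t
    rw [mem3, hl, hl]
  · intro t t' ht ht'
    rw [mem3, hl] at ht ht'
    rw [kq3, kq3]
    simp only [kl_cr, hl]
    obtain ⟨a1, a2, a3, a4, a5, a6⟩ := vals p.length t ht.1 ht.2.1 ht.2.2.1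
    obtain ⟨b1, b2, b3, b4, b5, b6⟩ := vals p.length t' ht'.1 ht'.2.1 ht'.2.2.1
    obtain ⟨c1, c2, c3, c4, c5, c6, c7, c8, c9, c10⟩ :=
      fvals p.length (lf c (x == y) (x == z) p.length) t a6
    obtain ⟨d1, d2, d3, d4, d5, d6, d7, d8, d9, d10⟩ :=
      fvals p.length (lf c (x == y) (x == z) p.length) t' b6
    rw [a1, a2, a3, a4, a5, b1, b2, b3, b4, b5, c1, c2, c3, c4, c5, c6, c7, c8, c9, c10,
      d1, d2, d3, d4, d5, d6, d7, d8, d9, d10]
    have key := main_id c hc x y z (t 0 p.length) (t 0 (p.length + 1)) (t 0 (p.length + 2))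
      (t 0 (p.length + 3)) (t 3 (p.length + 1)) (t 3 (p.length + 2)) (t 1 (p.length + 1))
      (t' 0 p.length) (t' 0 (p.length + 1)) (t' 0 (p.length + 2))
      (t' 0 (p.length + 3)) (t' 3 (p.length + 1)) (t' 3 (p.length + 2)) (t' 1 (p.length + 1))
    rw [← mul_add, ← mul_add, ← mul_add, ← mul_add]
    exact congrArg (fun r => (sz s : ℚ) * r) key

end Pool.Agent.Lib.MP_177a0e_gt.LT
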