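import Pool.Agent.Lib.MP_177a0e_gt.LT.Defs

/-!
# the form: a strand passes a minimum or a maximum.

PROOFS (`L = |p|`, states `(t 0, t 1, t 2)`).
* `k_slide_cup`: left side: `t 1 i = t 0 i` (`i ≤ L`), `t 1 (i + 2) = t 0 i` (`i ≥ L`), `t 2 i = t 1 i` (`i ≠ L + 2`); right side: `t 1 i = t 0 i` (`i ≤ L + 1`), `t 1 (i + 2) = t 0 i` (`i ≥ L + 1`), `t 2 i = t 1 i` (`i ≠ L + 1`). `Φ` keeps `t 0`, `t 2` and replaces `t 1` by
  `i ↦ if i ≤ L + 1 then t 0 i else if i = L + 2 then t 2 (L + 2) else t 0 (i - 2)`; the inverse replaces it by `i ↦ if i ≤ L then t 0 i else if i = L + 1 then t 2 (L + 1) else t 0 (i - 2)`.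
  With `a = t 0 L`, `b = t 0 (L + 1)`, `τ = t 2 (L + 1)`, `ρ = t 2 (L + 2)`: left crossing (position `L + 1`, directions `!e`, `x`): values left, below, right, above: `τ, a, b, ρ`; right crossing (position `L`, directions `x`, `e`): left, below, right, above: `a, b, ρ, τ`. The strands `!e`, `x` have equal directions iff `x`, `e` have different ones, and
  `sn` is the same on both sides (`!s` on the right). `A`: `x ≠ e`: left `τ + b + c (ρ + a)`, right `τ + b + c (a + ρ)`; `x = e`: left `ρ + a + c (τ + b)`, right `a + ρ + c (τ + b)`. `B`: `x ≠ e`: left `ρ - a`, right `a - ρ`; `x = e`: left `τ - b`, right `τ - b`. So the forms agree.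
* `k_slide_cap`: left side: `t 1 i = t 0 i` (`i ≠ L + 2`), `t 1 i = t 2 i` (`i ≤ L`), `t 1 (i + 2) = t 2 i` (`i ≥ L`); right side: `t 1 i = t 0 i` (`i ≠ L + 1`), `t 1 i = t 2 i` (`i ≤ L + 1`), `t 1 (i + 2) = t 2 i` (`i ≥ L + 1`): the mirror image: `t 1` is replaced by
  `i ↦ if i ≤ L + 1 then t 2 i else if i = L + 2 then t 0 (L + 2) else t 2 (i - 2)`, inverse `i ↦ if i ≤ L then t 2 i else if i = L + 1 then t 0 (L + 1) else t 2 (i - 2)`. The forms: the same computation.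
-/

namespace Pool.Agent.Lib.MP_177a0e_gt.LT

open Pool.Agent.Lib.MP_177a0e_gt.Tangle Pool.Agent.Lib.MP_177a0e_gt.Tangle.Gen
open Pool.Agent.Lib.MP_177a0e_gt.Sig

/-- the values of the middle level -/
private def vsF (m : ℕ) (u v : ℕ → ℚ) : ℕ → ℚ := fun i =>
  if i ≤ m then u i else if i = m + 1 then v (m + 1) else u (i - 2)

private theorem vsF_add (m : ℕ) (u v u' v' : ℕ → ℚ) : vsF m (u + u') (v + v') = vsF m u v + vsF m u' v' := by
  funext i
  simp only [vsF, Pi.add_apply]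
  split_ifs <;> rfl

private theorem vsF_smul (m : ℕ) (r : ℚ) (u v : ℕ → ℚ) : vsF m (r • u) (r • v) = r • vsF m u v := by
  funext i
  simp only [vsF, Pi.smul_apply]
  split_ifs <;> rfl

private theorem vsF_le {m i : ℕ} (u v : ℕ → ℚ) (h : i ≤ m) : vsF m u v i = u i := if_pos h

private theorem vsF_eq {m i : ℕ} (u v : ℕ → ℚ) (h : i = m + 1) : vsF m u v i = v i := by
  subst h
  simp [vsF]

private theorem vsF_gt {m i : ℕ} (u v : ℕ → ℚ) (h : m + 2 ≤ i) : vsF m u v i = u (i - 2) := by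
  have h1 : ¬ i ≤ m := by omega
  have h2 : ¬ i = m + 1 := by omega
  simp [vsF, h1, h2]

/-- replace the middle level -/
private def vsU (f : (ℕ → ℕ → ℚ) →ₗ[ℚ] (ℕ → ℚ)) : (ℕ → ℕ → ℚ) →ₗ[ℚ] (ℕ → ℕ → ℚ) where
  toFun x := fun j => if j = 1 then f x else x j
  map_add' x y := by
    funext j
    simp only [Pi.add_apply, map_add]
    split_ifs <;> rfl
  map_smul' r x := by
    funext j
    simp only [Pi.smul_apply, map_smul, RingHom.id_apply]
    split_ifs <;> rfl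

private theorem vsU_0 (f : (ℕ → ℕ → ℚ) →ₗ[ℚ] (ℕ → ℚ)) (x : ℕ → ℕ → ℚ) : vsU f x 0 = x 0 := rfl
private theorem vsU_1 (f : (ℕ → ℕ → ℚ) →ₗ[ℚ] (ℕ → ℚ)) (x : ℕ → ℕ → ℚ) : vsU f x 1 = f x := rfl
private theorem vsU_2 (f : (ℕ → ℕ → ℚ) →ₗ[ℚ] (ℕ → ℚ)) (x : ℕ → ℕ → ℚ) : vsU f x 2 = x 2 := rfl
private theorem vsU_j (f : (ℕ → ℕ → ℚ) →ₗ[ℚ] (ℕ → ℚ)) (x : ℕ → ℕ → ℚ) {j : ℕ} (hj : j ≠ 1) : vsU f x j = x j := if_neg hj

private def vsA (m : ℕ) : (ℕ → ℕ → ℚ) →ₗ[ℚ] (ℕ → ℚ) where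
  toFun x := vsF m (x 0) (x 2)
  map_add' x y := vsF_add m _ _ _ _
  map_smul' r x := vsF_smul m r _ _

private def vsB (m : ℕ) : (ℕ → ℕ → ℚ) →ₗ[ℚ] (ℕ → ℚ) where
  toFun x := vsF m (x 2) (x 0)
  map_add' x y := vsF_add m _ _ _ _
  map_smul' r x := vsF_smul m r _ _

private theorem vs_mem {s s' : Slice} {x : ℕ → ℕ → ℚ} : x ∈ Sr [s, s'] ↔
    Fit s (x 0) (x 1) ∧ Fit s' (x 1) (x 2) ∧ ∀ j, 2 < j → x j = 0 := by
  constructor
  · rintro ⟨⟨h1, h2, -⟩, -, h4⟩
    exact ⟨h1, h2, h4⟩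
  · rintro ⟨h1, h2, h4⟩
    exact ⟨⟨h1, h2, trivial⟩, fun _ => Submodule.mem_top, h4⟩

private theorem vs_iso (c : ℚ) {s s' r r' : Slice} (f g : (ℕ → ℕ → ℚ) →ₗ[ℚ] (ℕ → ℚ))
    (h1 : ∀ x ∈ Sr [s, s'], vsU f x ∈ Sr [r, r']) (h2 : ∀ x ∈ Sr [r, r'], vsU g x ∈ Sr [s, s'])
    (h3 : ∀ x ∈ Sr [s, s'], g (vsU f x) = x 1) (h4 : ∀ x ∈ Sr [r, r'], f (vsU g x) = x 1)
    (h5 : ∀ x ∈ Sr [s, s'], ∀ y ∈ Sr [s, s'], kq c [r, r'] (vsU f x) (vsU f y) = kq c [s, s'] x y) :
    KIso c [s, s'] [r, r'] := by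
  refine ⟨LinearEquiv.ofLinearMap ((vsU f).restrict h1) ((vsU g).restrict h2) ?_ ?_, ?_⟩
  · apply LinearMap.ext
    rintro ⟨x, hx⟩
    apply Subtype.ext
    change vsU f (vsU g x) = x
    funext j
    by_cases hj : j = 1
    · subst hj
      rw [vsU_1, h4 x hx]
    · rw [vsU_j f _ hj, vsU_j g _ hj]
  · apply LinearMap.ext
    rintro ⟨x, hx⟩
    apply Subtype.ext
    change vsU g (vsU f x) = x
    funext j
    by_cases hj : j = 1
    · subst hj
      rw [vsU_1, h3 x hx]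
    · rw [vsU_j g _ hj, vsU_j f _ hj]
  · rintro ⟨x, hx⟩
    exact ⟨rfl, rfl, fun ⟨y, hy⟩ => h5 x hx y hy⟩

private theorem vs_kq2 (c : ℚ) (s s' : Slice) (x y : ℕ → ℕ → ℚ) : kq c [s, s'] x y =
    kl c s (x 0) (x 1) (y 0) (y 1) + kl c s' (x 1) (x 2) (y 1) (y 2) := by
  simp [kq, sh]

private theorem vs_k0 (c : ℚ) (e : Bool) (p q : List Bool) (x y x' y' : ℕ → ℚ) :
    kl c ⟨p, cup e, q⟩ x y x' y' = 0 := by
  simp [kl, sn]

private theorem vs_k1 (c : ℚ) (e : Bool) (p q : List Bool) (x y x' y' : ℕ → ℚ) :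
    kl c ⟨p, cap e, q⟩ x y x' y' = 0 := by
  simp [kl, sn]

/-- the form at a crossing, in terms of the values on the left, below, on the right, above -/
private def vsK (c : ℚ) (s a b : Bool) (l m r t l' m' r' t' : ℚ) : ℚ :=
  if a = b then (sz s : ℚ) * ((l + r + c * (t + m)) * (l' + r' + c * (t' + m')) -
    (1 - c ^ 2) * ((t - m) * (t' - m')))
  else -(sz s : ℚ) * ((t + m + c * (l + r)) * (t' + m' + c * (l' + r')) -
    (1 - c ^ 2) * ((l - r) * (l' - r')))

private theorem vs_k (c : ℚ) (s a b : Bool) {p q : List Bool} {n : ℕ} (hn : p.length = n)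
    (x y x' y' : ℕ → ℚ) : kl c ⟨p, cross s a b, q⟩ x y x' y' =
      vsK c s a b (x n) (x (n + 1)) (x (n + 2)) (y (n + 1)) (x' n) (x' (n + 1)) (x' (n + 2)) (y' (n + 1)) := by
  subst hn
  simp only [kl, sn, kA, kB, Sig.lp, vsK]
  split_ifs
  · rfl
  · push_cast
    rfl

/-- the two crossings have the same form -/
private theorem vs_rot (c : ℚ) (s e x : Bool) (a b t r a' b' t' r' : ℚ) :
    vsK c s (!e) x t a b r t' a' b' r' = vsK c (!s) x e a b r t a' b' r' t' := by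
  cases s <;> cases e <;> cases x <;> simp [vsK, sz] <;> ring

/-- the two crossings have the same form -/
private theorem vs_rot' (c : ℚ) (s e x : Bool) (a b t r a' b' t' r' : ℚ) :
    vsK c s x (!e) b r t a b' r' t' a' = vsK c (!s) e x a b r t a' b' r' t' := by
  cases s <;> cases e <;> cases x <;> simp [vsK, sz] <;> ring

theorem k_slide_cup (c : ℚ) (s e x : Bool) (p q : List Bool) :
    KIso c [⟨p, cup e, [x] ++ q⟩, ⟨p ++ [e], cross s (!e) x, q⟩] [⟨p ++ [x], cup e, q⟩, ⟨p, cross (!s) x e, [!e] ++ q⟩] := by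
  have hL (z : Bool) : (p ++ [z]).length = p.length + 1 := by simp
  have ha : ∀ t ∈ Sr [⟨p, cup e, [x] ++ q⟩, ⟨p ++ [e], cross s (!e) x, q⟩],
      (∀ i, i ≤ p.length → t 1 i = t 0 i) ∧ (∀ i, p.length ≤ i → t 1 (i + 2) = t 0 i) ∧
      (∀ i, i ≠ p.length + 2 → t 2 i = t 1 i) ∧ ∀ j, 2 < j → t j = 0 := by
    intro t ht
    obtain ⟨h1, h2, h4⟩ := vs_mem.mp ht
    refine ⟨h1.1, h1.2, fun i hi => h2 i ?_, h4⟩
    simpa [Sig.lp] using hi
  have hb : ∀ t ∈ Sr [⟨p ++ [x], cup e, q⟩, ⟨p, cross (!s) x e, [!e] ++ q⟩],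
      (∀ i, i ≤ p.length + 1 → t 1 i = t 0 i) ∧ (∀ i, p.length + 1 ≤ i → t 1 (i + 2) = t 0 i) ∧
      (∀ i, i ≠ p.length + 1 → t 2 i = t 1 i) ∧ ∀ j, 2 < j → t j = 0 := by
    intro t ht
    obtain ⟨h1, h2, h4⟩ := vs_mem.mp ht
    refine ⟨fun i hi => h1.1 i ?_, fun i hi => h1.2 i ?_, h2, h4⟩
    · simpa [Sig.lp] using hi
    · simpa [Sig.lp] using hi
  refine vs_iso c (vsA (p.length + 1)) (vsA p.length) ?_ ?_ ?_ ?_ ?_
  · intro t ht
    obtain ⟨h1, h2, h3, h5⟩ := ha t ht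
    refine vs_mem.mpr ⟨⟨?_, ?_⟩, ?_, ?_⟩
    · intro i hi
      simp only [Sig.lp, hL] at hi
      rw [vsU_0, vsU_1]
      exact vsF_le _ _ hi
    · intro i hi
      simp only [Sig.lp, hL] at hi
      rw [vsU_0, vsU_1]
      exact vsF_gt _ _ (by omega)
    · intro i hi
      simp only [Sig.lp] at hi
      rw [vsU_2, vsU_1]
      change t 2 i = vsF (p.length + 1) (t 0) (t 2) i
      rcases lt_trichotomy i (p.length + 2) with h | h | h
      · rw [vsF_le _ _ (by omega), h3 i (by omega), h1 i (by omega)]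
      · rw [vsF_eq _ _ h]
      · rw [vsF_gt _ _ (by omega), h3 i (by omega), ← h2 (i - 2) (by omega)]
        congr 1
        omega
    · intro j hj
      rw [vsU_j _ _ (by omega)]
      exact h5 j hj
  · intro t ht
    obtain ⟨h1, h2, h3, h5⟩ := hb t ht
    refine vs_mem.mpr ⟨⟨?_, ?_⟩, ?_, ?_⟩
    · intro i hi
      simp only [Sig.lp] at hi
      rw [vsU_0, vsU_1]
      exact vsF_le _ _ hi
    · intro i hi
      simp only [Sig.lp] at hi
      rw [vsU_0, vsU_1]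
      exact vsF_gt _ _ (by omega)
    · intro i hi
      simp only [Sig.lp, hL] at hi
      rw [vsU_2, vsU_1]
      change t 2 i = vsF p.length (t 0) (t 2) i
      rcases lt_trichotomy i (p.length + 1) with h | h | h
      · rw [vsF_le _ _ (by omega), h3 i (by omega), h1 i (by omega)]
      · rw [vsF_eq _ _ h]
      · rw [vsF_gt _ _ (by omega), h3 i (by omega), ← h2 (i - 2) (by omega)]
        congr 1
        omega
    · intro j hj
      rw [vsU_j _ _ (by omega)]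
      exact h5 j hj
  · intro t ht
    obtain ⟨h1, h2, h3, h5⟩ := ha t ht
    funext i
    change vsF p.length (t 0) (t 2) i = t 1 i
    rcases lt_trichotomy i (p.length + 1) with h | h | h
    · rw [vsF_le _ _ (by omega), h1 i (by omega)]
    · rw [vsF_eq _ _ h, h3 i (by omega)]
    · rw [vsF_gt _ _ (by omega), ← h2 (i - 2) (by omega)]
      congr 1
      omega
  · intro t ht
    obtain ⟨h1, h2, h3, h5⟩ := hb t ht
    funext i
    change vsF (p.length + 1) (t 0) (t 2) i = t 1 i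
    rcases lt_trichotomy i (p.length + 2) with h | h | h
    · rw [vsF_le _ _ (by omega), h1 i (by omega)]
    · rw [vsF_eq _ _ h, h3 i (by omega)]
    · rw [vsF_gt _ _ (by omega), ← h2 (i - 2) (by omega)]
      congr 1
      omega
  · intro t ht t' ht'
    obtain ⟨h1, h2, h3, h5⟩ := ha t ht
    obtain ⟨h1', h2', h3', h5'⟩ := ha t' ht'
    rw [vs_kq2, vs_kq2, vs_k0, vs_k0, vs_k c _ _ _ rfl, vs_k c _ _ _ (hL e)]
    simp only [vsU_0, vsU_1, vsU_2]
    change 0 + vsK c (!s) x e (vsF (p.length + 1) (t 0) (t 2) p.length) (vsF (p.length + 1) (t 0) (t 2) (p.length + 1))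
      (vsF (p.length + 1) (t 0) (t 2) (p.length + 2)) (t 2 (p.length + 1))
      (vsF (p.length + 1) (t' 0) (t' 2) p.length) (vsF (p.length + 1) (t' 0) (t' 2) (p.length + 1))
      (vsF (p.length + 1) (t' 0) (t' 2) (p.length + 2)) (t' 2 (p.length + 1)) = _
    have b0 (u v : ℕ → ℚ) : vsF (p.length + 1) u v p.length = u p.length := vsF_le _ _ (by omega)
    have b1 (u v : ℕ → ℚ) : vsF (p.length + 1) u v (p.length + 1) = u (p.length + 1) := vsF_le _ _ (by omega)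
    have b2 (u v : ℕ → ℚ) : vsF (p.length + 1) u v (p.length + 2) = v (p.length + 2) := vsF_eq _ _ rfl
    have a0 := h2 p.length (by omega)
    have a0' := h2' p.length (by omega)
    have a1 := h3 (p.length + 1) (by omega)
    have a1' := h3' (p.length + 1) (by omega)
    have a2 := h2 (p.length + 1) (by omega)
    have a2' := h2' (p.length + 1) (by omega)
    have a5 : p.length + 1 + 1 = p.length + 2 := by omega
    rw [b0, b1, b2, b0, b1, b2, a5, a0, a0', a2, a2', ← a1, ← a1', vs_rot]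

theorem k_slide_cap (c : ℚ) (s e x : Bool) (p q : List Bool) :
    KIso c [⟨p ++ [e], cross s x (!e), q⟩, ⟨p, cap e, [x] ++ q⟩] [⟨p, cross (!s) e x, [!e] ++ q⟩, ⟨p ++ [x], cap e, q⟩] := by
  have hL (z : Bool) : (p ++ [z]).length = p.length + 1 := by simp
  have ha : ∀ t ∈ Sr [⟨p ++ [e], cross s x (!e), q⟩, ⟨p, cap e, [x] ++ q⟩],
      (∀ i, i ≤ p.length → t 1 i = t 2 i) ∧ (∀ i, p.length ≤ i → t 1 (i + 2) = t 2 i) ∧
      (∀ i, i ≠ p.length + 2 → t 1 i = t 0 i) ∧ ∀ j, 2 < j → t j = 0 := by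
    intro t ht
    obtain ⟨h1, h2, h4⟩ := vs_mem.mp ht
    refine ⟨h2.1, h2.2, fun i hi => h1 i ?_, h4⟩
    simpa [Sig.lp] using hi
  have hb : ∀ t ∈ Sr [⟨p, cross (!s) e x, [!e] ++ q⟩, ⟨p ++ [x], cap e, q⟩],
      (∀ i, i ≤ p.length + 1 → t 1 i = t 2 i) ∧ (∀ i, p.length + 1 ≤ i → t 1 (i + 2) = t 2 i) ∧
      (∀ i, i ≠ p.length + 1 → t 1 i = t 0 i) ∧ ∀ j, 2 < j → t j = 0 := by
    intro t ht
    obtain ⟨h1, h2, h4⟩ := vs_mem.mp ht
    refine ⟨fun i hi => h2.1 i ?_, fun i hi => h2.2 i ?_, h1, h4⟩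
    · simpa [Sig.lp] using hi
    · simpa [Sig.lp] using hi
  refine vs_iso c (vsB (p.length + 1)) (vsB p.length) ?_ ?_ ?_ ?_ ?_
  · intro t ht
    obtain ⟨h1, h2, h3, h5⟩ := ha t ht
    refine vs_mem.mpr ⟨?_, ⟨?_, ?_⟩, ?_⟩
    · intro i hi
      simp only [Sig.lp] at hi
      rw [vsU_0, vsU_1]
      change vsF (p.length + 1) (t 2) (t 0) i = t 0 i
      rcases lt_trichotomy i (p.length + 2) with h | h | h
      · rw [vsF_le _ _ (by omega), ← h3 i (by omega), h1 i (by omega)]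
      · rw [vsF_eq _ _ h]
      · rw [vsF_gt _ _ (by omega), ← h3 i (by omega), ← h2 (i - 2) (by omega)]
        congr 1
        omega
    · intro i hi
      simp only [Sig.lp, hL] at hi
      rw [vsU_2, vsU_1]
      exact vsF_le _ _ hi
    · intro i hi
      simp only [Sig.lp, hL] at hi
      rw [vsU_2, vsU_1]
      exact vsF_gt _ _ (by omega)
    · intro j hj
      rw [vsU_j _ _ (by omega)]
      exact h5 j hj
  · intro t ht
    obtain ⟨h1, h2, h3, h5⟩ := hb t ht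
    refine vs_mem.mpr ⟨?_, ⟨?_, ?_⟩, ?_⟩
    · intro i hi
      simp only [Sig.lp, hL] at hi
      rw [vsU_0, vsU_1]
      change vsF p.length (t 2) (t 0) i = t 0 i
      rcases lt_trichotomy i (p.length + 1) with h | h | h
      · rw [vsF_le _ _ (by omega), ← h3 i (by omega), h1 i (by omega)]
      · rw [vsF_eq _ _ h]
      · rw [vsF_gt _ _ (by omega), ← h3 i (by omega), ← h2 (i - 2) (by omega)]
        congr 1
        omega
    · intro i hi
      simp only [Sig.lp] at hi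
      rw [vsU_2, vsU_1]
      exact vsF_le _ _ hi
    · intro i hi
      simp only [Sig.lp] at hi
      rw [vsU_2, vsU_1]
      exact vsF_gt _ _ (by omega)
    · intro j hj
      rw [vsU_j _ _ (by omega)]
      exact h5 j hj
  · intro t ht
    obtain ⟨h1, h2, h3, h5⟩ := ha t ht
    funext i
    change vsF p.length (t 2) (t 0) i = t 1 i
    rcases lt_trichotomy i (p.length + 1) with h | h | h
    · rw [vsF_le _ _ (by omega), h1 i (by omega)]
    · rw [vsF_eq _ _ h, h3 i (by omega)]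
    · rw [vsF_gt _ _ (by omega), ← h2 (i - 2) (by omega)]
      congr 1
      omega
  · intro t ht
    obtain ⟨h1, h2, h3, h5⟩ := hb t ht
    funext i
    change vsF (p.length + 1) (t 2) (t 0) i = t 1 i
    rcases lt_trichotomy i (p.length + 2) with h | h | h
    · rw [vsF_le _ _ (by omega), h1 i (by omega)]
    · rw [vsF_eq _ _ h, h3 i (by omega)]
    · rw [vsF_gt _ _ (by omega), ← h2 (i - 2) (by omega)]
      congr 1
      omega
  · intro t ht t' ht'
    obtain ⟨h1, h2, h3, h5⟩ := ha t ht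
    obtain ⟨h1', h2', h3', h5'⟩ := ha t' ht'
    rw [vs_kq2, vs_kq2, vs_k1, vs_k1, vs_k c _ _ _ rfl, vs_k c _ _ _ (hL e)]
    simp only [vsU_0, vsU_1, vsU_2]
    change vsK c (!s) e x (t 0 p.length) (t 0 (p.length + 1)) (t 0 (p.length + 2)) (vsF (p.length + 1) (t 2) (t 0) (p.length + 1))
      (t' 0 p.length) (t' 0 (p.length + 1)) (t' 0 (p.length + 2)) (vsF (p.length + 1) (t' 2) (t' 0) (p.length + 1)) + 0 = _
    have b1 (u v : ℕ → ℚ) : vsF (p.length + 1) u v (p.length + 1) = u (p.length + 1) := vsF_le _ _ (by omega)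
    have a1 := h2 p.length (by omega)
    have a1' := h2' p.length (by omega)
    have a2 := h1 p.length (by omega)
    have a2' := h1' p.length (by omega)
    have a3 := h3 p.length (by omega)
    have a3' := h3' p.length (by omega)
    have c1 := h2 (p.length + 1) (by omega)
    have c1' := h2' (p.length + 1) (by omega)
    have c2 := h3 (p.length + 1 + 2) (by omega)
    have c2' := h3' (p.length + 1 + 2) (by omega)
    have a5 : p.length + 1 + 1 = p.length + 2 := by omega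
    rw [b1, b1, a5, a1, a1', ← a2, ← a2', a3, a3', ← c1, ← c1', c2, c2', add_zero, add_comm, add_zero, vs_rot']

end Pool.Agent.Lib.MP_177a0e_gt.LT
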