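import Pool.Agent.Lib.MP_177a0e_gt.LT.Defs

/-!
# the form: zigzags and births.

MODEL: `Sig/VZ.lean` (white states, proved), with `⊤` instead of `whiteM`; `k_birth` is `v_birth_even` for all `p`. The sign `sn` of cups and caps is `0`, so all forms are `0` (`simp [kq, kl, sn]`).
PROOFS (`L = |p|`). A state of `[]` is `(t 0)` (all other levels zero).
* `k_zig1`: a state of the left side is `(t 0, t 1, t 2)`, `t 1 i = t 0 i` for `i ≤ L + 1`, `t 1 (i + 2) = t 0 i` for `i ≥ L + 1`, `t 1 i = t 2 i` for `i ≤ L`, `t 1 (i + 2) = t 2 i` for `i ≥ L`. So `t 2 = t 0`, and `t 1` is determined by `t 0`: `t 1 i = if i ≤ L + 1 then t 0 i else t 0 (i - 2)`. `Φ` is `t ↦ (t 0)`.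
* `k_zig2`: the same formula for `t 1`.
* `k_birth`: `t 2 = t 0`, `t 1` is `t 0` shifted, with the free value `t 1 (L + 1)`.
-/

namespace Pool.Agent.Lib.MP_177a0e_gt.LT

open Pool.Agent.Lib.MP_177a0e_gt.Tangle Pool.Agent.Lib.MP_177a0e_gt.Tangle.Gen
open Pool.Agent.Lib.MP_177a0e_gt.Sig

/-- the bottom level of a state, as a state of the empty word -/
private def kz0 : (ℕ → ℕ → ℚ) →ₗ[ℚ] (ℕ → ℕ → ℚ) where
  toFun t := fun j => if j = 0 then t 0 else 0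
  map_add' t u := by
    funext j
    by_cases hj : j = 0
    · simp [hj]
    · simp [hj]
  map_smul' r t := by
    funext j
    by_cases hj : j = 0
    · simp [hj]
    · simp [hj]

private theorem kz0_zero (t : ℕ → ℕ → ℚ) : kz0 t 0 = t 0 := rfl

private theorem kz0_mem {w : Word} (t : Sr w) : kz0 t.1 ∈ Sr [] := by
  refine ⟨trivial, fun j => Submodule.mem_top, fun j hj => ?_⟩
  have h : j ≠ 0 := Nat.pos_iff_ne_zero.1 hj
  exact if_neg h

private def kzL (w : Word) : Sr w →ₗ[ℚ] Sr [] :=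
  LinearMap.codRestrict (Sr []) (kz0.comp (Sr w).subtype) fun t => kz0_mem t

private theorem kzL_zero {w : Word} (t : Sr w) : (kzL w t).1 0 = t.1 0 := rfl

private theorem kz_run {s1 s2 : Slice} (t : Sr [s1, s2]) : (t.1 0, t.1 1) ∈ fitM ℚ s1 ∧
    (t.1 1, t.1 2) ∈ fitM ℚ s2 := ⟨t.2.1.1, t.2.1.2.1⟩

private theorem kz_mk {s1 s2 : Slice} (v t1 : ℕ → ℚ)
    (h1 : (v, t1) ∈ fitM ℚ s1) (h2 : (t1, v) ∈ fitM ℚ s2) :
    (fun j => if j = 0 then v else if j = 1 then t1 else if j = 2 then v else 0 : ℕ → ℕ → ℚ) ∈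
      Sr [s1, s2] := by
  refine ⟨⟨h1, h2, trivial⟩, fun j => Submodule.mem_top, fun j hj => ?_⟩
  have h : 2 < j := hj
  show (if j = 0 then v else if j = 1 then t1 else if j = 2 then v else 0) = 0
  rw [if_neg (by omega), if_neg (by omega), if_neg (by omega)]

private theorem kz_kq (c : ℚ) {s1 s2 : Slice} (h1 : sn s1 = 0) (h2 : sn s2 = 0) (x y : ℕ → ℕ → ℚ) :
    kq c [s1, s2] x y = 0 := by
  simp [kq, kl, h1, h2]

private theorem kz_emp (u : Sr []) (v : Sr []) (h : u.1 0 = v.1 0) : u = v := by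
  apply Subtype.ext
  funext j
  by_cases hj : j = 0
  · rw [hj, h]
  · have h0 : ([] : Word).length < j := Nat.pos_of_ne_zero hj
    rw [u.2.2.2 j h0, v.2.2.2 j h0]

private theorem kz_ext {s1 s2 : Slice} (t : Sr [s1, s2]) (h0 : t.1 0 = 0) (h1 : t.1 1 = 0)
    (h2 : t.1 2 = 0) : t = 0 := by
  apply Subtype.ext
  funext j
  show t.1 j = 0
  by_cases hj : 2 < j
  · exact t.2.2.2 j hj
  · have : j = 0 ∨ j = 1 ∨ j = 2 := by omega
    rcases this with rfl | rfl | rfl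
    · exact h0
    · exact h1
    · exact h2

private theorem kz_iso (c : ℚ) (s1 s2 : Slice) (h1 : sn s1 = 0) (h2 : sn s2 = 0)
    (hb : ∀ t0 t1 t2 : ℕ → ℚ, (t0, t1) ∈ fitM ℚ s1 → (t1, t2) ∈ fitM ℚ s2 → t2 = t0)
    (hinj : ∀ t1 : ℕ → ℚ, (0, t1) ∈ fitM ℚ s1 → (t1, 0) ∈ fitM ℚ s2 → t1 = 0)
    (hsurj : ∀ v : ℕ → ℚ, ∃ t1 : ℕ → ℚ, (v, t1) ∈ fitM ℚ s1 ∧ (t1, v) ∈ fitM ℚ s2) :
    KIso c [s1, s2] [] := by
  have hi : Function.Injective (kzL [s1, s2]) := by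
    rw [injective_iff_map_eq_zero]
    intro t ht
    have h0 : t.1 0 = 0 := by
      rw [← kzL_zero, ht]
      rfl
    obtain ⟨r1, r2⟩ := kz_run t
    have h2 := hb _ _ _ r1 r2
    rw [h0] at h2
    rw [h0] at r1
    rw [h2] at r2
    exact kz_ext t h0 (hinj _ r1 r2) h2
  have hs : Function.Surjective (kzL [s1, s2]) := by
    intro u
    obtain ⟨t1, a1, a2⟩ := hsurj (u.1 0)
    exact ⟨⟨_, kz_mk (u.1 0) t1 a1 a2⟩, kz_emp _ _ rfl⟩
  refine ⟨LinearEquiv.ofBijective (kzL [s1, s2]) ⟨hi, hs⟩, fun t => ⟨rfl, ?_, fun t' => ?_⟩⟩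
  · obtain ⟨r1, r2⟩ := kz_run t
    exact (hb _ _ _ r1 r2).symm
  · rw [kz_kq c h1 h2]
    rfl

private theorem kz_add (c : ℚ) (s1 s2 : Slice) (k : ℕ) (h1 : sn s1 = 0) (h2 : sn s2 = 0)
    (hb : ∀ t0 t1 t2 : ℕ → ℚ, (t0, t1) ∈ fitM ℚ s1 → (t1, t2) ∈ fitM ℚ s2 → t2 = t0)
    (hinj : ∀ t1 : ℕ → ℚ, (0, t1) ∈ fitM ℚ s1 → (t1, 0) ∈ fitM ℚ s2 → t1 k = 0 → t1 = 0)
    (hsurj : ∀ v : ℕ → ℚ, ∀ r : ℚ, ∃ t1 : ℕ → ℚ, (v, t1) ∈ fitM ℚ s1 ∧
      (t1, v) ∈ fitM ℚ s2 ∧ t1 k = r) :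
    KAdd c 0 [s1, s2] [] := by
  have hl : IsLinearMap ℚ (fun t : Sr [s1, s2] => t.1 1 k) := ⟨fun _ _ => rfl, fun _ _ => rfl⟩
  set f : Sr [s1, s2] →ₗ[ℚ] (Sr [] × ℚ) := (kzL [s1, s2]).prod (IsLinearMap.mk' _ hl) with hf
  have hi : Function.Injective f := by
    rw [injective_iff_map_eq_zero]
    intro t ht
    have ht1 : kzL [s1, s2] t = 0 := congrArg Prod.fst ht
    have ht2 : t.1 1 k = 0 := congrArg Prod.snd ht
    have h0 : t.1 0 = 0 := by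
      rw [← kzL_zero, ht1]
      rfl
    obtain ⟨r1, r2⟩ := kz_run t
    have h2 := hb _ _ _ r1 r2
    rw [h0] at h2
    rw [h0] at r1
    rw [h2] at r2
    exact kz_ext t h0 (hinj _ r1 r2 ht2) h2
  have hs : Function.Surjective f := by
    rintro ⟨u, r⟩
    obtain ⟨t1, a1, a2, a3⟩ := hsurj (u.1 0) r
    exact ⟨⟨_, kz_mk (u.1 0) t1 a1 a2⟩, Prod.ext (kz_emp _ _ rfl) a3⟩
  refine ⟨LinearEquiv.ofBijective f ⟨hi, hs⟩, fun t => ⟨rfl, ?_, fun t' => ?_⟩⟩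
  · obtain ⟨r1, r2⟩ := kz_run t
    exact (hb _ _ _ r1 r2).symm
  · rw [kz_kq c h1 h2]
    have e : kq c ([] : Word) ((LinearEquiv.ofBijective f ⟨hi, hs⟩ t).1.1)
      ((LinearEquiv.ofBijective f ⟨hi, hs⟩ t').1.1) = 0 := rfl
    rw [e]
    simp

theorem k_zig1 (c : ℚ) (x : Bool) (p q : List Bool) : KIso c [⟨p ++ [x], cup (!x), q⟩, ⟨p, cap x, [x] ++ q⟩] [] := by
  have e : (p ++ [x]).length = p.length + 1 := by simp
  have f1 : ∀ a b : ℕ → ℚ, (a, b) ∈ fitM ℚ ⟨p ++ [x], cup (!x), q⟩ ↔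
      (∀ i, i ≤ p.length + 1 → b i = a i) ∧ ∀ i, p.length + 1 ≤ i → b (i + 2) = a i := by
    intro a b
    rw [← e]
    exact Iff.rfl
  have f2 : ∀ a b : ℕ → ℚ, (a, b) ∈ fitM ℚ ⟨p, cap x, [x] ++ q⟩ ↔
      (∀ i, i ≤ p.length → a i = b i) ∧ ∀ i, p.length ≤ i → a (i + 2) = b i := fun _ _ => Iff.rfl
  refine kz_iso c _ _ rfl rfl ?_ ?_ ?_
  · intro t0 t1 t2 a1 a2
    obtain ⟨b1, b2⟩ := (f1 _ _).1 a1
    obtain ⟨c1, c2⟩ := (f2 _ _).1 a2
    funext i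
    by_cases h : i ≤ p.length
    · rw [← c1 i h, b1 i (by omega)]
    · rw [← c2 i (by omega), b2 i (by omega)]
  · intro t1 a1 a2
    obtain ⟨b1, b2⟩ := (f1 _ _).1 a1
    obtain ⟨c1, c2⟩ := (f2 _ _).1 a2
    funext i
    by_cases h : i ≤ p.length + 1
    · exact b1 i h
    · obtain ⟨j, rfl⟩ : ∃ j, i = j + 2 := ⟨i - 2, by omega⟩
      exact c2 j (by omega)
  · intro v
    refine ⟨fun i => if i ≤ p.length + 1 then v i else v (i - 2), (f1 _ _).2 ⟨?_, ?_⟩,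
      (f2 _ _).2 ⟨?_, ?_⟩⟩
    · intro i hi
      exact if_pos hi
    · intro i hi
      have h : ¬ (i + 2 ≤ p.length + 1) := by omega
      exact if_neg h
    · intro i hi
      exact if_pos (by omega)
    · intro i hi
      show (if i + 2 ≤ p.length + 1 then v (i + 2) else v (i + 2 - 2)) = v i
      rw [if_neg (by omega), Nat.add_sub_cancel]

theorem k_zig2 (c : ℚ) (x : Bool) (p q : List Bool) : KIso c [⟨p, cup x, [x] ++ q⟩, ⟨p ++ [x], cap (!x), q⟩] [] := by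
  have e : (p ++ [x]).length = p.length + 1 := by simp
  have f1 : ∀ a b : ℕ → ℚ, (a, b) ∈ fitM ℚ ⟨p, cup x, [x] ++ q⟩ ↔
      (∀ i, i ≤ p.length → b i = a i) ∧ ∀ i, p.length ≤ i → b (i + 2) = a i := fun _ _ => Iff.rfl
  have f2 : ∀ a b : ℕ → ℚ, (a, b) ∈ fitM ℚ ⟨p ++ [x], cap (!x), q⟩ ↔
      (∀ i, i ≤ p.length + 1 → a i = b i) ∧ ∀ i, p.length + 1 ≤ i → a (i + 2) = b i := by
    intro a b
    rw [← e]
    exact Iff.rfl
  refine kz_iso c _ _ rfl rfl ?_ ?_ ?_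
  · intro t0 t1 t2 a1 a2
    obtain ⟨b1, b2⟩ := (f1 _ _).1 a1
    obtain ⟨c1, c2⟩ := (f2 _ _).1 a2
    funext i
    by_cases h : i ≤ p.length
    · rw [← c1 i (by omega), b1 i h]
    · rw [← c2 i (by omega), b2 i (by omega)]
  · intro t1 a1 a2
    obtain ⟨b1, b2⟩ := (f1 _ _).1 a1
    obtain ⟨c1, c2⟩ := (f2 _ _).1 a2
    funext i
    by_cases h : i ≤ p.length + 1
    · exact c1 i h
    · obtain ⟨j, rfl⟩ : ∃ j, i = j + 2 := ⟨i - 2, by omega⟩
      exact b2 j (by omega)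
  · intro v
    refine ⟨fun i => if i ≤ p.length + 1 then v i else v (i - 2), (f1 _ _).2 ⟨?_, ?_⟩,
      (f2 _ _).2 ⟨?_, ?_⟩⟩
    · intro i hi
      exact if_pos (by omega)
    · intro i hi
      show (if i + 2 ≤ p.length + 1 then v (i + 2) else v (i + 2 - 2)) = v i
      rw [if_neg (by omega), Nat.add_sub_cancel]
    · intro i hi
      exact if_pos hi
    · intro i hi
      have h : ¬ (i + 2 ≤ p.length + 1) := by omega
      exact if_neg h

theorem k_birth (c : ℚ) (x : Bool) (p q : List Bool) : KAdd c 0 [⟨p, cup x, q⟩, ⟨p, cap x, q⟩] [] := by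
  have f1 : ∀ a b : ℕ → ℚ, (a, b) ∈ fitM ℚ ⟨p, cup x, q⟩ ↔
      (∀ i, i ≤ p.length → b i = a i) ∧ ∀ i, p.length ≤ i → b (i + 2) = a i := fun _ _ => Iff.rfl
  have f2 : ∀ a b : ℕ → ℚ, (a, b) ∈ fitM ℚ ⟨p, cap x, q⟩ ↔
      (∀ i, i ≤ p.length → a i = b i) ∧ ∀ i, p.length ≤ i → a (i + 2) = b i := fun _ _ => Iff.rfl
  refine kz_add c _ _ (p.length + 1) rfl rfl ?_ ?_ ?_
  · intro t0 t1 t2 a1 a2
    obtain ⟨b1, b2⟩ := (f1 _ _).1 a1
    obtain ⟨c1, c2⟩ := (f2 _ _).1 a2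
    funext i
    by_cases h : i ≤ p.length
    · rw [← c1 i h, b1 i h]
    · rw [← c2 i (by omega), b2 i (by omega)]
  · intro t1 a1 a2 hk
    obtain ⟨b1, b2⟩ := (f1 _ _).1 a1
    funext i
    by_cases h : i ≤ p.length
    · exact b1 i h
    · by_cases h' : i = p.length + 1
      · rw [h']
        exact hk
      · obtain ⟨j, rfl⟩ : ∃ j, i = j + 2 := ⟨i - 2, by omega⟩
        exact b2 j (by omega)
  · intro v r
    refine ⟨fun i => if i ≤ p.length then v i else if i = p.length + 1 then r else v (i - 2),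
      (f1 _ _).2 ⟨?_, ?_⟩, (f2 _ _).2 ⟨?_, ?_⟩, ?_⟩
    · intro i hi
      exact if_pos hi
    · intro i hi
      show (if i + 2 ≤ p.length then v (i + 2) else if i + 2 = p.length + 1 then r else v (i + 2 - 2)) = v i
      rw [if_neg (by omega), if_neg (by omega), Nat.add_sub_cancel]
    · intro i hi
      exact if_pos hi
    · intro i hi
      show (if i + 2 ≤ p.length then v (i + 2) else if i + 2 = p.length + 1 then r else v (i + 2 - 2)) = v i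
      rw [if_neg (by omega), if_neg (by omega), Nat.add_sub_cancel]
    · show (if p.length + 1 ≤ p.length then v (p.length + 1) else
        if p.length + 1 = p.length + 1 then r else v (p.length + 1 - 2)) = r
      rw [if_neg (by omega), if_pos rfl]

end Pool.Agent.Lib.MP_177a0e_gt.LT
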