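import Pool.Agent.Lib.MP_177a0e_gt.LT.Cx
import Pool.Agent.Lib.MP_177a0e_gt.LT.Wr
import Pool.Agent.Lib.MP_177a0e_gt.LT.KI
import Pool.Agent.Lib.MP_177a0e_gt.LT.KZ
import Pool.Agent.Lib.MP_177a0e_gt.LT.KR1
import Pool.Agent.Lib.MP_177a0e_gt.LT.KR2
import Pool.Agent.Lib.MP_177a0e_gt.LT.KR3
import Pool.Agent.Lib.MP_177a0e_gt.LT.KS

/-!
# the signatures are invariant under isotopies and births.
-/

namespace Pool.Agent.Lib.MP_177a0e_gt.LT

open Pool.Agent.Lib.MP_177a0e_gt.Tangle Pool.Agent.Lib.MP_177a0e_gt.Tangle.Gen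
open Pool.Agent.Lib.MP_177a0e_gt.Sig

private theorem KInv_split (c : ℚ) (u a v : Word) :
    ksig c (u ++ a ++ v) = sg (kw c (u ++ a ++ v)) - (wr u + wr a + wr v) := by
  unfold ksig
  rw [wr_append, wr_append]

private theorem KInv_sz (c : Bool) : -sz c = 1 ∨ -sz c = -1 ∨ -sz c = 0 := by
  cases c
  · exact Or.inl rfl
  · exact Or.inr (Or.inl rfl)

private theorem KInv_iso (c : ℚ) {a b : Word} (h : KIso c a b) (hc : wr a = wr b) (u v : Word) :
    ksig c (u ++ a ++ v) = ksig c (u ++ b ++ v) := by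
  rw [KInv_split, KInv_split, ksg_iso c h, hc]

private theorem KInv_add (c : ℚ) {ε : ℤ} (hε : ε = 1 ∨ ε = -1 ∨ ε = 0) {a b : Word} (h : KAdd c ε a b)
    (hc : wr a = wr b + ε) (u v : Word) :
    ksig c (u ++ a ++ v) = ksig c (u ++ b ++ v) := by
  rw [KInv_split, KInv_split, ksg_add hε c h, hc]
  ring

theorem ksig_rel (c : ℚ) (hc : 2 * c + 1 ≠ 0) {a b : Word} (h : Rel a b) (u v : Word) :
    ksig c (u ++ a ++ v) = ksig c (u ++ b ++ v) := by
  cases h with
  | interchange g g' p q r => exact KInv_iso c (k_inter c g g' p q r) (wr_inter g g' p q r) u v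
  | zigzag₁ x p q => exact KInv_iso c (k_zig1 c x p q) (wr_zig _ _ _ _ _ _) u v
  | zigzag₂ x p q => exact KInv_iso c (k_zig2 c x p q) (wr_zig _ _ _ _ _ _) u v
  | r1_cup s x p q =>
    refine KInv_add c (KInv_sz s) (k_r1cup c s x p q) ?_ u v
    rw [wr_r1cup, wr_cup, zero_add]
  | r1_cap s x p q =>
    refine KInv_add c (KInv_sz s) (k_r1cap c s x p q) ?_ u v
    rw [wr_r1cap, wr_cap, zero_add]
  | r2 s x y p q =>
    rw [KInv_split, KInv_split, ksg_r2 c s x y p q, wr_r2, List.append_nil]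
    rfl
  | r3 s x y z p q => exact KInv_iso c (k_r3 c hc s x y z p q) (wr_r3 s x y z p q) u v
  | slide_cup s e x p q => exact KInv_iso c (k_slide_cup c s e x p q) (wr_slide_cup s e x p q) u v
  | slide_cap s e x p q => exact KInv_iso c (k_slide_cap c s e x p q) (wr_slide_cap s e x p q) u v

theorem ksig_birth (c : ℚ) {a b : Word} (h : BirthRel a b) (u v : Word) : ksig c (u ++ a ++ v) = ksig c (u ++ b ++ v) := by
  cases h with
  | mk x p q =>
    refine (KInv_add c (Or.inr (Or.inr rfl)) (k_birth c x p q) ?_ u v).symm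
    rw [wr_zig]
    rfl

theorem ksig_local (c : ℚ) (hc : 2 * c + 1 ≠ 0) {d e : List Bool} {w w' : Word} (h : Local Rel d e w w') :
    ksig c w = ksig c w' := by
  cases h with
  | mk u a b v h _ _ => exact ksig_rel c hc h u v

theorem ksig_nil (c : ℚ) : ksig c [] = 0 := by
  have h : kw c ([] : Word) = 0 := by
    ext x y
    rfl
  unfold ksig sg
  rw [h, neg_zero, sub_self]
  rfl

end Pool.Agent.Lib.MP_177a0e_gt.LT
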