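import Pool.Agent.Lib.MP_177a0e_gt.LT.TorD

/-!
# the pivots by trigonometric functions.

`c = cos φ`, `γ = 2 c ^ 2 - 1 = cos (2 φ)`.
* `dk_trig`: induction: `d_1 = 2 cos 2φ = sin 4φ / sin 2φ`; `d_{k+1} = 2 cos 2φ - sin 2kφ / sin 2(k+1)φ = sin 2(k+2)φ / sin 2(k+1)φ` (`2 cos 2φ sin a = sin (a + 2φ) + sin (a - 2φ)`).
* `ek_trig`: induction: `e_{k+1} = (2 c - e_k) / d_{k+1}`, `d_{k+1} = sin 2(k+2)φ / sin 2(k+1)φ`: `2 cos φ sin 2(k+1)φ - sin (2k+1)φ + (-1)^k sin φ = sin (2k+3)φ - (-1)^{k+1} sin φ` (`2 cos φ sin a = sin (a + φ) + sin (a - φ)`, `a = 2(k+1)φ`). (`k = 0`: the formula gives `0 = ek c 0`.)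
* `fk_trig`: induction on `n ≥ 1`: `f_1 = 1 = tan φ (cos 2φ + 1) / sin 2φ`; `f_{n+1} = f_n + 1 - d_n e_n ^ 2`, `d_n e_n ^ 2 = (sin (2n+1)φ - ε sin φ) ^ 2 / (sin 2nφ sin 2(n+1)φ)`, `ε = (-1) ^ n`: with `a = 2nφ`:
  `tan φ (cos (a + 2φ) + ε) / sin (a + 2φ) = tan φ (cos a - ε) / sin a + 1 - (sin (a + φ) - ε sin φ) ^ 2 / (sin a sin (a + 2φ))`, `ε ^ 2 = 1`. (Write everything in `sin a, cos a, sin φ, cos φ`; multiply by `cos φ sin a sin (a + 2φ)`; `linear_combination` of `sin ^ 2 + cos ^ 2 = 1`; `cos φ ≠ 0` since `sin 2φ ≠ 0`.)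
-/

namespace Pool.Agent.Lib.MP_177a0e_gt.LT

open Pool.Agent.Lib.MP_177a0e_gt.Tangle Pool.Agent.Lib.MP_177a0e_gt.Tangle.Gen
open Pool.Agent.Lib.MP_177a0e_gt.Sig

theorem dk_trig (c : ℚ) (φ : ℝ) (hc : (c : ℝ) = Real.cos φ) (n : ℕ) (h : ∀ k : ℕ, 1 ≤ k → k ≤ n → Real.sin (2 * k * φ) ≠ 0) :
    ∀ k : ℕ, 1 ≤ k → k ≤ n → ((dk c k : ℚ) : ℝ) = Real.sin (2 * (k + 1) * φ) / Real.sin (2 * k * φ) := by
  have hc2 : ((2 * (2 * c ^ 2 - 1) : ℚ) : ℝ) = 2 * Real.cos (2 * φ) := by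
    push_cast
    rw [hc, Real.cos_two_mul]
  intro k
  induction k with
  | zero => intro h1; omega
  | succ k ih =>
    intro _ hk
    have h0 : Real.sin (2 * ((k + 1 : ℕ) : ℝ) * φ) ≠ 0 := h (k + 1) (by omega) hk
    have e1 : dk c (k + 1) = 2 * (2 * c ^ 2 - 1) - (dk c k)⁻¹ := rfl
    have e2 : 2 * Real.cos (2 * φ) * Real.sin (2 * ((k + 1 : ℕ) : ℝ) * φ) =
        Real.sin (2 * (((k + 1 : ℕ) : ℝ) + 1) * φ) + Real.sin (2 * (k : ℝ) * φ) := by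
      rw [show 2 * (((k + 1 : ℕ) : ℝ) + 1) * φ = 2 * ((k + 1 : ℕ) : ℝ) * φ + 2 * φ by ring,
        show 2 * (k : ℝ) * φ = 2 * ((k + 1 : ℕ) : ℝ) * φ - 2 * φ by push_cast; ring,
        Real.sin_add, Real.sin_sub]
      ring
    rw [e1, Rat.cast_sub, hc2, Rat.cast_inv, eq_div_iff h0]
    rcases Nat.eq_zero_or_pos k with hk0 | hk0
    · subst hk0
      have e3 : dk c 0 = 0 := rfl
      rw [e3, Rat.cast_zero, inv_zero, sub_zero, e2]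
      simp
    · rw [ih hk0 (by omega), inv_div]
      have h1 : Real.sin (2 * ((k : ℝ) + 1) * φ) ≠ 0 := by
        have : (2 * ((k + 1 : ℕ) : ℝ) * φ) = 2 * ((k : ℝ) + 1) * φ := by push_cast; ring
        rw [← this]
        exact h0
      have e4 : (2 * ((k + 1 : ℕ) : ℝ) * φ) = 2 * ((k : ℝ) + 1) * φ := by push_cast; ring
      rw [sub_mul, e2, e4, div_mul_cancel₀ _ h1]
      ring

theorem ek_trig (c : ℚ) (φ : ℝ) (hc : (c : ℝ) = Real.cos φ) (n : ℕ) (h : ∀ k : ℕ, 1 ≤ k → k ≤ n + 1 → Real.sin (2 * k * φ) ≠ 0) :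
    ∀ k : ℕ, k ≤ n → ((ek c k : ℚ) : ℝ) = (Real.sin ((2 * k + 1) * φ) - (-1) ^ k * Real.sin φ) / Real.sin (2 * (k + 1) * φ) := by
  have hc2 : ((2 * c : ℚ) : ℝ) = 2 * Real.cos φ := by
    push_cast
    rw [hc]
  intro k
  induction k with
  | zero =>
    intro _
    have e1 : ek c 0 = 0 := rfl
    rw [e1]
    simp
  | succ k ih =>
    intro hk
    have h1 : Real.sin (2 * (((k + 1 : ℕ) : ℝ) + 1) * φ) ≠ 0 := by
      have := h (k + 2) (by omega) (by omega)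
      have e : (2 * ((k + 2 : ℕ) : ℝ) * φ) = 2 * (((k + 1 : ℕ) : ℝ) + 1) * φ := by
        push_cast
        ring
      rw [← e]
      exact this
    have h2 : Real.sin (2 * ((k + 1 : ℕ) : ℝ) * φ) ≠ 0 := h (k + 1) (by omega) (by omega)
    have e1 : ek c (k + 1) = (2 * c - ek c k) / dk c (k + 1) := rfl
    have e2 := dk_trig c φ hc (n + 1) h (k + 1) (by omega) (by omega)
    have e4 : (2 * ((k : ℝ) + 1) * φ) = 2 * ((k + 1 : ℕ) : ℝ) * φ := by push_cast; ring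
    rw [e1, Rat.cast_div, Rat.cast_sub, hc2, ih (by omega), e2, e4]
    have e3 : 2 * Real.cos φ * Real.sin (2 * ((k + 1 : ℕ) : ℝ) * φ) =
        Real.sin ((2 * ((k + 1 : ℕ) : ℝ) + 1) * φ) + Real.sin ((2 * (k : ℝ) + 1) * φ) := by
      rw [show (2 * ((k + 1 : ℕ) : ℝ) + 1) * φ = 2 * ((k + 1 : ℕ) : ℝ) * φ + φ by ring,
        show (2 * (k : ℝ) + 1) * φ = 2 * ((k + 1 : ℕ) : ℝ) * φ - φ by push_cast; ring,
        Real.sin_add, Real.sin_sub]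
      ring
    rw [div_div_eq_mul_div, div_left_inj' h1, sub_mul, e3, div_mul_cancel₀ _ h2, pow_succ]
    ring

theorem fk_trig (c : ℚ) (φ : ℝ) (hc : (c : ℝ) = Real.cos φ) (n : ℕ) (hn : 1 ≤ n) (h : ∀ k : ℕ, 1 ≤ k → k ≤ n → Real.sin (2 * k * φ) ≠ 0) :
    ((fk c n : ℚ) : ℝ) = Real.tan φ * (Real.cos (2 * n * φ) - (-1) ^ n) / Real.sin (2 * n * φ) := by
  induction n, hn using Nat.le_induction with
  | base =>
    have h1 : Real.sin (2 * ((1 : ℕ) : ℝ) * φ) ≠ 0 := h 1 le_rfl le_rfl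
    have e0 : (2 * ((1 : ℕ) : ℝ) * φ) = 2 * φ := by push_cast; ring
    rw [e0] at h1 ⊢
    rw [Real.sin_two_mul] at h1 ⊢
    have hs : Real.sin φ ≠ 0 := fun hh => h1 (by rw [hh]; ring)
    have hcos : Real.cos φ ≠ 0 := fun hh => h1 (by rw [hh]; ring)
    have e1 : fk c 1 = 1 := by
      unfold fk
      rw [Finset.sum_range_one]
      have e2 : dk c 0 = 0 := rfl
      rw [e2]
      norm_num
    rw [e1, Rat.cast_one, Real.cos_two_mul, Real.tan_eq_sin_div_cos]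
    field_simp
    ring
  | succ n hn ih =>
    have ih' := ih (fun k h1 h2 => h k h1 (by omega))
    have h1 : Real.sin (2 * ((n + 1 : ℕ) : ℝ) * φ) ≠ 0 := h (n + 1) (by omega) le_rfl
    have h2 : Real.sin (2 * (n : ℝ) * φ) ≠ 0 := h n hn (by omega)
    have h3 : Real.sin (2 * ((1 : ℕ) : ℝ) * φ) ≠ 0 := h 1 le_rfl (by omega)
    have e0 : (2 * ((1 : ℕ) : ℝ) * φ) = 2 * φ := by push_cast; ring
    rw [e0, Real.sin_two_mul] at h3
    have hcos : Real.cos φ ≠ 0 := fun hh => h3 (by rw [hh]; ring)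
    have e1 : fk c (n + 1) = fk c n + 1 - dk c n * ek c n ^ 2 := by
      unfold fk
      rw [Finset.sum_range_succ]
      push_cast
      ring
    have ed := dk_trig c φ hc n (fun k h1 h2 => h k h1 (by omega)) n hn le_rfl
    have ee := ek_trig c φ hc n h n le_rfl
    have a1 : (2 * ((n : ℝ) + 1) * φ) = 2 * (n : ℝ) * φ + 2 * φ := by ring
    have a2 : ((2 * (n : ℝ) + 1) * φ) = 2 * (n : ℝ) * φ + φ := by ring
    have a3 : (2 * ((n + 1 : ℕ) : ℝ) * φ) = 2 * (n : ℝ) * φ + 2 * φ := by push_cast; ring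
    rw [a3] at h1
    rw [a1] at ed ee
    rw [a2] at ee
    rw [e1, Rat.cast_sub, Rat.cast_add, Rat.cast_one, Rat.cast_mul, Rat.cast_pow, ih', ed, ee, a3]
    obtain ⟨ε, hε⟩ : ∃ ε : ℝ, ε = (-1) ^ n := ⟨_, rfl⟩
    have hε2 : ε ^ 2 = 1 := by
      rw [hε, ← pow_mul, mul_comm, pow_mul]
      norm_num
    have e5 : (-1 : ℝ) ^ (n + 1) = -ε := by
      rw [hε, pow_succ]
      ring
    rw [e5, ← hε, Real.tan_eq_sin_div_cos]
    have g1 := Real.sin_sq_add_cos_sq (2 * (n : ℝ) * φ)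
    have g2 := Real.sin_sq_add_cos_sq φ
    rw [Real.sin_add, Real.cos_two_mul, Real.sin_two_mul] at h1
    rw [Real.cos_add, Real.sin_add (2 * (n : ℝ) * φ) (2 * φ), Real.cos_two_mul,
      Real.sin_two_mul, Real.sin_add (2 * (n : ℝ) * φ) φ]
    obtain ⟨S, hS⟩ : ∃ S, S = Real.sin (2 * (n : ℝ) * φ) := ⟨_, rfl⟩
    obtain ⟨C, hC⟩ : ∃ C, C = Real.cos (2 * (n : ℝ) * φ) := ⟨_, rfl⟩
    obtain ⟨s, hs⟩ : ∃ s, s = Real.sin φ := ⟨_, rfl⟩
    obtain ⟨o, ho⟩ : ∃ o, o = Real.cos φ := ⟨_, rfl⟩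
    rw [← hS, ← hC, ← hs, ← ho] at h1
    rw [← hS] at h2
    rw [← ho] at hcos
    rw [← hS, ← hC] at g1
    rw [← hs, ← ho] at g2
    rw [← hS, ← hC, ← hs, ← ho]
    obtain ⟨D, hD⟩ : ∃ D, D = S * (2 * o ^ 2 - 1) + C * (2 * s * o) := ⟨_, rfl⟩
    rw [← hD] at h1 ⊢
    have key : s * (C * (2 * o ^ 2 - 1) - S * (2 * s * o) + ε) * S =
        s * (C - ε) * D + o * S * D - o * (S * o + C * s - ε * s) ^ 2 := by
      rw [hD]
      linear_combination o * (-S ^ 2 * g2 - s ^ 2 * g1 + s ^ 2 * hε2)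
    rw [sub_neg_eq_add]
    field_simp
    linear_combination -key

end Pool.Agent.Lib.MP_177a0e_gt.LT
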