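import Pool.Agent.Lib.MP_177a0e_gt.LT.TC
import Pool.Agent.Lib.MP_177a0e_gt.LT.TT
import Pool.Agent.Lib.MP_177a0e_gt.LT.Wr

/-!
# the signatures of the torus knots `T(2, n)`.

PROOF. `φ = π θ`, `n = n' + 1`. `tk_sg`: `sg = ∑_{k < n'} sign d_{k+1} + sign f_n` (the `d_k`, `1 ≤ k ≤ n'`, are not zero by `dk_trig` since `sin 2(k+1)φ ≠ 0`), `ksig c (tk n) = sg - n` (`wr_tk`).
* For a real number `x` which is not an integer the sign of `sin (π x)` is `(-1) ^ ⌊x⌋` (`sin_sgn`; `x = ⌊x⌋ + y`, `0 < y < 1`, `Real.sin_add_int_mul_pi`). `2 k θ` is not an integer for `1 ≤ k ≤ n`.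
* `sign d_k = 1 - 2 (⌊2 (k + 1) θ⌋ - ⌊2 k θ⌋)`, as `0 < 2 θ < 1`, the difference of the floors is `0` or `1`. The sum over `1 ≤ k ≤ n - 1` is `n - 1 - 2 ⌊2 n θ⌋` (telescoping, `⌊2 θ⌋ = 0`).
* `n` odd: `f_n = tan φ (cos 2nφ + 1) / sin 2nφ`, `tan φ > 0`, `cos 2nφ + 1 > 0` (it is `≥ 0`, and `cos = -1` gives `sin = 0`): `sign f_n = (-1) ^ ⌊2 n θ⌋`.
* So `ksig = - 1 - 2 F + (-1) ^ F`, `F = ⌊2 n θ⌋ ≥ 0`; and `fl n θ = ⌊(2 n θ + 1) / 2⌋ = ⌊(F + 1) / 2⌋`: `F = 2 k`: `- 4 k`, `fl = k`; `F = 2 k + 1`: `- 4 (k + 1)`, `fl = k + 1`.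
-/

namespace Pool.Agent.Lib.MP_177a0e_gt.LT

open Pool.Agent.Lib.MP_177a0e_gt.Tangle Pool.Agent.Lib.MP_177a0e_gt.Tangle.Gen
open Pool.Agent.Lib.MP_177a0e_gt.Sig

private theorem td_even {m : ℤ} (h : m % 2 = 0) : ((-1 : ℝ) ^ m) = 1 :=
  Even.neg_one_zpow (Int.even_iff.2 h)

private theorem td_odd {m : ℤ} (h : ¬ m % 2 = 0) : ((-1 : ℝ) ^ m) = -1 :=
  Odd.neg_one_zpow (Int.odd_iff.2 (by omega))

theorem sin_sgn (x : ℝ) (h : ∀ m : ℤ, x ≠ m) : ((SignType.sign (Real.sin (Real.pi * x)) : SignType) : ℤ) =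
    if ⌊x⌋ % 2 = 0 then 1 else -1 := by
  have h1 : Real.sin (Real.pi * x) = (-1 : ℝ) ^ ⌊x⌋ * Real.sin (Real.pi * Int.fract x) := by
    rw [← Real.sin_add_int_mul_pi]
    congr 1
    calc Real.pi * x = Real.pi * (⌊x⌋ + Int.fract x) := by rw [Int.floor_add_fract]
      _ = _ := by ring
  have h2 : 0 < Int.fract x := lt_of_le_of_ne (Int.fract_nonneg x) fun h3 =>
    h ⌊x⌋ (by have := Int.floor_add_fract x; rw [← h3, add_zero] at this; exact this.symm)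
  have h3 : Int.fract x < 1 := Int.fract_lt_one x
  have h4 : 0 < Real.sin (Real.pi * Int.fract x) := by
    apply Real.sin_pos_of_pos_of_lt_pi
    · positivity
    · nlinarith [Real.pi_pos]
  rw [h1]
  split_ifs with h5
  · rw [td_even h5, one_mul, sign_pos h4]
    rfl
  · rw [td_odd h5, sign_neg (by linarith)]
    rfl

/-- the sign of `sin (π x)` -/
private noncomputable def tdS (x : ℝ) : ℤ := if ⌊x⌋ % 2 = 0 then 1 else -1

private theorem td_cast (q : ℚ) : SignType.sign ((q : ℝ)) = SignType.sign q := by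
  rcases lt_trichotomy q 0 with h | h | h
  · rw [sign_neg h, sign_neg (by exact_mod_cast h)]
  · rw [h]; simp
  · rw [sign_pos h, sign_pos (by exact_mod_cast h)]

private theorem td_div (a b : ℝ) : ((SignType.sign (a / b) : SignType) : ℤ) =
    ((SignType.sign a : SignType) : ℤ) * ((SignType.sign b : SignType) : ℤ) := by
  have h : SignType.sign b⁻¹ = SignType.sign b := by
    rcases lt_trichotomy b 0 with h | h | h
    · rw [sign_neg h, sign_neg (inv_lt_zero.2 h)]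
    · rw [h]; simp
    · rw [sign_pos h, sign_pos (inv_pos.2 h)]
  rw [div_eq_mul_inv, sign_mul, h]
  push_cast
  rfl

private theorem td_prod (x y : ℝ) (h0 : x ≤ y) (h1 : y < x + 1) :
    tdS y * tdS x = 1 - 2 * (⌊y⌋ - ⌊x⌋) := by
  have h2 : ⌊x⌋ ≤ ⌊y⌋ := Int.floor_le_floor h0
  have h3 : ⌊y⌋ ≤ ⌊x⌋ + 1 := by
    have h4 : ⌊y⌋ ≤ ⌊x + 1⌋ := Int.floor_le_floor h1.le
    rwa [Int.floor_add_one] at h4
  unfold tdS
  split_ifs <;> omega

private theorem td_tel (F : ℕ → ℤ) (n : ℕ) :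
    ∑ k ∈ Finset.range n, (1 - 2 * (F (k + 2) - F (k + 1))) = n - 2 * (F (n + 1) - F 1) := by
  induction n with
  | zero => simp
  | succ n ih =>
    rw [Finset.sum_range_succ, ih]
    push_cast
    ring

theorem ksig_tk (c : ℚ) (θ : ℝ) (h0 : 0 < θ) (h1 : θ < 1 / 2) (hc : (c : ℝ) = Real.cos (Real.pi * θ)) (n : ℕ) (hn : n % 2 = 1)
    (h : ∀ k : ℕ, 1 ≤ k → k ≤ n → Real.sin (2 * k * (Real.pi * θ)) ≠ 0) : ksig c (tk n) = -4 * fl n θ := by
  obtain ⟨n', rfl⟩ : ∃ n', n = n' + 1 := ⟨n - 1, by omega⟩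
  have hni : ∀ k : ℕ, 1 ≤ k → k ≤ n' + 1 → ∀ m : ℤ, 2 * (k : ℝ) * θ ≠ m := by
    intro k hk1 hk2 m hm
    refine h k hk1 hk2 ?_
    have : 2 * (k : ℝ) * (Real.pi * θ) = m * Real.pi := by rw [← hm]; ring
    rw [this]
    exact Real.sin_int_mul_pi m
  have hsg : ∀ k : ℕ, 1 ≤ k → k ≤ n' + 1 →
      ((SignType.sign (Real.sin (2 * k * (Real.pi * θ))) : SignType) : ℤ) = tdS (2 * k * θ) := by
    intro k hk1 hk2
    have e : 2 * (k : ℝ) * (Real.pi * θ) = Real.pi * (2 * k * θ) := by ring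
    rw [e]
    exact sin_sgn _ (hni k hk1 hk2)
  have hdk : ∀ k : ℕ, 1 ≤ k → k ≤ n' → ((dk c k : ℚ) : ℝ) =
      Real.sin (2 * (k + 1) * (Real.pi * θ)) / Real.sin (2 * k * (Real.pi * θ)) :=
    dk_trig c (Real.pi * θ) hc n' (fun k hk1 hk2 => h k hk1 (by omega))
  have hdk0 : ∀ k, 1 ≤ k → k ≤ n' → dk c k ≠ 0 := by
    intro k hk1 hk2 h2
    have h3 := hdk k hk1 hk2
    rw [h2, Rat.cast_zero] at h3
    have h4 := h (k + 1) (by omega) (by omega)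
    rw [Nat.cast_add, Nat.cast_one] at h4
    exact div_ne_zero h4 (h k hk1 (by omega)) h3.symm
  have hds : ∀ k ∈ Finset.range n', ((SignType.sign (dk c (k + 1)) : SignType) : ℤ) =
      1 - 2 * (⌊2 * ((k + 2 : ℕ) : ℝ) * θ⌋ - ⌊2 * ((k + 1 : ℕ) : ℝ) * θ⌋) := by
    intro k hk
    rw [Finset.mem_range] at hk
    rw [← td_cast, hdk (k + 1) (by omega) (by omega), td_div]
    have h2 := hsg (k + 2) (by omega) (by omega)
    have h3 := hsg (k + 1) (by omega) (by omega)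
    rw [h3]
    have e : 2 * (((k + 1 : ℕ) : ℝ) + 1) * (Real.pi * θ) = 2 * ((k + 2 : ℕ) : ℝ) * (Real.pi * θ) := by
      push_cast; ring
    rw [e, h2]
    apply td_prod
    · push_cast; nlinarith
    · push_cast; nlinarith
  have hf : ((SignType.sign (fk c (n' + 1)) : SignType) : ℤ) = tdS (2 * ((n' + 1 : ℕ) : ℝ) * θ) := by
    rw [← td_cast, fk_trig c (Real.pi * θ) hc (n' + 1) (by omega) h, td_div,
      hsg (n' + 1) (by omega) le_rfl]
    have h2 : 0 < Real.tan (Real.pi * θ) := by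
      apply Real.tan_pos_of_pos_of_lt_pi_div_two
      · positivity
      · nlinarith [Real.pi_pos]
    have h3 : ((-1 : ℝ) ^ (n' + 1)) = -1 := Odd.neg_one_pow (Nat.odd_iff.2 hn)
    have h4 : 0 < Real.cos (2 * ((n' + 1 : ℕ) : ℝ) * (Real.pi * θ)) + 1 := by
      have h5 := Real.neg_one_le_cos (2 * ((n' + 1 : ℕ) : ℝ) * (Real.pi * θ))
      refine lt_of_le_of_ne (by linarith) fun h6 => ?_
      have h7 := h (n' + 1) (by omega) le_rfl
      have h8 := Real.sin_sq_add_cos_sq (2 * ((n' + 1 : ℕ) : ℝ) * (Real.pi * θ))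
      have h9 : Real.cos (2 * ((n' + 1 : ℕ) : ℝ) * (Real.pi * θ)) = -1 := by linarith
      rw [h9] at h8
      apply h7
      have : Real.sin (2 * ((n' + 1 : ℕ) : ℝ) * (Real.pi * θ)) ^ 2 = 0 := by linarith
      exact pow_eq_zero_iff (two_ne_zero) |>.1 this
    rw [h3, sub_neg_eq_add, sign_pos (mul_pos h2 h4)]
    simp
  unfold ksig
  rw [tk_sg c n' hdk0, wr_tk, Finset.sum_congr rfl hds,
    td_tel (fun k : ℕ => ⌊2 * (k : ℝ) * θ⌋) n', hf]
  have hF1 : ⌊2 * ((1 : ℕ) : ℝ) * θ⌋ = 0 := by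
    rw [Int.floor_eq_zero_iff, Set.mem_Ico]
    constructor
    · positivity
    · push_cast; linarith
  have hFl := Int.floor_le (2 * ((n' + 1 : ℕ) : ℝ) * θ)
  have hFu := Int.lt_floor_add_one (2 * ((n' + 1 : ℕ) : ℝ) * θ)
  unfold fl tdS
  simp only [hF1]
  set F : ℤ := ⌊2 * ((n' + 1 : ℕ) : ℝ) * θ⌋ with hF
  split_ifs with h5
  · obtain ⟨k, hk⟩ : ∃ k, F = 2 * k := ⟨F / 2, by omega⟩
    have h6 : ⌊((n' + 1 : ℕ) : ℝ) * θ + 1 / 2⌋ = k := by
      rw [Int.floor_eq_iff]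
      rw [hk] at hFl hFu
      push_cast at hFl hFu ⊢
      constructor <;> linarith
    rw [h6, hk]
    push_cast
    ring
  · obtain ⟨k, hk⟩ : ∃ k, F = 2 * k + 1 := ⟨F / 2, by omega⟩
    have h6 : ⌊((n' + 1 : ℕ) : ℝ) * θ + 1 / 2⌋ = k + 1 := by
      rw [Int.floor_eq_iff]
      rw [hk] at hFl hFu
      push_cast at hFl hFu ⊢
      constructor <;> linarith
    rw [h6, hk]
    push_cast
    ring

end Pool.Agent.Lib.MP_177a0e_gt.LT
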