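import Pool.Agent.Lib.MP_177a0e_gt.LT.Ad
import Pool.Agent.Lib.MP_177a0e_gt.LT.TD
import Pool.Agent.Lib.MP_177a0e_gt.LT.Dn
import Pool.Agent.Lib.MP_177a0e_gt.LT.UA

/-!
# the signature bound for sums of torus knots of both signs.
-/

namespace Pool.Agent.Lib.MP_177a0e_gt.LT

open Pool.Agent.Lib.MP_177a0e_gt.Tangle Pool.Agent.Lib.MP_177a0e_gt.Tangle.Gen
open Pool.Agent.Lib.MP_177a0e_gt.Sig

theorem ksig_tsum (c : ℚ) (θ : ℝ) (h0 : 0 < θ) (h1 : θ < 1 / 2) (hc : (c : ℝ) = Real.cos (Real.pi * θ)) (N : ℕ)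
    (h : ∀ k : ℕ, 1 ≤ k → k ≤ N → Real.sin (2 * k * (Real.pi * θ)) ≠ 0) (l : List ℕ)
    (hl : ∀ n ∈ l, n % 2 = 1 ∧ n ≤ N) : ksig c (tsum l) = -4 * fsum l θ := by
  induction l with
  | nil =>
    show ksig c [] = -4 * 0
    rw [ksig_nil, mul_zero]
  | cons n l ih =>
    have e1 : tsum (n :: l) = tk n ++ tsum l := rfl
    have e2 : fsum (n :: l) θ = fl n θ + fsum l θ := by
      unfold fsum
      rw [List.map_cons, List.sum_cons]
    have hn := hl n (List.mem_cons_self ..)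
    rw [e1, e2, ksig_append c (tk_valid n) (tsum_valid l), ih (fun m hm => hl m (List.mem_cons_of_mem _ hm)),
      ksig_tk c θ h0 h1 hc n hn.1 (fun k hk hk' => h k hk (hk'.trans hn.2))]
    ring

theorem lower (P M : List ℕ) (hP : ∀ n ∈ P, n % 2 = 1) (hM : ∀ n ∈ M, n % 2 = 1) (θ : ℝ) (h0 : 0 ≤ θ)
    (h1 : θ < 1 / 2) : |fsum P θ - fsum M θ| ≤ (sliceGenus (tsum P ++ adj (tsum M)) : ℤ) := by
  obtain ⟨c, θ', hc, h2, h3, h4, h5, h6⟩ := dense θ h0 h1 (P.sum + M.sum)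
  have hP' : ∀ n ∈ P, n % 2 = 1 ∧ n ≤ P.sum + M.sum := fun n hn =>
    ⟨hP n hn, (List.le_sum_of_mem hn).trans (Nat.le_add_right _ _)⟩
  have hM' : ∀ n ∈ M, n % 2 = 1 ∧ n ≤ P.sum + M.sum := fun n hn =>
    ⟨hM n hn, (List.le_sum_of_mem hn).trans (Nat.le_add_left _ _)⟩
  have e : ∀ l : List ℕ, (∀ n ∈ l, n % 2 = 1 ∧ n ≤ P.sum + M.sum) → fsum l θ = fsum l θ' := by
    intro l hl
    unfold fsum
    congr 1
    exact List.map_congr_left fun n hn => (h6 n (hl n hn).2).symm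
  have k1 := kslice_bd c ⟨tsum P ++ adj (tsum M), (tsum_knot P hP).append (tsum_knot M hM).adj⟩
  have k2 : ksig c (tsum P ++ adj (tsum M)) = -4 * (fsum P θ - fsum M θ) := by
    rw [ksig_append c (tsum_valid P) (tsum_valid M).adj, ksig_adj c (tsum_knot M hM),
      ksig_tsum c θ' h2 h3 h4 _ h5 P hP', ksig_tsum c θ' h2 h3 h4 _ h5 M hM', e P hP', e M hM']
    ring
  change |ksig c (tsum P ++ adj (tsum M))| ≤ 4 * (sliceGenus (tsum P ++ adj (tsum M)) : ℤ) at k1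
  rw [k2, abs_mul] at k1
  have k3 : |(-4 : ℤ)| = 4 := rfl
  rw [k3] at k1
  linarith

end Pool.Agent.Lib.MP_177a0e_gt.LT
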