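import Pool.Agent.Lib.MP_177a0e_gt.LT.TorD

/-!
# decompositions in a cone.

`C = {(x, y) : 0 ≤ y, y q ≤ x p}` (then `0 ≤ x`). CLAIM: for `(a, b)` in `C`, `a > 0`, there are `A, B` with `f(x, y) = x A - y B ≥ 1` on `C ∖ 0` and a decomposition of `(a, b)` into `f(a, b)` elements of `C ∖ 0`; and `(i, j)` in `C` with `f(i, j) = 1` and `(i + B, j + A)` in `C`; `1 ≤ A`, `0 ≤ B`, and `A ≤ B` if `p < q`.
PROOF by strong induction on `b` (for all `p, q, a`). Let `k = ⌈q / p⌉ ≥ 1`: `(k - 1) p < q ≤ k p`.
* If `a ≥ k b`: `A = 1`, `B = k - 1`, `(i, j) = (1, 0)`, `(i + B, j + A) = (k, 1)`, `G = (a - k b)` copies of `(1, 0)` and `b` copies of `(k, 1)`: `f(a, b) = a - b (k - 1)`. `f ≥ 1` on `C ∖ 0`: if `y = 0` then `x ≥ 1`; if `y ≥ 1` then `x p ≥ y q > y (k - 1) p`, so `x > y (k - 1)`. `p < q`: `k ≥ 2`.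
* If `a < k b` (so `b > 0`): put `p' = k p - q`, `q' = p`, `a' = b`, `b' = k b - a`. `p' > 0` (`k p = q` would give `a p ≥ b q = b k p`). `b' > 0`, and `b' < b` as `a p ≥ b q > b (k - 1) p`. `b' q' ≤ a' p'` is `(k b - a) p ≤ b (k p - q)`. `p' < q'` as `q > (k - 1) p`. The induction hypothesis gives `G', A', B', i', j'` with `A' ≤ B'`. Put
  `A = B'`, `B = k B' - A'`, `(i, j) = (k i' - j', i')`, `G = G'.map (fun t => (k t.1 - t.2, t.1))`. (The linear map `(x', y') ↦ (k x' - y', x')` maps `C' ∖ 0` into `C ∖ 0`: `x' p ≤ … `: `x' q ≤ (k x' - y') p ↔ y' q' ≤ x' p'`; `x' > 0` gives `k x' - y' > 0`. `f(k x' - y', x') = (k x' - y') B' - x' (k B' - A') = x' A' - y' B' = f'(x', y')`. It maps `(a', b')` to `(a, b)`.)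
  `f ≥ 1` on `C ∖ 0`: for `(x, y)` in `C ∖ 0` with `x ≤ k y`: `f(x, y) = f'(y, k y - x) ≥ 1`; with `x > k y`: `f(x, y) = (x - k y) B' + y A' ≥ 1` (`B' ≥ A' ≥ 1`). `A = B' ≥ 1`, `B = k B' - A' ≥ 0`; if `p < q` then `k ≥ 2` and `B ≥ 2 B' - A' ≥ B' = A`.
-/

namespace Pool.Agent.Lib.MP_177a0e_gt.LT

open Pool.Agent.Lib.MP_177a0e_gt.Tangle Pool.Agent.Lib.MP_177a0e_gt.Tangle.Gen
open Pool.Agent.Lib.MP_177a0e_gt.Sig

private theorem na_sum (k : ℤ) (G : List (ℤ × ℤ)) :
    ((G.map (fun t => (k * t.1 - t.2, t.1))).map Prod.fst).sum =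
      k * (G.map Prod.fst).sum - (G.map Prod.snd).sum ∧
    ((G.map (fun t => (k * t.1 - t.2, t.1))).map Prod.snd).sum = (G.map Prod.fst).sum := by
  induction G with
  | nil => simp
  | cons t G ih =>
    obtain ⟨h1, h2⟩ := ih
    simp only [List.map_cons, List.sum_cons, h1, h2]
    exact ⟨by ring, trivial⟩

private theorem na_ceil (p q : ℤ) (hp : 0 < p) (hq : 0 < q) :
    ∃ k : ℤ, 1 ≤ k ∧ (k - 1) * p < q ∧ q ≤ k * p := by
  have h1 := Int.mul_ediv_add_emod (q - 1) p
  have h2 := Int.emod_nonneg (q - 1) hp.ne'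
  have h3 := Int.emod_lt_of_pos (q - 1) hp
  have h4 : 0 ≤ (q - 1) / p := Int.ediv_nonneg (by omega) hp.le
  refine ⟨(q - 1) / p + 1, by omega, ?_, ?_⟩
  · have : ((q - 1) / p + 1 - 1) * p = p * ((q - 1) / p) := by ring
    rw [this]
    omega
  · have : ((q - 1) / p + 1) * p = p * ((q - 1) / p) + p := by ring
    rw [this]
    omega

private theorem na_aux (n : ℕ) : ∀ p q a b : ℤ, b.toNat < n → 0 < p → 0 < q → 0 ≤ b → 0 < a →
    b * q ≤ a * p →
    ∃ (G : List (ℤ × ℤ)) (A B i j : ℤ), (∀ t ∈ G, 0 < t.1 ∧ 0 ≤ t.2 ∧ t.2 * q ≤ t.1 * p) ∧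
      (G.map Prod.fst).sum = a ∧ (G.map Prod.snd).sum = b ∧ (G.length : ℤ) = a * A - b * B ∧
      (∀ x y : ℤ, 0 ≤ y → (x ≠ 0 ∨ y ≠ 0) → y * q ≤ x * p → 1 ≤ x * A - y * B) ∧
      0 ≤ j ∧ j * q ≤ i * p ∧ i * A - j * B = 1 ∧ (j + A) * q ≤ (i + B) * p ∧ 1 ≤ A ∧ 0 ≤ B ∧ (p < q → A ≤ B) := by
  induction n with
  | zero => intro p q a b hn; omega
  | succ n ih =>
    intro p q a b hn hp hq hb ha h
    obtain ⟨k, hk1, hk2, hk3⟩ := na_ceil p q hp hq
    by_cases hab : k * b ≤ a
    · -- the first case
      refine ⟨List.replicate (a - k * b).toNat (1, 0) ++ List.replicate b.toNat (k, 1), 1, k - 1, 1, 0,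
        ?_, ?_, ?_, ?_, ?_, le_rfl, ?_, ?_, ?_, le_rfl, ?_, ?_⟩
      · intro t ht
        rw [List.mem_append] at ht
        rcases ht with ht | ht
        · rw [List.eq_of_mem_replicate ht]
          exact ⟨one_pos, le_rfl, by simp only [zero_mul, one_mul]; exact hp.le⟩
        · rw [List.eq_of_mem_replicate ht]
          exact ⟨by show 0 < k; omega, by norm_num, by simp only [one_mul]; exact hk3⟩
      · simp only [List.map_append, List.map_replicate, List.sum_append, List.sum_replicate,
          nsmul_eq_mul, mul_one]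
        rw [Int.toNat_of_nonneg (by linarith), Int.toNat_of_nonneg hb]
        ring
      · simp only [List.map_append, List.map_replicate, List.sum_append, List.sum_replicate,
          nsmul_eq_mul, mul_one, mul_zero, zero_add]
        rw [Int.toNat_of_nonneg hb]
      · simp only [List.length_append, List.length_replicate, Nat.cast_add]
        rw [Int.toNat_of_nonneg (by linarith), Int.toNat_of_nonneg hb]
        ring
      · intro x y hy hxy hC
        rcases hy.eq_or_lt with h0 | h0
        · rw [← h0] at hxy hC ⊢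
          have hx : 0 ≤ x := by
            by_contra hx
            push Not at hx
            nlinarith
          have hx' : x ≠ 0 := by
            rcases hxy with h1 | h1
            · exact h1
            · exact absurd rfl h1
          omega
        · have h2 : y * ((k - 1) * p) < y * q := mul_lt_mul_of_pos_left hk2 h0
          have h3 : (y * (k - 1)) * p < x * p := by
            calc (y * (k - 1)) * p = y * ((k - 1) * p) := by ring
              _ < y * q := h2
              _ ≤ x * p := hC
          have h4 := lt_of_mul_lt_mul_right h3 hp.le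
          linarith
      · simp only [zero_mul, one_mul]
        exact hp.le
      · ring
      · have : (1 + (k - 1)) * p = k * p := by ring
        rw [this]
        linarith
      · omega
      · intro hpq
        by_contra hcon
        have hk : k = 1 := by omega
        rw [hk] at hk3
        linarith
    · -- the second case
      push Not at hab
      have hb0 : 0 < b := by
        by_contra hcon
        have : b = 0 := by omega
        rw [this, mul_zero] at hab
        omega
      have hp' : 0 < k * p - q := by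
        by_contra hcon
        have hkq : k * p = q := by omega
        have h2 : b * (k * p) ≤ a * p := by rw [hkq]; exact h
        have h3 : (k * b) * p ≤ a * p := by
          calc (k * b) * p = b * (k * p) := by ring
            _ ≤ a * p := h2
        have h4 := le_of_mul_le_mul_right h3 hp
        omega
      have hbb : k * b - a < b := by
        have h2 : b * ((k - 1) * p) < b * q := mul_lt_mul_of_pos_left hk2 hb0
        have h3 : (b * (k - 1)) * p < a * p := by
          calc (b * (k - 1)) * p = b * ((k - 1) * p) := by ring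
            _ < b * q := h2
            _ ≤ a * p := h
        have h4 := lt_of_mul_lt_mul_right h3 hp.le
        have h5 : b * (k - 1) = k * b - b := by ring
        omega
      obtain ⟨G', A', B', i', j', g1, g2, g3, g4, g5, g6, g7, g8, g9, g10, g11, g12⟩ :=
        ih (k * p - q) p b (k * b - a) (by omega) hp' hp (by omega) hb0 (by
          have : b * (k * p - q) - (k * b - a) * p = a * p - b * q := by ring
          linarith)
      have hAB : A' ≤ B' := g12 (by
        have : (k - 1) * p = k * p - p := by ring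
        omega)
      obtain ⟨s1, s2⟩ := na_sum k G'
      have hi' : 0 ≤ i' := by
        by_contra hcon
        push Not at hcon
        have h2 : i' * (k * p - q) < 0 := mul_neg_of_neg_of_pos hcon hp'
        have h3 : 0 ≤ j' * p := mul_nonneg g6 hp.le
        linarith
      refine ⟨G'.map (fun t => (k * t.1 - t.2, t.1)), B', k * B' - A', k * i' - j', i',
        ?_, ?_, ?_, ?_, ?_, hi', ?_, ?_, ?_, by omega, ?_, ?_⟩
      · intro t ht
        rw [List.mem_map] at ht
        obtain ⟨u, hu, rfl⟩ := ht
        obtain ⟨h1, h2, h3⟩ := g1 u hu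
        have h4 : (k * u.1 - u.2) * p - u.1 * q = u.1 * (k * p - q) - u.2 * p := by ring
        have h5 : 0 < u.1 * q := mul_pos h1 hq
        refine ⟨?_, h1.le, ?_⟩
        · show 0 < k * u.1 - u.2
          by_contra hcon
          push Not at hcon
          have h6 : (k * u.1 - u.2) * p ≤ 0 := mul_nonpos_of_nonpos_of_nonneg hcon hp.le
          linarith
        · show u.1 * q ≤ (k * u.1 - u.2) * p
          linarith
      · rw [s1, g2, g3]
        ring
      · rw [s2, g2]
      · rw [List.length_map, g4]
        ring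
      · intro x y hy hxy hC
        rcases le_or_gt x (k * y) with hx | hx
        · have h2 := g5 y (k * y - x) (by omega) (by
            by_cases hy0 : y = 0
            · right
              rcases hxy with h3 | h3
              · rw [hy0, mul_zero]
                omega
              · exact absurd hy0 h3
            · exact Or.inl hy0) (by
            have : y * (k * p - q) - (k * y - x) * p = x * p - y * q := by ring
            linarith)
          have h3 : y * A' - (k * y - x) * B' = x * B' - y * (k * B' - A') := by ring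
          linarith
        · have h2 : x * B' - y * (k * B' - A') = (x - k * y) * B' + y * A' := by ring
          have h3 : 1 * 1 ≤ (x - k * y) * B' :=
            mul_le_mul (by omega) (by omega) (by norm_num) (by omega)
          have h4 : 0 ≤ y * A' := mul_nonneg hy (by omega)
          linarith
      · have : (k * i' - j') * p - i' * q = i' * (k * p - q) - j' * p := by ring
        linarith
      · have : (k * i' - j') * B' - i' * (k * B' - A') = i' * A' - j' * B' := by ring
        linarith
      · have : (k * i' - j' + (k * B' - A')) * p - (i' + B') * q =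
          (i' + B') * (k * p - q) - (j' + A') * p := by ring
        linarith
      · have : 1 * B' ≤ k * B' := mul_le_mul_of_nonneg_right hk1 g11
        linarith
      · intro hpq
        have hk2' : 2 ≤ k := by
          by_contra hcon
          have hk : k = 1 := by omega
          rw [hk] at hk3
          linarith
        have : 2 * B' ≤ k * B' := mul_le_mul_of_nonneg_right hk2' g11
        linarith

theorem hull (p q a b : ℤ) (hp : 0 < p) (hq : 0 < q) (hb : 0 ≤ b) (ha : 0 < a) (h : b * q ≤ a * p) :
    ∃ (G : List (ℤ × ℤ)) (A B i j : ℤ), (∀ t ∈ G, 0 < t.1 ∧ 0 ≤ t.2 ∧ t.2 * q ≤ t.1 * p) ∧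
      (G.map Prod.fst).sum = a ∧ (G.map Prod.snd).sum = b ∧ (G.length : ℤ) = a * A - b * B ∧
      (∀ x y : ℤ, 0 ≤ y → (x ≠ 0 ∨ y ≠ 0) → y * q ≤ x * p → 1 ≤ x * A - y * B) ∧
      0 ≤ j ∧ j * q ≤ i * p ∧ i * A - j * B = 1 ∧ (j + A) * q ≤ (i + B) * p ∧ 1 ≤ A ∧ 0 ≤ B ∧ (p < q → A ≤ B) := by
  exact na_aux (b.toNat + 1) p q a b (Nat.lt_succ_self _) hp hq hb ha h

end Pool.Agent.Lib.MP_177a0e_gt.LT
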