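import Pool.Agent.Lib.MP_177a0e_gt.LT.NA

/-!
# the angle of a decomposition.

* `hull_ineq`: (1) `B p < A q`: otherwise `(B, A)` is in the cone, `≠ 0`, and `f(B, A) = B A - A B = 0 < 1`. (2) `(A - 1) q < (B + 1) p`: otherwise `(x, y) = (i - 1, j + 1)` satisfies `y q ≤ x p` (subtract `(B + 1, A - 1)` from `(i + B, j + A)`), `y ≥ 1`, and `f(x, y) = f(i, j) - A - B = 1 - A - B ≤ 0`. (3) `A ≤ p`: otherwise `(x, y) = (i + B - q, j + A - p)` satisfies `y q ≤ x p`, `y ≥ 1`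
  (`j ≥ 0`, `A ≥ p + 1`), and `f(x, y) = f(i + B, j + A) - (q A - p B) = 1 - (q A - p B) ≤ 0`, because `f(q, p) = q A - p B ≥ 1` (`(q, p)` is in the cone). (4) `B < q`: `B p < A q ≤ p q`.
* `ex_angle`: `p, q` odd. By (1)-(4) there is a real `ψ` with `max (B / q, (A - 1) / p) < ψ < min (A / p, (B + 1) / q, 1)` (all four differences are positive; `(A - 1) / p < 1`, `B / q < 1`), and `ψ ≠ 1 / 2`. `0 < ψ < 1`, `A - 1 < p ψ < A`, `B < q ψ < B + 1`.
  If `ψ ≤ 1 / 2` put `θ = 1 / 2 - ψ`: `fl p θ = ⌊(p + 1) / 2 - p ψ⌋ = (p + 1) / 2 - A`, `fl q θ = (q + 1) / 2 - (B + 1) = (q - 1) / 2 - B`, so `2 (a fl p θ - b fl q θ) = a (p + 1) - b (q - 1) - 2 (a A - b B)`. If `ψ > 1 / 2` put `θ = ψ - 1 / 2`: `fl p θ = ⌊p ψ - (p - 1) / 2⌋ = A - 1 - (p - 1) / 2 = A - (p + 1) / 2`, `fl q θ = B - (q - 1) / 2`: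
  minus the previous value. (`ψ = 1 / 2` is in the first case, `θ = 0`.) In both cases `0 ≤ θ < 1 / 2`.
-/

namespace Pool.Agent.Lib.MP_177a0e_gt.LT

open Pool.Agent.Lib.MP_177a0e_gt.Tangle Pool.Agent.Lib.MP_177a0e_gt.Tangle.Gen
open Pool.Agent.Lib.MP_177a0e_gt.Sig

lemma nb_ineq (p q A B i j : ℤ) (hp : 0 < p) (hq : 0 < q)
    (hf : ∀ x y : ℤ, 0 ≤ y → (x ≠ 0 ∨ y ≠ 0) → y * q ≤ x * p → 1 ≤ x * A - y * B)
    (hj : 0 ≤ j) (hij : i * A - j * B = 1) (hs : (j + A) * q ≤ (i + B) * p) (hA : 1 ≤ A)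
    (hB : 0 ≤ B) :
    B * p < A * q ∧ (A - 1) * q < (B + 1) * p ∧ A ≤ p ∧ B < q := by
  have h1 : B * p < A * q := by
    by_contra hc
    have h := hf B A (by omega) (Or.inr (by omega)) (not_lt.1 hc)
    have e : B * A - A * B = 0 := by ring
    omega
  have h2 : (A - 1) * q < (B + 1) * p := by
    by_contra hc
    have h3 : (B + 1) * p ≤ (A - 1) * q := not_lt.1 hc
    have h4 : (j + 1) * q ≤ (i - 1) * p := by
      have e1 : (j + 1) * q = (j + A) * q - (A - 1) * q := by ring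
      have e2 : (i - 1) * p = (i + B) * p - (B + 1) * p := by ring
      rw [e1, e2]
      omega
    have h5 := hf (i - 1) (j + 1) (by omega) (Or.inr (by omega)) h4
    have e3 : (i - 1) * A - (j + 1) * B = (i * A - j * B) - A - B := by ring
    rw [e3] at h5
    omega
  have h3 : A ≤ p := by
    by_contra hc
    have hc' : p < A := not_le.1 hc
    have h4 : (j + A - p) * q ≤ (i + B - q) * p := by
      have e1 : (j + A - p) * q = (j + A) * q - p * q := by ring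
      have e2 : (i + B - q) * p = (i + B) * p - p * q := by ring
      rw [e1, e2]
      omega
    have h5 := hf (i + B - q) (j + A - p) (by omega) (Or.inr (by omega)) h4
    have h6 := hf q p hp.le (Or.inr hp.ne') (le_of_eq (mul_comm p q))
    have e3 : (i + B - q) * A - (j + A - p) * B = (i * A - j * B) - (q * A - p * B) := by ring
    rw [e3] at h5
    omega
  refine ⟨h1, h2, h3, ?_⟩
  have h4 : A * q ≤ p * q := mul_le_mul_of_nonneg_right h3 hq.le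
  have h5 : B * p < q * p := by
    rw [mul_comm q p]
    omega
  exact lt_of_mul_lt_mul_right h5 hp.le

lemma nb_psi (p q A B : ℤ) (hp : 0 < p) (hq : 0 < q) (hB : 0 ≤ B) (h1 : B * p < A * q)
    (h2 : (A - 1) * q < (B + 1) * p) (h3 : A ≤ p) (h4 : B < q) :
    ∃ ψ : ℝ, 0 < ψ ∧ ψ < 1 ∧ (A : ℝ) - 1 < p * ψ ∧ p * ψ < A ∧ (B : ℝ) < q * ψ ∧
      q * ψ < B + 1 := by
  have hp' : (0 : ℝ) < p := by exact_mod_cast hp
  have hq' : (0 : ℝ) < q := by exact_mod_cast hq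
  have hB' : (0 : ℝ) ≤ B := by exact_mod_cast hB
  have g1 : (B : ℝ) * p < A * q := by exact_mod_cast h1
  have g2 : ((A : ℝ) - 1) * q < (B + 1) * p := by exact_mod_cast h2
  have g3 : (A : ℝ) ≤ p := by exact_mod_cast h3
  have g4 : (B : ℝ) < q := by exact_mod_cast h4
  have k1 : max ((B : ℝ) / q) (((A : ℝ) - 1) / p) < min (min ((A : ℝ) / p) (((B : ℝ) + 1) / q)) 1 := by
    refine max_lt (lt_min (lt_min ?_ ?_) ?_) (lt_min (lt_min ?_ ?_) ?_)
    · rw [div_lt_div_iff₀ hq' hp']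
      exact g1
    · exact div_lt_div_of_pos_right (by linarith) hq'
    · rw [div_lt_one hq']
      exact g4
    · exact div_lt_div_of_pos_right (by linarith) hp'
    · rw [div_lt_div_iff₀ hp' hq']
      exact g2
    · rw [div_lt_one hp']
      linarith
  obtain ⟨ψ, k2, k3⟩ := exists_between k1
  rw [max_lt_iff] at k2
  rw [lt_min_iff, lt_min_iff] at k3
  obtain ⟨k4, k5⟩ := k2
  obtain ⟨⟨k6, k7⟩, k8⟩ := k3
  have k9 : 0 ≤ (B : ℝ) / q := by positivity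
  rw [div_lt_iff₀ hq'] at k4
  rw [div_lt_iff₀ hp'] at k5
  rw [lt_div_iff₀ hp'] at k6
  rw [lt_div_iff₀ hq'] at k7
  refine ⟨ψ, ?_, k8, ?_, ?_, ?_, ?_⟩
  · by_contra hc
    have : ψ * (q : ℝ) ≤ 0 := mul_nonpos_of_nonpos_of_nonneg (not_lt.1 hc) hq'.le
    linarith
  all_goals linarith [mul_comm ψ (p : ℝ), mul_comm ψ (q : ℝ)]

lemma nb_sum (L : List (ℤ × ℤ)) (hL : ∀ t ∈ L, 0 < t.1 ∧ 0 ≤ t.2) :
    (((((L.map fun t : ℤ × ℤ => (t.1.toNat, t.2.toNat)).map Prod.fst).sum : ℕ) : ℤ) =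
      (L.map Prod.fst).sum) ∧
    (((((L.map fun t : ℤ × ℤ => (t.1.toNat, t.2.toNat)).map Prod.snd).sum : ℕ) : ℤ) =
      (L.map Prod.snd).sum) := by
  induction L with
  | nil => simp
  | cons t L ih =>
    obtain ⟨i1, i2⟩ := ih fun s hs => hL s (List.mem_cons_of_mem _ hs)
    obtain ⟨j1, j2⟩ := hL t List.mem_cons_self
    simp only [List.map_cons, List.sum_cons, Nat.cast_add]
    rw [i1, i2, Int.toNat_of_nonneg j1.le, Int.toNat_of_nonneg j2]
    exact ⟨rfl, rfl⟩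

theorem ex_angle (p q : ℕ) (hp : p % 2 = 1) (hq : q % 2 = 1) (a b : ℕ) (ha : 0 < a) (h : b * q ≤ a * p) :
    ∃ (G : List (ℕ × ℕ)) (θ : ℝ), (∀ t ∈ G, 0 < t.1 ∧ t.2 * q ≤ t.1 * p) ∧ (G.map Prod.fst).sum = a ∧
      (G.map Prod.snd).sum = b ∧ 0 ≤ θ ∧ θ < 1 / 2 ∧
      2 * |(a : ℤ) * fl p θ - b * fl q θ| = |(a : ℤ) * (p + 1) - b * (q - 1) - 2 * G.length| := by
  obtain ⟨m, rfl⟩ : ∃ m, p = 2 * m + 1 := ⟨p / 2, by omega⟩
  obtain ⟨n, rfl⟩ : ∃ n, q = 2 * n + 1 := ⟨q / 2, by omega⟩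
  obtain ⟨G, A, B, i, j, hG, hGa, hGb, hGl, hf, hj, hij, hijA, hs, hA, hB, -⟩ :=
    hull ((2 * m + 1 : ℕ) : ℤ) ((2 * n + 1 : ℕ) : ℤ) a b (by positivity) (by positivity)
      (Int.natCast_nonneg b) (by exact_mod_cast ha) (by exact_mod_cast h)
  have hP : (0 : ℤ) < ((2 * m + 1 : ℕ) : ℤ) := by positivity
  have hQ : (0 : ℤ) < ((2 * n + 1 : ℕ) : ℤ) := by positivity
  obtain ⟨h1, h2, h3, h4⟩ := nb_ineq _ _ A B i j hP hQ hf hj hijA hs hA hB
  obtain ⟨ψ, hψ0, hψ1, e1, e2, e3, e4⟩ := nb_psi _ _ A B hP hQ hB h1 h2 h3 h4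
  obtain ⟨s1, s2⟩ := nb_sum G fun t ht => ⟨(hG t ht).1, (hG t ht).2.1⟩
  have s3 : ((G.map fun t : ℤ × ℤ => (t.1.toNat, t.2.toNat)).map Prod.fst).sum = a :=
    Nat.cast_injective (R := ℤ) (s1.trans hGa)
  have s4 : ((G.map fun t : ℤ × ℤ => (t.1.toNat, t.2.toNat)).map Prod.snd).sum = b :=
    Nat.cast_injective (R := ℤ) (s2.trans hGb)
  have hGm : ∀ t ∈ G.map (fun t => (t.1.toNat, t.2.toNat)), 0 < t.1 ∧
      t.2 * (2 * n + 1) ≤ t.1 * (2 * m + 1) := by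
    intro t ht
    obtain ⟨s, hs, rfl⟩ := List.mem_map.1 ht
    obtain ⟨g1, g2, g3⟩ := hG s hs
    refine ⟨by simp only; omega, ?_⟩
    have g4 : ((s.2.toNat * (2 * n + 1) : ℕ) : ℤ) ≤ ((s.1.toNat * (2 * m + 1) : ℕ) : ℤ) := by
      rw [Nat.cast_mul, Nat.cast_mul, Int.toNat_of_nonneg g1.le, Int.toNat_of_nonneg g2]
      exact g3
    exact_mod_cast g4
  have hlen : ((G.map fun t => (t.1.toNat, t.2.toNat)).length : ℤ) = a * A - b * B := by
    rw [List.length_map]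
    exact hGl
  push_cast at e1 e2 e3 e4
  by_cases hψ : ψ ≤ 1 / 2
  · refine ⟨G.map (fun t => (t.1.toNat, t.2.toNat)), 1 / 2 - ψ, hGm, s3, s4, by linarith,
      by linarith, ?_⟩
    · have f1 : fl (2 * m + 1) (1 / 2 - ψ) = (m : ℤ) + 1 - A := by
        unfold fl
        rw [Int.floor_eq_iff]
        push_cast
        constructor <;> linarith
      have f2 : fl (2 * n + 1) (1 / 2 - ψ) = (n : ℤ) - B := by
        unfold fl
        rw [Int.floor_eq_iff]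
        push_cast
        constructor <;> linarith
      rw [hlen, f1, f2, ← abs_two (α := ℤ), ← abs_mul, abs_two]
      congr 1
      push_cast
      ring
  · rw [not_le] at hψ
    refine ⟨G.map (fun t => (t.1.toNat, t.2.toNat)), ψ - 1 / 2, hGm, s3, s4, by linarith,
      by linarith, ?_⟩
    · have f1 : fl (2 * m + 1) (ψ - 1 / 2) = A - 1 - (m : ℤ) := by
        unfold fl
        rw [Int.floor_eq_iff]
        push_cast
        constructor <;> linarith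
      have f2 : fl (2 * n + 1) (ψ - 1 / 2) = B - (n : ℤ) := by
        unfold fl
        rw [Int.floor_eq_iff]
        push_cast
        constructor <;> linarith
      rw [hlen, f1, f2, ← abs_two (α := ℤ), ← abs_mul, abs_two, ← abs_neg]
      congr 1
      push_cast
      ring

end Pool.Agent.Lib.MP_177a0e_gt.LT
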