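import Pool.Agent.Lib.MP_177a0e_gt.LT.Defs

/-!
# the boundary term: cutting, cups, crossings.

`om`, `oms` are in `LT/Defs.lean`. PROOFS.
* `om_congr`, `om_append`: induction on the first list.
* `om_pair`: the contribution of two neighbouring strands of the directions `e`, `!e` with the same values `z, w` on both outer sides is zero: `oms c e a b wa wb + oms c (!e) b a wb wa = 0` (`cases e`, `ring`).
* `om_cross`: the contribution of the two strands at a crossing (values left, below, right: `l, m, r`; above `t`; state values `wl, wm, wr`, above `wt`): eight cases for `s, a, b`; with `t = zt ..` (its real and imaginary parts: `QuadraticAlgebra.re_mul`, `im_mul`, `re_add`, `im_add`, `re_neg`, `im_neg`; `uE c = ⟨c, 1⟩`, `vE c = ⟨c, -1⟩`) the identity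
  `± (A (re z) A (w) - (1 - c ^ 2) B (re z) B (w)) = (oms of [b, a] with t, wt) - (oms of [a, b] with m, wm)` is `ring` (checked by computer). `zc` is `zt` with the right order of `u`, `v`.
-/

namespace Pool.Agent.Lib.MP_177a0e_gt.LT

open Pool.Agent.Lib.MP_177a0e_gt.Tangle Pool.Agent.Lib.MP_177a0e_gt.Tangle.Gen
open Pool.Agent.Lib.MP_177a0e_gt.Sig

theorem om_congr (c : ℚ) (e : List Bool) (z z' : ℕ → QE c) (w w' : ℕ → ℚ) (hz : ∀ i, i ≤ e.length → z i = z' i)
    (hw : ∀ i, i ≤ e.length → w i = w' i) : om c e z w = om c e z' w' := by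
  induction e generalizing z z' w w' with
  | nil => rfl
  | cons d e ih =>
    have h1 : (1 : ℕ) ≤ (d :: e).length := by
      rw [List.length_cons]
      omega
    simp only [om]
    rw [hz 0 (Nat.zero_le _), hz 1 h1, hw 0 (Nat.zero_le _), hw 1 h1]
    congr 1
    refine ih _ _ _ _ (fun i hi => hz (i + 1) ?_) (fun i hi => hw (i + 1) ?_)
    · rw [List.length_cons]
      omega
    · rw [List.length_cons]
      omega

theorem om_append (c : ℚ) (e e' : List Bool) (z : ℕ → QE c) (w : ℕ → ℚ) :
    om c (e ++ e') z w = om c e z w + om c e' (fun i => z (i + e.length)) (fun i => w (i + e.length)) := by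
  induction e generalizing z w with
  | nil => simp [om]
  | cons d e ih =>
    simp only [List.cons_append, om]
    rw [ih, ← add_assoc]
    rfl

theorem om_pair (c : ℚ) (e : Bool) (a b : QE c) (wa wb : ℚ) : oms c e a b wa wb + oms c (!e) b a wb wa = 0 := by
  cases e <;> simp only [oms, Bool.not_true, Bool.not_false, if_true, if_false, Bool.false_eq_true] <;> ring

/-- the value above a crossing -/
def zc (c : ℚ) [Adm c] (s a b : Bool) (l m r : QE c) : QE c :=
  if (if a = b then sz s else -sz s) = 1 then zt (uE c) (vE c) a b l m r else zt (vE c) (uE c) a b l m r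

theorem om_cross (c : ℚ) [Adm c] (s a b : Bool) (l m r : QE c) (wl wm wr wt : ℚ) :
    ((if a = b then sz s else -sz s : ℤ) : ℚ) *
      ((if a = b then l.re + r.re + c * ((zc c s a b l m r).re + m.re) else (zc c s a b l m r).re + m.re + c * (l.re + r.re)) *
        (if a = b then wl + wr + c * (wt + wm) else wt + wm + c * (wl + wr)) -
      (1 - c ^ 2) * ((if a = b then (zc c s a b l m r).re - m.re else l.re - r.re) * (if a = b then wt - wm else wl - wr))) =
    oms c b l (zc c s a b l m r) wl wt + oms c a (zc c s a b l m r) r wt wr - (oms c a l m wl wm + oms c b m r wm wr) := by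
  cases s <;> cases a <;> cases b <;>
    simp [zc, sz, oms, zt, uE, vE, QuadraticAlgebra.re_mul, QuadraticAlgebra.im_mul,
      QuadraticAlgebra.re_add, QuadraticAlgebra.im_add, QuadraticAlgebra.re_neg,
      QuadraticAlgebra.im_neg] <;> ring

end Pool.Agent.Lib.MP_177a0e_gt.LT
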