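import Pool.Agent.Lib.MP_177a0e_gt.LT.TorD

/-!
# a lemma on residues modulo 3, 5 and 7.

`n r` is the number of elements with the residue `r`. If there are `r`, `s` with `r + s = q`, `n r ≥ 1`, `n s ≥ 1` take them. Otherwise
for each pair `{a, q - a}` one of `n a`, `n (q - a)` is zero, and the statement is one of the lemmas `PA_q_i` (`omega`).
-/

namespace Pool.Agent.Lib.MP_177a0e_gt.LT

open Pool.Agent.Lib.MP_177a0e_gt.Tangle Pool.Agent.Lib.MP_177a0e_gt.Tangle.Gen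
open Pool.Agent.Lib.MP_177a0e_gt.Sig

private theorem PA_3_0 (x1 m d g1 g2 : ℤ) (p1 : 0 ≤ x1)
    (hm : 1 ≤ m) (e1 : g1 = 0 * x1 - 1 * m) (e2 : g2 = 0 * x1 - 2 * m)
    (h1 : d ≤ g1) (h2 : d ≤ g2) (hf : 3 * m ≤ 1 * x1) :
    (2 ≤ x1 ∧ d + 1 ≤ g1) := by
  subst e1 e2
  omega

private theorem PA_3_1 (x2 m d g1 g2 : ℤ) (p2 : 0 ≤ x2)
    (hm : 1 ≤ m) (e1 : g1 = 0 * x2 - 1 * m) (e2 : g2 = 1 * x2 - 2 * m)
    (h1 : d ≤ g1) (h2 : d ≤ g2) (hf : 3 * m ≤ 2 * x2) :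
    (2 ≤ x2 ∧ d + 1 ≤ g2) := by
  subst e1 e2
  omega

private theorem PA_5_0 (x1 x2 m d g1 g2 g3 g4 : ℤ) (p1 : 0 ≤ x1) (p2 : 0 ≤ x2)
    (hm : 1 ≤ m) (e1 : g1 = 0 * x1 + 0 * x2 - 1 * m) (e2 : g2 = 0 * x1 + 0 * x2 - 2 * m) (e3 : g3 = 0 * x1 + 1 * x2 - 3 * m) (e4 : g4 = 0 * x1 + 1 * x2 - 4 * m)
    (h1 : d ≤ g1) (h2 : d ≤ g2) (h3 : d ≤ g3) (h4 : d ≤ g4) (hf : 5 * m ≤ 1 * x1 + 2 * x2) :
    (2 ≤ x1 ∧ d + 1 ≤ g1 ∧ d + 1 ≤ g2) ∨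
    (1 ≤ x1 ∧ 1 ≤ x2 ∧ d + 1 ≤ g1 ∧ d + 1 ≤ g3) ∨
    (2 ≤ x2 ∧ d + 1 ≤ g1 ∧ d + 1 ≤ g3) := by
  subst e1 e2 e3 e4
  omega

private theorem PA_5_1 (x1 x3 m d g1 g2 g3 g4 : ℤ) (p1 : 0 ≤ x1) (p3 : 0 ≤ x3)
    (hm : 1 ≤ m) (e1 : g1 = 0 * x1 + 0 * x3 - 1 * m) (e2 : g2 = 0 * x1 + 1 * x3 - 2 * m) (e3 : g3 = 0 * x1 + 1 * x3 - 3 * m) (e4 : g4 = 0 * x1 + 2 * x3 - 4 * m)
    (h1 : d ≤ g1) (h2 : d ≤ g2) (h3 : d ≤ g3) (h4 : d ≤ g4) (hf : 5 * m ≤ 1 * x1 + 3 * x3) :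
    (2 ≤ x1 ∧ d + 1 ≤ g1 ∧ d + 1 ≤ g2) ∨
    (1 ≤ x1 ∧ 1 ≤ x3 ∧ d + 1 ≤ g1 ∧ d + 1 ≤ g2) ∨
    (2 ≤ x3 ∧ d + 1 ≤ g2 ∧ d + 1 ≤ g4) := by
  subst e1 e2 e3 e4
  omega

private theorem PA_5_2 (x2 x4 m d g1 g2 g3 g4 : ℤ) (p2 : 0 ≤ x2) (p4 : 0 ≤ x4)
    (hm : 1 ≤ m) (e1 : g1 = 0 * x2 + 0 * x4 - 1 * m) (e2 : g2 = 0 * x2 + 1 * x4 - 2 * m) (e3 : g3 = 1 * x2 + 2 * x4 - 3 * m) (e4 : g4 = 1 * x2 + 3 * x4 - 4 * m)
    (h1 : d ≤ g1) (h2 : d ≤ g2) (h3 : d ≤ g3) (h4 : d ≤ g4) (hf : 5 * m ≤ 2 * x2 + 4 * x4) :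
    (2 ≤ x2 ∧ d + 1 ≤ g1 ∧ d + 1 ≤ g3) ∨
    (1 ≤ x2 ∧ 1 ≤ x4 ∧ d + 1 ≤ g3 ∧ d + 1 ≤ g4) ∨
    (2 ≤ x4 ∧ d + 1 ≤ g3 ∧ d + 1 ≤ g4) := by
  subst e1 e2 e3 e4
  omega

private theorem PA_5_3 (x3 x4 m d g1 g2 g3 g4 : ℤ) (p3 : 0 ≤ x3) (p4 : 0 ≤ x4)
    (hm : 1 ≤ m) (e1 : g1 = 0 * x3 + 0 * x4 - 1 * m) (e2 : g2 = 1 * x3 + 1 * x4 - 2 * m) (e3 : g3 = 1 * x3 + 2 * x4 - 3 * m) (e4 : g4 = 2 * x3 + 3 * x4 - 4 * m)
    (h1 : d ≤ g1) (h2 : d ≤ g2) (h3 : d ≤ g3) (h4 : d ≤ g4) (hf : 5 * m ≤ 3 * x3 + 4 * x4) :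
    (2 ≤ x3 ∧ d + 1 ≤ g2 ∧ d + 1 ≤ g4) ∨
    (1 ≤ x3 ∧ 1 ≤ x4 ∧ d + 1 ≤ g2 ∧ d + 1 ≤ g4) ∨
    (2 ≤ x4 ∧ d + 1 ≤ g3 ∧ d + 1 ≤ g4) := by
  subst e1 e2 e3 e4
  omega

private theorem PA_7_0 (x1 x2 x3 m d g1 g2 g3 g4 g5 g6 : ℤ) (p1 : 0 ≤ x1) (p2 : 0 ≤ x2) (p3 : 0 ≤ x3)
    (hm : 1 ≤ m) (e1 : g1 = 0 * x1 + 0 * x2 + 0 * x3 - 1 * m) (e2 : g2 = 0 * x1 + 0 * x2 + 0 * x3 - 2 * m) (e3 : g3 = 0 * x1 + 0 * x2 + 1 * x3 - 3 * m) (e4 : g4 = 0 * x1 + 1 * x2 + 1 * x3 - 4 * m) (e5 : g5 = 0 * x1 + 1 * x2 + 2 * x3 - 5 * m) (e6 : g6 = 0 * x1 + 1 * x2 + 2 * x3 - 6 * m)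
    (h1 : d ≤ g1) (h2 : d ≤ g2) (h3 : d ≤ g3) (h4 : d ≤ g4) (h5 : d ≤ g5) (h6 : d ≤ g6) (hf : 7 * m ≤ 1 * x1 + 2 * x2 + 3 * x3) :
    (2 ≤ x1 ∧ d + 1 ≤ g1 ∧ d + 1 ≤ g2 ∧ d + 1 ≤ g3) ∨
    (1 ≤ x1 ∧ 1 ≤ x2 ∧ d + 1 ≤ g1 ∧ d + 1 ≤ g2 ∧ d + 1 ≤ g4) ∨
    (1 ≤ x1 ∧ 1 ≤ x3 ∧ d + 1 ≤ g1 ∧ d + 1 ≤ g3 ∧ d + 1 ≤ g5) ∨
    (2 ≤ x2 ∧ d + 1 ≤ g1 ∧ d + 1 ≤ g4 ∧ d + 1 ≤ g5) ∨
    (1 ≤ x2 ∧ 1 ≤ x3 ∧ d + 1 ≤ g1 ∧ d + 1 ≤ g4 ∧ d + 1 ≤ g5) ∨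
    (2 ≤ x3 ∧ d + 1 ≤ g1 ∧ d + 1 ≤ g3 ∧ d + 1 ≤ g5) := by
  subst e1 e2 e3 e4 e5 e6
  omega

private theorem PA_7_1 (x1 x2 x4 m d g1 g2 g3 g4 g5 g6 : ℤ) (p1 : 0 ≤ x1) (p2 : 0 ≤ x2) (p4 : 0 ≤ x4)
    (hm : 1 ≤ m) (e1 : g1 = 0 * x1 + 0 * x2 + 0 * x4 - 1 * m) (e2 : g2 = 0 * x1 + 0 * x2 + 1 * x4 - 2 * m) (e3 : g3 = 0 * x1 + 0 * x2 + 1 * x4 - 3 * m) (e4 : g4 = 0 * x1 + 1 * x2 + 2 * x4 - 4 * m) (e5 : g5 = 0 * x1 + 1 * x2 + 2 * x4 - 5 * m) (e6 : g6 = 0 * x1 + 1 * x2 + 3 * x4 - 6 * m)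
    (h1 : d ≤ g1) (h2 : d ≤ g2) (h3 : d ≤ g3) (h4 : d ≤ g4) (h5 : d ≤ g5) (h6 : d ≤ g6) (hf : 7 * m ≤ 1 * x1 + 2 * x2 + 4 * x4) :
    (2 ≤ x1 ∧ d + 1 ≤ g1 ∧ d + 1 ≤ g2 ∧ d + 1 ≤ g3) ∨
    (1 ≤ x1 ∧ 1 ≤ x2 ∧ d + 1 ≤ g1 ∧ d + 1 ≤ g2 ∧ d + 1 ≤ g4) ∨
    (1 ≤ x1 ∧ 1 ≤ x4 ∧ d + 1 ≤ g1 ∧ d + 1 ≤ g2 ∧ d + 1 ≤ g4) ∨
    (2 ≤ x2 ∧ d + 1 ≤ g1 ∧ d + 1 ≤ g4 ∧ d + 1 ≤ g5) ∨
    (1 ≤ x2 ∧ 1 ≤ x4 ∧ d + 1 ≤ g1 ∧ d + 1 ≤ g2 ∧ d + 1 ≤ g4) ∨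
    (2 ≤ x4 ∧ d + 1 ≤ g2 ∧ d + 1 ≤ g4 ∧ d + 1 ≤ g6) := by
  subst e1 e2 e3 e4 e5 e6
  omega

private theorem PA_7_2 (x1 x3 x5 m d g1 g2 g3 g4 g5 g6 : ℤ) (p1 : 0 ≤ x1) (p3 : 0 ≤ x3) (p5 : 0 ≤ x5)
    (hm : 1 ≤ m) (e1 : g1 = 0 * x1 + 0 * x3 + 0 * x5 - 1 * m) (e2 : g2 = 0 * x1 + 0 * x3 + 1 * x5 - 2 * m) (e3 : g3 = 0 * x1 + 1 * x3 + 2 * x5 - 3 * m) (e4 : g4 = 0 * x1 + 1 * x3 + 2 * x5 - 4 * m) (e5 : g5 = 0 * x1 + 2 * x3 + 3 * x5 - 5 * m) (e6 : g6 = 0 * x1 + 2 * x3 + 4 * x5 - 6 * m)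
    (h1 : d ≤ g1) (h2 : d ≤ g2) (h3 : d ≤ g3) (h4 : d ≤ g4) (h5 : d ≤ g5) (h6 : d ≤ g6) (hf : 7 * m ≤ 1 * x1 + 3 * x3 + 5 * x5) :
    (2 ≤ x1 ∧ d + 1 ≤ g1 ∧ d + 1 ≤ g2 ∧ d + 1 ≤ g3) ∨
    (1 ≤ x1 ∧ 1 ≤ x3 ∧ d + 1 ≤ g1 ∧ d + 1 ≤ g3 ∧ d + 1 ≤ g5) ∨
    (1 ≤ x1 ∧ 1 ≤ x5 ∧ d + 1 ≤ g1 ∧ d + 1 ≤ g2 ∧ d + 1 ≤ g3) ∨
    (2 ≤ x3 ∧ d + 1 ≤ g1 ∧ d + 1 ≤ g3 ∧ d + 1 ≤ g5) ∨
    (1 ≤ x3 ∧ 1 ≤ x5 ∧ d + 1 ≤ g3 ∧ d + 1 ≤ g5 ∧ d + 1 ≤ g6) ∨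
    (2 ≤ x5 ∧ d + 1 ≤ g2 ∧ d + 1 ≤ g3 ∧ d + 1 ≤ g6) := by
  subst e1 e2 e3 e4 e5 e6
  omega

private theorem PA_7_3 (x1 x4 x5 m d g1 g2 g3 g4 g5 g6 : ℤ) (p1 : 0 ≤ x1) (p4 : 0 ≤ x4) (p5 : 0 ≤ x5)
    (hm : 1 ≤ m) (e1 : g1 = 0 * x1 + 0 * x4 + 0 * x5 - 1 * m) (e2 : g2 = 0 * x1 + 1 * x4 + 1 * x5 - 2 * m) (e3 : g3 = 0 * x1 + 1 * x4 + 2 * x5 - 3 * m) (e4 : g4 = 0 * x1 + 2 * x4 + 2 * x5 - 4 * m) (e5 : g5 = 0 * x1 + 2 * x4 + 3 * x5 - 5 * m) (e6 : g6 = 0 * x1 + 3 * x4 + 4 * x5 - 6 * m)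
    (h1 : d ≤ g1) (h2 : d ≤ g2) (h3 : d ≤ g3) (h4 : d ≤ g4) (h5 : d ≤ g5) (h6 : d ≤ g6) (hf : 7 * m ≤ 1 * x1 + 4 * x4 + 5 * x5) :
    (2 ≤ x1 ∧ d + 1 ≤ g1 ∧ d + 1 ≤ g2 ∧ d + 1 ≤ g3) ∨
    (1 ≤ x1 ∧ 1 ≤ x4 ∧ d + 1 ≤ g1 ∧ d + 1 ≤ g2 ∧ d + 1 ≤ g4) ∨
    (1 ≤ x1 ∧ 1 ≤ x5 ∧ d + 1 ≤ g1 ∧ d + 1 ≤ g2 ∧ d + 1 ≤ g3) ∨
    (2 ≤ x4 ∧ d + 1 ≤ g2 ∧ d + 1 ≤ g4 ∧ d + 1 ≤ g6) ∨
    (1 ≤ x4 ∧ 1 ≤ x5 ∧ d + 1 ≤ g2 ∧ d + 1 ≤ g3 ∧ d + 1 ≤ g6) ∨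
    (2 ≤ x5 ∧ d + 1 ≤ g2 ∧ d + 1 ≤ g3 ∧ d + 1 ≤ g6) := by
  subst e1 e2 e3 e4 e5 e6
  omega

private theorem PA_7_4 (x2 x3 x6 m d g1 g2 g3 g4 g5 g6 : ℤ) (p2 : 0 ≤ x2) (p3 : 0 ≤ x3) (p6 : 0 ≤ x6)
    (hm : 1 ≤ m) (e1 : g1 = 0 * x2 + 0 * x3 + 0 * x6 - 1 * m) (e2 : g2 = 0 * x2 + 0 * x3 + 1 * x6 - 2 * m) (e3 : g3 = 0 * x2 + 1 * x3 + 2 * x6 - 3 * m) (e4 : g4 = 1 * x2 + 1 * x3 + 3 * x6 - 4 * m) (e5 : g5 = 1 * x2 + 2 * x3 + 4 * x6 - 5 * m) (e6 : g6 = 1 * x2 + 2 * x3 + 5 * x6 - 6 * m)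
    (h1 : d ≤ g1) (h2 : d ≤ g2) (h3 : d ≤ g3) (h4 : d ≤ g4) (h5 : d ≤ g5) (h6 : d ≤ g6) (hf : 7 * m ≤ 2 * x2 + 3 * x3 + 6 * x6) :
    (2 ≤ x2 ∧ d + 1 ≤ g1 ∧ d + 1 ≤ g4 ∧ d + 1 ≤ g5) ∨
    (1 ≤ x2 ∧ 1 ≤ x3 ∧ d + 1 ≤ g1 ∧ d + 1 ≤ g4 ∧ d + 1 ≤ g5) ∨
    (1 ≤ x2 ∧ 1 ≤ x6 ∧ d + 1 ≤ g4 ∧ d + 1 ≤ g5 ∧ d + 1 ≤ g6) ∨
    (2 ≤ x3 ∧ d + 1 ≤ g1 ∧ d + 1 ≤ g3 ∧ d + 1 ≤ g5) ∨
    (1 ≤ x3 ∧ 1 ≤ x6 ∧ d + 1 ≤ g3 ∧ d + 1 ≤ g5 ∧ d + 1 ≤ g6) ∨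
    (2 ≤ x6 ∧ d + 1 ≤ g4 ∧ d + 1 ≤ g5 ∧ d + 1 ≤ g6) := by
  subst e1 e2 e3 e4 e5 e6
  omega

private theorem PA_7_5 (x2 x4 x6 m d g1 g2 g3 g4 g5 g6 : ℤ) (p2 : 0 ≤ x2) (p4 : 0 ≤ x4) (p6 : 0 ≤ x6)
    (hm : 1 ≤ m) (e1 : g1 = 0 * x2 + 0 * x4 + 0 * x6 - 1 * m) (e2 : g2 = 0 * x2 + 1 * x4 + 1 * x6 - 2 * m) (e3 : g3 = 0 * x2 + 1 * x4 + 2 * x6 - 3 * m) (e4 : g4 = 1 * x2 + 2 * x4 + 3 * x6 - 4 * m) (e5 : g5 = 1 * x2 + 2 * x4 + 4 * x6 - 5 * m) (e6 : g6 = 1 * x2 + 3 * x4 + 5 * x6 - 6 * m)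
    (h1 : d ≤ g1) (h2 : d ≤ g2) (h3 : d ≤ g3) (h4 : d ≤ g4) (h5 : d ≤ g5) (h6 : d ≤ g6) (hf : 7 * m ≤ 2 * x2 + 4 * x4 + 6 * x6) :
    (2 ≤ x2 ∧ d + 1 ≤ g1 ∧ d + 1 ≤ g4 ∧ d + 1 ≤ g5) ∨
    (1 ≤ x2 ∧ 1 ≤ x4 ∧ d + 1 ≤ g1 ∧ d + 1 ≤ g2 ∧ d + 1 ≤ g4) ∨
    (1 ≤ x2 ∧ 1 ≤ x6 ∧ d + 1 ≤ g4 ∧ d + 1 ≤ g5 ∧ d + 1 ≤ g6) ∨
    (2 ≤ x4 ∧ d + 1 ≤ g2 ∧ d + 1 ≤ g4 ∧ d + 1 ≤ g6) ∨
    (1 ≤ x4 ∧ 1 ≤ x6 ∧ d + 1 ≤ g2 ∧ d + 1 ≤ g4 ∧ d + 1 ≤ g6) ∨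
    (2 ≤ x6 ∧ d + 1 ≤ g4 ∧ d + 1 ≤ g5 ∧ d + 1 ≤ g6) := by
  subst e1 e2 e3 e4 e5 e6
  omega

private theorem PA_7_6 (x3 x5 x6 m d g1 g2 g3 g4 g5 g6 : ℤ) (p3 : 0 ≤ x3) (p5 : 0 ≤ x5) (p6 : 0 ≤ x6)
    (hm : 1 ≤ m) (e1 : g1 = 0 * x3 + 0 * x5 + 0 * x6 - 1 * m) (e2 : g2 = 0 * x3 + 1 * x5 + 1 * x6 - 2 * m) (e3 : g3 = 1 * x3 + 2 * x5 + 2 * x6 - 3 * m) (e4 : g4 = 1 * x3 + 2 * x5 + 3 * x6 - 4 * m) (e5 : g5 = 2 * x3 + 3 * x5 + 4 * x6 - 5 * m) (e6 : g6 = 2 * x3 + 4 * x5 + 5 * x6 - 6 * m)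
    (h1 : d ≤ g1) (h2 : d ≤ g2) (h3 : d ≤ g3) (h4 : d ≤ g4) (h5 : d ≤ g5) (h6 : d ≤ g6) (hf : 7 * m ≤ 3 * x3 + 5 * x5 + 6 * x6) :
    (2 ≤ x3 ∧ d + 1 ≤ g1 ∧ d + 1 ≤ g3 ∧ d + 1 ≤ g5) ∨
    (1 ≤ x3 ∧ 1 ≤ x5 ∧ d + 1 ≤ g3 ∧ d + 1 ≤ g5 ∧ d + 1 ≤ g6) ∨
    (1 ≤ x3 ∧ 1 ≤ x6 ∧ d + 1 ≤ g3 ∧ d + 1 ≤ g5 ∧ d + 1 ≤ g6) ∨
    (2 ≤ x5 ∧ d + 1 ≤ g2 ∧ d + 1 ≤ g3 ∧ d + 1 ≤ g6) ∨
    (1 ≤ x5 ∧ 1 ≤ x6 ∧ d + 1 ≤ g3 ∧ d + 1 ≤ g5 ∧ d + 1 ≤ g6) ∨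
    (2 ≤ x6 ∧ d + 1 ≤ g4 ∧ d + 1 ≤ g5 ∧ d + 1 ≤ g6) := by
  subst e1 e2 e3 e4 e5 e6
  omega

private theorem PA_7_7 (x4 x5 x6 m d g1 g2 g3 g4 g5 g6 : ℤ) (p4 : 0 ≤ x4) (p5 : 0 ≤ x5) (p6 : 0 ≤ x6)
    (hm : 1 ≤ m) (e1 : g1 = 0 * x4 + 0 * x5 + 0 * x6 - 1 * m) (e2 : g2 = 1 * x4 + 1 * x5 + 1 * x6 - 2 * m) (e3 : g3 = 1 * x4 + 2 * x5 + 2 * x6 - 3 * m) (e4 : g4 = 2 * x4 + 2 * x5 + 3 * x6 - 4 * m) (e5 : g5 = 2 * x4 + 3 * x5 + 4 * x6 - 5 * m) (e6 : g6 = 3 * x4 + 4 * x5 + 5 * x6 - 6 * m)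
    (h1 : d ≤ g1) (h2 : d ≤ g2) (h3 : d ≤ g3) (h4 : d ≤ g4) (h5 : d ≤ g5) (h6 : d ≤ g6) (hf : 7 * m ≤ 4 * x4 + 5 * x5 + 6 * x6) :
    (2 ≤ x4 ∧ d + 1 ≤ g2 ∧ d + 1 ≤ g4 ∧ d + 1 ≤ g6) ∨
    (1 ≤ x4 ∧ 1 ≤ x5 ∧ d + 1 ≤ g2 ∧ d + 1 ≤ g3 ∧ d + 1 ≤ g6) ∨
    (1 ≤ x4 ∧ 1 ≤ x6 ∧ d + 1 ≤ g2 ∧ d + 1 ≤ g4 ∧ d + 1 ≤ g6) ∨
    (2 ≤ x5 ∧ d + 1 ≤ g2 ∧ d + 1 ≤ g3 ∧ d + 1 ≤ g6) ∨
    (1 ≤ x5 ∧ 1 ≤ x6 ∧ d + 1 ≤ g3 ∧ d + 1 ≤ g5 ∧ d + 1 ≤ g6) ∨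
    (2 ≤ x6 ∧ d + 1 ≤ g4 ∧ d + 1 ≤ g5 ∧ d + 1 ≤ g6) := by
  subst e1 e2 e3 e4 e5 e6
  omega

/-- the sum `∑ ⌊j r / q⌋ n_r - j m` -/
private def PA_G (q : ℕ) (n : ℕ → ℕ) (m : ℤ) (j : ℕ) : ℤ :=
  ∑ r ∈ Finset.range q, ((j * r / q : ℕ) : ℤ) * n r - j * m

private theorem PA_or {a b : ℕ} (h : ¬(1 ≤ a ∧ 1 ≤ b)) : a = 0 ∨ b = 0 := by omega

private theorem PA_1 {a : ℕ} (h : (1 : ℤ) ≤ a) : 1 ≤ a := by omega

private theorem PA_2 {a : ℕ} (h : (2 : ℤ) ≤ a) : 1 ≤ a := by omega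

private theorem PA_3 {a : ℕ} (h : (2 : ℤ) ≤ a) : 2 ≤ a := by omega

private theorem PA_fin (q : ℕ) (n : ℕ → ℕ) (m d : ℤ) (r s : ℕ) (hr : r < q) (hs : s < q) (h1 : 1 ≤ n r)
    (h2 : 1 ≤ n s) (h3 : r = s → 2 ≤ n r) (h : ∀ j : ℕ, 1 ≤ j → j < q → d ≤ PA_G q n m j)
    (hc : ∀ j : ℕ, 1 ≤ j → j < q → j * (r + s) / q = j * r / q + j * s / q + 1 ∨ d + 1 ≤ PA_G q n m j) :
    ∃ r s : ℕ, r < q ∧ s < q ∧ 1 ≤ n r ∧ 1 ≤ n s ∧ (r = s → 2 ≤ n r) ∧ ∀ j : ℕ, 1 ≤ j → j < q →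
      d + 1 ≤ ∑ r ∈ Finset.range q, ((j * r / q : ℕ) : ℤ) * n r - j * m +
        ((j * (r + s) / q : ℕ) - (j * r / q : ℕ) - (j * s / q : ℕ)) := by
  refine ⟨r, s, hr, hs, h1, h2, h3, fun j hj1 hj2 => ?_⟩
  have k1 := h j hj1 hj2
  have k2 : j * r / q + j * s / q ≤ j * (r + s) / q := by
    rw [mul_add]
    exact Nat.div_add_div_le_add_div
  rcases hc j hj1 hj2 with k3 | k3
  · unfold PA_G at k1
    have e : ((j * (r + s) / q : ℕ) : ℤ) = ((j * r / q : ℕ) : ℤ) + ((j * s / q : ℕ) : ℤ) + 1 := by exact_mod_cast k3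
    rw [e]
    linarith
  · unfold PA_G at k3
    have k4 : ((j * r / q : ℕ) : ℤ) + (j * s / q : ℕ) ≤ (j * (r + s) / q : ℕ) := by exact_mod_cast k2
    linarith

private theorem PA_num3 (n : ℕ → ℕ) (m d : ℤ) (hm : 1 ≤ m)
    (hf : (3 : ℕ) * m ≤ ∑ r ∈ Finset.range 3, (r : ℤ) * n r)
    (h : ∀ j : ℕ, 1 ≤ j → j < 3 → d ≤ PA_G 3 n m j) :
    ∃ r s : ℕ, r < 3 ∧ s < 3 ∧ 1 ≤ n r ∧ 1 ≤ n s ∧ (r = s → 2 ≤ n r) ∧ ∀ j : ℕ, 1 ≤ j → j < 3 →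
      d + 1 ≤ ∑ r ∈ Finset.range 3, ((j * r / 3 : ℕ) : ℤ) * n r - j * m +
        ((j * (r + s) / 3 : ℕ) - (j * r / 3 : ℕ) - (j * s / 3 : ℕ)) := by
  have e1 : PA_G 3 n m 1 = 0 * (n 1 : ℤ) + 0 * (n 2 : ℤ) - 1 * m := by
    simp [PA_G, Finset.sum_range_succ]
  have e2 : PA_G 3 n m 2 = 0 * (n 1 : ℤ) + 1 * (n 2 : ℤ) - 2 * m := by
    simp [PA_G, Finset.sum_range_succ]
  have ef : ∑ r ∈ Finset.range 3, (r : ℤ) * n r = 1 * (n 1 : ℤ) + 2 * (n 2 : ℤ) := by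
    simp [Finset.sum_range_succ]
  rw [ef] at hf
  have h1 := h 1 (by norm_num) (by norm_num)
  have h2 := h 2 (by norm_num) (by norm_num)
  by_cases c0 : 1 ≤ n 1 ∧ 1 ≤ n 2
  · exact PA_fin 3 n m d 1 2 (by norm_num) (by norm_num) c0.1 c0.2 (fun h => absurd h (by norm_num)) h fun j j1 j2 => by
      interval_cases j
      exacts [Or.inl rfl, Or.inl rfl]
  rcases PA_or c0 with z0 | z0
  · simp only [z0, Nat.cast_zero, mul_zero, add_zero, zero_add] at e1 e2 hf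
    have t := PA_3_1 (n 2) m d _ _ (Int.natCast_nonneg _) hm e1 e2 h1 h2 hf
    obtain ⟨u, w2⟩ := t
    exact PA_fin 3 n m d 2 2 (by norm_num) (by norm_num) (PA_2 u) (PA_2 u) (fun _ => PA_3 u) h fun j j1 j2 => by
        interval_cases j
        exacts [Or.inl rfl, Or.inr w2]
  · simp only [z0, Nat.cast_zero, mul_zero, add_zero, zero_add] at e1 e2 hf
    have t := PA_3_0 (n 1) m d _ _ (Int.natCast_nonneg _) hm e1 e2 h1 h2 hf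
    obtain ⟨u, w1⟩ := t
    exact PA_fin 3 n m d 1 1 (by norm_num) (by norm_num) (PA_2 u) (PA_2 u) (fun _ => PA_3 u) h fun j j1 j2 => by
        interval_cases j
        exacts [Or.inr w1, Or.inl rfl]

private theorem PA_num5 (n : ℕ → ℕ) (m d : ℤ) (hm : 1 ≤ m)
    (hf : (5 : ℕ) * m ≤ ∑ r ∈ Finset.range 5, (r : ℤ) * n r)
    (h : ∀ j : ℕ, 1 ≤ j → j < 5 → d ≤ PA_G 5 n m j) :
    ∃ r s : ℕ, r < 5 ∧ s < 5 ∧ 1 ≤ n r ∧ 1 ≤ n s ∧ (r = s → 2 ≤ n r) ∧ ∀ j : ℕ, 1 ≤ j → j < 5 →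
      d + 1 ≤ ∑ r ∈ Finset.range 5, ((j * r / 5 : ℕ) : ℤ) * n r - j * m +
        ((j * (r + s) / 5 : ℕ) - (j * r / 5 : ℕ) - (j * s / 5 : ℕ)) := by
  have e1 : PA_G 5 n m 1 = 0 * (n 1 : ℤ) + 0 * (n 2 : ℤ) + 0 * (n 3 : ℤ) + 0 * (n 4 : ℤ) - 1 * m := by
    simp [PA_G, Finset.sum_range_succ]
  have e2 : PA_G 5 n m 2 = 0 * (n 1 : ℤ) + 0 * (n 2 : ℤ) + 1 * (n 3 : ℤ) + 1 * (n 4 : ℤ) - 2 * m := by
    simp [PA_G, Finset.sum_range_succ]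
  have e3 : PA_G 5 n m 3 = 0 * (n 1 : ℤ) + 1 * (n 2 : ℤ) + 1 * (n 3 : ℤ) + 2 * (n 4 : ℤ) - 3 * m := by
    simp [PA_G, Finset.sum_range_succ]
  have e4 : PA_G 5 n m 4 = 0 * (n 1 : ℤ) + 1 * (n 2 : ℤ) + 2 * (n 3 : ℤ) + 3 * (n 4 : ℤ) - 4 * m := by
    simp [PA_G, Finset.sum_range_succ]
  have ef : ∑ r ∈ Finset.range 5, (r : ℤ) * n r = 1 * (n 1 : ℤ) + 2 * (n 2 : ℤ) + 3 * (n 3 : ℤ) + 4 * (n 4 : ℤ) := by
    simp [Finset.sum_range_succ]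
  rw [ef] at hf
  have h1 := h 1 (by norm_num) (by norm_num)
  have h2 := h 2 (by norm_num) (by norm_num)
  have h3 := h 3 (by norm_num) (by norm_num)
  have h4 := h 4 (by norm_num) (by norm_num)
  by_cases c0 : 1 ≤ n 1 ∧ 1 ≤ n 4
  · exact PA_fin 5 n m d 1 4 (by norm_num) (by norm_num) c0.1 c0.2 (fun h => absurd h (by norm_num)) h fun j j1 j2 => by
      interval_cases j
      exacts [Or.inl rfl, Or.inl rfl, Or.inl rfl, Or.inl rfl]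
  by_cases c1 : 1 ≤ n 2 ∧ 1 ≤ n 3
  · exact PA_fin 5 n m d 2 3 (by norm_num) (by norm_num) c1.1 c1.2 (fun h => absurd h (by norm_num)) h fun j j1 j2 => by
      interval_cases j
      exacts [Or.inl rfl, Or.inl rfl, Or.inl rfl, Or.inl rfl]
  rcases PA_or c0 with z0 | z0
  · rcases PA_or c1 with z1 | z1
    · simp only [z0, z1, Nat.cast_zero, mul_zero, add_zero, zero_add] at e1 e2 e3 e4 hf
      have t := PA_5_3 (n 3) (n 4) m d _ _ _ _ (Int.natCast_nonneg _) (Int.natCast_nonneg _) hm e1 e2 e3 e4 h1 h2 h3 h4 hf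
      rcases t with ⟨u, w2, w4⟩ | ⟨u, v, w2, w4⟩ | ⟨u, w3, w4⟩
      · exact PA_fin 5 n m d 3 3 (by norm_num) (by norm_num) (PA_2 u) (PA_2 u) (fun _ => PA_3 u) h fun j j1 j2 => by
          interval_cases j
          exacts [Or.inl rfl, Or.inr w2, Or.inl rfl, Or.inr w4]
      · exact PA_fin 5 n m d 3 4 (by norm_num) (by norm_num) (PA_1 u) (PA_1 v) (fun h => absurd h (by norm_num)) h fun j j1 j2 => by
          interval_cases j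
          exacts [Or.inl rfl, Or.inr w2, Or.inl rfl, Or.inr w4]
      · exact PA_fin 5 n m d 4 4 (by norm_num) (by norm_num) (PA_2 u) (PA_2 u) (fun _ => PA_3 u) h fun j j1 j2 => by
          interval_cases j
          exacts [Or.inl rfl, Or.inl rfl, Or.inr w3, Or.inr w4]
    · simp only [z0, z1, Nat.cast_zero, mul_zero, add_zero, zero_add] at e1 e2 e3 e4 hf
      have t := PA_5_2 (n 2) (n 4) m d _ _ _ _ (Int.natCast_nonneg _) (Int.natCast_nonneg _) hm e1 e2 e3 e4 h1 h2 h3 h4 hf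
      rcases t with ⟨u, w1, w3⟩ | ⟨u, v, w3, w4⟩ | ⟨u, w3, w4⟩
      · exact PA_fin 5 n m d 2 2 (by norm_num) (by norm_num) (PA_2 u) (PA_2 u) (fun _ => PA_3 u) h fun j j1 j2 => by
          interval_cases j
          exacts [Or.inr w1, Or.inl rfl, Or.inr w3, Or.inl rfl]
      · exact PA_fin 5 n m d 2 4 (by norm_num) (by norm_num) (PA_1 u) (PA_1 v) (fun h => absurd h (by norm_num)) h fun j j1 j2 => by
          interval_cases j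
          exacts [Or.inl rfl, Or.inl rfl, Or.inr w3, Or.inr w4]
      · exact PA_fin 5 n m d 4 4 (by norm_num) (by norm_num) (PA_2 u) (PA_2 u) (fun _ => PA_3 u) h fun j j1 j2 => by
          interval_cases j
          exacts [Or.inl rfl, Or.inl rfl, Or.inr w3, Or.inr w4]
  · rcases PA_or c1 with z1 | z1
    · simp only [z0, z1, Nat.cast_zero, mul_zero, add_zero, zero_add] at e1 e2 e3 e4 hf
      have t := PA_5_1 (n 1) (n 3) m d _ _ _ _ (Int.natCast_nonneg _) (Int.natCast_nonneg _) hm e1 e2 e3 e4 h1 h2 h3 h4 hf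
      rcases t with ⟨u, w1, w2⟩ | ⟨u, v, w1, w2⟩ | ⟨u, w2, w4⟩
      · exact PA_fin 5 n m d 1 1 (by norm_num) (by norm_num) (PA_2 u) (PA_2 u) (fun _ => PA_3 u) h fun j j1 j2 => by
          interval_cases j
          exacts [Or.inr w1, Or.inr w2, Or.inl rfl, Or.inl rfl]
      · exact PA_fin 5 n m d 1 3 (by norm_num) (by norm_num) (PA_1 u) (PA_1 v) (fun h => absurd h (by norm_num)) h fun j j1 j2 => by
          interval_cases j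
          exacts [Or.inr w1, Or.inr w2, Or.inl rfl, Or.inl rfl]
      · exact PA_fin 5 n m d 3 3 (by norm_num) (by norm_num) (PA_2 u) (PA_2 u) (fun _ => PA_3 u) h fun j j1 j2 => by
          interval_cases j
          exacts [Or.inl rfl, Or.inr w2, Or.inl rfl, Or.inr w4]
    · simp only [z0, z1, Nat.cast_zero, mul_zero, add_zero, zero_add] at e1 e2 e3 e4 hf
      have t := PA_5_0 (n 1) (n 2) m d _ _ _ _ (Int.natCast_nonneg _) (Int.natCast_nonneg _) hm e1 e2 e3 e4 h1 h2 h3 h4 hf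
      rcases t with ⟨u, w1, w2⟩ | ⟨u, v, w1, w3⟩ | ⟨u, w1, w3⟩
      · exact PA_fin 5 n m d 1 1 (by norm_num) (by norm_num) (PA_2 u) (PA_2 u) (fun _ => PA_3 u) h fun j j1 j2 => by
          interval_cases j
          exacts [Or.inr w1, Or.inr w2, Or.inl rfl, Or.inl rfl]
      · exact PA_fin 5 n m d 1 2 (by norm_num) (by norm_num) (PA_1 u) (PA_1 v) (fun h => absurd h (by norm_num)) h fun j j1 j2 => by
          interval_cases j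
          exacts [Or.inr w1, Or.inl rfl, Or.inr w3, Or.inl rfl]
      · exact PA_fin 5 n m d 2 2 (by norm_num) (by norm_num) (PA_2 u) (PA_2 u) (fun _ => PA_3 u) h fun j j1 j2 => by
          interval_cases j
          exacts [Or.inr w1, Or.inl rfl, Or.inr w3, Or.inl rfl]

private theorem PA_num7 (n : ℕ → ℕ) (m d : ℤ) (hm : 1 ≤ m)
    (hf : (7 : ℕ) * m ≤ ∑ r ∈ Finset.range 7, (r : ℤ) * n r)
    (h : ∀ j : ℕ, 1 ≤ j → j < 7 → d ≤ PA_G 7 n m j) :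
    ∃ r s : ℕ, r < 7 ∧ s < 7 ∧ 1 ≤ n r ∧ 1 ≤ n s ∧ (r = s → 2 ≤ n r) ∧ ∀ j : ℕ, 1 ≤ j → j < 7 →
      d + 1 ≤ ∑ r ∈ Finset.range 7, ((j * r / 7 : ℕ) : ℤ) * n r - j * m +
        ((j * (r + s) / 7 : ℕ) - (j * r / 7 : ℕ) - (j * s / 7 : ℕ)) := by
  have e1 : PA_G 7 n m 1 = 0 * (n 1 : ℤ) + 0 * (n 2 : ℤ) + 0 * (n 3 : ℤ) + 0 * (n 4 : ℤ) + 0 * (n 5 : ℤ) + 0 * (n 6 : ℤ) - 1 * m := by
    simp [PA_G, Finset.sum_range_succ]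
  have e2 : PA_G 7 n m 2 = 0 * (n 1 : ℤ) + 0 * (n 2 : ℤ) + 0 * (n 3 : ℤ) + 1 * (n 4 : ℤ) + 1 * (n 5 : ℤ) + 1 * (n 6 : ℤ) - 2 * m := by
    simp [PA_G, Finset.sum_range_succ]
  have e3 : PA_G 7 n m 3 = 0 * (n 1 : ℤ) + 0 * (n 2 : ℤ) + 1 * (n 3 : ℤ) + 1 * (n 4 : ℤ) + 2 * (n 5 : ℤ) + 2 * (n 6 : ℤ) - 3 * m := by
    simp [PA_G, Finset.sum_range_succ]
  have e4 : PA_G 7 n m 4 = 0 * (n 1 : ℤ) + 1 * (n 2 : ℤ) + 1 * (n 3 : ℤ) + 2 * (n 4 : ℤ) + 2 * (n 5 : ℤ) + 3 * (n 6 : ℤ) - 4 * m := by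
    simp [PA_G, Finset.sum_range_succ]
  have e5 : PA_G 7 n m 5 = 0 * (n 1 : ℤ) + 1 * (n 2 : ℤ) + 2 * (n 3 : ℤ) + 2 * (n 4 : ℤ) + 3 * (n 5 : ℤ) + 4 * (n 6 : ℤ) - 5 * m := by
    simp [PA_G, Finset.sum_range_succ]
  have e6 : PA_G 7 n m 6 = 0 * (n 1 : ℤ) + 1 * (n 2 : ℤ) + 2 * (n 3 : ℤ) + 3 * (n 4 : ℤ) + 4 * (n 5 : ℤ) + 5 * (n 6 : ℤ) - 6 * m := by
    simp [PA_G, Finset.sum_range_succ]
  have ef : ∑ r ∈ Finset.range 7, (r : ℤ) * n r = 1 * (n 1 : ℤ) + 2 * (n 2 : ℤ) + 3 * (n 3 : ℤ) + 4 * (n 4 : ℤ) + 5 * (n 5 : ℤ) + 6 * (n 6 : ℤ) := by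
    simp [Finset.sum_range_succ]
  rw [ef] at hf
  have h1 := h 1 (by norm_num) (by norm_num)
  have h2 := h 2 (by norm_num) (by norm_num)
  have h3 := h 3 (by norm_num) (by norm_num)
  have h4 := h 4 (by norm_num) (by norm_num)
  have h5 := h 5 (by norm_num) (by norm_num)
  have h6 := h 6 (by norm_num) (by norm_num)
  by_cases c0 : 1 ≤ n 1 ∧ 1 ≤ n 6
  · exact PA_fin 7 n m d 1 6 (by norm_num) (by norm_num) c0.1 c0.2 (fun h => absurd h (by norm_num)) h fun j j1 j2 => by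
      interval_cases j
      exacts [Or.inl rfl, Or.inl rfl, Or.inl rfl, Or.inl rfl, Or.inl rfl, Or.inl rfl]
  by_cases c1 : 1 ≤ n 2 ∧ 1 ≤ n 5
  · exact PA_fin 7 n m d 2 5 (by norm_num) (by norm_num) c1.1 c1.2 (fun h => absurd h (by norm_num)) h fun j j1 j2 => by
      interval_cases j
      exacts [Or.inl rfl, Or.inl rfl, Or.inl rfl, Or.inl rfl, Or.inl rfl, Or.inl rfl]
  by_cases c2 : 1 ≤ n 3 ∧ 1 ≤ n 4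
  · exact PA_fin 7 n m d 3 4 (by norm_num) (by norm_num) c2.1 c2.2 (fun h => absurd h (by norm_num)) h fun j j1 j2 => by
      interval_cases j
      exacts [Or.inl rfl, Or.inl rfl, Or.inl rfl, Or.inl rfl, Or.inl rfl, Or.inl rfl]
  rcases PA_or c0 with z0 | z0
  · rcases PA_or c1 with z1 | z1
    · rcases PA_or c2 with z2 | z2
      · simp only [z0, z1, z2, Nat.cast_zero, mul_zero, add_zero, zero_add] at e1 e2 e3 e4 e5 e6 hf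
        have t := PA_7_7 (n 4) (n 5) (n 6) m d _ _ _ _ _ _ (Int.natCast_nonneg _) (Int.natCast_nonneg _) (Int.natCast_nonneg _) hm e1 e2 e3 e4 e5 e6 h1 h2 h3 h4 h5 h6 hf
        rcases t with ⟨u, w2, w4, w6⟩ | ⟨u, v, w2, w3, w6⟩ | ⟨u, v, w2, w4, w6⟩ | ⟨u, w2, w3, w6⟩ | ⟨u, v, w3, w5, w6⟩ | ⟨u, w4, w5, w6⟩
        · exact PA_fin 7 n m d 4 4 (by norm_num) (by norm_num) (PA_2 u) (PA_2 u) (fun _ => PA_3 u) h fun j j1 j2 => by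
            interval_cases j
            exacts [Or.inl rfl, Or.inr w2, Or.inl rfl, Or.inr w4, Or.inl rfl, Or.inr w6]
        · exact PA_fin 7 n m d 4 5 (by norm_num) (by norm_num) (PA_1 u) (PA_1 v) (fun h => absurd h (by norm_num)) h fun j j1 j2 => by
            interval_cases j
            exacts [Or.inl rfl, Or.inr w2, Or.inr w3, Or.inl rfl, Or.inl rfl, Or.inr w6]
        · exact PA_fin 7 n m d 4 6 (by norm_num) (by norm_num) (PA_1 u) (PA_1 v) (fun h => absurd h (by norm_num)) h fun j j1 j2 => by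
            interval_cases j
            exacts [Or.inl rfl, Or.inr w2, Or.inl rfl, Or.inr w4, Or.inl rfl, Or.inr w6]
        · exact PA_fin 7 n m d 5 5 (by norm_num) (by norm_num) (PA_2 u) (PA_2 u) (fun _ => PA_3 u) h fun j j1 j2 => by
            interval_cases j
            exacts [Or.inl rfl, Or.inr w2, Or.inr w3, Or.inl rfl, Or.inl rfl, Or.inr w6]
        · exact PA_fin 7 n m d 5 6 (by norm_num) (by norm_num) (PA_1 u) (PA_1 v) (fun h => absurd h (by norm_num)) h fun j j1 j2 => by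
            interval_cases j
            exacts [Or.inl rfl, Or.inl rfl, Or.inr w3, Or.inl rfl, Or.inr w5, Or.inr w6]
        · exact PA_fin 7 n m d 6 6 (by norm_num) (by norm_num) (PA_2 u) (PA_2 u) (fun _ => PA_3 u) h fun j j1 j2 => by
            interval_cases j
            exacts [Or.inl rfl, Or.inl rfl, Or.inl rfl, Or.inr w4, Or.inr w5, Or.inr w6]
      · simp only [z0, z1, z2, Nat.cast_zero, mul_zero, add_zero, zero_add] at e1 e2 e3 e4 e5 e6 hf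
        have t := PA_7_6 (n 3) (n 5) (n 6) m d _ _ _ _ _ _ (Int.natCast_nonneg _) (Int.natCast_nonneg _) (Int.natCast_nonneg _) hm e1 e2 e3 e4 e5 e6 h1 h2 h3 h4 h5 h6 hf
        rcases t with ⟨u, w1, w3, w5⟩ | ⟨u, v, w3, w5, w6⟩ | ⟨u, v, w3, w5, w6⟩ | ⟨u, w2, w3, w6⟩ | ⟨u, v, w3, w5, w6⟩ | ⟨u, w4, w5, w6⟩
        · exact PA_fin 7 n m d 3 3 (by norm_num) (by norm_num) (PA_2 u) (PA_2 u) (fun _ => PA_3 u) h fun j j1 j2 => by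
            interval_cases j
            exacts [Or.inr w1, Or.inl rfl, Or.inr w3, Or.inl rfl, Or.inr w5, Or.inl rfl]
        · exact PA_fin 7 n m d 3 5 (by norm_num) (by norm_num) (PA_1 u) (PA_1 v) (fun h => absurd h (by norm_num)) h fun j j1 j2 => by
            interval_cases j
            exacts [Or.inl rfl, Or.inl rfl, Or.inr w3, Or.inl rfl, Or.inr w5, Or.inr w6]
        · exact PA_fin 7 n m d 3 6 (by norm_num) (by norm_num) (PA_1 u) (PA_1 v) (fun h => absurd h (by norm_num)) h fun j j1 j2 => by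
            interval_cases j
            exacts [Or.inl rfl, Or.inl rfl, Or.inr w3, Or.inl rfl, Or.inr w5, Or.inr w6]
        · exact PA_fin 7 n m d 5 5 (by norm_num) (by norm_num) (PA_2 u) (PA_2 u) (fun _ => PA_3 u) h fun j j1 j2 => by
            interval_cases j
            exacts [Or.inl rfl, Or.inr w2, Or.inr w3, Or.inl rfl, Or.inl rfl, Or.inr w6]
        · exact PA_fin 7 n m d 5 6 (by norm_num) (by norm_num) (PA_1 u) (PA_1 v) (fun h => absurd h (by norm_num)) h fun j j1 j2 => by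
            interval_cases j
            exacts [Or.inl rfl, Or.inl rfl, Or.inr w3, Or.inl rfl, Or.inr w5, Or.inr w6]
        · exact PA_fin 7 n m d 6 6 (by norm_num) (by norm_num) (PA_2 u) (PA_2 u) (fun _ => PA_3 u) h fun j j1 j2 => by
            interval_cases j
            exacts [Or.inl rfl, Or.inl rfl, Or.inl rfl, Or.inr w4, Or.inr w5, Or.inr w6]
    · rcases PA_or c2 with z2 | z2
      · simp only [z0, z1, z2, Nat.cast_zero, mul_zero, add_zero, zero_add] at e1 e2 e3 e4 e5 e6 hf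
        have t := PA_7_5 (n 2) (n 4) (n 6) m d _ _ _ _ _ _ (Int.natCast_nonneg _) (Int.natCast_nonneg _) (Int.natCast_nonneg _) hm e1 e2 e3 e4 e5 e6 h1 h2 h3 h4 h5 h6 hf
        rcases t with ⟨u, w1, w4, w5⟩ | ⟨u, v, w1, w2, w4⟩ | ⟨u, v, w4, w5, w6⟩ | ⟨u, w2, w4, w6⟩ | ⟨u, v, w2, w4, w6⟩ | ⟨u, w4, w5, w6⟩
        · exact PA_fin 7 n m d 2 2 (by norm_num) (by norm_num) (PA_2 u) (PA_2 u) (fun _ => PA_3 u) h fun j j1 j2 => by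
            interval_cases j
            exacts [Or.inr w1, Or.inl rfl, Or.inl rfl, Or.inr w4, Or.inr w5, Or.inl rfl]
        · exact PA_fin 7 n m d 2 4 (by norm_num) (by norm_num) (PA_1 u) (PA_1 v) (fun h => absurd h (by norm_num)) h fun j j1 j2 => by
            interval_cases j
            exacts [Or.inr w1, Or.inr w2, Or.inl rfl, Or.inr w4, Or.inl rfl, Or.inl rfl]
        · exact PA_fin 7 n m d 2 6 (by norm_num) (by norm_num) (PA_1 u) (PA_1 v) (fun h => absurd h (by norm_num)) h fun j j1 j2 => by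
            interval_cases j
            exacts [Or.inl rfl, Or.inl rfl, Or.inl rfl, Or.inr w4, Or.inr w5, Or.inr w6]
        · exact PA_fin 7 n m d 4 4 (by norm_num) (by norm_num) (PA_2 u) (PA_2 u) (fun _ => PA_3 u) h fun j j1 j2 => by
            interval_cases j
            exacts [Or.inl rfl, Or.inr w2, Or.inl rfl, Or.inr w4, Or.inl rfl, Or.inr w6]
        · exact PA_fin 7 n m d 4 6 (by norm_num) (by norm_num) (PA_1 u) (PA_1 v) (fun h => absurd h (by norm_num)) h fun j j1 j2 => by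
            interval_cases j
            exacts [Or.inl rfl, Or.inr w2, Or.inl rfl, Or.inr w4, Or.inl rfl, Or.inr w6]
        · exact PA_fin 7 n m d 6 6 (by norm_num) (by norm_num) (PA_2 u) (PA_2 u) (fun _ => PA_3 u) h fun j j1 j2 => by
            interval_cases j
            exacts [Or.inl rfl, Or.inl rfl, Or.inl rfl, Or.inr w4, Or.inr w5, Or.inr w6]
      · simp only [z0, z1, z2, Nat.cast_zero, mul_zero, add_zero, zero_add] at e1 e2 e3 e4 e5 e6 hf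
        have t := PA_7_4 (n 2) (n 3) (n 6) m d _ _ _ _ _ _ (Int.natCast_nonneg _) (Int.natCast_nonneg _) (Int.natCast_nonneg _) hm e1 e2 e3 e4 e5 e6 h1 h2 h3 h4 h5 h6 hf
        rcases t with ⟨u, w1, w4, w5⟩ | ⟨u, v, w1, w4, w5⟩ | ⟨u, v, w4, w5, w6⟩ | ⟨u, w1, w3, w5⟩ | ⟨u, v, w3, w5, w6⟩ | ⟨u, w4, w5, w6⟩
        · exact PA_fin 7 n m d 2 2 (by norm_num) (by norm_num) (PA_2 u) (PA_2 u) (fun _ => PA_3 u) h fun j j1 j2 => by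
            interval_cases j
            exacts [Or.inr w1, Or.inl rfl, Or.inl rfl, Or.inr w4, Or.inr w5, Or.inl rfl]
        · exact PA_fin 7 n m d 2 3 (by norm_num) (by norm_num) (PA_1 u) (PA_1 v) (fun h => absurd h (by norm_num)) h fun j j1 j2 => by
            interval_cases j
            exacts [Or.inr w1, Or.inl rfl, Or.inl rfl, Or.inr w4, Or.inr w5, Or.inl rfl]
        · exact PA_fin 7 n m d 2 6 (by norm_num) (by norm_num) (PA_1 u) (PA_1 v) (fun h => absurd h (by norm_num)) h fun j j1 j2 => by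
            interval_cases j
            exacts [Or.inl rfl, Or.inl rfl, Or.inl rfl, Or.inr w4, Or.inr w5, Or.inr w6]
        · exact PA_fin 7 n m d 3 3 (by norm_num) (by norm_num) (PA_2 u) (PA_2 u) (fun _ => PA_3 u) h fun j j1 j2 => by
            interval_cases j
            exacts [Or.inr w1, Or.inl rfl, Or.inr w3, Or.inl rfl, Or.inr w5, Or.inl rfl]
        · exact PA_fin 7 n m d 3 6 (by norm_num) (by norm_num) (PA_1 u) (PA_1 v) (fun h => absurd h (by norm_num)) h fun j j1 j2 => by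
            interval_cases j
            exacts [Or.inl rfl, Or.inl rfl, Or.inr w3, Or.inl rfl, Or.inr w5, Or.inr w6]
        · exact PA_fin 7 n m d 6 6 (by norm_num) (by norm_num) (PA_2 u) (PA_2 u) (fun _ => PA_3 u) h fun j j1 j2 => by
            interval_cases j
            exacts [Or.inl rfl, Or.inl rfl, Or.inl rfl, Or.inr w4, Or.inr w5, Or.inr w6]
  · rcases PA_or c1 with z1 | z1
    · rcases PA_or c2 with z2 | z2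
      · simp only [z0, z1, z2, Nat.cast_zero, mul_zero, add_zero, zero_add] at e1 e2 e3 e4 e5 e6 hf
        have t := PA_7_3 (n 1) (n 4) (n 5) m d _ _ _ _ _ _ (Int.natCast_nonneg _) (Int.natCast_nonneg _) (Int.natCast_nonneg _) hm e1 e2 e3 e4 e5 e6 h1 h2 h3 h4 h5 h6 hf
        rcases t with ⟨u, w1, w2, w3⟩ | ⟨u, v, w1, w2, w4⟩ | ⟨u, v, w1, w2, w3⟩ | ⟨u, w2, w4, w6⟩ | ⟨u, v, w2, w3, w6⟩ | ⟨u, w2, w3, w6⟩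
        · exact PA_fin 7 n m d 1 1 (by norm_num) (by norm_num) (PA_2 u) (PA_2 u) (fun _ => PA_3 u) h fun j j1 j2 => by
            interval_cases j
            exacts [Or.inr w1, Or.inr w2, Or.inr w3, Or.inl rfl, Or.inl rfl, Or.inl rfl]
        · exact PA_fin 7 n m d 1 4 (by norm_num) (by norm_num) (PA_1 u) (PA_1 v) (fun h => absurd h (by norm_num)) h fun j j1 j2 => by
            interval_cases j
            exacts [Or.inr w1, Or.inr w2, Or.inl rfl, Or.inr w4, Or.inl rfl, Or.inl rfl]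
        · exact PA_fin 7 n m d 1 5 (by norm_num) (by norm_num) (PA_1 u) (PA_1 v) (fun h => absurd h (by norm_num)) h fun j j1 j2 => by
            interval_cases j
            exacts [Or.inr w1, Or.inr w2, Or.inr w3, Or.inl rfl, Or.inl rfl, Or.inl rfl]
        · exact PA_fin 7 n m d 4 4 (by norm_num) (by norm_num) (PA_2 u) (PA_2 u) (fun _ => PA_3 u) h fun j j1 j2 => by
            interval_cases j
            exacts [Or.inl rfl, Or.inr w2, Or.inl rfl, Or.inr w4, Or.inl rfl, Or.inr w6]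
        · exact PA_fin 7 n m d 4 5 (by norm_num) (by norm_num) (PA_1 u) (PA_1 v) (fun h => absurd h (by norm_num)) h fun j j1 j2 => by
            interval_cases j
            exacts [Or.inl rfl, Or.inr w2, Or.inr w3, Or.inl rfl, Or.inl rfl, Or.inr w6]
        · exact PA_fin 7 n m d 5 5 (by norm_num) (by norm_num) (PA_2 u) (PA_2 u) (fun _ => PA_3 u) h fun j j1 j2 => by
            interval_cases j
            exacts [Or.inl rfl, Or.inr w2, Or.inr w3, Or.inl rfl, Or.inl rfl, Or.inr w6]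
      · simp only [z0, z1, z2, Nat.cast_zero, mul_zero, add_zero, zero_add] at e1 e2 e3 e4 e5 e6 hf
        have t := PA_7_2 (n 1) (n 3) (n 5) m d _ _ _ _ _ _ (Int.natCast_nonneg _) (Int.natCast_nonneg _) (Int.natCast_nonneg _) hm e1 e2 e3 e4 e5 e6 h1 h2 h3 h4 h5 h6 hf
        rcases t with ⟨u, w1, w2, w3⟩ | ⟨u, v, w1, w3, w5⟩ | ⟨u, v, w1, w2, w3⟩ | ⟨u, w1, w3, w5⟩ | ⟨u, v, w3, w5, w6⟩ | ⟨u, w2, w3, w6⟩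
        · exact PA_fin 7 n m d 1 1 (by norm_num) (by norm_num) (PA_2 u) (PA_2 u) (fun _ => PA_3 u) h fun j j1 j2 => by
            interval_cases j
            exacts [Or.inr w1, Or.inr w2, Or.inr w3, Or.inl rfl, Or.inl rfl, Or.inl rfl]
        · exact PA_fin 7 n m d 1 3 (by norm_num) (by norm_num) (PA_1 u) (PA_1 v) (fun h => absurd h (by norm_num)) h fun j j1 j2 => by
            interval_cases j
            exacts [Or.inr w1, Or.inl rfl, Or.inr w3, Or.inl rfl, Or.inr w5, Or.inl rfl]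
        · exact PA_fin 7 n m d 1 5 (by norm_num) (by norm_num) (PA_1 u) (PA_1 v) (fun h => absurd h (by norm_num)) h fun j j1 j2 => by
            interval_cases j
            exacts [Or.inr w1, Or.inr w2, Or.inr w3, Or.inl rfl, Or.inl rfl, Or.inl rfl]
        · exact PA_fin 7 n m d 3 3 (by norm_num) (by norm_num) (PA_2 u) (PA_2 u) (fun _ => PA_3 u) h fun j j1 j2 => by
            interval_cases j
            exacts [Or.inr w1, Or.inl rfl, Or.inr w3, Or.inl rfl, Or.inr w5, Or.inl rfl]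
        · exact PA_fin 7 n m d 3 5 (by norm_num) (by norm_num) (PA_1 u) (PA_1 v) (fun h => absurd h (by norm_num)) h fun j j1 j2 => by
            interval_cases j
            exacts [Or.inl rfl, Or.inl rfl, Or.inr w3, Or.inl rfl, Or.inr w5, Or.inr w6]
        · exact PA_fin 7 n m d 5 5 (by norm_num) (by norm_num) (PA_2 u) (PA_2 u) (fun _ => PA_3 u) h fun j j1 j2 => by
            interval_cases j
            exacts [Or.inl rfl, Or.inr w2, Or.inr w3, Or.inl rfl, Or.inl rfl, Or.inr w6]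
    · rcases PA_or c2 with z2 | z2
      · simp only [z0, z1, z2, Nat.cast_zero, mul_zero, add_zero, zero_add] at e1 e2 e3 e4 e5 e6 hf
        have t := PA_7_1 (n 1) (n 2) (n 4) m d _ _ _ _ _ _ (Int.natCast_nonneg _) (Int.natCast_nonneg _) (Int.natCast_nonneg _) hm e1 e2 e3 e4 e5 e6 h1 h2 h3 h4 h5 h6 hf
        rcases t with ⟨u, w1, w2, w3⟩ | ⟨u, v, w1, w2, w4⟩ | ⟨u, v, w1, w2, w4⟩ | ⟨u, w1, w4, w5⟩ | ⟨u, v, w1, w2, w4⟩ | ⟨u, w2, w4, w6⟩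
        · exact PA_fin 7 n m d 1 1 (by norm_num) (by norm_num) (PA_2 u) (PA_2 u) (fun _ => PA_3 u) h fun j j1 j2 => by
            interval_cases j
            exacts [Or.inr w1, Or.inr w2, Or.inr w3, Or.inl rfl, Or.inl rfl, Or.inl rfl]
        · exact PA_fin 7 n m d 1 2 (by norm_num) (by norm_num) (PA_1 u) (PA_1 v) (fun h => absurd h (by norm_num)) h fun j j1 j2 => by
            interval_cases j
            exacts [Or.inr w1, Or.inr w2, Or.inl rfl, Or.inr w4, Or.inl rfl, Or.inl rfl]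
        · exact PA_fin 7 n m d 1 4 (by norm_num) (by norm_num) (PA_1 u) (PA_1 v) (fun h => absurd h (by norm_num)) h fun j j1 j2 => by
            interval_cases j
            exacts [Or.inr w1, Or.inr w2, Or.inl rfl, Or.inr w4, Or.inl rfl, Or.inl rfl]
        · exact PA_fin 7 n m d 2 2 (by norm_num) (by norm_num) (PA_2 u) (PA_2 u) (fun _ => PA_3 u) h fun j j1 j2 => by
            interval_cases j
            exacts [Or.inr w1, Or.inl rfl, Or.inl rfl, Or.inr w4, Or.inr w5, Or.inl rfl]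
        · exact PA_fin 7 n m d 2 4 (by norm_num) (by norm_num) (PA_1 u) (PA_1 v) (fun h => absurd h (by norm_num)) h fun j j1 j2 => by
            interval_cases j
            exacts [Or.inr w1, Or.inr w2, Or.inl rfl, Or.inr w4, Or.inl rfl, Or.inl rfl]
        · exact PA_fin 7 n m d 4 4 (by norm_num) (by norm_num) (PA_2 u) (PA_2 u) (fun _ => PA_3 u) h fun j j1 j2 => by
            interval_cases j
            exacts [Or.inl rfl, Or.inr w2, Or.inl rfl, Or.inr w4, Or.inl rfl, Or.inr w6]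
      · simp only [z0, z1, z2, Nat.cast_zero, mul_zero, add_zero, zero_add] at e1 e2 e3 e4 e5 e6 hf
        have t := PA_7_0 (n 1) (n 2) (n 3) m d _ _ _ _ _ _ (Int.natCast_nonneg _) (Int.natCast_nonneg _) (Int.natCast_nonneg _) hm e1 e2 e3 e4 e5 e6 h1 h2 h3 h4 h5 h6 hf
        rcases t with ⟨u, w1, w2, w3⟩ | ⟨u, v, w1, w2, w4⟩ | ⟨u, v, w1, w3, w5⟩ | ⟨u, w1, w4, w5⟩ | ⟨u, v, w1, w4, w5⟩ | ⟨u, w1, w3, w5⟩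
        · exact PA_fin 7 n m d 1 1 (by norm_num) (by norm_num) (PA_2 u) (PA_2 u) (fun _ => PA_3 u) h fun j j1 j2 => by
            interval_cases j
            exacts [Or.inr w1, Or.inr w2, Or.inr w3, Or.inl rfl, Or.inl rfl, Or.inl rfl]
        · exact PA_fin 7 n m d 1 2 (by norm_num) (by norm_num) (PA_1 u) (PA_1 v) (fun h => absurd h (by norm_num)) h fun j j1 j2 => by
            interval_cases j
            exacts [Or.inr w1, Or.inr w2, Or.inl rfl, Or.inr w4, Or.inl rfl, Or.inl rfl]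
        · exact PA_fin 7 n m d 1 3 (by norm_num) (by norm_num) (PA_1 u) (PA_1 v) (fun h => absurd h (by norm_num)) h fun j j1 j2 => by
            interval_cases j
            exacts [Or.inr w1, Or.inl rfl, Or.inr w3, Or.inl rfl, Or.inr w5, Or.inl rfl]
        · exact PA_fin 7 n m d 2 2 (by norm_num) (by norm_num) (PA_2 u) (PA_2 u) (fun _ => PA_3 u) h fun j j1 j2 => by
            interval_cases j
            exacts [Or.inr w1, Or.inl rfl, Or.inl rfl, Or.inr w4, Or.inr w5, Or.inl rfl]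
        · exact PA_fin 7 n m d 2 3 (by norm_num) (by norm_num) (PA_1 u) (PA_1 v) (fun h => absurd h (by norm_num)) h fun j j1 j2 => by
            interval_cases j
            exacts [Or.inr w1, Or.inl rfl, Or.inl rfl, Or.inr w4, Or.inr w5, Or.inl rfl]
        · exact PA_fin 7 n m d 3 3 (by norm_num) (by norm_num) (PA_2 u) (PA_2 u) (fun _ => PA_3 u) h fun j j1 j2 => by
            interval_cases j
            exacts [Or.inr w1, Or.inl rfl, Or.inr w3, Or.inl rfl, Or.inr w5, Or.inl rfl]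

theorem num (q : ℕ) (hq : q = 3 ∨ q = 5 ∨ q = 7) (n : ℕ → ℕ) (m d : ℤ) (hm : 1 ≤ m)
    (hf : q * m ≤ ∑ r ∈ Finset.range q, (r : ℤ) * n r)
    (h : ∀ j : ℕ, 1 ≤ j → j < q → d ≤ ∑ r ∈ Finset.range q, ((j * r / q : ℕ) : ℤ) * n r - j * m) :
    ∃ r s : ℕ, r < q ∧ s < q ∧ 1 ≤ n r ∧ 1 ≤ n s ∧ (r = s → 2 ≤ n r) ∧ ∀ j : ℕ, 1 ≤ j → j < q →
      d + 1 ≤ ∑ r ∈ Finset.range q, ((j * r / q : ℕ) : ℤ) * n r - j * m +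
        ((j * (r + s) / q : ℕ) - (j * r / q : ℕ) - (j * s / q : ℕ)) := by
  rcases hq with rfl | rfl | rfl
  · exact PA_num3 n m d hm hf h
  · exact PA_num5 n m d hm hf h
  · exact PA_num7 n m d hm hf h

end Pool.Agent.Lib.MP_177a0e_gt.LT
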