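import Pool.Agent.Lib.MP_177a0e_gt.LT.PA

/-!
# merging two elements of a list.

`F x` is the size of `x`. PROOF. Let `n r` be the number of elements `x` of `B` with `F x % q = r` (`B.countP`). For every `j`: `∑ j F x / q = j ∑ F x / q + ∑ r, (j r / q) n r` (`F x = q (F x / q) + F x % q`, `Nat.mul_add_div`-like; prove it by induction on `B`, `Finset.sum_ite_eq`-like for one element), and
`∑ F x = q ∑ F x / q + ∑ r, r n r`. Put `m = l - ∑ F x / q ≥ 1`, `d = c - B.length`; `num` gives residues `r`, `s`. Extract `x`, `y` with these residues: `B.Perm (x :: y :: B')` (`List.countP_pos_iff`, `List.perm_cons_erase`; if `r = s` the count is at least 2, after taking out `x` it is still at least 1;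
if `r ≠ s` taking out `x` does not change the count of `s`). With `F x = q a + r`, `F y = q b + s`: `j (F x + F y) / q = j F x / q + j F y / q + (j (r + s) / q - j r / q - j s / q)`. The sums over `B` are those over `x :: y :: B'` (`List.Perm.sum_eq`).
-/

namespace Pool.Agent.Lib.MP_177a0e_gt.LT

open Pool.Agent.Lib.MP_177a0e_gt.Tangle Pool.Agent.Lib.MP_177a0e_gt.Tangle.Gen
open Pool.Agent.Lib.MP_177a0e_gt.Sig

private lemma pb_div (q j a : ℕ) (hq : 0 < q) : j * a / q = j * (a / q) + j * (a % q) / q := by
  have h : j * a = q * (j * (a / q)) + j * (a % q) := by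
    conv_lhs => rw [← Nat.div_add_mod a q]
    ring
  rw [h, Nat.mul_add_div hq]

private lemma pb_div2 (q j a b : ℕ) (hq : 0 < q) :
    j * (a + b) / q = j * (a / q) + j * (b / q) + j * (a % q + b % q) / q := by
  have h : j * (a + b) = q * (j * (a / q) + j * (b / q)) + j * (a % q + b % q) := by
    conv_lhs => rw [← Nat.div_add_mod a q, ← Nat.div_add_mod b q]
    ring
  rw [h, Nat.mul_add_div hq]

private lemma pb_count (q : ℕ) (hq : 0 < q) {α : Type} (F : α → ℕ) (w : ℕ → ℤ) (B : List α) :
    (B.map fun x => w (F x % q)).sum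
      = ∑ r ∈ Finset.range q, w r * (B.countP fun x => decide (F x % q = r) : ℕ) := by
  induction B with
  | nil => simp
  | cons x B ih =>
    rw [List.map_cons, List.sum_cons, ih]
    have h1 : ∀ r, ((x :: B).countP fun x => decide (F x % q = r))
        = (B.countP fun x => decide (F x % q = r)) + if F x % q = r then 1 else 0 := by
      intro r
      rw [List.countP_cons]
      simp
    have h2 : ∑ r ∈ Finset.range q, w r * (((x :: B).countP fun x => decide (F x % q = r) : ℕ) : ℤ)
        = ∑ r ∈ Finset.range q, (w r * ((B.countP fun x => decide (F x % q = r) : ℕ) : ℤ)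
          + if F x % q = r then w r else 0) := by
      refine Finset.sum_congr rfl fun r _ => ?_
      rw [h1]
      push_cast
      split_ifs <;> ring
    rw [h2, Finset.sum_add_distrib, Finset.sum_ite_eq,
      if_pos (Finset.mem_range.2 (Nat.mod_lt _ hq)), add_comm]

private lemma pb_cast {α : Type} (f : α → ℕ) (B : List α) :
    (((B.map f).sum : ℕ) : ℤ) = (B.map fun x => (f x : ℤ)).sum := by
  induction B with
  | nil => simp
  | cons x B ih => rw [List.map_cons, List.sum_cons, List.map_cons, List.sum_cons, ← ih]; push_cast; ring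

private lemma pb_split (q j : ℕ) (hq : 0 < q) {α : Type} (F : α → ℕ) (B : List α) :
    (((B.map fun x => j * F x / q).sum : ℕ) : ℤ)
      = j * (((B.map fun x => F x / q).sum : ℕ) : ℤ)
        + ∑ r ∈ Finset.range q, ((j * r / q : ℕ) : ℤ) *
          (B.countP fun x => decide (F x % q = r) : ℕ) := by
  rw [← pb_count q hq F (fun r => ((j * r / q : ℕ) : ℤ)) B]
  induction B with
  | nil => simp
  | cons x B ih =>
    simp only [List.map_cons, List.sum_cons] at ih ⊢
    rw [pb_div q j (F x) hq]
    push_cast at ih ⊢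
    rw [ih]
    ring

private lemma pb_split1 (q : ℕ) (hq : 0 < q) {α : Type} (F : α → ℕ) (B : List α) :
    (((B.map F).sum : ℕ) : ℤ)
      = q * (((B.map fun x => F x / q).sum : ℕ) : ℤ)
        + ∑ r ∈ Finset.range q, (r : ℤ) * (B.countP fun x => decide (F x % q = r) : ℕ) := by
  rw [← pb_count q hq F (fun r => (r : ℤ)) B]
  induction B with
  | nil => simp
  | cons x B ih =>
    simp only [List.map_cons, List.sum_cons] at ih ⊢
    have h : ((F x : ℕ) : ℤ) = q * ((F x / q : ℕ) : ℤ) + ((F x % q : ℕ) : ℤ) := by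
      exact_mod_cast (Nat.div_add_mod (F x) q).symm
    push_cast at ih h ⊢
    rw [ih]
    linarith

private lemma pb_extract {α : Type} (p : α → Bool) (B : List α) (h : 1 ≤ B.countP p) :
    ∃ (x : α) (B' : List α), p x = true ∧ B.Perm (x :: B') := by
  obtain ⟨x, hx, hpx⟩ := List.countP_pos_iff.1 (Nat.lt_of_lt_of_le Nat.zero_lt_one h)
  obtain ⟨s, t, rfl⟩ := List.append_of_mem hx
  exact ⟨x, s ++ t, hpx, List.perm_middle⟩

theorem merge (q : ℕ) (hq : q = 3 ∨ q = 5 ∨ q = 7) {α : Type} (F : α → ℕ) (B : List α) (l : ℕ) (c : ℤ)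
    (h0 : q * l ≤ (B.map F).sum) (h1 : (B.map fun x => F x / q).sum < l)
    (h : ∀ j : ℕ, 1 ≤ j → j < q → c ≤ B.length + (B.map fun x => j * F x / q).sum - j * l) :
    ∃ (x y : α) (B' : List α), B.Perm (x :: y :: B') ∧ ∀ j : ℕ, 1 ≤ j → j < q →
      c ≤ B'.length + 1 + (j * (F x + F y) / q + (B'.map fun x => j * F x / q).sum : ℕ) - j * l := by
  have hq0 : 0 < q := by omega
  set n : ℕ → ℕ := fun r => B.countP fun x => decide (F x % q = r) with hn
  set m : ℤ := (l : ℤ) - (((B.map fun x => F x / q).sum : ℕ) : ℤ) with hm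
  have hm1 : 1 ≤ m := by
    have : (((B.map fun x => F x / q).sum : ℕ) : ℤ) < l := by exact_mod_cast h1
    omega
  have hf : (q : ℤ) * m ≤ ∑ r ∈ Finset.range q, (r : ℤ) * n r := by
    have e1 := pb_split1 q hq0 F B
    have e2 : ((q * l : ℕ) : ℤ) ≤ (((B.map F).sum : ℕ) : ℤ) := by exact_mod_cast h0
    rw [Nat.cast_mul, e1] at e2
    rw [hm]
    simp only [hn]
    linarith
  have hj : ∀ j : ℕ, 1 ≤ j → j < q →
      (c - B.length) ≤ ∑ r ∈ Finset.range q, ((j * r / q : ℕ) : ℤ) * n r - j * m := by
    intro j hj1 hj2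
    have e1 := h j hj1 hj2
    have e2 := pb_split q j hq0 F B
    rw [e2] at e1
    rw [hm]
    simp only [hn]
    linarith
  obtain ⟨r, s, hr, hs, hnr, hns, hrs, hfin⟩ := num q hq n m (c - B.length) hm1 hf hj
  obtain ⟨x, B1, hx, hB1⟩ := pb_extract (fun x => decide (F x % q = r)) B hnr
  have hx' : F x % q = r := by simpa using hx
  have hcnt : 1 ≤ B1.countP fun x => decide (F x % q = s) := by
    have e1 : (B.countP fun x => decide (F x % q = s))
        = (x :: B1).countP fun x => decide (F x % q = s) := hB1.countP_eq _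
    rw [List.countP_cons] at e1
    by_cases hrs' : r = s
    · have e2 := hrs hrs'
      simp only [hn] at e2
      rw [hrs', e1] at e2
      have e3 : (if decide (F x % q = s) = true then 1 else 0) ≤ 1 := by split_ifs <;> omega
      omega
    · have e2 : (if decide (F x % q = s) = true then 1 else 0) = 0 := by
        rw [if_neg]
        rw [hx']
        simpa using hrs'
      rw [e2] at e1
      simp only [hn] at hns
      omega
  obtain ⟨y, B', hy, hB2⟩ := pb_extract (fun x => decide (F x % q = s)) B1 hcnt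
  have hy' : F y % q = s := by simpa using hy
  have hperm : B.Perm (x :: y :: B') := hB1.trans (hB2.cons x)
  refine ⟨x, y, B', hperm, fun j hj1 hj2 => ?_⟩
  have e1 := hfin j hj1 hj2
  have e2 := pb_split q j hq0 F B
  have e3 : (B.map fun x => j * F x / q).sum
      = j * F x / q + (j * F y / q + (B'.map fun x => j * F x / q).sum) := by
    rw [(hperm.map fun x => j * F x / q).sum_eq, List.map_cons, List.map_cons, List.sum_cons,
      List.sum_cons]
  have e4 : B.length = B'.length + 2 := by
    rw [hperm.length_eq]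
    rfl
  have e5 := pb_div q j (F x) hq0
  have e6 := pb_div q j (F y) hq0
  have e7 := pb_div2 q j (F x) (F y) hq0
  rw [hx'] at e5
  rw [hy'] at e6
  rw [hx', hy'] at e7
  rw [e3, e5, e6] at e2
  rw [e4] at e1
  rw [e7]
  simp only [hn] at e1
  rw [hm] at e1
  generalize (B.map fun x => F x / q).sum = S0 at e1 e2
  generalize (B'.map fun x => j * F x / q).sum = S1 at e2 ⊢
  simp only [Nat.cast_add, Nat.cast_mul, Nat.cast_ofNat] at e1 e2 ⊢
  linarith

end Pool.Agent.Lib.MP_177a0e_gt.LT
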