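import Pool.Agent.Lib.MP_177a0e_gt.LT.PB

/-!
# packing.

PROOF. Prove for lists of lists by induction on `B.length`: if `∀ t ∈ B, t ≠ []`, `q * l ≤ (B.map S).sum`, `S t = (t.map f).sum`, `∀ j < q, c ≤ B.length + (B.map fun t => j * S t / q).sum - j * l` then `∃ G, G.flatten.Perm B.flatten ∧ (∀ t ∈ G, t ≠ []) ∧ l ≤ (G.map fun t => S t / q).sum ∧ c ≤ G.length`.
If `l ≤ (B.map fun t => S t / q).sum` take `G = B` (`j = 0`: `c ≤ B.length`). Otherwise `merge` (with `F = S`) gives `x`, `y`, `B'`; apply the induction hypothesis to `(x ++ y) :: B'` (its length is one less; `S (x ++ y) = S x + S y`; for `j = 0` the hypothesis `c ≤ B'.length + 1` follows from the one for `j = 1`: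
`c ≤ B.length + ∑ - l ≤ B.length - 1`). The theorem: `B = b.map fun x => [x]`.
-/

namespace Pool.Agent.Lib.MP_177a0e_gt.LT

open Pool.Agent.Lib.MP_177a0e_gt.Tangle Pool.Agent.Lib.MP_177a0e_gt.Tangle.Gen
open Pool.Agent.Lib.MP_177a0e_gt.Sig

private theorem pc_single (b : List ℕ) : (b.map fun x => [x]).flatten = b := by
  induction b with
  | nil => rfl
  | cons a b ih =>
    rw [List.map_cons, List.flatten_cons, ih]
    rfl

private theorem pc_aux (q : ℕ) (hq : q = 3 ∨ q = 5 ∨ q = 7) (f : ℕ → ℕ) (l : ℕ) (c : ℤ) :
    ∀ (k : ℕ) (B : List (List ℕ)), B.length = k → (∀ t ∈ B, t ≠ []) →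
      q * l ≤ (B.map fun t => (t.map f).sum).sum →
      (∀ j : ℕ, j < q → c ≤ B.length + (B.map fun t => j * (t.map f).sum / q).sum - j * l) →
      ∃ G : List (List ℕ), G.flatten.Perm B.flatten ∧ (∀ t ∈ G, t ≠ []) ∧
        l ≤ (G.map fun t => (t.map f).sum / q).sum ∧ c ≤ G.length := by
  intro k
  induction k with
  | zero =>
    intro B hB _ h0 h
    have hnil : B = [] := List.length_eq_zero_iff.1 hB
    subst hnil
    have hc := h 0 (by omega)
    refine ⟨[], List.Perm.refl _, by simp, ?_, by simpa using hc⟩
    have h1 : q * l ≤ 0 := by simpa using h0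
    have h2 : q * l = 0 := Nat.le_zero.1 h1
    rcases Nat.mul_eq_zero.1 h2 with h3 | h3
    · omega
    · rw [h3]
      exact Nat.zero_le _
  | succ k ih =>
    intro B hB hne h0 h
    by_cases hl : l ≤ (B.map fun t => (t.map f).sum / q).sum
    · have hc := h 0 (by omega)
      exact ⟨B, List.Perm.refl _, hne, hl, by simpa using hc⟩
    · push Not at hl
      obtain ⟨x, y, B', hp, hm⟩ := merge q hq (fun t : List ℕ => (t.map f).sum) B l c h0 hl
        (fun j _ hj => h j hj)
      have hlen : B.length = B'.length + 2 := by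
        rw [hp.length_eq]
        rfl
      have hxy : ((x ++ y).map f).sum = (x.map f).sum + (y.map f).sum := by
        rw [List.map_append, List.sum_append]
      obtain ⟨G, g1, g2, g3, g4⟩ := ih ((x ++ y) :: B') (by rw [List.length_cons]; omega) (by
        intro t ht
        rcases List.mem_cons.1 ht with rfl | ht
        · have hx : x ≠ [] := hne x (hp.mem_iff.2 (by simp))
          intro he
          exact hx (List.append_eq_nil_iff.1 he).1
        · exact hne t (hp.mem_iff.2 (by simp [ht]))) (by
        have e1 := (hp.map fun t : List ℕ => (t.map f).sum).sum_eq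
        rw [List.map_cons, List.map_cons, List.sum_cons, List.sum_cons] at e1
        rw [List.map_cons, List.sum_cons, hxy]
        omega) (by
        intro j hj
        rw [List.map_cons, List.sum_cons, hxy, List.length_cons]
        rcases Nat.eq_zero_or_pos j with rfl | hj1
        · have e1 := h 1 (by omega)
          have e2 : (B.map fun t => 1 * (t.map f).sum / q).sum = (B.map fun t => (t.map f).sum / q).sum := by
            simp only [one_mul]
          rw [e2, hlen] at e1
          have e3 : (((B.map fun t => (t.map f).sum / q).sum : ℕ) : ℤ) + 1 ≤ (l : ℤ) := by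
            exact_mod_cast hl
          have e4 : 0 * ((x.map f).sum + (y.map f).sum) / q + (B'.map fun t => 0 * (t.map f).sum / q).sum = 0 := by
            simp
          rw [e4]
          push_cast at e1 ⊢
          linarith
        · have e1 := hm j hj1 hj
          simp only [Nat.cast_add, Nat.cast_one] at e1 ⊢
          exact e1)
      refine ⟨G, g1.trans ?_, g2, g3, g4⟩
      have e1 : ((x ++ y) :: B').flatten = (x :: y :: B').flatten := by simp
      rw [e1]
      exact hp.symm.flatten

theorem pack (q : ℕ) (hq : q = 3 ∨ q = 5 ∨ q = 7) (f : ℕ → ℕ) (b : List ℕ) (l : ℕ) (c : ℤ)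
    (h0 : q * l ≤ (b.map f).sum)
    (h : ∀ j : ℕ, j < q → c ≤ b.length + (b.map fun x => j * f x / q).sum - j * l) :
    ∃ G : List (List ℕ), G.flatten.Perm b ∧ (∀ t ∈ G, t ≠ []) ∧ l ≤ (G.map fun t => (t.map f).sum / q).sum ∧
      c ≤ G.length := by
  obtain ⟨G, g1, g2, g3, g4⟩ := pc_aux q hq f l c (b.map fun x => [x]).length (b.map fun x => [x]) rfl
    (by
      intro t ht
      obtain ⟨x, -, rfl⟩ := List.mem_map.1 ht
      exact List.cons_ne_nil _ _)
    (by
      rw [List.map_map]
      have e : (fun t : List ℕ => (t.map f).sum) ∘ (fun x => [x]) = f := by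
        funext x
        simp
      rw [e]
      exact h0)
    (by
      intro j hj
      rw [List.map_map, List.length_map]
      have e : (fun t : List ℕ => j * (t.map f).sum / q) ∘ (fun x => [x]) = fun x => j * f x / q := by
        funext x
        simp
      rw [e]
      exact h j hj)
  refine ⟨G, ?_, g2, g3, g4⟩
  rwa [pc_single b] at g1

end Pool.Agent.Lib.MP_177a0e_gt.LT
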