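import Pool.Agent.Lib.MP_177a0e_gt.LT.TorD

/-!
# values of the signature function.

PROOF. `fl n θ = ⌊n θ + 1 / 2⌋`. `th_a`: if `2 j < q` take `θ = 1 / 2 - j / q - δ`, `δ = 1 / (2 q (N + 1))`, `N` at least all the numbers and `q` (`δ > 0`, `n δ < 1 / q`, and `θ ≥ 0` since `1 / 2 - j / q ≥ 1 / (2 q)`): `n θ + 1 / 2 = (n + 1) / 2 - n j / q - n δ`, the floor is `(n + 1) / 2 - ⌊n j / q⌋ - 1 = (n - 1) / 2 - n * j / q`
(`n j / q - ⌊n j / q⌋ ≤ 1 - 1 / q`, and `0 < n δ < 1 / q`). If `2 j > q` take `θ = j / q - 1 / 2`: `n θ + 1 / 2 = n j / q - (n - 1) / 2`, the floor is `n * j / q - (n - 1) / 2`. In the first case `v = 1`, in the second `v = -1`.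
-/

namespace Pool.Agent.Lib.MP_177a0e_gt.LT

open Pool.Agent.Lib.MP_177a0e_gt.Tangle Pool.Agent.Lib.MP_177a0e_gt.Tangle.Gen
open Pool.Agent.Lib.MP_177a0e_gt.Sig

theorem th_a (q j : ℕ) (hq : q % 2 = 1) (hj : j < q) (N : ℕ) : ∃ (θ : ℝ) (v : ℤ), 0 ≤ θ ∧ θ < 1 / 2 ∧ (v = 1 ∨ v = -1) ∧
    ∀ n : ℕ, n % 2 = 1 → n ≤ N → fl n θ = v * (((n : ℤ) - 1) / 2 - (n * j / q : ℕ)) := by
  have hq0 : 0 < q := by omega
  have hqR : (0 : ℝ) < q := by exact_mod_cast hq0
  have hne : 2 * j ≠ q := by omega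
  -- the quotient and the remainder
  have key : ∀ n : ℕ, ∃ k r : ℕ, n * j / q = k ∧ r < q ∧ (n : ℝ) * j / q = k + (r : ℝ) / q := by
    intro n
    refine ⟨n * j / q, n * j % q, rfl, Nat.mod_lt _ hq0, ?_⟩
    have h1 : (n : ℝ) * j = q * ((n * j / q : ℕ) : ℝ) + ((n * j % q : ℕ) : ℝ) := by
      exact_mod_cast (Nat.div_add_mod (n * j) q).symm
    rw [h1]
    field_simp
  rcases lt_or_gt_of_ne hne with h | h
  · have hNR : (0 : ℝ) < (N : ℝ) + 1 := by positivity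
    have hd : (0 : ℝ) < 1 / (2 * q * (N + 1)) := by positivity
    have hj1 : (2 : ℝ) * j + 1 ≤ q := by exact_mod_cast h
    have hd2 : (1 : ℝ) / (2 * q * (N + 1)) ≤ 1 / (2 * q) := by
      apply one_div_le_one_div_of_le (by positivity)
      nlinarith [hqR, hNR, (Nat.cast_nonneg N : (0 : ℝ) ≤ N)]
    have hjq : (j : ℝ) / q + 1 / (2 * q) ≤ 1 / 2 := by
      rw [div_add_div _ _ hqR.ne' (by positivity), div_le_div_iff₀ (by positivity) (by norm_num)]
      nlinarith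
    refine ⟨1 / 2 - j / q - 1 / (2 * q * (N + 1)), 1, by linarith, ?_, Or.inl rfl, ?_⟩
    · have : (0 : ℝ) ≤ (j : ℝ) / q := by positivity
      linarith
    · intro n hn hnN
      obtain ⟨k, r, hk, hr, hkr⟩ := key n
      obtain ⟨a, rfl⟩ : ∃ a, n = 2 * a + 1 := ⟨n / 2, by omega⟩
      rw [hk]
      have ha : (((2 * a + 1 : ℕ) : ℤ) - 1) / 2 = a := by push_cast; omega
      rw [ha, one_mul]
      unfold fl
      rw [Int.floor_eq_iff]
      have hnd : ((2 * a + 1 : ℕ) : ℝ) * (1 / (2 * q * (N + 1))) ≤ 1 / q := by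
        have h3 : ((2 * a + 1 : ℕ) : ℝ) ≤ N + 1 := by
          have : ((2 * a + 1 : ℕ) : ℝ) ≤ N := by exact_mod_cast hnN
          linarith
        rw [mul_one_div, div_le_div_iff₀ (by positivity) hqR]
        nlinarith [mul_le_mul_of_nonneg_right h3 hqR.le, mul_pos hqR hNR]
      have hnd0 : (0 : ℝ) < ((2 * a + 1 : ℕ) : ℝ) * (1 / (2 * q * (N + 1))) := by positivity
      have hr1 : (r : ℝ) / q + 1 / q ≤ 1 := by
        rw [← add_div, div_le_one hqR]
        exact_mod_cast hr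
      have hr0 : (0 : ℝ) ≤ (r : ℝ) / q := by positivity
      have e1 : ((2 * a + 1 : ℕ) : ℝ) * (1 / 2 - j / q - 1 / (2 * q * (N + 1))) + 1 / 2 =
          a + 1 - (k + (r : ℝ) / q) - ((2 * a + 1 : ℕ) : ℝ) * (1 / (2 * q * (N + 1))) := by
        rw [← hkr]
        push_cast
        ring
      rw [e1]
      push_cast at hnd hnd0 ⊢
      constructor <;> linarith
  · have hj1 : (q : ℝ) + 1 ≤ 2 * j := by exact_mod_cast h
    have hj2 : (j : ℝ) < q := by exact_mod_cast hj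
    have hjq : (1 : ℝ) / 2 ≤ (j : ℝ) / q := by
      rw [div_le_div_iff₀ (by norm_num) hqR]
      linarith
    have hjq2 : (j : ℝ) / q < 1 := by rw [div_lt_one hqR]; exact hj2
    refine ⟨j / q - 1 / 2, -1, by linarith, by linarith, Or.inr rfl, ?_⟩
    intro n hn hnN
    obtain ⟨k, r, hk, hr, hkr⟩ := key n
    obtain ⟨a, rfl⟩ : ∃ a, n = 2 * a + 1 := ⟨n / 2, by omega⟩
    rw [hk]
    have ha : (((2 * a + 1 : ℕ) : ℤ) - 1) / 2 = a := by push_cast; omega
    rw [ha]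
    unfold fl
    rw [Int.floor_eq_iff]
    have hr1 : (r : ℝ) / q < 1 := by
      rw [div_lt_one hqR]
      exact_mod_cast hr
    have hr0 : (0 : ℝ) ≤ (r : ℝ) / q := by positivity
    have e1 : ((2 * a + 1 : ℕ) : ℝ) * (j / q - 1 / 2) + 1 / 2 = (k + (r : ℝ) / q) - a := by
      rw [← hkr]
      push_cast
      ring
    rw [e1]
    push_cast
    constructor <;> linarith

end Pool.Agent.Lib.MP_177a0e_gt.LT
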