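import Pool.Agent.Lib.MP_177a0e_gt.LT.XK
import Pool.Agent.Lib.MP_177a0e_gt.LT.PC
import Pool.Agent.Lib.MP_177a0e_gt.LT.PD

/-!
# sums with one type of one sign which is 3, 5 or 7: the other sign is at least as large.

PROOF. `l` copies of `q` against `P`, `q l ≤ ∑ P`. Let `C j = P.length + ∑ j p / q - j l` (`0 ≤ j < q`) and `c = C i` the least of them (`Finset.exists_min_image`). `pack` (with `f = id`, `b = P`) gives `G` with `l ≤ ∑ (sum t) / q`, `c ≤ G.length`. Distribute: there are numbers `a_t ≤ (sum t) / q` with sum `l`: lemma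
`distribute` (induction on the list: for `t :: G` take `a = min l (sum t / q)`). The groups `(t, replicate a_t q)` satisfy the hypotheses of `crit_perm`: `(replicate a_t q).sum = a_t q ≤ sum t`. `θ`: `th_a q i` with `N = P.sum + q`: `fsum P θ - fsum (replicate l q) θ = v (∑ ((p - 1) / 2 - p i / q) - l ((q - 1) / 2 - i))`
(`q * i / q = i`), so `2 |fsum P θ - fsum M θ| ≥ 2 v (fsum P θ - fsum M θ) = P.sum - P.length - 2 ∑ p i / q - l q + l + 2 l i = P.length + l + P.sum - l q - 2 C i`, and `C i = c ≤ G.length`. (`2 (((p : ℤ) - 1) / 2) = p - 1` for odd `p`.)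
-/

namespace Pool.Agent.Lib.MP_177a0e_gt.LT

open Pool.Agent.Lib.MP_177a0e_gt.Tangle Pool.Agent.Lib.MP_177a0e_gt.Tangle.Gen
open Pool.Agent.Lib.MP_177a0e_gt.Sig

theorem distribute {α : Type} (F : α → ℕ) (G : List α) (l : ℕ) (h : l ≤ (G.map F).sum) :
    ∃ H : List (α × ℕ), H.map Prod.fst = G ∧ (∀ t ∈ H, t.2 ≤ F t.1) ∧ (H.map Prod.snd).sum = l := by
  induction G generalizing l with
  | nil =>
    refine ⟨[], rfl, fun t ht => (by cases ht), ?_⟩
    simp only [List.map_nil, List.sum_nil] at h ⊢
    omega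
  | cons t G ih =>
    rw [List.map_cons, List.sum_cons] at h
    obtain ⟨H, h1, h2, h3⟩ := ih (l - min l (F t)) (by omega)
    refine ⟨(t, min l (F t)) :: H, ?_, ?_, ?_⟩
    · rw [List.map_cons, h1]
    · intro s hs
      rcases List.mem_cons.1 hs with rfl | hs
      · exact Nat.min_le_right _ _
      · exact h2 s hs
    · rw [List.map_cons, List.sum_cons, h3]
      show min l (F t) + (l - min l (F t)) = l
      omega

private theorem PE_fsum (L : List ℕ) (hL : ∀ n ∈ L, n % 2 = 1) (θ : ℝ) (v : ℤ) (q j : ℕ)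
    (h : ∀ n ∈ L, fl n θ = v * (((n : ℤ) - 1) / 2 - (n * j / q : ℕ))) :
    2 * fsum L θ = v * ((L.sum : ℤ) - L.length - 2 * ((L.map fun x => j * x / q).sum : ℕ)) := by
  induction L with
  | nil => simp [fsum]
  | cons a L ih =>
    have h1 := ih (fun n hn => hL n (List.mem_cons_of_mem _ hn)) (fun n hn => h n (List.mem_cons_of_mem _ hn))
    have h2 := h a List.mem_cons_self
    have h3 := hL a List.mem_cons_self
    have h4 : fsum (a :: L) θ = fl a θ + fsum L θ := by
      unfold fsum
      rw [List.map_cons, List.sum_cons]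
    have h5 : (2 : ℤ) * (((a : ℤ) - 1) / 2) = a - 1 := by omega
    rw [h4, mul_add, h1, h2, List.sum_cons, List.length_cons, List.map_cons, List.sum_cons, Nat.mul_comm a j]
    have h6 : (2 : ℤ) * (v * (((a : ℤ) - 1) / 2 - (j * a / q : ℕ))) = v * (a - 1 - 2 * (j * a / q : ℕ)) := by
      rw [mul_left_comm, mul_sub 2, h5]
    rw [h6]
    push_cast
    ring

private theorem PE_flat (q : ℕ) (H : List (List ℕ × ℕ)) :
    (H.map fun t => List.replicate t.2 q).flatten = List.replicate (H.map Prod.snd).sum q := by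
  induction H with
  | nil => rfl
  | cons t H ih => rw [List.map_cons, List.flatten_cons, ih, List.map_cons, List.sum_cons, List.replicate_add]

theorem seven_a (q : ℕ) (hq : q = 3 ∨ q = 5 ∨ q = 7) (l : ℕ) (P : List ℕ) (hP : ∀ n ∈ P, n % 2 = 1)
    (h : q * l ≤ P.sum) :
    ribbonGenus (tsum P ++ adj (tsum (List.replicate l q))) = sliceGenus (tsum P ++ adj (tsum (List.replicate l q))) ∧
      ∃ θ : ℝ, 0 ≤ θ ∧ θ < 1 / 2 ∧
        (sliceGenus (tsum P ++ adj (tsum (List.replicate l q))) : ℤ) = |fsum P θ - fsum (List.replicate l q) θ| := by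
  have hq2 : q % 2 = 1 := by omega
  have hq0 : 0 < q := by omega
  obtain ⟨i, hi, hmin⟩ := Finset.exists_min_image (Finset.range q)
    (fun j : ℕ => (P.length : ℤ) + ((P.map fun x => j * x / q).sum : ℕ) - (j : ℤ) * (l : ℤ))
    ⟨0, Finset.mem_range.2 hq0⟩
  rw [Finset.mem_range] at hi
  obtain ⟨G, g1, g2, g3, g4⟩ := pack q hq id P l
    ((P.length : ℤ) + ((P.map fun x => i * x / q).sum : ℕ) - (i : ℤ) * (l : ℤ)) (by rwa [List.map_id])
    (fun j hj => hmin j (Finset.mem_range.2 hj))
  obtain ⟨H, d1, d2, d3⟩ := distribute (fun t : List ℕ => (t.map id).sum / q) G l g3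
  obtain ⟨θ, v, t0, t1, hv, ht⟩ := th_a q i hq2 hi (P.sum + q)
  have hPn : ∀ n ∈ P, n ≤ P.sum + q := fun n hn => by
    have := List.le_sum_of_mem hn
    omega
  have e1 := PE_fsum P hP θ v q i (fun n hn => ht n (hP n hn) (hPn n hn))
  have e2 := PE_fsum (List.replicate l q) (fun n hn => by
      rw [(List.mem_replicate.1 hn).2]
      exact hq2) θ v q i (fun n hn => by
      rw [(List.mem_replicate.1 hn).2]
      exact ht q hq2 (by omega))
  rw [List.map_replicate, List.sum_replicate, List.sum_replicate, List.length_replicate, Nat.mul_div_cancel _ hq0,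
    smul_eq_mul, smul_eq_mul] at e2
  have k := crit_perm (H.map fun t => (t.1, List.replicate t.2 q)) (by
      intro t ht
      obtain ⟨s, hs, rfl⟩ := List.mem_map.1 ht
      have hsG : s.1 ∈ G := by
        rw [← d1]
        exact List.mem_map_of_mem hs
      refine ⟨g2 _ hsG, ?_⟩
      have h1 : s.2 ≤ (s.1.map id).sum / q := d2 s hs
      rw [List.map_id] at h1
      show (List.replicate s.2 q).sum ≤ s.1.sum
      rw [List.sum_replicate, smul_eq_mul]
      exact (Nat.mul_le_mul_right _ h1).trans (Nat.div_mul_le_self _ _)) P (List.replicate l q) hP (fun n hn => by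
      rw [(List.mem_replicate.1 hn).2]
      exact hq2) (by
      rw [List.map_map]
      show P.Perm (H.map Prod.fst).flatten
      rw [d1]
      exact g1.symm) (by
      rw [List.map_map]
      show (List.replicate l q).Perm (H.map fun t => List.replicate t.2 q).flatten
      rw [PE_flat, d3]) θ t0 t1 (by
      have k1 : H.length = G.length := by rw [← d1, List.length_map]
      rw [List.length_map, k1, List.length_replicate, List.sum_replicate, smul_eq_mul]
      have k2 : v * (2 * (fsum P θ - fsum (List.replicate l q) θ)) ≤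
          2 * |fsum P θ - fsum (List.replicate l q) θ| := by
        rcases hv with rfl | rfl
        · rw [one_mul]
          exact mul_le_mul_of_nonneg_left (le_abs_self _) (by norm_num)
        · have := neg_abs_le (fsum P θ - fsum (List.replicate l q) θ)
          linarith
      refine le_trans ?_ k2
      have k3 : v * v = 1 := by
        rcases hv with rfl | rfl <;> norm_num
      have k4 : v * (2 * (fsum P θ - fsum (List.replicate l q) θ)) =
          ((P.sum : ℤ) - P.length - 2 * ((P.map fun x => i * x / q).sum : ℕ)) -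
            ((l * q : ℕ) - (l : ℤ) - 2 * ((l * i : ℕ) : ℤ)) := by
        rw [mul_sub 2, e1, e2, mul_sub v, ← mul_assoc, ← mul_assoc, k3, one_mul, one_mul]
      rw [k4]
      push_cast at g4 ⊢
      linarith)
  exact ⟨k.1, θ, t0, t1, k.2⟩

end Pool.Agent.Lib.MP_177a0e_gt.LT
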