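import Pool.Agent.Lib.MP_177a0e_gt.LT.TorD

/-!
# values of the signature function, II.

PROOF. `fl n θ = ⌊n θ + 1 / 2⌋`. `δ = 1 / (2 q (N + 1))`: `0 < n δ < 1 / q`. `th_b`: `⌈x⌉ = (n * j + q - 1) / q`. If `2 j < q` take `θ = 1 / 2 - j / q`: the floor of `(n + 1) / 2 - n j / q` is `(n + 1) / 2 - ⌈n j / q⌉`. If `2 j > q` take `θ = j / q - 1 / 2 - δ`, `δ` as above (`θ ≥ 0` since `j / q - 1 / 2 ≥ 1 / (2 q)`): the floor of `n j / q - (n - 1) / 2 - n δ` is `⌈n j / q⌉ - 1 - (n - 1) / 2 = -((n + 1) / 2 - ⌈n j / q⌉)`.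
-/

namespace Pool.Agent.Lib.MP_177a0e_gt.LT

open Pool.Agent.Lib.MP_177a0e_gt.Tangle Pool.Agent.Lib.MP_177a0e_gt.Tangle.Gen
open Pool.Agent.Lib.MP_177a0e_gt.Sig

theorem th_b (q j : ℕ) (hq : q % 2 = 1) (h1 : 1 ≤ j) (hj : j < q) (N : ℕ) : ∃ (θ : ℝ) (v : ℤ), 0 ≤ θ ∧ θ < 1 / 2 ∧
    (v = 1 ∨ v = -1) ∧ ∀ n : ℕ, n % 2 = 1 → n ≤ N →
      fl n θ = v * (((n : ℤ) + 1) / 2 - ((n * j + (q - 1)) / q : ℕ)) := by
  have hq0 : 0 < q := by omega
  have hqR : (0 : ℝ) < q := by exact_mod_cast hq0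
  -- the ceiling
  have hc1 : ∀ n : ℕ, n * j ≤ q * ((n * j + (q - 1)) / q) := by
    intro n
    have h := Nat.lt_mul_div_succ (n * j + (q - 1)) hq0
    rw [Nat.mul_add, Nat.mul_one] at h
    omega
  have hc2 : ∀ n : ℕ, q * ((n * j + (q - 1)) / q) + 1 ≤ n * j + q := by
    intro n
    have h := Nat.mul_div_le (n * j + (q - 1)) q
    omega
  have hR1 : ∀ n : ℕ, (n : ℝ) * j / q ≤ (((n * j + (q - 1)) / q : ℕ) : ℝ) := by
    intro n
    rw [div_le_iff₀ hqR, mul_comm _ (q : ℝ)]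
    exact_mod_cast hc1 n
  have hR2 : ∀ n : ℕ, (((n * j + (q - 1)) / q : ℕ) : ℝ) - 1 + 1 / q ≤ (n : ℝ) * j / q := by
    intro n
    rw [le_div_iff₀ hqR]
    have h1 : (q : ℝ) * (((n * j + (q - 1)) / q : ℕ) : ℝ) + 1 ≤ (n : ℝ) * j + q := by exact_mod_cast hc2 n
    have h2 : ((((n * j + (q - 1)) / q : ℕ) : ℝ) - 1 + 1 / q) * q =
        q * (((n * j + (q - 1)) / q : ℕ) : ℝ) - q + 1 := by
      field_simp
    rw [h2]
    linarith
  have hj1 : (1 : ℝ) ≤ j := by exact_mod_cast h1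
  rcases Nat.lt_or_gt_of_ne (show 2 * j ≠ q by omega) with h2 | h2
  · -- small angle
    have h2R : 2 * (j : ℝ) < q := by exact_mod_cast h2
    refine ⟨1 / 2 - j / q, 1, ?_, ?_, Or.inl rfl, fun n hn hN => ?_⟩
    · have : (j : ℝ) / q < 1 / 2 := by
        rw [div_lt_iff₀ hqR]
        linarith
      linarith
    · have : 0 < (j : ℝ) / q := by positivity
      linarith
    · obtain ⟨m, hm⟩ : ∃ m : ℕ, n + 1 = 2 * m := ⟨(n + 1) / 2, by omega⟩
      have hm' : ((n : ℤ) + 1) / 2 = m := by omega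
      have hmR : (n : ℝ) = 2 * m - 1 := by
        have : (n : ℝ) + 1 = 2 * m := by exact_mod_cast hm
        linarith
      have h3 := hR1 n
      have h4 := hR2 n
      generalize (n * j + (q - 1)) / q = c at h3 h4 ⊢
      rw [hm', one_mul, fl, Int.floor_eq_iff]
      have h5 : (0 : ℝ) < 1 / q := by positivity
      have e1 : (n : ℝ) * (1 / 2 - j / q) + 1 / 2 = m - (n : ℝ) * j / q := by
        have : (n : ℝ) * (1 / 2 - j / q) = (n : ℝ) / 2 - (n : ℝ) * j / q := by ring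
        rw [this]
        linarith
      rw [e1]
      push_cast
      constructor <;> linarith
  · -- large angle
    have h2R : (q : ℝ) + 1 ≤ 2 * (j : ℝ) := by exact_mod_cast h2
    have hN0 : (0 : ℝ) ≤ N := Nat.cast_nonneg N
    obtain ⟨δ, hδ⟩ : ∃ δ : ℝ, δ = 1 / (2 * q * (N + 1)) := ⟨_, rfl⟩
    have hδ0 : 0 < δ := by
      rw [hδ]
      positivity
    have hδ2 : δ * ((N : ℝ) + 1) = 1 / (2 * q) := by
      rw [hδ]
      field_simp
    have hδ3 : δ ≤ 1 / (2 * q) := by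
      rw [← hδ2]
      nlinarith
    refine ⟨j / q - 1 / 2 - δ, -1, ?_, ?_, Or.inr rfl, fun n hn hN => ?_⟩
    · have h3 : 1 / 2 + 1 / (2 * (q : ℝ)) ≤ (j : ℝ) / q := by
        rw [le_div_iff₀ hqR]
        have : (1 / 2 + 1 / (2 * (q : ℝ))) * q = q / 2 + 1 / 2 := by
          field_simp
        rw [this]
        linarith
      linarith
    · have h3 : (j : ℝ) / q < 1 := by
        rw [div_lt_one hqR]
        exact_mod_cast hj
      linarith
    · obtain ⟨m, hm⟩ : ∃ m : ℕ, n + 1 = 2 * m := ⟨(n + 1) / 2, by omega⟩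
      have hm' : ((n : ℤ) + 1) / 2 = m := by omega
      have hmR : (n : ℝ) = 2 * m - 1 := by
        have : (n : ℝ) + 1 = 2 * m := by exact_mod_cast hm
        linarith
      have hn1 : (1 : ℝ) ≤ n := by
        have : 1 ≤ n := by omega
        exact_mod_cast this
      have hnN : (n : ℝ) ≤ N := by exact_mod_cast hN
      have h3 := hR1 n
      have h4 := hR2 n
      generalize (n * j + (q - 1)) / q = c at h3 h4 ⊢
      rw [hm', fl, Int.floor_eq_iff]
      have h6 : (n : ℝ) * δ ≤ 1 / (2 * q) := by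
        rw [← hδ2, mul_comm]
        exact mul_le_mul_of_nonneg_left (by linarith) hδ0.le
      have h7 : 0 < (n : ℝ) * δ := by positivity
      have h8 : 1 / (2 * (q : ℝ)) ≤ 1 / q := by
        apply one_div_le_one_div_of_le hqR
        linarith
      have e1 : (n : ℝ) * (j / q - 1 / 2 - δ) + 1 / 2 = (n : ℝ) * j / q - m + 1 - n * δ := by
        have : (n : ℝ) * (j / q - 1 / 2 - δ) = (n : ℝ) * j / q - (n : ℝ) / 2 - n * δ := by ring
        rw [this]
        linarith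
      rw [e1]
      push_cast
      constructor <;> linarith

end Pool.Agent.Lib.MP_177a0e_gt.LT
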