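import Pool.Agent.Lib.MP_177a0e_gt.LT.XK
import Pool.Agent.Lib.MP_177a0e_gt.LT.PC
import Pool.Agent.Lib.MP_177a0e_gt.LT.PG

/-!
# sums with one type of one sign which is 3, 5 or 7: this sign is larger.

PROOF. Now `P = replicate l q`, `∑ M ≤ q l`. For `p ∈ M` let `u p = (p + (q - 1)) / q` (`⌈p / q⌉`) and `f p = q (u p) - p` (`< q`). Let `C j = M.length + ∑ j f p / q - j m`, `m = ∑ u p - l : ℤ`, for `1 ≤ j < q`; `j (u p) - j f p / q = (p j + (q - 1)) / q` (`⌈p j / q⌉`), so `C j = j l + M.length - ∑ (p j + (q - 1)) / q`.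
Let `c = C i` be the least of them (`1 ≤ i < q`). (A) `m ≤ 0`: the groups `(replicate (u p) q, [p])`, `p ∈ M`, and `l - ∑ u p` groups `([q], [])`: their number is `M.length + l - ∑ u p = C 1 ≥ c`. (B) `m ≥ 1`: `pack` with `f`, `b = M`, `l := m` and `c` (`j = 0`: `c ≤ C 1 = M.length + ∑ f p / q - m ≤ M.length` since `f p / q = 0`;
`q m ≤ ∑ f p` because `∑ p ≤ q l`) gives `G` with `m ≤ ∑ (∑_t f) / q`, `c ≤ G.length`. For `t ∈ G` let `U t = (sum t + (q - 1)) / q = ∑_t u - (∑_t f) / q`. So `∑ U t = ∑ u p - ∑ (∑_t f) / q ≤ l`. The groups `(replicate (U t) q, t)` and `l - ∑ U t` groups `([q], [])` are at least `c`. (All `p ≥ 1`, so `U t ≥ 1` as `t ≠ []`.)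
`crit_perm` with `th_b q i`, `N = M.sum + q`: `q i + (q - 1)) / q = i`, and `2 v (fsum P θ - fsum M θ) = l (q + 1 - 2 i) - ∑ (p + 1 - 2 ⌈p i / q⌉) = l + M.length + l q - M.sum - 2 C i`.
-/

namespace Pool.Agent.Lib.MP_177a0e_gt.LT

open Pool.Agent.Lib.MP_177a0e_gt.Tangle Pool.Agent.Lib.MP_177a0e_gt.Tangle.Gen
open Pool.Agent.Lib.MP_177a0e_gt.Sig

private theorem PF_fsum (L : List ℕ) (hL : ∀ n ∈ L, n % 2 = 1) (θ : ℝ) (v : ℤ) (q j : ℕ)
    (h : ∀ n ∈ L, fl n θ = v * (((n : ℤ) + 1) / 2 - ((n * j + (q - 1)) / q : ℕ))) :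
    2 * fsum L θ = v * ((L.sum : ℤ) + L.length - 2 * ((L.map fun x => (x * j + (q - 1)) / q).sum : ℕ)) := by
  induction L with
  | nil => simp [fsum]
  | cons a L ih =>
    have h1 := ih (fun n hn => hL n (List.mem_cons_of_mem _ hn)) (fun n hn => h n (List.mem_cons_of_mem _ hn))
    have h2 := h a List.mem_cons_self
    have h3 := hL a List.mem_cons_self
    have h4 : fsum (a :: L) θ = fl a θ + fsum L θ := by
      unfold fsum
      rw [List.map_cons, List.sum_cons]
    have h5 : (2 : ℤ) * (((a : ℤ) + 1) / 2) = a + 1 := by omega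
    rw [h4, mul_add, h1, h2, List.sum_cons, List.length_cons, List.map_cons, List.sum_cons]
    have h6 : (2 : ℤ) * (v * (((a : ℤ) + 1) / 2 - ((a * j + (q - 1)) / q : ℕ))) =
        v * (a + 1 - 2 * ((a * j + (q - 1)) / q : ℕ)) := by
      rw [mul_left_comm, mul_sub 2, h5]
    rw [h6]
    push_cast
    ring

/-- rounding up -/
private def PF_u (q p : ℕ) : ℕ := (p + (q - 1)) / q

/-- the remainder -/
private def PF_f (q p : ℕ) : ℕ := q * PF_u q p - p

private theorem PF_le (q p : ℕ) (hq : 0 < q) : p ≤ q * PF_u q p := by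
  unfold PF_u
  have h := Nat.div_add_mod (p + (q - 1)) q
  have h1 := Nat.mod_lt (p + (q - 1)) hq
  omega

private theorem PF_lt (q p : ℕ) (hq : 0 < q) : PF_f q p < q := by
  unfold PF_f PF_u
  have h := Nat.div_mul_le_self (p + (q - 1)) q
  rw [Nat.mul_comm] at h
  omega

/-- `⌊(q A - s) / q⌋ = A - ⌈s / q⌉` -/
private theorem PF_ceil (q A s : ℕ) (hq : 0 < q) (h : s ≤ q * A) :
    (s + (q - 1)) / q + (q * A - s) / q = A := by
  have e1 := Nat.div_add_mod (s + (q - 1)) q
  have e2 := Nat.mod_lt (s + (q - 1)) hq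
  have e3 : (s + (q - 1)) / q ≤ A := by
    rw [Nat.div_le_iff_le_mul_add_pred hq]
    omega
  obtain ⟨B, hB⟩ := Nat.exists_eq_add_of_le e3
  generalize (s + (q - 1)) / q = C at e1 e3 hB ⊢
  have e5 : s ≤ q * C := by omega
  have e4 : q * A - s = q * B + (q * C - s) := by
    rw [hB, Nat.mul_add]
    omega
  rw [e4, Nat.mul_add_div hq, Nat.div_eq_of_lt (by omega), hB]
  omega

private theorem PF_sum_f (q : ℕ) (hq : 0 < q) (t : List ℕ) :
    (t.map (PF_f q)).sum = q * (t.map (PF_u q)).sum - t.sum ∧ t.sum ≤ q * (t.map (PF_u q)).sum := by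
  induction t with
  | nil => simp
  | cons a t ih =>
    have h := PF_le q a hq
    rw [List.map_cons, List.sum_cons, ih.1, List.map_cons, List.sum_cons, List.sum_cons, Nat.mul_add]
    have h1 := ih.2
    unfold PF_f
    omega

/-- the number of `q` for a group -/
private def PF_U (q : ℕ) (t : List ℕ) : ℕ := (t.sum + (q - 1)) / q

private theorem PF_U_eq (q : ℕ) (hq : 0 < q) (t : List ℕ) :
    PF_U q t + (t.map (PF_f q)).sum / q = (t.map (PF_u q)).sum := by
  obtain ⟨h1, h2⟩ := PF_sum_f q hq t
  rw [h1]
  exact PF_ceil q _ _ hq h2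

private theorem PF_U_sum (q : ℕ) (hq : 0 < q) (G : List (List ℕ)) :
    (G.map (PF_U q)).sum + (G.map fun t => (t.map (PF_f q)).sum / q).sum = (G.flatten.map (PF_u q)).sum := by
  induction G with
  | nil => rfl
  | cons t G ih =>
    have h := PF_U_eq q hq t
    rw [List.map_cons, List.sum_cons, List.map_cons, List.sum_cons, List.flatten_cons, List.map_append,
      List.sum_append, ← ih, ← h]
    omega

private theorem PF_sing (M : List ℕ) : (M.map fun x => [x]).flatten = M := by
  induction M with
  | nil => rfl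
  | cons a M ih =>
    rw [List.map_cons, List.flatten_cons, ih]
    rfl

/-- the groups -/
private theorem PF_groups (q : ℕ) (hq : q = 3 ∨ q = 5 ∨ q = 7) (l : ℕ) (M : List ℕ) (h : M.sum ≤ q * l) (c : ℤ)
    (hc : ∀ j : ℕ, 1 ≤ j → j < q → c ≤ (M.length : ℤ) + (j : ℤ) * (l : ℤ) -
      ((M.map fun x => (x * j + (q - 1)) / q).sum : ℕ)) :
    ∃ G : List (List ℕ), G.flatten.Perm M ∧ (∀ t ∈ G, t ≠ []) ∧ (G.map (PF_U q)).sum ≤ l ∧
      c ≤ G.length + (l - (G.map (PF_U q)).sum : ℕ) := by
  have hq0 : 0 < q := by omega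
  have hj : ∀ j : ℕ, ∀ L : List ℕ, ((L.map fun x => (x * j + (q - 1)) / q).sum : ℤ) +
      ((L.map fun x => j * PF_f q x / q).sum : ℕ) = (j : ℤ) * ((L.map (PF_u q)).sum : ℕ) := by
    intro j L
    induction L with
    | nil => simp
    | cons a L ih =>
      have h1 : (a * j + (q - 1)) / q + j * PF_f q a / q = j * PF_u q a := by
        have h2 := PF_le q a hq0
        have h3 := PF_ceil q (j * PF_u q a) (a * j) hq0 (by nlinarith)
        have h4 : q * (j * PF_u q a) - a * j = j * PF_f q a := by
          unfold PF_f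
          rw [Nat.mul_sub]
          congr 1 <;> ring
        rwa [h4] at h3
      have h5 : (((a * j + (q - 1)) / q : ℕ) : ℤ) + (j * PF_f q a / q : ℕ) = (j : ℤ) * (PF_u q a : ℕ) := by
        exact_mod_cast h1
      rw [List.map_cons, List.sum_cons, List.map_cons, List.sum_cons, List.map_cons, List.sum_cons]
      push_cast at ih h5 ⊢
      linarith
  have h1 := hc 1 le_rfl (by omega)
  have h2 : ((M.map fun x => (x * 1 + (q - 1)) / q).sum : ℕ) = (M.map (PF_u q)).sum := by
    congr 1
    refine List.map_congr_left fun x _ => ?_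
    rw [Nat.mul_one]
    rfl
  rw [h2, Nat.cast_one, one_mul] at h1
  rcases Nat.lt_or_ge l (M.map (PF_u q)).sum with hm | hm
  · obtain ⟨m, em⟩ := Nat.exists_eq_add_of_le hm.le
    have hm1 : 1 ≤ m := by omega
    obtain ⟨k1, k2⟩ := PF_sum_f q hq0 M
    obtain ⟨G, g1, g2, g3, g4⟩ := pack q hq (PF_f q) M m c (by
        rw [k1, em, Nat.mul_add]
        omega) (by
        intro j hjq
        rcases Nat.eq_zero_or_pos j with rfl | hj0
        · have k3 : (M.map fun x => 0 * PF_f q x / q).sum = 0 := by
            rw [List.sum_eq_zero_iff]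
            intro y hy
            obtain ⟨x, _, rfl⟩ := List.mem_map.1 hy
            simp
          have h1' : c ≤ (M.length : ℤ) + l - ((l + m : ℕ) : ℤ) := by
            rw [← em]
            linarith
          rw [k3]
          push_cast at h1' ⊢
          linarith
        · have k3 := hc j hj0 hjq
          have k4 := hj j M
          rw [em] at k4
          push_cast at k3 k4 ⊢
          linarith)
    have k5 := PF_U_sum q hq0 G
    have k6 : (G.flatten.map (PF_u q)).sum = (M.map (PF_u q)).sum := (g1.map _).sum_eq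
    rw [k6, em] at k5
    exact ⟨G, g1, g2, by omega, by omega⟩
  · refine ⟨M.map fun x => [x], ?_, ?_, ?_, ?_⟩
    · rw [PF_sing]
    · intro t ht
      obtain ⟨x, _, rfl⟩ := List.mem_map.1 ht
      simp
    · have e : ((M.map fun x => [x]).map (PF_U q)) = M.map (PF_u q) := by
        rw [List.map_map]
        refine List.map_congr_left fun x _ => ?_
        show ([x].sum + (q - 1)) / q = (x + (q - 1)) / q
        rw [List.sum_singleton]
      rw [e]
      exact hm
    · have e : ((M.map fun x => [x]).map (PF_U q)) = M.map (PF_u q) := by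
        rw [List.map_map]
        refine List.map_congr_left fun x _ => ?_
        show ([x].sum + (q - 1)) / q = (x + (q - 1)) / q
        rw [List.sum_singleton]
      rw [e, List.length_map]
      push_cast [Nat.cast_sub hm] at h1 ⊢
      linarith

private theorem PF_flat (q : ℕ) (G : List (List ℕ)) :
    (G.map fun t => List.replicate (PF_U q t) q).flatten = List.replicate (G.map (PF_U q)).sum q := by
  induction G with
  | nil => rfl
  | cons t G ih => rw [List.map_cons, List.flatten_cons, ih, List.map_cons, List.sum_cons, List.replicate_add]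

private theorem PF_flat1 (q n : ℕ) : (List.replicate n [q]).flatten = List.replicate n q := by
  induction n with
  | zero => rfl
  | succ n ih =>
    rw [List.replicate_succ, List.flatten_cons, ih, List.replicate_succ]
    rfl

private theorem PF_flat2 (n : ℕ) : (List.replicate n ([] : List ℕ)).flatten = [] := by
  induction n with
  | zero => rfl
  | succ n ih =>
    rw [List.replicate_succ, List.flatten_cons, ih]
    rfl

theorem seven_b (q : ℕ) (hq : q = 3 ∨ q = 5 ∨ q = 7) (l : ℕ) (M : List ℕ) (hM : ∀ n ∈ M, n % 2 = 1)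
    (h : M.sum ≤ q * l) :
    ribbonGenus (tsum (List.replicate l q) ++ adj (tsum M)) = sliceGenus (tsum (List.replicate l q) ++ adj (tsum M)) ∧
      ∃ θ : ℝ, 0 ≤ θ ∧ θ < 1 / 2 ∧
        (sliceGenus (tsum (List.replicate l q) ++ adj (tsum M)) : ℤ) = |fsum (List.replicate l q) θ - fsum M θ| := by
  have hq2 : q % 2 = 1 := by omega
  have hq0 : 0 < q := by omega
  obtain ⟨i, hi, hmin⟩ := Finset.exists_min_image (Finset.Ico 1 q)
    (fun j : ℕ => (M.length : ℤ) + (j : ℤ) * (l : ℤ) - ((M.map fun x => (x * j + (q - 1)) / q).sum : ℕ))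
    ⟨1, Finset.mem_Ico.2 ⟨le_rfl, by omega⟩⟩
  rw [Finset.mem_Ico] at hi
  obtain ⟨G, g1, g2, g3, g4⟩ := PF_groups q hq l M h _ (fun j h1 h2 => hmin j (Finset.mem_Ico.2 ⟨h1, h2⟩))
  obtain ⟨θ, v, t0, t1, hv, ht⟩ := th_b q i hq2 hi.1 hi.2 (M.sum + q)
  have hMn : ∀ n ∈ M, n ≤ M.sum + q := fun n hn => by
    have := List.le_sum_of_mem hn
    omega
  have oR : ∀ n ∈ List.replicate l q, n % 2 = 1 := fun n hn => by
    rw [(List.mem_replicate.1 hn).2]
    exact hq2
  have e1 := PF_fsum M hM θ v q i (fun n hn => ht n (hM n hn) (hMn n hn))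
  have e2 := PF_fsum (List.replicate l q) oR θ v q i (fun n hn => by
      rw [(List.mem_replicate.1 hn).2]
      exact ht q hq2 (by omega))
  have e3 : (q * i + (q - 1)) / q = i := by
    rw [Nat.mul_add_div hq0, Nat.div_eq_of_lt (by omega), Nat.add_zero]
  rw [List.map_replicate, List.sum_replicate, List.sum_replicate, List.length_replicate, e3, smul_eq_mul,
    smul_eq_mul] at e2
  have k := crit_perm ((G.map fun t => (List.replicate (PF_U q t) q, t)) ++
      List.replicate (l - (G.map (PF_U q)).sum) ([q], [])) (by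
      intro t ht
      rcases List.mem_append.1 ht with ht | ht
      · obtain ⟨s, hs, rfl⟩ := List.mem_map.1 ht
        have hne := g2 s hs
        have h1 : 1 ≤ s.sum := by
          rcases s with _ | ⟨a, s⟩
          · exact absurd rfl hne
          · have ha : a ∈ M := g1.mem_iff.1 (List.mem_flatten.2 ⟨a :: s, hs, List.mem_cons_self⟩)
            have := hM a ha
            rw [List.sum_cons]
            omega
        have h2 : s.sum ≤ q * PF_U q s := by
          unfold PF_U
          have h := Nat.div_add_mod (s.sum + (q - 1)) q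
          have h1 := Nat.mod_lt (s.sum + (q - 1)) hq0
          omega
        refine ⟨fun h3 => ?_, ?_⟩
        · have h4 : (List.replicate (PF_U q s) q).length = 0 := by
            rw [show List.replicate (PF_U q s) q = [] from h3]
            rfl
          rw [List.length_replicate] at h4
          rw [h4] at h2
          omega
        · show s.sum ≤ (List.replicate (PF_U q s) q).sum
          rw [List.sum_replicate, smul_eq_mul, Nat.mul_comm]
          exact h2
      · rw [(List.mem_replicate.1 ht).2]
        exact ⟨by simp, Nat.zero_le _⟩) (List.replicate l q) M oR hM (by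
      rw [List.map_append, List.map_map, List.map_replicate, List.flatten_append]
      show (List.replicate l q).Perm ((G.map fun t => List.replicate (PF_U q t) q).flatten ++
        (List.replicate (l - (G.map (PF_U q)).sum) [q]).flatten)
      rw [PF_flat, PF_flat1, ← List.replicate_add, Nat.add_sub_cancel' g3]) (by
      rw [List.map_append, List.map_map, List.map_replicate, List.flatten_append]
      show M.Perm ((G.map fun t => t).flatten ++ (List.replicate (l - (G.map (PF_U q)).sum) ([] : List ℕ)).flatten)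
      rw [PF_flat2, List.append_nil, List.map_id']
      exact g1.symm) θ t0 t1 (by
      rw [List.length_append, List.length_map, List.length_replicate, List.length_replicate, List.sum_replicate,
        smul_eq_mul]
      have k2 : v * (2 * (fsum (List.replicate l q) θ - fsum M θ)) ≤
          2 * |fsum (List.replicate l q) θ - fsum M θ| := by
        rcases hv with rfl | rfl
        · rw [one_mul]
          exact mul_le_mul_of_nonneg_left (le_abs_self _) (by norm_num)
        · have := neg_abs_le (fsum (List.replicate l q) θ - fsum M θ)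
          linarith
      refine le_trans ?_ k2
      have k3 : v * v = 1 := by
        rcases hv with rfl | rfl <;> norm_num
      have k4 : v * (2 * (fsum (List.replicate l q) θ - fsum M θ)) =
          ((l * q : ℕ) + (l : ℤ) - 2 * ((l * i : ℕ) : ℤ)) -
          ((M.sum : ℤ) + M.length - 2 * ((M.map fun x => (x * i + (q - 1)) / q).sum : ℕ)) := by
        rw [mul_sub 2, e1, e2, mul_sub v, ← mul_assoc, ← mul_assoc, k3, one_mul, one_mul]
      rw [k4]
      push_cast at g4 ⊢
      linarith)
  exact ⟨k.1, θ, t0, t1, k.2⟩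

end Pool.Agent.Lib.MP_177a0e_gt.LT
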