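import Pool.Agent.Lib.MP_177a0e_gt.LT.RB
import Pool.Agent.Lib.MP_177a0e_gt.LT.XO

/-!
# from alternating diagrams with three strands to the torus links `T(2, n)`: the result for the first kind.

`Up R K`: for all `m ≥ max 1 (npos K)` there is a movie from `K` to `T(2, m)` with exactly `R + m - npos K`
saddles, without births and deaths.
-/

namespace Pool.Agent.Lib.MP_177a0e_gt.LT

open Pool.Agent.Lib.MP_177a0e_gt.Tangle Pool.Agent.Lib.MP_177a0e_gt.Tangle.Gen
open Pool.Agent.Lib.MP_177a0e_gt.Sig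

/-- saddle movies to all torus links `T(2, m)`, `m ≥ max 1 (npos K)` -/
def Up (R : ℤ) (K : Word) : Prop :=
  Valid [true] K [true] ∧ ∀ m : ℕ, 1 ≤ m → npos K ≤ m → ∃ s : ℕ, (s : ℤ) + npos K = R + m ∧
    Cob [true] [true] 0 s 0 K (tk m)

theorem tk_up {n m : ℕ} (h : n ≤ m) : ∃ s : ℕ, s + n = m ∧ Cob [true] [true] 0 s 0 (tk n) (tk m) := by
  refine ⟨m - n, by omega, ?_⟩
  have h1 := (tk_down n (m - n)).symm
  have e : n + (m - n) = m := by omega
  rw [e] at h1
  exact h1

theorem su_up {n m : ℕ} (h1 : 1 ≤ m) (h : n ≤ m) :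
    ∃ s : ℕ, s + n + (if n = 0 then 1 else 0) = m ∧ Cob [true] [true] 0 s 0 (su n) (tk m) := by
  cases n with
  | zero =>
    obtain ⟨s, h2, h3⟩ := tk_up h1
    refine ⟨s, by simpa using h2, ?_⟩
    exact (tk_one.symm.trans h3).cast rfl (by omega) rfl
  | succ n =>
    obtain ⟨s, h2, h3⟩ := tk_up h
    exact ⟨s, by simpa using h2, h3⟩

theorem startA (e : Bool) : Cob [true] [true, e, !e] 0 (dfa true e 0) 0 [⟨[true], cup e, []⟩] (nfa true e 0) := by
  cases e
  · have k1 := rb_top (rb_saddle true [] [true]) (c₀ := [true])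
      (u := [⟨[true], cup false, []⟩]) ⟨rfl, rfl⟩
    have k2 : Cob [true] [true, false, true] 0 0 0
        ([⟨[true], cup false, []⟩, ⟨[], cap true, [true]⟩] ++ [⟨[], cup true, [true]⟩])
        ([] ++ [⟨[], cup true, [true]⟩]) :=
      rb_bot (rel_cob (Rel.zigzag₁ true [] []) ⟨rfl, rfl, rfl⟩ rfl) (e := [true]) ⟨rfl, rfl⟩
    exact k1.trans k2
  · exact Cob.refl ⟨rfl, rfl⟩

theorem endA (f : Bool) {n m : ℕ} (h1 : 1 ≤ m) (h : n ≤ m) :
    ∃ s : ℕ, s + n + dfa true f n = m ∧
      Cob [true] [true] 0 s 0 (nfa true f n ++ [⟨[true], cap f, []⟩]) (tk m) := by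
  cases f
  · obtain ⟨s, h2, h3⟩ := su_up h1 h
    have h4 : Cob [true] [true] 0 0 0 [⟨[], cup true, [true]⟩, ⟨[true], cap false, []⟩] [] :=
      rel_cob (Rel.zigzag₂ true [] []) ⟨rfl, rfl, rfl⟩ rfl
    have h5 := rb_top h4 (su_valid n)
    rw [List.append_nil] at h5
    refine ⟨s, ?_, ?_⟩
    · rw [← h2]
      cases n <;> rfl
    · have h6 := h5.trans h3
      simpa [nfa] using h6
  · obtain ⟨s, h2, h3⟩ := tk_up h
    refine ⟨s, ?_, ?_⟩
    · rw [← h2]
      cases n <;> rfl
    · have e : nfa true true n ++ [⟨[true], cap true, []⟩] = tk n := by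
        rw [tk_eq]
        simp [nfa]
      rw [e]
      exact h3

theorem npos_rat (s e f : Bool) (l : List Bool) : npos (rat s e f l) = npos (altw s l true e (!e)) := by
  unfold rat
  rw [npos_cons, npos_append]
  simp [npos, gpos]

theorem upA {e f : Bool} {l : List Bool} (h : end3 l true e (!e) = [true, f, !f]) :
    Up (l.count false) (rat true e f l) := by
  refine ⟨rat_valid h, fun m h1 h2 => ?_⟩
  rw [npos_rat] at h2 ⊢
  have o : oneF true e (!e) := by cases e <;> rfl
  obtain ⟨x, y, z, e1, -, s, h3, h4⟩ := chainA l true e (!e) 0 o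
  rw [h] at e1
  injection e1 with e1 e2
  injection e2 with e2 e3
  injection e3 with e3
  subst e1 e2 e3
  rw [Nat.zero_add] at h3 h4
  obtain ⟨s', h5, h6⟩ := endA f h1 h2
  have hv : Valid [true, e, !e] (altw true l true e (!e)) [true, f, !f] := by
    rw [← h]
    exact altw_valid _ _ _ _ _
  have hc : Valid [true, f, !f] [⟨[true], cap f, []⟩] [true] := ⟨rfl, rfl⟩
  have k1 := rb_bot (startA e) (hv.append hc)
  have k2 := rb_bot h3 hc
  rw [List.append_assoc] at k2
  have k3 := (k1.trans k2).trans h6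
  refine ⟨dfa true e 0 + s + s', ?_, k3.cast (by simp) rfl (by simp)⟩
  push_cast
  omega

end Pool.Agent.Lib.MP_177a0e_gt.LT
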