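import Pool.Agent.Lib.MP_177a0e_gt.LT.RC

/-!
# from alternating diagrams with three strands to the torus links `T(2, n)`, second kind: one step.

`nfb x y n`: the normal form with the directions `x, y, z` at the top and `n` positive crossings.
-/

namespace Pool.Agent.Lib.MP_177a0e_gt.LT

open Pool.Agent.Lib.MP_177a0e_gt.Tangle Pool.Agent.Lib.MP_177a0e_gt.Tangle.Gen
open Pool.Agent.Lib.MP_177a0e_gt.Sig

/-- the crossing of the two strands on the right -/
def xd : Slice := ⟨[false], cross true true true, []⟩

/-- the torus link `T(2, n)` with the long strand on the right -/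
def tr (n : ℕ) : Word := ⟨[], cup false, [true]⟩ :: (List.replicate n xd ++ [⟨[], cap false, [true]⟩])

/-- the trivial word or a torus link -/
def sr : ℕ → Word
  | 0 => []
  | n + 1 => tr (n + 1)

/-- the normal form -/
def nfb : Bool → Bool → ℕ → Word
  | false, _, n => ⟨[], cup false, [true]⟩ :: List.replicate n xd
  | true, y, n => sr n ++ [⟨[true], cup y, []⟩]

/-- the defect of the normal form -/
def dfb : Bool → Bool → ℕ → ℕ
  | _, _, _ + 1 => 0
  | true, _, 0 => 1
  | false, _, 0 => 0

theorem repd_valid (n : ℕ) : Valid [false, true, true] (List.replicate n xd) [false, true, true] := by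
  induction n with
  | zero => rfl
  | succ n ih => exact ⟨rfl, ih⟩

theorem nfb_f_valid (y : Bool) (n : ℕ) : Valid [true] (nfb false y n) [false, true, true] := ⟨rfl, repd_valid n⟩

theorem tr_valid (n : ℕ) : Valid [true] (tr n) [true] := by
  refine ⟨rfl, ?_⟩
  exact (repd_valid n).append ⟨rfl, rfl⟩

theorem sr_valid (n : ℕ) : Valid [true] (sr n) [true] := by
  cases n with
  | zero => rfl
  | succ n => exact tr_valid _

theorem stB1 (n : ℕ) : Cob [true] [true, true, false] 0 1 0
    (nfb true true n ++ [⟨[], cross false true true, [false]⟩]) (nfb true true n) := by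
  have h1 := smooth_par false true [] [false]
  have h2 := rb_top h1 (c₀ := [true]) (u := nfb true true n) ((sr_valid n).append ⟨rfl, rfl⟩)
  simpa using h2

theorem stB2 (n : ℕ) : Cob [true] [true, false, true] 0 0 0
    (nfb true true n ++ [⟨[true], cross true true false, []⟩]) (nfb true false n) := by
  have h1 : Cob [true] [true, false, true] 0 0 0 [⟨[true], cup true, []⟩, ⟨[true], cross true true false, []⟩]
      [⟨[true], cup false, []⟩] := rel_cob (Rel.r1_cup true true [true] []) ⟨rfl, rfl, rfl⟩ ⟨rfl, rfl⟩
  have h2 := rb_top h1 (sr_valid n)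
  simpa [nfb] using h2

theorem stB3 (n : ℕ) : Cob [true] [true, true, false] 0 0 0
    (nfb true false n ++ [⟨[true], cross true false true, []⟩]) (nfb true true n) := by
  have h1 : Cob [true] [true, true, false] 0 0 0 [⟨[true], cup false, []⟩, ⟨[true], cross true false true, []⟩]
      [⟨[true], cup true, []⟩] := rel_cob (Rel.r1_cup true false [true] []) ⟨rfl, rfl, rfl⟩ ⟨rfl, rfl⟩
  have h2 := rb_top h1 (sr_valid n)
  simpa [nfb] using h2

theorem stB5 (n : ℕ) : nfb false true n ++ [xd] = nfb false true (n + 1) := by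
  show _ :: (List.replicate n xd ++ [xd]) = _ :: List.replicate (n + 1) xd
  rw [List.replicate_succ']

theorem stB4 (n : ℕ) : ∃ s, Cob [true] [false, true, true] 0 s 0
    (nfb true false n ++ [⟨[], cross false true false, [true]⟩]) (nfb false true (n + 1)) ∧
    s + dfb true false n = 1 := by
  have h1 : Cob [true] [false, true, true] 0 0 0 [⟨[true], cup false, []⟩, ⟨[], cross false true false, [true]⟩]
      [⟨[], cup false, [true]⟩, xd] :=
    (rel_cob (Rel.slide_cup true false true [] []) ⟨rfl, rfl, rfl⟩ ⟨rfl, rfl, rfl⟩).symm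
  have h2 := rb_top h1 (sr_valid n)
  cases n with
  | zero => exact ⟨0, h2, rfl⟩
  | succ n =>
    refine ⟨1, ?_, rfl⟩
    have h3 := (rb_saddle false [] [true]).symm
    have h4 := h3.ctx (nfb_f_valid true (n + 1)) (v := [xd]) (e₀ := [false, true, true]) ⟨rfl, rfl⟩
    have e1 : sr (n + 1) ++ [⟨[], cup false, [true]⟩, xd] = nfb false true (n + 1) ++
        [⟨[], cap false, [true]⟩, ⟨[], cup false, [true]⟩] ++ [xd] := by
      show tr (n + 1) ++ _ = _
      simp [tr, nfb]
    have e2 : nfb false true (n + 1) ++ [] ++ [xd] = nfb false true (n + 1 + 1) := by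
      rw [List.append_nil, stB5]
    rw [e2] at h4
    rw [e1] at h2
    have h5 := h2.trans h4
    simpa [nfb] using h5

/-- the positive crossing on the left at the normal form of the third kind, and a maximum -/
theorem capB (n : ℕ) : Cob [true] [true] 0 0 0
    (nfb false true n ++ [⟨[], cross false false true, [true]⟩, ⟨[true], cap false, []⟩]) (tr (n + 1)) := by
  have h1 : Cob [false, true, true] [true] 0 0 0 [⟨[], cross false false true, [true]⟩, ⟨[true], cap false, []⟩]
      [xd, ⟨[], cap false, [true]⟩] :=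
    (rel_cob (Rel.slide_cap true false true [] []) ⟨rfl, rfl, rfl⟩ ⟨rfl, rfl, rfl⟩).symm
  have h2 := rb_top h1 (nfb_f_valid true n)
  have e : nfb false true n ++ [xd, ⟨[], cap false, [true]⟩] = tr (n + 1) := by
    rw [tr, List.replicate_succ']
    simp [nfb]
  rw [e] at h2
  exact h2

theorem stB6 (n : ℕ) : Cob [true] [true, false, true] 0 1 0
    (nfb false true n ++ [⟨[], cross false false true, [true]⟩]) (nfb true false (n + 1)) := by
  have h1 : Cob [false, true, true] [true, false, true] 0 1 0 [⟨[], cross false false true, [true]⟩]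
      [⟨[], cross false false true, [true]⟩, ⟨[true], cap false, []⟩, ⟨[true], cup false, []⟩] := by
    exact rb_top (rb_saddle false [true] []) (c₀ := [false, true, true])
      (u := [⟨[], cross false false true, [true]⟩]) ⟨rfl, rfl⟩
  have h2 := rb_top h1 (nfb_f_valid true n)
  have h3 := rb_bot (capB n) (v := [⟨[true], cup false, []⟩]) (e₀ := [true, false, true]) ⟨rfl, rfl⟩
  have e : nfb false true n ++ [⟨[], cross false false true, [true]⟩, ⟨[true], cap false, []⟩] ++
      [⟨[true], cup false, []⟩] = nfb false true n ++ [⟨[], cross false false true, [true]⟩, ⟨[true], cap false, []⟩,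
      ⟨[true], cup false, []⟩] := by simp
  rw [e] at h3
  exact h2.trans h3

/-- a kink -/
theorem kinkB : Cob [true] [true] 0 0 0 [⟨[true], cup true, []⟩, ⟨[], cross false true true, [false]⟩,
    ⟨[true], cap true, []⟩] [] := by
  have h1 : Cob [true] [true] 0 0 0 ([⟨[true], cup true, []⟩, ⟨[], cross false true true, [false]⟩] ++
      [⟨[true], cap true, []⟩]) ([⟨[], cup true, [true]⟩, ⟨[true], cross true false true, []⟩] ++
      [⟨[true], cap true, []⟩]) :=
    rb_bot ((rel_cob (Rel.slide_cup true true true [] []) ⟨rfl, rfl, rfl⟩ ⟨rfl, rfl, rfl⟩).symm)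
      (e := [true, true, false]) ⟨rfl, rfl⟩
  have h2 : Cob [true] [true] 0 0 0 ([⟨[], cup true, [true]⟩] ++ [⟨[true], cross true false true, []⟩,
      ⟨[true], cap true, []⟩]) ([⟨[], cup true, [true]⟩] ++ [⟨[true], cap false, []⟩]) :=
    rb_top (rel_cob (Rel.r1_cap true false [true] []) ⟨rfl, rfl, rfl⟩ ⟨rfl, rfl⟩) (c := [true, false, true])
      ⟨rfl, rfl⟩
  have h3 : Cob [true] [true] 0 0 0 [⟨[], cup true, [true]⟩, ⟨[true], cap false, []⟩] [] :=
    rel_cob (Rel.zigzag₂ true [] []) ⟨rfl, rfl, rfl⟩ rfl
  exact (h1.trans h2).trans h3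

end Pool.Agent.Lib.MP_177a0e_gt.LT
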