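import Pool.Agent.Lib.MP_177a0e_gt.LT.RD

/-!
# from alternating diagrams with three strands to the torus links `T(2, n)`, second kind.
-/

namespace Pool.Agent.Lib.MP_177a0e_gt.LT

open Pool.Agent.Lib.MP_177a0e_gt.Tangle Pool.Agent.Lib.MP_177a0e_gt.Tangle.Gen
open Pool.Agent.Lib.MP_177a0e_gt.Sig

/-- all crossings -/
theorem chainB (l : List Bool) : ∀ (x y z : Bool) (n : ℕ), oneF x y z → ∃ x' y' z' : Bool,
    end3 l x y z = [x', y', z'] ∧ oneF x' y' z' ∧ ∃ s : ℕ,
      Cob [true] [x', y', z'] 0 s 0 (nfb x y n ++ altw false l x y z) (nfb x' y' (n + npos (altw false l x y z))) ∧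
      s + dfb x y n = l.count true + dfb x' y' (n + npos (altw false l x y z)) := by
  induction l with
  | nil =>
    intro x y z n h
    refine ⟨x, y, z, rfl, h, 0, ?_, ?_⟩
    · have hv : Valid [true] (nfb x y n) [x, y, z] := by
        cases x <;> cases y <;> cases z <;> simp [oneF] at h
        · exact nfb_f_valid _ n
        · exact (sr_valid n).append ⟨rfl, rfl⟩
        · exact (sr_valid n).append ⟨rfl, rfl⟩
      simpa [altw, npos] using Cob.refl hv
    · simp [altw, npos]
  | cons b l ih =>
    intro x y z n h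
    have key : ∃ x₁ y₁ z₁ : Bool, ∃ t : Slice, oneF x₁ y₁ z₁ ∧ altw false (b :: l) x y z = t :: altw false l x₁ y₁ z₁ ∧
        end3 (b :: l) x y z = end3 l x₁ y₁ z₁ ∧ Valid [x₁, y₁, z₁] (altw false l x₁ y₁ z₁) (end3 l x₁ y₁ z₁) ∧ ∃ s : ℕ,
        Cob [true] [x₁, y₁, z₁] 0 s 0 (nfb x y n ++ [t]) (nfb x₁ y₁ (n + (if gpos t.gen then 1 else 0))) ∧
        s + dfb x y n = [b].count true + dfb x₁ y₁ (n + (if gpos t.gen then 1 else 0)) := by
      cases b <;> cases x <;> cases y <;> cases z <;> simp [oneF] at h
      · refine ⟨false, true, true, _, ⟨rfl, rfl⟩, rfl, rfl, altw_valid _ _ _ _ _, 0, ?_, by cases n <;> rfl⟩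
        show Cob _ _ _ _ _ (nfb false true n ++ [xd]) (nfb false true (n + 1))
        rw [stB5]
        exact Cob.refl (nfb_f_valid _ _)
      · exact ⟨true, true, false, _, rfl, rfl, rfl, altw_valid _ _ _ _ _, 0, stB3 n, by cases n <;> rfl⟩
      · exact ⟨true, false, true, _, rfl, rfl, rfl, altw_valid _ _ _ _ _, 0, stB2 n, by cases n <;> rfl⟩
      · exact ⟨true, false, true, _, rfl, rfl, rfl, altw_valid _ _ _ _ _, 1, stB6 n, by cases n <;> rfl⟩
      · obtain ⟨s, h1, h2⟩ := stB4 n
        exact ⟨false, true, true, _, ⟨rfl, rfl⟩, rfl, rfl, altw_valid _ _ _ _ _, s, h1, h2⟩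
      · exact ⟨true, true, false, _, rfl, rfl, rfl, altw_valid _ _ _ _ _, 1, stB1 n, rfl⟩
    obtain ⟨x₁, y₁, z₁, t, o1, e1, e2, v1, s, h1, h2⟩ := key
    obtain ⟨x', y', z', e3, o3, s', h3, h4⟩ := ih x₁ y₁ z₁ (n + (if gpos t.gen then 1 else 0)) o1
    have e4 : n + (if gpos t.gen then 1 else 0) + npos (altw false l x₁ y₁ z₁) = n + npos (altw false (b :: l) x y z) := by
      rw [e1, npos_cons]
      ring
    rw [e4] at h3 h4
    refine ⟨x', y', z', e2.trans e3, o3, s + s', ?_, ?_⟩
    · rw [e3] at v1
      have h5 := (rb_bot h1 v1).trans h3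
      rw [e1] at h5 ⊢
      simpa using h5
    · have h6 : (b :: l).count true = l.count true + [b].count true := by
        rw [List.count_cons, List.count_cons]
        simp
      rw [h6]
      omega

/-- a strand passes in front of all crossings of two strands: the two normal forms of torus links -/
theorem tr_tk (n : ℕ) : Cob [true] [true] 0 0 0 (tr (n + 1)) (tk (n + 1)) := by
  have hw : Valid [true, true] (List.replicate n ⟨[], cross true true true, []⟩ : Word) [true, true] := by
    induction n with
    | zero => rfl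
    | succ n ih => exact ⟨rfl, ih⟩
  have h1 := pass hw false false
  have e1 : cx [false] (List.replicate n ⟨[], cross true true true, []⟩ : Word) [] = List.replicate n xd := by
    simp [cx, List.map_replicate, xd]
  have e2 : cx [] (List.replicate n ⟨[], cross true true true, []⟩ : Word) [false] = List.replicate n xc := by
    simp [cx, List.map_replicate, xc]
  have e3 : xw false false [true, true] = [⟨[], cross false false true, [true]⟩, ⟨[true], cross false false true, []⟩] := rfl
  rw [e1, e2, e3] at h1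
  have c1 : Cob [false, true, true] [true] 0 0 0 [xd, ⟨[], cap false, [true]⟩]
      [⟨[], cross false false true, [true]⟩, ⟨[true], cross false false true, []⟩, ⟨[true], cap true, []⟩] := by
    have k1 : Cob [false, true, true] [true] 0 0 0 [xd, ⟨[], cap false, [true]⟩]
        [⟨[], cross false false true, [true]⟩, ⟨[true], cap false, []⟩] :=
      rel_cob (Rel.slide_cap true false true [] []) ⟨rfl, rfl, rfl⟩ ⟨rfl, rfl, rfl⟩
    have k2 : Cob [false, true, true] [true] 0 0 0
        ([⟨[], cross false false true, [true]⟩] ++ [⟨[true], cross false false true, []⟩, ⟨[true], cap true, []⟩])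
        ([⟨[], cross false false true, [true]⟩] ++ [⟨[true], cap false, []⟩]) :=
      rb_top (rel_cob (Rel.r1_cap false false [true] []) ⟨rfl, rfl, rfl⟩ ⟨rfl, rfl⟩) (c := [true, false, true])
        ⟨rfl, rfl⟩
    exact k1.trans k2.symm
  have c2 : Cob [true] [true, true, false] 0 0 0
      [⟨[], cup false, [true]⟩, ⟨[], cross false false true, [true]⟩, ⟨[true], cross false false true, []⟩]
      [⟨[true], cup true, []⟩, xc] := by
    have k1 : Cob [true] [true, true, false] 0 0 0
        ([⟨[], cup false, [true]⟩, ⟨[], cross false false true, [true]⟩] ++ [⟨[true], cross false false true, []⟩])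
        ([⟨[], cup true, [true]⟩] ++ [⟨[true], cross false false true, []⟩]) :=
      rb_bot (rel_cob (Rel.r1_cup false false [] [true]) ⟨rfl, rfl, rfl⟩ ⟨rfl, rfl⟩) (e := [true, false, true])
        ⟨rfl, rfl⟩
    have k2 : Cob [true] [true, true, false] 0 0 0 [⟨[], cup true, [true]⟩, ⟨[true], cross false false true, []⟩]
        [⟨[true], cup true, []⟩, xc] := rel_cob (Rel.slide_cup false true true [] []) ⟨rfl, rfl, rfl⟩ ⟨rfl, rfl, rfl⟩
    exact k1.trans k2
  have d1 := rb_top c1 (nfb_f_valid true n)
  have d2 := (rb_bot h1 (v := [⟨[true], cap true, []⟩]) (e₀ := [true]) ⟨rfl, rfl⟩)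
  have d3 := rb_top d2 (u := [⟨[], cup false, [true]⟩]) (c₀ := [true]) ⟨rfl, rfl⟩
  have d4 := rb_bot c2 ((rep_valid n).append (v := [⟨[true], cap true, []⟩]) (e := [true]) ⟨rfl, rfl⟩)
  have f1 : tr (n + 1) = nfb false true n ++ [xd, ⟨[], cap false, [true]⟩] := by
    rw [tr, List.replicate_succ']
    simp [nfb]
  have f2 : tk (n + 1) = [⟨[true], cup true, []⟩, xc] ++ (List.replicate n xc ++ [⟨[true], cap true, []⟩]) := by
    rw [tk_eq, List.replicate_succ]
    simp
  rw [f1, f2]
  have f3 : nfb false true n ++ [⟨[], cross false false true, [true]⟩, ⟨[true], cross false false true, []⟩,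
      ⟨[true], cap true, []⟩] = [⟨[], cup false, [true]⟩] ++ (List.replicate n xd ++
      [⟨[], cross false false true, [true]⟩, ⟨[true], cross false false true, []⟩] ++ [⟨[true], cap true, []⟩]) := by
    simp [nfb]
  have f4 : [⟨[], cup false, [true]⟩] ++ ([⟨[], cross false false true, [true]⟩, ⟨[true], cross false false true, []⟩] ++
      List.replicate n xc ++ [⟨[true], cap true, []⟩]) = [⟨[], cup false, [true]⟩, ⟨[], cross false false true, [true]⟩,
      ⟨[true], cross false false true, []⟩] ++ (List.replicate n xc ++ [⟨[true], cap true, []⟩]) := by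
    simp
  rw [f3] at d1
  rw [f4] at d3
  exact (d1.trans d3).trans d4

end Pool.Agent.Lib.MP_177a0e_gt.LT
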