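import Pool.Agent.Lib.MP_177a0e_gt.LT.RE

/-!
# from alternating diagrams with three strands to the torus links `T(2, n)`, second kind: the result; mirror images.
-/

namespace Pool.Agent.Lib.MP_177a0e_gt.LT

open Pool.Agent.Lib.MP_177a0e_gt.Tangle Pool.Agent.Lib.MP_177a0e_gt.Tangle.Gen
open Pool.Agent.Lib.MP_177a0e_gt.Sig

theorem altw_append (s : Bool) (l l' : List Bool) : ∀ (x y z a b c : Bool), end3 l x y z = [a, b, c] →
    altw s (l ++ l') x y z = altw s l x y z ++ altw s l' a b c ∧ end3 (l ++ l') x y z = end3 l' a b c := by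
  induction l with
  | nil =>
    intro x y z a b c h
    injection h with e1 e2
    injection e2 with e2 e3
    injection e3 with e3
    subst e1 e2 e3
    exact ⟨rfl, rfl⟩
  | cons t l ih =>
    intro x y z a b c h
    cases t
    · obtain ⟨h1, h2⟩ := ih x z y a b c h
      exact ⟨by show _ :: altw s (l ++ l') x z y = _ :: (altw s l x z y ++ _); rw [h1], h2⟩
    · obtain ⟨h1, h2⟩ := ih y x z a b c h
      exact ⟨by show _ :: altw s (l ++ l') y x z = _ :: (altw s l y x z ++ _); rw [h1], h2⟩

theorem end3_exists (l : List Bool) : ∀ x y z : Bool, ∃ a b c : Bool, end3 l x y z = [a, b, c] := by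
  induction l with
  | nil => exact fun x y z => ⟨x, y, z, rfl⟩
  | cons t l ih =>
    intro x y z
    cases t
    · exact ih x z y
    · exact ih y x z

theorem last_true {l : List Bool} (h : true ∈ l) : ∃ (l₀ : List Bool) (k : ℕ), l = l₀ ++ true :: List.replicate k false := by
  induction l with
  | nil => exact absurd h (by simp)
  | cons b l ih =>
    by_cases h1 : true ∈ l
    · obtain ⟨l₀, k, h2⟩ := ih h1
      exact ⟨b :: l₀, k, by rw [h2]; rfl⟩
    · have h2 : b = true := by
        rcases List.mem_cons.1 h with h | h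
        · exact h.symm
        · exact absurd h h1
      have h3 : ∀ a ∈ l, a = false := by
        intro a ha
        cases a
        · rfl
        · exact absurd ha h1
      exact ⟨[], l.length, by rw [h2, List.eq_replicate_iff.2 ⟨rfl, h3⟩]; simp⟩

/-- the crossings on the right below the maximum are kinks -/
theorem falses (k : ℕ) : ∀ (y f : Bool), end3 (List.replicate k false) true y (!y) = [true, f, !f] →
    Cob [true, y, !y] [true] 0 0 0 (altw false (List.replicate k false) true y (!y) ++ [⟨[true], cap f, []⟩])
      [⟨[true], cap y, []⟩] ∧ npos (altw false (List.replicate k false) true y (!y)) = 0 := by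
  induction k with
  | zero =>
    intro y f h
    have h1 : y = f := by
      injection h with _ h
      injection h
    subst h1
    exact ⟨Cob.refl ⟨rfl, rfl⟩, rfl⟩
  | succ k ih =>
    intro y f h
    have h0 : end3 (List.replicate k false) true (!y) (!(!y)) = [true, f, !f] := by
      rw [Bool.not_not]
      exact h
    obtain ⟨h1, h2⟩ := ih (!y) f h0
    rw [Bool.not_not] at h1 h2
    have h3 : Cob [true, y, !y] [true] 0 0 0 [⟨[true], cross true y (!y), []⟩, ⟨[true], cap (!y), []⟩]
        [⟨[true], cap y, []⟩] := by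
      refine rel_cob (Rel.r1_cap true y [true] []) ⟨rfl, ?_⟩ ⟨rfl, rfl⟩
      exact ⟨by cases y <;> rfl, rfl⟩
    have h4 := rb_top h1 (u := [⟨[true], cross true y (!y), []⟩]) (c₀ := [true, y, !y]) ⟨rfl, rfl⟩
    refine ⟨h4.trans h3, ?_⟩
    show npos (⟨[true], cross true y (!y), []⟩ :: altw false (List.replicate k false) true (!y) y) = 0
    rw [npos_cons, h2]
    cases y <;> rfl

theorem tr_up {n m : ℕ} (h : n + 1 ≤ m) : ∃ s : ℕ, s + (n + 1) = m ∧ Cob [true] [true] 0 s 0 (tr (n + 1)) (tk m) := by
  obtain ⟨s, h1, h2⟩ := tk_up h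
  exact ⟨s, h1, ((tr_tk n).trans h2).cast rfl (by omega) rfl⟩

theorem sr_up {n m : ℕ} (h1 : 1 ≤ m) (h : n ≤ m) :
    ∃ s : ℕ, s + n + (if n = 0 then 1 else 0) = m ∧ Cob [true] [true] 0 s 0 (sr n) (tk m) := by
  cases n with
  | zero => exact su_up h1 h
  | succ n =>
    obtain ⟨s, h2, h3⟩ := tr_up h
    exact ⟨s, by simpa using h2, h3⟩

theorem upB {e f : Bool} {l : List Bool} (h : end3 l true e (!e) = [true, f, !f]) (ht : true ∈ l) :
    Up ((l.count true : ℤ) - 2) (rat false e f l) := by
  refine ⟨rat_valid h, fun m h1 h2 => ?_⟩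
  rw [npos_rat] at h2 ⊢
  obtain ⟨l₀, k, rfl⟩ := last_true ht
  have o : oneF true e (!e) := by cases e <;> rfl
  obtain ⟨x, y, z, e1, o1, s, h3, h4⟩ := chainB l₀ true e (!e) 0 o
  obtain ⟨a1, a2⟩ := altw_append false l₀ (true :: List.replicate k false) true e (!e) x y z e1
  rw [h] at a2
  have a3 : end3 (List.replicate k false) y x z = [true, f, !f] := a2.symm
  have a4 : ∀ (k : ℕ) (a b c : Bool), (end3 (List.replicate k false) a b c).head? = some a := by
    intro k
    induction k with
    | zero => exact fun a b c => rfl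
    | succ k ih => exact fun a b c => ih a c b
  have a5 := a4 k y x z
  rw [a3] at a5
  have a6 : y = true := by
    injection a5 with a5
    exact a5.symm
  subst a6
  have a7 : z = !x := by
    cases x <;> cases z <;> simp_all [oneF]
  subst a7
  obtain ⟨b1, b2⟩ := falses k x f a3
  rw [Nat.zero_add] at h3 h4
  have c1 : (l₀ ++ true :: List.replicate k false).count true = l₀.count true + 1 := by
    rw [List.count_append, List.count_cons]
    simp [List.count_replicate]
  have c2 : dfb true e 0 = 1 := by cases e <;> rfl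
  have hv1 : Valid [x, true, !x] [⟨[], cross false x true, [!x]⟩] [true, x, !x] := ⟨rfl, rfl⟩
  have hv2 : Valid [true, x, !x] (altw false (List.replicate k false) true x (!x)) [true, f, !f] := by
    rw [← a3]
    exact altw_valid _ _ _ _ _
  have hv3 : Valid [true, f, !f] [⟨[true], cap f, []⟩] [true] := ⟨rfl, rfl⟩
  have d0 : Cob [true] [x, true, !x] 0 0 0 [⟨[true], cup e, []⟩] [⟨[true], cup e, []⟩] → True := fun _ => trivial
  have d1 := rb_bot h3 (hv1.append (hv2.append hv3))
  have d2 := rb_top (rb_top b1 hv1) h3.valid.2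
  have e5 : rat false e f (l₀ ++ true :: List.replicate k false) = nfb true e 0 ++ altw false l₀ true e (!e) ++
      ([⟨[], cross false x true, [!x]⟩] ++ (altw false (List.replicate k false) true x (!x) ++
      [⟨[true], cap f, []⟩])) := by
    unfold rat
    rw [a1]
    simp [nfb, sr, altw]
  have e6 : npos (altw false (l₀ ++ true :: List.replicate k false) true e (!e)) =
      npos (altw false l₀ true e (!e)) + (if x then 0 else 1) := by
    rw [a1, npos_append]
    show _ + npos (⟨[], cross false x true, [!x]⟩ :: altw false (List.replicate k false) true x (!x)) = _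
    rw [npos_cons, b2]
    cases x <;> rfl
  rw [← e5] at d1
  have d3 := d1.trans d2
  cases x
  · -- the last letter gives one more positive crossing
    obtain ⟨s', h5, h6⟩ := tr_up (n := npos (altw false l₀ true e (!e))) (m := m) (by
      rw [e6] at h2
      exact h2)
    have d4 := (d3.trans (capB _)).trans h6
    have c3 : dfb false true (npos (altw false l₀ true e (!e))) = 0 := by
      cases npos (altw false l₀ true e (!e)) <;> rfl
    refine ⟨s + s', ?_, d4.cast rfl (by omega) rfl⟩
    rw [e6, c1]
    simp only [Bool.false_eq_true, if_false]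
    push_cast
    rw [c3, c2] at h4
    omega
  · -- the last letter is a kink
    have h7 : npos (altw false l₀ true e (!e)) ≤ m := by
      rw [e6] at h2
      simpa using h2
    obtain ⟨s', h5, h6⟩ := sr_up h1 h7
    have d4 : Cob [true] [true] 0 0 0 (nfb true true (npos (altw false l₀ true e (!e))) ++
        ([⟨[], cross false true true, [!true]⟩] ++ [⟨[true], cap true, []⟩]))
        (sr (npos (altw false l₀ true e (!e)))) := by
      have := rb_top kinkB (sr_valid (npos (altw false l₀ true e (!e))))
      simpa [nfb] using this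
    have d5 := (d3.trans d4).trans h6
    have c3 : dfb true true (npos (altw false l₀ true e (!e))) =
        if npos (altw false l₀ true e (!e)) = 0 then 1 else 0 := by
      cases npos (altw false l₀ true e (!e)) <;> rfl
    refine ⟨s + s', ?_, d5.cast rfl (by omega) rfl⟩
    rw [e6, c1]
    simp only [if_true]
    push_cast
    rw [c3, c2] at h4
    omega

theorem altw_adj (s : Bool) (l : List Bool) : ∀ (x y z a b c : Bool), end3 l x y z = [a, b, c] →
    Tangle.adj (altw s l x y z) = altw (!s) l.reverse a b c ∧ end3 l.reverse a b c = [x, y, z] := by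
  induction l with
  | nil =>
    intro x y z a b c h
    have h' : [x, y, z] = [a, b, c] := h
    exact ⟨rfl, h'.symm⟩
  | cons t l ih =>
    intro x y z a b c h
    cases t
    · obtain ⟨h1, h2⟩ := ih x z y a b c h
      obtain ⟨h3, h4⟩ := altw_append (!s) l.reverse [false] a b c x z y h2
      rw [List.reverse_cons, h3, h4]
      refine ⟨?_, rfl⟩
      show Tangle.adj ([⟨[x], cross (!s) y z, []⟩] ++ altw s l x z y) = _
      rw [adj_append, h1]
      rfl
    · obtain ⟨h1, h2⟩ := ih y x z a b c h
      obtain ⟨h3, h4⟩ := altw_append (!s) l.reverse [true] a b c y x z h2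
      rw [List.reverse_cons, h3, h4]
      refine ⟨?_, rfl⟩
      show Tangle.adj ([⟨[], cross s x y, [z]⟩] ++ altw s l y x z) = _
      rw [adj_append, h1]
      rfl

theorem rat_adj {s e f : Bool} {l : List Bool} (h : end3 l true e (!e) = [true, f, !f]) :
    Tangle.adj (rat s e f l) = rat (!s) f e l.reverse ∧ end3 l.reverse true f (!f) = [true, e, !e] := by
  obtain ⟨h1, h2⟩ := altw_adj s l true e (!e) true f (!f) h
  refine ⟨?_, h2⟩
  show Tangle.adj ([⟨[true], cup e, []⟩] ++ (altw s l true e (!e) ++ [⟨[true], cap f, []⟩])) = _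
  rw [adj_append, adj_append, h1]
  rfl

end Pool.Agent.Lib.MP_177a0e_gt.LT
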