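import Pool.Agent.Lib.MP_177a0e_gt.LT.RF

/-!
# the number of births, saddles and deaths of a movie between two knots is even.

`qm w`: every crossing counts `2`, every minimum and maximum `1` or `-1`, modulo `4`.
-/

namespace Pool.Agent.Lib.MP_177a0e_gt.LT

open Pool.Agent.Lib.MP_177a0e_gt.Tangle Pool.Agent.Lib.MP_177a0e_gt.Tangle.Gen
open Pool.Agent.Lib.MP_177a0e_gt.Sig

/-- the weight of a piece -/
def qg : Gen → ZMod 4
  | cup x => if x then 1 else -1
  | cap x => if x then 1 else -1
  | cross _ _ _ => 2

/-- the weight of a diagram -/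
def qm (w : Word) : ZMod 4 := (w.map fun t => qg t.gen).sum

theorem qm_append (u v : Word) : qm (u ++ v) = qm u + qm v := by
  simp [qm]

theorem qm_rel {a b : Word} (h : Rel a b) : qm a = qm b := by
  cases h with
  | interchange g g' p q r => simp [qm, add_comm]
  | zigzag₁ x p q => cases x <;> simp [qm, qg]
  | zigzag₂ x p q => cases x <;> simp [qm, qg]
  | r1_cup s x p q => cases x <;> simp [qm, qg] <;> decide
  | r1_cap s x p q => cases x <;> simp [qm, qg] <;> decide
  | r2 s x y p q => simp [qm, qg]; decide
  | r3 s x y z p q => simp [qm, qg]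
  | slide_cup s e x p q => simp [qm, qg]
  | slide_cap s e x p q => simp [qm, qg, add_comm]

theorem qm_saddle {a b : Word} (h : SaddleRel a b) : qm b = qm a + 2 := by
  cases h with
  | mk x p q => cases x <;> simp [qm, qg] <;> decide

theorem qm_birth {a b : Word} (h : BirthRel a b) : qm b = qm a + 2 := by
  cases h with
  | mk x p q => cases x <;> simp [qm, qg] <;> decide

theorem qm_change {a b : Word} (h : ChangeRel a b) : qm a = qm b := by
  cases h with
  | mk s x y p q => simp [qm, qg]

theorem qm_local {R : Word → Word → Prop} {k : ZMod 4} (hR : ∀ a b : Word, R a b → qm b = qm a + k)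
    {c e : List Bool} {w w' : Word} (h : Local R c e w w') : qm w' = qm w + k := by
  cases h with
  | mk u a b v h h₁ h₂ =>
    rw [qm_append, qm_append, qm_append, qm_append, hR a b h]
    ring

theorem qm_knot {w : Word} (h : IsKnot w) : qm w = 0 := by
  have h1 : ∀ a b : Word, (Local Rel [true] [true] a b ∨ Local ChangeRel [true] [true] a b) → qm a = qm b := by
    intro a b h
    rcases h with h | h
    · have := qm_local (k := 0) (fun a b h => by rw [qm_rel h, add_zero]) h
      rw [this, add_zero]
    · have := qm_local (k := 0) (fun a b h => by rw [qm_change h, add_zero]) h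
      rw [this, add_zero]
  have h2 : ∀ a b : Word, Relation.EqvGen
      (fun a b => Local Rel [true] [true] a b ∨ Local ChangeRel [true] [true] a b) a b → qm a = qm b := by
    intro a b h
    induction h with
    | rel a b h => exact h1 a b h
    | refl => rfl
    | symm _ _ _ ih => exact ih.symm
    | trans _ _ _ _ _ ih1 ih2 => exact ih1.trans ih2
  exact (h2 _ _ h).trans rfl

theorem qm_cob {c e : List Bool} {b s d : ℕ} {w w' : Word} (h : Cob c e b s d w w') :
    qm w' = qm w + 2 * ((b + s + d : ℕ) : ZMod 4) := by
  have h4 : (2 : ZMod 4) + 2 = 0 := by decide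
  have hb : ∀ x y : ZMod 4, x = y + 2 → y = x + 2 := by
    intro x y h
    rw [h, add_assoc, h4, add_zero]
  induction h with
  | refl h => simp
  | iso _ h' ih =>
    rw [← ih]
    rcases h' with h | h
    · have := qm_local (k := 0) (fun a b h => by rw [qm_rel h, add_zero]) h
      rw [this, add_zero]
    · have := qm_local (k := 0) (fun a b h => by rw [qm_rel h, add_zero]) h
      rw [this, add_zero]
  | saddle _ h' ih =>
    rcases h' with h | h
    · have h5 := qm_local (k := 2) (fun a b h => qm_saddle h) h
      rw [h5, ih]
      push_cast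
      ring
    · have h5 := hb _ _ (qm_local (k := 2) (fun a b h => qm_saddle h) h)
      rw [h5, ih]
      push_cast
      ring
  | birth _ h' ih =>
    have h5 := qm_local (k := 2) (fun a b h => qm_birth h) h'
    rw [h5, ih]
    push_cast
    ring
  | death _ h' ih =>
    have h5 := hb _ _ (qm_local (k := 2) (fun a b h => qm_birth h) h')
    rw [h5, ih]
    push_cast
    ring

/-- the number of steps of a movie between knots is even -/
theorem cob_parity {b s d : ℕ} {w w' : Word} (hw : IsKnot w) (hw' : IsKnot w') (h : Cob [true] [true] b s d w w') :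
    (b + s + d) % 2 = 0 := by
  have h1 := qm_cob h
  rw [qm_knot hw, qm_knot hw', zero_add] at h1
  have h2 : ∀ n : ℕ, (0 : ZMod 4) = 2 * (n : ZMod 4) → n % 2 = 0 := by
    intro n hn
    have h3 : ((2 * n : ℕ) : ZMod 4) = 0 := by
      push_cast
      exact hn.symm
    have h4 := (ZMod.natCast_eq_zero_iff (2 * n) 4).1 h3
    omega
  exact h2 _ h1

end Pool.Agent.Lib.MP_177a0e_gt.LT
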