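import Pool.Agent.Lib.MP_177a0e_gt.LT.RG
import Pool.Agent.Lib.MP_177a0e_gt.LT.Dsc
import Pool.Agent.Lib.MP_177a0e_gt.Des.Twb

/-!
# connected sums of two-bridge knots lie in the middle of movies from `T(2, m)` to `-T(2, m')`.
-/

namespace Pool.Agent.Lib.MP_177a0e_gt.LT

open Pool.Agent.Lib.MP_177a0e_gt.Tangle Pool.Agent.Lib.MP_177a0e_gt.Tangle.Gen
open Pool.Agent.Lib.MP_177a0e_gt.Sig

/-- the movie to the smallest torus link -/
theorem Up.low {R : ℤ} {K : Word} (h : Up R K) : ∃ s : ℕ, (s : ℤ) = R + (if npos K = 0 then 1 else 0) ∧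
    Cob [true] [true] 0 s 0 K (su (npos K)) := by
  by_cases h0 : npos K = 0
  · obtain ⟨s, h1, h2⟩ := h.2 1 le_rfl (by omega)
    refine ⟨s, ?_, ?_⟩
    · rw [h0] at h1
      rw [if_pos h0]
      simpa using h1
    · rw [h0]
      exact h2.trans tk_one
  · obtain ⟨s, h1, h2⟩ := h.2 (npos K) (by omega) le_rfl
    refine ⟨s, ?_, ?_⟩
    · rw [if_neg h0]
      linarith
    · have e : su (npos K) = tk (npos K) := by
        obtain ⟨n, hn⟩ : ∃ n, npos K = n + 1 := ⟨npos K - 1, by omega⟩
        rw [hn]
        rfl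
      rw [e]
      exact h2

theorem Up.append {R R' : ℤ} {K L : Word} (h : Up R K) (h' : Up R' L) : Up (R + R' + 1) (K ++ L) := by
  refine ⟨h.1.append h'.1, fun m h1 h2 => ?_⟩
  obtain ⟨s, e1, c1⟩ := h.low
  obtain ⟨s', e2, c2⟩ := h'.low
  rw [npos_append] at h2 ⊢
  have c3 := (rb_bot c1 h'.1).trans (rb_top c2 (su_valid (npos K)))
  have key : ∀ a b : ℕ, a + b ≤ m → ∃ t : ℕ, (t : ℤ) + a + b + (if a = 0 then 1 else 0) + (if b = 0 then 1 else 0)
      = m + 1 ∧ Cob [true] [true] 0 t 0 (su a ++ su b) (tk m) := by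
    intro a b hab
    rcases Nat.eq_zero_or_pos a with rfl | ha
    · obtain ⟨t, h3, h4⟩ := su_up h1 (n := b) (by omega)
      refine ⟨t, ?_, h4⟩
      rw [← h3]
      push_cast
      simp
      ring
    · rcases Nat.eq_zero_or_pos b with rfl | hb
      · obtain ⟨t, h3, h4⟩ := su_up h1 (n := a) (by omega)
        refine ⟨t, ?_, ?_⟩
        · rw [← h3]
          push_cast
          simp
        · have e : su a ++ su 0 = su a := List.append_nil _
          rw [e]
          exact h4
      · obtain ⟨a, rfl⟩ : ∃ a', a = a' + 1 := ⟨a - 1, by omega⟩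
        obtain ⟨b, rfl⟩ : ∃ b', b = b' + 1 := ⟨b - 1, by omega⟩
        obtain ⟨t, h3, h4⟩ := tk_up hab
        have h5 := (tk_fuse (a + 1) (b + 1)).trans h4
        refine ⟨1 + t, ?_, h5⟩
        rw [← h3]
        push_cast
        simp
        ring
  obtain ⟨t, e3, c4⟩ := key (npos K) (npos L) h2
  refine ⟨s + s' + t, ?_, (c3.trans c4).cast (by simp) rfl (by simp)⟩
  push_cast
  linarith

theorem Up.nil : Up (-1) [] := by
  refine ⟨rfl, fun m h1 h2 => ?_⟩
  obtain ⟨s, h3, h4⟩ := su_up h1 h2
  refine ⟨s, ?_, h4⟩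
  rw [← h3]
  simp [npos]

/-- the diagram lies in the middle of movies of saddles from `T(2, m)` to `-T(2, m')` -/
def Mid (K : Word) : Prop := ∃ R R' : ℤ, Up R K ∧ Up R' (Tangle.adj K) ∧ R + R' + 2 = npos K + nneg K

theorem Mid.append {K L : Word} (h : Mid K) (h' : Mid L) : Mid (K ++ L) := by
  obtain ⟨R, R', h1, h2, h3⟩ := h
  obtain ⟨S, S', h4, h5, h6⟩ := h'
  refine ⟨R + S + 1, S' + R' + 1, h1.append h4, ?_, ?_⟩
  · rw [adj_append]
    exact h5.append h2
  · rw [npos_append, nneg_append]
    push_cast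
    linarith

theorem Mid.nil : Mid [] := ⟨-1, -1, Up.nil, Up.nil, rfl⟩

theorem altw_count (s : Bool) (l : List Bool) : ∀ x y z : Bool,
    npos (altw s l x y z) + nneg (altw s l x y z) = l.length := by
  induction l with
  | nil => exact fun x y z => rfl
  | cons b l ih =>
    intro x y z
    cases b
    · show npos (_ :: altw s l x z y) + nneg (_ :: altw s l x z y) = l.length + 1
      rw [npos_cons, nneg_cons, ← ih x z y]
      have : (if gpos (cross (!s) y z) then 1 else 0) + (if gneg (cross (!s) y z) then 1 else 0) = 1 := by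
        cases s <;> cases y <;> cases z <;> rfl
      show _ + (if gpos (cross (!s) y z) then 1 else 0) + (_ + (if gneg (cross (!s) y z) then 1 else 0)) = _
      omega
    · show npos (_ :: altw s l y x z) + nneg (_ :: altw s l y x z) = l.length + 1
      rw [npos_cons, nneg_cons, ← ih y x z]
      have : (if gpos (cross s x y) then 1 else 0) + (if gneg (cross s x y) then 1 else 0) = 1 := by
        cases s <;> cases x <;> cases y <;> rfl
      show _ + (if gpos (cross s x y) then 1 else 0) + (_ + (if gneg (cross s x y) then 1 else 0)) = _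
      omega

theorem rat_count (s e f : Bool) (l : List Bool) : npos (rat s e f l) + nneg (rat s e f l) = l.length := by
  rw [npos_rat, ← altw_count s l true e (!e)]
  have : nneg (rat s e f l) = nneg (altw s l true e (!e)) := by
    unfold rat
    rw [nneg_cons, nneg_append]
    simp [nneg, gneg]
  rw [this]

/-- kinks below the maximum -/
theorem falses' (s : Bool) (k : ℕ) : ∀ (y f : Bool), end3 (List.replicate k false) true y (!y) = [true, f, !f] →
    Cob [true, y, !y] [true] 0 0 0 (altw s (List.replicate k false) true y (!y) ++ [⟨[true], cap f, []⟩])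
      [⟨[true], cap y, []⟩] := by
  induction k with
  | zero =>
    intro y f h
    have h1 : y = f := by
      injection h with _ h
      injection h
    subst h1
    exact Cob.refl ⟨rfl, rfl⟩
  | succ k ih =>
    intro y f h
    have h0 : end3 (List.replicate k false) true (!y) (!(!y)) = [true, f, !f] := by
      rw [Bool.not_not]
      exact h
    have h1 := ih (!y) f h0
    rw [Bool.not_not] at h1
    have h3 : Cob [true, y, !y] [true] 0 0 0 [⟨[true], cross (!s) y (!y), []⟩, ⟨[true], cap (!y), []⟩]
        [⟨[true], cap y, []⟩] := by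
      refine rel_cob (Rel.r1_cap (!s) y [true] []) ⟨rfl, ?_⟩ ⟨rfl, rfl⟩
      exact ⟨by cases y <;> rfl, rfl⟩
    have h4 := rb_top h1 (u := [⟨[true], cross (!s) y (!y), []⟩]) (c₀ := [true, y, !y]) ⟨rfl, rfl⟩
    exact h4.trans h3

theorem true_mem {s e f : Bool} {l : List Bool} (h : IsKnot (rat s e f l)) : true ∈ l := by
  by_contra hn
  have h3 : ∀ a ∈ l, a = false := by
    intro a ha
    cases a
    · rfl
    · exact absurd ha hn
  have h4 : l = List.replicate l.length false := List.eq_replicate_iff.2 ⟨rfl, h3⟩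
  have h5 := end3_of_valid h.valid
  rw [h4] at h5
  have h6 := falses' s l.length e f h5
  rw [← h4] at h6
  have h7 := rb_top h6 (u := [⟨[true], cup e, []⟩]) (c₀ := [true]) ⟨rfl, rfl⟩
  have h8 : Cob [true] [true] 0 0 1 (rat s e f l) [] :=
    h7.death (Local.whole (BirthRel.mk e [true] []) rfl ⟨rfl, rfl, rfl⟩)
  have h9 := cob_parity h (Relation.EqvGen.refl _) h8
  omega

theorem rat_mid {s e f : Bool} {l : List Bool} (h : IsKnot (rat s e f l)) : Mid (rat s e f l) := by
  have h1 := end3_of_valid h.valid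
  have h2 := true_mem h
  obtain ⟨h3, h4⟩ := rat_adj (s := s) h1
  have h5 : (l.count true : ℤ) + l.count false = npos (rat s e f l) + nneg (rat s e f l) := by
    have := rat_count s e f l
    have h6 : l.count true + l.count false = l.length := by
      rw [add_comm]
      have := List.count_false_add_count_true l
      omega
    omega
  cases s
  · refine ⟨(l.count true : ℤ) - 2, l.reverse.count false, upB h1 h2, ?_, ?_⟩
    · rw [h3]
      exact upA h4
    · rw [List.count_reverse]
      linarith
  · refine ⟨l.count false, (l.reverse.count true : ℤ) - 2, upA h1, ?_, ?_⟩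
    · rw [h3]
      exact upB h4 (by simpa using h2)
    · rw [List.count_reverse]
      linarith

end Pool.Agent.Lib.MP_177a0e_gt.LT
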