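import Pool.Agent.Lib.MP_177a0e_gt.LT.RH

/-!
# `T(2, m)` descends to every connected sum of two-bridge knots, and these descend to `-T(2, m')`.
-/

namespace Pool.Agent.Lib.MP_177a0e_gt.LT

open Pool.Agent.Lib.MP_177a0e_gt.Tangle Pool.Agent.Lib.MP_177a0e_gt.Tangle.Gen
open Pool.Agent.Lib.MP_177a0e_gt.Sig

/-- the trivial knot -/
def triv : Knot := ⟨[], Relation.EqvGen.refl _⟩

theorem sgn_signature : Sgn fun w => 2 * signature w := ⟨1, Or.inl rfl, Or.inl fun w => by ring⟩

theorem signature_adj_tk {m : ℕ} (h : m % 2 = 1) : 2 * signature (Tangle.adj (tk m)) = 1 - m + (1 - m) := by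
  have h1 : (List.replicate m true).count true % 2 = 1 := by
    rw [List.count_replicate_self]
    exact h
  have h2 := Des.desc_sig (Des.tb_desc (List.replicate m true) h1 triv)
  have h3 : signature ([] : Word) = 0 := by
    have h4 := sgn_adj sgn_signature triv
    have h5 : (2 : ℤ) * signature (Tangle.adj ([] : Word)) = -(2 * signature ([] : Word)) := h4
    have h6 : Tangle.adj ([] : Word) = [] := rfl
    rw [h6] at h5
    linarith
  have h7 : signature ([] : Word) = signature (Tangle.adj (tk m)) + 2 * ((List.replicate m true).count true / 2 : ℕ) := h2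
  rw [h3, List.count_replicate_self] at h7
  push_cast at h7
  omega

theorem signature_tk {m : ℕ} (h : m % 2 = 1) : 2 * signature (tk m) = m - 1 + (m - 1) := by
  have h1 := sgn_adj sgn_signature ⟨tk m, tk_knot m h⟩
  have h2 : 2 * signature (Tangle.adj (tk m)) = -(2 * signature (tk m)) := h1
  have h3 := signature_adj_tk h
  linarith

/-- the diagram lies in the middle -/
theorem mid_drop {K : Knot} (hK : Mid K.1) {T L : Knot} {m n : ℕ} (hm : m % 2 = 1) (hn : n % 2 = 1)
    (hT : T.1 = tk m) (hL : L.1 = Tangle.adj (tk n)) (h1 : npos K.1 ≤ m) (h2 : nneg K.1 ≤ n) :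
    ∃ g h : ℕ, 2 * (g + h) + 2 = m + n ∧ Drop (fun w => 2 * signature w) g T K ∧
      Drop (fun w => 2 * signature w) h K L := by
  obtain ⟨R, R', k1, k2, k3⟩ := hK
  obtain ⟨s, e1, c1⟩ := k1.2 m (by omega) h1
  rw [← npos_adj] at h2
  obtain ⟨t, e2, c2⟩ := k2.2 n (by omega) h2
  rw [npos_adj] at e2
  have c3 := c1.symm
  rw [← hT] at c3
  have c4 := c2.adj
  rw [Tangle.adj_adj, ← hL] at c4
  have p1 := cob_parity T.2 K.2 c3
  have p2 := cob_parity K.2 L.2 c4
  obtain ⟨g, hg⟩ : ∃ g, s = 2 * g := ⟨s / 2, by omega⟩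
  obtain ⟨h, hh⟩ : ∃ h, t = 2 * h := ⟨t / 2, by omega⟩
  subst hg hh
  have e3 : 2 * (g + h) + 2 = m + n := by
    have : ((2 * g : ℕ) : ℤ) + (2 * h : ℕ) + 2 = m + n := by linarith
    omega
  refine ⟨g, h, e3, ?_⟩
  refine drop_middle sgn_signature (d := 0) (e := 0) (c3.cast rfl (by omega) rfl) (c4.cast rfl (by omega) rfl) ?_
  show 2 * signature T.1 = 2 * signature L.1 + 4 * ((g + h : ℕ) : ℤ)
  rw [hT, hL, signature_tk hm, signature_adj_tk hn]
  have : (2 : ℤ) * ((g + h : ℕ) : ℤ) + 2 = m + n := by exact_mod_cast e3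
  linarith

/-- connected sums of two-bridge knots -/
theorem sum_mid (D : List Word) (hD : ∀ w ∈ D, IsKnot w ∧ ∃ (s e f : Bool) (l : List Bool), w = rat s e f l) :
    Mid D.flatten ∧ IsKnot D.flatten := by
  induction D with
  | nil => exact ⟨Mid.nil, Relation.EqvGen.refl _⟩
  | cons w D ih =>
    obtain ⟨i1, i2⟩ := ih fun v hv => hD v (List.mem_cons_of_mem _ hv)
    obtain ⟨h1, s, e, f, l, rfl⟩ := hD w List.mem_cons_self
    rw [List.flatten_cons]
    exact ⟨(rat_mid h1).append i1, h1.append i2⟩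

theorem two_bridge_sums (D : List Word) (K T L : Knot) (m n : ℕ)
    (hD : ∀ w ∈ D, IsKnot w ∧ ∃ (s e f : Bool) (l : List Bool), w = rat s e f l) (hK : K.1 = D.flatten)
    (hm : m % 2 = 1) (hn : n % 2 = 1) (h1 : npos K.1 ≤ m) (h2 : nneg K.1 ≤ n) (hT : T.1 = tk m)
    (hL : L.1 = Tangle.adj (tk n)) :
    ∃ g h : ℕ, 2 * (g + h) + 2 = m + n ∧ Drop (fun w => 2 * signature w) g T K ∧
      Drop (fun w => 2 * signature w) h K L :=
  mid_drop (by rw [hK]; exact (sum_mid D hD).1) hm hn hT hL h1 h2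

end Pool.Agent.Lib.MP_177a0e_gt.LT
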