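import Pool.Agent.Lib.MP_177a0e_gt.LT.SA

/-!
# normal forms of alternating tangles: validity.
-/

namespace Pool.Agent.Lib.MP_177a0e_gt.LT

open Pool.Agent.Lib.MP_177a0e_gt.Tangle Pool.Agent.Lib.MP_177a0e_gt.Tangle.Gen
open Pool.Agent.Lib.MP_177a0e_gt.Sig

theorem rep_ok {c : List Bool} {s : Slice} (h : s.src = c) (h' : s.tgt = c) (n : ℕ) :
    Valid c (List.replicate n s) c := by
  induction n with
  | zero => rfl
  | succ n ih =>
    refine ⟨h, ?_⟩
    rw [h']
    exact ih

theorem tka_valid (a : Bool) (n : ℕ) : Valid [a] (tka a n) [a] := by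
  refine ⟨rfl, (rep_ok (c := [a, a, !a]) rfl rfl n).append ⟨rfl, rfl⟩⟩

theorem tkb_valid (a : Bool) (n : ℕ) : Valid [a] (tkb a n) [a] := by
  cases a <;> exact ⟨rfl, (rep_ok (c := [_, _, _]) rfl rfl n).append ⟨rfl, rfl⟩⟩

theorem arcw_valid (a : Bool) (n : ℕ) : Valid [] (arcw a n) [a, a, !a, !a] := by
  have h : Valid [] (dcup a) [a, a, !a, !a] := ⟨rfl, rfl, rfl⟩
  exact h.append (rep_ok (c := [a, a, !a, !a]) rfl rfl n)

theorem flatw_valid (a : Bool) (o : Option ℕ) : Valid [] (flatw a o) [a, !a] := by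
  cases o with
  | none => exact ⟨rfl, rfl⟩
  | some n => exact ⟨rfl, cx_valid (tka_valid a n) [] [!a]⟩

theorem loca_valid (a : Bool) (o : Option ℕ) : Valid [a] (loca a o) [a] := by
  cases o with
  | none => rfl
  | some n => exact tka_valid a n

theorem locb_valid (a : Bool) (o : Option ℕ) : Valid [a] (locb a o) [a] := by
  cases o with
  | none => rfl
  | some n => exact tkb_valid a n

theorem rc_valid (x : Bool) : Valid [x, x, !x, !x] (rc x) [] := ⟨rfl, rfl, rfl⟩

theorem lev_even (S : Fo) : (lev S).length % 2 = 0 := by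
  induction S with
  | nil => rfl
  | flat a o r ih =>
    simp only [lev, List.length_cons]
    omega
  | arc a n i r ih1 ih2 =>
    simp only [lev, List.length_cons, List.length_append]
    omega

theorem W_valid (S : Fo) : Valid [] (W S) (lev S) := by
  induction S with
  | nil => rfl
  | flat a o r ih =>
    have h := cx_valid ih [a, !a] []
    simp only [List.append_nil] at h
    exact (flatw_valid a o).append h
  | arc a n i r ih1 ih2 =>
    have h1 := cx_valid ih1 [a, a] [!a, !a]
    have h2 := cx_valid ih2 ([a, a] ++ lev i ++ [!a, !a]) []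
    simp only [List.append_nil] at h1 h2
    refine (arcw_valid a n).append (h1.append ?_)
    have e : lev (.arc a n i r) = [a, a] ++ lev i ++ [!a, !a] ++ lev r := by simp [lev]
    rw [e]
    exact h2

/-- a word in a context of strands, after a word -/
theorem iso_top {c₀ c e p q : List Bool} {b s d : ℕ} {u w w' : Word} (h : Cob c e b s d w w')
    (hu : Valid c₀ u (p ++ c ++ q)) : Cob c₀ (p ++ e ++ q) b s d (u ++ cx p w q) (u ++ cx p w' q) :=
  rb_top (cx_cob h p q) hu

/-- two words in disjoint places after a word may be exchanged -/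
theorem iso_swap {c₀ a b c d : List Bool} {w u v : Word} (p m r : List Bool) (hw : Valid c₀ w (p ++ a ++ m ++ c ++ r))
    (hu : Valid a u b) (hv : Valid c v d) :
    Iso c₀ (p ++ b ++ m ++ d ++ r) (w ++ (cx p u (m ++ c ++ r) ++ cx (p ++ b ++ m) v r))
      (w ++ (cx (p ++ a ++ m) v r ++ cx p u (m ++ d ++ r))) :=
  rb_top (cx_comm hu hv p m r) hw

end Pool.Agent.Lib.MP_177a0e_gt.LT
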