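import Pool.Agent.Lib.MP_177a0e_gt.LT.SB

/-!
# torus links on strands: fusion and absorption.
-/

namespace Pool.Agent.Lib.MP_177a0e_gt.LT

open Pool.Agent.Lib.MP_177a0e_gt.Tangle Pool.Agent.Lib.MP_177a0e_gt.Tangle.Gen
open Pool.Agent.Lib.MP_177a0e_gt.Sig

theorem tka_fuse (a : Bool) (n m : ℕ) : Cob [a] [a] 0 1 0 (tka a n ++ tka a m) (tka a (n + m)) := by
  have h1 : Cob [a, a, !a] [a, a, !a] 0 1 0 [⟨[a], cap a, []⟩, ⟨[a], cup a, []⟩] [] :=
    (rb_saddle a [a] []).symm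
  have hu : Valid [a] (⟨[a], cup a, []⟩ :: List.replicate n ⟨[], cross true a a, [!a]⟩) [a, a, !a] :=
    ⟨rfl, rep_ok (c := [a, a, !a]) rfl rfl n⟩
  have hv : Valid [a, a, !a] (List.replicate m ⟨[], cross true a a, [!a]⟩ ++ [⟨[a], cap a, []⟩]) [a] :=
    (rep_ok (c := [a, a, !a]) rfl rfl m).append ⟨rfl, rfl⟩
  have h2 := h1.ctx hu hv
  have e1 : tka a n ++ tka a m = (⟨[a], cup a, []⟩ :: List.replicate n ⟨[], cross true a a, [!a]⟩) ++
      [⟨[a], cap a, []⟩, ⟨[a], cup a, []⟩] ++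
      (List.replicate m ⟨[], cross true a a, [!a]⟩ ++ [⟨[a], cap a, []⟩]) := by
    simp [tka]
  have e2 : tka a (n + m) = (⟨[a], cup a, []⟩ :: List.replicate n ⟨[], cross true a a, [!a]⟩) ++ [] ++
      (List.replicate m ⟨[], cross true a a, [!a]⟩ ++ [⟨[a], cap a, []⟩]) := by
    rw [tka, List.replicate_add]
    simp [-List.replicate_append_replicate]
  rw [e1, e2]
  exact h2

theorem abs_left (a : Bool) (n : ℕ) : Cob [a, a] [a, a] 0 1 0 (cx [] (tka a n) [a])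
    (List.replicate n ⟨[], cross true a a, []⟩) := by
  -- the saddle after the minimum
  have s1 : Cob [a, a, !a, a] [a, a, !a, a] 0 1 0 [] [⟨[a, a], cap (!a), []⟩, ⟨[a, a], cup (!a), []⟩] := by
    have h := rb_saddle (!a) [a, a] []
    cases a <;> exact h
  have hrep : Valid [a, a, !a, a] (List.replicate n ⟨[], cross true a a, [!a, a]⟩) [a, a, !a, a] :=
    rep_ok (c := [a, a, !a, a]) rfl rfl n
  have hcap : Valid [a, a, !a, a] [⟨[a], cap a, [a]⟩] [a, a] := ⟨rfl, rfl⟩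
  have s2 := s1.ctx (u := [⟨[a], cup a, [a]⟩]) (c₀ := [a, a]) ⟨rfl, rfl⟩ (hrep.append hcap)
  -- straighten
  have z1 : Cob [a, a] [a, a] 0 0 0 [⟨[a], cup a, [a]⟩, ⟨[a, a], cap (!a), []⟩] [] := by
    cases a
    · exact rel_cob (Rel.zigzag₂ false [false] []) ⟨rfl, rfl, rfl⟩ rfl
    · exact rel_cob (Rel.zigzag₂ true [true] []) ⟨rfl, rfl, rfl⟩ rfl
  have hcup : Valid [a, a] [⟨[a, a], cup (!a), []⟩] [a, a, !a, a] := by
    cases a <;> exact ⟨rfl, rfl⟩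
  have z2 := rb_bot z1 (hcup.append (hrep.append hcap))
  -- move the minimum
  have hx : Valid [a, a] (List.replicate n ⟨[], cross true a a, []⟩) [a, a] :=
    rep_ok (c := [a, a]) rfl rfl n
  have hc : Valid [] [⟨[], cup (!a), []⟩] [!a, a] := by
    cases a <;> exact ⟨rfl, rfl⟩
  have m1 := (cx_comm hx hc [] [] []).symm
  have e1 : cx ([] ++ [a, a] ++ []) [⟨[], cup (!a), []⟩] [] ++
      cx [] (List.replicate n ⟨[], cross true a a, []⟩) ([] ++ [!a, a] ++ []) =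
      [⟨[a, a], cup (!a), []⟩] ++ List.replicate n ⟨[], cross true a a, [!a, a]⟩ := by
    simp [cx, List.map_replicate]
  have e2 : cx [] (List.replicate n ⟨[], cross true a a, []⟩) ([] ++ [] ++ []) ++
      cx ([] ++ [a, a] ++ []) [⟨[], cup (!a), []⟩] [] =
      List.replicate n ⟨[], cross true a a, []⟩ ++ [⟨[a, a], cup (!a), []⟩] := by
    simp [cx, List.map_replicate]
  rw [e1, e2] at m1
  have m2 : Cob [a, a] [a, a] 0 0 0
      ([⟨[a, a], cup (!a), []⟩] ++ List.replicate n ⟨[], cross true a a, [!a, a]⟩ ++ [⟨[a], cap a, [a]⟩])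
      (List.replicate n ⟨[], cross true a a, []⟩ ++ [⟨[a, a], cup (!a), []⟩] ++ [⟨[a], cap a, [a]⟩]) :=
    rb_bot m1 hcap
  -- straighten
  have z3 : Cob [a, a] [a, a] 0 0 0 [⟨[a, a], cup (!a), []⟩, ⟨[a], cap a, [a]⟩] [] := by
    cases a
    · exact rel_cob (Rel.zigzag₁ false [false] []) ⟨rfl, rfl, rfl⟩ rfl
    · exact rel_cob (Rel.zigzag₁ true [true] []) ⟨rfl, rfl, rfl⟩ rfl
  have z4 := rb_top z3 hx
  have f0 : cx [] (tka a n) [a] = [⟨[a], cup a, [a]⟩] ++ [] ++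
      (List.replicate n ⟨[], cross true a a, [!a, a]⟩ ++ [⟨[a], cap a, [a]⟩]) := by
    simp [cx, tka, List.map_replicate]
  have f1 : [⟨[a], cup a, [a]⟩] ++ [⟨[a, a], cap (!a), []⟩, ⟨[a, a], cup (!a), []⟩] ++
      (List.replicate n ⟨[], cross true a a, [!a, a]⟩ ++ [⟨[a], cap a, [a]⟩]) =
      ([⟨[a], cup a, [a]⟩, ⟨[a, a], cap (!a), []⟩] ++ ([⟨[a, a], cup (!a), []⟩] ++
      (List.replicate n ⟨[], cross true a a, [!a, a]⟩ ++ [⟨[a], cap a, [a]⟩])) : Word) := by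
    simp
  have f2 : ([] ++ ([⟨[a, a], cup (!a), []⟩] ++
      (List.replicate n ⟨[], cross true a a, [!a, a]⟩ ++ [⟨[a], cap a, [a]⟩])) : Word) =
      [⟨[a, a], cup (!a), []⟩] ++ List.replicate n ⟨[], cross true a a, [!a, a]⟩ ++
        [⟨[a], cap a, [a]⟩] := by
    simp
  have f3 : (List.replicate n ⟨[], cross true a a, []⟩ ++ [⟨[a, a], cup (!a), []⟩] ++
      [⟨[a], cap a, [a]⟩] : Word) =
      List.replicate n ⟨[], cross true a a, []⟩ ++ [⟨[a, a], cup (!a), []⟩, ⟨[a], cap a, [a]⟩] := by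
    simp
  rw [f1] at s2
  rw [f2] at z2
  rw [f3] at m2
  rw [List.append_nil] at z4
  rw [f0]
  exact ((s2.trans z2).trans m2).trans z4

theorem abs_right (a : Bool) (n : ℕ) : Cob [a, a] [a, a] 0 1 0 (cx [a] (tkb a n) [])
    (List.replicate n ⟨[], cross true a a, []⟩) := by
  -- the saddle after the minimum
  have s1 : Cob [a, !a, a, a] [a, !a, a, a] 0 1 0 [] [⟨[], cap a, [a, a]⟩, ⟨[], cup a, [a, a]⟩] :=
    rb_saddle a [] [a, a]
  have hrep : Valid [a, !a, a, a] (List.replicate n ⟨[a, !a], cross true a a, []⟩) [a, !a, a, a] :=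
    rep_ok (c := [a, !a, a, a]) rfl rfl n
  have hcap : Valid [a, !a, a, a] [⟨[a], cap (!a), [a]⟩] [a, a] := by
    cases a <;> exact ⟨rfl, rfl⟩
  have hcup0 : Valid [a, a] [⟨[a], cup (!a), [a]⟩] [a, !a, a, a] := by
    cases a <;> exact ⟨rfl, rfl⟩
  have s2 := s1.ctx hcup0 (hrep.append hcap)
  -- straighten
  have z1 : Cob [a, a] [a, a] 0 0 0 [⟨[a], cup (!a), [a]⟩, ⟨[], cap a, [a, a]⟩] [] := by
    cases a
    · exact rel_cob (Rel.zigzag₁ false [] [false]) ⟨rfl, rfl, rfl⟩ rfl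
    · exact rel_cob (Rel.zigzag₁ true [] [true]) ⟨rfl, rfl, rfl⟩ rfl
  have hcup : Valid [a, a] [⟨[], cup a, [a, a]⟩] [a, !a, a, a] := ⟨rfl, rfl⟩
  have z2 := rb_bot z1 (hcup.append (hrep.append hcap))
  -- move the minimum
  have hx : Valid [a, a] (List.replicate n ⟨[], cross true a a, []⟩) [a, a] :=
    rep_ok (c := [a, a]) rfl rfl n
  have hc : Valid [] [⟨[], cup a, []⟩] [a, !a] := ⟨rfl, rfl⟩
  have m1 := cx_comm hc hx [] [] []
  have e1 : cx [] [⟨[], cup a, []⟩] ([] ++ [a, a] ++ []) ++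
      cx ([] ++ [a, !a] ++ []) (List.replicate n ⟨[], cross true a a, []⟩) [] =
      [⟨[], cup a, [a, a]⟩] ++ List.replicate n ⟨[a, !a], cross true a a, []⟩ := by
    simp [cx, List.map_replicate]
  have e2 : cx ([] ++ [] ++ []) (List.replicate n ⟨[], cross true a a, []⟩) [] ++
      cx [] [⟨[], cup a, []⟩] ([] ++ [a, a] ++ []) =
      List.replicate n ⟨[], cross true a a, []⟩ ++ [⟨[], cup a, [a, a]⟩] := by
    simp [cx, List.map_replicate]
  rw [e1, e2] at m1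
  have m2 : Cob [a, a] [a, a] 0 0 0
      ([⟨[], cup a, [a, a]⟩] ++ List.replicate n ⟨[a, !a], cross true a a, []⟩ ++ [⟨[a], cap (!a), [a]⟩])
      (List.replicate n ⟨[], cross true a a, []⟩ ++ [⟨[], cup a, [a, a]⟩] ++ [⟨[a], cap (!a), [a]⟩]) :=
    rb_bot m1 hcap
  -- straighten
  have z3 : Cob [a, a] [a, a] 0 0 0 [⟨[], cup a, [a, a]⟩, ⟨[a], cap (!a), [a]⟩] [] := by
    cases a
    · exact rel_cob (Rel.zigzag₂ false [] [false]) ⟨rfl, rfl, rfl⟩ rfl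
    · exact rel_cob (Rel.zigzag₂ true [] [true]) ⟨rfl, rfl, rfl⟩ rfl
  have z4 := rb_top z3 hx
  have f0 : cx [a] (tkb a n) [] = [⟨[a], cup (!a), [a]⟩] ++ [] ++
      (List.replicate n ⟨[a, !a], cross true a a, []⟩ ++ [⟨[a], cap (!a), [a]⟩]) := by
    simp [cx, tkb, List.map_replicate]
  have f1 : [⟨[a], cup (!a), [a]⟩] ++ [⟨[], cap a, [a, a]⟩, ⟨[], cup a, [a, a]⟩] ++
      (List.replicate n ⟨[a, !a], cross true a a, []⟩ ++ [⟨[a], cap (!a), [a]⟩]) =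
      ([⟨[a], cup (!a), [a]⟩, ⟨[], cap a, [a, a]⟩] ++ ([⟨[], cup a, [a, a]⟩] ++
      (List.replicate n ⟨[a, !a], cross true a a, []⟩ ++ [⟨[a], cap (!a), [a]⟩])) : Word) := by
    simp
  have f2 : ([] ++ ([⟨[], cup a, [a, a]⟩] ++
      (List.replicate n ⟨[a, !a], cross true a a, []⟩ ++ [⟨[a], cap (!a), [a]⟩])) : Word) =
      [⟨[], cup a, [a, a]⟩] ++ List.replicate n ⟨[a, !a], cross true a a, []⟩ ++
        [⟨[a], cap (!a), [a]⟩] := by
    simp
  have f3 : (List.replicate n ⟨[], cross true a a, []⟩ ++ [⟨[], cup a, [a, a]⟩] ++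
      [⟨[a], cap (!a), [a]⟩] : Word) =
      List.replicate n ⟨[], cross true a a, []⟩ ++ [⟨[], cup a, [a, a]⟩, ⟨[a], cap (!a), [a]⟩] := by
    simp
  rw [f1] at s2
  rw [f2] at z2
  rw [f3] at m2
  rw [List.append_nil] at z4
  rw [f0]
  exact ((s2.trans z2).trans m2).trans z4

end Pool.Agent.Lib.MP_177a0e_gt.LT
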