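import Pool.Agent.Lib.MP_177a0e_gt.LT.SB

/-!
# a torus link on the other side of a strand; a word on a strand passes a crossing.
-/

namespace Pool.Agent.Lib.MP_177a0e_gt.LT

open Pool.Agent.Lib.MP_177a0e_gt.Tangle Pool.Agent.Lib.MP_177a0e_gt.Tangle.Gen
open Pool.Agent.Lib.MP_177a0e_gt.Sig

private theorem sd_zero (a : Bool) : Iso [a] [a] (tka a 0) (tkb a 0) := by
  have hw : Valid [] ([⟨[], cup a, []⟩, ⟨[], cap a, []⟩] : Word) [] := ⟨rfl, rfl, rfl⟩
  have h1 : Cob [a] [a] 0 0 0 [⟨[a], cup a, []⟩, ⟨[a], cap a, []⟩] [⟨[], cup a, [a]⟩, ⟨[], cap a, [a]⟩] :=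
    pass hw false a
  have h2 : Cob [a] [a] 0 0 0 ([⟨[], cup (!a), [a]⟩, ⟨[], cross false (!a) a, [a]⟩] ++ [⟨[], cap a, [a]⟩])
      ([⟨[], cup a, [a]⟩] ++ [⟨[], cap a, [a]⟩]) := by
    cases a
    · exact rb_bot (rel_cob (Rel.r1_cup false true [] [false]) ⟨rfl, rfl, rfl⟩ ⟨rfl, rfl⟩)
        (e := [false, true, false]) ⟨rfl, rfl⟩
    · exact rb_bot (rel_cob (Rel.r1_cup false false [] [true]) ⟨rfl, rfl, rfl⟩ ⟨rfl, rfl⟩)
        (e := [true, false, true]) ⟨rfl, rfl⟩
  have h3 : Cob [a] [a] 0 0 0 ([⟨[], cup (!a), [a]⟩] ++ [⟨[], cross false (!a) a, [a]⟩, ⟨[], cap a, [a]⟩])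
      ([⟨[], cup (!a), [a]⟩] ++ [⟨[], cap (!a), [a]⟩]) := by
    cases a
    · exact rb_top (rel_cob (Rel.r1_cap false true [] [false]) ⟨rfl, rfl, rfl⟩ ⟨rfl, rfl⟩)
        (c := [true, false, false]) ⟨rfl, rfl⟩
    · exact rb_top (rel_cob (Rel.r1_cap false false [] [true]) ⟨rfl, rfl, rfl⟩ ⟨rfl, rfl⟩)
        (c := [false, true, true]) ⟨rfl, rfl⟩
  exact (h1.trans h2.symm).trans h3

private theorem sd_succ (a : Bool) (n : ℕ) : Iso [a] [a] (tkb a (n + 1)) (tka a (n + 1)) := by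
  obtain ⟨X, hX⟩ : ∃ X : Slice, X = ⟨[], cross true a a, [!a]⟩ := ⟨_, rfl⟩
  obtain ⟨Y, hY⟩ : ∃ Y : Slice, Y = ⟨[!a], cross true a a, []⟩ := ⟨_, rfl⟩
  have hw : Valid [a, a] (List.replicate n ⟨[], cross true a a, []⟩ : Word) [a, a] :=
    rep_ok (c := [a, a]) rfl rfl n
  have vX : Valid [a, a, !a] (List.replicate n X) [a, a, !a] := by
    subst hX
    exact rep_ok (c := [a, a, !a]) rfl rfl n
  have vY : Valid [!a, a, a] (List.replicate n Y) [!a, a, a] := by
    subst hY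
    exact rep_ok (c := [!a, a, a]) rfl rfl n
  have h1 := pass hw false (!a)
  have e1 : cx [!a] (List.replicate n ⟨[], cross true a a, []⟩ : Word) [] = List.replicate n Y := by
    simp [cx, List.map_replicate, hY]
  have e2 : cx [] (List.replicate n ⟨[], cross true a a, []⟩ : Word) [!a] = List.replicate n X := by
    simp [cx, List.map_replicate, hX]
  have e3 : xw false (!a) [a, a] = [⟨[], cross false (!a) a, [a]⟩, ⟨[a], cross false (!a) a, []⟩] := rfl
  rw [e1, e2, e3] at h1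
  have c1 : Cob [!a, a, a] [a] 0 0 0 [Y, ⟨[], cap (!a), [a]⟩]
      [⟨[], cross false (!a) a, [a]⟩, ⟨[a], cross false (!a) a, []⟩, ⟨[a], cap a, []⟩] := by
    subst hY
    cases a
    · have k1 : Cob [true, false, false] [false] 0 0 0 [⟨[true], cross true false false, []⟩, ⟨[], cap true, [false]⟩]
          [⟨[], cross false true false, [false]⟩, ⟨[false], cap true, []⟩] :=
        rel_cob (Rel.slide_cap true true false [] []) ⟨rfl, rfl, rfl⟩ ⟨rfl, rfl, rfl⟩
      have k2 : Cob [true, false, false] [false] 0 0 0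
          ([⟨[], cross false true false, [false]⟩] ++ [⟨[false], cross false true false, []⟩, ⟨[false], cap false, []⟩])
          ([⟨[], cross false true false, [false]⟩] ++ [⟨[false], cap true, []⟩]) :=
        rb_top (rel_cob (Rel.r1_cap false true [false] []) ⟨rfl, rfl, rfl⟩ ⟨rfl, rfl⟩) (c := [false, true, false])
          ⟨rfl, rfl⟩
      exact k1.trans k2.symm
    · have k1 : Cob [false, true, true] [true] 0 0 0 [⟨[false], cross true true true, []⟩, ⟨[], cap false, [true]⟩]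
          [⟨[], cross false false true, [true]⟩, ⟨[true], cap false, []⟩] :=
        rel_cob (Rel.slide_cap true false true [] []) ⟨rfl, rfl, rfl⟩ ⟨rfl, rfl, rfl⟩
      have k2 : Cob [false, true, true] [true] 0 0 0
          ([⟨[], cross false false true, [true]⟩] ++ [⟨[true], cross false false true, []⟩, ⟨[true], cap true, []⟩])
          ([⟨[], cross false false true, [true]⟩] ++ [⟨[true], cap false, []⟩]) :=
        rb_top (rel_cob (Rel.r1_cap false false [true] []) ⟨rfl, rfl, rfl⟩ ⟨rfl, rfl⟩) (c := [true, false, true])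
          ⟨rfl, rfl⟩
      exact k1.trans k2.symm
  have c2 : Cob [a] [a, a, !a] 0 0 0
      [⟨[], cup (!a), [a]⟩, ⟨[], cross false (!a) a, [a]⟩, ⟨[a], cross false (!a) a, []⟩]
      [⟨[a], cup a, []⟩, X] := by
    subst hX
    cases a
    · have k1 : Cob [false] [false, false, true] 0 0 0
          ([⟨[], cup true, [false]⟩, ⟨[], cross false true false, [false]⟩] ++ [⟨[false], cross false true false, []⟩])
          ([⟨[], cup false, [false]⟩] ++ [⟨[false], cross false true false, []⟩]) :=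
        rb_bot (rel_cob (Rel.r1_cup false true [] [false]) ⟨rfl, rfl, rfl⟩ ⟨rfl, rfl⟩) (e := [false, true, false])
          ⟨rfl, rfl⟩
      have k2 : Cob [false] [false, false, true] 0 0 0
          [⟨[], cup false, [false]⟩, ⟨[false], cross false true false, []⟩]
          [⟨[false], cup false, []⟩, ⟨[], cross true false false, [true]⟩] :=
        rel_cob (Rel.slide_cup false false false [] []) ⟨rfl, rfl, rfl⟩ ⟨rfl, rfl, rfl⟩
      exact k1.trans k2
    · have k1 : Cob [true] [true, true, false] 0 0 0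
          ([⟨[], cup false, [true]⟩, ⟨[], cross false false true, [true]⟩] ++ [⟨[true], cross false false true, []⟩])
          ([⟨[], cup true, [true]⟩] ++ [⟨[true], cross false false true, []⟩]) :=
        rb_bot (rel_cob (Rel.r1_cup false false [] [true]) ⟨rfl, rfl, rfl⟩ ⟨rfl, rfl⟩) (e := [true, false, true])
          ⟨rfl, rfl⟩
      have k2 : Cob [true] [true, true, false] 0 0 0
          [⟨[], cup true, [true]⟩, ⟨[true], cross false false true, []⟩]
          [⟨[true], cup true, []⟩, ⟨[], cross true true true, [false]⟩] :=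
        rel_cob (Rel.slide_cup false true true [] []) ⟨rfl, rfl, rfl⟩ ⟨rfl, rfl, rfl⟩
      exact k1.trans k2
  have u0 : Valid [a] [⟨[], cup (!a), [a]⟩] [!a, a, a] := by
    cases a <;> exact ⟨rfl, rfl⟩
  have u1 : Valid [a, a, !a] [⟨[a], cap a, []⟩] [a] := by
    cases a <;> exact ⟨rfl, rfl⟩
  have d1 := rb_top c1 (u0.append vY)
  have d2 := rb_bot h1 (v := [⟨[a], cap a, []⟩]) (e₀ := [a]) u1
  have d3 := rb_top d2 (u := [⟨[], cup (!a), [a]⟩]) (c₀ := [a]) u0
  have d4 := rb_bot c2 (vX.append u1)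
  have f1 : tkb a (n + 1) = ([⟨[], cup (!a), [a]⟩] ++ List.replicate n Y) ++ [Y, ⟨[], cap (!a), [a]⟩] := by
    subst hY
    rw [tkb, List.replicate_succ']
    simp
  have f2 : tka a (n + 1) = [⟨[a], cup a, []⟩, X] ++ (List.replicate n X ++ [⟨[a], cap a, []⟩]) := by
    subst hX
    rw [tka, List.replicate_succ]
    simp
  rw [f1, f2]
  have f3 : ([⟨[], cup (!a), [a]⟩] ++ List.replicate n Y) ++ [⟨[], cross false (!a) a, [a]⟩,
      ⟨[a], cross false (!a) a, []⟩, ⟨[a], cap a, []⟩] = [⟨[], cup (!a), [a]⟩] ++ (List.replicate n Y ++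
      [⟨[], cross false (!a) a, [a]⟩, ⟨[a], cross false (!a) a, []⟩] ++ [⟨[a], cap a, []⟩]) := by
    simp
  have f4 : [⟨[], cup (!a), [a]⟩] ++ ([⟨[], cross false (!a) a, [a]⟩, ⟨[a], cross false (!a) a, []⟩] ++
      List.replicate n X ++ [⟨[a], cap a, []⟩]) = [⟨[], cup (!a), [a]⟩, ⟨[], cross false (!a) a, [a]⟩,
      ⟨[a], cross false (!a) a, []⟩] ++ (List.replicate n X ++ [⟨[a], cap a, []⟩]) := by
    simp
  rw [f3] at d1
  rw [f4] at d3
  exact (d1.trans d3).trans d4

theorem tka_tkb (a : Bool) (n : ℕ) : Iso [a] [a] (tka a n) (tkb a n) := by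
  cases n with
  | zero => exact sd_zero a
  | succ n => exact (sd_succ a n).symm

theorem pass_cross (s a b : Bool) {J : Word} (hJ : Valid [a] J [a]) : Iso [a, b] [b, a]
    (cx [] J [b] ++ [⟨[], cross s a b, []⟩]) ([⟨[], cross s a b, []⟩] ++ cx [b] J []) := by
  have vx : Valid [a, b] [⟨[], cross s a b, []⟩] [b, a] := ⟨rfl, rfl⟩
  have vy : Valid [b, a] [⟨[], cross (!s) b a, []⟩] [a, b] := ⟨rfl, rfl⟩
  have hp : Cob [b, a] [a, b] 0 0 0 (cx [b] J [] ++ [⟨[], cross (!s) b a, []⟩])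
      ([⟨[], cross (!s) b a, []⟩] ++ cx [] J [b]) := pass hJ (!s) b
  have r1 : Cob [a, b] [a, b] 0 0 0 ([⟨[], cross s a b, []⟩] ++ [⟨[], cross (!s) b a, []⟩]) [] :=
    rel_cob (Rel.r2 s a b [] []) (vx.append vy) rfl
  have r2 : Cob [b, a] [b, a] 0 0 0 ([⟨[], cross (!s) b a, []⟩] ++ [⟨[], cross s a b, []⟩]) [] := by
    have := rel_cob (c := [b, a]) (e := [b, a]) (Rel.r2 (!s) b a [] []) ⟨rfl, rfl, rfl⟩ rfl
    simpa using this
  have vJ1 : Valid [b, a] (cx [b] J []) [b, a] := by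
    simpa using cx_valid hJ [b] []
  have vJ2 : Valid [a, b] (cx [] J [b]) [a, b] := by
    simpa using cx_valid hJ [] [b]
  have c1 := r1.ctx (c₀ := [a, b]) (u := []) rfl (vJ2.append vx)
  have c2 := hp.ctx vx vx
  have c3 := r2.ctx (vx.append vJ1) (v := []) rfl
  have c1' : Cob [a, b] [b, a] 0 0 0 (cx [] J [b] ++ [⟨[], cross s a b, []⟩])
      ([⟨[], cross s a b, []⟩] ++ ([⟨[], cross (!s) b a, []⟩] ++ cx [] J [b]) ++ [⟨[], cross s a b, []⟩]) := by
    simpa [List.append_assoc] using c1.symm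
  have c3' : Cob [a, b] [b, a] 0 0 0
      ([⟨[], cross s a b, []⟩] ++ (cx [b] J [] ++ [⟨[], cross (!s) b a, []⟩]) ++ [⟨[], cross s a b, []⟩])
      ([⟨[], cross s a b, []⟩] ++ cx [b] J []) := by
    simpa [List.append_assoc] using c3
  exact (c1'.trans c2.symm).trans c3'

end Pool.Agent.Lib.MP_177a0e_gt.LT
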