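import Pool.Agent.Lib.MP_177a0e_gt.LT.SC
import Pool.Agent.Lib.MP_177a0e_gt.LT.SD

/-!
# half twists slide around nested minima.
-/

namespace Pool.Agent.Lib.MP_177a0e_gt.LT

open Pool.Agent.Lib.MP_177a0e_gt.Tangle Pool.Agent.Lib.MP_177a0e_gt.Tangle.Gen
open Pool.Agent.Lib.MP_177a0e_gt.Sig

private theorem dcup_valid (a : Bool) : Valid [] (dcup a) [a, a, !a, !a] := ⟨rfl, rfl, rfl⟩

theorem arc_right (a : Bool) (n : ℕ) : Iso [] [a, a, !a, !a]
    (arcw a n ++ [⟨[a, a], cross true (!a) (!a), []⟩]) (arcw a (n + 1)) := by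
  have hu : Valid [a, a] (List.replicate n ⟨[], cross true a a, []⟩) [a, a] := rep_ok (c := [a, a]) rfl rfl n
  have hv : Valid [!a, !a] [⟨[], cross true (!a) (!a), []⟩] [!a, !a] := ⟨rfl, rfl⟩
  have h1 := cx_comm hu hv [] [] []
  have h1' : Iso [a, a, !a, !a] [a, a, !a, !a]
      (List.replicate n ⟨[], cross true a a, [!a, !a]⟩ ++ [⟨[a, a], cross true (!a) (!a), []⟩])
      ([⟨[a, a], cross true (!a) (!a), []⟩] ++ List.replicate n ⟨[], cross true a a, [!a, !a]⟩) := by
    simpa [cx, List.map_replicate] using h1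
  have h2 := rb_top h1' (dcup_valid a)
  have h3 : Iso [] [a, a, !a, !a] (dcup a ++ [⟨[a, a], cross true (!a) (!a), []⟩])
      (dcup a ++ [⟨[], cross true a a, [!a, !a]⟩]) := (xe_rcross true a a).symm
  have h4 := rb_bot h3 (rep_ok (c := [a, a, !a, !a]) (s := ⟨[], cross true a a, [!a, !a]⟩) rfl rfl n)
  have e1 : arcw a n ++ [⟨[a, a], cross true (!a) (!a), []⟩] = dcup a ++
      (List.replicate n ⟨[], cross true a a, [!a, !a]⟩ ++ [⟨[a, a], cross true (!a) (!a), []⟩]) := by
    simp [arcw]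
  have e2 : dcup a ++ ([⟨[a, a], cross true (!a) (!a), []⟩] ++ List.replicate n ⟨[], cross true a a, [!a, !a]⟩) =
      dcup a ++ [⟨[a, a], cross true (!a) (!a), []⟩] ++ List.replicate n ⟨[], cross true a a, [!a, !a]⟩ := by
    simp
  have e3 : dcup a ++ [⟨[], cross true a a, [!a, !a]⟩] ++ List.replicate n ⟨[], cross true a a, [!a, !a]⟩ =
      arcw a (n + 1) := by
    rw [arcw, List.replicate_succ]
    simp
  rw [e1]
  rw [e2] at h2
  rw [e3] at h4
  exact h2.trans h4

theorem arc_rights (a : Bool) (n m : ℕ) : Iso [] [a, a, !a, !a]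
    (arcw a n ++ List.replicate m ⟨[a, a], cross true (!a) (!a), []⟩) (arcw a (n + m)) := by
  induction m generalizing n with
  | zero => simpa using Cob.refl (arcw_valid a n)
  | succ m ih =>
    have h1 := rb_bot (arc_right a n)
      (rep_ok (c := [a, a, !a, !a]) (s := ⟨[a, a], cross true (!a) (!a), []⟩) rfl rfl m)
    have h2 := ih (n + 1)
    have e : n + 1 + m = n + (m + 1) := by ring
    rw [e] at h2
    rw [List.replicate_succ]
    have h3 := h1.trans h2
    simpa using h3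

private theorem flat_some (a : Bool) (n : ℕ) : flatw a (some n) = arcw a n ++ [⟨[a], cap a, [!a]⟩] := by
  simp [flatw, arcw, dcup, tka, cx]

private theorem rights_eq (a : Bool) (n : ℕ) : (⟨[], cup a, []⟩ :: cx [a] (tkb (!a) n) [] : Word) =
    arcw a 0 ++ List.replicate n ⟨[a, a], cross true (!a) (!a), []⟩ ++ [⟨[a], cap a, [!a]⟩] := by
  cases a <;> simp [arcw, dcup, tkb, cx]

private theorem capin_valid (a : Bool) : Valid [a, a, !a, !a] [⟨[a], cap a, [!a]⟩] [a, !a] := ⟨rfl, rfl⟩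

theorem flat_rot (a : Bool) (n : ℕ) : Iso [] [a, !a] (flatw a (some n))
    (⟨[], cup a, []⟩ :: cx [a] (tkb (!a) n) []) := by
  rw [flat_some, rights_eq]
  have h := rb_bot (arc_rights a 0 n).symm (capin_valid a)
  rw [Nat.zero_add] at h
  exact h

theorem flat_add (a : Bool) (o : Option ℕ) (n : ℕ) : Cob [] [a, !a] 0 (on o) 0
    (flatw a o ++ cx [a] (tkb (!a) n) []) (flatw a (some (ot o + n))) := by
  cases o with
  | none =>
    have h := (flat_rot a n).symm
    have e : ot none + n = n := Nat.zero_add n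
    rw [e]
    exact h
  | some m =>
    have h1 := cx_comm (tka_valid a m) (tkb_valid (!a) n) [] [] []
    have h1' : Iso [a, !a] [a, !a] (cx [] (tka a m) [!a] ++ cx [a] (tkb (!a) n) [])
        (cx [a] (tkb (!a) n) [] ++ cx [] (tka a m) [!a]) := by
      simpa using h1
    have h2 := rb_top h1' (c₀ := []) (u := [⟨[], cup a, []⟩]) ⟨rfl, rfl⟩
    have h3 := rb_bot (flat_rot a n).symm (cx_valid (tka_valid a m) [] [!a])
    have h4 : Cob [a, !a] [a, !a] 0 1 0 (cx [] (tka a n) [!a] ++ cx [] (tka a m) [!a])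
        (cx [] (tka a (n + m)) [!a]) := by
      have := cx_cob (tka_fuse a n m) [] [!a]
      rw [cx_append] at this
      exact this
    have h5 := rb_top h4 (c₀ := []) (u := [⟨[], cup a, []⟩]) ⟨rfl, rfl⟩
    have e : ot (some m) + n = n + m := Nat.add_comm m n
    rw [e]
    have h6 := (h2.trans h3).trans (by simpa [flatw] using h5)
    exact h6.cast rfl rfl rfl

theorem flat_cross (s a : Bool) (o : Option ℕ) : Iso [] [!a, a]
    (flatw a o ++ [⟨[], cross s a (!a), []⟩]) (flatw (!a) o) := by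
  have h0 : Iso [] [!a, a] [⟨[], cup a, []⟩, ⟨[], cross s a (!a), []⟩] [⟨[], cup (!a), []⟩] := by
    cases a <;> exact rel_cob (Rel.r1_cup s _ [] []) ⟨rfl, rfl, rfl⟩ ⟨rfl, rfl⟩
  cases o with
  | none => exact h0
  | some n =>
    have h1 := rb_top (pass_cross s a (!a) (tka_valid a n)) (c₀ := []) (u := [⟨[], cup a, []⟩]) ⟨rfl, rfl⟩
    have v1 : Valid [!a, a] (cx [!a] (tka a n) []) [!a, a] := by
      simpa using cx_valid (tka_valid a n) [!a] []
    have h2 := rb_bot h0 v1
    have h3 : Iso [!a, a] [!a, a] (cx [!a] (tka a n) []) (cx [!a] (tkb a n) []) := by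
      simpa using cx_cob (tka_tkb a n) [!a] []
    have h4 := rb_top h3 (c₀ := []) (u := [⟨[], cup (!a), []⟩]) (by cases a <;> exact ⟨rfl, rfl⟩)
    have h5 := (flat_rot (!a) n).symm
    rw [Bool.not_not] at h5
    have e1 : [⟨[], cup a, []⟩] ++ (cx [] (tka a n) [!a] ++ [⟨[], cross s a (!a), []⟩]) =
        flatw a (some n) ++ [⟨[], cross s a (!a), []⟩] := by simp [flatw]
    have e2 : [⟨[], cup a, []⟩] ++ ([⟨[], cross s a (!a), []⟩] ++ cx [!a] (tka a n) []) =
        [⟨[], cup a, []⟩, ⟨[], cross s a (!a), []⟩] ++ cx [!a] (tka a n) [] := by simp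
    rw [e1, e2] at h1
    exact ((h1.trans h2).trans h4).trans h5

end Pool.Agent.Lib.MP_177a0e_gt.LT
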