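import Pool.Agent.Lib.MP_177a0e_gt.LT.SE

/-!
# minima and maxima at normal forms.
-/

namespace Pool.Agent.Lib.MP_177a0e_gt.LT

open Pool.Agent.Lib.MP_177a0e_gt.Tangle Pool.Agent.Lib.MP_177a0e_gt.Tangle.Gen
open Pool.Agent.Lib.MP_177a0e_gt.Sig

theorem cup_right (u v : Bool) : Cob [u, v] [u, v, !v, v] 0 1 0 [⟨[u], cup v, [v]⟩] [⟨[u, v], cup (!v), []⟩] := by
  have h1 : Cob [u, v] [u, v, !v, v] 0 1 0 [⟨[u], cup v, [v]⟩]
      [⟨[u], cup v, [v]⟩, ⟨[u, v], cap (!v), []⟩, ⟨[u, v], cup (!v), []⟩] := by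
    cases v
    · exact rb_top (rb_saddle true [u, false] []) (c₀ := [u, false]) (u := [⟨[u], cup false, [false]⟩]) ⟨rfl, rfl⟩
    · exact rb_top (rb_saddle false [u, true] []) (c₀ := [u, true]) (u := [⟨[u], cup true, [true]⟩]) ⟨rfl, rfl⟩
  have h2 : Iso [u, v] [u, v, !v, v] [⟨[u], cup v, [v]⟩, ⟨[u, v], cap (!v), []⟩, ⟨[u, v], cup (!v), []⟩]
      [⟨[u, v], cup (!v), []⟩] := by
    cases v
    · exact rb_bot (rel_cob (c := [u, false]) (e := [u, false]) (Rel.zigzag₂ false [u] []) ⟨rfl, rfl, rfl⟩ rfl)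
        (v := [⟨[u, false], cup true, []⟩]) (e₀ := [u, false, true, false]) ⟨rfl, rfl⟩
    · exact rb_bot (rel_cob (c := [u, true]) (e := [u, true]) (Rel.zigzag₂ true [u] []) ⟨rfl, rfl, rfl⟩ rfl)
        (v := [⟨[u, true], cup false, []⟩]) (e₀ := [u, true, false, true]) ⟨rfl, rfl⟩
  exact h1.trans h2

theorem cup_left (u v : Bool) : Cob [u, v] [u, !u, u, v] 0 1 0 [⟨[u], cup (!u), [v]⟩] [⟨[], cup u, [u, v]⟩] := by
  have h1 : Cob [u, v] [u, !u, u, v] 0 1 0 [⟨[u], cup (!u), [v]⟩]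
      [⟨[u], cup (!u), [v]⟩, ⟨[], cap u, [u, v]⟩, ⟨[], cup u, [u, v]⟩] := by
    cases u
    · exact rb_top (rb_saddle false [] [false, v]) (c₀ := [false, v]) (u := [⟨[false], cup true, [v]⟩]) ⟨rfl, rfl⟩
    · exact rb_top (rb_saddle true [] [true, v]) (c₀ := [true, v]) (u := [⟨[true], cup false, [v]⟩]) ⟨rfl, rfl⟩
  have h2 : Iso [u, v] [u, !u, u, v] [⟨[u], cup (!u), [v]⟩, ⟨[], cap u, [u, v]⟩, ⟨[], cup u, [u, v]⟩]
      [⟨[], cup u, [u, v]⟩] := by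
    cases u
    · exact rb_bot (rel_cob (c := [false, v]) (e := [false, v]) (Rel.zigzag₁ false [] [v]) ⟨rfl, rfl, rfl⟩ rfl)
        (v := [⟨[], cup false, [false, v]⟩]) (e₀ := [false, true, false, v]) ⟨rfl, rfl⟩
    · exact rb_bot (rel_cob (c := [true, v]) (e := [true, v]) (Rel.zigzag₁ true [] [v]) ⟨rfl, rfl, rfl⟩ rfl)
        (v := [⟨[], cup true, [true, v]⟩]) (e₀ := [true, false, true, v]) ⟨rfl, rfl⟩
  exact h1.trans h2

theorem cap_arc (a : Bool) (n : ℕ) : arcw a n ++ [⟨[a], cap a, [!a]⟩] = flatw a (some n) := by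
  simp [arcw, dcup, flatw, tka, cx]

theorem cup_in (a : Bool) (o : Option ℕ) : Cob [] [a, a, !a, !a] 0 (on o) 0
    (flatw a o ++ [⟨[a], cup a, [!a]⟩]) (arcw a (ot o)) := by
  cases o with
  | none =>
    have e : flatw a none ++ [⟨[a], cup a, [!a]⟩] = arcw a (ot none) := by simp [flatw, arcw, dcup, ot]
    rw [e]
    exact Cob.refl (arcw_valid a _)
  | some n =>
    rw [← cap_arc]
    have h1 := (rb_saddle a [a] [!a]).symm
    have h2 := rb_top h1 (arcw_valid a n)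
    have h3 : Cob [] [a, a, !a, !a] 0 1 0 (arcw a n ++ [⟨[a], cap a, [!a]⟩, ⟨[a], cup a, [!a]⟩]) (arcw a n ++ []) := h2
    rw [List.append_nil] at h3
    rw [List.append_assoc]
    exact h3

theorem cap_flat_right (x : Bool) (o : Option ℕ) : Iso [x] [x]
    (cx [x] (flatw (!x) o) [] ++ [⟨[], cap x, [x]⟩]) (locb x o) := by
  have hz : Iso [x] [x] [⟨[x], cup (!x), []⟩, ⟨[], cap x, [x]⟩] [] :=
    rel_cob (Rel.zigzag₁ x [] []) (by cases x <;> exact ⟨rfl, rfl, rfl⟩) rfl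
  cases o with
  | none => exact hz
  | some n =>
    have h1 : Iso [x] [x, !x, x] (cx [x] (flatw (!x) (some n)) [])
        (cx [x] (⟨[], cup (!x), []⟩ :: cx [!x] (tkb x n) []) []) := by
      have h := cx_cob (flat_rot (!x) n) [x] []
      rw [Bool.not_not] at h
      exact h
    have h2 := rb_bot h1 (v := [⟨[], cap x, [x]⟩]) (e₀ := [x]) ⟨rfl, rfl⟩
    have h3 := (cx_comm (u := [⟨[], cap x, []⟩]) (a := [x, !x]) (b := []) ⟨rfl, rfl⟩ (tkb_valid x n) [] [] []).symm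
    have h4 := rb_top h3 (c₀ := [x]) (u := [⟨[x], cup (!x), []⟩]) (by cases x <;> exact ⟨rfl, rfl⟩)
    have h5 := rb_bot hz (tkb_valid x n)
    have e1 : cx [x] (⟨[], cup (!x), []⟩ :: cx [!x] (tkb x n) []) [] ++ [⟨[], cap x, [x]⟩] =
        [⟨[x], cup (!x), []⟩] ++ (cx [x, !x] (tkb x n) [] ++ [⟨[], cap x, [x]⟩]) := by
      simp [cx]
    rw [e1] at h2
    have e2 : [⟨[x], cup (!x), []⟩] ++ (cx [] [⟨[], cap x, []⟩] [x] ++ cx [] (tkb x n) []) =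
        [⟨[x], cup (!x), []⟩, ⟨[], cap x, [x]⟩] ++ tkb x n := by
      simp [cx]
    have h4' : Iso [x] [x] ([⟨[x], cup (!x), []⟩] ++ (cx [x, !x] (tkb x n) [] ++ [⟨[], cap x, [x]⟩]))
        ([⟨[x], cup (!x), []⟩, ⟨[], cap x, [x]⟩] ++ tkb x n) := by
      rw [← e2]
      exact h4
    exact (h2.trans h4').trans h5

theorem cap_flat_left (y : Bool) (o : Option ℕ) : Iso [y] [y]
    (cx [] (flatw y o) [y] ++ [⟨[y], cap (!y), []⟩]) (loca y o) := by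
  have hz : Iso [y] [y] [⟨[], cup y, [y]⟩, ⟨[y], cap (!y), []⟩] [] :=
    rel_cob (Rel.zigzag₂ y [] []) (by cases y <;> exact ⟨rfl, rfl, rfl⟩) rfl
  cases o with
  | none => exact hz
  | some n =>
    have h3 := cx_comm (v := [⟨[], cap (!y), []⟩]) (c := [!y, y]) (d := []) (tka_valid y n)
      (by cases y <;> exact ⟨rfl, rfl⟩) [] [] []
    have h4 := rb_top h3 (c₀ := [y]) (u := [⟨[], cup y, [y]⟩]) ⟨rfl, rfl⟩
    have h5 := rb_bot hz (tka_valid y n)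
    have e1 : cx [] (flatw y (some n)) [y] ++ [⟨[y], cap (!y), []⟩] =
        [⟨[], cup y, [y]⟩] ++ (cx [] (tka y n) [!y, y] ++ [⟨[y], cap (!y), []⟩]) := by
      simp [cx, flatw]
    rw [e1]
    have e2 : [⟨[], cup y, [y]⟩] ++ (cx [y] [⟨[], cap (!y), []⟩] [] ++ cx [] (tka y n) []) =
        [⟨[], cup y, [y]⟩, ⟨[y], cap (!y), []⟩] ++ tka y n := by
      simp [cx]
    have h4' : Iso [y] [y] ([⟨[], cup y, [y]⟩] ++ (cx [] (tka y n) [!y, y] ++ [⟨[y], cap (!y), []⟩]))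
        ([⟨[], cup y, [y]⟩, ⟨[y], cap (!y), []⟩] ++ tka y n) := by
      rw [← e2]
      exact h4
    exact h4'.trans h5

theorem cap_saddle (x : Bool) : Cob [x, x, !x, !x] [x, !x] 0 1 0 [⟨[x], cap x, [!x]⟩]
    (rc x ++ [⟨[], cup x, []⟩]) := by
  exact rb_top (rb_saddle x [] []) (c₀ := [x, x, !x, !x]) (u := [⟨[x], cap x, [!x]⟩]) ⟨rfl, rfl⟩

end Pool.Agent.Lib.MP_177a0e_gt.LT
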