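import Pool.Agent.Lib.MP_177a0e_gt.LT.SE

/-!
# ribbon caps.
-/

namespace Pool.Agent.Lib.MP_177a0e_gt.LT

open Pool.Agent.Lib.MP_177a0e_gt.Tangle Pool.Agent.Lib.MP_177a0e_gt.Tangle.Gen
open Pool.Agent.Lib.MP_177a0e_gt.Sig

private theorem dz1 (b : Bool) : Iso [b, b] [b, b] (cx [b, b] (dcup (!b)) [] ++ cx [] (rc b) [b, b]) [] := by
  cases b
  · have h1 := xe_back (c := [false, false]) (e := [false, false]) [⟨[false, false], cup true, []⟩]
      [⟨[], cap false, [false, false]⟩] (Rel.interchange (cap false) (cup true) [false] [] [false])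
      ⟨rfl, rfl, rfl, rfl, rfl⟩ ⟨rfl, rfl, rfl, rfl, rfl⟩
    have h2 := xe_step (c := [false, false]) (e := [false, false]) []
      [⟨[false], cup true, [false]⟩, ⟨[], cap false, [false, false]⟩] (Rel.zigzag₁ false [false] [])
      ⟨rfl, rfl, rfl, rfl, rfl⟩ ⟨rfl, rfl, rfl⟩
    have h3 := xe_step (c := [false, false]) (e := [false, false]) [] [] (Rel.zigzag₁ false [] [false])
      ⟨rfl, rfl, rfl⟩ rfl
    exact (h1.trans h2).trans h3
  · have h1 := xe_back (c := [true, true]) (e := [true, true]) [⟨[true, true], cup false, []⟩]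
      [⟨[], cap true, [true, true]⟩] (Rel.interchange (cap true) (cup false) [true] [] [true])
      ⟨rfl, rfl, rfl, rfl, rfl⟩ ⟨rfl, rfl, rfl, rfl, rfl⟩
    have h2 := xe_step (c := [true, true]) (e := [true, true]) []
      [⟨[true], cup false, [true]⟩, ⟨[], cap true, [true, true]⟩] (Rel.zigzag₁ true [true] [])
      ⟨rfl, rfl, rfl, rfl, rfl⟩ ⟨rfl, rfl, rfl⟩
    have h3 := xe_step (c := [true, true]) (e := [true, true]) [] [] (Rel.zigzag₁ true [] [true])
      ⟨rfl, rfl, rfl⟩ rfl
    exact (h1.trans h2).trans h3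

private theorem dz2 (b : Bool) : Iso [b, b] [b, b] (cx [] (dcup b) [b, b] ++ cx [b, b] (rc (!b)) []) [] := by
  cases b
  · have h1 := xe_step (c := [false, false]) (e := [false, false]) [⟨[], cup false, [false, false]⟩]
      [⟨[false, false], cap true, []⟩] (Rel.interchange (cup false) (cap true) [false] [] [false])
      ⟨rfl, rfl, rfl, rfl, rfl⟩ ⟨rfl, rfl, rfl, rfl, rfl⟩
    have h2 := xe_step (c := [false, false]) (e := [false, false]) []
      [⟨[false], cup false, [false]⟩, ⟨[false, false], cap true, []⟩] (Rel.zigzag₂ false [] [false])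
      ⟨rfl, rfl, rfl, rfl, rfl⟩ ⟨rfl, rfl, rfl⟩
    have h3 := xe_step (c := [false, false]) (e := [false, false]) [] [] (Rel.zigzag₂ false [false] [])
      ⟨rfl, rfl, rfl⟩ rfl
    exact (h1.trans h2).trans h3
  · have h1 := xe_step (c := [true, true]) (e := [true, true]) [⟨[], cup true, [true, true]⟩]
      [⟨[true, true], cap false, []⟩] (Rel.interchange (cup true) (cap false) [true] [] [true])
      ⟨rfl, rfl, rfl, rfl, rfl⟩ ⟨rfl, rfl, rfl, rfl, rfl⟩
    have h2 := xe_step (c := [true, true]) (e := [true, true]) []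
      [⟨[true], cup true, [true]⟩, ⟨[true, true], cap false, []⟩] (Rel.zigzag₂ true [] [true])
      ⟨rfl, rfl, rfl, rfl, rfl⟩ ⟨rfl, rfl, rfl⟩
    have h3 := xe_step (c := [true, true]) (e := [true, true]) [] [] (Rel.zigzag₂ true [true] [])
      ⟨rfl, rfl, rfl⟩ rfl
    exact (h1.trans h2).trans h3

private theorem cx_rep (p q : List Bool) (s : Slice) (n : ℕ) :
    cx p (List.replicate n s) q = List.replicate n ⟨p ++ s.left, s.gen, s.right ++ q⟩ := by
  simp [cx]

/-- crossings of two parallel strands -/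
private def cr (a : Bool) (m : ℕ) : Word := List.replicate m ⟨[], cross true a a, []⟩

private theorem cr_valid (a : Bool) (m : ℕ) : Valid [a, a] (cr a m) [a, a] :=
  rep_ok (c := [a, a]) (s := ⟨[], cross true a a, []⟩) rfl rfl m

private theorem arcw_eq (a : Bool) (n : ℕ) : arcw a n = dcup a ++ cx [] (cr a n) [!a, !a] := by
  rw [cr, cx_rep]
  rfl

private theorem arcw_rev (a : Bool) (m : ℕ) : Iso [] [a, a, !a, !a] (arcw a m)
    (dcup a ++ cx [a, a] (cr (!a) m) []) := by
  have h := (arc_rights a 0 m).symm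
  rw [Nat.zero_add] at h
  rw [cr, cx_rep]
  exact h

private theorem arcw_add (a : Bool) (n m : ℕ) :
    arcw a n ++ cx [] (cr a m) [!a, !a] = arcw a (n + m) := by
  rw [arcw_eq, arcw_eq, List.append_assoc, ← cx_append, cr, cr, cr, List.replicate_add]

theorem rc_left (a : Bool) (n m : ℕ) : Iso [] [a, a, !a, !a]
    (arcw a n ++ cx [a, a] (arcw (!a) m) [!a, !a] ++ cx [] (rc a) [a, a, !a, !a]) (arcw a (n + m)) := by
  have va := arcw_valid a n
  have h1 := arcw_rev (!a) m
  rw [Bool.not_not] at h1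
  have h2 := rb_bot (rb_top (cx_cob h1 [a, a] [!a, !a]) va)
    (cx_valid (rc_valid a) [] [a, a, !a, !a])
  have h3 := (cx_comm (rc_valid a) (cr_valid a m) [] [] [!a, !a]).symm
  have vd : Valid [] (dcup (!a)) [!a, !a, a, a] := by cases a <;> exact ⟨rfl, rfl, rfl⟩
  have h4 := rb_top h3 (va.append (cx_valid vd [a, a] [!a, !a]))
  have h5 := rb_bot (rb_top (cx_cob (dz1 a) [] [!a, !a]) va) (cx_valid (cr_valid a m) [] [!a, !a])
  rw [← arcw_add]
  simp only [cx_append, cx_cx, List.append_assoc, List.nil_append, List.append_nil,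
    List.cons_append, cx_nil] at h2 h4 h5 ⊢
  exact (h2.trans h4).trans h5

private theorem arc_rights' (a : Bool) (n m : ℕ) : Iso [] [a, a, !a, !a]
    (arcw a n ++ cx [a, a] (cr (!a) m) []) (arcw a (n + m)) := by
  rw [cr, cx_rep]
  exact arc_rights a n m

private theorem dcup_valid (a : Bool) : Valid [] (dcup a) [a, a, !a, !a] := ⟨rfl, rfl, rfl⟩

theorem rc_right (a : Bool) (n m : ℕ) : Iso [] [a, a, !a, !a]
    (arcw a n ++ cx [a, a] (arcw (!a) m) [!a, !a] ++ cx [a, a, !a, !a] (rc a) []) (arcw a (n + m)) := by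
  have va := arcw_valid a n
  have vd := dcup_valid (!a)
  have h3 := cx_comm (cr_valid (!a) m) (rc_valid a) [a, a] [] []
  have d := dz2 (!a)
  rw [Bool.not_not] at vd d
  have h4 := rb_top h3 (va.append (cx_valid vd [a, a] [!a, !a]))
  have h5 := rb_bot (rb_top (cx_cob d [a, a] []) va) (cx_valid (cr_valid (!a) m) [a, a] [])
  have h6 := arc_rights' a n m
  rw [arcw_eq (!a) m, Bool.not_not]
  simp only [cx_append, cx_cx, List.append_assoc, List.nil_append, List.append_nil,
    List.cons_append, cx_nil] at h4 h5 h6 ⊢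
  exact (h4.trans h5).trans h6

theorem rc_side (a : Bool) (n m : ℕ) : Iso [] [a, a, !a, !a]
    (arcw a n ++ cx [a, a, !a, !a] (arcw a m) [] ++ cx [a, a] (rc (!a)) [!a, !a]) (arcw a (n + m)) := by
  have va := arcw_valid a n
  have vr := rc_valid (!a)
  have d := dz1 (!a)
  rw [Bool.not_not] at vr d
  have h2 := rb_bot (rb_top (cx_cob (arcw_rev a m) [a, a, !a, !a] []) va) (cx_valid vr [a, a] [!a, !a])
  have h3 := (cx_comm vr (cr_valid (!a) m) [a, a] [] []).symm
  have h4 := rb_top h3 (va.append (cx_valid (dcup_valid a) [a, a, !a, !a] []))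
  have h5 := rb_bot (rb_top (cx_cob d [a, a] []) va) (cx_valid (cr_valid (!a) m) [a, a] [])
  have h6 := arc_rights' a n m
  simp only [cx_append, cx_cx, List.append_assoc, List.nil_append, List.append_nil,
    List.cons_append, cx_nil] at h2 h4 h5 h6 ⊢
  exact ((h2.trans h4).trans h5).trans h6

end Pool.Agent.Lib.MP_177a0e_gt.LT
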