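import Pool.Agent.Lib.MP_177a0e_gt.LT.SB

/-!
# contexts.
-/

namespace Pool.Agent.Lib.MP_177a0e_gt.LT

open Pool.Agent.Lib.MP_177a0e_gt.Tangle Pool.Agent.Lib.MP_177a0e_gt.Tangle.Gen
open Pool.Agent.Lib.MP_177a0e_gt.Sig

theorem lev_app (S T : Fo) : lev (app S T) = lev S ++ lev T := by
  induction S with
  | nil => rfl
  | flat a o r ih => simp [app, lev, ih]
  | arc a n i r _ ih => simp [app, lev, ih]

theorem rr_app (S T : Fo) : rr (app S T) = rr S + rr T := by
  induction S with
  | nil => simp [app, rr]
  | flat a o r ih => simp only [app, rr, ih]; omega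
  | arc a n i r _ ih => simp only [app, rr, ih]; omega

theorem tw_app (S T : Fo) : tw (app S T) = tw S + tw T := by
  induction S with
  | nil => simp [app, tw]
  | flat a o r ih => simp only [app, tw, ih]; omega
  | arc a n i r _ ih => simp only [app, tw, ih]; omega

theorem W_app (S T : Fo) : W (app S T) = W S ++ cx (lev S) (W T) [] := by
  induction S with
  | nil => simp [app, W, lev, cx_id]
  | flat a o r ih => simp [app, W, lev, ih, cx_append, cx_cx]
  | arc a n i r _ ih => simp [app, W, lev, ih, cx_append, cx_cx]

theorem lev_fill (C : Ctx) (X : Fo) : lev (fill C X) = pre C ++ lev X ++ post C := by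
  induction C with
  | here r => simp [fill, pre, post, lev_app]
  | flat a o C ih => simp [fill, pre, post, lev, ih]
  | inn a n C r ih => simp [fill, pre, post, lev, ih]
  | out a n i C ih => simp [fill, pre, post, lev, ih]

theorem rr_fill (C : Ctx) (X : Fo) : rr (fill C X) = rr (fill C .nil) + rr X := by
  induction C with
  | here r => simp only [fill, app, rr_app]; omega
  | flat a o C ih => simp only [fill, rr]; omega
  | inn a n C r ih => simp only [fill, rr]; omega
  | out a n i C ih => simp only [fill, rr]; omega

theorem tw_fill (C : Ctx) (X : Fo) : tw (fill C X) = tw (fill C .nil) + tw X := by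
  induction C with
  | here r => simp only [fill, app, tw_app]; omega
  | flat a o C ih => simp only [fill, tw]; omega
  | inn a n C r ih => simp only [fill, tw]; omega
  | out a n i C ih => simp only [fill, tw]; omega

theorem pre_even (C : Ctx) : (pre C).length % 2 = 0 := by
  induction C with
  | here r => rfl
  | flat a o C ih => simp only [pre, List.length_cons]; omega
  | inn a n C r ih => simp only [pre, List.length_cons]; omega
  | out a n i C ih =>
    have := lev_even i
    simp only [pre, List.length_cons, List.length_append]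
    omega

theorem W_fill (C : Ctx) (X : Fo) : Iso [] (pre C ++ lev X ++ post C) (W (fill C X))
    (W (fill C .nil) ++ cx (pre C) (W X) (post C)) := by
  induction C with
  | here r =>
    have h := cx_comm (W_valid X) (W_valid r) [] [] []
    simp only [List.append_nil, List.nil_append, cx_id] at h
    simp only [fill, app, pre, post, List.nil_append, W_app]
    exact h
  | flat a o C ih =>
    have h := iso_top (c₀ := []) (u := flatw a o) (p := [a, !a]) (q := []) ih (by simpa using flatw_valid a o)
    simp only [List.append_nil] at h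
    simp only [fill, pre, post, W]
    simpa [cx_append, cx_cx] using h
  | inn a n C r ih =>
    have h1 := iso_top (c₀ := []) (u := arcw a n) (p := [a, a]) (q := [!a, !a]) ih (by simpa using arcw_valid a n)
    have hv : Valid ([a, a] ++ (pre C ++ lev X ++ post C) ++ [!a, !a])
        (cx ([a, a] ++ lev (fill C X) ++ [!a, !a]) (W r) []) ([a, a] ++ lev (fill C X) ++ [!a, !a] ++ lev r) := by
      have h := cx_valid (W_valid r) ([a, a] ++ lev (fill C X) ++ [!a, !a]) []
      rw [List.append_nil, List.append_nil, List.append_nil] at h
      rw [← lev_fill]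
      exact h
    have h2 := rb_bot h1 hv
    have hw : Valid [] (arcw a n ++ cx [a, a] (W (fill C .nil)) [!a, !a])
        (([a, a] ++ pre C) ++ [] ++ (post C ++ [!a, !a]) ++ [] ++ []) := by
      refine (arcw_valid a n).append ?_
      have h := cx_valid (W_valid (fill C .nil)) [a, a] [!a, !a]
      rw [lev_fill] at h
      simpa [lev] using h
    have h3 := iso_swap ([a, a] ++ pre C) (post C ++ [!a, !a]) [] hw (W_valid X) (W_valid r)
    simp only [fill, pre, post, W]
    have h4 : Iso [] (a :: a :: pre C ++ lev X ++ (post C ++ (!a) :: (!a) :: lev r))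
        (arcw a n ++ (cx [a, a] (W (fill C X)) [!a, !a] ++ cx ([a, a] ++ lev (fill C X) ++ [!a, !a]) (W r) []))
        ((arcw a n ++ cx [a, a] (W (fill C .nil) ++ cx (pre C) (W X) (post C)) [!a, !a]) ++
          cx ([a, a] ++ lev (fill C X) ++ [!a, !a]) (W r) []) := by
      simpa [lev_fill] using h2
    have h5 : Iso [] (a :: a :: pre C ++ lev X ++ (post C ++ (!a) :: (!a) :: lev r))
        ((arcw a n ++ cx [a, a] (W (fill C .nil) ++ cx (pre C) (W X) (post C)) [!a, !a]) ++
          cx ([a, a] ++ lev (fill C X) ++ [!a, !a]) (W r) [])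
        (arcw a n ++ (cx [a, a] (W (fill C Fo.nil)) [!a, !a] ++ cx ([a, a] ++ lev (fill C Fo.nil) ++ [!a, !a]) (W r) []) ++
          cx (a :: a :: pre C) (W X) (post C ++ (!a) :: (!a) :: lev r)) := by
      simpa [lev_fill, lev, cx_append, cx_cx] using h3
    exact Cob.trans h4 h5
  | out a n i C ih =>
    have hu : Valid [] (arcw a n ++ cx [a, a] (W i) [!a, !a]) (([a, a] ++ lev i ++ [!a, !a]) ++ [] ++ []) := by
      refine (arcw_valid a n).append ?_
      have h := cx_valid (W_valid i) [a, a] [!a, !a]
      simpa using h
    have h := iso_top (c₀ := []) (p := [a, a] ++ lev i ++ [!a, !a]) (q := []) ih hu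
    simp only [fill, pre, post, W]
    simpa [cx_append, cx_cx] using h

end Pool.Agent.Lib.MP_177a0e_gt.LT
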