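import Pool.Agent.Lib.MP_177a0e_gt.LT.SH

/-!
# pairs of strands in a forest.
-/

namespace Pool.Agent.Lib.MP_177a0e_gt.LT

open Pool.Agent.Lib.MP_177a0e_gt.Tangle Pool.Agent.Lib.MP_177a0e_gt.Tangle.Gen
open Pool.Agent.Lib.MP_177a0e_gt.Sig

/-- an even list is empty or begins with a pair -/
private theorem si_even_cases {p : List Bool} (hp : p.length % 2 = 0) :
    p = [] ∨ ∃ u v p', p = u :: v :: p' ∧ p'.length % 2 = 0 := by
  match p, hp with
  | [], _ => exact Or.inl rfl
  | [u], hp => simp at hp
  | u :: v :: p', hp =>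
    refine Or.inr ⟨u, v, p', rfl, ?_⟩
    simp only [List.length_cons] at hp
    omega

private theorem si_split_pair {p L q M : List Bool} {x y : Bool} (hp : p.length % 2 = 0)
    (hL : L.length % 2 = 0) (h : p ++ x :: y :: q = L ++ M) :
    (∃ q', L = p ++ x :: y :: q' ∧ q = q' ++ M) ∨
      ∃ p', p = L ++ p' ∧ M = p' ++ x :: y :: q ∧ p'.length % 2 = 0 := by
  rcases List.append_eq_append_iff.1 h with ⟨a', h1, h2⟩ | ⟨c', h1, h2⟩
  · have ha : a'.length % 2 = 0 := by
      rw [h1, List.length_append] at hL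
      omega
    rcases si_even_cases ha with rfl | ⟨u, v, q', rfl, -⟩
    · refine Or.inr ⟨[], ?_, ?_, rfl⟩
      · rw [h1]
        simp
      · simpa using h2.symm
    · rw [List.cons_append, List.cons_append] at h2
      injection h2 with h3 h4
      injection h4 with h5 h6
      subst h3 h5
      exact Or.inl ⟨q', h1, h6⟩
  · refine Or.inr ⟨c', h1, h2, ?_⟩
    rw [h1, List.length_append] at hp
    omega

private theorem si_fo_last (S : Fo) : S = .nil ∨ (∃ (T : Fo) (a : Bool) (o : Option ℕ), S = app T (.flat a o .nil)) ∨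
    ∃ (T : Fo) (a : Bool) (n : ℕ) (i : Fo), S = app T (.arc a n i .nil) := by
  induction S with
  | nil => exact Or.inl rfl
  | flat a o r ih =>
    rcases ih with rfl | ⟨T, b, o', rfl⟩ | ⟨T, b, n, i, rfl⟩
    · exact Or.inr (Or.inl ⟨.nil, a, o, rfl⟩)
    · exact Or.inr (Or.inl ⟨.flat a o T, b, o', rfl⟩)
    · exact Or.inr (Or.inr ⟨.flat a o T, b, n, i, rfl⟩)
  | arc a m j r ih1 ih2 =>
    rcases ih2 with rfl | ⟨T, b, o', rfl⟩ | ⟨T, b, n, i, rfl⟩
    · exact Or.inr (Or.inr ⟨.nil, a, m, j, rfl⟩)
    · exact Or.inr (Or.inl ⟨.arc a m j T, b, o', rfl⟩)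
    · exact Or.inr (Or.inr ⟨.arc a m j T, b, n, i, rfl⟩)

theorem loc_gap (S : Fo) (p q : List Bool) (hp : p.length % 2 = 0) (h : p ++ q = lev S) :
    ∃ C : Ctx, S = fill C .nil ∧ pre C = p ∧ post C = q := by
  induction S generalizing p q with
  | nil =>
    simp only [lev, List.append_eq_nil_iff] at h
    obtain ⟨rfl, rfl⟩ := h
    exact ⟨.here .nil, rfl, rfl, rfl⟩
  | flat a o r ih =>
    rcases si_even_cases hp with rfl | ⟨u, v, p', rfl, hp'⟩
    · exact ⟨.here (.flat a o r), rfl, rfl, h.symm⟩
    · simp only [lev, List.cons_append, List.cons.injEq] at h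
      obtain ⟨rfl, rfl, h⟩ := h
      obtain ⟨C, rfl, h1, h2⟩ := ih p' q hp' h
      exact ⟨.flat u o C, rfl, by simp [pre, h1], by simp [post, h2]⟩
  | arc a n i r ih1 ih2 =>
    rcases si_even_cases hp with rfl | ⟨u, v, p', rfl, hp'⟩
    · exact ⟨.here (.arc a n i r), rfl, rfl, h.symm⟩
    · simp only [lev, List.cons_append, List.cons.injEq] at h
      obtain ⟨rfl, rfl, h⟩ := h
      rcases List.append_eq_append_iff.1 h with ⟨a', h1, h2⟩ | ⟨c', h1, h2⟩
      · obtain ⟨C, rfl, h3, h4⟩ := ih1 p' a' hp' h1.symm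
        exact ⟨.inn v n C r, rfl, by simp [pre, h3], by simp [post, h4, h2]⟩
      · have hc : c'.length % 2 = 0 := by
          have h5 := lev_even i
          rw [h1, List.length_append] at hp'
          omega
        rcases si_even_cases hc with rfl | ⟨w, w', c'', rfl, hc'⟩
        · obtain ⟨C, h6, h3, h4⟩ := ih1 (lev i) [] (lev_even i) (by simp)
          refine ⟨.inn v n C r, ?_, ?_, ?_⟩
          · rw [fill, ← h6]
          · simp [pre, h3, h1]
          · simpa [post, h4] using h2
        · simp only [List.cons_append, List.cons.injEq] at h2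
          obtain ⟨rfl, rfl, h2⟩ := h2
          obtain ⟨C, rfl, h3, h4⟩ := ih2 c'' q hc' h2.symm
          exact ⟨.out v n i C, rfl, by simp [pre, h3, h1], by simp [post, h4]⟩

theorem loc_pair (S : Fo) (p : List Bool) (u v : Bool) (q : List Bool) (hp : p.length % 2 = 0)
    (h : p ++ u :: v :: q = lev S) :
    (v = !u ∧ ∃ (C : Ctx) (o : Option ℕ), S = fill C (.flat u o .nil) ∧ pre C = p ∧ post C = q) ∨
    (v = u ∧ ((∃ (C : Ctx) (n : ℕ) (i : Fo), S = fill C (.arc u n i .nil) ∧ pre C = p ∧
        q = lev i ++ (!u) :: (!u) :: post C) ∨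
      ∃ (C : Ctx) (n : ℕ) (i : Fo), S = fill C (.arc (!u) n i .nil) ∧ p = pre C ++ (!u) :: (!u) :: lev i ∧
        post C = q)) := by
  induction S generalizing p q with
  | nil => simp [lev] at h
  | flat a o r ih =>
    rcases si_even_cases hp with rfl | ⟨w, w', p', rfl, hp'⟩
    · simp only [lev, List.nil_append, List.cons.injEq] at h
      obtain ⟨rfl, rfl, rfl⟩ := h
      exact Or.inl ⟨rfl, .here r, o, rfl, rfl, rfl⟩
    · simp only [lev, List.cons_append, List.cons.injEq] at h
      obtain ⟨rfl, rfl, h⟩ := h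
      rcases ih p' q hp' h with ⟨h0, C, o', rfl, h1, h2⟩ | ⟨h0, ⟨C, n, i, rfl, h1, h2⟩ | ⟨C, n, i, rfl, h1, h2⟩⟩
      · exact Or.inl ⟨h0, .flat w o C, o', rfl, by simp [pre, h1], by simp [post, h2]⟩
      · exact Or.inr ⟨h0, Or.inl ⟨.flat w o C, n, i, rfl, by simp [pre, h1], by simp [post, h2]⟩⟩
      · exact Or.inr ⟨h0, Or.inr ⟨.flat w o C, n, i, rfl, by simp [pre, h1], by simp [post, h2]⟩⟩
  | arc a m j r ih1 ih2 =>
    rcases si_even_cases hp with rfl | ⟨w, w', p', rfl, hp'⟩
    · simp only [lev, List.nil_append, List.cons.injEq] at h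
      obtain ⟨rfl, rfl, rfl⟩ := h
      exact Or.inr ⟨rfl, Or.inl ⟨.here r, m, j, rfl, rfl, rfl⟩⟩
    · simp only [lev, List.cons_append, List.cons.injEq] at h
      obtain ⟨rfl, rfl, h⟩ := h
      rcases si_split_pair hp' (lev_even j) h with ⟨q', h3, rfl⟩ | ⟨p'', rfl, h3, hp''⟩
      · rcases ih1 p' q' hp' h3.symm with
          ⟨h0, C, o', rfl, h1, h2⟩ | ⟨h0, ⟨C, n, i, rfl, h1, h2⟩ | ⟨C, n, i, rfl, h1, h2⟩⟩
        · exact Or.inl ⟨h0, .inn w' m C r, o', rfl, by simp [pre, h1], by simp [post, h2]⟩
        · exact Or.inr ⟨h0, Or.inl ⟨.inn w' m C r, n, i, rfl, by simp [pre, h1], by simp [post, h2]⟩⟩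
        · exact Or.inr ⟨h0, Or.inr ⟨.inn w' m C r, n, i, rfl, by simp [pre, h1], by simp [post, h2]⟩⟩
      · rcases si_even_cases hp'' with rfl | ⟨z, z', p''', rfl, hp'''⟩
        · simp only [List.nil_append, List.cons.injEq] at h3
          obtain ⟨rfl, rfl, rfl⟩ := h3
          exact Or.inr ⟨rfl, Or.inr ⟨.here r, m, j, by simp [fill, app], by simp [pre], rfl⟩⟩
        · simp only [List.cons_append, List.cons.injEq] at h3
          obtain ⟨rfl, rfl, h3⟩ := h3
          rcases ih2 p''' q hp''' h3.symm with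
            ⟨h0, C, o', rfl, h1, h2⟩ | ⟨h0, ⟨C, n, i, rfl, h1, h2⟩ | ⟨C, n, i, rfl, h1, h2⟩⟩
          · exact Or.inl ⟨h0, .out w' m j C, o', rfl, by simp [pre, h1], by simp [post, h2]⟩
          · exact Or.inr ⟨h0, Or.inl ⟨.out w' m j C, n, i, rfl, by simp [pre, h1], by simp [post, h2]⟩⟩
          · exact Or.inr ⟨h0, Or.inr ⟨.out w' m j C, n, i, rfl, by simp [pre, h1], by simp [post, h2]⟩⟩

theorem loc_two (S : Fo) (p : List Bool) (x : Bool) (q : List Bool) (hp : p.length % 2 = 0)
    (h : p ++ x :: x :: (!x) :: (!x) :: q = lev S) :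
    (∃ (C : Ctx) (n : ℕ), S = fill C (.arc x n .nil .nil) ∧ pre C = p ∧ post C = q) ∨
    (∃ (C : Ctx) (n m : ℕ) (i j : Fo), S = fill C (.arc x n (.arc (!x) m i j) .nil) ∧ pre C = p ∧
        q = lev i ++ x :: x :: (lev j ++ (!x) :: (!x) :: post C)) ∨
    (∃ (C : Ctx) (n m : ℕ) (i j : Fo), S = fill C (.arc x n (app i (.arc (!x) m j .nil)) .nil) ∧
        p = pre C ++ x :: x :: (lev i ++ (!x) :: (!x) :: lev j) ∧ post C = q) ∨
    (∃ (C : Ctx) (n m : ℕ) (i j : Fo), S = fill C (.arc (!x) n i (.arc (!x) m j .nil)) ∧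
        p = pre C ++ (!x) :: (!x) :: lev i ∧ q = lev j ++ x :: x :: post C) := by
  induction S generalizing p q with
  | nil => simp [lev] at h
  | flat a o r ih =>
    rcases si_even_cases hp with rfl | ⟨w, w', p', rfl, hp'⟩
    · simp only [lev, List.nil_append, List.cons.injEq] at h
      obtain ⟨rfl, h1, -⟩ := h
      cases x <;> simp at h1
    · simp only [lev, List.cons_append, List.cons.injEq] at h
      obtain ⟨rfl, rfl, h⟩ := h
      rcases ih p' q hp' h with ⟨C, n, rfl, h1, h2⟩ | ⟨C, n, m, i, j, rfl, h1, h2⟩ |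
        ⟨C, n, m, i, j, rfl, h1, h2⟩ | ⟨C, n, m, i, j, rfl, h1, h2⟩
      · exact Or.inl ⟨.flat w o C, n, rfl, by simp [pre, h1], by simp [post, h2]⟩
      · exact Or.inr (Or.inl ⟨.flat w o C, n, m, i, j, rfl, by simp [pre, h1], by simp [post, h2]⟩)
      · exact Or.inr (Or.inr (Or.inl ⟨.flat w o C, n, m, i, j, rfl, by simp [pre, h1], by simp [post, h2]⟩))
      · exact Or.inr (Or.inr (Or.inr ⟨.flat w o C, n, m, i, j, rfl, by simp [pre, h1], by simp [post, h2]⟩))
  | arc a n i r ih1 ih2 =>
    rcases si_even_cases hp with rfl | ⟨w, w', p', rfl, hp'⟩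
    · simp only [lev, List.nil_append, List.cons.injEq] at h
      obtain ⟨rfl, -, h⟩ := h
      match i, h with
      | .nil, h =>
        simp only [lev, List.nil_append, List.cons.injEq, true_and] at h
        exact Or.inl ⟨.here r, n, rfl, rfl, h.symm⟩
      | .flat b o' i', h =>
        simp only [lev, List.cons_append, List.cons.injEq] at h
        obtain ⟨h1, h2, -⟩ := h
        rw [← h1] at h2
        cases x <;> simp at h2
      | .arc b m i' j', h =>
        simp only [lev, List.cons_append, List.cons.injEq] at h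
        obtain ⟨rfl, -, h⟩ := h
        refine Or.inr (Or.inl ⟨.here r, n, m, i', j', rfl, rfl, ?_⟩)
        simpa [post] using h
    · simp only [lev, List.cons_append, List.cons.injEq] at h
      obtain ⟨rfl, rfl, h⟩ := h
      rcases si_split_pair hp' (lev_even i) h with ⟨q', h3, h4⟩ | ⟨p'', rfl, h3, hp''⟩
      · have hq : q'.length % 2 = 0 := by
          have h5 := lev_even i
          rw [h3] at h5
          simp only [List.length_append, List.length_cons] at h5
          omega
        rcases si_even_cases hq with rfl | ⟨z, z', q'', rfl, hq'⟩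
        · simp only [List.nil_append, List.cons.injEq] at h4
          obtain ⟨h5, -, rfl⟩ := h4
          have h6 : w' = x := by
            cases x <;> cases w' <;> simp_all
          subst h6
          rcases si_fo_last i with rfl | ⟨T, b, o', rfl⟩ | ⟨T, b, m, j, rfl⟩
          · simp [lev] at h3
          · rw [lev_app] at h3
            simp only [lev] at h3
            have h7 := List.append_inj_right' h3 rfl
            simp only [List.cons.injEq] at h7
            obtain ⟨rfl, h8, -⟩ := h7
            cases b <;> simp at h8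
          · rw [lev_app] at h3
            simp only [lev] at h3
            have h3' : (lev T ++ b :: b :: lev j) ++ [!b, !b] = p' ++ [w', w'] := by
              rw [← h3]
              simp
            have h7 := List.append_inj_right' h3' rfl
            have h8 := List.append_inj_left' h3' rfl
            simp only [List.cons.injEq] at h7
            obtain ⟨rfl, -, -⟩ := h7
            refine Or.inr (Or.inr (Or.inl ⟨.here r, n, m, T, j, by simp [fill, app], ?_, rfl⟩))
            simp [pre, ← h8]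
        · simp only [List.cons_append, List.cons.injEq] at h4
          obtain ⟨rfl, rfl, rfl⟩ := h4
          rcases ih1 p' q'' hp' h3.symm with ⟨C, n', rfl, h1, h2⟩ | ⟨C, n', m, i', j, rfl, h1, h2⟩ |
            ⟨C, n', m, i', j, rfl, h1, h2⟩ | ⟨C, n', m, i', j, rfl, h1, h2⟩
          · exact Or.inl ⟨.inn w' n C r, n', rfl, by simp [pre, h1], by simp [post, h2]⟩
          · exact Or.inr (Or.inl ⟨.inn w' n C r, n', m, i', j, rfl, by simp [pre, h1], by simp [post, h2]⟩)
          · exact Or.inr (Or.inr (Or.inl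
              ⟨.inn w' n C r, n', m, i', j, rfl, by simp [pre, h1], by simp [post, h2]⟩))
          · exact Or.inr (Or.inr (Or.inr
              ⟨.inn w' n C r, n', m, i', j, rfl, by simp [pre, h1], by simp [post, h2]⟩))
      · rcases si_even_cases hp'' with rfl | ⟨z, z', p''', rfl, hp'''⟩
        · simp only [List.nil_append, List.cons.injEq] at h3
          obtain ⟨rfl, -, h3⟩ := h3
          match r, h3 with
          | .nil, h3 => simp [lev] at h3
          | .flat b o' r', h3 =>
            simp only [lev, List.cons.injEq] at h3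
            obtain ⟨h1, h2, -⟩ := h3
            rw [h1] at h2
            cases w' <;> simp at h2
          | .arc b m j r', h3 =>
            simp only [lev, List.cons.injEq] at h3
            obtain ⟨rfl, -, h3⟩ := h3
            refine Or.inr (Or.inr (Or.inr ⟨.here r', n, m, i, j, by simp [fill, app], by simp [pre], ?_⟩))
            simpa [post] using h3.symm
        · simp only [List.cons_append, List.cons.injEq] at h3
          obtain ⟨rfl, rfl, h3⟩ := h3
          rcases ih2 p''' q hp''' h3.symm with ⟨C, n', rfl, h1, h2⟩ | ⟨C, n', m, i', j, rfl, h1, h2⟩ |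
            ⟨C, n', m, i', j, rfl, h1, h2⟩ | ⟨C, n', m, i', j, rfl, h1, h2⟩
          · exact Or.inl ⟨.out w' n i C, n', rfl, by simp [pre, h1], by simp [post, h2]⟩
          · exact Or.inr (Or.inl ⟨.out w' n i C, n', m, i', j, rfl, by simp [pre, h1], by simp [post, h2]⟩)
          · exact Or.inr (Or.inr (Or.inl
              ⟨.out w' n i C, n', m, i', j, rfl, by simp [pre, h1], by simp [post, h2]⟩))
          · exact Or.inr (Or.inr (Or.inr
              ⟨.out w' n i C, n', m, i', j, rfl, by simp [pre, h1], by simp [post, h2]⟩))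

end Pool.Agent.Lib.MP_177a0e_gt.LT
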