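import Pool.Agent.Lib.MP_177a0e_gt.LT.SF
import Pool.Agent.Lib.MP_177a0e_gt.LT.SG
import Pool.Agent.Lib.MP_177a0e_gt.LT.SI

/-!
# one more word above a normal form: tools, crossings, minima.
-/

namespace Pool.Agent.Lib.MP_177a0e_gt.LT

open Pool.Agent.Lib.MP_177a0e_gt.Tangle Pool.Agent.Lib.MP_177a0e_gt.Tangle.Gen
open Pool.Agent.Lib.MP_177a0e_gt.Sig

/-- the word `u` above the normal form `S` leads to a normal form with `k` more crossings, the number of saddles
and the change of `rr` have the sum `δ` -/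
def Stw (S : Fo) (u : Word) (e : List Bool) (δ k : ℕ) : Prop :=
  ∃ (S' : Fo) (s : ℕ), lev S' = e ∧ Cob [] e 0 s 0 (W S ++ u) (W S') ∧ s + rr S' = rr S + δ ∧ tw S' = tw S + k

theorem Stw.refl (S : Fo) : Stw S [] (lev S) 0 0 :=
  ⟨S, 0, rfl, by simpa using Cob.refl (W_valid S), by simp, rfl⟩

/-- a movie of the upper word first -/
theorem Stw.movie {S : Fo} {u u' : Word} {e : List Bool} {δ k s : ℕ} (h : Stw S u' e δ k)
    (h' : Cob (lev S) e 0 s 0 u u') : Stw S u e (δ + s) k := by
  obtain ⟨S', t, h1, h2, h3, h4⟩ := h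
  exact ⟨S', s + t, h1, (rb_top h' (W_valid S)).trans h2, by omega, h4⟩

/-- two words -/
theorem Stw.trans {S : Fo} {u v : Word} {e f : List Bool} {δ k δ' k' : ℕ} (h : Stw S u e δ k)
    (hv : Valid e v f) (h' : ∀ S', lev S' = e → Stw S' v f δ' k') : Stw S (u ++ v) f (δ + δ') (k + k') := by
  obtain ⟨S', s, h1, h2, h3, h4⟩ := h
  obtain ⟨S'', t, g1, g2, g3, g4⟩ := h' S' h1
  refine ⟨S'', s + t, g1, ?_, by omega, by omega⟩
  have c1 := rb_bot h2 hv
  rw [List.append_assoc] at c1
  exact c1.trans g2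

/-- a forest may be inserted -/
theorem ins_step (S X : Fo) (p q : List Bool) (hp : p.length % 2 = 0) (h : p ++ q = lev S) :
    ∃ S' : Fo, lev S' = p ++ lev X ++ q ∧ Iso [] (p ++ lev X ++ q) (W S ++ cx p (W X) q) (W S') ∧
      rr S' = rr S + rr X ∧ tw S' = tw S + tw X := by
  obtain ⟨C, rfl, rfl, rfl⟩ := loc_gap S p q hp h
  exact ⟨fill C X, lev_fill C X, (W_fill C X).symm, rr_fill C X, tw_fill C X⟩

/-- a step inside a context -/
theorem ctx_step (C : Ctx) {X X' : Fo} {u : Word} {s : ℕ} (h : Cob [] (lev X') 0 s 0 (W X ++ u) (W X'))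
    (hu : Valid (lev X) u (lev X')) :
    Cob [] (pre C ++ lev X' ++ post C) 0 s 0 (W (fill C X) ++ cx (pre C) u (post C)) (W (fill C X')) := by
  have h1 := rb_bot (W_fill C X) (cx_valid hu (pre C) (post C))
  have v0 : Valid [] (W (fill C .nil)) (pre C ++ [] ++ post C) := by
    have := W_valid (fill C .nil)
    rw [lev_fill] at this
    exact this
  have h2 := rb_top (cx_cob h (pre C) (post C)) v0
  rw [cx_append, ← List.append_assoc] at h2
  exact ((h1.trans h2).trans (W_fill C X').symm).cast rfl (by omega) rfl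

theorem ctx_stw (C : Ctx) {X : Fo} {u : Word} {e : List Bool} {δ k : ℕ} (h : Stw X u e δ k)
    (hu : Valid (lev X) u e) : Stw (fill C X) (cx (pre C) u (post C)) (pre C ++ e ++ post C) δ k := by
  obtain ⟨X', s, h1, h2, h3, h4⟩ := h
  subst h1
  refine ⟨fill C X', s, lev_fill C X', ctx_step C h2 hu, ?_, ?_⟩
  · rw [rr_fill C X, rr_fill C X']
    omega
  · rw [tw_fill C X, tw_fill C X']
    omega

theorem W_arc (a : Bool) (n : ℕ) (i : Fo) : W (.arc a n i .nil) = arcw a n ++ cx [a, a] (W i) [!a, !a] := by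
  simp [W]

theorem lev_arc (a : Bool) (n : ℕ) (i : Fo) : lev (.arc a n i .nil) = [a, a] ++ lev i ++ [!a, !a] := by
  simp [lev]

theorem W_flat (a : Bool) (o : Option ℕ) : W (.flat a o .nil) = flatw a o := by
  simp [W]

/-- a crossing of the left pair of an arc -/
theorem arc_left_cross (a : Bool) (n : ℕ) (i : Fo) :
    Stw (.arc a n i .nil) [⟨[], cross true a a, lev i ++ [!a, !a]⟩] (lev (.arc a n i .nil)) 0 1 := by
  refine ⟨.arc a (n + 1) i .nil, 0, rfl, ?_, by simp [rr], by simp [tw]; ring⟩
  rw [W_arc, W_arc, lev_arc]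
  have hu : Valid [a, a] [⟨[], cross true a a, []⟩] [a, a] := ⟨rfl, rfl⟩
  have h1 := (cx_comm hu (W_valid i) [] [] [!a, !a]).symm
  have h1' : Iso ([a, a] ++ [!a, !a]) ([a, a] ++ lev i ++ [!a, !a])
      (cx [a, a] (W i) [!a, !a] ++ [⟨[], cross true a a, lev i ++ [!a, !a]⟩])
      ([⟨[], cross true a a, [!a, !a]⟩] ++ cx [a, a] (W i) [!a, !a]) := by
    simpa using h1
  have h2 := rb_top h1' (arcw_valid a n)
  have e : arcw a n ++ ([⟨[], cross true a a, [!a, !a]⟩] ++ cx [a, a] (W i) [!a, !a]) =
      arcw a (n + 1) ++ cx [a, a] (W i) [!a, !a] := by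
    rw [arcw, arcw, List.replicate_succ']
    simp
  rw [e, ← List.append_assoc] at h2
  exact h2

/-- a crossing of the right pair of an arc -/
theorem arc_right_cross (a : Bool) (n : ℕ) (i : Fo) :
    Stw (.arc a n i .nil) [⟨[a, a] ++ lev i, cross true (!a) (!a), []⟩] (lev (.arc a n i .nil)) 0 1 := by
  refine ⟨.arc a (n + 1) i .nil, 0, rfl, ?_, by simp [rr], by simp [tw]; ring⟩
  rw [W_arc, W_arc, lev_arc]
  have hv : Valid [!a, !a] [⟨[], cross true (!a) (!a), []⟩] [!a, !a] := ⟨rfl, rfl⟩
  have h1 := cx_comm (W_valid i) hv [a, a] [] []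
  have h1' : Iso ([a, a] ++ [!a, !a]) ([a, a] ++ lev i ++ [!a, !a])
      (cx [a, a] (W i) [!a, !a] ++ [⟨[a, a] ++ lev i, cross true (!a) (!a), []⟩])
      ([⟨[a, a], cross true (!a) (!a), []⟩] ++ cx [a, a] (W i) [!a, !a]) := by
    simpa using h1
  have h2 := rb_top h1' (arcw_valid a n)
  have vi : Valid [a, a, !a, !a] (cx [a, a] (W i) [!a, !a]) ([a, a] ++ lev i ++ [!a, !a]) := by
    simpa using cx_valid (W_valid i) [a, a] [!a, !a]
  have h3 := rb_bot (arc_right a n) vi
  rw [← List.append_assoc, ← List.append_assoc] at h2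
  exact h2.trans h3

/-- a crossing of two parallel strands -/
theorem step_par (S : Fo) (p : List Bool) (u : Bool) (q : List Bool) (hp : p.length % 2 = 0)
    (h : p ++ u :: u :: q = lev S) : Stw S [⟨p, cross true u u, q⟩] (lev S) 0 1 := by
  rcases loc_pair S p u u q hp h with ⟨h1, -⟩ | ⟨-, ⟨C, n, i, rfl, rfl, rfl⟩ | ⟨C, n, i, rfl, rfl, rfl⟩⟩
  · exact absurd h1 (by cases u <;> decide)
  · have h2 := ctx_stw C (arc_left_cross u n i) ⟨by simp [Slice.src, Gen.src, lev], by simp [Slice.tgt, Gen.tgt, lev, Valid]⟩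
    have e : (pre C ++ lev (.arc u n i .nil) ++ post C) = lev (fill C (.arc u n i .nil)) := (lev_fill C _).symm
    rw [e] at h2
    simpa [cx] using h2
  · have h2 := ctx_stw C (arc_right_cross (!u) n i) ⟨by simp [Slice.src, Gen.src, lev], by simp [Slice.tgt, Gen.tgt, lev, Valid]⟩
    have e : (pre C ++ lev (.arc (!u) n i .nil) ++ post C) = lev (fill C (.arc (!u) n i .nil)) := (lev_fill C _).symm
    rw [e] at h2
    simpa [cx] using h2

/-- `n` crossings of two parallel strands -/
theorem step_pars (p : List Bool) (u : Bool) (q : List Bool) (hp : p.length % 2 = 0) (n : ℕ) : ∀ S : Fo,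
    p ++ u :: u :: q = lev S → Stw S (List.replicate n ⟨p, cross true u u, q⟩) (lev S) 0 n := by
  induction n with
  | zero => exact fun S _ => Stw.refl S
  | succ n ih =>
    intro S h
    rw [List.replicate_succ]
    have h1 := (step_par S p u q hp h).trans (v := List.replicate n ⟨p, cross true u u, q⟩) (f := lev S)
      (δ' := 0) (k' := n)
      (rep_ok (by rw [← h]; simp [Slice.src, Gen.src]) (by rw [← h]; simp [Slice.tgt, Gen.tgt]) n)
      (fun S' h' => by
        have := ih S' (h.trans h'.symm)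
        rw [h'] at this
        exact this)
    rw [Nat.add_comm n 1]
    exact h1

/-- a crossing of two opposite strands -/
theorem step_opp (s : Bool) (S : Fo) (p : List Bool) (u : Bool) (q : List Bool) (hp : p.length % 2 = 0)
    (h : p ++ u :: (!u) :: q = lev S) : Stw S [⟨p, cross s u (!u), q⟩] (p ++ (!u) :: u :: q) 0 0 := by
  rcases loc_pair S p u (!u) q hp h with ⟨-, C, o, rfl, rfl, rfl⟩ | ⟨h1, -⟩
  · have h1 : Stw (.flat u o .nil) [⟨[], cross s u (!u), []⟩] [!u, u] 0 0 := by
      refine ⟨.flat (!u) o .nil, 0, by simp [lev], ?_, by simp [rr], by simp [tw]⟩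
      rw [W_flat, W_flat]
      exact flat_cross s u o
    have h2 := ctx_stw C h1 ⟨rfl, rfl⟩
    simpa [cx] using h2
  · exact absurd h1 (by cases u <;> decide)

/-- a crossing at an even position -/
theorem step_cross (S : Fo) (p : List Bool) (x y : Bool) (q : List Bool) (hp : p.length % 2 = 0)
    (h : p ++ x :: y :: q = lev S) :
    Stw S [⟨p, cross true x y, q⟩] (p ++ y :: x :: q) 0 (if gpos (cross true x y) then 1 else 0) := by
  by_cases e : y = x
  · subst e
    have h1 := step_par S p y q hp h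
    rw [← h] at h1
    have e1 : gpos (cross true y y) = true := by cases y <;> rfl
    rw [e1]
    exact h1
  · have e2 : y = !x := by cases x <;> cases y <;> simp_all
    subst e2
    have e1 : gpos (cross true x (!x)) = false := by cases x <;> rfl
    rw [e1]
    exact step_opp true S p x q hp h

/-- a crossing at an even position, of any type -/
theorem step_crs (s : Bool) (S : Fo) (p : List Bool) (x y : Bool) (q : List Bool) (hp : p.length % 2 = 0)
    (h : p ++ x :: y :: q = lev S) :
    Stw S [⟨p, cross s x y, q⟩] (p ++ y :: x :: q) (if !s && gneg (cross s x y) then 1 else 0)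
      (if s && gpos (cross s x y) then 1 else 0) := by
  cases s
  · by_cases e : y = x
    · subst e
      have h1 : Cob (lev S) (lev S) 0 1 0 [⟨p, cross false y y, q⟩] [] := by
        rw [← h]
        simpa using smooth_par false y p q
      have h2 := (Stw.refl S).movie h1
      rw [← h] at h2
      have e1 : gneg (cross false y y) = true := by cases y <;> rfl
      rw [e1]
      exact h2
    · have e2 : y = !x := by cases x <;> cases y <;> simp_all
      subst e2
      have e1 : gneg (cross false x (!x)) = false := by cases x <;> rfl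
      rw [e1]
      exact step_opp false S p x q hp h
  · exact step_cross S p x y q hp h

/-- a minimum inside a pair of strands -/
theorem step_cup (S : Fo) (p : List Bool) (u v x : Bool) (q : List Bool) (hp : p.length % 2 = 0)
    (h : p ++ u :: v :: q = lev S) :
    Stw S [⟨p ++ [u], cup x, v :: q⟩] (p ++ u :: x :: (!x) :: v :: q) 1 0 := by
  by_cases e : x = v
  · subst e
    have h1 := cx_cob (cup_right u x) p q
    obtain ⟨S', e1, c1, r1, t1⟩ := ins_step S (.flat (!x) none .nil) (p ++ [u, x]) q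
      (by simp; omega) (by simpa using h)
    have e2 : lev (.flat (!x) none .nil) = [!x, x] := by simp [lev]
    rw [W_flat, e2] at c1
    rw [e2] at e1
    have h2 : Stw S (cx p [⟨[u, x], cup (!x), []⟩] q) (p ++ u :: x :: (!x) :: x :: q) 0 0 := by
      refine ⟨S', 0, by rw [e1]; simp, ?_, by rw [r1]; simp [rr, on], by rw [t1]; simp [tw, ot]⟩
      simpa [flatw, cx] using c1
    have h3 := h2.movie (u := [⟨p ++ [u], cup x, x :: q⟩]) (s := 1) (by rw [← h]; simpa [cx] using h1)
    exact h3
  · by_cases e' : x = !u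
    · subst e'
      have h1 := cx_cob (cup_left u v) p q
      obtain ⟨S', e1, c1, r1, t1⟩ := ins_step S (.flat u none .nil) p (u :: v :: q) hp h
      have e2 : lev (.flat u none .nil) = [u, !u] := by simp [lev]
      rw [W_flat, e2] at c1
      rw [e2] at e1
      have h2 : Stw S (cx p [⟨[], cup u, [u, v]⟩] q) (p ++ u :: (!u) :: (!(!u)) :: v :: q) 0 0 := by
        refine ⟨S', 0, by rw [e1]; simp, ?_, by rw [r1]; simp [rr, on], by rw [t1]; simp [tw, ot]⟩
        simpa [flatw, cx] using c1
      have h3 := h2.movie (u := [⟨p ++ [u], cup (!u), v :: q⟩]) (s := 1) (by rw [← h]; simpa [cx] using h1)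
      exact h3
    · have e1 : x = u := by cases x <;> cases u <;> simp_all
      have e2 : v = !u := by cases x <;> cases u <;> cases v <;> simp_all
      subst e1 e2
      rcases loc_pair S p x (!x) q hp h with ⟨-, C, o, rfl, rfl, rfl⟩ | ⟨h1, -⟩
      · have h1 : Stw (.flat x o .nil) [⟨[x], cup x, [!x]⟩] [x, x, !x, !x] 1 0 := by
          refine ⟨.arc x (ot o) .nil .nil, on o, rfl, ?_, ?_, ?_⟩
          · rw [W_flat, W_arc]
            simpa [W] using cup_in x o
          · simp [rr]
          · simp [tw]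
        have h2 := ctx_stw C h1 ⟨rfl, rfl⟩
        simpa [cx] using h2
      · exact absurd h1 (by cases x <;> decide)

end Pool.Agent.Lib.MP_177a0e_gt.LT
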