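import Pool.Agent.Lib.MP_177a0e_gt.LT.SJ

/-!
# one more maximum above a normal form.
-/

namespace Pool.Agent.Lib.MP_177a0e_gt.LT

open Pool.Agent.Lib.MP_177a0e_gt.Tangle Pool.Agent.Lib.MP_177a0e_gt.Tangle.Gen
open Pool.Agent.Lib.MP_177a0e_gt.Sig

/-- two ribbons become one: nested on the left -/
theorem rib_left (x : Bool) (n m : ℕ) (i j : Fo) :
    Iso [] (lev i ++ [x, x] ++ lev j ++ [!x, !x]) (W (.arc x n (.arc (!x) m i j) .nil) ++
      cx [] (rc x) (lev i ++ [x, x] ++ lev j ++ [!x, !x])) (W (app i (.arc x (n + m) j .nil))) := by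
  rw [W_arc, W_app, W_arc]
  -- the inner forests are inserted after the ribbon cap
  have e1 : W (.arc (!x) m i j) = arcw (!x) m ++ (cx [!x, !x] (W i) [x, x] ++ cx ([!x, !x] ++ lev i ++ [x, x]) (W j) []) := by
    simp [W]
  rw [e1]
  have vi := W_valid i
  have vj := W_valid j
  have hr : Valid [x, x, !x, !x] (rc x) [] := rc_valid x
  -- exchange with `j`
  have s1 := (cx_comm hr vj [] (lev i ++ [x, x]) [!x, !x]).symm
  -- exchange with `i`
  have s2 := (cx_comm hr vi [] [] ([x, x] ++ [!x, !x])).symm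
  have v0 : Valid [] (arcw x n ++ cx [x, x] (arcw (!x) m) [!x, !x]) [x, x, !x, !x, x, x, !x, !x] := by
    refine (arcw_valid x n).append ?_
    simpa using cx_valid (arcw_valid (!x) m) [x, x] [!x, !x]
  have v1 : Valid [x, x, !x, !x, x, x, !x, !x] (cx [x, x, !x, !x] (W i) [x, x, !x, !x])
      ([x, x, !x, !x] ++ lev i ++ [x, x, !x, !x]) := cx_valid vi [x, x, !x, !x] [x, x, !x, !x]
  have t1 : Iso ([x, x, !x, !x] ++ lev i ++ [x, x, !x, !x]) (lev i ++ [x, x] ++ lev j ++ [!x, !x])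
      (cx ([x, x, !x, !x] ++ lev i ++ [x, x]) (W j) [!x, !x] ++ cx [] (rc x) (lev i ++ [x, x] ++ lev j ++ [!x, !x]))
      (cx [] (rc x) (lev i ++ [x, x] ++ [!x, !x]) ++ cx (lev i ++ [x, x]) (W j) [!x, !x]) := by
    simpa [List.append_assoc] using s1
  have t2 : Iso ([x, x, !x, !x] ++ [x, x, !x, !x]) (lev i ++ [x, x, !x, !x])
      (cx [x, x, !x, !x] (W i) [x, x, !x, !x] ++ cx [] (rc x) (lev i ++ [x, x] ++ [!x, !x]))
      (cx [] (rc x) ([x, x] ++ [!x, !x]) ++ cx [] (W i) [x, x, !x, !x]) := by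
    simpa [List.append_assoc] using s2
  have c0 := rb_top t1 (v0.append v1)
  have vj' : Valid (lev i ++ [x, x, !x, !x]) (cx (lev i ++ [x, x]) (W j) [!x, !x])
      (lev i ++ [x, x] ++ lev j ++ [!x, !x]) := by
    simpa [List.append_assoc] using cx_valid vj (lev i ++ [x, x]) [!x, !x]
  have c1 := rb_bot (rb_top t2 v0) vj'
  have c2 : Iso [] [x, x, !x, !x] ((arcw x n ++ cx [x, x] (arcw (!x) m) [!x, !x]) ++ cx [] (rc x) [x, x, !x, !x])
      (arcw x (n + m)) := rc_left x n m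
  have vi' : Valid [x, x, !x, !x] (cx [] (W i) [x, x, !x, !x]) (lev i ++ [x, x, !x, !x]) := by
    simpa using cx_valid vi [] [x, x, !x, !x]
  have c3 := rb_bot (rb_bot c2 vi') vj'
  -- `i` and the new arc change places
  have s3 := (cx_comm vi (arcw_valid x (n + m)) [] [] []).symm
  have t3 : Iso [] (lev i ++ [x, x, !x, !x]) (arcw x (n + m) ++ cx [] (W i) [x, x, !x, !x])
      (W i ++ cx (lev i) (arcw x (n + m)) []) := by
    simpa [cx_id] using s3
  have c4 := rb_bot t3 vj'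
  have f1 : arcw x n ++ cx [x, x] (arcw (!x) m ++ (cx [!x, !x] (W i) [x, x] ++
      cx ([!x, !x] ++ lev i ++ [x, x]) (W j) [])) [!x, !x] ++ cx [] (rc x) (lev i ++ [x, x] ++ lev j ++ [!x, !x]) =
      arcw x n ++ cx [x, x] (arcw (!x) m) [!x, !x] ++ cx [x, x, !x, !x] (W i) [x, x, !x, !x] ++
      (cx ([x, x, !x, !x] ++ lev i ++ [x, x]) (W j) [!x, !x] ++ cx [] (rc x) (lev i ++ [x, x] ++ lev j ++ [!x, !x])) := by
    simp [cx_append, cx_cx, List.append_assoc]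
  have f2 : arcw x n ++ cx [x, x] (arcw (!x) m) [!x, !x] ++ cx [x, x, !x, !x] (W i) [x, x, !x, !x] ++
      (cx [] (rc x) (lev i ++ [x, x] ++ [!x, !x]) ++ cx (lev i ++ [x, x]) (W j) [!x, !x]) =
      arcw x n ++ cx [x, x] (arcw (!x) m) [!x, !x] ++ (cx [x, x, !x, !x] (W i) [x, x, !x, !x] ++
      cx [] (rc x) (lev i ++ [x, x] ++ [!x, !x])) ++ cx (lev i ++ [x, x]) (W j) [!x, !x] := by
    simp [List.append_assoc]
  have f3 : arcw x n ++ cx [x, x] (arcw (!x) m) [!x, !x] ++ (cx [] (rc x) ([x, x] ++ [!x, !x]) ++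
      cx [] (W i) [x, x, !x, !x]) ++ cx (lev i ++ [x, x]) (W j) [!x, !x] =
      arcw x n ++ cx [x, x] (arcw (!x) m) [!x, !x] ++ cx [] (rc x) [x, x, !x, !x] ++ cx [] (W i) [x, x, !x, !x] ++
      cx (lev i ++ [x, x]) (W j) [!x, !x] := by
    simp [List.append_assoc]
  have f4 : W i ++ cx (lev i) (arcw x (n + m)) [] ++ cx (lev i ++ [x, x]) (W j) [!x, !x] =
      W i ++ cx (lev i) (arcw x (n + m) ++ cx [x, x] (W j) [!x, !x]) [] := by
    simp [cx_append, cx_cx, List.append_assoc]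
  rw [f1, ← f4]
  rw [f2] at c0
  rw [f3] at c1
  exact ((c0.trans c1).trans c3).trans c4

/-- two ribbons become one: nested on the right -/
theorem rib_right (x : Bool) (n m : ℕ) (i j : Fo) :
    Iso [] ([x, x] ++ lev i ++ [!x, !x] ++ lev j) (W (.arc x n (app i (.arc (!x) m j .nil)) .nil) ++
      cx ([x, x] ++ lev i ++ [!x, !x] ++ lev j) (rc x) []) (W (.arc x (n + m) i j)) := by
  have vi := W_valid i
  have vj := W_valid j
  have hr : Valid [x, x, !x, !x] (rc x) [] := rc_valid x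
  have va : Valid [] (arcw (!x) m) [!x, !x, x, x] := by
    have := arcw_valid (!x) m
    rwa [Bool.not_not] at this
  have s1 := cx_comm vj hr ([x, x] ++ lev i ++ [!x, !x]) [] []
  have s2 := cx_comm vi va [x, x] [] [!x, !x]
  have s3 := cx_comm vi hr [x, x] [!x, !x] []
  have t1 : Iso ([x, x] ++ lev i ++ [!x, !x] ++ [x, x, !x, !x]) ([x, x] ++ lev i ++ [!x, !x] ++ lev j)
      (cx ([x, x] ++ lev i ++ [!x, !x]) (W j) [x, x, !x, !x] ++ cx ([x, x] ++ lev i ++ [!x, !x] ++ lev j) (rc x) [])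
      (cx ([x, x] ++ lev i ++ [!x, !x]) (rc x) [] ++ cx ([x, x] ++ lev i ++ [!x, !x]) (W j) []) := by
    simpa [List.append_assoc] using s1
  have t2 : Iso [x, x, !x, !x] ([x, x] ++ lev i ++ [!x, !x] ++ [x, x, !x, !x])
      (cx [x, x] (W i) [!x, !x] ++ cx ([x, x] ++ lev i) (arcw (!x) m) [!x, !x])
      (cx [x, x] (arcw (!x) m) [!x, !x] ++ cx [x, x] (W i) [!x, !x, x, x, !x, !x]) := by
    simpa [List.append_assoc] using s2
  have t3 : Iso [x, x, !x, !x, x, x, !x, !x] ([x, x] ++ lev i ++ [!x, !x])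
      (cx [x, x] (W i) [!x, !x, x, x, !x, !x] ++ cx ([x, x] ++ lev i ++ [!x, !x]) (rc x) [])
      (cx [x, x, !x, !x] (rc x) [] ++ cx [x, x] (W i) [!x, !x]) := by
    simpa [List.append_assoc] using s3
  have v1 : Valid [] (arcw x n ++ (cx [x, x] (W i) [!x, !x] ++ cx ([x, x] ++ lev i) (arcw (!x) m) [!x, !x]))
      ([x, x] ++ lev i ++ [!x, !x] ++ [x, x, !x, !x]) := (arcw_valid x n).append t2.valid.1
  have c0 := rb_top t1 v1
  have v2 : Valid ([x, x] ++ lev i ++ [!x, !x] ++ [x, x, !x, !x])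
      (cx ([x, x] ++ lev i ++ [!x, !x]) (rc x) [] ++ cx ([x, x] ++ lev i ++ [!x, !x]) (W j) [])
      ([x, x] ++ lev i ++ [!x, !x] ++ lev j) := t1.valid.2
  have c1 := rb_bot (rb_top t2 (arcw_valid x n)) v2
  have v3 : Valid [] (arcw x n ++ cx [x, x] (arcw (!x) m) [!x, !x]) [x, x, !x, !x, x, x, !x, !x] := by
    refine (arcw_valid x n).append ?_
    simpa using cx_valid va [x, x] [!x, !x]
  have v4 : Valid ([x, x] ++ lev i ++ [!x, !x]) (cx ([x, x] ++ lev i ++ [!x, !x]) (W j) [])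
      ([x, x] ++ lev i ++ [!x, !x] ++ lev j) := by
    simpa using cx_valid vj ([x, x] ++ lev i ++ [!x, !x]) []
  have c2 := rb_bot (rb_top t3 v3) v4
  have v5 : Valid [x, x, !x, !x] (cx [x, x] (W i) [!x, !x]) ([x, x] ++ lev i ++ [!x, !x]) := by
    simpa using cx_valid vi [x, x] [!x, !x]
  have c3 := rb_bot (rb_bot (rc_right x n m) v5) v4
  have f0 : W (.arc x n (app i (.arc (!x) m j .nil)) .nil) ++ cx ([x, x] ++ lev i ++ [!x, !x] ++ lev j) (rc x) [] =
      arcw x n ++ (cx [x, x] (W i) [!x, !x] ++ cx ([x, x] ++ lev i) (arcw (!x) m) [!x, !x]) ++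
      (cx ([x, x] ++ lev i ++ [!x, !x]) (W j) [x, x, !x, !x] ++
      cx ([x, x] ++ lev i ++ [!x, !x] ++ lev j) (rc x) []) := by
    rw [W_arc, W_app, W_arc]
    simp [cx_append, cx_cx, List.append_assoc]
  have f1 : arcw x n ++ (cx [x, x] (W i) [!x, !x] ++ cx ([x, x] ++ lev i) (arcw (!x) m) [!x, !x]) ++
      (cx ([x, x] ++ lev i ++ [!x, !x]) (rc x) [] ++ cx ([x, x] ++ lev i ++ [!x, !x]) (W j) []) =
      arcw x n ++ (cx [x, x] (W i) [!x, !x] ++ cx ([x, x] ++ lev i) (arcw (!x) m) [!x, !x]) ++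
      (cx ([x, x] ++ lev i ++ [!x, !x]) (rc x) [] ++ cx ([x, x] ++ lev i ++ [!x, !x]) (W j) []) := rfl
  have f2 : arcw x n ++ (cx [x, x] (arcw (!x) m) [!x, !x] ++ cx [x, x] (W i) [!x, !x, x, x, !x, !x]) ++
      (cx ([x, x] ++ lev i ++ [!x, !x]) (rc x) [] ++ cx ([x, x] ++ lev i ++ [!x, !x]) (W j) []) =
      arcw x n ++ cx [x, x] (arcw (!x) m) [!x, !x] ++ (cx [x, x] (W i) [!x, !x, x, x, !x, !x] ++
      cx ([x, x] ++ lev i ++ [!x, !x]) (rc x) []) ++ cx ([x, x] ++ lev i ++ [!x, !x]) (W j) [] := by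
    simp [List.append_assoc]
  have f3 : arcw x n ++ cx [x, x] (arcw (!x) m) [!x, !x] ++ (cx [x, x, !x, !x] (rc x) [] ++
      cx [x, x] (W i) [!x, !x]) ++ cx ([x, x] ++ lev i ++ [!x, !x]) (W j) [] =
      arcw x n ++ cx [x, x] (arcw (!x) m) [!x, !x] ++ cx [x, x, !x, !x] (rc x) [] ++ cx [x, x] (W i) [!x, !x] ++
      cx ([x, x] ++ lev i ++ [!x, !x]) (W j) [] := by
    simp [List.append_assoc]
  have f4 : W (.arc x (n + m) i j) = arcw x (n + m) ++ cx [x, x] (W i) [!x, !x] ++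
      cx ([x, x] ++ lev i ++ [!x, !x]) (W j) [] := by
    simp [W]
  rw [f0, f4]
  rw [f2] at c1
  rw [f3] at c2
  exact ((c0.trans c1).trans c2).trans c3

/-- two ribbons become one: side by side -/
theorem rib_side (a : Bool) (n m : ℕ) (i j : Fo) :
    Iso [] ([a, a] ++ lev i ++ lev j ++ [!a, !a]) (W (.arc a n i (.arc a m j .nil)) ++
      cx ([a, a] ++ lev i) (rc (!a)) (lev j ++ [!a, !a])) (W (.arc a (n + m) (app i j) .nil)) := by
  have vi := W_valid i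
  have vj := W_valid j
  have hr : Valid [!a, !a, a, a] (rc (!a)) [] := by
    have := rc_valid (!a)
    rwa [Bool.not_not] at this
  have va : Valid [] (arcw a m) [a, a, !a, !a] := arcw_valid a m
  have s1 := (cx_comm hr vj ([a, a] ++ lev i) [] [!a, !a]).symm
  have s2 := cx_comm vi va [a, a] [!a, !a] []
  have s3 := cx_comm vi hr [a, a] [] [!a, !a]
  have t1 : Iso ([a, a] ++ lev i ++ [!a, !a, a, a, !a, !a]) ([a, a] ++ lev i ++ lev j ++ [!a, !a])
      (cx ([a, a] ++ lev i ++ [!a, !a, a, a]) (W j) [!a, !a] ++ cx ([a, a] ++ lev i) (rc (!a)) (lev j ++ [!a, !a]))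
      (cx ([a, a] ++ lev i) (rc (!a)) [!a, !a] ++ cx ([a, a] ++ lev i) (W j) [!a, !a]) := by
    simpa [List.append_assoc] using s1
  have t2 : Iso [a, a, !a, !a] ([a, a] ++ lev i ++ [!a, !a, a, a, !a, !a])
      (cx [a, a] (W i) [!a, !a] ++ cx ([a, a] ++ lev i ++ [!a, !a]) (arcw a m) [])
      (cx [a, a, !a, !a] (arcw a m) [] ++ cx [a, a] (W i) [!a, !a, a, a, !a, !a]) := by
    simpa [List.append_assoc] using s2
  have t3 : Iso [a, a, !a, !a, a, a, !a, !a] ([a, a] ++ lev i ++ [!a, !a])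
      (cx [a, a] (W i) [!a, !a, a, a, !a, !a] ++ cx ([a, a] ++ lev i) (rc (!a)) [!a, !a])
      (cx [a, a] (rc (!a)) [!a, !a] ++ cx [a, a] (W i) [!a, !a]) := by
    simpa [List.append_assoc] using s3
  have v1 : Valid [] (arcw a n ++ (cx [a, a] (W i) [!a, !a] ++ cx ([a, a] ++ lev i ++ [!a, !a]) (arcw a m) []))
      ([a, a] ++ lev i ++ [!a, !a, a, a, !a, !a]) := (arcw_valid a n).append t2.valid.1
  have c0 := rb_top t1 v1
  have c1 := rb_bot (rb_top t2 (arcw_valid a n)) t1.valid.2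
  have v3 : Valid [] (arcw a n ++ cx [a, a, !a, !a] (arcw a m) []) [a, a, !a, !a, a, a, !a, !a] := by
    refine (arcw_valid a n).append ?_
    simpa using cx_valid va [a, a, !a, !a] []
  have v4 : Valid ([a, a] ++ lev i ++ [!a, !a]) (cx ([a, a] ++ lev i) (W j) [!a, !a])
      ([a, a] ++ lev i ++ lev j ++ [!a, !a]) := by
    simpa using cx_valid vj ([a, a] ++ lev i) [!a, !a]
  have c2 := rb_bot (rb_top t3 v3) v4
  have v5 : Valid [a, a, !a, !a] (cx [a, a] (W i) [!a, !a]) ([a, a] ++ lev i ++ [!a, !a]) := by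
    simpa using cx_valid vi [a, a] [!a, !a]
  have c3 := rb_bot (rb_bot (rc_side a n m) v5) v4
  have f0 : W (.arc a n i (.arc a m j .nil)) ++ cx ([a, a] ++ lev i) (rc (!a)) (lev j ++ [!a, !a]) =
      arcw a n ++ (cx [a, a] (W i) [!a, !a] ++ cx ([a, a] ++ lev i ++ [!a, !a]) (arcw a m) []) ++
      (cx ([a, a] ++ lev i ++ [!a, !a, a, a]) (W j) [!a, !a] ++
      cx ([a, a] ++ lev i) (rc (!a)) (lev j ++ [!a, !a])) := by
    have e : W (.arc a n i (.arc a m j .nil)) = arcw a n ++ (cx [a, a] (W i) [!a, !a] ++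
        cx ([a, a] ++ lev i ++ [!a, !a]) (W (.arc a m j .nil)) []) := rfl
    rw [e, W_arc]
    simp [cx_append, cx_cx, List.append_assoc]
  have f2 : arcw a n ++ (cx [a, a, !a, !a] (arcw a m) [] ++ cx [a, a] (W i) [!a, !a, a, a, !a, !a]) ++
      (cx ([a, a] ++ lev i) (rc (!a)) [!a, !a] ++ cx ([a, a] ++ lev i) (W j) [!a, !a]) =
      arcw a n ++ cx [a, a, !a, !a] (arcw a m) [] ++ (cx [a, a] (W i) [!a, !a, a, a, !a, !a] ++
      cx ([a, a] ++ lev i) (rc (!a)) [!a, !a]) ++ cx ([a, a] ++ lev i) (W j) [!a, !a] := by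
    simp [List.append_assoc]
  have f3 : arcw a n ++ cx [a, a, !a, !a] (arcw a m) [] ++ (cx [a, a] (rc (!a)) [!a, !a] ++
      cx [a, a] (W i) [!a, !a]) ++ cx ([a, a] ++ lev i) (W j) [!a, !a] =
      arcw a n ++ cx [a, a, !a, !a] (arcw a m) [] ++ cx [a, a] (rc (!a)) [!a, !a] ++ cx [a, a] (W i) [!a, !a] ++
      cx ([a, a] ++ lev i) (W j) [!a, !a] := by
    simp [List.append_assoc]
  have f4 : W (.arc a (n + m) (app i j) .nil) = arcw a (n + m) ++ cx [a, a] (W i) [!a, !a] ++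
      cx ([a, a] ++ lev i) (W j) [!a, !a] := by
    rw [W_arc, W_app]
    simp [cx_append, cx_cx, List.append_assoc]
  rw [f0, f4]
  rw [f2] at c1
  rw [f3] at c2
  exact ((c0.trans c1).trans c2).trans c3

end Pool.Agent.Lib.MP_177a0e_gt.LT
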