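import Pool.Agent.Lib.MP_177a0e_gt.LT.SL

/-!
# one more maximum above a normal form: the step.
-/

namespace Pool.Agent.Lib.MP_177a0e_gt.LT

open Pool.Agent.Lib.MP_177a0e_gt.Tangle Pool.Agent.Lib.MP_177a0e_gt.Tangle.Gen
open Pool.Agent.Lib.MP_177a0e_gt.Sig

theorem xs_valid (n : ℕ) (x : Bool) (p q : List Bool) :
    Valid (p ++ x :: x :: q) (List.replicate n ⟨p, cross true x x, q⟩) (p ++ x :: x :: q) :=
  rep_ok (by simp [Slice.src, Gen.src]) (by simp [Slice.tgt, Gen.tgt]) n

/-- a torus link on the left side of the right strand of a pair -/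
theorem step_locb (S : Fo) (p : List Bool) (u x : Bool) (q : List Bool) (o : Option ℕ) (hp : p.length % 2 = 0)
    (h : p ++ u :: x :: q = lev S) :
    Stw S (cx (p ++ [u]) (locb x o) q) (p ++ u :: x :: q) (on o) (ot o) := by
  cases o with
  | none =>
    rw [h]
    exact Stw.refl S
  | some n =>
    show Stw S (cx (p ++ [u]) (tkb x n) q) (p ++ u :: x :: q) 1 n
    by_cases e : u = x
    · subst e
      have h1 := step_pars p u q hp n S h
      have h2 := cx_cob (abs_right u n) p q
      rw [cx_cx] at h2
      have h3 : Cob (lev S) (lev S) 0 1 0 (cx (p ++ [u]) (tkb u n) q) (List.replicate n ⟨p, cross true u u, q⟩) := by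
        rw [← h]
        simpa [cx, List.map_replicate] using h2
      have h4 := h1.movie h3
      rw [← h] at h4
      simpa using h4
    · have e1 : u = !x := by cases x <;> cases u <;> simp_all
      subst e1
      have hx : (!(!x)) = x := Bool.not_not x
      rcases loc_pair S p (!x) x q hp h with ⟨-, C, o', rfl, rfl, rfl⟩ | ⟨h1, -⟩
      · have v : Valid [!x, x] (cx [!x] (tkb x n) []) [!x, x] := by
          simpa using cx_valid (tkb_valid x n) [!x] []
        have h1 : Stw (.flat (!x) o' .nil) (cx [!x] (tkb x n) []) [!x, x] 1 n := by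
          refine ⟨.flat (!x) (some (ot o' + n)) .nil, on o', by simp [lev], ?_, ?_, ?_⟩
          · rw [W_flat, W_flat]
            have := flat_add (!x) o' n
            rw [hx] at this
            exact this
          · simp [rr, on]
          · simp [tw, ot]
        have h2 := ctx_stw C h1 (by simpa [lev] using v)
        rw [cx_cx] at h2
        simpa using h2
      · exact absurd h1 (by cases x <;> decide)

/-- a torus link on the right side of the left strand of a parallel pair -/
theorem step_loca (S : Fo) (p : List Bool) (x : Bool) (q : List Bool) (o : Option ℕ) (hp : p.length % 2 = 0)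
    (h : p ++ x :: x :: q = lev S) :
    Stw S (cx p (loca x o) (x :: q)) (p ++ x :: x :: q) (on o) (ot o) := by
  cases o with
  | none =>
    rw [h]
    exact Stw.refl S
  | some n =>
    show Stw S (cx p (tka x n) (x :: q)) (p ++ x :: x :: q) 1 n
    have h1 := step_pars p x q hp n S h
    have h2 := cx_cob (abs_left x n) p q
    rw [cx_cx] at h2
    have h3 : Cob (lev S) (lev S) 0 1 0 (cx p (tka x n) (x :: q)) (List.replicate n ⟨p, cross true x x, q⟩) := by
      rw [← h]
      simpa [cx, List.map_replicate] using h2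
    have h4 := h1.movie h3
    rw [← h] at h4
    simpa using h4

/-- a word above a forest with a minimum, moved to the context of the minimum -/
theorem flat_out (C : Ctx) (a : Bool) (o : Option ℕ) {u v : Word} {e : List Bool} {δ k : ℕ}
    (hu : Valid (pre C ++ [a, !a] ++ post C) u e)
    (h : Iso (pre C ++ post C) e (cx (pre C) (flatw a o) (post C) ++ u) v)
    (h' : Stw (fill C .nil) v e δ k) (r : ℕ) (hr : δ = r + on o) (t : ℕ) (ht : k = t + ot o) :
    Stw (fill C (.flat a o .nil)) u e r t := by
  obtain ⟨S', s, h1, h2, h3, h4⟩ := h'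
  refine ⟨S', s, h1, ?_, ?_, ?_⟩
  · have c1 := W_fill C (.flat a o .nil)
    rw [W_flat] at c1
    have e1 : lev (.flat a o .nil) = [a, !a] := by simp [lev]
    rw [e1] at c1
    have c2 := rb_bot c1 hu
    have v0 : Valid [] (W (fill C .nil)) (pre C ++ post C) := by
      have := W_valid (fill C .nil)
      rw [lev_fill] at this
      simpa [lev] using this
    have c3 := rb_top h v0
    rw [List.append_assoc] at c2
    exact ((c2.trans c3).trans h2).cast rfl (by omega) rfl
  · rw [rr_fill C (.flat a o .nil)]
    simp only [rr]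
    omega
  · rw [tw_fill C (.flat a o .nil)]
    simp only [tw]
    omega

/-- a maximum between two pairs, the right one opposite -/
theorem cap_A (S : Fo) (p : List Bool) (u x : Bool) (q : List Bool) (hp : p.length % 2 = 0)
    (h : p ++ u :: x :: (!x) :: x :: q = lev S) :
    Stw S [⟨p ++ [u], cap x, x :: q⟩] (p ++ u :: x :: q) 0 0 := by
  have hx : (!(!x)) = x := Bool.not_not x
  rcases loc_pair S (p ++ [u, x]) (!x) x q (by simp; omega) (by simpa using h) with
    ⟨-, C, o, rfl, h1, rfl⟩ | ⟨h1, -⟩
  · have h2 : p ++ u :: x :: post C = lev (fill C .nil) := by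
      rw [lev_fill, h1]
      simp [lev]
    have h3 := step_locb (fill C .nil) p u x (post C) o hp h2
    refine flat_out C (!x) o ?_ ?_ h3 0 (by ring) 0 (by ring)
    · rw [h1, valid_single]
      simp [Slice.src, Slice.tgt, Gen.src, Gen.tgt]
    · rw [h1]
      have h4 := cx_cob (cap_flat_right x o) (p ++ [u]) (post C)
      rw [cx_append, cx_cx] at h4
      simpa [cx_cons, List.append_assoc] using h4
  · exact absurd h1 (by cases x <;> decide)

/-- a maximum between two pairs, the left one opposite, the right one parallel -/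
theorem cap_B (S : Fo) (p : List Bool) (x : Bool) (q : List Bool) (hp : p.length % 2 = 0)
    (h : p ++ (!x) :: x :: (!x) :: (!x) :: q = lev S) :
    Stw S [⟨p ++ [!x], cap x, (!x) :: q⟩] (p ++ (!x) :: (!x) :: q) 0 0 := by
  have hx : (!(!x)) = x := Bool.not_not x
  rcases loc_pair S p (!x) x ((!x) :: (!x) :: q) hp h with ⟨-, C, o, rfl, h1, h5⟩ | ⟨h1, -⟩
  · have h2 : p ++ (!x) :: (!x) :: q = lev (fill C .nil) := by
      rw [lev_fill, h1, h5]
      simp [lev]
    have h3 := step_loca (fill C .nil) p (!x) q o hp h2
    refine flat_out C (!x) o ?_ ?_ h3 0 (by ring) 0 (by ring)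
    · rw [h1, h5, valid_single]
      simp [Slice.src, Slice.tgt, Gen.src, Gen.tgt]
    · rw [h1, h5]
      have h4 := cx_cob (cap_flat_left (!x) o) p ((!x) :: q)
      rw [cx_append, cx_cx, hx] at h4
      simpa [cx_cons, List.append_assoc] using h4
  · exact absurd h1 (by cases x <;> decide)

/-- a ribbon cap between two different arcs -/
theorem rib_step (C : Ctx) {X X' : Fo} {P Q : List Bool} {x : Bool} (hP : P.length % 2 = 0) (hl : lev X = P ++ x :: x :: (!x) :: (!x) :: Q)
    (hl' : lev X' = P ++ Q) (h : Iso [] (P ++ Q) (W X ++ cx P (rc x) Q) (W X')) (hr : rr X = rr X' + 1)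
    (ht : tw X = tw X') :
    Stw (fill C X) [⟨pre C ++ P ++ [x], cap x, (!x) :: (Q ++ post C)⟩] (pre C ++ P ++ x :: (!x) :: (Q ++ post C)) 0 0 := by
  -- the ribbon cap
  have v1 : Valid (lev X) (cx P (rc x) Q) (lev X') := by
    rw [hl, hl']
    simpa using cx_valid (rc_valid x) P Q
  have h1 := ctx_step C (X := X) (X' := X') (u := cx P (rc x) Q) (s := 0) (by rw [hl']; exact h) v1
  rw [cx_cx] at h1
  -- the new minimum
  have hpe : (pre C ++ P).length % 2 = 0 := by
    have h3 := pre_even C
    rw [List.length_append]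
    omega
  obtain ⟨S', e1, c1, r1, t1⟩ := ins_step (fill C X') (.flat x none .nil) (pre C ++ P) (Q ++ post C) hpe
    (by rw [lev_fill, hl']; simp [List.append_assoc])
  have e2 : lev (.flat x none .nil) = [x, !x] := by simp [lev]
  rw [W_flat, e2] at c1
  rw [e2] at e1
  have h6 := cx_cob (cap_saddle x) (pre C ++ P) (Q ++ post C)
  have v2 : Valid [] (W (fill C X)) (pre C ++ P ++ [x, x, !x, !x] ++ (Q ++ post C)) := by
    have := W_valid (fill C X)
    rw [lev_fill, hl] at this
    simpa [List.append_assoc] using this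
  have h7 := rb_top h6 v2
  rw [cx_append] at h7
  have v3 : Valid (pre C ++ lev X' ++ post C) (cx (pre C ++ P) [⟨[], cup x, []⟩] (Q ++ post C))
      (pre C ++ P ++ [x, !x] ++ (Q ++ post C)) := by
    rw [hl']
    have := cx_valid (flatw_valid x none) (pre C ++ P) (Q ++ post C)
    simpa [flatw, List.append_assoc] using this
  have h8 := rb_bot h1 v3
  refine ⟨S', 1, by rw [e1]; simp, ?_, ?_, ?_⟩
  · have h9 : Cob [] (pre C ++ P ++ [x, !x] ++ (Q ++ post C)) 0 1 0
        (W (fill C X) ++ cx (pre C ++ P) [⟨[x], cap x, [!x]⟩] (Q ++ post C))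
        (W (fill C X) ++ cx (pre C ++ P) (rc x) (Q ++ post C) ++ cx (pre C ++ P) [⟨[], cup x, []⟩] (Q ++ post C)) := by
      rw [List.append_assoc (W (fill C X))]
      exact h7
    have h10 := (h9.trans h8).trans (by simpa [flatw] using c1)
    simpa [cx_cons, List.append_assoc] using h10
  · rw [r1]
    have a1 := rr_fill C X
    have a2 := rr_fill C X'
    have a3 : rr (.flat x none .nil) = 0 := rfl
    omega
  · rw [t1]
    have a1 := tw_fill C X
    have a2 := tw_fill C X'
    have a3 : tw (.flat x none .nil) = 0 := rfl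
    omega

/-- a maximum between two parallel pairs -/
theorem cap_C (S : Fo) (p : List Bool) (x : Bool) (q : List Bool) (hp : p.length % 2 = 0)
    (h : p ++ x :: x :: (!x) :: (!x) :: q = lev S) :
    Stw S [⟨p ++ [x], cap x, (!x) :: q⟩] (p ++ x :: (!x) :: q) 0 0 := by
  have hx : (!(!x)) = x := Bool.not_not x
  rcases loc_two S p x q hp h with ⟨C, n, rfl, rfl, rfl⟩ | ⟨C, n, m, i, j, rfl, rfl, rfl⟩ |
    ⟨C, n, m, i, j, rfl, rfl, rfl⟩ | ⟨C, n, m, i, j, rfl, rfl, rfl⟩
  · have h1 : Stw (.arc x n .nil .nil) [⟨[x], cap x, [!x]⟩] [x, !x] 0 0 := by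
      refine ⟨.flat x (some n) .nil, 0, rfl, ?_, by simp [rr, on], by simp [tw, ot]⟩
      have e : W (.arc x n .nil .nil) ++ [⟨[x], cap x, [!x]⟩] = W (.flat x (some n) .nil) := by
        rw [W_flat, W_arc, ← cap_arc]
        simp [W]
      rw [e]
      exact Cob.refl (W_valid _)
    have h2 := ctx_stw C h1 ⟨rfl, rfl⟩
    simpa [cx] using h2
  · have h1 := rib_step C (X := .arc x n (.arc (!x) m i j) .nil) (X' := app i (.arc x (n + m) j .nil)) (P := [])
      (Q := lev i ++ [x, x] ++ lev j ++ [!x, !x]) (x := x) rfl (by simp [lev])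
      (by rw [lev_app, lev_arc]; simp [List.append_assoc]) (rib_left x n m i j)
      (by rw [rr_app]; simp [rr]; ring) (by rw [tw_app]; simp [tw]; ring)
    simpa [List.append_assoc] using h1
  · have li := lev_even i
    have lj := lev_even j
    have h1 := rib_step C (X := .arc x n (app i (.arc (!x) m j .nil)) .nil) (X' := .arc x (n + m) i j)
      (P := [x, x] ++ lev i ++ [!x, !x] ++ lev j) (Q := []) (x := x)
      (by simp only [List.length_append, List.length_cons, List.length_nil]; omega)
      (by rw [lev_arc, lev_app, lev_arc]; simp [List.append_assoc])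
      (by simp [lev, List.append_assoc]) (by simpa using rib_right x n m i j)
      (by simp [rr, rr_app]; ring) (by simp [tw, tw_app]; ring)
    simpa [List.append_assoc] using h1
  · have li := lev_even i
    have h1 := rib_step C (X := .arc (!x) n i (.arc (!x) m j .nil)) (X' := .arc (!x) (n + m) (app i j) .nil)
      (P := [!x, !x] ++ lev i) (Q := lev j ++ [x, x]) (x := x)
      (by simp only [List.length_append, List.length_cons, List.length_nil]; omega)
      (by simp [lev, List.append_assoc])
      (by simp [lev, lev_app, List.append_assoc])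
      (by have := rib_side (!x) n m i j; rw [hx] at this; simpa [List.append_assoc] using this)
      (by simp [rr, rr_app]; ring) (by simp [tw, tw_app]; ring)
    simpa [List.append_assoc] using h1

/-- a maximum between two pairs -/
theorem step_cap (S : Fo) (p : List Bool) (u x v : Bool) (q : List Bool) (hp : p.length % 2 = 0)
    (h : p ++ u :: x :: (!x) :: v :: q = lev S) :
    Stw S [⟨p ++ [u], cap x, v :: q⟩] (p ++ u :: v :: q) 0 0 := by
  by_cases e : v = x
  · subst e
    exact cap_A S p u v q hp h
  · have e1 : v = !x := by cases v <;> cases x <;> simp_all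
    subst e1
    by_cases e2 : u = x
    · subst e2
      exact cap_C S p u q hp h
    · have e3 : u = !x := by cases u <;> cases x <;> simp_all
      subst e3
      exact cap_B S p x q hp h

end Pool.Agent.Lib.MP_177a0e_gt.LT
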