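import Pool.Agent.Lib.MP_177a0e_gt.LT.SN
import Pool.Agent.Lib.MP_177a0e_gt.LT.RI
import Pool.Agent.Lib.MP_177a0e_gt.Des.Alt

/-!
# words with all maxima at odd positions: the movie to `T(2, m)`.
-/

namespace Pool.Agent.Lib.MP_177a0e_gt.LT

open Pool.Agent.Lib.MP_177a0e_gt.Tangle Pool.Agent.Lib.MP_177a0e_gt.Tangle.Gen
open Pool.Agent.Lib.MP_177a0e_gt.Sig

/-- the long tangle of a closed one -/
def bend (V : Word) : Word := cx [] V [true] ++ [⟨[true], cap false, []⟩]

theorem bend_cob {b s d : ℕ} {V V' : Word} (h : Cob [] [true, false] b s d V V') :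
    Cob [true] [true] b s d (bend V) (bend V') := by
  have h1 : Cob [true] [true, false, true] b s d (cx [] V [true]) (cx [] V' [true]) := cx_cob h [] [true]
  exact rb_bot h1 ⟨rfl, rfl⟩

theorem bend_word {w : Word} (h : Valid [true] w [true]) : Iso [true] [true]
    (bend (flatw true none ++ cx [] w [false])) w := by
  have hv : Valid [false, true] [⟨[], cap false, []⟩] [] := ⟨rfl, rfl⟩
  have h1 := cx_comm h hv [] [] []
  have h1' : Iso [true, false, true] [true] (cx [] w [false, true] ++ [⟨[true], cap false, []⟩])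
      ([⟨[true], cap false, []⟩] ++ w) := by
    simpa [cx_id] using h1
  have h2 := rb_top h1' (c₀ := [true]) (u := [⟨[], cup true, [true]⟩]) ⟨rfl, rfl⟩
  have h3 : Iso [true] [true] [⟨[], cup true, [true]⟩, ⟨[true], cap false, []⟩] [] :=
    rel_cob (Rel.zigzag₂ true [] []) ⟨rfl, rfl, rfl⟩ rfl
  have h4 := rb_bot h3 h
  have e1 : bend (flatw true none ++ cx [] w [false]) = [⟨[], cup true, [true]⟩] ++
      (cx [] w [false, true] ++ [⟨[true], cap false, []⟩]) := by
    simp [bend, flatw, cx_cx]
  have e2 : [⟨[], cup true, [true]⟩] ++ ([⟨[true], cap false, []⟩] ++ w) =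
      [⟨[], cup true, [true]⟩, ⟨[true], cap false, []⟩] ++ w := by simp
  rw [e1]
  rw [e2] at h2
  exact h2.trans h4

theorem tka_true (n : ℕ) : tka true n = tk n := by
  rw [tk_eq]
  rfl

/-- the movie to a torus link -/
theorem any_loc {w : Word} (h : Valid [true] w [true]) (h2 : OddMax w) :
    ∃ (o : Option ℕ) (s : ℕ), Cob [true] [true] 0 s 0 w (loca true o) ∧ s + on o = nblk w + negw w ∧
      ot o = posr w := by
  obtain ⟨S', s, e1, c1, r1, t1⟩ := scan w [true] [true] h h2 (.flat true none .nil) rfl
  have e2 : ∃ o, S' = .flat true o .nil := by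
    cases S' with
    | nil => simp [lev] at e1
    | flat a o r =>
      cases r with
      | nil =>
        simp [lev] at e1
        rw [e1]
        exact ⟨o, rfl⟩
      | flat b o' r' => simp [lev] at e1
      | arc b n i r' => simp [lev] at e1
    | arc a n i r =>
      have := congrArg List.length e1
      simp [lev] at this
  obtain ⟨o, rfl⟩ := e2
  rw [W_flat, W_flat] at c1
  have c2 := bend_cob c1
  have c3 := bend_word h
  have c4 : Iso [true] [true] (bend (flatw true o)) (loca true o) := by
    cases o with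
    | none => exact bend_word (w := []) rfl
    | some n => exact bend_word (tka_valid true n)
  refine ⟨o, s, ((c3.symm.trans c2).trans c4).cast rfl (by omega) rfl, ?_, ?_⟩
  · simpa [rr, on] using r1
  · simpa [tw, ot] using t1

/-- the movie to `T(2, m)` -/
theorem any_up {w : Word} (h : Valid [true] w [true]) (h2 : OddMax w) {m : ℕ} (hm : 1 ≤ m) (hn : posr w ≤ m) :
    ∃ s : ℕ, s + posr w + 1 = nblk w + negw w + m ∧ Cob [true] [true] 0 s 0 w (tk m) := by
  obtain ⟨o, s, c1, e1, e2⟩ := any_loc h h2
  cases o with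
  | none =>
    have e3 : posr w = 0 := e2.symm
    obtain ⟨t, h3, h4⟩ := su_up (n := 0) hm (by omega)
    refine ⟨s + t, ?_, (c1.trans h4).cast rfl (by omega) rfl⟩
    have e4 : s = nblk w + negw w := by simpa [on] using e1
    simp only [if_true] at h3
    rw [e3]
    omega
  | some n =>
    have e3 : n = posr w := e2
    subst e3
    obtain ⟨t, h3, h4⟩ := tk_up hn
    have c2 : Cob [true] [true] 0 s 0 w (tk (posr w)) := by
      rw [← tka_true]
      exact c1
    refine ⟨s + t, ?_, (c2.trans h4).cast rfl (by omega) rfl⟩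
    have e4 : s + 1 = nblk w + negw w := e1
    omega

end Pool.Agent.Lib.MP_177a0e_gt.LT
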