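import Pool.Agent.Lib.MP_177a0e_gt.LT.SO

/-!
# alternating words with all maxima at odd positions: the upper bound of the signature.
-/

namespace Pool.Agent.Lib.MP_177a0e_gt.LT

open Pool.Agent.Lib.MP_177a0e_gt.Tangle Pool.Agent.Lib.MP_177a0e_gt.Tangle.Gen
open Pool.Agent.Lib.MP_177a0e_gt.Sig

theorem nblk_le {w : Word} (h : OddMax w) : nblk w ≤ Des.nb w := by
  rw [← Des.dk_zero]
  induction w using List.reverseRecOn with
  | nil => exact Nat.zero_le _
  | append_singleton w s ih =>
    have h1 : OddMax w := fun t ht => h t (List.mem_append_left _ ht)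
    have h2 := ih h1
    have h3 : nblk (w ++ [s]) = nblk w + (if blk s then 1 else 0) := by
      unfold nblk
      rw [List.countP_append]
      simp [List.countP_cons]
    rw [h3]
    have hs : s ∈ w ++ [s] := List.mem_append_right _ (List.mem_singleton_self _)
    rcases s with ⟨p, g, q⟩
    rcases g with x | x | ⟨c, x, y⟩
    · rcases Nat.mod_two_eq_zero_or_one p.length with hp | hp
      · have h4 := Des.dk_mono 0 w ⟨p, cup x, q⟩ (Or.inl ⟨x, rfl⟩)
        have h5 : blk ⟨p, cup x, q⟩ = false := by simp [blk, hp]
        rw [h5]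
        simpa using h2.trans h4
      have h4 := Des.dk_free 0 w ⟨p, cup x, q⟩ (Or.inl ⟨x, rfl⟩) (by show (p.length + 1) % 2 = 0; omega)
      have h5 : (if blk ⟨p, cup x, q⟩ then 1 else 0) ≤ 1 := by split_ifs <;> omega
      omega
    · have hp : p.length % 2 = 1 := h _ hs x rfl
      have h4 := Des.dk_cap' 0 w ⟨p, cap x, q⟩ ⟨x, rfl⟩ (by show p.length % 2 ≠ 0; omega)
      have h5 : blk ⟨p, cap x, q⟩ = false := rfl
      rw [h5]
      simpa using h2.trans h4
    · rcases Nat.mod_two_eq_zero_or_one p.length with hp | hp
      · have h4 := Des.dk_mono 0 w ⟨p, cross c x y, q⟩ (Or.inr ⟨c, x, y, rfl⟩)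
        have h5 : blk ⟨p, cross c x y, q⟩ = false := by simp [blk, hp]
        rw [h5]
        simpa using h2.trans h4
      · have h4 := Des.dk_free 0 w ⟨p, cross c x y, q⟩ (Or.inr ⟨c, x, y, rfl⟩) (by show (p.length + 1) % 2 = 0; omega)
        have h5 : (if blk ⟨p, cross c x y, q⟩ then 1 else 0) ≤ 1 := by split_ifs <;> omega
        omega

theorem cn_eq (w : Word) : Des.cn w = npos w + nneg w := by
  induction w with
  | nil => rfl
  | cons s w ih =>
    rw [npos_cons, nneg_cons]
    rcases s with ⟨p, g, q⟩
    rcases g with x | x | ⟨c, x, y⟩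
    · have : Des.cn (⟨p, cup x, q⟩ :: w) = Des.cn w := by simp [Des.cn]
      rw [this, ih]
      simp [gpos, gneg]
    · have : Des.cn (⟨p, cap x, q⟩ :: w) = Des.cn w := by simp [Des.cn]
      rw [this, ih]
      simp [gpos, gneg]
    · have : Des.cn (⟨p, cross c x y, q⟩ :: w) = Des.cn w + 1 := by simp [Des.cn]
      rw [this, ih]
      have h1 : (if gpos (cross c x y) then 1 else 0) + (if gneg (cross c x y) then 1 else 0) = 1 := by
        cases c <;> cases x <;> cases y <;> rfl
      show _ = npos w + (if gpos (cross c x y) then 1 else 0) + (nneg w + (if gneg (cross c x y) then 1 else 0))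
      omega

theorem corr_alt {w : Word} (h : Des.Alternating true w) : corr w = nneg w := by
  induction w with
  | nil => rfl
  | cons s w ih =>
    have h1 := ih fun t ht => h t (List.mem_cons_of_mem _ ht)
    have h2 : corr (s :: w) = cor s + corr w := by simp [corr]
    rw [h2, h1, nneg_cons]
    rcases s with ⟨p, g, q⟩
    rcases g with x | x | ⟨c, x, y⟩
    · simp [cor, gneg]
    · simp [cor, gneg]
    · have h3 := h _ List.mem_cons_self c x y rfl
      have h4 : cor ⟨p, cross c x y, q⟩ = if gneg (cross c x y) then 1 else 0 := by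
        rcases Nat.mod_two_eq_zero_or_one p.length with hp | hp
        · have h5 : c = true := h3.2 hp
          subst h5
          have h6 : ((-1 : ℤ)) ^ p.length = 1 := Even.neg_one_pow (Nat.even_iff.mpr hp)
          cases x <;> cases y <;> simp [cor, eps, Sig.lp, hp, h6, gneg, sz]
        · have h5 : c = false := by
            cases c
            · rfl
            · have := h3.1 rfl
              simp only at this
              omega
          subst h5
          have h6 : ((-1 : ℤ)) ^ p.length = -1 := Odd.neg_one_pow (Nat.odd_iff.mpr hp)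
          cases x <;> cases y <;> simp [cor, eps, Sig.lp, hp, h6, gneg, sz]
      rw [h4]
      show (if gneg (cross c x y) then (1 : ℤ) else 0) + (nneg w : ℤ) =
        ((nneg w + (if gneg (cross c x y) then 1 else 0) : ℕ) : ℤ)
      push_cast
      ring

theorem alt_rty {w : Word} (h : Des.Alternating true w) {t : Slice} (ht : t ∈ w) {c x y : Bool}
    (e : t.gen = cross c x y) : rty t = true := by
  have h3 := h t ht c x y e
  unfold rty
  rw [e]
  rcases Nat.mod_two_eq_zero_or_one t.left.length with hp | hp
  · rw [h3.2 hp, hp]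
    rfl
  · have h5 : c = false := by
      cases c
      · rfl
      · have := h3.1 rfl
        omega
    rw [h5, hp]
    rfl

theorem alt_posr {w : Word} (h : Des.Alternating true w) : posr w = npos w := by
  unfold posr npos
  refine List.countP_congr fun t ht => ?_
  rcases e : t.gen with x | x | ⟨c, x, y⟩
  · simp [gpos]
  · simp [gpos]
  · rw [alt_rty h ht e, Bool.true_and]

theorem alt_negw {w : Word} (h : Des.Alternating true w) : negw w = 0 := by
  unfold negw
  rw [List.countP_eq_zero]
  intro t ht
  rcases e : t.gen with x | x | ⟨c, x, y⟩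
  · simp [gneg]
  · simp [gneg]
  · rw [alt_rty h ht e]
    simp

/-- the signature of an alternating knot with such a diagram is at most the number of positive crossings minus
`nblk` -/
theorem sig_le {w : Word} (hw : IsKnot w) (h1 : Des.Alternating true w) (h2 : OddMax w) :
    signature w + nblk w ≤ npos w := by
  have n0 := nul_knot hw
  have s1 := Des.sg_alt h1 n0
  have l1 := Des.le_cn n0
  have l2 := nblk_le h2
  have c1 := corr_alt h1
  rw [cn_eq] at l1
  unfold signature
  rw [s1, c1]
  simp only [sz, if_true]
  omega

end Pool.Agent.Lib.MP_177a0e_gt.LT
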