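import Pool.Agent.Lib.MP_177a0e_gt.LT.Om

/-!
# the form of a colouring and a state is a boundary term.

MODEL: `Sig/Stk.lean`. PROOFS.
* `sk_slice`: `s = ⟨p, g, q⟩`; `om_append` for `p ++ g.src ++ q` and `p ++ g.tgt ++ q`. The part `p` is the same below and above (gaps `0, …, |p|`), the part `q` also (gaps `|p| + |g.src| + i` below and `|p| + |g.tgt| + i` above; `om_congr`, `Fit`). The middle part: crossing: `om_cross` with `l, m, r` the values of `z` at `|p|, |p| + 1, |p| + 2`, `CZ` says that `z' (|p| + 1)` is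
  `zc c s a b l m r`; cup `e`: below `[]`, above `[e, !e]` with `z' |p| = z' (|p| + 2) = z |p|`: `om_pair`; cap: the same with below and above exchanged (the form is zero, `sn = 0`).
* `sk`: induction on the word (`s.src = c`, `Valid s.tgt w e`), telescoping.
-/

namespace Pool.Agent.Lib.MP_177a0e_gt.LT

open Pool.Agent.Lib.MP_177a0e_gt.Tangle Pool.Agent.Lib.MP_177a0e_gt.Tangle.Gen
open Pool.Agent.Lib.MP_177a0e_gt.Sig

private theorem sk_three (c : ℚ) (p m q : List Bool) (z : ℕ → QE c) (w : ℕ → ℚ) :
    om c (p ++ m ++ q) z w = om c p z w + om c m (fun i => z (i + p.length)) (fun i => w (i + p.length)) +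
      om c q (fun i => z (i + (p.length + m.length))) (fun i => w (i + (p.length + m.length))) := by
  rw [om_append, om_append, List.length_append]

private theorem sk_two (c : ℚ) (a b : Bool) (z : ℕ → QE c) (w : ℕ → ℚ) :
    om c [a, b] z w = oms c a (z 0) (z 1) (w 0) (w 1) + oms c b (z 1) (z 2) (w 1) (w 2) := by
  simp only [om, add_zero]

private theorem sk_cup (c : ℚ) (a : Bool) (p q : List Bool) (z z' : ℕ → QE c) (w w' : ℕ → ℚ)
    (h1 : ∀ i, i ≤ p.length → z' i = z i) (h2 : ∀ i, p.length ≤ i → z' (i + 2) = z i)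
    (h3 : ∀ i, i ≤ p.length → w' i = w i) (h4 : ∀ i, p.length ≤ i → w' (i + 2) = w i) :
    om c (p ++ [a, !a] ++ q) z' w' = om c (p ++ [] ++ q) z w := by
  rw [sk_three, sk_three, sk_two]
  rw [om_congr c p z' z w' w (fun i hi => h1 i hi) (fun i hi => h3 i hi)]
  have e1 : om c q (fun i => z' (i + (p.length + [a, !a].length))) (fun i => w' (i + (p.length + [a, !a].length))) =
      om c q (fun i => z (i + (p.length + ([] : List Bool).length))) (fun i => w (i + (p.length + ([] : List Bool).length))) := by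
    refine om_congr c q _ _ _ _ (fun i _ => ?_) (fun i _ => ?_)
    · show z' (i + (p.length + 2)) = z (i + (p.length + 0))
      rw [← add_assoc, h2 (i + p.length) (Nat.le_add_left _ _), add_zero]
    · show w' (i + (p.length + 2)) = w (i + (p.length + 0))
      rw [← add_assoc, h4 (i + p.length) (Nat.le_add_left _ _), add_zero]
  rw [e1]
  have e2 : z' (2 + p.length) = z' (0 + p.length) := by
    rw [add_comm 2, h2 _ le_rfl, zero_add, h1 _ le_rfl]
  have e3 : w' (2 + p.length) = w' (0 + p.length) := by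
    rw [add_comm 2, h4 _ le_rfl, zero_add, h3 _ le_rfl]
  simp only [e2, e3]
  rw [om_pair]
  simp only [om]

theorem sk_slice (c : ℚ) [Adm c] (s : Slice) (z z' : ℕ → QE c) (w w' : ℕ → ℚ) (hz : (z, z') ∈ colZ (uE c) (vE c) s)
    (hw : (w, w') ∈ fitM ℚ s) :
    kl c s (fun i => (z i).re) (fun i => (z' i).re) w w' = om c s.tgt z' w' - om c s.src z w := by
  rcases s with ⟨p, a | a | ⟨g, a, b⟩, q⟩
  · have hzf : (∀ i, i ≤ p.length → z' i = z i) ∧ ∀ i, p.length ≤ i → z' (i + 2) = z i := hz.1
    have hwf : (∀ i, i ≤ p.length → w' i = w i) ∧ ∀ i, p.length ≤ i → w' (i + 2) = w i := hw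
    have e1 : (Slice.mk p (cup a) q).src = p ++ [] ++ q := rfl
    have e2 : (Slice.mk p (cup a) q).tgt = p ++ [a, !a] ++ q := rfl
    have e3 : sn ⟨p, cup a, q⟩ = 0 := rfl
    rw [e1, e2, sk_cup c a p q z z' w w' hzf.1 hzf.2 hwf.1 hwf.2, sub_self, kl, e3, Int.cast_zero, zero_mul]
  · have hzf : (∀ i, i ≤ p.length → z i = z' i) ∧ ∀ i, p.length ≤ i → z (i + 2) = z' i := hz.1
    have hwf : (∀ i, i ≤ p.length → w i = w' i) ∧ ∀ i, p.length ≤ i → w (i + 2) = w' i := hw
    have e1 : (Slice.mk p (cap a) q).tgt = p ++ [] ++ q := rfl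
    have e2 : (Slice.mk p (cap a) q).src = p ++ [a, !a] ++ q := rfl
    have e3 : sn ⟨p, cap a, q⟩ = 0 := rfl
    rw [e1, e2, sk_cup c a p q z' z w' w hzf.1 hzf.2 hwf.1 hwf.2, sub_self, kl, e3, Int.cast_zero, zero_mul]
  · have hzf : ∀ i, i ≠ p.length + 1 → z' i = z i := hz.1
    have hwf : ∀ i, i ≠ p.length + 1 → w' i = w i := hw
    have hzc : z' (p.length + 1) = zc c g a b (z p.length) (z (p.length + 1)) (z (p.length + 2)) := hz.2
    have e1 : (Slice.mk p (cross g a b) q).src = p ++ [a, b] ++ q := rfl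
    have e2 : (Slice.mk p (cross g a b) q).tgt = p ++ [b, a] ++ q := rfl
    rw [e1, e2, sk_three, sk_three, sk_two, sk_two]
    rw [om_congr c p z' z w' w (fun i hi => hzf i (by omega)) (fun i hi => hwf i (by omega))]
    have e4 : om c q (fun i => z' (i + (p.length + [b, a].length))) (fun i => w' (i + (p.length + [b, a].length))) =
        om c q (fun i => z (i + (p.length + [a, b].length))) (fun i => w (i + (p.length + [a, b].length))) := by
      refine om_congr c q _ _ _ _ (fun i _ => ?_) (fun i _ => ?_)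
      · show z' (i + (p.length + 2)) = z (i + (p.length + 2))
        exact hzf _ (by omega)
      · show w' (i + (p.length + 2)) = w (i + (p.length + 2))
        exact hwf _ (by omega)
    rw [e4]
    have h := om_cross c g a b (z p.length) (z (p.length + 1)) (z (p.length + 2)) (w p.length) (w (p.length + 1))
      (w (p.length + 2)) (w' (p.length + 1))
    rw [← hzc] at h
    have e5 : kl c ⟨p, cross g a b, q⟩ (fun i => (z i).re) (fun i => (z' i).re) w w' =
      ((if a = b then sz g else -sz g : ℤ) : ℚ) *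
      ((if a = b then (z p.length).re + (z (p.length + 2)).re + c * ((z' (p.length + 1)).re + (z (p.length + 1)).re)
          else (z' (p.length + 1)).re + (z (p.length + 1)).re + c * ((z p.length).re + (z (p.length + 2)).re)) *
        (if a = b then w p.length + w (p.length + 2) + c * (w' (p.length + 1) + w (p.length + 1))
          else w' (p.length + 1) + w (p.length + 1) + c * (w p.length + w (p.length + 2))) -
      (1 - c ^ 2) * ((if a = b then (z' (p.length + 1)).re - (z (p.length + 1)).re else (z p.length).re - (z (p.length + 2)).re) *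
        (if a = b then w' (p.length + 1) - w (p.length + 1) else w p.length - w (p.length + 2)))) := rfl
    rw [e5, h]
    have e6 : z' p.length = z p.length := hzf _ (by omega)
    have e7 : z' (p.length + 2) = z (p.length + 2) := hzf _ (by omega)
    have e8 : w' p.length = w p.length := hwf _ (by omega)
    have e9 : w' (p.length + 2) = w (p.length + 2) := hwf _ (by omega)
    have n1 : 1 + p.length = p.length + 1 := add_comm _ _
    have n2 : 2 + p.length = p.length + 2 := add_comm _ _
    simp only [zero_add, n1, n2]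
    rw [e6, e7, e8, e9]
    ring

private theorem sk_aux (c : ℚ) [Adm c] (w : Word) : ∀ (d e : List Bool), Valid d w e → ∀ (z : ℕ → ℕ → QE c) (x : ℕ → ℕ → ℚ),
    Run (colZ (uE c) (vE c)) w z → Run (fitM ℚ) w x →
    kq c w (reS z) x = om c e (z w.length) (x w.length) - om c d (z 0) (x 0) := by
  induction w with
  | nil =>
    intro d e hv z x _ _
    have hde : d = e := hv
    subst hde
    simp [kq]
  | cons s w ih =>
    intro d e hv z x hz hx
    obtain ⟨hs, hv'⟩ := hv
    subst hs
    have h3 := ih s.tgt e hv' (sh 1 z) (sh 1 x) hz.2 hx.2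
    have h4 := sk_slice c s (z 0) (z 1) (x 0) (x 1) hz.1 hx.1
    have e1 : kq c (s :: w) (reS z) x = kl c s (fun i => (z 0 i).re) (fun i => (z 1 i).re) (x 0) (x 1) +
        kq c w (reS (sh 1 z)) (sh 1 x) := rfl
    have e2 : sh 1 z w.length = z (s :: w).length := rfl
    have e3 : sh 1 x w.length = x (s :: w).length := rfl
    have e4 : sh 1 z 0 = z 1 := rfl
    have e5 : sh 1 x 0 = x 1 := rfl
    rw [e1, h3, h4, e2, e3, e4, e5]
    ring

theorem sk (c : ℚ) [Adm c] {w : Word} {d e : List Bool} (hv : Valid d w e) (z : ℕ → ℕ → QE c) (x : ℕ → ℕ → ℚ)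
    (hz : Run (colZ (uE c) (vE c)) w z) (hx : Run (fitM ℚ) w x) :
    kq c w (reS z) x = om c e (z w.length) (x w.length) - om c d (z 0) (x 0) :=
  sk_aux c w d e hv z x hz hx

end Pool.Agent.Lib.MP_177a0e_gt.LT
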