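import Pool.Agent.Lib.MP_177a0e_gt.LT.TorD
import Pool.Agent.Lib.MP_177a0e_gt.Sig.Fd

/-!
# the states of `T(2, n + 1)`.

A state `t` of `tk (n + 1)` with the bottom level zero: `t 1` (after the cup at the position `1`): the value `r` at the gap `2`, zero elsewhere. The `n + 1` crossings are at the position `0`: they change only the gap `1`: `t (j + 1) 1 = m_j`, `m_0 = 0`; the last slice is the cap at the position `1`: `t (n + 2) i = t (n + 3) i` for `i ≤ 1`, `t (n + 2) (i + 2) = t (n + 3) i` for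
`i ≥ 1`: so `m_{n + 1} = t (n + 2) 1 = t (n + 3) 1 = t (n + 2) 3 = 0`, and `t (n + 3) = 0`. So the states correspond to `(r, m_1, …, m_n)`: `Φ t = (t 1 2, t 2 1, t 3 1, …, t (n + 1) 1)` (index `0`: `r`; index `j ≥ 1`: `t (j + 1) 1`); the inverse: the level `j + 1` (`0 ≤ j ≤ n + 1`) has the value `r` at the gap `2`, `mf n f j` at the gap `1`, `0` elsewhere; all other levels are zero.
At the `j`-th crossing (from the level `j + 1` to `j + 2`, directions `true, true`, positive: `sn = 1`): `A = l + r + c (t + m) = r + c (m_{j+1} + m_j)`, `B = m_{j+1} - m_j`. The sum over the crossings: induction on the number of crossings (`kq` of `tbl (List.replicate k true)` for a state shifted by `j`).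
`wr_tk`: all crossings have the sign `1`.
-/

namespace Pool.Agent.Lib.MP_177a0e_gt.LT

open Pool.Agent.Lib.MP_177a0e_gt.Tangle Pool.Agent.Lib.MP_177a0e_gt.Tangle.Gen
open Pool.Agent.Lib.MP_177a0e_gt.Sig

/-- the cap on top of the word -/
private abbrev tacap : Slice := ⟨[true], cap true, []⟩

/-- the crossings and the cap -/
private abbrev tatl (k : ℕ) : Word := tbl (List.replicate k true) ++ [tacap]

private theorem tatl_succ (k : ℕ) : tatl (k + 1) = ⟨[], cross true true true, [false]⟩ :: tatl k := rfl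

private theorem tatl_length (k : ℕ) : (tatl k).length = k + 1 := by
  induction k with
  | zero => rfl
  | succ k ih => rw [tatl_succ, List.length_cons, ih]

private theorem tk_length (n : ℕ) : (tk n).length = n + 2 := by
  show (tatl n).length + 1 = n + 2
  rw [tatl_length]

/-- the runs of the crossings and the cap -/
private theorem ta_run (k : ℕ) : ∀ x : ℕ → ℕ → ℚ, Run (fitM ℚ) (tatl k) x ↔
    (∀ j, j < k → ∀ i, i ≠ 1 → x (j + 1) i = x j i) ∧ Fit tacap (x k) (x (k + 1)) := by
  induction k with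
  | zero =>
    intro x
    constructor
    · exact fun h => ⟨fun j hj => absurd hj (Nat.not_lt_zero j), h.1⟩
    · exact fun h => ⟨h.2, trivial⟩
  | succ k ih =>
    intro x
    constructor
    · rintro ⟨h1, h2⟩
      obtain ⟨h3, h4⟩ := (ih (sh 1 x)).1 h2
      refine ⟨fun j hj i hi => ?_, h4⟩
      cases j with
      | zero => exact h1 i hi
      | succ j => exact h3 j (Nat.lt_of_succ_lt_succ hj) i hi
    · rintro ⟨h1, h2⟩
      exact ⟨fun i hi => h1 0 (Nat.succ_pos k) i hi,
        (ih (sh 1 x)).2 ⟨fun j hj i hi => h1 (j + 1) (Nat.succ_lt_succ hj) i hi, h2⟩⟩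

/-- the form on the crossings and the cap -/
private theorem ta_kq (c : ℚ) (k : ℕ) : ∀ x : ℕ → ℕ → ℚ, kq c (tatl k) x x =
    ∑ j ∈ Finset.range k, ((x j 0 + x j 2 + c * (x (j + 1) 1 + x j 1)) ^ 2 -
      (1 - c ^ 2) * (x (j + 1) 1 - x j 1) ^ 2) := by
  induction k with
  | zero =>
    intro x
    show kl c tacap (x 0) (x 1) (x 0) (x 1) + 0 = _
    simp [kl, sn]
  | succ k ih =>
    intro x
    rw [tatl_succ, Finset.sum_range_succ']
    show kl c _ (x 0) (x 1) (x 0) (x 1) + kq c (tatl k) (sh 1 x) (sh 1 x) = _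
    rw [ih, add_comm]
    congr 1
    have e : kl c ⟨[], cross true true true, [false]⟩ (x 0) (x 1) (x 0) (x 1) =
        ((1 : ℤ) : ℚ) * ((x 0 0 + x 0 2 + c * (x 1 1 + x 0 1)) * (x 0 0 + x 0 2 + c * (x 1 1 + x 0 1)) -
          (1 - c ^ 2) * ((x 1 1 - x 0 1) * (x 1 1 - x 0 1))) := rfl
    rw [e, Int.cast_one]
    ring

/-- the level with the values `m` at the gap `1` and `r` at the gap `2` -/
private def lev (r m : ℚ) : ℕ → ℚ := fun i => if i = 1 then m else if i = 2 then r else 0

private theorem lev_zero : lev 0 0 = 0 := by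
  funext i
  unfold lev
  split_ifs <;> rfl

/-- the state with the values `f` -/
private def stf (n : ℕ) (f : Fin (n + 1) → ℚ) : ℕ → ℕ → ℚ := fun j =>
  if 1 ≤ j ∧ j ≤ n + 2 then lev (f 0) (mf n f (j - 1)) else 0

private theorem stf_mid (n : ℕ) (f : Fin (n + 1) → ℚ) (j : ℕ) (h : j ≤ n + 1) :
    stf n f (j + 1) = lev (f 0) (mf n f j) := by
  unfold stf
  rw [if_pos ⟨by omega, by omega⟩, Nat.add_sub_cancel]

private theorem mf_zero (n : ℕ) (f : Fin (n + 1) → ℚ) : mf n f 0 = 0 := by
  unfold mf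
  rw [dif_neg (by omega)]

private theorem mf_last (n : ℕ) (f : Fin (n + 1) → ℚ) : mf n f (n + 1) = 0 := by
  unfold mf
  rw [dif_neg (by omega)]

private theorem stf_mem (n : ℕ) (f : Fin (n + 1) → ℚ) : stf n f ∈ St (tk (n + 1)) := by
  refine ⟨⟨⟨?_, ?_⟩, fun _ => trivial, fun j hj => ?_⟩, ?_⟩
  · show Fit ⟨[true], cup true, []⟩ (stf n f 0) (stf n f 1)
    have h0 : stf n f 0 = 0 := by
      unfold stf
      rw [if_neg (by omega)]
    rw [h0, stf_mid n f 0 (by omega), mf_zero]
    refine ⟨fun i hi => ?_, fun i hi => ?_⟩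
    · have hi' : i ≤ 1 := hi
      unfold lev
      rcases Nat.lt_or_ge i 1 with h1 | h1
      · rw [if_neg (by omega), if_neg (by omega)]
        rfl
      · rw [if_pos (by omega)]
        rfl
    · have hi' : 1 ≤ i := hi
      unfold lev
      rw [if_neg (by omega), if_neg (by omega)]
      rfl
  · refine (ta_run (n + 1) (sh 1 (stf n f))).2 ⟨fun j hj i hi => ?_, ?_⟩
    · show stf n f (j + 1 + 1) i = stf n f (j + 1) i
      rw [stf_mid n f (j + 1) (by omega), stf_mid n f j (by omega)]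
      unfold lev
      rw [if_neg hi, if_neg hi]
    · show Fit tacap (stf n f (n + 1 + 1)) (stf n f (n + 1 + 1 + 1))
      have h0 : stf n f (n + 1 + 1 + 1) = 0 := by
        unfold stf
        rw [if_neg (by omega)]
      rw [h0, stf_mid n f (n + 1) (by omega), mf_last]
      refine ⟨fun i hi => ?_, fun i hi => ?_⟩
      · have hi' : i ≤ 1 := hi
        unfold lev
        rcases Nat.lt_or_ge i 1 with h1 | h1
        · rw [if_neg (by omega), if_neg (by omega)]
          rfl
        · rw [if_pos (by omega)]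
          rfl
      · have hi' : 1 ≤ i := hi
        unfold lev
        rw [if_neg (by omega), if_neg (by omega)]
        rfl
  · rw [tk_length] at hj
    unfold stf
    rw [if_neg (by omega)]
  · show stf n f 0 = 0
    unfold stf
    rw [if_neg (by omega)]

/-- the values of a state -/
private def vals (n : ℕ) (x : ℕ → ℕ → ℚ) : Fin (n + 1) → ℚ := fun i => if (i : ℕ) = 0 then x 1 2 else x (i + 1) 1

private theorem vals_zero (n : ℕ) (x : ℕ → ℕ → ℚ) : vals n x 0 = x 1 2 := by
  unfold vals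
  rw [if_pos (by simp)]

/-- the levels of a state -/
private theorem ta_lev (n : ℕ) (x : ℕ → ℕ → ℚ) (h : x ∈ St (tk (n + 1))) :
    (∀ j, j ≤ n + 1 → x (j + 1) = lev (x 1 2) (x (j + 1) 1)) ∧ x 1 1 = 0 ∧ x (n + 2) 1 = 0 ∧ x (n + 3) = 0 := by
  obtain ⟨⟨⟨h1, h2⟩, -, h3⟩, h4⟩ := h
  obtain ⟨h5, h6⟩ := (ta_run (n + 1) (sh 1 x)).1 h2
  have h1' : Fit ⟨[true], cup true, []⟩ (x 0) (x 1) := h1
  rw [h4] at h1'
  have a0 : x 1 0 = 0 := h1'.1 0 (Nat.zero_le _)
  have a1 : x 1 1 = 0 := h1'.1 1 (le_refl 1)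
  have a3 : ∀ i, 3 ≤ i → x 1 i = 0 := fun i hi => by
    obtain ⟨m, rfl⟩ : ∃ m, i = m + 2 := ⟨i - 2, by omega⟩
    exact h1'.2 m (show 1 ≤ m by omega)
  have b : ∀ j, j ≤ n + 1 → ∀ i, i ≠ 1 → x (j + 1) i = x 1 i := by
    intro j
    induction j with
    | zero => exact fun _ i _ => rfl
    | succ j ih =>
      intro hj i hi
      rw [← ih (by omega) i hi]
      exact h5 j (by omega) i hi
  have h6' : Fit tacap (x (n + 2)) (x (n + 3)) := h6
  have c3 : x (n + 2) 3 = 0 := by
    rw [show n + 2 = (n + 1) + 1 from rfl, b (n + 1) (le_refl _) 3 (by omega)]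
    exact a3 3 (le_refl 3)
  have c1 : x (n + 3) 1 = 0 := by
    rw [← h6'.2 1 (le_refl 1)]
    exact c3
  have c2 : x (n + 2) 1 = 0 := by
    rw [h6'.1 1 (le_refl 1)]
    exact c1
  refine ⟨fun j hj => ?_, a1, c2, ?_⟩
  · funext i
    unfold lev
    split_ifs with e1 e2
    · rw [e1]
    · rw [b j hj i e1, e2]
    · rw [b j hj i e1]
      rcases Nat.eq_zero_or_pos i with e3 | e3
      · rw [e3, a0]
      · exact a3 i (by omega)
  · funext i
    rcases Nat.eq_zero_or_pos i with e | e
    · rw [e, ← h6'.1 0 (Nat.zero_le _), show n + 2 = (n + 1) + 1 from rfl, b (n + 1) (le_refl _) 0 (by omega), a0]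
      rfl
    · rw [← h6'.2 i e, show n + 2 = (n + 1) + 1 from rfl, b (n + 1) (le_refl _) (i + 2) (by omega), a3 (i + 2) (by omega)]
      rfl

/-- the values at the gap `1` -/
private theorem ta_mf (n : ℕ) (x : ℕ → ℕ → ℚ) (h : x ∈ St (tk (n + 1))) (j : ℕ) (hj : j ≤ n + 1) :
    mf n (vals n x) j = x (j + 1) 1 := by
  obtain ⟨-, h1, h2, -⟩ := ta_lev n x h
  unfold mf
  split_ifs with h3
  · unfold vals
    rw [if_neg (by simpa using (show j ≠ 0 by omega))]
  · rcases Nat.eq_zero_or_pos j with e | e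
    · rw [e]
      exact h1.symm
    · have : j = n + 1 := by omega
      rw [this]
      exact h2.symm

private theorem ta_stf (n : ℕ) (x : ℕ → ℕ → ℚ) (h : x ∈ St (tk (n + 1))) : stf n (vals n x) = x := by
  obtain ⟨h1, -, -, h2⟩ := ta_lev n x h
  funext j
  rcases Nat.eq_zero_or_pos j with e | e
  · rw [e, h.2]
    unfold stf
    rw [if_neg (by omega)]
  · obtain ⟨k, rfl⟩ : ∃ k, j = k + 1 := ⟨j - 1, by omega⟩
    rcases Nat.lt_or_ge (n + 1) k with hk | hk
    · unfold stf
      rw [if_neg (by omega)]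
      rcases Nat.lt_or_ge (n + 2) k with hk' | hk'
      · exact (h.1.2.2 (k + 1) (by rw [tk_length]; omega)).symm
      · have : k = n + 2 := by omega
        rw [this]
        exact h2.symm
    · rw [stf_mid n _ k hk, ta_mf n x h k hk, vals_zero]
      exact (h1 k hk).symm

theorem tk_states (c : ℚ) (n : ℕ) : ∃ Φ : St (tk (n + 1)) ≃ₗ[ℚ] (Fin (n + 1) → ℚ), ∀ t : St (tk (n + 1)),
    kq c (tk (n + 1)) t.1 t.1 = qt c (n + 1) (mf n (Φ t)) (Φ t 0) := by
  refine ⟨{ toFun := fun t => vals n t.1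
            map_add' := fun s t => ?_
            map_smul' := fun r t => ?_
            invFun := fun f => ⟨stf n f, stf_mem n f⟩
            left_inv := fun t => Subtype.ext (ta_stf n t.1 t.2)
            right_inv := fun f => ?_ }, fun t => ?_⟩
  · funext i
    show vals n (s.1 + t.1) i = vals n s.1 i + vals n t.1 i
    unfold vals
    split_ifs <;> rfl
  · funext i
    show vals n (r • t.1) i = r • vals n t.1 i
    unfold vals
    split_ifs <;> rfl
  · funext i
    show vals n (stf n f) i = f i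
    unfold vals
    split_ifs with h
    · rw [stf_mid n f 0 (by omega)]
      unfold lev
      rw [if_neg (by omega), if_pos rfl]
      exact congrArg f (Fin.ext (by simpa using h.symm))
    · have hi := i.2
      rw [stf_mid n f i (by omega)]
      unfold lev
      rw [if_pos rfl]
      unfold mf
      rw [dif_pos ⟨by omega, by omega⟩]
  · show kq c (tk (n + 1)) t.1 t.1 = qt c (n + 1) (mf n (vals n t.1)) (vals n t.1 0)
    have h1 : kq c (tk (n + 1)) t.1 t.1 = kq c (tatl (n + 1)) (sh 1 t.1) (sh 1 t.1) := by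
      show kl c ⟨[true], cup true, []⟩ _ _ _ _ + kq c (tatl (n + 1)) (sh 1 t.1) (sh 1 t.1) = _
      simp [kl, sn]
    rw [h1, ta_kq, qt]
    refine Finset.sum_congr rfl fun j hj => ?_
    have hj' : j < n + 1 := Finset.mem_range.1 hj
    rw [ta_mf n t.1 t.2 j (by omega), ta_mf n t.1 t.2 (j + 1) (by omega), vals_zero]
    obtain ⟨h2, -, -, -⟩ := ta_lev n t.1 t.2
    have e0 : t.1 (j + 1) 0 = 0 := by
      rw [h2 j (by omega)]
      rfl
    have e2 : t.1 (j + 1) 2 = t.1 1 2 := by
      rw [h2 j (by omega)]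
      rfl
    show ((t.1 (j + 1) 0 + t.1 (j + 1) 2 + c * (t.1 (j + 1 + 1) 1 + t.1 (j + 1) 1)) ^ 2 -
      (1 - c ^ 2) * (t.1 (j + 1 + 1) 1 - t.1 (j + 1) 1) ^ 2) = _
    rw [e0, e2, zero_add]

theorem wr_tk (n : ℕ) : wr (tk n) = n := by
  have h : ∀ k : ℕ, wr (tatl k) = k := by
    intro k
    induction k with
    | zero => rfl
    | succ k ih =>
      rw [tatl_succ]
      show sn _ + wr (tatl k) = _
      rw [ih]
      simp [sn, sz]
      ring
  show sn ⟨[true], cup true, []⟩ + wr (tatl n) = n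
  rw [h]
  simp [sn]

end Pool.Agent.Lib.MP_177a0e_gt.LT
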