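import Pool.Agent.Lib.MP_177a0e_gt.LT.TorD
import Pool.Agent.Lib.MP_177a0e_gt.Sig.La0b

/-!
# completing the squares; the signature of a diagonal form.

`dk`, `ek`, `fk`, `qt` are in `TorD.lean` (`0⁻¹ = 0`, so `dk c 1 = 2 (2 c ^ 2 - 1)`, `ek c 1 = 2 c / dk c 1`, `fk c 1 = 1`).
* `qt_step`: by induction on `n` (write `γ = 2 c ^ 2 - 1`): if `m 0 = 0` and `dk c k ≠ 0` for `1 ≤ k < n` then
  `qt c n m r = ∑_{1 ≤ k < n} d_k (m_k + m_{k+1} / d_k + e_k r) ^ 2 + (γ - 1 / d_{n-1}) m_n ^ 2 + 2 (c - e_{n-1}) m_n r + f_n r ^ 2`.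
  `n = 1`: `(r + c m_1) ^ 2 - (1 - c ^ 2) m_1 ^ 2`. Step: add `(r + c (m_{n+1} + m_n)) ^ 2 - (1 - c ^ 2) (m_{n+1} - m_n) ^ 2` and use `d_n = 2 γ - 1 / d_{n-1}`, `d_n e_n = 2 c - e_{n-1}`, `f_{n+1} = f_n + 1 - d_n e_n ^ 2`.
* `sg_diag`: the basis of `E` which corresponds under `e` to the standard basis of `ι → ℚ` (`Module.Basis.ofEquivFun e`) is orthogonal (polarization: `2 B x y = B (x + y) (x + y) - B x x - B y y`, with `hB`), with the values `d i`: `sg_orth` (`Sig/La0b.lean`).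
-/

namespace Pool.Agent.Lib.MP_177a0e_gt.LT

open Pool.Agent.Lib.MP_177a0e_gt.Tangle Pool.Agent.Lib.MP_177a0e_gt.Tangle.Gen
open Pool.Agent.Lib.MP_177a0e_gt.Sig

theorem qt_step (c : ℚ) (n : ℕ) (h : ∀ k, 1 ≤ k → k ≤ n → dk c k ≠ 0) (m : ℕ → ℚ) (hm : m 0 = 0) (r : ℚ) :
    qt c (n + 1) m r = ∑ k ∈ Finset.range n, dk c (k + 1) * (m (k + 1) + m (k + 2) / dk c (k + 1) + ek c (k + 1) * r) ^ 2 +
      ((2 * c ^ 2 - 1 - (dk c n)⁻¹) * m (n + 1) ^ 2 + 2 * (c - ek c n) * m (n + 1) * r + fk c (n + 1) * r ^ 2) := by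
  induction n with
  | zero =>
    simp only [qt, fk, dk, ek, Finset.sum_range_one, Finset.sum_range_zero, zero_add, hm, inv_zero, Nat.cast_one]
    ring
  | succ n ih =>
    have ih' := ih fun k h1 h2 => h k h1 (by omega)
    have hD : dk c (n + 1) ≠ 0 := h (n + 1) (by omega) le_rfl
    have hq : qt c (n + 1 + 1) m r = qt c (n + 1) m r +
        ((r + c * (m (n + 1 + 1) + m (n + 1))) ^ 2 - (1 - c ^ 2) * (m (n + 1 + 1) - m (n + 1)) ^ 2) := by
      unfold qt
      rw [Finset.sum_range_succ]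
    have hf : fk c (n + 1 + 1) = fk c (n + 1) + 1 - dk c (n + 1) * ek c (n + 1) ^ 2 := by
      unfold fk
      rw [Finset.sum_range_succ _ (n + 1)]
      push_cast
      ring
    have hd : (dk c n)⁻¹ = 2 * (2 * c ^ 2 - 1) - dk c (n + 1) := by
      simp only [dk]
      ring
    have he : ek c n = 2 * c - ek c (n + 1) * dk c (n + 1) := by
      have : ek c (n + 1) = (2 * c - ek c n) / dk c (n + 1) := by simp only [ek]
      rw [this, div_mul_cancel₀ _ hD]
      ring
    rw [hq, ih', Finset.sum_range_succ, hf, hd, he]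
    have h2 : n + 1 + 1 = n + 2 := rfl
    rw [h2]
    generalize (∑ k ∈ Finset.range n, dk c (k + 1) * (m (k + 1) + m (k + 2) / dk c (k + 1) + ek c (k + 1) * r) ^ 2) = S
    generalize dk c (n + 1) = D at hD
    generalize ek c (n + 1) = E
    field_simp
    ring

theorem sg_diag {E ι : Type*} [AddCommGroup E] [Module ℚ E] [Fintype ι] (B : LinearMap.BilinForm ℚ E)
    (hB : ∀ x y, B x y = B y x) (e : E ≃ₗ[ℚ] (ι → ℚ)) (d : ι → ℚ) (h : ∀ x, B x x = ∑ i, d i * e x i ^ 2) :
    sg B = ∑ i, ((SignType.sign (d i) : SignType) : ℤ) := by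
  classical
  let v : Module.Basis ι ℚ E := Module.Basis.ofEquivFun e
  have hfd : FiniteDimensional ℚ E := Module.Finite.of_basis v
  have hv : ∀ i j, e (v i) j = if j = i then (1 : ℚ) else 0 := by
    intro i j
    have : e (v i) = Pi.single i 1 := by
      simp [v]
    rw [this, Pi.single_apply]
  have hself : ∀ i, B (v i) (v i) = d i := by
    intro i
    rw [h, Finset.sum_eq_single i]
    · rw [hv, if_pos rfl]
      ring
    · intro j _ hj
      rw [hv, if_neg hj]
      ring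
    · intro hi
      exact absurd (Finset.mem_univ i) hi
  have horth : ∀ i j, i ≠ j → B (v i) (v j) = 0 := by
    intro i j hij
    have h1 : B (v i + v j) (v i + v j) = B (v i) (v i) + B (v j) (v j) + 2 * B (v i) (v j) := by
      simp only [map_add, LinearMap.add_apply]
      rw [hB (v j) (v i)]
      ring
    have h2 : B (v i + v j) (v i + v j) = B (v i) (v i) + B (v j) (v j) := by
      rw [h, h, h, ← Finset.sum_add_distrib]
      refine Finset.sum_congr rfl fun k _ => ?_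
      rw [map_add, Pi.add_apply, hv, hv]
      by_cases h3 : k = i
      · have h4 : k ≠ j := fun h5 => hij (h3.symm.trans h5)
        rw [if_neg h4]
        ring
      · rw [if_neg h3]
        ring
    linarith
  rw [sg_orth v horth, Finset.card_filter, Finset.card_filter, Nat.cast_sum, Nat.cast_sum, ← Finset.sum_sub_distrib]
  refine Finset.sum_congr rfl fun i _ => ?_
  rw [hself]
  rcases lt_trichotomy (d i) 0 with h1 | h1 | h1
  · rw [sign_neg h1, if_neg (not_lt.mpr h1.le), if_pos h1]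
    simp
  · rw [h1, sign_zero, if_neg (lt_irrefl _)]
    simp
  · rw [sign_pos h1, if_pos h1, if_neg (not_lt.mpr h1.le)]
    simp

end Pool.Agent.Lib.MP_177a0e_gt.LT
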