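import Pool.Agent.Lib.MP_177a0e_gt.LT.TA
import Pool.Agent.Lib.MP_177a0e_gt.LT.TB

/-!
# the signature of `T(2, n + 1)` by the pivots.

PROOF. `tk_states` and `qt_step` (with `m = mf n f`, `m (n + 1) = 0`, `m 0 = 0`): for `f = Φ t`: `kq .. = ∑_{k < n} d_{k+1} (m_{k+1} + m_{k+2} / d_{k+1} + e_{k+1} r) ^ 2 + f_{n+1} r ^ 2`, `r = f 0`. The linear map `T : (Fin (n + 1) → ℚ) → (Fin (n + 1) → ℚ)`, `(T f) 0 = f 0`, `(T f) k = m_k + m_{k+1} / d_k + e_k r` for `1 ≤ k ≤ n`, is injective (`f 0 = 0`, then `m_n = 0`, `m_{n-1} = 0`, …, downwards),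
so bijective (`LinearMap.linearEquivOfInjective`, `LinearEquiv.ofInjectiveEndo`). `sg_diag` with `e = Φ ≫ T`, `d 0 = fk c (n + 1)`, `d k = dk c k` for `k ≥ 1` (`Fin.sum_univ_succ`, `Finset.sum_range`); `kw c w x x = kq c w x.1 x.1`, symmetric: `kform_symm`.
-/

namespace Pool.Agent.Lib.MP_177a0e_gt.LT

open Pool.Agent.Lib.MP_177a0e_gt.Tangle Pool.Agent.Lib.MP_177a0e_gt.Tangle.Gen
open Pool.Agent.Lib.MP_177a0e_gt.Sig

private theorem tc_mf_add (n : ℕ) (f g : Fin (n + 1) → ℚ) (j : ℕ) :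
    mf n (f + g) j = mf n f j + mf n g j := by
  unfold mf
  split_ifs
  · rfl
  · rw [add_zero]

private theorem tc_mf_smul (n : ℕ) (r : ℚ) (f : Fin (n + 1) → ℚ) (j : ℕ) :
    mf n (r • f) j = r * mf n f j := by
  unfold mf
  split_ifs
  · rfl
  · rw [mul_zero]

/-- the linear map of the completed squares -/
private def tcT (c : ℚ) (n : ℕ) : (Fin (n + 1) → ℚ) →ₗ[ℚ] (Fin (n + 1) → ℚ) where
  toFun f := Fin.cons (α := fun _ => ℚ) (f 0) fun k : Fin n =>
    mf n f (k + 1) + mf n f (k + 2) / dk c (k + 1) + ek c (k + 1) * f 0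
  map_add' f g := by
    funext i
    refine Fin.cases ?_ (fun k => ?_) i
    · show (f + g) 0 = f 0 + g 0
      rfl
    · show mf n (f + g) (k + 1) + mf n (f + g) (k + 2) / dk c (k + 1) + ek c (k + 1) * (f 0 + g 0) =
        (mf n f (k + 1) + mf n f (k + 2) / dk c (k + 1) + ek c (k + 1) * f 0) +
        (mf n g (k + 1) + mf n g (k + 2) / dk c (k + 1) + ek c (k + 1) * g 0)
      rw [tc_mf_add, tc_mf_add]
      ring
  map_smul' r f := by
    funext i
    refine Fin.cases ?_ (fun k => ?_) i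
    · show r * f 0 = r * f 0
      rfl
    · show mf n (r • f) (k + 1) + mf n (r • f) (k + 2) / dk c (k + 1) + ek c (k + 1) * (r * f 0) =
        r * (mf n f (k + 1) + mf n f (k + 2) / dk c (k + 1) + ek c (k + 1) * f 0)
      rw [tc_mf_smul, tc_mf_smul]
      ring

private theorem tcT_zero (c : ℚ) (n : ℕ) (f : Fin (n + 1) → ℚ) : tcT c n f 0 = f 0 := rfl

private theorem tcT_succ (c : ℚ) (n : ℕ) (f : Fin (n + 1) → ℚ) (k : Fin n) :
    tcT c n f k.succ = mf n f (k + 1) + mf n f (k + 2) / dk c (k + 1) + ek c (k + 1) * f 0 := rfl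

private theorem tc_mf_last (n : ℕ) (f : Fin (n + 1) → ℚ) : mf n f (n + 1) = 0 := by
  unfold mf
  rw [dif_neg (by omega)]

private theorem tc_inj (c : ℚ) (n : ℕ) : Function.Injective (tcT c n) := by
  rw [← LinearMap.ker_eq_bot, LinearMap.ker_eq_bot']
  intro f hf
  have h0 : f 0 = 0 := by
    rw [← tcT_zero c n f, hf]
    rfl
  have hk : ∀ k : ℕ, k < n → mf n f (k + 1) + mf n f (k + 2) / dk c (k + 1) = 0 := by
    intro k hk
    have h1 := tcT_succ c n f ⟨k, hk⟩
    rw [hf, h0, mul_zero, add_zero] at h1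
    exact h1.symm
  have hall : ∀ i : ℕ, i ≤ n → mf n f (n + 1 - i) = 0 := by
    intro i
    induction i with
    | zero => intro _; exact tc_mf_last n f
    | succ i ih =>
      intro hi
      have h1 := ih (by omega)
      have h2 := hk (n - (i + 1)) (by omega)
      have e1 : n - (i + 1) + 1 = n + 1 - (i + 1) := by omega
      have e2 : n - (i + 1) + 2 = n + 1 - i := by omega
      rw [e2, h1, zero_div, add_zero, e1] at h2
      exact h2
  funext i
  refine Fin.cases h0 (fun k => ?_) i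
  have h1 := hall (n - k) (by omega)
  have e1 : n + 1 - (n - (k : ℕ)) = k + 1 := by
    have := k.isLt
    omega
  rw [e1] at h1
  unfold mf at h1
  rw [dif_pos ⟨by omega, by have := k.isLt; omega⟩] at h1
  exact h1

theorem tk_sg (c : ℚ) (n : ℕ) (h : ∀ k, 1 ≤ k → k ≤ n → dk c k ≠ 0) :
    sg (kw c (tk (n + 1))) = ∑ k ∈ Finset.range n, ((SignType.sign (dk c (k + 1)) : SignType) : ℤ) +
      ((SignType.sign (fk c (n + 1)) : SignType) : ℤ) := by
  obtain ⟨Φ, hΦ⟩ := tk_states c n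
  have hform : ∀ x : St (tk (n + 1)), kw c (tk (n + 1)) x x =
      ∑ i, (Fin.cons (α := fun _ => ℚ) (fk c (n + 1)) fun k : Fin n => dk c (k + 1)) i *
        (Φ.trans (LinearEquiv.ofInjectiveEndo (tcT c n) (tc_inj c n))) x i ^ 2 := by
    intro x
    have h1 : kw c (tk (n + 1)) x x = kq c (tk (n + 1)) x.1 x.1 := rfl
    have h2 : ∀ i, (Φ.trans (LinearEquiv.ofInjectiveEndo (tcT c n) (tc_inj c n))) x i =
        tcT c n (Φ x) i := fun i => rfl
    have hm0 : mf n (Φ x) 0 = 0 := by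
      unfold mf
      rw [dif_neg (by omega)]
    rw [h1, hΦ, qt_step c n h _ hm0, tc_mf_last, Fin.sum_univ_succ, Finset.sum_range]
    simp only [h2, Fin.cons_zero, Fin.cons_succ, tcT_zero, tcT_succ]
    ring
  rw [sg_diag (kw c (tk (n + 1))) (fun x y => kform_symm c _ x.1 y.1)
    (Φ.trans (LinearEquiv.ofInjectiveEndo (tcT c n) (tc_inj c n)))
    (Fin.cons (α := fun _ => ℚ) (fk c (n + 1)) fun k : Fin n => dk c (k + 1)) hform,
    Fin.sum_univ_succ, Finset.sum_range]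
  simp only [Fin.cons_zero, Fin.cons_succ]
  rw [add_comm]

end Pool.Agent.Lib.MP_177a0e_gt.LT
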