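import Pool.Agent.Lib.MP_177a0e_gt.LT.Crit

/-!
# sums of at most three torus knots.

`crit` (in `Crit.lean`) is the criterion: groups `G`, `θ`. PROOFS.
* `fl_near`: `θ = 1 / 2 - 1 / (2 N)`: `n θ + 1 / 2 = (n + 1) / 2 - n / (2 N)`, `0 < n / (2 N) ≤ 1 / 2`: the floor is `(n + 1) / 2 - 1 = (n - 1) / 2`.
* `three`: if `ΣP < ΣM` exchange the roles (`adj (tsum M ++ adj (tsum P)) = tsum P ++ adj (tsum M)`: `adj_append`, `Tangle.adj_adj`; `ribbon_adj`, `slice_adj` in `UB.lean`, `abs_sub_comm`). Let `ΣM ≤ ΣP`. `M` has at most two elements (if `P = []` then `M = []`, everything is zero: `G = []`, `θ = 0`).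
  - `P = [p_1, …, p_k]`, `M = []`: `G = [([p_1], []), …]`, `θ` near `1 / 2` (`fl_near` with `N` the largest or the sum of all numbers): `2 ∑ (p_i - 1) / 2 = ∑ (1 + p_i - 2)`.
  - `P = [p]`, `M = [q]` or `[q, q']`: `G = [(P, M)]`, `θ` near `1 / 2`: `(p - 1) - (q - 1) = 2 + p - q - 2`, `(p - 1) - (q - 1) - (q' - 1) = 3 + p - q - q' - 2`.
  - `P = [p, p']`, `M = [q]`: if `q ≤ p`: `G = [([p], [q]), ([p'], [])]`; if `q ≤ p'`: `G = [([p], []), ([p'], [q])]`, `θ` near `1 / 2`. If `q > p` and `q > p'` (so `q ≥ p + 2, p' + 2`, `q ≥ 3`): `G = [([p, p'], [q])]`, `θ = 1 / 2 - 1 / (q - 1)`: `fl p θ = (p - 1) / 2`, `fl p' θ = (p' - 1) / 2` (`p / (q - 1) < 1`), `fl q θ = (q - 3) / 2`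
    (`q θ + 1 / 2 = (q + 1) / 2 - 1 - 1 / (q - 1)`): `(p - 1) + (p' - 1) - (q - 3) = 3 + p + p' - q - 2`.
-/

namespace Pool.Agent.Lib.MP_177a0e_gt.LT

open Pool.Agent.Lib.MP_177a0e_gt.Tangle Pool.Agent.Lib.MP_177a0e_gt.Tangle.Gen
open Pool.Agent.Lib.MP_177a0e_gt.Sig

/-- the floor at `1 / 2 - ε` -/
private theorem thr_fl (n : ℕ) (hn : n % 2 = 1) (ε : ℝ) (k : ℤ) (h1 : (k : ℝ) < n * ε) (h2 : (n : ℝ) * ε ≤ k + 1) :
    fl n (1 / 2 - ε) = ((n : ℤ) - 1) / 2 - k := by
  unfold fl
  obtain ⟨m, rfl⟩ : ∃ m, n = 2 * m + 1 := ⟨n / 2, by omega⟩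
  have e : (((2 * m + 1 : ℕ) : ℤ) - 1) / 2 = m := by
    push_cast
    omega
  rw [e, Int.floor_eq_iff]
  push_cast at h1 h2 ⊢
  constructor <;> nlinarith

theorem fl_near (n N : ℕ) (hn : n % 2 = 1) (hN : n ≤ N) : fl n (1 / 2 - 1 / (2 * N)) = ((n : ℤ) - 1) / 2 := by
  have h0 : (0 : ℝ) < n := by
    have : 0 < n := by omega
    exact_mod_cast this
  have h1 : (n : ℝ) ≤ N := by exact_mod_cast hN
  have h2 : (0 : ℝ) < 2 * N := by linarith
  have h3 := thr_fl n hn (1 / (2 * N)) 0 (by
    push_cast
    positivity) (by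
    push_cast
    rw [mul_one_div, div_le_iff₀ h2]
    linarith)
  rw [h3, sub_zero]

/-- the angle near `1 / 2` -/
private theorem thr_near (P M : List ℕ) (hP : ∀ n ∈ P, n % 2 = 1) (hM : ∀ n ∈ M, n % 2 = 1) :
    ∃ θ : ℝ, 0 ≤ θ ∧ θ < 1 / 2 ∧ fsum P θ = (P.map fun n : ℕ => ((n : ℤ) - 1) / 2).sum ∧
      fsum M θ = (M.map fun n : ℕ => ((n : ℤ) - 1) / 2).sum := by
  have h0 : (0 : ℝ) < ((P.sum + M.sum + 1 : ℕ) : ℝ) := by positivity
  have h1 : (1 : ℝ) ≤ ((P.sum + M.sum + 1 : ℕ) : ℝ) := by
    have : 1 ≤ P.sum + M.sum + 1 := by omega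
    exact_mod_cast this
  refine ⟨1 / 2 - 1 / (2 * ((P.sum + M.sum + 1 : ℕ) : ℝ)), ?_, ?_, ?_, ?_⟩
  · rw [sub_nonneg, div_le_div_iff₀ (by linarith) (by norm_num)]
    linarith
  · have : 0 < 1 / (2 * ((P.sum + M.sum + 1 : ℕ) : ℝ)) := by positivity
    linarith
  · unfold fsum
    congr 1
    refine List.map_congr_left fun n hn => fl_near n _ (hP n hn) ?_
    have := List.le_sum_of_mem hn
    omega
  · unfold fsum
    congr 1
    refine List.map_congr_left fun n hn => fl_near n _ (hM n hn) ?_
    have := List.le_sum_of_mem hn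
    omega

/-- the criterion with the angle near `1 / 2` -/
private theorem thr_crit (G : List (List ℕ × List ℕ)) (P M : List ℕ) (hP' : ∀ n ∈ P, n % 2 = 1)
    (hM' : ∀ n ∈ M, n % 2 = 1) (h : ∀ t ∈ G, t.1 ≠ [] ∧ t.2.sum ≤ t.1.sum)
    (hP : (G.map Prod.fst).flatten = P) (hM : (G.map Prod.snd).flatten = M)
    (h2 : 2 * |(P.map fun n : ℕ => ((n : ℤ) - 1) / 2).sum - (M.map fun n : ℕ => ((n : ℤ) - 1) / 2).sum| =
      (G.map fun t => (t.1.length : ℤ) + t.2.length + t.1.sum - t.2.sum - 2).sum) :
    ribbonGenus (tsum P ++ adj (tsum M)) = sliceGenus (tsum P ++ adj (tsum M)) ∧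
      ∃ θ : ℝ, 0 ≤ θ ∧ θ < 1 / 2 ∧ (sliceGenus (tsum P ++ adj (tsum M)) : ℤ) = |fsum P θ - fsum M θ| := by
  obtain ⟨θ, h0, h1, h3, h4⟩ := thr_near P M hP' hM'
  have k := crit G h (fun t ht => ⟨fun n hn => hP' n (by
      rw [← hP, List.mem_flatten]
      exact ⟨t.1, List.mem_map_of_mem ht, hn⟩), fun n hn => hM' n (by
      rw [← hM, List.mem_flatten]
      exact ⟨t.2, List.mem_map_of_mem ht, hn⟩)⟩) P M hP hM θ h0 h1 (by
      rw [h3, h4]
      exact h2)
  exact ⟨k.1, θ, h0, h1, k.2⟩

/-- the case `ΣM ≤ ΣP` -/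
private theorem thr_pos (P M : List ℕ) (hP : ∀ n ∈ P, n % 2 = 1) (hM : ∀ n ∈ M, n % 2 = 1)
    (h : P.length + M.length ≤ 3) (hs : M.sum ≤ P.sum) :
    ribbonGenus (tsum P ++ adj (tsum M)) = sliceGenus (tsum P ++ adj (tsum M)) ∧
      ∃ θ : ℝ, 0 ≤ θ ∧ θ < 1 / 2 ∧ (sliceGenus (tsum P ++ adj (tsum M)) : ℤ) = |fsum P θ - fsum M θ| := by
  rcases P with _ | ⟨p, _ | ⟨p', _ | ⟨p'', P⟩⟩⟩
  · rcases M with _ | ⟨q, M⟩
    · exact thr_crit [] [] [] hP hM (fun t ht => by cases ht) rfl rfl rfl
    · exfalso
      have h1 := hM q (by simp)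
      simp only [List.sum_cons, List.sum_nil] at hs
      omega
  · have hp := hP p (by simp)
    rcases M with _ | ⟨q, _ | ⟨q', _ | ⟨q'', M⟩⟩⟩
    · refine thr_crit [([p], [])] _ _ hP hM (by simp) (by simp) (by simp) ?_
      simp only [List.map_cons, List.map_nil, List.sum_cons, List.sum_nil, List.length_cons, List.length_nil]
      rw [abs_of_nonneg (by omega)]
      push_cast
      omega
    · have hq := hM q (by simp)
      simp only [List.sum_cons, List.sum_nil] at hs
      refine thr_crit [([p], [q])] _ _ hP hM (by simp; omega) (by simp) (by simp) ?_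
      simp only [List.map_cons, List.map_nil, List.sum_cons, List.sum_nil, List.length_cons, List.length_nil]
      rw [abs_of_nonneg (by omega)]
      push_cast
      omega
    · have hq := hM q (by simp)
      have hq' := hM q' (by simp)
      simp only [List.sum_cons, List.sum_nil] at hs
      refine thr_crit [([p], [q, q'])] _ _ hP hM (by simp; omega) (by simp) (by simp) ?_
      simp only [List.map_cons, List.map_nil, List.sum_cons, List.sum_nil, List.length_cons, List.length_nil]
      rw [abs_of_nonneg (by omega)]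
      push_cast
      omega
    · exfalso
      simp only [List.length_cons, List.length_nil] at h
      omega
  · have hp := hP p (by simp)
    have hp' := hP p' (by simp)
    rcases M with _ | ⟨q, _ | ⟨q', M⟩⟩
    · refine thr_crit [([p], []), ([p'], [])] _ _ hP hM (by simp) (by simp) (by simp) ?_
      simp only [List.map_cons, List.map_nil, List.sum_cons, List.sum_nil, List.length_cons, List.length_nil]
      rw [abs_of_nonneg (by omega)]
      push_cast
      omega
    · have hq := hM q (by simp)
      simp only [List.sum_cons, List.sum_nil] at hs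
      rcases Nat.lt_or_ge p q with h1 | h1
      · rcases Nat.lt_or_ge p' q with h2 | h2
        · have e1 : (p : ℝ) + 2 ≤ q := by
            have : p + 2 ≤ q := by omega
            exact_mod_cast this
          have e2 : (p' : ℝ) + 2 ≤ q := by
            have : p' + 2 ≤ q := by omega
            exact_mod_cast this
          have e3 : (1 : ℝ) ≤ p := by
            have : 1 ≤ p := by omega
            exact_mod_cast this
          have e4 : (1 : ℝ) ≤ p' := by
            have : 1 ≤ p' := by omega
            exact_mod_cast this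
          have e5 : (0 : ℝ) < (q : ℝ) - 1 := by linarith
          have f1 := thr_fl p hp (1 / ((q : ℝ) - 1)) 0 (by
            push_cast
            positivity) (by
            push_cast
            rw [mul_one_div, div_le_iff₀ e5]
            linarith)
          have f2 := thr_fl p' hp' (1 / ((q : ℝ) - 1)) 0 (by
            push_cast
            positivity) (by
            push_cast
            rw [mul_one_div, div_le_iff₀ e5]
            linarith)
          have f3 := thr_fl q hq (1 / ((q : ℝ) - 1)) 1 (by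
            push_cast
            rw [mul_one_div, lt_div_iff₀ e5]
            linarith) (by
            push_cast
            rw [mul_one_div, div_le_iff₀ e5]
            linarith)
          have k := crit [([p, p'], [q])] (by simp; omega) (by
              intro t ht
              rw [List.mem_singleton] at ht
              subst ht
              exact ⟨hP, hM⟩) [p, p'] [q] (by simp) (by simp) (1 / 2 - 1 / ((q : ℝ) - 1)) (by
              rw [sub_nonneg, div_le_div_iff₀ e5 (by norm_num)]
              linarith) (by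
              have : 0 < 1 / ((q : ℝ) - 1) := by positivity
              linarith) (by
              simp only [fsum, List.map_cons, List.map_nil, List.sum_cons, List.sum_nil, List.length_cons,
                List.length_nil]
              rw [f1, f2, f3, abs_of_nonneg (by omega)]
              push_cast
              omega)
          refine ⟨k.1, _, ?_, ?_, k.2⟩
          · rw [sub_nonneg, div_le_div_iff₀ e5 (by norm_num)]
            linarith
          · have : 0 < 1 / ((q : ℝ) - 1) := by positivity
            linarith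
        · refine thr_crit [([p], []), ([p'], [q])] _ _ hP hM (by simp; omega) (by simp) (by simp) ?_
          simp only [List.map_cons, List.map_nil, List.sum_cons, List.sum_nil, List.length_cons, List.length_nil]
          rw [abs_of_nonneg (by omega)]
          push_cast
          omega
      · refine thr_crit [([p], [q]), ([p'], [])] _ _ hP hM (by simp; omega) (by simp) (by simp) ?_
        simp only [List.map_cons, List.map_nil, List.sum_cons, List.sum_nil, List.length_cons, List.length_nil]
        rw [abs_of_nonneg (by omega)]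
        push_cast
        omega
    · exfalso
      simp only [List.length_cons] at h
      omega
  · have hp := hP p (by simp)
    have hp' := hP p' (by simp)
    have hp'' := hP p'' (by simp)
    have hPn : P = [] := by
      rcases P with _ | ⟨a, P⟩
      · rfl
      · exfalso
        simp only [List.length_cons] at h
        omega
    have hMn : M = [] := by
      rcases M with _ | ⟨a, M⟩
      · rfl
      · exfalso
        simp only [List.length_cons] at h
        omega
    subst hPn hMn
    refine thr_crit [([p], []), ([p'], []), ([p''], [])] _ _ hP hM (by simp) (by simp) (by simp) ?_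
    simp only [List.map_cons, List.map_nil, List.sum_cons, List.sum_nil, List.length_cons, List.length_nil]
    rw [abs_of_nonneg (by omega)]
    push_cast
    omega

theorem three (P M : List ℕ) (hP : ∀ n ∈ P, n % 2 = 1) (hM : ∀ n ∈ M, n % 2 = 1) (h : P.length + M.length ≤ 3) :
    ribbonGenus (tsum P ++ adj (tsum M)) = sliceGenus (tsum P ++ adj (tsum M)) ∧
      ∃ θ : ℝ, 0 ≤ θ ∧ θ < 1 / 2 ∧ (sliceGenus (tsum P ++ adj (tsum M)) : ℤ) = |fsum P θ - fsum M θ| := by
  rcases Nat.le_total M.sum P.sum with hs | hs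
  · exact thr_pos P M hP hM h hs
  · obtain ⟨h1, θ, h2, h3, h4⟩ := thr_pos M P hM hP (by omega) hs
    have e : tsum P ++ adj (tsum M) = adj (tsum M ++ adj (tsum P)) := by
      rw [adj_append, Tangle.adj_adj]
    rw [e, slice_adj, ribbon_adj]
    exact ⟨h1, θ, h2, h3, by rw [h4, abs_sub_comm]⟩

end Pool.Agent.Lib.MP_177a0e_gt.LT
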