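import Pool.Agent.Lib.MP_177a0e_gt.LT.Defs
import Pool.Agent.Lib.MP_177a0e_gt.Sig.TbD

/-!
# the torus knots `T(2, n)` and their sums.

`tk n` has the levels `[true] | cup | [true, true, false] | n crossings of the two strands on the left | [true, true, false] | cap | [true]` (`twoBridge` is in `Sig/TbD.lean`).
-/

namespace Pool.Agent.Lib.MP_177a0e_gt.LT

open Pool.Agent.Lib.MP_177a0e_gt.Tangle Pool.Agent.Lib.MP_177a0e_gt.Tangle.Gen
open Pool.Agent.Lib.MP_177a0e_gt.Sig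

/-- the torus knot `T(2, n)` as a long knot, for odd `n` -/
def tk (n : ℕ) : Word := twoBridge (List.replicate n true)

/-- the connected sum of the `T(2, n)`, `n` in the list -/
def tsum (l : List ℕ) : Word := (l.map tk).flatten

/-- `⌊n θ + 1 / 2⌋` -/
noncomputable def fl (n : ℕ) (θ : ℝ) : ℤ := ⌊(n : ℝ) * θ + 1 / 2⌋

/-- the sum of the `⌊n θ + 1 / 2⌋`, `n` in the list -/
noncomputable def fsum (l : List ℕ) (θ : ℝ) : ℤ := (l.map fun n => fl n θ).sum

/-- the form of `T(2, n)` -/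
def qt (c : ℚ) (n : ℕ) (m : ℕ → ℚ) (r : ℚ) : ℚ :=
  ∑ j ∈ Finset.range n, ((r + c * (m (j + 1) + m j)) ^ 2 - (1 - c ^ 2) * (m (j + 1) - m j) ^ 2)

/-- the values `f 1, …, f n`, and `0` elsewhere -/
def mf (n : ℕ) (f : Fin (n + 1) → ℚ) (j : ℕ) : ℚ := if h : 1 ≤ j ∧ j ≤ n then f ⟨j, by omega⟩ else 0

/-- the pivots of the form of `T(2, n)` -/
def dk (c : ℚ) : ℕ → ℚ
  | 0 => 0
  | k + 1 => 2 * (2 * c ^ 2 - 1) - (dk c k)⁻¹

/-- the coefficients of the last variable -/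
def ek (c : ℚ) : ℕ → ℚ
  | 0 => 0
  | k + 1 => (2 * c - ek c k) / dk c (k + 1)

/-- the last diagonal entry -/
def fk (c : ℚ) (n : ℕ) : ℚ := n - ∑ k ∈ Finset.range n, dk c k * ek c k ^ 2

end Pool.Agent.Lib.MP_177a0e_gt.LT
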