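import Pool.Agent.Lib.MP_177a0e_gt.LT.Lw
import Pool.Agent.Lib.MP_177a0e_gt.LT.UC
import Pool.Agent.Lib.MP_177a0e_gt.LT.NB

/-!
# the knots `a T(2, p) # -b T(2, q)`.
-/

namespace Pool.Agent.Lib.MP_177a0e_gt.LT

open Pool.Agent.Lib.MP_177a0e_gt.Tangle Pool.Agent.Lib.MP_177a0e_gt.Tangle.Gen
open Pool.Agent.Lib.MP_177a0e_gt.Sig

theorem fsum_replicate (a p : ℕ) (θ : ℝ) : fsum (List.replicate a p) θ = a * fl p θ := by
  unfold fsum
  rw [List.map_replicate, List.sum_replicate, nsmul_eq_mul]

/-- the groups of a decomposition -/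
private def Two_g (p q : ℕ) (t : ℕ × ℕ) : List ℕ × List ℕ := (List.replicate t.1 p, List.replicate t.2 q)

private theorem Two_fst (p q : ℕ) (G : List (ℕ × ℕ)) :
    ((G.map (Two_g p q)).map Prod.fst).flatten = List.replicate (G.map Prod.fst).sum p := by
  induction G with
  | nil => rfl
  | cons t G ih =>
    rw [List.map_cons, List.map_cons, List.flatten_cons, ih, List.map_cons, List.sum_cons, List.replicate_add]
    rfl

private theorem Two_snd (p q : ℕ) (G : List (ℕ × ℕ)) :
    ((G.map (Two_g p q)).map Prod.snd).flatten = List.replicate (G.map Prod.snd).sum q := by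
  induction G with
  | nil => rfl
  | cons t G ih =>
    rw [List.map_cons, List.map_cons, List.flatten_cons, ih, List.map_cons, List.sum_cons, List.replicate_add]
    rfl

private theorem Two_sum (p q : ℕ) (G : List (ℕ × ℕ)) :
    ((G.map (Two_g p q)).map fun t => (t.1.length : ℤ) + t.2.length + t.1.sum - t.2.sum - 2).sum =
      ((G.map Prod.fst).sum : ℤ) * (p + 1) - (G.map Prod.snd).sum * (q - 1) - 2 * G.length := by
  induction G with
  | nil => simp
  | cons t G ih =>
    rw [List.map_cons, List.map_cons, List.sum_cons, ih, List.map_cons, List.sum_cons, List.map_cons, List.sum_cons,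
      List.length_cons]
    show ((List.replicate t.1 p).length : ℤ) + (List.replicate t.2 q).length + (List.replicate t.1 p).sum -
      (List.replicate t.2 q).sum - 2 + _ = _
    rw [List.length_replicate, List.length_replicate, List.sum_replicate, List.sum_replicate]
    push_cast [nsmul_eq_mul, smul_eq_mul]
    ring

/-- the case `b q ≤ a p` -/
private theorem two_pos (p q : ℕ) (hp : p % 2 = 1) (hq : q % 2 = 1) (a b : ℕ) (ha : 0 < a) (h : b * q ≤ a * p) :
    ∃ θ : ℝ, 0 ≤ θ ∧ θ < 1 / 2 ∧
      |(a : ℤ) * fl p θ - b * fl q θ| = sliceGenus (tsum (List.replicate a p) ++ adj (tsum (List.replicate b q))) ∧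
      ribbonGenus (tsum (List.replicate a p) ++ adj (tsum (List.replicate b q))) =
        sliceGenus (tsum (List.replicate a p) ++ adj (tsum (List.replicate b q))) := by
  obtain ⟨G, θ, hG, h1, h2, h3, h4, h5⟩ := ex_angle p q hp hq a b ha h
  have hP : ∀ n ∈ List.replicate a p, n % 2 = 1 := fun n hn => by
    rw [(List.mem_replicate.1 hn).2]
    exact hp
  have hM : ∀ n ∈ List.replicate b q, n % 2 = 1 := fun n hn => by
    rw [(List.mem_replicate.1 hn).2]
    exact hq
  have k1 := lower (List.replicate a p) (List.replicate b q) hP hM θ h3 h4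
  rw [fsum_replicate, fsum_replicate] at k1
  have k2 := upper (G.map (Two_g p q)) (fun t ht => by
      obtain ⟨s, hs, rfl⟩ := List.mem_map.1 ht
      have h6 := hG s hs
      refine ⟨fun h7 => ?_, ?_⟩
      · have h8 : (List.replicate s.1 p).length = 0 := by
          rw [show List.replicate s.1 p = [] from h7]
          rfl
        rw [List.length_replicate] at h8
        omega
      · show (List.replicate s.2 q).sum ≤ (List.replicate s.1 p).sum
        rw [List.sum_replicate, List.sum_replicate]
        exact h6.2) (fun t ht => by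
      obtain ⟨s, hs, rfl⟩ := List.mem_map.1 ht
      exact ⟨fun n hn => by
        rw [(List.mem_replicate.1 hn).2]
        exact hp, fun n hn => by
        rw [(List.mem_replicate.1 hn).2]
        exact hq⟩)
  rw [Two_fst, Two_snd, Two_sum, h1, h2] at k2
  have k3 : sliceGenus (tsum (List.replicate a p) ++ adj (tsum (List.replicate b q))) ≤
      ribbonGenus (tsum (List.replicate a p) ++ adj (tsum (List.replicate b q))) :=
    sliceGenus_le_ribbonGenus ⟨_, (tsum_knot _ hP).append (tsum_knot _ hM).adj⟩
  have k4 : (0 : ℤ) ≤ (a : ℤ) * (p + 1) - b * (q - 1) - 2 * G.length := le_trans (by positivity) k2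
  rw [abs_of_nonneg k4] at h5
  have k5 : (sliceGenus (tsum (List.replicate a p) ++ adj (tsum (List.replicate b q))) : ℤ) ≤
      ribbonGenus (tsum (List.replicate a p) ++ adj (tsum (List.replicate b q))) := by exact_mod_cast k3
  refine ⟨θ, h3, h4, ?_, ?_⟩
  · linarith
  · have : (ribbonGenus (tsum (List.replicate a p) ++ adj (tsum (List.replicate b q))) : ℤ) =
        sliceGenus (tsum (List.replicate a p) ++ adj (tsum (List.replicate b q))) := by linarith
    exact_mod_cast this

theorem two_types (p q : ℕ) (hp : p % 2 = 1) (hq : q % 2 = 1) (a b : ℕ) :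
    ribbonGenus (tsum (List.replicate a p) ++ adj (tsum (List.replicate b q))) =
      sliceGenus (tsum (List.replicate a p) ++ adj (tsum (List.replicate b q))) ∧
    IsGreatest {n : ℤ | ∃ θ : ℝ, 0 ≤ θ ∧ θ < 1 / 2 ∧ n = |(a : ℤ) * fl p θ - b * fl q θ|}
      (sliceGenus (tsum (List.replicate a p) ++ adj (tsum (List.replicate b q)))) := by
  have hub : (sliceGenus (tsum (List.replicate a p) ++ adj (tsum (List.replicate b q))) : ℤ) ∈
      upperBounds {n : ℤ | ∃ θ : ℝ, 0 ≤ θ ∧ θ < 1 / 2 ∧ n = |(a : ℤ) * fl p θ - b * fl q θ|} := by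
    rintro n ⟨θ, h0, h1, rfl⟩
    have := lower (List.replicate a p) (List.replicate b q) (fun n hn => by
      rw [(List.mem_replicate.1 hn).2]
      exact hp) (fun n hn => by
      rw [(List.mem_replicate.1 hn).2]
      exact hq) θ h0 h1
    rwa [fsum_replicate, fsum_replicate] at this
  rcases Nat.eq_zero_or_pos a with ha | ha
  · rcases Nat.eq_zero_or_pos b with hb | hb
    · subst ha hb
      have e : tsum (List.replicate 0 p) ++ adj (tsum (List.replicate 0 q)) = [] := rfl
      have h0 : BoundsRibbon [] 0 := ⟨0, Cob.refl valid_nil⟩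
      have h1 : ribbonGenus [] = 0 := Nat.le_zero.1 (Nat.sInf_le h0)
      have h2 : sliceGenus [] = 0 := Nat.le_zero.1 (h1 ▸ sliceGenus_le_ribbonGenus ⟨[], Relation.EqvGen.refl _⟩)
      rw [e] at hub ⊢
      refine ⟨h1.trans h2.symm, ⟨0, le_rfl, by norm_num, ?_⟩, hub⟩
      rw [h2]
      simp
    · have h3 := two_pos q p hq hp b a hb (by rw [ha, zero_mul]; exact Nat.zero_le _)
      have e : tsum (List.replicate a p) ++ adj (tsum (List.replicate b q)) =
          adj (tsum (List.replicate b q) ++ adj (tsum (List.replicate a p))) := by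
        rw [adj_append, Tangle.adj_adj]
      rw [e] at hub ⊢
      rw [slice_adj] at hub ⊢
      rw [ribbon_adj]
      obtain ⟨θ, h4, h5, h6, h7⟩ := h3
      exact ⟨h7, ⟨θ, h4, h5, by rw [← h6, abs_sub_comm]⟩, hub⟩
  · rcases Nat.le_total (b * q) (a * p) with h | h
    · obtain ⟨θ, h4, h5, h6, h7⟩ := two_pos p q hp hq a b ha h
      exact ⟨h7, ⟨θ, h4, h5, h6.symm⟩, hub⟩
    · have hb : 0 < b := by
        rcases Nat.eq_zero_or_pos b with hb | hb
        · rw [hb, zero_mul] at h
          have := Nat.mul_pos ha (show 0 < p by omega)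
          omega
        · exact hb
      have h3 := two_pos q p hq hp b a hb h
      have e : tsum (List.replicate a p) ++ adj (tsum (List.replicate b q)) =
          adj (tsum (List.replicate b q) ++ adj (tsum (List.replicate a p))) := by
        rw [adj_append, Tangle.adj_adj]
      rw [e] at hub ⊢
      rw [slice_adj] at hub ⊢
      rw [ribbon_adj]
      obtain ⟨θ, h4, h5, h6, h7⟩ := h3
      exact ⟨h7, ⟨θ, h4, h5, by rw [← h6, abs_sub_comm]⟩, hub⟩

end Pool.Agent.Lib.MP_177a0e_gt.LT
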