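import Pool.Agent.Lib.MP_177a0e_gt.LT.XD

/-!
# two words in disjoint places may be exchanged.

PROOF. First for one slice `s = ⟨p₁, g, q₁⟩` (`a = p₁ ++ g.src ++ q₁`, `b = p₁ ++ g.tgt ++ q₁`) on the left and one slice `s' = ⟨p₂, g', q₂⟩` on the right:
`rel_cob (Rel.interchange g g' (p ++ p₁) (q₁ ++ m ++ p₂) (q₂ ++ r))` after reassociating the lists (`simpa [cx, List.append_assoc]`); the validity
of both sides by `Valid.append`, `cx_valid`, `valid_single`. Then one slice on the left and a word on the right (induction on the word), then two words (induction on the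
left one). Use `Cob.ctx` (words below and above), `Cob.trans`, `cx_append`, `cx_cons`. Avoid rewriting levels: state the levels with a variable `c₀` and an equation, or use `by simpa [List.append_assoc] using`.
-/

namespace Pool.Agent.Lib.MP_177a0e_gt.LT

open Pool.Agent.Lib.MP_177a0e_gt.Tangle Pool.Agent.Lib.MP_177a0e_gt.Tangle.Gen
open Pool.Agent.Lib.MP_177a0e_gt.Sig

private theorem xa_left {a b : List Bool} {u : Word} (hu : Valid a u b) (p m c r : List Bool) :
    Valid (p ++ a ++ m ++ c ++ r) (cx p u (m ++ c ++ r)) (p ++ b ++ m ++ c ++ r) := by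
  have h := cx_valid hu p (m ++ c ++ r)
  have e : ∀ x : List Bool, p ++ x ++ (m ++ c ++ r) = p ++ x ++ m ++ c ++ r := by
    intro x
    simp [List.append_assoc]
  rw [e, e] at h
  exact h

private theorem xa_right {c d : List Bool} {v : Word} (hv : Valid c v d) (p b m r : List Bool) :
    Valid (p ++ b ++ m ++ c ++ r) (cx (p ++ b ++ m) v r) (p ++ b ++ m ++ d ++ r) :=
  cx_valid hv (p ++ b ++ m) r

private theorem xa_above {c e e₀ : List Bool} {w w' v : Word} (h : Cob c e 0 0 0 w w')
    (hv : Valid e v e₀) : Cob c e₀ 0 0 0 (w ++ v) (w' ++ v) := by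
  have := h.ctx (u := []) (show Valid c [] c from rfl) hv
  simpa using this

private theorem xa_below {c e c₀ : List Bool} {w w' u : Word} (h : Cob c e 0 0 0 w w')
    (hu : Valid c₀ u c) : Cob c₀ e 0 0 0 (u ++ w) (u ++ w') := by
  have := h.ctx (v := []) hu (show Valid e [] e from rfl)
  simpa using this

private theorem xa_one (s s' : Slice) (p m r : List Bool) :
    Cob (p ++ s.src ++ m ++ s'.src ++ r) (p ++ s.tgt ++ m ++ s'.tgt ++ r) 0 0 0
      (cx p [s] (m ++ s'.src ++ r) ++ cx (p ++ s.tgt ++ m) [s'] r)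
      (cx (p ++ s.src ++ m) [s'] r ++ cx p [s] (m ++ s'.tgt ++ r)) := by
  have h1 : Valid s.src [s] s.tgt := ⟨rfl, rfl⟩
  have h2 : Valid s'.src [s'] s'.tgt := ⟨rfl, rfl⟩
  refine rel_cob ?_ ((xa_left h1 p m s'.src r).append (xa_right h2 p s.tgt m r))
    ((xa_right h2 p s.src m r).append (xa_left h1 p m s'.tgt r))
  obtain ⟨p₁, g, q₁⟩ := s
  obtain ⟨p₂, g', q₂⟩ := s'
  have := Rel.interchange g g' (p ++ p₁) (q₁ ++ m ++ p₂) (q₂ ++ r)
  simpa [cx, Slice.src, Slice.tgt, List.append_assoc] using this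

private theorem xa_two (s : Slice) {c d : List Bool} {v : Word} (hv : Valid c v d)
    (p m r : List Bool) :
    Cob (p ++ s.src ++ m ++ c ++ r) (p ++ s.tgt ++ m ++ d ++ r) 0 0 0
      (cx p [s] (m ++ c ++ r) ++ cx (p ++ s.tgt ++ m) v r)
      (cx (p ++ s.src ++ m) v r ++ cx p [s] (m ++ d ++ r)) := by
  have h1 : Valid s.src [s] s.tgt := ⟨rfl, rfl⟩
  induction v generalizing c with
  | nil =>
    have hcd : c = d := hv
    subst hcd
    rw [cx_nil, cx_nil, List.append_nil, List.nil_append]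
    exact Cob.refl (xa_left h1 p m c r)
  | cons s' v ih =>
    obtain ⟨h2, h3⟩ := hv
    subst h2
    have h2 : Valid s'.src [s'] s'.tgt := ⟨rfl, rfl⟩
    have k1 := xa_above (xa_one s s' p m r) (xa_right h3 p s.tgt m r)
    have k2 := xa_below (ih h3) (xa_right h2 p s.src m r)
    have e1 : cx (p ++ s.tgt ++ m) (s' :: v) r =
        cx (p ++ s.tgt ++ m) [s'] r ++ cx (p ++ s.tgt ++ m) v r := rfl
    have e2 : cx (p ++ s.src ++ m) (s' :: v) r =
        cx (p ++ s.src ++ m) [s'] r ++ cx (p ++ s.src ++ m) v r := rfl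
    rw [e1, e2, ← List.append_assoc, List.append_assoc (cx (p ++ s.src ++ m) [s'] r)]
    rw [List.append_assoc (cx (p ++ s.src ++ m) [s'] r)] at k1
    exact k1.trans k2

theorem cx_comm {a b c d : List Bool} {u v : Word} (hu : Valid a u b) (hv : Valid c v d) (p m r : List Bool) :
    Cob (p ++ a ++ m ++ c ++ r) (p ++ b ++ m ++ d ++ r) 0 0 0 (cx p u (m ++ c ++ r) ++ cx (p ++ b ++ m) v r)
      (cx (p ++ a ++ m) v r ++ cx p u (m ++ d ++ r)) := by
  induction u generalizing a with
  | nil =>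
    have hab : a = b := hu
    subst hab
    rw [cx_nil, cx_nil, List.append_nil, List.nil_append]
    exact Cob.refl (xa_right hv p a m r)
  | cons s u ih =>
    obtain ⟨h1, h2⟩ := hu
    subst h1
    have h1 : Valid s.src [s] s.tgt := ⟨rfl, rfl⟩
    have k1 := xa_below (ih h2) (xa_left h1 p m c r)
    have k2 := xa_above (xa_two s hv p m r) (xa_left h2 p m d r)
    have e1 : cx p (s :: u) (m ++ c ++ r) = cx p [s] (m ++ c ++ r) ++ cx p u (m ++ c ++ r) := rfl
    have e2 : cx p (s :: u) (m ++ d ++ r) = cx p [s] (m ++ d ++ r) ++ cx p u (m ++ d ++ r) := rfl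
    rw [e1, e2, List.append_assoc (cx p [s] (m ++ c ++ r)), ← List.append_assoc (cx (p ++ s.src ++ m) v r)]
    rw [List.append_assoc (cx p [s] (m ++ c ++ r))] at k2
    exact k1.trans k2

end Pool.Agent.Lib.MP_177a0e_gt.LT
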