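import Pool.Agent.Lib.MP_177a0e_gt.LT.UC
import Pool.Agent.Lib.MP_177a0e_gt.OneMin

/-!
# words in a context, the words of a strand which crosses a level, rotation: definitions.

An isotopy from `w` to `w'` is `Cob c e 0 0 0 w w'`: it is reflexive (`Cob.refl`), symmetric (`Cob.symm`), transitive
(`Cob.trans`), and compatible with words below and above (`Cob.ctx`) and with strands on both sides (`cx_cob`).
-/

namespace Pool.Agent.Lib.MP_177a0e_gt.LT

open Pool.Agent.Lib.MP_177a0e_gt.Tangle Pool.Agent.Lib.MP_177a0e_gt.Tangle.Gen
open Pool.Agent.Lib.MP_177a0e_gt.Sig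

/-- the word `w` with the strands `p` on the left and `q` on the right -/
def cx (p : List Bool) (w : Word) (q : List Bool) : Word := w.map fun s => ⟨p ++ s.left, s.gen, s.right ++ q⟩

@[simp] theorem cx_nil (p q : List Bool) : cx p [] q = [] := rfl

@[simp] theorem cx_cons (p q : List Bool) (s : Slice) (w : Word) :
    cx p (s :: w) q = ⟨p ++ s.left, s.gen, s.right ++ q⟩ :: cx p w q := rfl

theorem cx_append (p q : List Bool) (u v : Word) : cx p (u ++ v) q = cx p u q ++ cx p v q := by
  simp [cx]

theorem cx_cx (p p' q q' : List Bool) (w : Word) : cx p (cx p' w q') q = cx (p ++ p') w (q' ++ q) := by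
  simp [cx, List.append_assoc]

theorem cx_id (w : Word) : cx [] w [] = w := by
  simp [cx]

theorem cx_valid {c e : List Bool} {w : Word} (h : Valid c w e) (p q : List Bool) :
    Valid (p ++ c ++ q) (cx p w q) (p ++ e ++ q) := by
  induction w generalizing c with
  | nil =>
    have : c = e := h
    subst this
    rfl
  | cons s w ih =>
    obtain ⟨h1, h2⟩ := h
    refine ⟨?_, ?_⟩
    · rw [← h1]
      simp [Slice.src, List.append_assoc]
    · have := ih h2
      have e1 : Slice.tgt ⟨p ++ s.left, s.gen, s.right ++ q⟩ = p ++ s.tgt ++ q := by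
        simp [Slice.tgt, List.append_assoc]
      rw [e1]
      exact this

theorem cx_rel {a b : Word} (h : Rel a b) (p q : List Bool) : Rel (cx p a q) (cx p b q) := by
  cases h with
  | interchange g g' p' q' r =>
    have := Rel.interchange g g' (p ++ p') q' (r ++ q)
    simpa [cx, List.append_assoc] using this
  | zigzag₁ x p' q' =>
    have := Rel.zigzag₁ x (p ++ p') (q' ++ q)
    simpa [cx, List.append_assoc] using this
  | zigzag₂ x p' q' =>
    have := Rel.zigzag₂ x (p ++ p') (q' ++ q)
    simpa [cx, List.append_assoc] using this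
  | r1_cup s x p' q' =>
    have := Rel.r1_cup s x (p ++ p') (q' ++ q)
    simpa [cx, List.append_assoc] using this
  | r1_cap s x p' q' =>
    have := Rel.r1_cap s x (p ++ p') (q' ++ q)
    simpa [cx, List.append_assoc] using this
  | r2 s x y p' q' =>
    have := Rel.r2 s x y (p ++ p') (q' ++ q)
    simpa [cx, List.append_assoc] using this
  | r3 s x y z p' q' =>
    have := Rel.r3 s x y z (p ++ p') (q' ++ q)
    simpa [cx, List.append_assoc] using this
  | slide_cup s e x p' q' =>
    have := Rel.slide_cup s e x (p ++ p') (q' ++ q)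
    simpa [cx, List.append_assoc] using this
  | slide_cap s e x p' q' =>
    have := Rel.slide_cap s e x (p ++ p') (q' ++ q)
    simpa [cx, List.append_assoc] using this

theorem cx_local {R : Word → Word → Prop} (hR : ∀ a b : Word, R a b → ∀ p q : List Bool, R (cx p a q) (cx p b q))
    {c e : List Bool} {w w' : Word} (h : Local R c e w w') (p q : List Bool) :
    Local R (p ++ c ++ q) (p ++ e ++ q) (cx p w q) (cx p w' q) := by
  cases h with
  | mk u a b v h h₁ h₂ =>
    rw [cx_append, cx_append, cx_append, cx_append]
    refine Local.mk _ _ _ _ (hR _ _ h p q) ?_ ?_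
    · rw [← cx_append, ← cx_append]
      exact cx_valid h₁ p q
    · rw [← cx_append, ← cx_append]
      exact cx_valid h₂ p q

theorem cx_saddle {a b : Word} (h : SaddleRel a b) (p q : List Bool) : SaddleRel (cx p a q) (cx p b q) := by
  cases h with
  | mk x p' q' => exact SaddleRel.mk x (p ++ p') (q' ++ q)

theorem cx_birth {a b : Word} (h : BirthRel a b) (p q : List Bool) : BirthRel (cx p a q) (cx p b q) := by
  cases h with
  | mk x p' q' => exact BirthRel.mk x (p ++ p') (q' ++ q)

/-- strands on both sides -/
theorem cx_cob {c e : List Bool} {b s d : ℕ} {w w' : Word} (h : Cob c e b s d w w') (p q : List Bool) :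
    Cob (p ++ c ++ q) (p ++ e ++ q) b s d (cx p w q) (cx p w' q) := by
  induction h with
  | refl h => exact Cob.refl (cx_valid h p q)
  | iso _ h' ih =>
    exact ih.iso (h'.imp (fun h => cx_local (fun _ _ => cx_rel) h p q) fun h => cx_local (fun _ _ => cx_rel) h p q)
  | saddle _ h' ih =>
    exact ih.saddle (h'.imp (fun h => cx_local (fun _ _ => cx_saddle) h p q)
      fun h => cx_local (fun _ _ => cx_saddle) h p q)
  | birth _ h' ih => exact ih.birth (cx_local (fun _ _ => cx_birth) h' p q)
  | death _ h' ih => exact ih.death (cx_local (fun _ _ => cx_birth) h' p q)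

theorem cx_adj (p q : List Bool) (w : Word) : adj (cx p w q) = cx p (adj w) q := by
  simp [Tangle.adj, cx, Slice.adj, List.map_reverse, Function.comp_def]

/-- a replacement of a whole word by an elementary isotopy -/
theorem rel_cob {c e : List Bool} {a b : Word} (h : Rel a b) (h₁ : Valid c a e) (h₂ : Valid c b e) :
    Cob c e 0 0 0 a b := (Cob.refl h₁).iso (Or.inl (Local.whole h h₁ h₂))

/-- the strand `z` crosses the level `a` from the left to the right, in front of it if `t` -/
def xw (t z : Bool) : List Bool → Word
  | [] => []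
  | x :: a => ⟨[], cross t z x, a⟩ :: cx [x] (xw t z a) []

theorem xw_valid (t z : Bool) (a : List Bool) : Valid (z :: a) (xw t z a) (a ++ [z]) := by
  induction a with
  | nil => rfl
  | cons x a ih =>
    refine ⟨rfl, ?_⟩
    have := cx_valid ih [x] []
    simpa [Slice.tgt, Gen.tgt] using this

theorem xw_append (t z : Bool) (a b : List Bool) : xw t z (a ++ b) = cx [] (xw t z a) b ++ cx a (xw t z b) [] := by
  induction a with
  | nil => simp [xw, cx_id]
  | cons x a ih =>
    have e1 : xw t z (x :: a ++ b) = ⟨[], cross t z x, a ++ b⟩ :: cx [x] (xw t z (a ++ b)) [] := rfl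
    have e2 : xw t z (x :: a) = ⟨[], cross t z x, a⟩ :: cx [x] (xw t z a) [] := rfl
    rw [e1, e2, ih, cx_append, cx_cx, cx_cx, cx_cons, cx_cx]
    simp

/-- the rotation by `π` of a level -/
def stl (l : List Bool) : List Bool := (l.map not).reverse

theorem stl_append (a b : List Bool) : stl (a ++ b) = stl b ++ stl a := by
  simp [stl]

theorem stl_stl (a : List Bool) : stl (stl a) = a := by
  simp [stl, List.map_reverse, Function.comp_def]

/-- the rotation by `π` of a piece -/
def gro : Gen → Gen
  | cup x => cap x
  | cap x => cup x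
  | cross s x y => cross s (!x) (!y)

theorem gro_src (g : Gen) : (gro g).src = stl g.tgt := by
  rcases g with x | x | ⟨s, x, y⟩ <;> simp [gro, Gen.src, Gen.tgt, stl]

theorem gro_tgt (g : Gen) : (gro g).tgt = stl g.src := by
  rcases g with x | x | ⟨s, x, y⟩ <;> simp [gro, Gen.src, Gen.tgt, stl]

/-- the rotation by `π` of a slice -/
def sro (s : Slice) : Slice := ⟨stl s.right, gro s.gen, stl s.left⟩

/-- the rotation by `π` of a word -/
def rot (w : Word) : Word := (w.map sro).reverse

theorem rot_append (u v : Word) : rot (u ++ v) = rot v ++ rot u := by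
  simp [rot]

theorem rot_cons (s : Slice) (w : Word) : rot (s :: w) = rot w ++ [sro s] := by
  simp [rot]

theorem rot_valid {a b : List Bool} {w : Word} (h : Valid a w b) : Valid (stl b) (rot w) (stl a) := by
  induction w generalizing a with
  | nil =>
    have : a = b := h
    subst this
    rfl
  | cons s w ih =>
    obtain ⟨h1, h2⟩ := h
    rw [rot_cons]
    refine (ih h2).append ?_
    rw [valid_single]
    refine ⟨?_, ?_⟩
    · simp [Slice.src, Slice.tgt, sro, gro_src, stl_append]
    · rw [← h1]
      simp [Slice.src, Slice.tgt, sro, gro_tgt, stl_append]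

/-- nested minima: from the empty level to `a ++ stl a` -/
def nest : List Bool → Word
  | [] => []
  | x :: a => ⟨[], cup x, []⟩ :: cx [x] (nest a) [!x]

theorem nest_valid (a : List Bool) : Valid [] (nest a) (a ++ stl a) := by
  induction a with
  | nil => rfl
  | cons x a ih =>
    refine ⟨rfl, ?_⟩
    have := cx_valid ih [x] [!x]
    simpa [Slice.tgt, Gen.tgt, stl] using this

theorem nest_append (a b : List Bool) : nest (a ++ b) = nest a ++ cx a (nest b) (stl a) := by
  induction a with
  | nil => simp [nest, stl, cx_id]
  | cons x a ih =>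
    have e1 : nest (x :: a ++ b) = ⟨[], cup x, []⟩ :: cx [x] (nest (a ++ b)) [!x] := rfl
    have e2 : nest (x :: a) = ⟨[], cup x, []⟩ :: cx [x] (nest a) [!x] := rfl
    rw [e1, e2, ih, cx_append, cx_cx]
    simp [stl]

theorem rot_adj (w : Word) : adj (rot (adj w)) = rot w := by
  have e : ∀ s : Slice, Slice.adj (sro (Slice.adj s)) = sro s := by
    rintro ⟨p, g, q⟩
    rcases g with x | x | ⟨s, x, y⟩ <;> simp [Slice.adj, sro, gro, Gen.adj]
  unfold Tangle.adj rot
  rw [List.map_reverse, List.reverse_reverse, List.map_reverse, List.map_reverse, List.map_map, List.map_map]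
  congr 1
  exact List.map_congr_left fun s _ => e s

end Pool.Agent.Lib.MP_177a0e_gt.LT
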