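import Pool.Agent.Lib.MP_177a0e_gt.LT.XC
import Pool.Agent.Lib.MP_177a0e_gt.LT.XF

/-!
# every long tangle commutes with `T(2, n)`, `n` odd.

PROOF. `tk n = [⟨[true], cup true, []⟩] ++ S ++ [⟨[true], cap true, []⟩]`, `S = List.replicate n ⟨[], cross true true true, [false]⟩` (`tbl (List.replicate n true)`; prove this first). All words have levels `[true]` or `[true, true, false]`.
1. `J ++ [cup] ~ [cup] ++ cx [] J [true, false]` (`cx_comm` with `u = J`, `v = [⟨[], cup true, []⟩]`, `p = m = r = []`).
2. `cx [] J [true, false] ++ S ~ S ++ cx [true] J [false]` and `cx [true] J [false] ++ S ~ S ++ cx [] J [true, false]` for `n` odd: by induction, one crossing moves `J` from the first to the second strand (`pass_l`) and from the second to the first (`pass_r`), in the context `[]`, `[false]` (`cx_cob`, `cx_cx`).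
3. `cx [true] J [false] ++ [cap] ~ cx [true, true] (rot J) [] ++ [cap]` (`cap_J` in the context `[true]`).
4. `S ++ cx [true, true] (rot J) [] ~ cx [true, true] (rot J) [] ++ S` (`cx_comm`, `u` the word of crossings on `[true, true]`, `v = rot J`).
5. `[cup] ++ cx [true, true] (rot J) [] ~ [cup] ++ cx [true] J [false]` (`cup_J` backwards in the context `[true]`).
6. `cx [true] J [false] ++ S ~ S ++ cx [] J [true, false]` (2).
7. `cx [] J [true, false] ++ [cap] ~ [cap] ++ J` (`cx_comm`).
`tk_comm'`: `tk_comm` for `adj J`, then `Tangle.Cob.adj`.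
-/

namespace Pool.Agent.Lib.MP_177a0e_gt.LT

open Pool.Agent.Lib.MP_177a0e_gt.Tangle Pool.Agent.Lib.MP_177a0e_gt.Tangle.Gen
open Pool.Agent.Lib.MP_177a0e_gt.Sig

/-- the level inside `tk n` -/
private abbrev LL : List Bool := [true, true, false]

/-- the minimum -/
private def aW : Word := [⟨[true], cup true, []⟩]

/-- the maximum -/
private def bW : Word := [⟨[true], cap true, []⟩]

/-- one crossing -/
private def xS : Slice := ⟨[], cross true true true, [false]⟩

/-- the crossings -/
private def sW (n : ℕ) : Word := List.replicate n xS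

private theorem tbl_rep (n : ℕ) : tbl (List.replicate n true) = sW n := by
  induction n with
  | zero => rfl
  | succ n ih =>
    show xS :: tbl (List.replicate n true) = xS :: List.replicate n xS
    rw [ih]
    rfl

private theorem tk_eq (n : ℕ) : tk n = aW ++ (sW n ++ bW) := by
  show ⟨[true], cup true, []⟩ :: (tbl (List.replicate n true) ++ [⟨[true], cap true, []⟩]) = _
  rw [tbl_rep]
  rfl

private theorem aW_valid : Valid [true] aW LL := ⟨rfl, rfl⟩

private theorem bW_valid : Valid LL bW [true] := ⟨rfl, rfl⟩

private theorem sW_valid (n : ℕ) : Valid LL (sW n) LL := by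
  rw [← tbl_rep]
  exact tbl_valid _

/-- `J` on the first or on the second strand -/
private def jW (J : Word) : Bool → Word
  | true => cx [] J [true, false]
  | false => cx [true] J [false]

/-- the rotated `J` on the third strand -/
private def rW (J : Word) : Word := cx [true, true] (rot J) []

private theorem jW_valid {J : Word} (hJ : Valid [true] J [true]) (b : Bool) :
    Valid LL (jW J b) LL := by
  cases b
  · exact cx_valid hJ [true] [false]
  · exact cx_valid hJ [] [true, false]

private theorem rW_valid {J : Word} (hJ : Valid [true] J [true]) : Valid LL (rW J) LL :=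
  cx_valid (rot_valid hJ) [true, true] []

private theorem step_one {J : Word} (hJ : Valid [true] J [true]) (b : Bool) :
    Cob LL LL 0 0 0 (jW J b ++ [xS]) ([xS] ++ jW J (!b)) := by
  cases b
  · have h := cx_cob (pass_r hJ) [] [false]
    simpa [cx_append, cx_cx, jW, xS] using h
  · have h := cx_cob (pass_l hJ) [] [false]
    simpa [cx_append, cx_cx, jW, xS] using h

private theorem step_many {J : Word} (hJ : Valid [true] J [true]) (n : ℕ) : ∀ b : Bool,
    Cob LL LL 0 0 0 (jW J b ++ sW n) (sW n ++ jW J (not^[n] b)) := by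
  induction n with
  | zero =>
    intro b
    have h : Cob LL LL 0 0 0 (jW J b) (jW J b) := Cob.refl (jW_valid hJ b)
    simpa [sW] using h
  | succ n ih =>
    intro b
    have hx : Valid LL [xS] LL := ⟨rfl, rfl⟩
    have h1 := (step_one hJ b).ctx (u := []) (v := sW n) (show LL = LL from rfl) (sW_valid n)
    have h2 := (ih (!b)).ctx (u := [xS]) (v := []) hx (show LL = LL from rfl)
    have e1 : [] ++ (jW J b ++ [xS]) ++ sW n = jW J b ++ sW (n + 1) := by
      simp [sW, List.replicate_succ]
    have e2 : [] ++ ([xS] ++ jW J (!b)) ++ sW n = [xS] ++ (jW J (!b) ++ sW n) ++ [] := by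
      simp
    have e3 : [xS] ++ (sW n ++ jW J (not^[n] (!b))) ++ [] = sW (n + 1) ++ jW J (not^[n + 1] b) := by
      simp [sW, List.replicate_succ]
    rw [e1, e2] at h1
    rw [e3] at h2
    exact h1.trans h2

private theorem not_iter (n : ℕ) (hn : n % 2 = 1) (b : Bool) : not^[n] b = !b := by
  have h : Odd n := Nat.odd_iff.2 hn
  rw [Bool.involutive_not.iterate_odd h]

theorem tk_comm (n : ℕ) (hn : n % 2 = 1) {J : Word} (hJ : Valid [true] J [true]) :
    Cob [true] [true] 0 0 0 (J ++ tk n) (tk n ++ J) := by
  have hT : Valid [true] [] [true] := rfl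
  have ha := aW_valid
  have hb := bW_valid
  have hs := sW_valid n
  -- 1
  have s1 : Cob [true] LL 0 0 0 (J ++ aW) (aW ++ jW J true) := by
    have hv : Valid [] [⟨[], cup true, []⟩] [true, false] := ⟨rfl, rfl⟩
    have h := cx_comm hJ hv [] [] []
    simpa [cx_id, aW, jW] using h
  -- 2
  have s2 : Cob LL LL 0 0 0 (jW J true ++ sW n) (sW n ++ jW J false) := by
    have h := step_many hJ n true
    rwa [not_iter n hn] at h
  -- 3
  have s3 : Cob LL [true] 0 0 0 (jW J false ++ bW) (rW J ++ bW) := by
    have h := cx_cob (cap_J hJ) [true] []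
    simpa [cx_append, cx_cx, jW, rW, bW] using h
  -- 4
  have s4 : Cob LL LL 0 0 0 (sW n ++ rW J) (rW J ++ sW n) := by
    have hu : Valid [true, true] (List.replicate n ⟨[], cross true true true, []⟩) [true, true] := by
      clear hn hs s2
      induction n with
      | zero => rfl
      | succ n ih => exact ⟨rfl, ih⟩
    have h := cx_comm hu (rot_valid hJ) [] [] []
    simpa [cx, sW, rW, xS, stl, List.map_replicate] using h
  -- 5
  have s5 : Cob [true] LL 0 0 0 (aW ++ rW J) (aW ++ jW J false) := by
    have h := (cx_cob (cup_J hJ) [true] []).symm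
    simpa [cx_append, cx_cx, jW, rW, aW] using h
  -- 6
  have s6 : Cob LL LL 0 0 0 (jW J false ++ sW n) (sW n ++ jW J true) := by
    have h := step_many hJ n false
    rwa [not_iter n hn] at h
  -- 7
  have s7 : Cob LL [true] 0 0 0 (jW J true ++ bW) (bW ++ J) := by
    have hv : Valid [true, false] [⟨[], cap true, []⟩] [] := ⟨rfl, rfl⟩
    have h := cx_comm hJ hv [] [] []
    simpa [cx_id, bW, jW] using h
  have t1 : Cob [true] [true] 0 0 0 (J ++ aW ++ sW n ++ bW) (aW ++ jW J true ++ sW n ++ bW) := by
    have h := s1.ctx (u := []) (v := sW n ++ bW) hT (hs.append hb)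
    simpa [List.append_assoc] using h
  have t2 : Cob [true] [true] 0 0 0 (aW ++ jW J true ++ sW n ++ bW)
      (aW ++ sW n ++ jW J false ++ bW) := by
    have h := s2.ctx (u := aW) (v := bW) ha hb
    simpa [List.append_assoc] using h
  have t3 : Cob [true] [true] 0 0 0 (aW ++ sW n ++ jW J false ++ bW)
      (aW ++ sW n ++ rW J ++ bW) := by
    have h := s3.ctx (u := aW ++ sW n) (v := []) (ha.append hs) hT
    simpa [List.append_assoc] using h
  have t4 : Cob [true] [true] 0 0 0 (aW ++ sW n ++ rW J ++ bW) (aW ++ rW J ++ sW n ++ bW) := by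
    have h := s4.ctx (u := aW) (v := bW) ha hb
    simpa [List.append_assoc] using h
  have t5 : Cob [true] [true] 0 0 0 (aW ++ rW J ++ sW n ++ bW) (aW ++ jW J false ++ sW n ++ bW) := by
    have h := s5.ctx (u := []) (v := sW n ++ bW) hT (hs.append hb)
    simpa [List.append_assoc] using h
  have t6 : Cob [true] [true] 0 0 0 (aW ++ jW J false ++ sW n ++ bW)
      (aW ++ sW n ++ jW J true ++ bW) := by
    have h := s6.ctx (u := aW) (v := bW) ha hb
    simpa [List.append_assoc] using h
  have t7 : Cob [true] [true] 0 0 0 (aW ++ sW n ++ jW J true ++ bW) (aW ++ sW n ++ bW ++ J) := by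
    have h := s7.ctx (u := aW ++ sW n) (v := []) (ha.append hs) hT
    simpa [List.append_assoc] using h
  have h := (((((t1.trans t2).trans t3).trans t4).trans t5).trans t6).trans t7
  have e1 : J ++ tk n = J ++ aW ++ sW n ++ bW := by
    rw [tk_eq]
    simp only [List.append_assoc]
  have e2 : tk n ++ J = aW ++ sW n ++ bW ++ J := by
    rw [tk_eq]
    simp only [List.append_assoc]
  rw [e1, e2]
  exact h

theorem tk_comm' (n : ℕ) (hn : n % 2 = 1) {J : Word} (hJ : Valid [true] J [true]) :
    Cob [true] [true] 0 0 0 (adj (tk n) ++ J) (J ++ adj (tk n)) := by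
  have h := (tk_comm n hn hJ.adj).adj
  rwa [Tangle.adj_append, Tangle.adj_append, Tangle.adj_adj] at h

end Pool.Agent.Lib.MP_177a0e_gt.LT
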