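import Pool.Agent.Lib.MP_177a0e_gt.LT.XH

/-!
# permutations of the summands.

PROOF. `tsum_perm`: induction on the permutation (`List.Perm.rec`: nil, cons: `Cob.ctx`, swap: `tk_comm x` with `J = tk y`, in front of `tsum l`, trans: the numbers of the middle list are odd too, `List.Perm.mem_iff`).
`tsum_comm`: induction on `B` with `tk_comm'`: `adj (tsum (n :: B)) = adj (tsum B) ++ adj (tk n)` (`adj_append`).
`KPM`: by `tsum_perm` (and `cob_adj2` in `UB.lean` for the mirror image), `tsum P ++ adj (tsum M) ~ tsum (A ++ C) ++ adj (tsum (B ++ C)) = tsum A ++ tsum C ++ adj (tsum C) ++ adj (tsum B)` (`tsum (l ++ m) = tsum l ++ tsum m`, by `simp [tsum]`).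
-/

namespace Pool.Agent.Lib.MP_177a0e_gt.LT

open Pool.Agent.Lib.MP_177a0e_gt.Tangle Pool.Agent.Lib.MP_177a0e_gt.Tangle.Gen
open Pool.Agent.Lib.MP_177a0e_gt.Sig

private theorem XI_nil : Valid [true] [] [true] := show [true] = [true] from rfl

private theorem XI_app (l m : List ℕ) : tsum (l ++ m) = tsum l ++ tsum m := by simp [tsum]

private theorem XI_cons (n : ℕ) (l : List ℕ) : tsum (n :: l) = tk n ++ tsum l := rfl

theorem tsum_perm {P Q : List ℕ} (h : P.Perm Q) (hP : ∀ n ∈ P, n % 2 = 1) :
    Cob [true] [true] 0 0 0 (tsum P) (tsum Q) := by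
  induction h with
  | nil => exact Cob.refl (tsum_valid [])
  | cons x _ ih =>
    have h1 := (ih fun n hn => hP n (List.mem_cons_of_mem _ hn)).ctx (tk_valid x) XI_nil
    simpa only [List.append_nil, XI_cons] using h1
  | swap x y l =>
    have h1 := (tk_comm x (hP x (by simp)) (tk_valid y)).ctx XI_nil (tsum_valid l)
    simpa only [List.nil_append, List.append_assoc, XI_cons] using h1
  | trans h1 _ ih1 ih2 => exact (ih1 hP).trans (ih2 fun n hn => hP n (h1.mem_iff.mpr hn))

theorem tsum_comm {B : List ℕ} (hB : ∀ n ∈ B, n % 2 = 1) {J : Word} (hJ : Valid [true] J [true]) :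
    Cob [true] [true] 0 0 0 (adj (tsum B) ++ J) (J ++ adj (tsum B)) := by
  induction B with
  | nil =>
    have e : adj (tsum []) = [] := rfl
    rw [e, List.nil_append, List.append_nil]
    exact Cob.refl hJ
  | cons n B ih =>
    have h1 := (tk_comm' n (hB n List.mem_cons_self) hJ).ctx (tsum_valid B).adj XI_nil
    have h2 := (ih fun k hk => hB k (List.mem_cons_of_mem _ hk)).ctx XI_nil (tk_valid n).adj
    rw [XI_cons, adj_append]
    simp only [List.nil_append, List.append_nil, List.append_assoc] at h1 h2 ⊢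
    exact h1.trans h2

theorem KPM {P M A B C : List ℕ} (hP : P.Perm (A ++ C)) (hM : M.Perm (B ++ C)) (oP : ∀ n ∈ P, n % 2 = 1)
    (oM : ∀ n ∈ M, n % 2 = 1) :
    Cob [true] [true] 0 0 0 (tsum P ++ adj (tsum M)) (tsum A ++ (tsum C ++ adj (tsum C)) ++ adj (tsum B)) := by
  have h1 := (tsum_perm hP oP).ctx XI_nil (tsum_valid M).adj
  have h2 := (cob_adj2 (tsum_perm hM oM)).ctx (tsum_valid (A ++ C)) XI_nil
  rw [XI_app, XI_app B C, adj_append] at h2
  rw [XI_app] at h1
  simp only [List.nil_append, List.append_nil, List.append_assoc] at h1 h2 ⊢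
  exact h1.trans h2

end Pool.Agent.Lib.MP_177a0e_gt.LT
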