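import Pool.Agent.Lib.MP_177a0e_gt.LT.XI
import Pool.Agent.Lib.MP_177a0e_gt.LT.Crit

/-!
# cancellation.

PROOF. `cancel`: from `KPM` and `cob_adj'` (`TangleMain.lean`: `Cob [true] [true] 0 m m (w ++ adj w) []`, `m = caps w`) in the context `tsum A`, `adj (tsum B)` there is a movie with `m` saddles and `m` deaths from `tsum P ++ adj (tsum M)` to `tsum A ++ adj (tsum B)`; its `symm` is
a `RibbonConcordance (tsum P ++ adj (tsum M)) (tsum A ++ adj (tsum B))`. Then `ribbonGenus_le_of_concordance` (`TangleMain.lean`) and `sliceGenus_eq_of_ribbonConcordance` (`OneMin.lean`); knots by `tsum_knot` (`UA.lean`), `IsKnot.append`, `IsKnot.adj`.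
`fsum_cancel`: `fsum` is additive and invariant under permutations (`List.Perm.sum_eq`, `List.Perm.map`).
-/

namespace Pool.Agent.Lib.MP_177a0e_gt.LT

open Pool.Agent.Lib.MP_177a0e_gt.Tangle Pool.Agent.Lib.MP_177a0e_gt.Tangle.Gen
open Pool.Agent.Lib.MP_177a0e_gt.Sig

theorem cancel {P M A B C : List ℕ} (hP : P.Perm (A ++ C)) (hM : M.Perm (B ++ C)) (oP : ∀ n ∈ P, n % 2 = 1)
    (oM : ∀ n ∈ M, n % 2 = 1) :
    ribbonGenus (tsum P ++ adj (tsum M)) ≤ ribbonGenus (tsum A ++ adj (tsum B)) ∧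
      sliceGenus (tsum P ++ adj (tsum M)) = sliceGenus (tsum A ++ adj (tsum B)) := by
  have oA : ∀ n ∈ A, n % 2 = 1 := fun n hn => oP n (hP.mem_iff.2 (List.mem_append_left _ hn))
  have oB : ∀ n ∈ B, n % 2 = 1 := fun n hn => oM n (hM.mem_iff.2 (List.mem_append_left _ hn))
  have h1 := KPM hP hM oP oM
  have h2 := (cob_adj' (tsum_valid C)).ctx (tsum_valid A) (tsum_valid B).adj
  rw [List.append_nil] at h2
  have h3 := (h1.trans h2).symm
  have h4 : RibbonConcordance (tsum P ++ adj (tsum M)) (tsum A ++ adj (tsum B)) :=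
    ⟨caps (tsum C), h3.cast (by omega) (by omega) (by omega)⟩
  have k1 : IsKnot (tsum P ++ adj (tsum M)) := (tsum_knot _ oP).append (tsum_knot _ oM).adj
  have k2 : IsKnot (tsum A ++ adj (tsum B)) := (tsum_knot _ oA).append (tsum_knot _ oB).adj
  exact ⟨ribbonGenus_le_of_concordance (K := ⟨_, k2⟩) (K' := ⟨_, k1⟩) h4,
    sliceGenus_eq_of_ribbonConcordance (K := ⟨_, k2⟩) (K' := ⟨_, k1⟩) h4⟩

private theorem XJ_app (A C : List ℕ) (θ : ℝ) : fsum (A ++ C) θ = fsum A θ + fsum C θ := by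
  unfold fsum
  rw [List.map_append, List.sum_append]

private theorem XJ_perm {A B : List ℕ} (h : A.Perm B) (θ : ℝ) : fsum A θ = fsum B θ := by
  unfold fsum
  exact (h.map _).sum_eq

theorem fsum_cancel {P M A B C : List ℕ} (hP : P.Perm (A ++ C)) (hM : M.Perm (B ++ C)) (θ : ℝ) :
    fsum P θ - fsum M θ = fsum A θ - fsum B θ := by
  rw [XJ_perm hP θ, XJ_perm hM θ, XJ_app, XJ_app]
  ring

end Pool.Agent.Lib.MP_177a0e_gt.LT
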