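import Pool.Agent.Lib.MP_177a0e_gt.LT.XI
import Pool.Agent.Lib.MP_177a0e_gt.LT.Crit

/-!
# the criterion for lists up to permutation and cancellation.

PROOF. `crit_perm`: `upper G h h'` gives `2 g_r(K') ≤ Σ`, `K' = tsum (flatten) ++ adj (tsum (flatten))`; `K = tsum P ++ adj (tsum M)` is isotopic to `K'` (`KPM` with `C = []`, or `tsum_perm` and `cob_adj2`), so `g_r(K) ≤ g_r(K')` (`ribbonGenus_le_of_concordance` with `m = 0`; knots by `tsum_knot`).
`lower P M hP hM θ` gives `|fsum P θ - fsum M θ| ≤ g_4(K)`, and `g_4(K) ≤ g_r(K)` (`sliceGenus_le_ribbonGenus`). So all are equal (`linarith`, as in `Crit.lean`).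
-/

namespace Pool.Agent.Lib.MP_177a0e_gt.LT

open Pool.Agent.Lib.MP_177a0e_gt.Tangle Pool.Agent.Lib.MP_177a0e_gt.Tangle.Gen
open Pool.Agent.Lib.MP_177a0e_gt.Sig

private theorem xk_sum (G : List (List ℕ × List ℕ)) :
    (G.map fun t => (t.1.length : ℤ) + t.2.length + t.1.sum - t.2.sum - 2).sum =
      ((G.map Prod.fst).flatten.length : ℤ) + (G.map Prod.snd).flatten.length + (G.map Prod.fst).flatten.sum -
        (G.map Prod.snd).flatten.sum - 2 * G.length := by
  induction G with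
  | nil => simp
  | cons t G ih =>
    rw [List.map_cons, List.sum_cons, ih]
    simp only [List.map_cons, List.flatten_cons, List.length_append, List.sum_append, List.length_cons]
    push_cast
    ring

theorem crit_perm (G : List (List ℕ × List ℕ)) (h : ∀ t ∈ G, t.1 ≠ [] ∧ t.2.sum ≤ t.1.sum) (P M : List ℕ)
    (oP : ∀ n ∈ P, n % 2 = 1) (oM : ∀ n ∈ M, n % 2 = 1) (hP : P.Perm (G.map Prod.fst).flatten)
    (hM : M.Perm (G.map Prod.snd).flatten) (θ : ℝ) (h0 : 0 ≤ θ) (h1 : θ < 1 / 2)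
    (h2 : (P.length : ℤ) + M.length + P.sum - M.sum - 2 * G.length ≤ 2 * |fsum P θ - fsum M θ|) :
    ribbonGenus (tsum P ++ adj (tsum M)) = sliceGenus (tsum P ++ adj (tsum M)) ∧
      (sliceGenus (tsum P ++ adj (tsum M)) : ℤ) = |fsum P θ - fsum M θ| := by
  have h' : ∀ t ∈ G, (∀ n ∈ t.1, n % 2 = 1) ∧ ∀ n ∈ t.2, n % 2 = 1 := by
    intro t ht
    refine ⟨fun n hn => oP n ?_, fun n hn => oM n ?_⟩
    · rw [hP.mem_iff, List.mem_flatten]
      exact ⟨t.1, List.mem_map.2 ⟨t, ht, rfl⟩, hn⟩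
    · rw [hM.mem_iff, List.mem_flatten]
      exact ⟨t.2, List.mem_map.2 ⟨t, ht, rfl⟩, hn⟩
  have oP' : ∀ n ∈ (G.map Prod.fst).flatten, n % 2 = 1 := fun n hn => oP n (hP.mem_iff.2 hn)
  have oM' : ∀ n ∈ (G.map Prod.snd).flatten, n % 2 = 1 := fun n hn => oM n (hM.mem_iff.2 hn)
  have k1 := upper G h h'
  rw [xk_sum] at k1
  have hP0 : P.Perm ((G.map Prod.fst).flatten ++ []) := by rwa [List.append_nil]
  have hM0 : M.Perm ((G.map Prod.snd).flatten ++ []) := by rwa [List.append_nil]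
  have k0 := KPM hP0 hM0 oP oM
  rw [show tsum [] = [] from rfl, adj_nil, List.append_nil, List.append_nil] at k0
  have k5 : ribbonGenus (tsum P ++ adj (tsum M)) ≤
      ribbonGenus (tsum (G.map Prod.fst).flatten ++ adj (tsum (G.map Prod.snd).flatten)) := by
    have := ribbonGenus_le_of_concordance
      (K := ⟨_, (tsum_knot _ oP').append (tsum_knot _ oM').adj⟩)
      (K' := ⟨_, (tsum_knot _ oP).append (tsum_knot _ oM).adj⟩) ⟨0, k0.symm⟩
    exact this
  have k2 := lower P M oP oM θ h0 h1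
  have k3 : sliceGenus (tsum P ++ adj (tsum M)) ≤ ribbonGenus (tsum P ++ adj (tsum M)) :=
    sliceGenus_le_ribbonGenus ⟨_, (tsum_knot _ oP).append (tsum_knot _ oM).adj⟩
  have k4 : (sliceGenus (tsum P ++ adj (tsum M)) : ℤ) ≤ ribbonGenus (tsum P ++ adj (tsum M)) := by exact_mod_cast k3
  have k6 : (ribbonGenus (tsum P ++ adj (tsum M)) : ℤ) ≤
      ribbonGenus (tsum (G.map Prod.fst).flatten ++ adj (tsum (G.map Prod.snd).flatten)) := by exact_mod_cast k5
  rw [← hP.length_eq, ← hM.length_eq, ← hP.sum_eq, ← hM.sum_eq] at k1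
  refine ⟨?_, by linarith⟩
  have : (ribbonGenus (tsum P ++ adj (tsum M)) : ℤ) = sliceGenus (tsum P ++ adj (tsum M)) := by linarith
  exact_mod_cast this

end Pool.Agent.Lib.MP_177a0e_gt.LT
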