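import Pool.Agent.Lib.MP_177a0e_gt.LT.XJ
import Pool.Agent.Lib.MP_177a0e_gt.LT.XO
import Pool.Agent.Lib.MP_177a0e_gt.LT.BH

/-!
# the bounds for all lists.

PROOF. Let `C₀` be the multiset intersection of `P` and `M` (as a list; `Multiset`, `∩`, or `List.bagInter`), `A₀`, `B₀` the rests, `A`, `B` the lists of the elements `≠ 1` of `A₀`, `B₀`. Simplest: induction-free: `∃ A B C, P.Perm (A ++ C ++ replicate i 1) ∧ M.Perm (B ++ C ++ replicate j 1) ∧ (∀ n ∈ A, n ≠ 1 ∧ n ∉ B) ∧ (∀ n ∈ B, n ≠ 1)`
(`reduce`, prove it by strong induction on `P.length`: if some `n ∈ P` is in `M`, take it out of both with `List.perm_cons_erase`). The ones are removed by `tsum_ones`, `tsum_perm`: `ribbonGenus` and `sliceGenus` do not change along a `Cob 0 0 0` (`RibbonConcordance` with `m = 0`). Then `lin_bd`, `rib_bd` for `A`, `B`; the number of different numbers in `A ++ B` is at most that in `P ++ M`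
(`Finset.card_le_card`), `ribbonGenus` may only decrease and `sliceGenus` is the same. `x ↦ 1200 x ^ 2 (1 + log x) ^ 2` is taken at the same slice genus, so nothing about monotonicity is needed.
-/

namespace Pool.Agent.Lib.MP_177a0e_gt.LT

open Pool.Agent.Lib.MP_177a0e_gt.Tangle Pool.Agent.Lib.MP_177a0e_gt.Tangle.Gen
open Pool.Agent.Lib.MP_177a0e_gt.Sig

theorem reduce (P M : List ℕ) : ∃ (A B C : List ℕ) (i j : ℕ), P.Perm (A ++ (C ++ List.replicate i 1)) ∧
    M.Perm (B ++ (C ++ List.replicate j 1)) ∧ (∀ n ∈ A, n ≠ 1 ∧ n ∉ B) ∧ ∀ n ∈ B, n ≠ 1 := by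
  have key : ∀ L : List ℕ, L.Perm (L.filter (fun n => decide (n ≠ 1)) ++ List.replicate (L.count 1) 1) := by
    intro L
    have h1 := (List.filter_append_perm (fun n => decide (n ≠ 1)) L).symm
    have h2 : L.filter (fun n => !decide (n ≠ 1)) = List.replicate (L.count 1) 1 := by
      have e : (fun n : ℕ => !decide (n ≠ 1)) = fun n => n == 1 := by
        funext n
        by_cases h : n = 1 <;> simp [h]
      rw [e, List.filter_beq]
    rwa [h2] at h1
  set P' := P.filter (fun n => decide (n ≠ 1)) with hP'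
  set M' := M.filter (fun n => decide (n ≠ 1)) with hM'
  have hp : ∀ n ∈ P', n ≠ 1 := fun n hn => by
    have := (List.mem_filter.1 hn).2
    simpa using this
  have hm : ∀ n ∈ M', n ≠ 1 := fun n hn => by
    have := (List.mem_filter.1 hn).2
    simpa using this
  refine ⟨((P' : Multiset ℕ) - M').toList, ((M' : Multiset ℕ) - P').toList, ((P' : Multiset ℕ) ∩ M').toList,
    P.count 1, M.count 1, ?_, ?_, ?_, ?_⟩
  · refine (key P).trans ?_
    rw [← List.append_assoc]
    refine List.Perm.append_right _ ?_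
    rw [← Multiset.coe_eq_coe, ← Multiset.coe_add, Multiset.coe_toList, Multiset.coe_toList,
      Multiset.sub_add_inter]
  · refine (key M).trans ?_
    rw [← List.append_assoc]
    refine List.Perm.append_right _ ?_
    rw [← Multiset.coe_eq_coe, ← Multiset.coe_add, Multiset.coe_toList, Multiset.coe_toList,
      Multiset.inter_comm, Multiset.sub_add_inter]
  · intro n hn
    rw [Multiset.mem_toList] at hn
    refine ⟨hp n (Multiset.mem_of_le tsub_le_self hn), fun hn2 => ?_⟩
    rw [Multiset.mem_toList] at hn2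
    rw [← Multiset.count_pos, Multiset.count_sub] at hn hn2
    omega
  · intro n hn
    rw [Multiset.mem_toList] at hn
    exact hm n (Multiset.mem_of_le tsub_le_self hn)

theorem bounds_all (P M : List ℕ) (hP : ∀ n ∈ P, n % 2 = 1) (hM : ∀ n ∈ M, n % 2 = 1) :
    2 * ribbonGenus (tsum P ++ adj (tsum M)) ≤
      5 * ((P ++ M).toFinset.card + 1) * sliceGenus (tsum P ++ adj (tsum M)) ∧
    (ribbonGenus (tsum P ++ adj (tsum M)) : ℝ) ≤ 1200 * (sliceGenus (tsum P ++ adj (tsum M)) : ℝ) ^ 2 *
      (1 + Real.log (sliceGenus (tsum P ++ adj (tsum M)) : ℝ)) ^ 2 := by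
  obtain ⟨A, B, C, i, j, h1, h2, h3, h4⟩ := reduce P M
  have hA : ∀ n ∈ A, n % 2 = 1 := fun n hn => hP n (h1.mem_iff.2 (List.mem_append_left _ hn))
  have hB : ∀ n ∈ B, n % 2 = 1 := fun n hn => hM n (h2.mem_iff.2 (List.mem_append_left _ hn))
  have p1 : P.Perm ((A ++ List.replicate i 1) ++ C) := by
    refine h1.trans ?_
    rw [List.append_assoc]
    exact List.Perm.append_left _ List.perm_append_comm
  have p2 : M.Perm ((B ++ List.replicate j 1) ++ C) := by
    refine h2.trans ?_
    rw [List.append_assoc]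
    exact List.Perm.append_left _ List.perm_append_comm
  obtain ⟨k1, k2⟩ := cancel p1 p2 hP hM
  have hAi : ∀ n ∈ A ++ List.replicate i 1, n % 2 = 1 := by
    intro n hn
    rcases List.mem_append.1 hn with hn | hn
    · exact hA n hn
    · rw [List.eq_of_mem_replicate hn]
  have hBj : ∀ n ∈ B ++ List.replicate j 1, n % 2 = 1 := by
    intro n hn
    rcases List.mem_append.1 hn with hn | hn
    · exact hB n hn
    · rw [List.eq_of_mem_replicate hn]
  have ap : ∀ l m : List ℕ, tsum (l ++ m) = tsum l ++ tsum m := fun l m => by simp [tsum]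
  have vn : Valid [true] [] [true] := show [true] = [true] from rfl
  have c1 : Cob [true] [true] 0 0 0 (tsum (A ++ List.replicate i 1) ++ adj (tsum (B ++ List.replicate j 1)))
      (tsum A ++ adj (tsum (B ++ List.replicate j 1))) := by
    have := (tsum_ones i).ctx (tsum_valid A) (tsum_valid (B ++ List.replicate j 1)).adj
    rw [ap A]
    simpa only [List.append_assoc, List.append_nil, List.nil_append] using this
  have c2 : Cob [true] [true] 0 0 0 (tsum A ++ adj (tsum (B ++ List.replicate j 1)))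
      (tsum A ++ adj (tsum B)) := by
    have c3 : Cob [true] [true] 0 0 0 (tsum (B ++ List.replicate j 1)) (tsum B) := by
      have := (tsum_ones j).ctx (tsum_valid B) vn
      rw [ap B]
      simpa only [List.append_assoc, List.append_nil, List.nil_append] using this
    have := (cob_adj2 c3).ctx (tsum_valid A) vn
    simpa only [List.append_assoc, List.append_nil, List.nil_append] using this
  have c := (c1.trans c2).cast (by rfl) (by rfl) (by rfl)
  let K : Knot := ⟨_, (tsum_knot _ hAi).append (tsum_knot _ hBj).adj⟩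
  let K' : Knot := ⟨_, (tsum_knot _ hA).append (tsum_knot _ hB).adj⟩
  have r1 : RibbonConcordance K'.1 K.1 := ⟨0, c⟩
  have r2 : RibbonConcordance K.1 K'.1 := ⟨0, c.symm⟩
  have e1 : ribbonGenus K.1 ≤ ribbonGenus K'.1 := ribbonGenus_le_of_concordance r2
  have e2 : sliceGenus K'.1 = sliceGenus K.1 := sliceGenus_eq_of_ribbonConcordance r1
  have e3 : ribbonGenus (tsum P ++ adj (tsum M)) ≤ ribbonGenus (tsum A ++ adj (tsum B)) := k1.trans e1
  have e4 : sliceGenus (tsum P ++ adj (tsum M)) = sliceGenus (tsum A ++ adj (tsum B)) := k2.trans e2.symm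
  have b1 := lin_bd A B (fun n hn => ⟨hA n hn, (h3 n hn).1⟩) (fun n hn => ⟨hB n hn, h4 n hn⟩)
    (fun n hn => (h3 n hn).2)
  have b2 := rib_bd A B (fun n hn => ⟨hA n hn, (h3 n hn).1⟩) (fun n hn => ⟨hB n hn, h4 n hn⟩)
    (fun n hn => (h3 n hn).2)
  have hc : (A ++ B).toFinset.card ≤ (P ++ M).toFinset.card := by
    refine Finset.card_le_card fun n hn => ?_
    rw [List.mem_toFinset, List.mem_append] at hn ⊢
    rcases hn with hn | hn
    · exact Or.inl (h1.mem_iff.2 (List.mem_append_left _ hn))
    · exact Or.inr (h2.mem_iff.2 (List.mem_append_left _ hn))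
  rw [e4]
  refine ⟨?_, ?_⟩
  · refine (Nat.mul_le_mul_left 2 e3).trans (b1.trans ?_)
    exact Nat.mul_le_mul_right _ (Nat.mul_le_mul_left 5 (Nat.add_le_add_right hc 1))
  · exact le_trans (by exact_mod_cast e3) b2

end Pool.Agent.Lib.MP_177a0e_gt.LT
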