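import Pool.Agent.Lib.MP_177a0e_gt.LT.BH
import Pool.Agent.Lib.MP_177a0e_gt.LT.Thr

/-!
# a linear bound if one sign has a fixed number of types.
-/

namespace Pool.Agent.Lib.MP_177a0e_gt.LT

open Pool.Agent.Lib.MP_177a0e_gt.Tangle Pool.Agent.Lib.MP_177a0e_gt.Tangle.Gen
open Pool.Agent.Lib.MP_177a0e_gt.Sig

private theorem XM_near (l : List ℕ) (N : ℕ) (h : ∀ n ∈ l, n % 2 = 1 ∧ n ≤ N) :
    2 * fsum l (1 / 2 - 1 / (2 * N)) = (l.sum : ℤ) - l.length := by
  unfold fsum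
  induction l with
  | nil => simp
  | cons a l ih =>
    have h1 := h a (by simp)
    have h2 := fl_near a N h1.1 h1.2
    have h3 := ih fun n hn => h n (by simp [hn])
    rw [List.map_cons, List.sum_cons, List.sum_cons, List.length_cons, mul_add, h3, h2]
    push_cast
    omega

private theorem XM_len (M : List ℕ) (g : ℝ) (h : ∀ n ∈ M, (M.count n : ℝ) ≤ 5 * g) :
    (M.length : ℝ) ≤ 5 * M.toFinset.card * g := by
  have e : (M.length : ℝ) = ∑ n ∈ M.toFinset, (M.count n : ℝ) := by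
    exact_mod_cast (List.sum_toFinset_count_eq_length M).symm
  rw [e]
  refine (Finset.sum_le_card_nsmul _ _ (5 * g) fun n hn => h n (List.mem_toFinset.1 hn)).trans (le_of_eq ?_)
  rw [nsmul_eq_mul]
  ring

theorem lin_bd2 (P M : List ℕ) (hP : ∀ n ∈ P, n % 2 = 1 ∧ n ≠ 1) (hM : ∀ n ∈ M, n % 2 = 1 ∧ n ≠ 1)
    (hPM : ∀ n ∈ P, n ∉ M) :
    2 * ribbonGenus (tsum P ++ adj (tsum M)) ≤
      (10 * M.toFinset.card + 12) * sliceGenus (tsum P ++ adj (tsum M)) := by
  set g := sliceGenus (tsum P ++ adj (tsum M)) with hg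
  set A := (P ++ M).toFinset with hA
  have hA1 : ∀ n ∈ A, n % 2 = 1 ∧ n ≠ 1 := by
    intro n hn
    rw [hA, List.mem_toFinset, List.mem_append] at hn
    rcases hn with hn | hn
    · exact hP n hn
    · exact hM n hn
  have hA2 : ∀ n ∈ A, 2 ≤ n := fun n hn => by
    have := hA1 n hn
    omega
  have h1 : ∀ θ : ℝ, 0 ≤ θ → θ < 1 / 2 → |∑ n ∈ A, (mul P M n : ℝ) * (fl n θ : ℝ)| ≤ (g : ℝ) := by
    intro θ h0 h1
    rw [hA, ← ls_fsum]
    have k := lower P M (fun n hn => (hP n hn).1) (fun n hn => (hM n hn).1) θ h0 h1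
    rw [← hg] at k
    exact_mod_cast k
  have hup := upper_one P M (fun n hn => (hP n hn).1) (fun n hn => (hM n hn).1)
  have k0 := mult_bd A (mul P M) (fun n hn => (hA1 n hn).1) hA2 g (Nat.cast_nonneg g) h1
  have k1 : (M.length : ℝ) ≤ 5 * M.toFinset.card * g := by
    refine XM_len M g fun n hn => ?_
    have h2 := k0 n (by rw [hA, List.mem_toFinset]; exact List.mem_append_right _ hn)
    have h3 : P.count n = 0 := List.count_eq_zero.2 fun h4 => hPM n h4 hn
    unfold mul at h2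
    rw [h3] at h2
    push_cast at h2
    rw [zero_sub, abs_neg, abs_of_nonneg (Nat.cast_nonneg _)] at h2
    exact h2
  have k2 := w_bd A (mul P M) (fun n hn => (hA1 n hn).1) g (Nat.cast_nonneg g) h1 {1} (fun e he => by
    rw [Finset.mem_singleton] at he
    rw [he])
  rw [Finset.sum_singleton, Gm_one A _ hA2] at k2
  have k3 : (((P.sum : ℤ) - M.sum : ℤ) : ℝ) ^ 2 ≤ 20 * (g : ℝ) ^ 2 := by
    rw [ls_sum P M, ← hA]
    unfold Sm at k2
    push_cast at k2 ⊢
    rw [div_one, neg_sq] at k2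
    exact k2
  have k4 : |(((P.sum : ℤ) - M.sum : ℤ) : ℝ)| ≤ 5 * g := by
    refine abs_le_of_sq_le_sq ?_ (by positivity)
    nlinarith [sq_nonneg (g : ℝ)]
  have hup' : 2 * (ribbonGenus (tsum P ++ adj (tsum M)) : ℝ) ≤ (P.length : ℝ) + M.length +
      |(((P.sum : ℤ) - M.sum : ℤ) : ℝ)| := by
    have e := (Int.cast_le (R := ℝ)).2 hup
    rw [Int.cast_add, Int.cast_abs] at e
    push_cast at e ⊢
    exact e
  have k5 : (P.length : ℝ) ≤ M.length + |(((P.sum : ℤ) - M.sum : ℤ) : ℝ)| + 2 * g := by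
    have hN : (0 : ℝ) < ((P.sum + M.sum + 1 : ℕ) : ℝ) := by positivity
    have hN1 : (1 : ℝ) ≤ ((P.sum + M.sum + 1 : ℕ) : ℝ) := by
      exact_mod_cast Nat.le_add_left 1 _
    have e1 : (0 : ℝ) < 1 / (2 * ((P.sum + M.sum + 1 : ℕ) : ℝ)) := by positivity
    have e2 : 1 / (2 * ((P.sum + M.sum + 1 : ℕ) : ℝ)) ≤ 1 / 2 := by
      rw [div_le_div_iff₀ (by positivity) (by norm_num)]
      linarith
    have e3 := lower P M (fun n hn => (hP n hn).1) (fun n hn => (hM n hn).1)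
      (1 / 2 - 1 / (2 * ((P.sum + M.sum + 1 : ℕ) : ℝ))) (by linarith) (by linarith)
    have f1 := XM_near P (P.sum + M.sum + 1) fun n hn =>
      ⟨(hP n hn).1, (List.le_sum_of_mem hn).trans (by omega)⟩
    have f2 := XM_near M (P.sum + M.sum + 1) fun n hn =>
      ⟨(hM n hn).1, (List.le_sum_of_mem hn).trans (by omega)⟩
    rw [← hg] at e3
    have e4 := abs_le.1 e3
    have e5 : (P.length : ℤ) ≤ M.length + ((P.sum : ℤ) - M.sum) + 2 * g := by
      have := e4.1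
      omega
    have e6 : (P.length : ℝ) ≤ M.length + (((P.sum : ℤ) - M.sum : ℤ) : ℝ) + 2 * g := by exact_mod_cast e5
    have e7 := le_abs_self (((P.sum : ℤ) - M.sum : ℤ) : ℝ)
    linarith
  have h9 : 2 * (ribbonGenus (tsum P ++ adj (tsum M)) : ℝ) ≤ (10 * (M.toFinset.card : ℝ) + 12) * g := by
    nlinarith
  exact_mod_cast h9

end Pool.Agent.Lib.MP_177a0e_gt.LT
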