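import Pool.Agent.Lib.MP_177a0e_gt.LT.XL
import Pool.Agent.Lib.MP_177a0e_gt.LT.XM

/-!
# the bounds for all lists, II.
-/

namespace Pool.Agent.Lib.MP_177a0e_gt.LT

open Pool.Agent.Lib.MP_177a0e_gt.Tangle Pool.Agent.Lib.MP_177a0e_gt.Tangle.Gen
open Pool.Agent.Lib.MP_177a0e_gt.Sig

theorem genus_iso {K L : Word} (hK : IsKnot K) (hL : IsKnot L) (h : Cob [true] [true] 0 0 0 K L) :
    ribbonGenus K = ribbonGenus L ∧ sliceGenus K = sliceGenus L := by
  have h1 : RibbonConcordance L K := ⟨0, h⟩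
  have h2 : RibbonConcordance K L := ⟨0, h.symm⟩
  have k1 := ribbonGenus_le_of_concordance (K := ⟨K, hK⟩) (K' := ⟨L, hL⟩) h1
  have k2 := ribbonGenus_le_of_concordance (K := ⟨L, hL⟩) (K' := ⟨K, hK⟩) h2
  have k3 := sliceGenus_eq_of_ribbonConcordance (K := ⟨K, hK⟩) (K' := ⟨L, hL⟩) h1
  exact ⟨le_antisymm k2 k1, k3.symm⟩

private theorem XN_app (l m : List ℕ) : tsum (l ++ m) = tsum l ++ tsum m := by
  simp [tsum]

private theorem XN_ones (A : List ℕ) (i : ℕ) : Cob [true] [true] 0 0 0 (tsum (A ++ List.replicate i 1)) (tsum A) := by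
  have h := (tsum_ones i).ctx (tsum_valid A) valid_nil
  rw [List.append_nil, List.append_nil, List.append_nil] at h
  rw [XN_app]
  exact h

theorem red_gen (P M A B C : List ℕ) (i j : ℕ) (hP : ∀ n ∈ P, n % 2 = 1) (hM : ∀ n ∈ M, n % 2 = 1)
    (h1 : P.Perm (A ++ (C ++ List.replicate i 1))) (h2 : M.Perm (B ++ (C ++ List.replicate j 1))) :
    (∀ n ∈ A, n % 2 = 1) ∧ (∀ n ∈ B, n % 2 = 1) ∧
    ribbonGenus (tsum P ++ adj (tsum M)) ≤ ribbonGenus (tsum A ++ adj (tsum B)) ∧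
    sliceGenus (tsum P ++ adj (tsum M)) = sliceGenus (tsum A ++ adj (tsum B)) := by
  have s1 : A ⊆ P := fun n hn => h1.mem_iff.2 (List.mem_append_left _ hn)
  have s2 : B ⊆ M := fun n hn => h2.mem_iff.2 (List.mem_append_left _ hn)
  have p1 : P.Perm ((A ++ List.replicate i 1) ++ C) := by
    refine h1.trans ?_
    rw [List.append_assoc]
    exact List.Perm.append_left _ List.perm_append_comm
  have p2 : M.Perm ((B ++ List.replicate j 1) ++ C) := by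
    refine h2.trans ?_
    rw [List.append_assoc]
    exact List.Perm.append_left _ List.perm_append_comm
  obtain ⟨c1, c2⟩ := cancel p1 p2 hP hM
  have o1 : ∀ n ∈ A ++ List.replicate i 1, n % 2 = 1 := fun n hn => hP n (p1.mem_iff.2 (List.mem_append_left _ hn))
  have o2 : ∀ n ∈ B ++ List.replicate j 1, n % 2 = 1 := fun n hn => hM n (p2.mem_iff.2 (List.mem_append_left _ hn))
  have o3 : ∀ n ∈ A, n % 2 = 1 := fun n hn => hP n (s1 hn)
  have o4 : ∀ n ∈ B, n % 2 = 1 := fun n hn => hM n (s2 hn)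
  have q1 := (XN_ones A i).ctx (u := []) valid_nil (tsum_valid (B ++ List.replicate j 1)).adj
  have q2 := (cob_adj2 (XN_ones B j)).ctx (v := []) (tsum_valid A) valid_nil
  rw [List.append_nil, List.append_nil] at q2
  rw [List.nil_append, List.nil_append] at q1
  have q3 := q1.trans q2
  obtain ⟨d1, d2⟩ := genus_iso ((tsum_knot _ o1).append (tsum_knot _ o2).adj) ((tsum_knot _ o3).append (tsum_knot _ o4).adj) q3
  exact ⟨o3, o4, c1.trans d1.le, c2.trans d2⟩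

theorem red_all' (P M : List ℕ) (hP : ∀ n ∈ P, n % 2 = 1) (hM : ∀ n ∈ M, n % 2 = 1) :
    ∃ (A B C : List ℕ) (i j : ℕ), P.Perm (A ++ (C ++ List.replicate i 1)) ∧ M.Perm (B ++ (C ++ List.replicate j 1)) ∧
    (∀ n ∈ A, n ≠ 1 ∧ n ∉ B) ∧ (∀ n ∈ B, n ≠ 1) ∧ (∀ n ∈ A, n % 2 = 1) ∧ (∀ n ∈ B, n % 2 = 1) ∧
    ribbonGenus (tsum P ++ adj (tsum M)) ≤ ribbonGenus (tsum A ++ adj (tsum B)) ∧
    sliceGenus (tsum P ++ adj (tsum M)) = sliceGenus (tsum A ++ adj (tsum B)) := by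
  obtain ⟨A, B, C, i, j, h1, h2, h3, h4⟩ := reduce P M
  obtain ⟨o3, o4, c1, c2⟩ := red_gen P M A B C i j hP hM h1 h2
  exact ⟨A, B, C, i, j, h1, h2, h3, h4, o3, o4, c1, c2⟩

theorem red_all (P M : List ℕ) (hP : ∀ n ∈ P, n % 2 = 1) (hM : ∀ n ∈ M, n % 2 = 1) : ∃ A B : List ℕ,
    (∀ n ∈ A, n % 2 = 1 ∧ n ≠ 1) ∧ (∀ n ∈ B, n % 2 = 1 ∧ n ≠ 1) ∧ (∀ n ∈ A, n ∉ B) ∧ A ⊆ P ∧ B ⊆ M ∧
    ribbonGenus (tsum P ++ adj (tsum M)) ≤ ribbonGenus (tsum A ++ adj (tsum B)) ∧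
    sliceGenus (tsum P ++ adj (tsum M)) = sliceGenus (tsum A ++ adj (tsum B)) := by
  obtain ⟨A, B, C, i, j, h1, h2, h3, h4, o3, o4, c1, c2⟩ := red_all' P M hP hM
  exact ⟨A, B, fun n hn => ⟨o3 n hn, (h3 n hn).1⟩, fun n hn => ⟨o4 n hn, h4 n hn⟩, fun n hn => (h3 n hn).2,
    fun n hn => h1.mem_iff.2 (List.mem_append_left _ hn), fun n hn => h2.mem_iff.2 (List.mem_append_left _ hn), c1, c2⟩

theorem bounds_two (P M : List ℕ) (hP : ∀ n ∈ P, n % 2 = 1) (hM : ∀ n ∈ M, n % 2 = 1) :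
    2 * ribbonGenus (tsum P ++ adj (tsum M)) ≤
      (10 * min P.toFinset.card M.toFinset.card + 12) * sliceGenus (tsum P ++ adj (tsum M)) := by
  obtain ⟨A, B, h1, h2, h3, s1, s2, k1, k2⟩ := red_all P M hP hM
  rw [k2]
  have c1 : A.toFinset.card ≤ P.toFinset.card := Finset.card_le_card fun n hn => List.mem_toFinset.2 (s1 (List.mem_toFinset.1 hn))
  have c2 : B.toFinset.card ≤ M.toFinset.card := Finset.card_le_card fun n hn => List.mem_toFinset.2 (s2 (List.mem_toFinset.1 hn))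
  have b1 := lin_bd2 A B h1 h2 h3
  have b2 := lin_bd2 B A h2 h1 fun n hn hn' => h3 n hn' hn
  have e : tsum B ++ adj (tsum A) = adj (tsum A ++ adj (tsum B)) := by
    rw [adj_append, Tangle.adj_adj]
  rw [e, ribbon_adj, slice_adj] at b2
  rcases Nat.le_total P.toFinset.card M.toFinset.card with h | h
  · rw [min_eq_left h]
    refine (Nat.mul_le_mul_left 2 k1).trans (b2.trans (Nat.mul_le_mul_right _ ?_))
    omega
  · rw [min_eq_right h]
    refine (Nat.mul_le_mul_left 2 k1).trans (b1.trans (Nat.mul_le_mul_right _ ?_))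
    omega

end Pool.Agent.Lib.MP_177a0e_gt.LT
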