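import Pool.Agent.Lib.MP_177a0e_gt.LT.XN

/-!
# the size of a reduced sum is bounded by the slice genus.
-/

namespace Pool.Agent.Lib.MP_177a0e_gt.LT

open Pool.Agent.Lib.MP_177a0e_gt.Tangle Pool.Agent.Lib.MP_177a0e_gt.Tangle.Gen
open Pool.Agent.Lib.MP_177a0e_gt.Sig

private theorem XQ_near (l : List ℕ) (N : ℕ) (h : ∀ n ∈ l, n % 2 = 1 ∧ n ≤ N) :
    2 * fsum l (1 / 2 - 1 / (2 * N)) = (l.sum : ℤ) - l.length := by
  unfold fsum
  induction l with
  | nil => simp
  | cons a l ih =>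
    have h1 := h a (by simp)
    have h2 := fl_near a N h1.1 h1.2
    have h3 := ih fun n hn => h n (by simp [hn])
    rw [List.map_cons, List.sum_cons, List.sum_cons, List.length_cons, mul_add, h3, h2]
    push_cast
    omega

private theorem XQ_len (M : List ℕ) (g : ℝ) (h : ∀ n ∈ M, (M.count n : ℝ) ≤ 5 * g) :
    (M.length : ℝ) ≤ 5 * M.toFinset.card * g := by
  have e : (M.length : ℝ) = ∑ n ∈ M.toFinset, (M.count n : ℝ) := by
    exact_mod_cast (List.sum_toFinset_count_eq_length M).symm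
  rw [e]
  refine (Finset.sum_le_card_nsmul _ _ (5 * g) fun n hn => h n (List.mem_toFinset.1 hn)).trans (le_of_eq ?_)
  rw [nsmul_eq_mul]
  ring

theorem size_bd (P M : List ℕ) (hP : ∀ n ∈ P, n % 2 = 1 ∧ n ≠ 1) (hM : ∀ n ∈ M, n % 2 = 1 ∧ n ≠ 1)
    (hPM : ∀ n ∈ P, n ∉ M) :
    (P.length : ℝ) + M.length + |(P.sum : ℝ) - M.sum| ≤
      2400 * (sliceGenus (tsum P ++ adj (tsum M)) : ℝ) ^ 2 *
        (1 + Real.log (sliceGenus (tsum P ++ adj (tsum M)) : ℝ)) ^ 2 := by
  set g := sliceGenus (tsum P ++ adj (tsum M)) with hg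
  set A := (P ++ M).toFinset with hA
  have hA1 : ∀ n ∈ A, n % 2 = 1 ∧ n ≠ 1 := by
    intro n hn
    rw [hA, List.mem_toFinset, List.mem_append] at hn
    rcases hn with hn | hn
    · exact hP n hn
    · exact hM n hn
  have hA2 : ∀ n ∈ A, 2 ≤ n := fun n hn => by
    have := hA1 n hn
    omega
  have h1 : ∀ θ : ℝ, 0 ≤ θ → θ < 1 / 2 → |∑ n ∈ A, (mul P M n : ℝ) * (fl n θ : ℝ)| ≤ (g : ℝ) := by
    intro θ h0 h1
    rw [hA, ← ls_fsum]
    have k := lower P M (fun n hn => (hP n hn).1) (fun n hn => (hM n hn).1) θ h0 h1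
    rw [← hg] at k
    exact_mod_cast k
  have h2 := w_bd A (mul P M) (fun n hn => (hA1 n hn).1) g (Nat.cast_nonneg g) h1
  have h3 := moeb A (mul P M) hA2
  rcases Nat.eq_zero_or_pos g with hg0 | hg0
  · -- `g = 0`
    have hw : ∀ d : ℕ, d % 2 = 1 → (Gm A (mul P M) d : ℝ) / d = 0 := by
      intro d hd
      have k := h2 {d} (fun e he => by
        rw [Finset.mem_singleton] at he
        rw [he]
        exact hd)
      rw [Finset.sum_singleton, hg0] at k
      have k2 : ((Gm A (mul P M) d : ℝ) / d) ^ 2 ≤ 0 := by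
        push_cast at k
        linarith
      exact pow_eq_zero_iff (two_ne_zero) |>.1 (le_antisymm k2 (sq_nonneg _))
    have hA0 : A = ∅ := by
      rw [Finset.eq_empty_iff_forall_notMem]
      intro n hn
      have k := h3 n hn
      have k2 : ∑ k ∈ n.divisors, |(Gm A (mul P M) (n / k) : ℝ) / ((n / k : ℕ) : ℝ)| / k = 0 := by
        refine Finset.sum_eq_zero fun k hk => ?_
        have hkn := Nat.dvd_of_mem_divisors hk
        have hodd : (n / k) % 2 = 1 := by
          obtain ⟨l, hl⟩ := hkn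
          have hk0 : 0 < k := Nat.pos_of_mem_divisors hk
          rw [hl, Nat.mul_div_cancel_left _ hk0]
          have hno := (hA1 n hn).1
          rw [hl] at hno
          exact Nat.odd_iff.1 (Nat.Odd.of_mul_left (Nat.odd_iff.2 (by rw [mul_comm]; exact hno)))
        rw [hw _ hodd, abs_zero, zero_div]
      rw [k2] at k
      have k3 := ls_ne P M hPM n hn
      have k4 : |(mul P M n : ℝ)| = 0 := le_antisymm k (abs_nonneg _)
      rw [abs_eq_zero] at k4
      exact k3 (by exact_mod_cast k4)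
    have hlen := ls_len P M hPM
    rw [← hA, hA0, Finset.sum_empty] at hlen
    have hsum := ls_sum P M
    rw [← hA, hA0, Finset.sum_empty] at hsum
    have hlen' : (P.length : ℤ) + M.length = 0 := by exact_mod_cast hlen
    rw [hg0]
    have e1 : (P.sum : ℝ) - M.sum = 0 := by exact_mod_cast hsum
    have e2 : (P.length : ℝ) + M.length = 0 := by exact_mod_cast hlen'
    rw [e1, e2]
    simp
  · have hg1 : (1 : ℝ) ≤ g := by exact_mod_cast hg0
    have hW : (1 : ℝ) ≤ 20 * (g : ℝ) ^ 2 := by nlinarith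
    have k1 := num_bd A (mul P M) (fun d => (Gm A (mul P M) d : ℝ) / d) (20 * (g : ℝ) ^ 2) hW
      (fun n hn => (hA1 n hn).1) (fun n hn => ls_ne P M hPM n hn) h3 h2
    rw [hA, ← ls_len P M hPM] at k1
    -- the sum
    have k2 := h2 {1} (fun e he => by
      rw [Finset.mem_singleton] at he
      rw [he])
    rw [Finset.sum_singleton, Gm_one A _ hA2] at k2
    have k3 : (((P.sum : ℤ) - M.sum : ℤ) : ℝ) ^ 2 ≤ 20 * (g : ℝ) ^ 2 := by
      rw [ls_sum P M, ← hA]
      unfold Sm at k2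
      push_cast at k2 ⊢
      rw [div_one, neg_sq] at k2
      exact k2
    have k4 : |(((P.sum : ℤ) - M.sum : ℤ) : ℝ)| ≤ 5 * g := by
      refine abs_le_of_sq_le_sq ?_ (by positivity)
      nlinarith
    -- the logarithm
    have hlg : 0 ≤ Real.log (g : ℝ) := Real.log_nonneg hg1
    have hlog : Real.log (4 * (20 * (g : ℝ) ^ 2) + 1) ≤ 4.4 + 2 * Real.log g := by
      have e1 : 4 * (20 * (g : ℝ) ^ 2) + 1 ≤ 81 * (g : ℝ) ^ 2 := by nlinarith
      have e2 : Real.log (4 * (20 * (g : ℝ) ^ 2) + 1) ≤ Real.log (81 * (g : ℝ) ^ 2) :=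
        Real.log_le_log (by positivity) e1
      have e3 : Real.log (81 * (g : ℝ) ^ 2) = Real.log 81 + 2 * Real.log g := by
        rw [Real.log_mul (by norm_num) (by positivity), Real.log_pow]
        push_cast
        ring
      have e4 : Real.log 81 ≤ 4.4 := by
        have e5 : (81 : ℝ) = 3 ^ 4 := by norm_num
        rw [e5, Real.log_pow]
        have e6 : Real.log 3 ≤ 1.1 := by
          rw [Real.log_le_iff_le_exp (by norm_num)]
          have e7 : (3 : ℝ) ≤ 1 + 1.1 + 1.1 ^ 2 / 2 + 1.1 ^ 3 / 6 + 1.1 ^ 4 / 24 + 1.1 ^ 5 / 120 := by norm_num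
          have e8 := Real.sum_le_exp_of_nonneg (show (0 : ℝ) ≤ 1.1 by norm_num) 6
          refine e7.trans (le_trans (le_of_eq ?_) e8)
          rw [Finset.sum_range_succ, Finset.sum_range_succ, Finset.sum_range_succ, Finset.sum_range_succ,
            Finset.sum_range_succ, Finset.sum_range_succ, Finset.sum_range_zero]
          simp only [Nat.factorial]
          norm_num
        push_cast
        linarith
      linarith
    have hH : (1 + Real.log (4 * (20 * (g : ℝ) ^ 2) + 1)) ^ 2 ≤ (5.4 * (1 + Real.log g)) ^ 2 := by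
      have e0 : 0 ≤ Real.log (4 * (20 * (g : ℝ) ^ 2) + 1) := Real.log_nonneg (by nlinarith)
      apply pow_le_pow_left₀ (by linarith)
      nlinarith
    have k5 : (P.length : ℝ) + M.length ≤ 2333 * ((g : ℝ) ^ 2 * (1 + Real.log g) ^ 2) := by
      refine k1.trans ?_
      have e1 : 4 * (20 * (g : ℝ) ^ 2) * (1 + Real.log (4 * (20 * (g : ℝ) ^ 2) + 1)) ^ 2 ≤
          4 * (20 * (g : ℝ) ^ 2) * (5.4 * (1 + Real.log g)) ^ 2 :=
        mul_le_mul_of_nonneg_left hH (by positivity)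
      refine e1.trans ?_
      have e2 : 0 ≤ (g : ℝ) ^ 2 * (1 + Real.log g) ^ 2 := by positivity
      nlinarith
    have k6 : (g : ℝ) ≤ (g : ℝ) ^ 2 * (1 + Real.log g) ^ 2 := by
      have e1 : (1 : ℝ) ≤ (1 + Real.log g) ^ 2 := by nlinarith
      have e2 : (g : ℝ) ≤ (g : ℝ) ^ 2 := by nlinarith
      nlinarith
    have k7 : |(P.sum : ℝ) - M.sum| ≤ 5 * g := by
      have e : (((P.sum : ℤ) - M.sum : ℤ) : ℝ) = (P.sum : ℝ) - M.sum := by
        rw [Int.cast_sub, Int.cast_natCast, Int.cast_natCast]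
      rw [← e]
      exact k4
    rw [mul_assoc]
    linarith

theorem size_bd2 (P M : List ℕ) (hP : ∀ n ∈ P, n % 2 = 1 ∧ n ≠ 1) (hM : ∀ n ∈ M, n % 2 = 1 ∧ n ≠ 1)
    (hPM : ∀ n ∈ P, n ∉ M) :
    (P.length : ℤ) + M.length + |(P.sum : ℤ) - M.sum| ≤
      (10 * M.toFinset.card + 12) * sliceGenus (tsum P ++ adj (tsum M)) := by
  set g := sliceGenus (tsum P ++ adj (tsum M)) with hg
  set A := (P ++ M).toFinset with hA
  have hA1 : ∀ n ∈ A, n % 2 = 1 ∧ n ≠ 1 := by
    intro n hn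
    rw [hA, List.mem_toFinset, List.mem_append] at hn
    rcases hn with hn | hn
    · exact hP n hn
    · exact hM n hn
  have hA2 : ∀ n ∈ A, 2 ≤ n := fun n hn => by
    have := hA1 n hn
    omega
  have h1 : ∀ θ : ℝ, 0 ≤ θ → θ < 1 / 2 → |∑ n ∈ A, (mul P M n : ℝ) * (fl n θ : ℝ)| ≤ (g : ℝ) := by
    intro θ h0 h1
    rw [hA, ← ls_fsum]
    have k := lower P M (fun n hn => (hP n hn).1) (fun n hn => (hM n hn).1) θ h0 h1
    rw [← hg] at k
    exact_mod_cast k
  have k0 := mult_bd A (mul P M) (fun n hn => (hA1 n hn).1) hA2 g (Nat.cast_nonneg g) h1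
  have k1 : (M.length : ℝ) ≤ 5 * M.toFinset.card * g := by
    refine XQ_len M g fun n hn => ?_
    have h2 := k0 n (by rw [hA, List.mem_toFinset]; exact List.mem_append_right _ hn)
    have h3 : P.count n = 0 := List.count_eq_zero.2 fun h4 => hPM n h4 hn
    unfold mul at h2
    rw [h3] at h2
    push_cast at h2
    rw [zero_sub, abs_neg, abs_of_nonneg (Nat.cast_nonneg _)] at h2
    exact h2
  have k2 := w_bd A (mul P M) (fun n hn => (hA1 n hn).1) g (Nat.cast_nonneg g) h1 {1} (fun e he => by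
    rw [Finset.mem_singleton] at he
    rw [he])
  rw [Finset.sum_singleton, Gm_one A _ hA2] at k2
  have k3 : (((P.sum : ℤ) - M.sum : ℤ) : ℝ) ^ 2 ≤ 20 * (g : ℝ) ^ 2 := by
    rw [ls_sum P M, ← hA]
    unfold Sm at k2
    push_cast at k2 ⊢
    rw [div_one, neg_sq] at k2
    exact k2
  have k4 : |(((P.sum : ℤ) - M.sum : ℤ) : ℝ)| ≤ 5 * g := by
    refine abs_le_of_sq_le_sq ?_ (by positivity)
    nlinarith [sq_nonneg (g : ℝ)]
  have k5 : (P.length : ℝ) ≤ M.length + |(((P.sum : ℤ) - M.sum : ℤ) : ℝ)| + 2 * g := by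
    have hN : (0 : ℝ) < ((P.sum + M.sum + 1 : ℕ) : ℝ) := by positivity
    have hN1 : (1 : ℝ) ≤ ((P.sum + M.sum + 1 : ℕ) : ℝ) := by
      exact_mod_cast Nat.le_add_left 1 _
    have e1 : (0 : ℝ) < 1 / (2 * ((P.sum + M.sum + 1 : ℕ) : ℝ)) := by positivity
    have e2 : 1 / (2 * ((P.sum + M.sum + 1 : ℕ) : ℝ)) ≤ 1 / 2 := by
      rw [div_le_div_iff₀ (by positivity) (by norm_num)]
      linarith
    have e3 := lower P M (fun n hn => (hP n hn).1) (fun n hn => (hM n hn).1)
      (1 / 2 - 1 / (2 * ((P.sum + M.sum + 1 : ℕ) : ℝ))) (by linarith) (by linarith)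
    have f1 := XQ_near P (P.sum + M.sum + 1) fun n hn =>
      ⟨(hP n hn).1, (List.le_sum_of_mem hn).trans (by omega)⟩
    have f2 := XQ_near M (P.sum + M.sum + 1) fun n hn =>
      ⟨(hM n hn).1, (List.le_sum_of_mem hn).trans (by omega)⟩
    rw [← hg] at e3
    have e4 := abs_le.1 e3
    have e5 : (P.length : ℤ) ≤ M.length + ((P.sum : ℤ) - M.sum) + 2 * g := by
      have := e4.1
      omega
    have e6 : (P.length : ℝ) ≤ M.length + (((P.sum : ℤ) - M.sum : ℤ) : ℝ) + 2 * g := by exact_mod_cast e5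
    have e7 := le_abs_self (((P.sum : ℤ) - M.sum : ℤ) : ℝ)
    linarith
  have h9 : (P.length : ℝ) + M.length + |(((P.sum : ℤ) - M.sum : ℤ) : ℝ)| ≤ (10 * (M.toFinset.card : ℝ) + 12) * g := by
    nlinarith
  rw [← Int.cast_abs] at h9
  exact_mod_cast h9

end Pool.Agent.Lib.MP_177a0e_gt.LT
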