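import Pool.Agent.Lib.MP_177a0e_gt.LT.XK
import Pool.Agent.Lib.MP_177a0e_gt.LT.Thr
import Pool.Agent.Lib.MP_177a0e_gt.LT.BG

/-!
# packing and covering.

If the numbers in `B` can be distributed over the numbers in `A` so that every `a` in `A` gets numbers with sum at
most `a`, then the genera of the sum of the `T(2, a)` and the `-T(2, b)` are equal (the signature near `-1`).
If `A` contains disjoint parts, one for every `b` in `B`, with sum at least `b` and less than `1 + b / max A`
numbers, then the genera are equal, too (the signature at `exp (2 π i (1 / 2 - 1 / max A))`).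
-/

namespace Pool.Agent.Lib.MP_177a0e_gt.LT

open Pool.Agent.Lib.MP_177a0e_gt.Tangle Pool.Agent.Lib.MP_177a0e_gt.Tangle.Gen
open Pool.Agent.Lib.MP_177a0e_gt.Sig

/-- the numbers in `B` can be distributed over the numbers in `A` so that every number `a` in `A` gets numbers with sum at most `a` -/
def Pack (A B : List ℕ) : Prop :=
  ∃ H : List (ℕ × List ℕ), A.Perm (H.map Prod.fst) ∧ B.Perm (H.map Prod.snd).flatten ∧ ∀ t ∈ H, t.2.sum ≤ t.1

/-- the list `A` contains disjoint parts `t.2`, one for every number `b = t.1` in `B`, such that the sum of `t.2` is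
at least `b`, and the number of entries of `t.2` is less than `1 + b / a` for all `a` in `A` -/
def Cover (A B : List ℕ) : Prop :=
  ∃ (H : List (ℕ × List ℕ)) (R : List ℕ), B.Perm (H.map Prod.fst) ∧ A.Perm ((H.map Prod.snd).flatten ++ R) ∧
    ∀ t ∈ H, t.1 ≤ t.2.sum ∧ ∀ a ∈ A, (t.2.length - 1) * a < t.1

private theorem XR_near (l : List ℕ) (N : ℕ) (h : ∀ n ∈ l, n % 2 = 1 ∧ n ≤ N) :
    2 * fsum l (1 / 2 - 1 / (2 * N)) = (l.sum : ℤ) - l.length := by
  unfold fsum
  induction l with
  | nil => simp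
  | cons a l ih =>
    have h1 := h a (by simp)
    have h2 := fl_near a N h1.1 h1.2
    have h3 := ih fun n hn => h n (by simp [hn])
    rw [List.map_cons, List.sum_cons, List.sum_cons, List.length_cons, mul_add, h3, h2]
    push_cast
    omega

theorem pack_eq (A B : List ℕ) (hA : ∀ n ∈ A, n % 2 = 1) (hB : ∀ n ∈ B, n % 2 = 1) (h : Pack A B) :
    ribbonGenus (tsum A ++ adj (tsum B)) = sliceGenus (tsum A ++ adj (tsum B)) ∧
      ∃ θ : ℝ, 0 ≤ θ ∧ θ < 1 / 2 ∧ (sliceGenus (tsum A ++ adj (tsum B)) : ℤ) = |fsum A θ - fsum B θ| := by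
  obtain ⟨H, h1, h2, h3⟩ := h
  have hN : (0 : ℝ) < ((A.sum + B.sum + 1 : ℕ) : ℝ) := by positivity
  have hN1 : (1 : ℝ) ≤ ((A.sum + B.sum + 1 : ℕ) : ℝ) := by
    exact_mod_cast Nat.le_add_left 1 _
  have e1 : (0 : ℝ) < 1 / (2 * ((A.sum + B.sum + 1 : ℕ) : ℝ)) := by positivity
  have e2 : 1 / (2 * ((A.sum + B.sum + 1 : ℕ) : ℝ)) ≤ 1 / 2 := by
    rw [div_le_div_iff₀ (by positivity) (by norm_num)]
    linarith
  have f1 := XR_near A (A.sum + B.sum + 1) fun n hn => ⟨hA n hn, (List.le_sum_of_mem hn).trans (by omega)⟩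
  have f2 := XR_near B (A.sum + B.sum + 1) fun n hn => ⟨hB n hn, (List.le_sum_of_mem hn).trans (by omega)⟩
  have k := crit_perm (H.map fun t => ([t.1], t.2)) (by
      intro t ht
      obtain ⟨s, hs, rfl⟩ := List.mem_map.1 ht
      refine ⟨List.cons_ne_nil _ _, ?_⟩
      show s.2.sum ≤ [s.1].sum
      rw [List.sum_singleton]
      exact h3 s hs) A B hA hB (by
      rw [List.map_map]
      have e : ∀ L : List (ℕ × List ℕ), (L.map (Prod.fst ∘ fun t : ℕ × List ℕ => ([t.1], t.2))).flatten = L.map Prod.fst := by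
        intro L
        induction L with
        | nil => rfl
        | cons a L ih =>
          rw [List.map_cons, List.flatten_cons, ih, List.map_cons]
          rfl
      rw [e]
      exact h1) (by
      rw [List.map_map]
      exact h2) (1 / 2 - 1 / (2 * ((A.sum + B.sum + 1 : ℕ) : ℝ))) (by linarith) (by linarith) (by
      have k1 : H.length = A.length := by rw [h1.length_eq, List.length_map]
      rw [List.length_map, k1]
      have k2 := le_abs_self (fsum A (1 / 2 - 1 / (2 * ((A.sum + B.sum + 1 : ℕ) : ℝ))) -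
        fsum B (1 / 2 - 1 / (2 * ((A.sum + B.sum + 1 : ℕ) : ℝ))))
      linarith)
  exact ⟨k.1, _, by linarith, by linarith, k.2⟩

theorem half_bd (A B : List ℕ) (hA : ∀ n ∈ A, n % 2 = 1) (hB : ∀ n ∈ B, n % 2 = 1) :
    ((A.sum : ℤ) - A.length) - (B.sum - B.length) ≤ 2 * sliceGenus (tsum A ++ adj (tsum B)) := by
  have hN : (0 : ℝ) < ((A.sum + B.sum + 1 : ℕ) : ℝ) := by positivity
  have hN1 : (1 : ℝ) ≤ ((A.sum + B.sum + 1 : ℕ) : ℝ) := by
    exact_mod_cast Nat.le_add_left 1 _
  have e1 : (0 : ℝ) < 1 / (2 * ((A.sum + B.sum + 1 : ℕ) : ℝ)) := by positivity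
  have e2 : 1 / (2 * ((A.sum + B.sum + 1 : ℕ) : ℝ)) ≤ 1 / 2 := by
    rw [div_le_div_iff₀ (by positivity) (by norm_num)]
    linarith
  have f1 := XR_near A (A.sum + B.sum + 1) fun n hn => ⟨hA n hn, (List.le_sum_of_mem hn).trans (by omega)⟩
  have f2 := XR_near B (A.sum + B.sum + 1) fun n hn => ⟨hB n hn, (List.le_sum_of_mem hn).trans (by omega)⟩
  have k1 := lower A B hA hB (1 / 2 - 1 / (2 * ((A.sum + B.sum + 1 : ℕ) : ℝ))) (by linarith) (by linarith)
  have k2 := le_abs_self (fsum A (1 / 2 - 1 / (2 * ((A.sum + B.sum + 1 : ℕ) : ℝ))) -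
    fsum B (1 / 2 - 1 / (2 * ((A.sum + B.sum + 1 : ℕ) : ℝ))))
  linarith

private theorem XR_upper (A B : List ℕ) (hA : ∀ n ∈ A, n % 2 = 1) (hB : ∀ n ∈ B, n % 2 = 1) (h : B.sum ≤ A.sum) :
    2 * (ribbonGenus (tsum A ++ adj (tsum B)) : ℤ) ≤ max (A.length + B.length + |(A.sum : ℤ) - B.sum| - 2) 0 := by
  by_cases hA0 : A = []
  · have hB0 : B = [] := by
      rcases B with _ | ⟨b, B⟩
      · rfl
      · exfalso
        have k := hB b (by simp)
        rw [hA0, List.sum_nil, List.sum_cons] at h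
        omega
    have k := upper_one A B hA hB
    rw [hA0, hB0] at k ⊢
    simp only [List.length_nil, List.sum_nil, Nat.cast_zero, sub_zero, abs_zero, add_zero] at k ⊢
    exact le_max_of_le_right k
  · have k := upper [(A, B)] (fun t ht => by
      rw [List.mem_singleton] at ht
      subst ht
      exact ⟨hA0, h⟩) (fun t ht => by
      rw [List.mem_singleton] at ht
      subst ht
      exact ⟨hA, hB⟩)
    simp only [List.map_cons, List.map_nil, List.flatten_cons, List.flatten_nil, List.append_nil, List.sum_cons,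
      List.sum_nil, add_zero] at k
    have h' : (0 : ℤ) ≤ (A.sum : ℤ) - B.sum := by
      have : (B.sum : ℤ) ≤ A.sum := by exact_mod_cast h
      linarith
    rw [abs_of_nonneg h']
    refine le_max_of_le_left (k.trans (le_of_eq ?_))
    ring

theorem upper_max (A B : List ℕ) (hA : ∀ n ∈ A, n % 2 = 1) (hB : ∀ n ∈ B, n % 2 = 1) :
    2 * (ribbonGenus (tsum A ++ adj (tsum B)) : ℤ) ≤ max (A.length + B.length + |(A.sum : ℤ) - B.sum| - 2) 0 := by
  rcases Nat.le_total B.sum A.sum with h | h
  · exact XR_upper A B hA hB h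
  · have e : tsum A ++ adj (tsum B) = adj (tsum B ++ adj (tsum A)) := by
      rw [adj_append, Tangle.adj_adj]
    have k := XR_upper B A hB hA h
    rw [e, ribbon_adj, abs_sub_comm, add_comm (A.length : ℤ)]
    exact k

/-- the difference of the genera is less than the number of summands of the sign with the larger sum -/
theorem diff_bd (A B : List ℕ) (hA : ∀ n ∈ A, n % 2 = 1) (hB : ∀ n ∈ B, n % 2 = 1) (h : B.sum ≤ A.sum) :
    ribbonGenus (tsum A ++ adj (tsum B)) ≤ sliceGenus (tsum A ++ adj (tsum B)) + (A.length - 1) := by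
  have k1 := upper_max A B hA hB
  have k2 := half_bd A B hA hB
  have h' : (0 : ℤ) ≤ (A.sum : ℤ) - B.sum := by
    have : (B.sum : ℤ) ≤ A.sum := by exact_mod_cast h
    linarith
  rw [abs_of_nonneg h'] at k1
  have hl : A.length = 0 → A.sum = 0 := fun h0 => by
    rw [List.eq_nil_of_length_eq_zero h0, List.sum_nil]
  have hl2 : B.sum = 0 → B.length = 0 := fun h0 => by
    rcases B with _ | ⟨b, B⟩
    · rfl
    · exfalso
      have k := hB b (by simp)
      rw [List.sum_cons] at h0
      omega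
  omega

/-- the floor at `1 / 2 - ε` -/
private theorem XR_fl (n : ℕ) (hn : n % 2 = 1) (ε : ℝ) (k : ℤ) (h2 : (n : ℝ) * ε ≤ k + 1) :
    ((n : ℤ) - 1) / 2 - k ≤ fl n (1 / 2 - ε) := by
  unfold fl
  obtain ⟨m, rfl⟩ : ∃ m, n = 2 * m + 1 := ⟨n / 2, by omega⟩
  have e : (((2 * m + 1 : ℕ) : ℤ) - 1) / 2 = m := by
    push_cast
    omega
  rw [e, Int.le_floor]
  push_cast at h2 ⊢
  nlinarith

private theorem XR_fl' (n : ℕ) (hn : n % 2 = 1) (ε : ℝ) (k : ℤ) (h1 : (k : ℝ) < n * ε) :
    fl n (1 / 2 - ε) ≤ ((n : ℤ) - 1) / 2 - k := by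
  unfold fl
  obtain ⟨m, rfl⟩ : ∃ m, n = 2 * m + 1 := ⟨n / 2, by omega⟩
  have e : (((2 * m + 1 : ℕ) : ℤ) - 1) / 2 = m := by
    push_cast
    omega
  rw [e, ← Int.lt_add_one_iff, Int.floor_lt]
  push_cast at h1 ⊢
  nlinarith

private theorem XR_A (l : List ℕ) (ε : ℝ) (h : ∀ n ∈ l, n % 2 = 1 ∧ (n : ℝ) * ε ≤ 1) :
    (l.sum : ℤ) - l.length ≤ 2 * fsum l (1 / 2 - ε) := by
  unfold fsum
  induction l with
  | nil => simp
  | cons a l ih =>
    have h1 := h a (by simp)
    have h2 := XR_fl a h1.1 ε 0 (by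
      push_cast
      linarith [h1.2])
    have h3 := ih fun n hn => h n (by simp [hn])
    rw [List.map_cons, List.sum_cons, List.sum_cons, List.length_cons, mul_add, Nat.cast_add, Nat.cast_add]
    omega

private theorem XR_B (H : List (ℕ × List ℕ)) (ε : ℝ)
    (h : ∀ t ∈ H, t.1 % 2 = 1 ∧ 1 ≤ t.2.length ∧ ((t.2.length : ℝ) - 1) < t.1 * ε) :
    2 * fsum (H.map Prod.fst) (1 / 2 - ε) ≤
      ((H.map Prod.fst).sum : ℤ) + H.length - 2 * ((H.map Prod.snd).flatten.length : ℤ) := by
  unfold fsum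
  induction H with
  | nil => simp
  | cons t H ih =>
    have h1 := h t (by simp)
    have h2 := XR_fl' t.1 h1.1 ε ((t.2.length : ℤ) - 1) (by
      push_cast
      exact h1.2.2)
    have h3 := ih fun n hn => h n (by simp [hn])
    have h4 := h1.1
    simp only [List.map_cons, List.sum_cons, List.length_cons, List.flatten_cons, List.length_append, mul_add,
      Nat.cast_add] at h3 ⊢
    omega

theorem cover_eq (A B : List ℕ) (hA : ∀ n ∈ A, n % 2 = 1) (hB : ∀ n ∈ B, n % 2 = 1) (hA1 : ∀ n ∈ A, n ≠ 1)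
    (h : Cover A B) :
    ribbonGenus (tsum A ++ adj (tsum B)) = sliceGenus (tsum A ++ adj (tsum B)) ∧
      ∃ θ : ℝ, 0 ≤ θ ∧ θ < 1 / 2 ∧ (sliceGenus (tsum A ++ adj (tsum B)) : ℤ) = |fsum A θ - fsum B θ| := by
  by_cases hA0 : A = []
  · -- then `B` is empty
    obtain ⟨H, R, h1, h2, h3⟩ := h
    refine pack_eq A B hA hB ⟨[], by rw [hA0]; exact List.Perm.refl _, ?_, fun t ht => (by cases ht)⟩
    have e : (H.map Prod.snd).flatten ++ R = [] := by
      rw [hA0] at h2
      exact List.nil_perm.1 h2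
    have e2 := (List.append_eq_nil_iff.1 e).1
    rw [List.flatten_eq_nil_iff] at e2
    rcases H with _ | ⟨t, H⟩
    · exact h1
    · exfalso
      have k1 := (h3 t (by simp)).1
      rw [e2 t.2 (List.mem_map_of_mem (by simp)), List.sum_nil] at k1
      have k2 := hB t.1 (h1.mem_iff.2 (by simp))
      omega
  obtain ⟨m, hm1, hm2⟩ : ∃ m ∈ A, ∀ x ∈ A, x ≤ m := by
    have hne : A.toFinset.Nonempty := by
      rw [List.toFinset_nonempty_iff]
      exact hA0
    obtain ⟨m, hm1, hm2⟩ := Finset.exists_max_image _ id hne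
    exact ⟨m, List.mem_toFinset.1 hm1, fun x hx => hm2 x (List.mem_toFinset.2 hx)⟩
  obtain ⟨H, R, h1, h2, h3⟩ := h
  have hm3 : 3 ≤ m := by
    have k1 := hA m hm1
    have k2 := hA1 m hm1
    omega
  have hmR : (3 : ℝ) ≤ m := by exact_mod_cast hm3
  have hm0 : (0 : ℝ) < m := by linarith
  have hsub : ∀ t ∈ H, ∀ x ∈ t.2, x ∈ A := fun t ht x hx => h2.mem_iff.2 (List.mem_append_left _
    (List.mem_flatten.2 ⟨t.2, List.mem_map_of_mem ht, hx⟩))
  have hlen : ∀ t ∈ H, 1 ≤ t.2.length := by
    intro t ht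
    by_contra h4
    have h5 : t.2 = [] := List.eq_nil_of_length_eq_zero (by omega)
    have k1 := (h3 t ht).1
    rw [h5, List.sum_nil] at k1
    have k2 := hB t.1 (h1.mem_iff.2 (List.mem_map_of_mem ht))
    omega
  have b1 := XR_A A (1 / m) fun n hn => ⟨hA n hn, by
    rw [mul_one_div, div_le_one hm0]
    exact_mod_cast hm2 n hn⟩
  have b2 := XR_B H (1 / m) fun t ht => ⟨hB t.1 (h1.mem_iff.2 (List.mem_map_of_mem ht)), hlen t ht, by
    have k1 := (h3 t ht).2 m hm1
    have k2 : ((t.2.length : ℝ) - 1) * m < t.1 := by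
      have k3 : (((t.2.length - 1 : ℕ) : ℝ)) * m < t.1 := by exact_mod_cast k1
      rw [Nat.cast_sub (hlen t ht)] at k3
      exact_mod_cast k3
    rw [mul_one_div, lt_div_iff₀ hm0]
    exact k2⟩
  have b3 : fsum (H.map Prod.fst) (1 / 2 - 1 / m) = fsum B (1 / 2 - 1 / m) := by
    unfold fsum
    exact (h1.symm.map _).sum_eq
  rw [b3] at b2
  have l1 : (A.length : ℤ) = (H.map Prod.snd).flatten.length + R.length := by
    rw [h2.length_eq, List.length_append]
    push_cast
    ring
  have l2 : (B.length : ℤ) = H.length := by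
    rw [h1.length_eq, List.length_map]
  have l3 : (H.map Prod.fst).sum = B.sum := h1.sum_eq.symm
  rw [l3] at b2
  have e1 : (0 : ℝ) < 1 / m := by positivity
  have e2 : (1 : ℝ) / m ≤ 1 / 2 := by
    rw [div_le_div_iff₀ hm0 (by norm_num)]
    linarith
  have k := crit_perm ((H.map fun t => (t.2, [t.1])) ++ R.map fun r => ([r], [])) (by
      intro t ht
      rcases List.mem_append.1 ht with ht | ht
      · obtain ⟨s, hs, rfl⟩ := List.mem_map.1 ht
        refine ⟨fun h4 => ?_, ?_⟩
        · have h5 : s.2 = [] := h4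
          have h6 := hlen s hs
          rw [h5] at h6
          simp at h6
        · show [s.1].sum ≤ s.2.sum
          rw [List.sum_singleton]
          exact (h3 s hs).1
      · obtain ⟨s, hs, rfl⟩ := List.mem_map.1 ht
        exact ⟨List.cons_ne_nil _ _, Nat.zero_le _⟩) A B hA hB (by
      have e : ∀ L : List ℕ, (L.map (Prod.fst ∘ fun r : ℕ => (([r], []) : List ℕ × List ℕ))).flatten = L := by
        intro L
        induction L with
        | nil => rfl
        | cons a L ih =>
          rw [List.map_cons, List.flatten_cons, ih]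
          rfl
      rw [List.map_append, List.flatten_append, List.map_map, List.map_map, e]
      exact h2) (by
      have e : ∀ L : List (ℕ × List ℕ), (L.map (Prod.snd ∘ fun t : ℕ × List ℕ => (t.2, [t.1]))).flatten = L.map Prod.fst := by
        intro L
        induction L with
        | nil => rfl
        | cons a L ih =>
          rw [List.map_cons, List.flatten_cons, ih, List.map_cons]
          rfl
      have e' : ∀ L : List ℕ, (L.map (Prod.snd ∘ fun r : ℕ => (([r], []) : List ℕ × List ℕ))).flatten = [] := by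
        intro L
        induction L with
        | nil => rfl
        | cons a L ih =>
          rw [List.map_cons, List.flatten_cons, ih]
          rfl
      rw [List.map_append, List.flatten_append, List.map_map, List.map_map, e, e', List.append_nil]
      exact h1) (1 / 2 - 1 / m) (by linarith) (by linarith) (by
      rw [List.length_append, List.length_map, List.length_map, Nat.cast_add]
      have k2 := le_abs_self (fsum A (1 / 2 - 1 / m) - fsum B (1 / 2 - 1 / m))
      linarith)
  exact ⟨k.1, _, by linarith, by linarith, k.2⟩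

end Pool.Agent.Lib.MP_177a0e_gt.LT
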