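import Pool.Agent.Lib.MP_177a0e_gt.LT.PE
import Pool.Agent.Lib.MP_177a0e_gt.LT.PF
import Pool.Agent.Lib.MP_177a0e_gt.LT.XQ
import Pool.Agent.Lib.MP_177a0e_gt.LT.XR
import Pool.Agent.Lib.MP_177a0e_gt.LT.Two
import Pool.Agent.Lib.MP_177a0e_gt.LT.Thr

/-!
# the exact cases.
-/

namespace Pool.Agent.Lib.MP_177a0e_gt.LT

open Pool.Agent.Lib.MP_177a0e_gt.Tangle Pool.Agent.Lib.MP_177a0e_gt.Tangle.Gen
open Pool.Agent.Lib.MP_177a0e_gt.Sig

/-- the statement that the genera of the sum of the `T(2, n)`, `n` in `A`, and the `-T(2, n)`, `n` in `B`, are equal and given by the signatures -/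
def Eq2 (A B : List ℕ) : Prop :=
  ribbonGenus (tsum A ++ adj (tsum B)) = sliceGenus (tsum A ++ adj (tsum B)) ∧
    ∃ θ : ℝ, 0 ≤ θ ∧ θ < 1 / 2 ∧ (sliceGenus (tsum A ++ adj (tsum B)) : ℤ) = |fsum A θ - fsum B θ|

theorem Eq2.mir {A B : List ℕ} (h : Eq2 A B) : Eq2 B A := by
  obtain ⟨h1, θ, h2, h3, h4⟩ := h
  have e : tsum B ++ adj (tsum A) = adj (tsum A ++ adj (tsum B)) := by
    rw [adj_append, Tangle.adj_adj]
  unfold Eq2
  rw [e, slice_adj, ribbon_adj]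
  exact ⟨h1, θ, h2, h3, by rw [h4, abs_sub_comm]⟩

theorem eq2_seven (q : ℕ) (hq : q = 3 ∨ q = 5 ∨ q = 7) (A B : List ℕ) (hA : ∀ n ∈ A, n % 2 = 1) (h : ∀ n ∈ B, n = q) :
    Eq2 A B := by
  have e := List.eq_replicate_of_mem h
  rw [e]
  rcases Nat.le_total (q * B.length) A.sum with h1 | h1
  · exact seven_a q hq B.length A hA h1
  · exact Eq2.mir (seven_b q hq B.length A hA h1)

theorem eq2_two (p q : ℕ) (A B : List ℕ) (hA : ∀ n ∈ A, n % 2 = 1) (hB : ∀ n ∈ B, n % 2 = 1) (h1 : ∀ n ∈ A, n = p)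
    (h2 : ∀ n ∈ B, n = q) : Eq2 A B := by
  rcases Nat.eq_zero_or_pos A.length with h | h
  · have e : A = [] := List.eq_nil_of_length_eq_zero h
    subst e
    exact Eq2.mir (eq2_seven 3 (Or.inl rfl) B [] hB (by simp))
  rcases Nat.eq_zero_or_pos B.length with h' | h'
  · have e : B = [] := List.eq_nil_of_length_eq_zero h'
    subst e
    exact eq2_seven 3 (Or.inl rfl) A [] hA (by simp)
  obtain ⟨a, ha⟩ := List.exists_mem_of_length_pos h
  obtain ⟨b, hb⟩ := List.exists_mem_of_length_pos h'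
  have hp : p % 2 = 1 := by rw [← h1 a ha]; exact hA a ha
  have hq : q % 2 = 1 := by rw [← h2 b hb]; exact hB b hb
  have e1 := List.eq_replicate_of_mem h1
  have e2 := List.eq_replicate_of_mem h2
  rw [e1, e2]
  obtain ⟨h3, ⟨θ, h4, h5, h6⟩, _⟩ := two_types p q hp hq A.length B.length
  exact ⟨h3, θ, h4, h5, by rw [h6, fsum_replicate, fsum_replicate]⟩

/-- all numbers are at most `7` -/
theorem eq2_small (A B : List ℕ) (hA : ∀ n ∈ A, n % 2 = 1 ∧ n ≠ 1) (hB : ∀ n ∈ B, n % 2 = 1 ∧ n ≠ 1)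
    (hAB : ∀ n ∈ A, n ∉ B) (h : ∀ n ∈ A ++ B, n ≤ 7) : Eq2 A B := by
  have oA : ∀ n ∈ A, n % 2 = 1 := fun n hn => (hA n hn).1
  have oB : ∀ n ∈ B, n % 2 = 1 := fun n hn => (hB n hn).1
  have cA : ∀ n ∈ A, n = 3 ∨ n = 5 ∨ n = 7 := fun n hn => by
    have k1 := hA n hn
    have k2 := h n (List.mem_append_left _ hn)
    omega
  have cB : ∀ n ∈ B, n = 3 ∨ n = 5 ∨ n = 7 := fun n hn => by
    have k1 := hB n hn
    have k2 := h n (List.mem_append_right _ hn)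
    omega
  by_cases hq : ∃ q : ℕ, (q = 3 ∨ q = 5 ∨ q = 7) ∧ ∀ n ∈ B, n = q
  · obtain ⟨q, hq, h3⟩ := hq
    exact eq2_seven q hq A B oA h3
  -- `B` contains two of the numbers, hence `A` at most one
  obtain ⟨x, hx, hx3⟩ : ∃ x ∈ B, x ≠ 3 := by
    by_contra hc
    exact hq ⟨3, Or.inl rfl, fun n hn => by
      by_contra h5
      exact hc ⟨n, hn, h5⟩⟩
  obtain ⟨y, hy, hy3⟩ : ∃ y ∈ B, y ≠ x := by
    by_contra hc
    exact hq ⟨x, cB x hx, fun n hn => by
      by_contra h5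
      exact hc ⟨n, hn, h5⟩⟩
  have c1 := cB x hx
  have c2 := cB y hy
  have key : ∀ n ∈ A, n = 15 - x - y := fun n hn => by
    have k1 := cA n hn
    have k2 : n ≠ x := fun h5 => hAB n hn (h5 ▸ hx)
    have k3 : n ≠ y := fun h5 => hAB n hn (h5 ▸ hy)
    omega
  exact Eq2.mir (eq2_seven (15 - x - y) (by omega) B A oB key)

/-- the exact cases: at most three summands; one type of each sign; one type, `3`, `5` or `7`, of one sign; packing; covering -/
theorem eq2_cases (A B : List ℕ) (hA : ∀ n ∈ A, n % 2 = 1 ∧ n ≠ 1) (hB : ∀ n ∈ B, n % 2 = 1 ∧ n ≠ 1)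
    (hAB : ∀ n ∈ A, n ∉ B)
    (h : A.length + B.length ≤ 3 ∨ (∃ p q : ℕ, (∀ n ∈ A, n = p) ∧ ∀ n ∈ B, n = q) ∨
      (∃ q : ℕ, (q = 3 ∨ q = 5 ∨ q = 7) ∧ ((∀ n ∈ A, n = q) ∨ ∀ n ∈ B, n = q)) ∨ (∀ n ∈ A ++ B, n ≤ 7) ∨
      Pack A B ∨ Pack B A ∨ Cover A B ∨ Cover B A) : Eq2 A B := by
  have oA : ∀ n ∈ A, n % 2 = 1 := fun n hn => (hA n hn).1
  have oB : ∀ n ∈ B, n % 2 = 1 := fun n hn => (hB n hn).1
  rcases h with h | ⟨p, q, h3, h4⟩ | ⟨q, hq, h3 | h3⟩ | h | h | h | h | h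
  · exact three A B oA oB h
  · exact eq2_two p q A B oA oB h3 h4
  · exact Eq2.mir (eq2_seven q hq B A oB h3)
  · exact eq2_seven q hq A B oA h3
  · exact eq2_small A B hA hB hAB h
  · exact pack_eq A B oA oB h
  · exact Eq2.mir (pack_eq B A oB oA h)
  · exact cover_eq A B oA oB (fun n hn => (hA n hn).2) h
  · exact Eq2.mir (cover_eq B A oB oA (fun n hn => (hB n hn).2) h)

private theorem XZ_fl (θ : ℝ) (h0 : 0 ≤ θ) (h1 : θ < 1 / 2) : fl 1 θ = 0 := by
  unfold fl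
  rw [Int.floor_eq_iff]
  push_cast
  constructor <;> linarith

private theorem XZ_ones (A C : List ℕ) (i : ℕ) (θ : ℝ) (h0 : 0 ≤ θ) (h1 : θ < 1 / 2) :
    fsum (A ++ (C ++ List.replicate i 1)) θ = fsum A θ + fsum C θ := by
  unfold fsum
  rw [List.map_append, List.map_append, List.map_replicate, List.sum_append, List.sum_append, List.sum_replicate,
    XZ_fl θ h0 h1, smul_zero, add_zero]

private theorem XZ_perm {A B : List ℕ} (h : A.Perm B) (θ : ℝ) : fsum A θ = fsum B θ := by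
  unfold fsum
  exact (h.map _).sum_eq

private theorem XZ_cons (n : ℕ) (l : List ℕ) : tsum (n :: l) = tk n ++ tsum l := by
  simp [tsum]

/-- packing everything in one number -/
private theorem XZ_pack (n : ℕ) (A B : List ℕ) (h : B.sum ≤ n) : Pack (n :: A) B := by
  refine ⟨(n, B) :: A.map fun a => (a, []), ?_, ?_, ?_⟩
  · rw [List.map_cons, List.map_map]
    have e : A.map (Prod.fst ∘ fun a : ℕ => ((a, []) : ℕ × List ℕ)) = A := by
      induction A with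
      | nil => rfl
      | cons a A ih =>
        rw [List.map_cons, ih]
        rfl
    rw [e]
  · rw [List.map_cons, List.flatten_cons, List.map_map]
    have e : (A.map (Prod.snd ∘ fun a : ℕ => ((a, []) : ℕ × List ℕ))).flatten = [] := by
      induction A with
      | nil => rfl
      | cons a A ih =>
        rw [List.map_cons, List.flatten_cons, ih]
        rfl
    rw [e, List.append_nil]
  · intro t ht
    rcases List.mem_cons.1 ht with rfl | ht
    · exact h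
    · obtain ⟨a, _, rfl⟩ := List.mem_map.1 ht
      exact Nat.zero_le _

theorem pack_all (P M A B C : List ℕ) (i j : ℕ) (hP : ∀ n ∈ P, n % 2 = 1) (hM : ∀ n ∈ M, n % 2 = 1)
    (h1 : P.Perm (A ++ (C ++ List.replicate i 1))) (h2 : M.Perm (B ++ (C ++ List.replicate j 1))) (h : Pack A B) :
    ribbonGenus (tsum P ++ adj (tsum M)) = sliceGenus (tsum P ++ adj (tsum M)) := by
  obtain ⟨o3, o4, c1, c2⟩ := red_gen P M A B C i j hP hM h1 h2
  have k := (pack_eq A B o3 o4 h).1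
  have c3 : sliceGenus (tsum P ++ adj (tsum M)) ≤ ribbonGenus (tsum P ++ adj (tsum M)) :=
    sliceGenus_le_ribbonGenus ⟨_, (tsum_knot _ hP).append (tsum_knot _ hM).adj⟩
  omega

/-- every sum of two-strand torus knots with signs -/
theorem all_sums (P M : List ℕ) (hP : ∀ n ∈ P, n % 2 = 1) (hM : ∀ n ∈ M, n % 2 = 1) :
    ∃ (A B C : List ℕ) (i j : ℕ), P.Perm (A ++ (C ++ List.replicate i 1)) ∧ M.Perm (B ++ (C ++ List.replicate j 1)) ∧
      (∀ n ∈ A, n ≠ 1 ∧ n ∉ B) ∧ (∀ n ∈ B, n ≠ 1) ∧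
      2 * (ribbonGenus (tsum P ++ adj (tsum M)) : ℤ) ≤ max (A.length + B.length + |(A.sum : ℤ) - B.sum| - 2) 0 ∧
      (A.length : ℤ) + B.length + |(A.sum : ℤ) - B.sum| ≤
        (10 * min A.toFinset.card B.toFinset.card + 12 : ℕ) * sliceGenus (tsum P ++ adj (tsum M)) ∧
      (A.length : ℝ) + B.length + |(A.sum : ℝ) - B.sum| ≤ 2400 * (sliceGenus (tsum P ++ adj (tsum M)) : ℝ) ^ 2 *
        (1 + Real.log (sliceGenus (tsum P ++ adj (tsum M)) : ℝ)) ^ 2 ∧
      (B.sum ≤ A.sum → ribbonGenus (tsum P ++ adj (tsum M)) ≤ sliceGenus (tsum P ++ adj (tsum M)) + (A.length - 1)) ∧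
      (A.sum ≤ B.sum → ribbonGenus (tsum P ++ adj (tsum M)) ≤ sliceGenus (tsum P ++ adj (tsum M)) + (B.length - 1)) ∧
      ((A.length + B.length ≤ 3 ∨ (∃ p q : ℕ, (∀ n ∈ A, n = p) ∧ ∀ n ∈ B, n = q) ∨
          (∃ q : ℕ, (q = 3 ∨ q = 5 ∨ q = 7) ∧ ((∀ n ∈ A, n = q) ∨ ∀ n ∈ B, n = q)) ∨ (∀ n ∈ A ++ B, n ≤ 7) ∨
          Pack A B ∨ Pack B A ∨ Cover A B ∨ Cover B A) →
        ribbonGenus (tsum P ++ adj (tsum M)) = sliceGenus (tsum P ++ adj (tsum M)) ∧
        IsGreatest {n : ℤ | ∃ θ : ℝ, 0 ≤ θ ∧ θ < 1 / 2 ∧ n = |fsum P θ - fsum M θ|}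
          (sliceGenus (tsum P ++ adj (tsum M)))) ∧
      ∀ n : ℕ, n % 2 = 1 →
        (B.sum ≤ n → ribbonGenus (csum (tk n) (tsum P ++ adj (tsum M))) = sliceGenus (csum (tk n) (tsum P ++ adj (tsum M)))) ∧
        (A.sum ≤ n → ribbonGenus (csum (tsum P ++ adj (tsum M)) (adj (tk n))) =
          sliceGenus (csum (tsum P ++ adj (tsum M)) (adj (tk n)))) := by
  obtain ⟨A, B, C, i, j, h1, h2, h3, h4, o3, o4, c1, c2⟩ := red_all' P M hP hM
  have hA : ∀ n ∈ A, n % 2 = 1 ∧ n ≠ 1 := fun n hn => ⟨o3 n hn, (h3 n hn).1⟩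
  have hB : ∀ n ∈ B, n % 2 = 1 ∧ n ≠ 1 := fun n hn => ⟨o4 n hn, h4 n hn⟩
  have hAB : ∀ n ∈ A, n ∉ B := fun n hn => (h3 n hn).2
  have e : tsum B ++ adj (tsum A) = adj (tsum A ++ adj (tsum B)) := by
    rw [adj_append, Tangle.adj_adj]
  refine ⟨A, B, C, i, j, h1, h2, h3, h4, ?_, ?_, ?_, fun h => ?_, fun h => ?_, fun h => ?_, fun n hn => ⟨fun h => ?_, fun h => ?_⟩⟩
  · have k1 := upper_max A B o3 o4
    have k2 : (ribbonGenus (tsum P ++ adj (tsum M)) : ℤ) ≤ ribbonGenus (tsum A ++ adj (tsum B)) := by exact_mod_cast c1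
    linarith
  · rw [c2]
    have b1 := size_bd2 A B hA hB hAB
    have b2 := size_bd2 B A hB hA fun n hn hn' => hAB n hn' hn
    rw [e, slice_adj, abs_sub_comm] at b2
    have e2 : ∀ x : ℕ, ((10 * x + 12 : ℕ) : ℤ) = 10 * (x : ℤ) + 12 := fun x => by
      push_cast
      ring
    rcases Nat.le_total A.toFinset.card B.toFinset.card with h | h
    · rw [min_eq_left h, e2]
      linarith
    · rw [min_eq_right h, e2]
      linarith
  · rw [c2]
    exact size_bd A B hA hB hAB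
  · rw [c2]
    exact c1.trans (diff_bd A B o3 o4 h)
  · rw [c2]
    have k := diff_bd B A o4 o3 h
    rw [e, ribbon_adj, slice_adj] at k
    exact c1.trans k
  · obtain ⟨k1, θ, k2, k3, k4⟩ := eq2_cases A B hA hB hAB h
    have c3 : sliceGenus (tsum P ++ adj (tsum M)) ≤ ribbonGenus (tsum P ++ adj (tsum M)) :=
      sliceGenus_le_ribbonGenus ⟨_, (tsum_knot _ hP).append (tsum_knot _ hM).adj⟩
    refine ⟨by omega, ⟨θ, k2, k3, ?_⟩, ?_⟩
    · rw [XZ_perm h1 θ, XZ_perm h2 θ, XZ_ones A C i θ k2 k3, XZ_ones B C j θ k2 k3, c2, k4]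
      congr 1
      ring
    · rintro n ⟨θ, h0, h1, rfl⟩
      exact lower P M hP hM θ h0 h1
  · have k := pack_all (n :: P) M (n :: A) B C i j (by
      intro x hx
      rcases List.mem_cons.1 hx with rfl | hx
      · exact hn
      · exact hP x hx) hM (h1.cons n) h2 (XZ_pack n A B h)
    have e1 : csum (tk n) (tsum P ++ adj (tsum M)) = tsum (n :: P) ++ adj (tsum M) := by
      rw [XZ_cons]
      simp only [csum, List.append_assoc]
    rw [e1]
    exact k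
  · have k := pack_all (n :: M) P (n :: B) A C j i (by
      intro x hx
      rcases List.mem_cons.1 hx with rfl | hx
      · exact hn
      · exact hM x hx) hP (h2.cons n) h1 (XZ_pack n B A h)
    have e1 : csum (tsum P ++ adj (tsum M)) (adj (tk n)) = adj (tsum (n :: M) ++ adj (tsum P)) := by
      rw [XZ_cons, adj_append, Tangle.adj_adj, adj_append]
      simp only [csum, List.append_assoc]
    rw [e1, slice_adj, ribbon_adj]
    exact k

end Pool.Agent.Lib.MP_177a0e_gt.LT
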