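import Pool.Agent.Lib.MP_177a0e_gt.LT.Defs
import Pool.Agent.Lib.MP_177a0e_gt.Sig.Edg

/-!
# colourings with integer values.

MODEL: `Sig/KnA.lean`. Let `c = n / d`, `n` even, `d` odd; `QE c = ℚ (δ)`, `δ ^ 2 = c ^ 2 - 1`; `uE c = c + δ`, `vE c = c - δ`.
PROOFS.
* `z_fin`: as `fin_sup` in `Sig/KnA.lean` (only `Fit` is used; `colZ u v s ≤ fitM`).
* `z_mod2a`: at a crossing the value above is `zt P Q a b l m r` with `P, Q` in `{c + δ, c - δ}`. Write all values as `x + y δ`, `x, y` integers (given), multiply the equation by `d ^ 2`: both parts are equations between integers, with coefficients in `n d`, `n ^ 2`, `n ^ 2 - d ^ 2`, `d ^ 2`: modulo 2: `n = 0`, `d = 1`. Adding the two parts modulo 2 is the substitution `δ ↦ 1`, `P, Q ↦ 1`: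
  `(x + y) above = (x + y)(l) + (x + y)(m) + (x + y)(r)` modulo 2, the condition `Col` over `ZMod 2` (`sz = ± 1 = 1`, `-1 = 1`: `top - middle = ± (left - right)`).
  (For `P = c + e δ`, `e = ± 1`: `P (α + β δ) = (c α + e (c ^ 2 - 1) β) + (c β + e α) δ`; times `d ^ 2`: real part `n d α + e (n ^ 2 - d ^ 2) β = β` modulo 2, imaginary part `n d β + e d ^ 2 α = α` modulo 2.)
* `z_mod2b`: if `x + y = 0` modulo 2 everywhere then multiplication by `P` does not change `x` modulo 2 (`β = α`), so `x` alone satisfies `x above = x(l) + x(m) + x(r)` modulo 2.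
`Fit` and the vanishing of the level 0 and of the levels beyond the last: componentwise. (A parity lemma for `ZMod 2`: `ZMod.intCast_zmod_eq_zero_iff_dvd`, `(ZMod.intCast_eq_intCast_iff_dvd_sub _ _ 2)`, or `Int.emod_two_eq` and `omega`-like reasoning on products: `Int.even_mul`.)
-/

namespace Pool.Agent.Lib.MP_177a0e_gt.LT

open Pool.Agent.Lib.MP_177a0e_gt.Tangle Pool.Agent.Lib.MP_177a0e_gt.Tangle.Gen
open Pool.Agent.Lib.MP_177a0e_gt.Sig

/-- the values `a + b δ` -/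
def zz (c : ℚ) (a b : ℕ → ℕ → ℤ) : ℕ → ℕ → QE c := fun j i => ⟨(a j i : ℚ), (b j i : ℚ)⟩

/-- the bound for the support -/
private def ZKnA_b : Word → ℕ
  | [] => 0
  | s :: w => lp s + 4 + ZKnA_b w

private theorem ZKnA_sup {R : Type} [Field R] (u v : R) (w : Word) : ∀ (n : ℕ) (x : ℕ → ℕ → R),
    Run (colZ u v) w x → (∀ i, n ≤ i → x 0 i = 0) →
    ∀ j ≤ w.length, ∀ i, n + ZKnA_b w ≤ i → x j i = 0 := by
  induction w with
  | nil =>
    intro n x _ h0 j hj i hi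
    have hj0 : j = 0 := by
      simpa using hj
    subst hj0
    exact h0 i (by omega)
  | cons s w ih =>
    intro n x hx h0 j hj i hi
    have hb : ZKnA_b (s :: w) = lp s + 4 + ZKnA_b w := rfl
    rw [hb] at hi
    rcases j with _ | j
    · exact h0 i (by omega)
    · have hF : Fit s (x 0) (x 1) := hx.1.1
      have h1 : ∀ i, n + (lp s + 4) ≤ i → (sh 1 x) 0 i = 0 := by
        intro i hi
        show x 1 i = 0
        rcases s with ⟨p, _ | _ | _, q⟩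
        · have h2 : ∀ i, lp ⟨p, cup _, q⟩ ≤ i → x 1 (i + 2) = x 0 i := hF.2
          have e : i = (i - 2) + 2 := by omega
          rw [e, h2 (i - 2) (by omega)]
          exact h0 _ (by omega)
        · have h2 : ∀ i, lp ⟨p, cap _, q⟩ ≤ i → x 0 (i + 2) = x 1 i := hF.2
          rw [← h2 i (by omega)]
          exact h0 _ (by omega)
        · have h2 : ∀ i, i ≠ lp ⟨p, cross _ _ _, q⟩ + 1 → x 1 i = x 0 i := hF
          rw [h2 i (by omega)]
          exact h0 _ (by omega)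
      have hj' : j ≤ w.length := by
        have : (s :: w).length = w.length + 1 := rfl
        omega
      exact ih (n + (lp s + 4)) (sh 1 x) hx.2 h1 j hj' i (by omega)

theorem z_fin (c : ℚ) [Adm c] (w : Word) : ∃ N : ℕ, ∀ x ∈ Zc (uE c) (vE c) w, ∀ j i, N ≤ i → x j i = 0 := by
  refine ⟨ZKnA_b w, fun x hx j i hi => ?_⟩
  rcases le_or_gt j w.length with hj | hj
  · refine ZKnA_sup (uE c) (vE c) w 0 x hx.1.1 (fun i _ => ?_) j hj i (by omega)
    rw [hx.2]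
    rfl
  · rw [hx.1.2.2 j hj]
    rfl

/-- the rational number `z` is a 2-adic integer with the residue `α` -/
private def Md (z : ℚ) (α : ZMod 2) : Prop :=
  ∃ k p : ℤ, (k : ZMod 2) = 1 ∧ (k : ℚ) * z = p ∧ (p : ZMod 2) = α

private theorem Md.add {z z' : ℚ} {α α' : ZMod 2} (h : Md z α) (h' : Md z' α') : Md (z + z') (α + α') := by
  obtain ⟨k, p, h1, h2, h3⟩ := h
  obtain ⟨k', p', h1', h2', h3'⟩ := h'
  refine ⟨k * k', p * k' + p' * k, ?_, ?_, ?_⟩
  · push_cast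
    rw [h1, h1', one_mul]
  · push_cast
    rw [← h2, ← h2']
    ring
  · push_cast
    rw [h1, h1', h3, h3', mul_one, mul_one]

private theorem Md.mul {z z' : ℚ} {α α' : ZMod 2} (h : Md z α) (h' : Md z' α') : Md (z * z') (α * α') := by
  obtain ⟨k, p, h1, h2, h3⟩ := h
  obtain ⟨k', p', h1', h2', h3'⟩ := h'
  refine ⟨k * k', p * p', ?_, ?_, ?_⟩
  · push_cast
    rw [h1, h1', one_mul]
  · push_cast
    rw [← h2, ← h2']
    ring
  · push_cast
    rw [h3, h3']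

private theorem Md.neg {z : ℚ} {α : ZMod 2} (h : Md z α) : Md (-z) α := by
  obtain ⟨k, p, h1, h2, h3⟩ := h
  refine ⟨-k, p, ?_, ?_, h3⟩
  · push_cast
    rw [h1]
    decide
  · push_cast
    rw [← h2]
    ring

private theorem Md.int (n : ℤ) : Md (n : ℚ) (n : ZMod 2) := ⟨1, n, by simp, by simp, rfl⟩

private theorem Md.one : Md (1 : ℚ) 1 := ⟨1, 1, by simp, by simp, by simp⟩

private theorem Md.coef (c : ℚ) [h : Adm c] : Md c 0 := by
  refine ⟨c.den, c.num, ?_, ?_, ?_⟩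
  · have h1 := h.den
    have h2 : ((c.den : ℕ) : ZMod 2) = ((1 : ℕ) : ZMod 2) := (ZMod.natCast_eq_natCast_iff' _ _ 2).2 (by rw [h1])
    push_cast at h2 ⊢
    exact h2
  · have := Rat.mul_den_eq_num c
    push_cast
    rw [mul_comm]
    exact this
  · have h1 := h.num
    exact (ZMod.intCast_zmod_eq_zero_iff_dvd _ 2).2 (by
      push_cast
      exact Int.dvd_of_emod_eq_zero h1)

private theorem Md.uniq {z : ℚ} {α β : ZMod 2} (h : Md z α) (h' : Md z β) : α = β := by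
  obtain ⟨k, p, h1, h2, h3⟩ := h
  obtain ⟨k', p', h1', h2', h3'⟩ := h'
  have e : ((k' * p : ℤ) : ℚ) = ((k * p' : ℤ) : ℚ) := by
    push_cast
    rw [← h2, ← h2']
    ring
  have e' := Int.cast_injective e
  have e2 := congrArg (Int.cast : ℤ → ZMod 2) e'
  push_cast at e2
  rw [h1, h1', h3, h3', one_mul, one_mul] at e2
  exact e2

/-- both parts -/
private def Mq {c : ℚ} (z : QE c) (α β : ZMod 2) : Prop := Md z.re α ∧ Md z.im β

private theorem Mq.add {c : ℚ} [Adm c] {z z' : QE c} {α α' β β' : ZMod 2} (h : Mq z α β) (h' : Mq z' α' β') :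
    Mq (z + z') (α + α') (β + β') := ⟨h.1.add h'.1, h.2.add h'.2⟩

private theorem Mq.neg {c : ℚ} [Adm c] {z : QE c} {α β : ZMod 2} (h : Mq z α β) :
    Mq (-z) α β := ⟨h.1.neg, h.2.neg⟩

private theorem Mq.mulP {c : ℚ} [Adm c] {P z : QE c} {α β : ZMod 2} (hP : Mq P 0 1) (h : Mq z α β) :
    Mq (P * z) β α := by
  have hc : Md (c ^ 2 - 1) 1 := by
    have h1 := ((Md.coef c).mul (Md.coef c)).add Md.one.neg
    rw [mul_zero, zero_add] at h1
    rw [pow_two, sub_eq_add_neg]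
    exact h1
  constructor
  · have e : (P * z).re = P.re * z.re + (c ^ 2 - 1) * P.im * z.im := by
      simp
    rw [e]
    have h1 := (hP.1.mul h.1).add ((hc.mul hP.2).mul h.2)
    rw [zero_mul, one_mul, one_mul, zero_add] at h1
    exact h1
  · have e : (P * z).im = P.re * z.im + P.im * z.re := by
      simp
    rw [e]
    have h1 := (hP.1.mul h.2).add (hP.2.mul h.1)
    rw [zero_mul, one_mul, zero_add] at h1
    exact h1

private theorem Mq.u (c : ℚ) [Adm c] : Mq (uE c) 0 1 := ⟨Md.coef c, Md.one⟩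

private theorem Mq.v (c : ℚ) [Adm c] : Mq (vE c) 0 1 := ⟨Md.coef c, Md.one.neg⟩

private theorem Mq.zt {c : ℚ} [Adm c] {P Q l m r : QE c} {lα lβ mα mβ rα rβ : ZMod 2} (hP : Mq P 0 1) (hQ : Mq Q 0 1)
    (hl : Mq l lα lβ) (hm : Mq m mα mβ) (hr : Mq r rα rβ) (a b : Bool) :
    ∃ A B, Mq (zt P Q a b l m r) A B ∧ A + B = (lα + lβ) + (mα + mβ) + (rα + rβ) ∧
      (lα = lβ → mα = mβ → rα = rβ → A = lα + mα + rα) := by
  rcases a <;> rcases b
  · exact ⟨_, _, (hQ.mulP ((hl.add hr).add (hQ.mulP hm))).neg, by ring, fun h1 h2 h3 => by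
      rw [h1, h2, h3]
      ring⟩
  · exact ⟨_, _, ((hm.add (hQ.mulP hl)).add (hP.mulP hr)).neg, by ring, fun h1 h2 h3 => by
      rw [h1, h2, h3]
      ring⟩
  · exact ⟨_, _, ((hm.add (hQ.mulP hr)).add (hP.mulP hl)).neg, by ring, fun h1 h2 h3 => by
      rw [h1, h2, h3]
      ring⟩
  · exact ⟨_, _, (hP.mulP ((hl.add hr).add (hP.mulP hm))).neg, by ring, fun h1 h2 h3 => by
      rw [h1, h2, h3]
      ring⟩

/-- the condition modulo 2 -/
private theorem ZKnA_cz (c : ℚ) [Adm c] (s : Slice) (x y x' y' : ℕ → ℤ)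
    (h : CZ (uE c) (vE c) s (fun i => ⟨(x i : ℚ), (x' i : ℚ)⟩) (fun i => ⟨(y i : ℚ), (y' i : ℚ)⟩)) :
    Col s (fun i => ((x i + x' i : ℤ) : ZMod 2)) (fun i => ((y i + y' i : ℤ) : ZMod 2)) ∧
      ((∀ i, ((x i + x' i : ℤ) : ZMod 2) = 0) → Col s (fun i => (x i : ZMod 2)) (fun i => (y i : ZMod 2))) := by
  rcases s with ⟨p, _ | _ | ⟨t, a, b⟩, q⟩
  · exact ⟨trivial, fun _ => trivial⟩
  · exact ⟨trivial, fun _ => trivial⟩
  · have hsz : (sz t : ZMod 2) = 1 := by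
      rcases t <;> simp [sz]
    simp only [CZ] at h
    have I : ∀ u u' : ℤ, Mq (c := c) ⟨(u : ℚ), (u' : ℚ)⟩ (u : ZMod 2) (u' : ZMod 2) :=
      fun u u' => ⟨Md.int u, Md.int u'⟩
    have key : ∃ A B, Mq (c := c) ⟨((y (lp ⟨p, cross t a b, q⟩ + 1) : ℤ) : ℚ), ((y' (lp ⟨p, cross t a b, q⟩ + 1) : ℤ) : ℚ)⟩ A B ∧
        A + B = ((x (lp ⟨p, cross t a b, q⟩) : ZMod 2) + (x' (lp ⟨p, cross t a b, q⟩) : ZMod 2))
          + ((x (lp ⟨p, cross t a b, q⟩ + 1) : ZMod 2) + (x' (lp ⟨p, cross t a b, q⟩ + 1) : ZMod 2))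
          + ((x (lp ⟨p, cross t a b, q⟩ + 2) : ZMod 2) + (x' (lp ⟨p, cross t a b, q⟩ + 2) : ZMod 2)) ∧
        ((x (lp ⟨p, cross t a b, q⟩) : ZMod 2) = (x' (lp ⟨p, cross t a b, q⟩) : ZMod 2) →
          (x (lp ⟨p, cross t a b, q⟩ + 1) : ZMod 2) = (x' (lp ⟨p, cross t a b, q⟩ + 1) : ZMod 2) →
          (x (lp ⟨p, cross t a b, q⟩ + 2) : ZMod 2) = (x' (lp ⟨p, cross t a b, q⟩ + 2) : ZMod 2) →
          A = (x (lp ⟨p, cross t a b, q⟩) : ZMod 2) + (x (lp ⟨p, cross t a b, q⟩ + 1) : ZMod 2)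
            + (x (lp ⟨p, cross t a b, q⟩ + 2) : ZMod 2)) := by
      rw [h]
      split_ifs
      · exact Mq.zt (Mq.u c) (Mq.v c) (I _ _) (I _ _) (I _ _) a b
      · exact Mq.zt (Mq.v c) (Mq.u c) (I _ _) (I _ _) (I _ _) a b
    obtain ⟨A, B, h1, h2, h3⟩ := key
    have eA : A = (y (lp ⟨p, cross t a b, q⟩ + 1) : ZMod 2) := h1.1.uniq (Md.int _)
    have eB : B = (y' (lp ⟨p, cross t a b, q⟩ + 1) : ZMod 2) := h1.2.uniq (Md.int _)
    have n2 : ∀ z w : ZMod 2, z - w = z + w := by decide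
    have n3 : ∀ z : ZMod 2, z + z = 0 := by decide
    have n4 : ∀ z w : ZMod 2, z + w = 0 → z = w := by decide
    have n5 : ∀ l m r : ZMod 2, l + m + r - m = l - r := by decide
    constructor
    · simp only [Col]
      rw [hsz, one_mul]
      push_cast
      rw [← eA, ← eB, h2]
      exact n5 _ _ _
    · intro h0
      have h0' : ∀ i, (x i : ZMod 2) = (x' i : ZMod 2) := by
        intro i
        have := h0 i
        push_cast at this
        exact n4 _ _ this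
      simp only [Col]
      rw [hsz, one_mul, ← eA, h3 (h0' _) (h0' _) (h0' _)]
      exact n5 _ _ _

private theorem ZKnA_fit (c : ℚ) [Adm c] (s : Slice) (x y x' y' : ℕ → ℤ)
    (h : Fit s (fun i => (⟨(x i : ℚ), (x' i : ℚ)⟩ : QE c)) (fun i => (⟨(y i : ℚ), (y' i : ℚ)⟩ : QE c))) :
    Fit s (fun i => ((x i + x' i : ℤ) : ZMod 2)) (fun i => ((y i + y' i : ℤ) : ZMod 2)) ∧
      Fit s (fun i => (x i : ZMod 2)) (fun i => (y i : ZMod 2)) := by
  have k : ∀ a b a' b' : ℤ, (⟨(a : ℚ), (b : ℚ)⟩ : QE c) = ⟨(a' : ℚ), (b' : ℚ)⟩ →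
      ((a + b : ℤ) : ZMod 2) = ((a' + b' : ℤ) : ZMod 2) ∧ (a : ZMod 2) = (a' : ZMod 2) := by
    intro a b a' b' hab
    have h1 : (a : ℚ) = (a' : ℚ) := congrArg QuadraticAlgebra.re hab
    have h2 : (b : ℚ) = (b' : ℚ) := congrArg QuadraticAlgebra.im hab
    rw [Int.cast_injective h1, Int.cast_injective h2]
    exact ⟨rfl, rfl⟩
  rcases s with ⟨p, _ | _ | ⟨t, a, b⟩, q⟩
  · exact ⟨⟨fun i hi => (k _ _ _ _ (h.1 i hi)).1, fun i hi => (k _ _ _ _ (h.2 i hi)).1⟩,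
      ⟨fun i hi => (k _ _ _ _ (h.1 i hi)).2, fun i hi => (k _ _ _ _ (h.2 i hi)).2⟩⟩
  · exact ⟨⟨fun i hi => (k _ _ _ _ (h.1 i hi)).1, fun i hi => (k _ _ _ _ (h.2 i hi)).1⟩,
      ⟨fun i hi => (k _ _ _ _ (h.1 i hi)).2, fun i hi => (k _ _ _ _ (h.2 i hi)).2⟩⟩
  · exact ⟨fun i hi => (k _ _ _ _ (h i hi)).1, fun i hi => (k _ _ _ _ (h i hi)).2⟩

private theorem ZKnA_runa (c : ℚ) [Adm c] (w : Word) : ∀ a b : ℕ → ℕ → ℤ,
    Run (colZ (uE c) (vE c)) w (zz c a b) →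
    Run (colM (ZMod 2)) w (fun j i => ((a j i + b j i : ℤ) : ZMod 2)) := by
  induction w with
  | nil => intro a b _; trivial
  | cons s w ih =>
    intro a b hx
    exact ⟨⟨(ZKnA_fit c s (a 0) (a 1) (b 0) (b 1) hx.1.1).1, (ZKnA_cz c s (a 0) (a 1) (b 0) (b 1) hx.1.2).1⟩,
      ih (fun j => a (j + 1)) (fun j => b (j + 1)) hx.2⟩

private theorem ZKnA_runb (c : ℚ) [Adm c] (w : Word) : ∀ a b : ℕ → ℕ → ℤ,
    Run (colZ (uE c) (vE c)) w (zz c a b) → (∀ j i, ((a j i + b j i : ℤ) : ZMod 2) = 0) →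
    Run (colM (ZMod 2)) w (fun j i => (a j i : ZMod 2)) := by
  induction w with
  | nil => intro a b _ _; trivial
  | cons s w ih =>
    intro a b hx h'
    exact ⟨⟨(ZKnA_fit c s (a 0) (a 1) (b 0) (b 1) hx.1.1).2, (ZKnA_cz c s (a 0) (a 1) (b 0) (b 1) hx.1.2).2 (h' 0)⟩,
      ih (fun j => a (j + 1)) (fun j => b (j + 1)) hx.2 (fun j => h' (j + 1))⟩

private theorem ZKnA_zero {c : ℚ} {a b : ℤ} (h : (⟨(a : ℚ), (b : ℚ)⟩ : QE c) = 0) : a = 0 ∧ b = 0 := by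
  have h1 : (a : ℚ) = 0 := congrArg QuadraticAlgebra.re h
  have h2 : (b : ℚ) = 0 := congrArg QuadraticAlgebra.im h
  exact ⟨by exact_mod_cast h1, by exact_mod_cast h2⟩

theorem z_mod2a (c : ℚ) [Adm c] (w : Word) (a b : ℕ → ℕ → ℤ) (h : zz c a b ∈ Zc (uE c) (vE c) w) :
    (fun j i => ((a j i + b j i : ℤ) : ZMod 2)) ∈ Dehn (ZMod 2) w := by
  refine ⟨⟨ZKnA_runa c w a b h.1.1, fun _ => Submodule.mem_top, fun j hj => ?_⟩, ?_⟩
  · funext i
    have h1 := ZKnA_zero (c := c) (congrFun (h.1.2.2 j hj) i)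
    show ((a j i + b j i : ℤ) : ZMod 2) = 0
    rw [h1.1, h1.2, add_zero, Int.cast_zero]
  · funext i
    have h1 := ZKnA_zero (c := c) (congrFun h.2 i)
    show ((a 0 i + b 0 i : ℤ) : ZMod 2) = 0
    rw [h1.1, h1.2, add_zero, Int.cast_zero]

theorem z_mod2b (c : ℚ) [Adm c] (w : Word) (a b : ℕ → ℕ → ℤ) (h : zz c a b ∈ Zc (uE c) (vE c) w)
    (h' : ∀ j i, ((a j i + b j i : ℤ) : ZMod 2) = 0) : (fun j i => (a j i : ZMod 2)) ∈ Dehn (ZMod 2) w := by
  refine ⟨⟨ZKnA_runb c w a b h.1.1 h', fun _ => Submodule.mem_top, fun j hj => ?_⟩, ?_⟩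
  · funext i
    have h1 := ZKnA_zero (c := c) (congrFun (h.1.2.2 j hj) i)
    show (a j i : ZMod 2) = 0
    rw [h1.1, Int.cast_zero]
  · funext i
    have h1 := ZKnA_zero (c := c) (congrFun h.2 i)
    show (a 0 i : ZMod 2) = 0
    rw [h1.1, Int.cast_zero]

end Pool.Agent.Lib.MP_177a0e_gt.LT
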